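import Pool.Agent.Lib_helper68.SEL.Defs
import Mathlib

/-! Block K7A (MP_77948b_nt): lattice points of a residue class in an ellipse. -/

namespace Pool.Agent.SEL

open Complex MeasureTheory Filter Topology

/-- the cell of a lattice point -/
def k7aCell (z : ℂ) (N : ℕ) (v : ℤ × ℤ) : Set ℂ :=
  {w : ℂ | ((v.1 : ℝ) * z.re + v.2 ≤ w.re ∧ w.re < (v.1 : ℝ) * z.re + v.2 + N) ∧
    ((v.1 : ℝ) * z.im ≤ w.im ∧ w.im < (v.1 : ℝ) * z.im + N * z.im)}

lemma k7a_cell_meas (z : ℂ) (N : ℕ) (v : ℤ × ℤ) : MeasurableSet (k7aCell z N v) := by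
  unfold k7aCell
  refine ((measurableSet_le measurable_const Complex.measurable_re).inter
    (measurableSet_lt Complex.measurable_re measurable_const)).inter
    ((measurableSet_le measurable_const Complex.measurable_im).inter
    (measurableSet_lt Complex.measurable_im measurable_const))

lemma k7a_cell_vol {z : ℂ} (hz : 0 < z.im) (N : ℕ) (v : ℤ × ℤ) :
    volume (k7aCell z N v) = ENNReal.ofReal ((N : ℝ) ^ 2 * z.im) := by
  have h := Complex.volume_preserving_equiv_real_prod.symm.measure_preimage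
    (k7a_cell_meas z N v).nullMeasurableSet
  rw [← h]
  have h2 : (Complex.measurableEquivRealProd.symm ⁻¹' k7aCell z N v) =
      Set.Ico ((v.1 : ℝ) * z.re + v.2) ((v.1 : ℝ) * z.re + v.2 + N) ×ˢ
        Set.Ico ((v.1 : ℝ) * z.im) ((v.1 : ℝ) * z.im + N * z.im) := by
    ext p
    simp [k7aCell, Complex.measurableEquivRealProd]
  have e1 : (v.1 : ℝ) * z.re + v.2 + N - ((v.1 : ℝ) * z.re + v.2) = N := by ring
  have e2 : (v.1 : ℝ) * z.im + N * z.im - (v.1 : ℝ) * z.im = N * z.im := by ring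
  rw [h2, Measure.volume_eq_prod, Measure.prod_prod, Real.volume_Ico, Real.volume_Ico,
    e1, e2, ← ENNReal.ofReal_mul (by positivity)]
  congr 1
  ring

lemma k7a_cell_dist {z : ℂ} (hz : 0 < z.im) {N : ℕ} {v : ℤ × ℤ} {w : ℂ}
    (hw : w ∈ k7aCell z N v) : ‖w - ((v.1 : ℂ) * z + v.2)‖ ≤ N * (1 + z.im) := by
  obtain ⟨⟨h1, h2⟩, h3, h4⟩ := hw
  have hre : (w - ((v.1 : ℂ) * z + v.2)).re = w.re - ((v.1 : ℝ) * z.re + v.2) := by
    simp
  have him : (w - ((v.1 : ℂ) * z + v.2)).im = w.im - (v.1 : ℝ) * z.im := by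
    simp
  have h5 := Complex.norm_le_abs_re_add_abs_im (w - ((v.1 : ℂ) * z + v.2))
  rw [hre, him, abs_of_nonneg (by linarith), abs_of_nonneg (by linarith)] at h5
  nlinarith

lemma k7a_floor_unique {N : ℕ} (hN : 0 < N) {c₀ c c' : ℤ} (h : (N : ℤ) ∣ c - c₀)
    (h' : (N : ℤ) ∣ c' - c₀) (h1 : c' < c + N) (h2 : c < c' + N) : c = c' := by
  have h3 : (N : ℤ) ∣ c - c' := by
    have := dvd_sub h h'
    simpa using this
  have h4 : |c - c'| < N := by
    rw [abs_lt]; constructor <;> linarith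
  have := Int.eq_zero_of_abs_lt_dvd h3 h4
  linarith

lemma k7a_cell_disj {z : ℂ} (hz : 0 < z.im) {N : ℕ} (hN : 0 < N) {c₀ d₀ : ℤ} {v v' : ℤ × ℤ}
    (hv : (N : ℤ) ∣ v.1 - c₀ ∧ (N : ℤ) ∣ v.2 - d₀)
    (hv' : (N : ℤ) ∣ v'.1 - c₀ ∧ (N : ℤ) ∣ v'.2 - d₀) {w : ℂ}
    (hw : w ∈ k7aCell z N v) (hw' : w ∈ k7aCell z N v') : v = v' := by
  obtain ⟨⟨h1, h2⟩, h3, h4⟩ := hw
  obtain ⟨⟨h1', h2'⟩, h3', h4'⟩ := hw'
  have hc : v.1 = v'.1 := by
    apply k7a_floor_unique hN hv.1 hv'.1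
    · have : (v'.1 : ℝ) * z.im < (v.1 + N) * z.im := by linarith
      have := lt_of_mul_lt_mul_right this hz.le
      exact_mod_cast this
    · have : (v.1 : ℝ) * z.im < (v'.1 + N) * z.im := by linarith
      have := lt_of_mul_lt_mul_right this hz.le
      exact_mod_cast this
  have hd : v.2 = v'.2 := by
    rw [hc] at h1 h2
    apply k7a_floor_unique hN hv.2 hv'.2
    · have : (v'.2 : ℝ) < v.2 + N := by linarith
      exact_mod_cast this
    · have : (v.2 : ℝ) < v'.2 + N := by linarith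
      exact_mod_cast this
  exact Prod.ext hc hd

lemma k7a_exists_floor {N : ℕ} (hN : 0 < N) (c₀ : ℤ) (t : ℝ) :
    ∃ c : ℤ, (N : ℤ) ∣ c - c₀ ∧ (c : ℝ) ≤ t ∧ t < c + N := by
  have hN' : (0 : ℝ) < N := by exact_mod_cast hN
  refine ⟨c₀ + N * ⌊(t - c₀) / N⌋, ⟨⌊(t - c₀) / N⌋, by ring⟩, ?_, ?_⟩
  · have := Int.floor_le ((t - c₀) / N)
    rw [le_div_iff₀ hN'] at this
    push_cast
    linarith
  · have := Int.lt_floor_add_one ((t - c₀) / N)
    rw [div_lt_iff₀ hN'] at this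
    push_cast
    linarith

lemma k7a_exists_cell {z : ℂ} (hz : 0 < z.im) {N : ℕ} (hN : 0 < N) (c₀ d₀ : ℤ) (w : ℂ) :
    ∃ v : ℤ × ℤ, ((N : ℤ) ∣ v.1 - c₀ ∧ (N : ℤ) ∣ v.2 - d₀) ∧ w ∈ k7aCell z N v := by
  obtain ⟨c, hc, hc1, hc2⟩ := k7a_exists_floor hN c₀ (w.im / z.im)
  obtain ⟨d, hd, hd1, hd2⟩ := k7a_exists_floor hN d₀ (w.re - c * z.re)
  rw [le_div_iff₀ hz] at hc1
  rw [div_lt_iff₀ hz] at hc2
  refine ⟨(c, d), ⟨hc, hd⟩, ⟨?_, ?_⟩, ?_, ?_⟩
  · simp only; linarith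
  · simp only; linarith
  · simp only; linarith
  · simp only; linarith

lemma k7a_ball_vol {r : ℝ} (hr : 0 ≤ r) :
    volume (Metric.closedBall (0 : ℂ) r) = ENNReal.ofReal (Real.pi * r ^ 2) := by
  have h2 : ((NNReal.pi : NNReal) : ENNReal) = ENNReal.ofReal Real.pi := by
    rw [ENNReal.ofReal, ENNReal.coe_inj]
    ext; simp [Real.coe_toNNReal _ Real.pi_pos.le]
  rw [Complex.volume_closedBall, h2, ← ENNReal.ofReal_pow hr, ← ENNReal.ofReal_mul (by positivity)]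
  congr 1
  ring

lemma k7a_union_vol {z : ℂ} (hz : 0 < z.im) {N : ℕ} (hN : 0 < N) {c₀ d₀ : ℤ}
    (S : Finset (ℤ × ℤ)) (hS : ∀ v ∈ S, (N : ℤ) ∣ v.1 - c₀ ∧ (N : ℤ) ∣ v.2 - d₀) :
    volume (⋃ v ∈ S, k7aCell z N v) = ENNReal.ofReal (S.card * ((N : ℝ) ^ 2 * z.im)) := by
  rw [measure_biUnion_finset]
  · rw [Finset.sum_congr rfl (fun v _ => k7a_cell_vol hz N v), Finset.sum_const, nsmul_eq_mul,
      ENNReal.ofReal_mul (p := (S.card : ℝ)) (by positivity), ENNReal.ofReal_natCast]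
  · intro v hv v' hv' hne
    rw [Function.onFun, Set.disjoint_left]
    intro w hw hw'
    exact hne (k7a_cell_disj hz hN (hS v hv) (hS v' hv') hw hw')
  · intro v _
    exact k7a_cell_meas z N v

theorem lattice_all_pr : ∃ C : ℝ, 0 < C ∧ ∀ N : ℕ, 0 < N → ∀ (c₀ d₀ : ℤ) (z : ℂ), 1 / 2 ≤ z.im →
    ∀ R : ℝ, 0 ≤ R → ∀ S : Finset (ℤ × ℤ), (∀ v : ℤ × ℤ, v ∈ S ↔ (N : ℤ) ∣ v.1 - c₀ ∧
      (N : ℤ) ∣ v.2 - d₀ ∧ ‖(v.1 : ℂ) * z + v.2‖ ≤ R) →
      |(S.card : ℝ) - Real.pi * R ^ 2 / (N ^ 2 * z.im)| ≤ C * (R + 1) := by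
  refine ⟨30, by norm_num, ?_⟩
  intro N hN c₀ d₀ z hz2 R hR S hS
  have hz : 0 < z.im := by linarith
  have hN1 : (1 : ℝ) ≤ N := by exact_mod_cast hN
  set y := z.im with hy
  set δ : ℝ := N * (1 + y) with hδ
  have hδ0 : 0 < δ := by positivity
  have hV : 0 < (N : ℝ) ^ 2 * y := by positivity
  have hS' : ∀ v ∈ S, (N : ℤ) ∣ v.1 - c₀ ∧ (N : ℤ) ∣ v.2 - d₀ := fun v hv =>
    ⟨((hS v).1 hv).1, ((hS v).1 hv).2.1⟩
  have hU := k7a_union_vol hz hN S hS'
  -- upper bound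
  have hup : (S.card : ℝ) * ((N : ℝ) ^ 2 * y) ≤ Real.pi * (R + δ) ^ 2 := by
    have hsub : (⋃ v ∈ S, k7aCell z N v) ⊆ Metric.closedBall (0 : ℂ) (R + δ) := by
      intro w hw
      simp only [Set.mem_iUnion] at hw
      obtain ⟨v, hv, hw⟩ := hw
      have h1 := k7a_cell_dist hz hw
      have h2 := ((hS v).1 hv).2.2
      rw [mem_closedBall_zero_iff]
      calc ‖w‖ = ‖((v.1 : ℂ) * z + v.2) + (w - ((v.1 : ℂ) * z + v.2))‖ := by congr 1; ring
        _ ≤ ‖(v.1 : ℂ) * z + v.2‖ + ‖w - ((v.1 : ℂ) * z + v.2)‖ := norm_add_le _ _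
        _ ≤ R + δ := add_le_add h2 h1
    have h := measure_mono (μ := volume) hsub
    rw [hU, k7a_ball_vol (by positivity)] at h
    exact (ENNReal.ofReal_le_ofReal_iff (by positivity)).1 h
  -- lower bound
  have hlow : δ ≤ R → Real.pi * (R - δ) ^ 2 ≤ (S.card : ℝ) * ((N : ℝ) ^ 2 * y) := by
    intro hle
    have hsub : Metric.closedBall (0 : ℂ) (R - δ) ⊆ (⋃ v ∈ S, k7aCell z N v) := by
      intro w hw
      rw [mem_closedBall_zero_iff] at hw
      obtain ⟨v, hv, hwv⟩ := k7a_exists_cell hz hN c₀ d₀ w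
      have h1 := k7a_cell_dist hz hwv
      simp only [Set.mem_iUnion]
      refine ⟨v, (hS v).2 ⟨hv.1, hv.2, ?_⟩, hwv⟩
      calc ‖(v.1 : ℂ) * z + v.2‖ = ‖w - (w - ((v.1 : ℂ) * z + v.2))‖ := by congr 1; ring
        _ ≤ ‖w‖ + ‖w - ((v.1 : ℂ) * z + v.2)‖ := norm_sub_le _ _
        _ ≤ (R - δ) + δ := add_le_add hw h1
        _ = R := by ring
    have h := measure_mono (μ := volume) hsub
    rw [hU, k7a_ball_vol (by linarith)] at h
    exact (ENNReal.ofReal_le_ofReal_iff (by positivity)).1 h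
  have hpi := Real.pi_pos
  have hpi4 : Real.pi < 3.15 := Real.pi_lt_d2
  have hdV : δ ≤ 3 * ((N : ℝ) ^ 2 * y) := by
    rw [hδ]
    have : (1 + y) ≤ 3 * y := by linarith
    have h2 : (N : ℝ) * (3 * y) ≤ (N : ℝ) * (N * (3 * y)) := by
      apply mul_le_mul_of_nonneg_left _ (by positivity)
      nlinarith
    nlinarith
  rw [abs_le]
  constructor
  · -- lower
    have hmain : Real.pi * R ^ 2 / (N ^ 2 * y) ≤ S.card + 20 * R := by
      rw [div_le_iff₀ hV]
      by_cases hle : δ ≤ R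
      · have h1 := hlow hle
        have h2 : Real.pi * (2 * R * δ) ≤ 20 * R * ((N : ℝ) ^ 2 * y) := by
          have : Real.pi * (2 * R * δ) ≤ 3.15 * (2 * R * (3 * ((N : ℝ) ^ 2 * y))) := by
            gcongr
          nlinarith [mul_nonneg hR hV.le]
        nlinarith [mul_nonneg hpi.le (sq_nonneg δ)]
      · push Not at hle
        have h2 : Real.pi * R ^ 2 ≤ 20 * R * ((N : ℝ) ^ 2 * y) := by
          have : Real.pi * R ^ 2 ≤ 3.15 * (R * (3 * ((N : ℝ) ^ 2 * y))) := by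
            have h3 : R ^ 2 ≤ R * (3 * ((N : ℝ) ^ 2 * y)) := by
              rw [sq]
              exact mul_le_mul_of_nonneg_left (hle.le.trans hdV) hR
            gcongr
          nlinarith [mul_nonneg hR hV.le]
        have h4 : 0 ≤ (S.card : ℝ) * ((N : ℝ) ^ 2 * y) := by positivity
        nlinarith
    linarith
  · -- upper
    by_cases hRy : y ≤ R
    · have hmain : (S.card : ℝ) ≤ Real.pi * R ^ 2 / (N ^ 2 * y) + 30 * (R + 1) := by
        rw [← sub_le_iff_le_add, le_div_iff₀ hV]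
        have h2 : Real.pi * (2 * R * δ) ≤ 19 * R * ((N : ℝ) ^ 2 * y) := by
          have : Real.pi * (2 * R * δ) ≤ 3.15 * (2 * R * (3 * ((N : ℝ) ^ 2 * y))) := by
            gcongr
          nlinarith [mul_nonneg hR hV.le]
        have h3 : Real.pi * δ ^ 2 ≤ 3.15 * (R + 4) * ((N : ℝ) ^ 2 * y) := by
          have h4 : δ ^ 2 ≤ (R + 4) * ((N : ℝ) ^ 2 * y) := by
            rw [hδ, mul_pow]
            have h5 : (1 + y) ^ 2 ≤ (R + 4) * y := by nlinarith
            calc (N : ℝ) ^ 2 * (1 + y) ^ 2 ≤ (N : ℝ) ^ 2 * ((R + 4) * y) := by gcongr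
              _ = _ := by ring
          calc Real.pi * δ ^ 2 ≤ 3.15 * ((R + 4) * ((N : ℝ) ^ 2 * y)) := by gcongr
            _ = _ := by ring
        nlinarith [mul_nonneg hR hV.le]
      linarith
    · push Not at hRy
      have hrow : ∀ v ∈ S, v.1 = 0 ∧ v.2 ∈ Finset.Icc (-⌊R⌋) ⌊R⌋ := by
        intro v hv
        have h1 := ((hS v).1 hv).2.2
        have h2 : |(v.1 : ℝ)| * y ≤ ‖(v.1 : ℂ) * z + v.2‖ := by
          have := Complex.abs_im_le_norm ((v.1 : ℂ) * z + v.2)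
          have h3 : ((v.1 : ℂ) * z + v.2).im = (v.1 : ℝ) * z.im := by simp
          rw [h3, abs_mul, abs_of_pos hz] at this
          exact this
        have h4 : v.1 = 0 := by
          by_contra hne
          have h5 : (1 : ℝ) ≤ |(v.1 : ℝ)| := by
            rw [← Int.cast_abs]
            exact_mod_cast Int.one_le_abs hne
          nlinarith
        refine ⟨h4, ?_⟩
        rw [h4] at h1
        simp only [Int.cast_zero, zero_mul, zero_add] at h1
        have h6 : ‖(v.2 : ℂ)‖ = |(v.2 : ℝ)| := by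
          rw [← Complex.ofReal_intCast, Complex.norm_real, Real.norm_eq_abs]
        rw [h6, abs_le] at h1
        rw [Finset.mem_Icc]
        constructor
        · have : -(v.2 : ℝ) ≤ R := by linarith [h1.1]
          have h7 : -v.2 ≤ ⌊R⌋ := Int.le_floor.2 (by push_cast; exact this)
          linarith
        · exact Int.le_floor.2 h1.2
      have hcard : S.card ≤ (Finset.Icc (-⌊R⌋) ⌊R⌋).card := by
        apply Finset.card_le_card_of_injOn (fun v => v.2)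
        · intro v hv
          exact (hrow v hv).2
        · intro v hv v' hv' h
          exact Prod.ext ((hrow v hv).1.trans (hrow v' hv').1.symm) h
      have hf0 : 0 ≤ ⌊R⌋ := Int.floor_nonneg.2 hR
      have hcard2 : (S.card : ℝ) ≤ 2 * R + 1 := by
        have h8 : ((Finset.Icc (-⌊R⌋) ⌊R⌋).card : ℤ) = 2 * ⌊R⌋ + 1 := by
          rw [Int.card_Icc]
          rw [Int.toNat_of_nonneg (by linarith)]
          ring
        have h9 : (S.card : ℤ) ≤ 2 * ⌊R⌋ + 1 := by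
          rw [← h8]; exact_mod_cast hcard
        have h10 : (S.card : ℝ) ≤ 2 * (⌊R⌋ : ℝ) + 1 := by exact_mod_cast h9
        linarith [Int.floor_le R]
      have h11 : 0 ≤ Real.pi * R ^ 2 / (N ^ 2 * y) := by positivity
      linarith

theorem lattice_all : type_of% @lattice_all_pr := @lattice_all_pr

end Pool.Agent.SEL
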