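import Pool.Agent.Lib_helper68.SEL.Defs
import Pool.Agent.Lib_helper68.GL2.B1

/-! Block K1: Kloosterman sums to squarefree moduli. -/

namespace Pool.Agent.SEL

open Complex

/-- the additive character of `ZMod (m * n)` by the Chinese remainder theorem -/
theorem sel_k1_char {m n : ℕ} [NeZero m] [NeZero n] {u v : ℤ} (huv : u * n + v * m = 1)
    (x : ZMod (m * n)) :
    (ZMod.stdAddChar (N := m * n) x : ℂ) =
      (ZMod.stdAddChar (N := m) ((u : ZMod m) * ZMod.castHom (dvd_mul_right m n) (ZMod m) x) : ℂ) *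
      (ZMod.stdAddChar (N := n) ((v : ZMod n) * ZMod.castHom (dvd_mul_left n m) (ZMod n) x) : ℂ) := by
  obtain ⟨k, rfl⟩ := ZMod.intCast_surjective x
  have c1 : ZMod.castHom (dvd_mul_right m n) (ZMod m) (k : ZMod (m * n)) = (k : ZMod m) :=
    map_intCast _ _
  have c2 : ZMod.castHom (dvd_mul_left n m) (ZMod n) (k : ZMod (m * n)) = (k : ZMod n) :=
    map_intCast _ _
  rw [c1, c2]
  have e1 : (u : ZMod m) * (k : ZMod m) = ((u * k : ℤ) : ZMod m) := by push_cast; ring
  have e2 : (v : ZMod n) * (k : ZMod n) = ((v * k : ℤ) : ZMod n) := by push_cast; ring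
  rw [e1, e2, ZMod.stdAddChar_coe, ZMod.stdAddChar_coe, ZMod.stdAddChar_coe, ← Complex.exp_add]
  congr 1
  have hp0 : (m : ℂ) ≠ 0 := by exact_mod_cast NeZero.ne m
  have hc0 : (n : ℂ) ≠ 0 := by exact_mod_cast NeZero.ne n
  have hrs' : (u : ℂ) * n + v * m = 1 := by exact_mod_cast huv
  push_cast
  field_simp
  linear_combination (-(k : ℂ)) * hrs'

/-- the Kloosterman sum over the units -/
noncomputable def sel_k1_K (r : ℕ) [NeZero r] (α t : ZMod r) : ℂ :=
  ∑ x : (ZMod r)ˣ, (ZMod.stdAddChar (N := r) (α * ((x⁻¹ : (ZMod r)ˣ) : ZMod r) + t * x) : ℂ)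

theorem sel_k1_mul {m n : ℕ} [NeZero m] [NeZero n] (h : m.Coprime n) {u v : ℤ}
    (huv : u * n + v * m = 1) (α t : ZMod (m * n)) :
    sel_k1_K (m * n) α t =
      sel_k1_K m ((u : ZMod m) * ZMod.castHom (dvd_mul_right m n) (ZMod m) α)
          ((u : ZMod m) * ZMod.castHom (dvd_mul_right m n) (ZMod m) t) *
        sel_k1_K n ((v : ZMod n) * ZMod.castHom (dvd_mul_left n m) (ZMod n) α)
          ((v : ZMod n) * ZMod.castHom (dvd_mul_left n m) (ZMod n) t) := by
  classical
  set e : (ZMod (m * n))ˣ ≃* (ZMod m)ˣ × (ZMod n)ˣ :=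
    (Units.mapEquiv (ZMod.chineseRemainder h).toMulEquiv).trans MulEquiv.prodUnits with he
  have h1 : ∀ x : (ZMod (m * n))ˣ, (((e x).1 : (ZMod m)ˣ) : ZMod m) =
      ZMod.castHom (dvd_mul_right m n) (ZMod m) (x : ZMod (m * n)) := by
    intro x
    have : (((e x).1 : (ZMod m)ˣ) : ZMod m) = (ZMod.chineseRemainder h (x : ZMod (m * n))).1 := rfl
    rw [this]
    exact RingHom.congr_fun (RingHom.ext_zmod ((RingHom.fst _ _).comp
      (ZMod.chineseRemainder h).toRingHom) (ZMod.castHom (dvd_mul_right m n) (ZMod m))) _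
  have h2 : ∀ x : (ZMod (m * n))ˣ, (((e x).2 : (ZMod n)ˣ) : ZMod n) =
      ZMod.castHom (dvd_mul_left n m) (ZMod n) (x : ZMod (m * n)) := by
    intro x
    have : (((e x).2 : (ZMod n)ˣ) : ZMod n) = (ZMod.chineseRemainder h (x : ZMod (m * n))).2 := rfl
    rw [this]
    exact RingHom.congr_fun (RingHom.ext_zmod ((RingHom.snd _ _).comp
      (ZMod.chineseRemainder h).toRingHom) (ZMod.castHom (dvd_mul_left n m) (ZMod n))) _
  have h3 : ∀ x : (ZMod (m * n))ˣ,
      (ZMod.stdAddChar (N := m * n) (α * ((x⁻¹ : (ZMod (m * n))ˣ) : ZMod (m * n)) + t * x) : ℂ) =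
      (ZMod.stdAddChar (N := m) ((u : ZMod m) * ZMod.castHom (dvd_mul_right m n) (ZMod m) α *
          ((((e x).1)⁻¹ : (ZMod m)ˣ) : ZMod m) +
          (u : ZMod m) * ZMod.castHom (dvd_mul_right m n) (ZMod m) t * ((e x).1 : (ZMod m)ˣ)) : ℂ) *
      (ZMod.stdAddChar (N := n) ((v : ZMod n) * ZMod.castHom (dvd_mul_left n m) (ZMod n) α *
          ((((e x).2)⁻¹ : (ZMod n)ˣ) : ZMod n) +
          (v : ZMod n) * ZMod.castHom (dvd_mul_left n m) (ZMod n) t * ((e x).2 : (ZMod n)ˣ)) : ℂ) := by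
    intro x
    have i1 : ((((e x).1)⁻¹ : (ZMod m)ˣ) : ZMod m) =
        ZMod.castHom (dvd_mul_right m n) (ZMod m) ((x⁻¹ : (ZMod (m * n))ˣ) : ZMod (m * n)) := by
      rw [← h1, map_inv, Prod.fst_inv]
    have i2 : ((((e x).2)⁻¹ : (ZMod n)ˣ) : ZMod n) =
        ZMod.castHom (dvd_mul_left n m) (ZMod n) ((x⁻¹ : (ZMod (m * n))ˣ) : ZMod (m * n)) := by
      rw [← h2, map_inv, Prod.snd_inv]
    rw [i1, i2, h1, h2, sel_k1_char huv, RingHom.map_add, RingHom.map_mul, RingHom.map_mul,
      RingHom.map_add, RingHom.map_mul, RingHom.map_mul,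
      mul_add, mul_add, mul_assoc, mul_assoc, mul_assoc, mul_assoc]
  unfold sel_k1_K
  rw [Finset.sum_mul_sum, ← Finset.sum_product', Finset.univ_product_univ]
  rw [← Equiv.sum_comp e.toEquiv]
  exact Finset.sum_congr rfl fun x _ => h3 x

theorem sel_k1_prime {p : ℕ} [Fact p.Prime] [NeZero p] (α t : ZMod p) (hα : IsUnit α) :
    ‖sel_k1_K p α t‖ ≤ 2 * (p : ℝ) ^ (3 / 4 : ℝ) := by
  have h := Pool.Agent.GL2.kloosterman_pr α t hα.ne_zero
  convert h using 2
  unfold sel_k1_K
  refine Finset.sum_bij' (fun x _ => (x : ZMod p))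
    (fun x hx => Units.mk0 x (Finset.mem_filter.1 hx).2) ?_ ?_ ?_ ?_ ?_
  · intro x _
    exact Finset.mem_filter.2 ⟨Finset.mem_univ _, x.ne_zero⟩
  · intro x _
    exact Finset.mem_univ _
  · intro x _
    ext; rfl
  · intro x _
    rfl
  · intro x _
    rw [Units.val_inv_eq_inv_val]

theorem sel_k1_main : ∀ (r : ℕ) [NeZero r], Squarefree r → ∀ (α t : ZMod r), IsUnit α →
    ‖sel_k1_K r α t‖ ≤ 2 ^ r.primeFactors.card * (r : ℝ) ^ (3 / 4 : ℝ) := by
  intro r
  induction r using Nat.strong_induction_on with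
  | _ r ih =>
    intro hr0 hr α t hα
    by_cases hr1 : r = 1
    · subst hr1
      unfold sel_k1_K
      refine (norm_sum_le _ _).trans ?_
      simp
    · set p := r.minFac with hp
      have hpp : p.Prime := Nat.minFac_prime hr1
      obtain ⟨n, hn⟩ : p ∣ r := Nat.minFac_dvd r
      have hn0 : n ≠ 0 := by
        rintro rfl
        exact (NeZero.ne r) (by rw [hn, mul_zero])
      have : Fact p.Prime := ⟨hpp⟩
      have : NeZero p := ⟨hpp.ne_zero⟩
      have : NeZero n := ⟨hn0⟩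
      clear_value p
      subst hn
      have hcop : p.Coprime n := Nat.coprime_of_squarefree_mul hr
      have hnsq : Squarefree n := hr.of_mul_right
      obtain ⟨u, v, huv⟩ : ∃ u v : ℤ, u * n + v * p = 1 := by
        obtain ⟨a, b, hab⟩ := (Nat.isCoprime_iff_coprime.2 hcop)
        exact ⟨b, a, by linear_combination hab⟩
      have hu : IsUnit (u : ZMod p) := by
        have := congrArg (Int.cast : ℤ → ZMod p) huv
        push_cast at this
        rw [ZMod.natCast_self, mul_zero, add_zero] at this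
        exact IsUnit.of_mul_eq_one _ this
      have hv : IsUnit (v : ZMod n) := by
        have := congrArg (Int.cast : ℤ → ZMod n) huv
        push_cast at this
        rw [ZMod.natCast_self, mul_zero, zero_add] at this
        exact IsUnit.of_mul_eq_one _ this
      have hlt : n < p * n := by
        have := hpp.two_le
        have : 0 < n := Nat.pos_of_ne_zero hn0
        nlinarith
      rw [sel_k1_mul hcop huv α t, norm_mul]
      have b1 := sel_k1_prime ((u : ZMod p) * ZMod.castHom (dvd_mul_right p n) (ZMod p) α)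
          ((u : ZMod p) * ZMod.castHom (dvd_mul_right p n) (ZMod p) t) (hu.mul (hα.map _))
      have b2 := ih n hlt hnsq ((v : ZMod n) * ZMod.castHom (dvd_mul_left n p) (ZMod n) α)
          ((v : ZMod n) * ZMod.castHom (dvd_mul_left n p) (ZMod n) t) (hv.mul (hα.map _))
      refine (mul_le_mul b1 b2 (norm_nonneg _) (by positivity)).trans (le_of_eq ?_)
      have hcard : (p * n).primeFactors.card = n.primeFactors.card + 1 := by
        rw [hcop.primeFactors_mul, Finset.card_union_of_disjoint hcop.disjoint_primeFactors,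
          hpp.primeFactors, Finset.card_singleton, add_comm]
      rw [hcard, pow_succ, Nat.cast_mul, Real.mul_rpow (Nat.cast_nonneg _) (Nat.cast_nonneg _)]
      ring

/-- block K1: Kloosterman sums to squarefree moduli -/
theorem kloosterman_sq_pr {r : ℕ} [NeZero r] (hr : Squarefree r) (α t : ZMod r) (hα : IsUnit α) :
    ‖∑ x : (ZMod r)ˣ, (ZMod.stdAddChar (N := r) (α * ((x⁻¹ : (ZMod r)ˣ) : ZMod r) + t * x) : ℂ)‖ ≤
      2 ^ r.primeFactors.card * (r : ℝ) ^ (3 / 4 : ℝ) :=
  sel_k1_main r hr α t hα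

theorem kloosterman_sq : type_of% @kloosterman_sq_pr := @kloosterman_sq_pr

end Pool.Agent.SEL
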