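import Pool.Agent.Lib_helper68.SEL.Defs

/-! SEL block Z1: local identities. -/

namespace Pool.Agent.SEL

open Complex MeasureTheory Filter Topology Pool.Agent.GL2

theorem sel_Z1_rt_cases (x : ℝ) : rt x + (rt x)⁻¹ = x ∧ 1 ≤ ‖rt x‖ ∧ ‖rt x‖ ≤ max 1 |x| ∧
    (starRingEnd ℂ (rt x) = (rt x)⁻¹ ∨ starRingEnd ℂ (rt x) = rt x) := by
  by_cases h : x ^ 2 ≤ 4
  · have hr : rt x = ⟨x / 2, √(4 - x ^ 2) / 2⟩ := by unfold rt; rw [if_pos h]
    have hs : √(4 - x ^ 2) ^ 2 = 4 - x ^ 2 := Real.sq_sqrt (by linarith)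
    have hn : normSq (rt x) = 1 := by
      rw [hr, normSq_mk]; nlinarith
    have hne : rt x ≠ 0 := by
      intro h0; rw [h0] at hn; simp at hn
    have hinv : (rt x)⁻¹ = starRingEnd ℂ (rt x) := by
      rw [Complex.inv_def, hn]; simp
    have hnorm : ‖rt x‖ = 1 := by
      have : ‖rt x‖ ^ 2 = 1 := by rw [← Complex.normSq_eq_norm_sq, hn]
      nlinarith [norm_nonneg (rt x)]
    refine ⟨?_, by rw [hnorm], by rw [hnorm]; exact le_max_left _ _, Or.inl hinv.symm⟩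
    rw [hinv, hr]
    apply Complex.ext
    · simp
    · simp
  · have h4 : 4 < x ^ 2 := not_le.1 h
    have hs : √(x ^ 2 - 4) ^ 2 = x ^ 2 - 4 := Real.sq_sqrt (by linarith)
    have hs0 : 0 ≤ √(x ^ 2 - 4) := Real.sqrt_nonneg _
    have hsx : √(x ^ 2 - 4) ≤ |x| := by
      rw [← Real.sqrt_sq_eq_abs]; exact Real.sqrt_le_sqrt (by linarith)
    have hx2 : 2 < |x| := by
      by_contra hn
      push Not at hn
      have : x ^ 2 ≤ 4 := by rw [← sq_abs]; nlinarith [abs_nonneg x]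
      exact h this
    have key : ∃ r : ℝ, rt x = (r : ℂ) ∧ r ≠ 0 ∧ r + r⁻¹ = x ∧ 1 ≤ |r| ∧ |r| ≤ |x| := by
      by_cases hx : 0 < x
      · refine ⟨(x + √(x ^ 2 - 4)) / 2, ?_, ?_, ?_, ?_, ?_⟩
        · unfold rt; rw [if_neg h, if_pos hx]
        · rw [abs_of_pos hx] at hx2; positivity
        · rw [abs_of_pos hx] at hx2
          have : (x + √(x ^ 2 - 4)) / 2 ≠ 0 := by positivity
          field_simp
          nlinarith
        · rw [abs_of_pos hx] at hx2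
          rw [abs_of_pos (by positivity)]; linarith
        · rw [abs_of_pos hx] at hsx ⊢
          rw [abs_of_pos (by positivity)]; linarith
      · have hx' : x < 0 := by
          rcases lt_trichotomy x 0 with h1 | h1 | h1
          · exact h1
          · subst h1; norm_num at h4
          · exact absurd h1 hx
        rw [abs_of_neg hx'] at hx2 hsx ⊢
        have hneg : (x - √(x ^ 2 - 4)) / 2 < 0 := by linarith
        refine ⟨(x - √(x ^ 2 - 4)) / 2, ?_, hneg.ne, ?_, ?_, ?_⟩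
        · unfold rt; rw [if_neg h, if_neg hx]
        · have hne : x - √(x ^ 2 - 4) ≠ 0 := by linarith
          field_simp
          nlinarith
        · rw [abs_of_neg hneg]; linarith
        · rw [abs_of_neg hneg]; linarith
    obtain ⟨r, hr, hr0, hrx, hr1, hr2⟩ := key
    rw [hr]
    refine ⟨?_, ?_, ?_, Or.inr (by simp)⟩
    · rw [← Complex.ofReal_inv, ← Complex.ofReal_add, hrx]
    · simpa using hr1
    · simp only [Complex.norm_real, Real.norm_eq_abs]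
      exact hr2.trans (le_max_right _ _)

theorem rt_spec_pr (x : ℝ) : rt x + (rt x)⁻¹ = x ∧ 1 ≤ ‖rt x‖ ∧ ‖rt x‖ ≤ max 1 |x| ∧
    |x| ≤ 2 * ‖rt x‖ := by
  obtain ⟨h1, h2, h3, _⟩ := sel_Z1_rt_cases x
  refine ⟨h1, h2, h3, ?_⟩
  have h4 : ‖(x : ℂ)‖ = |x| := by simp
  rw [← h4, ← h1]
  have h5 : ‖(rt x)⁻¹‖ ≤ 1 := by
    rw [norm_inv]; exact inv_le_one_of_one_le₀ h2
  calc ‖rt x + (rt x)⁻¹‖ ≤ ‖rt x‖ + ‖(rt x)⁻¹‖ := norm_add_le _ _
    _ ≤ 2 * ‖rt x‖ := by linarith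

theorem sel_Z1_rt_ne (x : ℝ) : rt x ≠ 0 := by
  intro h
  have := (rt_spec_pr x).2.1
  rw [h] at this; norm_num at this

theorem sel_Z1_inv_le (x : ℝ) : ‖(rt x)⁻¹‖ ≤ 1 := by
  rw [norm_inv]; exact inv_le_one_of_one_le₀ (rt_spec_pr x).2.1

/-! the power series -/

open PowerSeries in
theorem sel_Z1_geo (r : ℂ) : (1 - C r * X) * PowerSeries.mk (fun i => r ^ i) = 1 := by
  ext n
  rw [sub_mul, one_mul, map_sub, mul_assoc, coeff_C_mul]
  rcases n with _ | n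
  · simp
  · rw [coeff_succ_X_mul, coeff_mk, coeff_mk, coeff_one, if_neg (Nat.succ_ne_zero n)]
    ring

open PowerSeries in
theorem sel_Z1_U (x : ℝ) :
    (1 - C (x : ℂ) * X + X ^ 2) * PowerSeries.mk (fun i => (Uc x i : ℂ)) = 1 := by
  ext n
  rw [add_mul, sub_mul, one_mul, map_add, map_sub, mul_assoc, coeff_C_mul, pow_two, mul_assoc]
  rcases n with _ | _ | n
  · simp [Uc]
  · rw [coeff_succ_X_mul, coeff_mk, coeff_mk, coeff_succ_X_mul, coeff_one]
    simp [Uc]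
  · rw [coeff_succ_X_mul, coeff_mk, coeff_mk, coeff_succ_X_mul, coeff_succ_X_mul, coeff_mk,
      coeff_one, if_neg (Nat.succ_ne_zero _)]
    simp only [Uc]
    push_cast
    ring

open PowerSeries in
theorem sel_Z1_U_eq (x : ℝ) : PowerSeries.mk (fun i => (Uc x i : ℂ)) =
    PowerSeries.mk (fun i => rt x ^ i) * PowerSeries.mk (fun i => (rt x)⁻¹ ^ i) := by
  have h1 := sel_Z1_geo (rt x)
  have h2 := sel_Z1_geo (rt x)⁻¹
  have h3 := sel_Z1_U x
  have h4 : (1 - C (x : ℂ) * X + X ^ 2 : PowerSeries ℂ) =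
      (1 - C (rt x) * X) * (1 - C (rt x)⁻¹ * X) := by
    have h5 : (C (x : ℂ) : PowerSeries ℂ) = C (rt x) + C (rt x)⁻¹ := by
      rw [← map_add, (rt_spec_pr x).1]
    have h6 : (C (rt x) * C (rt x)⁻¹ : PowerSeries ℂ) = 1 := by
      rw [← map_mul, mul_inv_cancel₀ (sel_Z1_rt_ne x), map_one]
    rw [h5]
    linear_combination (-X ^ 2) * h6
  rw [h4] at h3
  calc PowerSeries.mk (fun i => (Uc x i : ℂ))
      = ((1 - C (rt x) * X) * PowerSeries.mk (fun i => rt x ^ i)) *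
        ((1 - C (rt x)⁻¹ * X) * PowerSeries.mk (fun i => (rt x)⁻¹ ^ i)) *
        PowerSeries.mk (fun i => (Uc x i : ℂ)) := by rw [h1, h2]; ring
    _ = (((1 - C (rt x) * X) * (1 - C (rt x)⁻¹ * X)) * PowerSeries.mk (fun i => (Uc x i : ℂ))) *
        (PowerSeries.mk (fun i => rt x ^ i) * PowerSeries.mk (fun i => (rt x)⁻¹ ^ i)) := by ring
    _ = _ := by rw [h3, one_mul]

theorem sel_Z1_U_sum (x : ℝ) (i : ℕ) : (Uc x i : ℂ) =
    ∑ v ∈ Finset.HasAntidiagonal.antidiagonal i, rt x ^ v.1 * (rt x)⁻¹ ^ v.2 := by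
  have h := congrArg (PowerSeries.coeff i) (sel_Z1_U_eq x)
  rw [PowerSeries.coeff_mul, PowerSeries.coeff_mk] at h
  rw [h]
  apply Finset.sum_congr rfl
  intro v _
  rw [PowerSeries.coeff_mk, PowerSeries.coeff_mk]

theorem sel_Z1_term (x : ℝ) {i : ℕ} {v : ℕ × ℕ} (hv : v ∈ Finset.HasAntidiagonal.antidiagonal i) :
    ‖rt x ^ v.1 * (rt x)⁻¹ ^ v.2‖ ≤ ‖rt x‖ ^ i := by
  rw [Finset.HasAntidiagonal.mem_antidiagonal] at hv
  rw [norm_mul, norm_pow, norm_pow]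
  calc ‖rt x‖ ^ v.1 * ‖(rt x)⁻¹‖ ^ v.2 ≤ ‖rt x‖ ^ v.1 * 1 :=
        mul_le_mul_of_nonneg_left (pow_le_one₀ (norm_nonneg _) (sel_Z1_inv_le x)) (by positivity)
    _ = ‖rt x‖ ^ v.1 := mul_one _
    _ ≤ ‖rt x‖ ^ i := pow_le_pow_right₀ (rt_spec_pr x).2.1 (by omega)

theorem Uc_le_pr (x : ℝ) (i : ℕ) : |Uc x i| ≤ (i + 1) * ‖rt x‖ ^ i := by
  have h : |Uc x i| = ‖(Uc x i : ℂ)‖ := by simp
  rw [h, sel_Z1_U_sum]
  refine (norm_sum_le_of_le _ (fun v hv => sel_Z1_term x hv)).trans ?_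
  rw [Finset.sum_const, Finset.Nat.card_antidiagonal, nsmul_eq_mul]
  push_cast
  rfl

theorem sel_Z1_hc_le (j : ℕ) : |hc j| ≤ 1 := by
  induction j with
  | zero => simp [hc]
  | succ j ih =>
    rw [hc, abs_div, abs_mul]
    have h1 : |(j : ℝ) - 1 / 2| ≤ j + 1 := by
      rw [abs_le]; constructor <;> [linarith [(Nat.cast_nonneg j : (0:ℝ) ≤ j)]; linarith]
    have h2 : |(j : ℝ) + 1| = j + 1 := abs_of_pos (by positivity)
    rw [h2, div_le_one (by positivity)]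
    calc |hc j| * |(j : ℝ) - 1 / 2| ≤ 1 * (j + 1) :=
          mul_le_mul ih h1 (abs_nonneg _) zero_le_one
      _ = j + 1 := one_mul _

theorem aloc_le_pr (x : ℝ) (i : ℕ) : |aloc x i| ≤ (i + 1) * ‖rt x‖ ^ i := by
  unfold aloc
  refine (Complex.abs_re_le_norm _).trans ?_
  have h : ∀ v ∈ Finset.HasAntidiagonal.antidiagonal i,
      ‖(hc v.1 : ℂ) * (hc v.2 : ℂ) * rt x ^ v.1 * (rt x)⁻¹ ^ v.2‖ ≤ ‖rt x‖ ^ i := by
    intro v hv
    rw [mul_assoc, norm_mul, norm_mul]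
    have h1 : ‖(hc v.1 : ℂ)‖ ≤ 1 := by simpa using sel_Z1_hc_le v.1
    have h2 : ‖(hc v.2 : ℂ)‖ ≤ 1 := by simpa using sel_Z1_hc_le v.2
    calc ‖(hc v.1 : ℂ)‖ * ‖(hc v.2 : ℂ)‖ * ‖rt x ^ v.1 * (rt x)⁻¹ ^ v.2‖
        ≤ 1 * 1 * ‖rt x‖ ^ i := by
          apply mul_le_mul _ (sel_Z1_term x hv) (norm_nonneg _) (by norm_num)
          exact mul_le_mul h1 h2 (norm_nonneg _) zero_le_one
      _ = ‖rt x‖ ^ i := by ring
  refine (norm_sum_le_of_le _ h).trans ?_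
  rw [Finset.sum_const, Finset.Nat.card_antidiagonal, nsmul_eq_mul]
  push_cast
  rfl

theorem aloc_zero_pr (x : ℝ) : aloc x 0 = 1 := by
  simp [aloc, hc]

theorem aloc_one_pr (x : ℝ) : aloc x 1 = -x / 2 := by
  unfold aloc
  rw [Finset.Nat.antidiagonal_succ]
  simp only [Finset.Nat.antidiagonal_zero, Finset.map_singleton, Finset.sum_cons,
    Finset.sum_singleton, Function.Embedding.prodMap, Function.Embedding.coeFn_mk, Prod.map,
    hc]
  have h1 := (rt_spec_pr x).1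
  have h2 : (((1 : ℝ) : ℂ) * (((1 : ℝ) * (((0 : ℕ) : ℝ) - 1 / 2) / (((0 : ℕ) : ℝ) + 1) : ℝ) : ℂ) *
      rt x ^ 0 * (rt x)⁻¹ ^ 1 +
      (((1 : ℝ) * (((0 : ℕ) : ℝ) - 1 / 2) / (((0 : ℕ) : ℝ) + 1) : ℝ) : ℂ) * ((1 : ℝ) : ℂ) *
      rt x ^ 1 * (rt x)⁻¹ ^ 0) = ((-x / 2 : ℝ) : ℂ) := by
    push_cast
    rw [← h1]
    ring
  have h3 := congrArg Complex.re h2
  rw [Complex.ofReal_re] at h3
  rw [← h3]
  rfl


/-! the square root of `1 - X` -/

open PowerSeries in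
theorem sel_Z1_hc_sq :
    (PowerSeries.mk (fun i => (hc i : ℂ))) * PowerSeries.mk (fun i => (hc i : ℂ)) = 1 - X := by
  set h : PowerSeries ℂ := PowerSeries.mk (fun i => (hc i : ℂ)) with hh
  have hcoef : ∀ j, coeff j h = (hc j : ℂ) := fun j => by rw [hh, coeff_mk]
  have hode : (1 - X) * d⁄dX ℂ h = C (-1 / 2 : ℂ) * h := by
    ext n
    rw [sub_mul, one_mul, map_sub, coeff_derivative, coeff_C_mul, hcoef, hcoef]
    rcases n with _ | n
    · rw [coeff_zero_X_mul]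
      simp [hc]
      norm_num
    · rw [coeff_succ_X_mul, coeff_derivative, hcoef]
      have h1 : hc (n + 1 + 1) = hc (n + 1) * (((n + 1 : ℕ) : ℝ) - 1 / 2) / (((n + 1 : ℕ) : ℝ) + 1) := rfl
      rw [h1]
      have h2 : ((n : ℂ) + 1 + 1) ≠ 0 := by
        have : ((n + 2 : ℕ) : ℂ) ≠ 0 := by exact_mod_cast (Nat.succ_ne_zero (n + 1))
        push_cast at this
        intro h; apply this; rw [← h]; ring
      push_cast
      field_simp
      ring
  have hode2 : (1 - X) * d⁄dX ℂ (h * h) = -(h * h) := by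
    rw [Derivation.leibniz]
    simp only [smul_eq_mul]
    have hC : (C (-1 / 2 : ℂ) : PowerSeries ℂ) + C (-1 / 2 : ℂ) = -1 := by
      rw [← map_add]; norm_num
    linear_combination (2 * h) * hode + (h * h) * hC
  have hrec : ∀ n : ℕ, coeff (n + 1) (h * h) * ((n : ℂ) + 1) = ((n : ℂ) - 1) * coeff n (h * h) := by
    intro n
    have h1 := congrArg (coeff n) hode2
    rw [sub_mul, one_mul, map_sub, coeff_derivative, map_neg] at h1
    rcases n with _ | n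
    · rw [coeff_zero_X_mul] at h1
      simp only [Nat.cast_zero, zero_add, sub_zero, zero_sub] at h1 ⊢
      rw [h1]; ring
    · rw [coeff_succ_X_mul, coeff_derivative] at h1
      push_cast at h1 ⊢
      linear_combination h1
  have h0 : coeff 0 (h * h) = 1 := by
    rw [coeff_mul]; simp [hcoef, hc]
  have h1 : coeff 1 (h * h) = -1 := by
    have := hrec 0
    rw [h0] at this
    simpa using this
  have h2 : ∀ n : ℕ, coeff (n + 2) (h * h) = 0 := by
    intro n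
    induction n with
    | zero =>
      have := hrec 1
      simp only [Nat.cast_one, sub_self, zero_mul] at this
      rcases mul_eq_zero.1 this with h | h
      · exact h
      · norm_num at h
    | succ n ih =>
      have := hrec (n + 2)
      rw [ih, mul_zero] at this
      rcases mul_eq_zero.1 this with h | h
      · exact h
      · exfalso
        have h3 : ((n + 3 : ℕ) : ℂ) ≠ 0 := by exact_mod_cast (Nat.succ_ne_zero (n + 2))
        apply h3; push_cast at h ⊢; rw [← h]; ring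
  ext n
  rcases n with _ | _ | n
  · rw [h0]; simp
  · rw [h1, map_sub, coeff_one, coeff_one_X]; simp
  · rw [h2, map_sub, coeff_one, coeff_X]; simp

open PowerSeries in
theorem sel_Z1_hcr_sq (r : ℂ) :
    (PowerSeries.mk (fun i => (hc i : ℂ) * r ^ i)) * PowerSeries.mk (fun i => (hc i : ℂ) * r ^ i) =
      1 - C r * X := by
  have h1 : ∀ f : PowerSeries ℂ, PowerSeries.mk (fun i => coeff i f * r ^ i) = rescale r f := by
    intro f; ext n; rw [coeff_mk, coeff_rescale, mul_comm]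
  have h2 : PowerSeries.mk (fun i => (hc i : ℂ) * r ^ i) =
      rescale r (PowerSeries.mk (fun i => (hc i : ℂ))) := by
    rw [← h1]; ext n; rw [coeff_mk, coeff_mk, coeff_mk]
  rw [h2, ← map_mul, sel_Z1_hc_sq, map_sub, map_one, rescale_X]

/-- the complex sum in the definition of `aloc` -/
noncomputable def sel_Z1_al (x : ℝ) (i : ℕ) : ℂ :=
  ∑ v ∈ Finset.HasAntidiagonal.antidiagonal i, (hc v.1 : ℂ) * (hc v.2 : ℂ) * rt x ^ v.1 * (rt x)⁻¹ ^ v.2

theorem sel_Z1_al_real (x : ℝ) (i : ℕ) : (aloc x i : ℂ) = sel_Z1_al x i := by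
  have h : starRingEnd ℂ (sel_Z1_al x i) = sel_Z1_al x i := by
    unfold sel_Z1_al
    rw [map_sum]
    rcases (sel_Z1_rt_cases x).2.2.2 with h | h
    · have h' : starRingEnd ℂ (rt x)⁻¹ = rt x := by
        rw [map_inv₀, h, inv_inv]
      rw [← Finset.Nat.sum_antidiagonal_swap]
      apply Finset.sum_congr rfl
      intro v _
      simp only [Prod.fst_swap, Prod.snd_swap, map_mul, map_pow, Complex.conj_ofReal, h, h']
      ring
    · have h' : starRingEnd ℂ (rt x)⁻¹ = (rt x)⁻¹ := by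
        rw [map_inv₀, h]
      apply Finset.sum_congr rfl
      intro v _
      simp only [map_mul, map_pow, Complex.conj_ofReal, h, h']
  have h2 := Complex.conj_eq_iff_re.1 h
  rw [← h2]
  rfl

theorem sel_Z1_al_eq (x : ℝ) : PowerSeries.mk (fun i => (aloc x i : ℂ)) =
    (PowerSeries.mk (fun i => (hc i : ℂ) * rt x ^ i)) *
      PowerSeries.mk (fun i => (hc i : ℂ) * (rt x)⁻¹ ^ i) := by
  ext n
  rw [PowerSeries.coeff_mk, sel_Z1_al_real, PowerSeries.coeff_mul]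
  unfold sel_Z1_al
  apply Finset.sum_congr rfl
  intro v _
  rw [PowerSeries.coeff_mk, PowerSeries.coeff_mk]
  ring

theorem sel_Z1_conv (x : ℝ) : PowerSeries.mk (fun i => (Uc x i : ℂ)) *
    (PowerSeries.mk (fun i => (aloc x i : ℂ)) * PowerSeries.mk (fun i => (aloc x i : ℂ))) = 1 := by
  have h1 := sel_Z1_geo (rt x)
  have h2 := sel_Z1_geo (rt x)⁻¹
  have h3 := sel_Z1_hcr_sq (rt x)
  have h4 := sel_Z1_hcr_sq (rt x)⁻¹
  rw [sel_Z1_U_eq, sel_Z1_al_eq]
  set A := PowerSeries.mk (fun i => rt x ^ i)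
  set B := PowerSeries.mk (fun i => (rt x)⁻¹ ^ i)
  set F := PowerSeries.mk (fun i => (hc i : ℂ) * rt x ^ i)
  set G := PowerSeries.mk (fun i => (hc i : ℂ) * (rt x)⁻¹ ^ i)
  calc A * B * (F * G * (F * G)) = ((F * F) * A) * ((G * G) * B) := by ring
    _ = 1 := by rw [h3, h4, h1, h2, one_mul]

theorem aloc_conv_pr (x : ℝ) (i : ℕ) :
    ∑ v ∈ Finset.HasAntidiagonal.antidiagonal i, Uc x v.1 *
      ∑ u ∈ Finset.HasAntidiagonal.antidiagonal v.2, aloc x u.1 * aloc x u.2 =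
      if i = 0 then 1 else 0 := by
  have h := congrArg (PowerSeries.coeff i) (sel_Z1_conv x)
  rw [PowerSeries.coeff_mul, PowerSeries.coeff_one] at h
  have h2 : ∀ v ∈ Finset.HasAntidiagonal.antidiagonal i,
      PowerSeries.coeff v.1 (PowerSeries.mk (fun i => (Uc x i : ℂ))) *
      PowerSeries.coeff v.2 (PowerSeries.mk (fun i => (aloc x i : ℂ)) *
        PowerSeries.mk (fun i => (aloc x i : ℂ))) =
      ((Uc x v.1 * ∑ u ∈ Finset.HasAntidiagonal.antidiagonal v.2, aloc x u.1 * aloc x u.2 : ℝ) : ℂ) := by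
    intro v _
    rw [PowerSeries.coeff_mk, PowerSeries.coeff_mul]
    push_cast
    congr 1
    apply Finset.sum_congr rfl
    intro u _
    rw [PowerSeries.coeff_mk, PowerSeries.coeff_mk]
  rw [Finset.sum_congr rfl h2] at h
  have h3 : ((∑ v ∈ Finset.HasAntidiagonal.antidiagonal i, Uc x v.1 *
      ∑ u ∈ Finset.HasAntidiagonal.antidiagonal v.2, aloc x u.1 * aloc x u.2 : ℝ) : ℂ) =
      ((if i = 0 then 1 else 0 : ℝ) : ℂ) := by
    rw [Complex.ofReal_sum, h]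
    split_ifs <;> simp
  exact_mod_cast h3

/-! generating function of the squares -/

theorem sel_Z1_rsq (x : ℝ) : (rt x) ^ 2 + ((rt x)⁻¹) ^ 2 = (x : ℂ) ^ 2 - 2 := by
  have h1 := (rt_spec_pr x).1
  have h2 : rt x * (rt x)⁻¹ = 1 := mul_inv_cancel₀ (sel_Z1_rt_ne x)
  rw [← h1]
  linear_combination (-2) * h2

/-- the generating function of the squares -/
theorem Uc_sq_hasSum_pr (x : ℝ) (t : ℂ) (ht : ‖t‖ * ‖rt x‖ ^ 2 < 1) :
    HasSum (fun i : ℕ => ((Uc x i : ℂ)) ^ 2 * t ^ i)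
      ((1 + t) / ((1 - t) * (1 - (rt x) ^ 2 * t) * (1 - ((rt x)⁻¹) ^ 2 * t))) := by
  have hr1 : 1 ≤ ‖rt x‖ := (rt_spec_pr x).2.1
  have hr2 : (1 : ℝ) ≤ ‖rt x‖ ^ 2 := one_le_pow₀ hr1
  have hs1 : ‖(rt x)⁻¹‖ ≤ 1 := sel_Z1_inv_le x
  have ht1 : ‖t‖ < 1 := by
    calc ‖t‖ = ‖t‖ * 1 := (mul_one _).symm
      _ ≤ ‖t‖ * ‖rt x‖ ^ 2 := mul_le_mul_of_nonneg_left hr2 (norm_nonneg _)
      _ < 1 := ht
  set F : ℕ → ℂ := fun i => ((Uc x i : ℂ)) ^ 2 * t ^ i with hF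
  have hsum : Summable F := by
    have hg : Summable fun i : ℕ => ((i : ℝ) ^ 2) * (‖t‖ * ‖rt x‖ ^ 2) ^ i :=
      summable_pow_mul_geometric_of_norm_lt_one 2 (by
        rw [Real.norm_of_nonneg (by positivity)]; exact ht)
    have hg1 : Summable fun i : ℕ => ((i : ℝ) ^ 1) * (‖t‖ * ‖rt x‖ ^ 2) ^ i :=
      summable_pow_mul_geometric_of_norm_lt_one 1 (by
        rw [Real.norm_of_nonneg (by positivity)]; exact ht)
    have hg0 : Summable fun i : ℕ => (‖t‖ * ‖rt x‖ ^ 2) ^ i :=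
      summable_geometric_of_lt_one (by positivity) ht
    refine Summable.of_norm_bounded ((hg.add (hg1.mul_left 2)).add hg0) ?_
    intro i
    rw [hF]
    simp only
    rw [norm_mul, norm_pow, norm_pow]
    have h1 : ‖(Uc x i : ℂ)‖ ≤ (i + 1) * ‖rt x‖ ^ i := by simpa using Uc_le_pr x i
    calc ‖(Uc x i : ℂ)‖ ^ 2 * ‖t‖ ^ i ≤ ((i + 1) * ‖rt x‖ ^ i) ^ 2 * ‖t‖ ^ i := by gcongr
      _ = _ := by
        rw [mul_pow ‖t‖, ← pow_mul, mul_comm 2 i, pow_mul]; ring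
  have hpoly : (1 - t) * (1 - (rt x) ^ 2 * t) * (1 - ((rt x)⁻¹) ^ 2 * t) =
      1 - ((x : ℂ) ^ 2 - 1) * t + ((x : ℂ) ^ 2 - 1) * t ^ 2 - t ^ 3 := by
    have h1 := sel_Z1_rsq x
    have h2 : rt x * (rt x)⁻¹ = 1 := mul_inv_cancel₀ (sel_Z1_rt_ne x)
    have h3 : (rt x) ^ 2 * ((rt x)⁻¹) ^ 2 = 1 := by rw [← mul_pow, h2, one_pow]
    linear_combination (-t + t ^ 2) * h1 + (t ^ 2 - t ^ 3) * h3
  have hne : (1 - t) * (1 - (rt x) ^ 2 * t) * (1 - ((rt x)⁻¹) ^ 2 * t) ≠ 0 := by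
    have key : ∀ z : ℂ, ‖z‖ < 1 → 1 - z ≠ 0 := by
      intro z hz h0
      have : z = 1 := by linear_combination -h0
      rw [this] at hz; simp at hz
    refine mul_ne_zero (mul_ne_zero (key t ht1) (key _ ?_)) (key _ ?_)
    · rw [norm_mul, norm_pow, mul_comm]; exact ht
    · rw [norm_mul, norm_pow]
      calc ‖(rt x)⁻¹‖ ^ 2 * ‖t‖ ≤ 1 * ‖t‖ := by
            apply mul_le_mul_of_nonneg_right _ (norm_nonneg _)
            exact pow_le_one₀ (norm_nonneg _) hs1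
        _ < 1 := by rw [one_mul]; exact ht1
  have hrec : ∀ i, F (i + 3) = ((x : ℂ) ^ 2 - 1) * t * F (i + 2) -
      ((x : ℂ) ^ 2 - 1) * t ^ 2 * F (i + 1) + t ^ 3 * F i := by
    intro i
    simp only [hF]
    have e1 : (Uc x (i + 3) : ℂ) = x * Uc x (i + 2) - Uc x (i + 1) := by
      have : Uc x (i + 3) = x * Uc x (i + 2) - Uc x (i + 1) := rfl
      rw [this]; push_cast; ring
    have e2 : (Uc x (i + 2) : ℂ) = x * Uc x (i + 1) - Uc x i := by
      have : Uc x (i + 2) = x * Uc x (i + 1) - Uc x i := rfl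
      rw [this]; push_cast; ring
    rw [e1, e2]
    ring
  have s0 := hsum.hasSum
  set T := ∑' i, F i with hT
  have s1 : HasSum (fun i => F (i + 1)) (T - F 0) := by
    have := (hasSum_nat_add_iff' 1).2 s0
    simpa using this
  have s2 : HasSum (fun i => F (i + 2)) (T - (F 0 + F 1)) := by
    have := (hasSum_nat_add_iff' 2).2 s0
    simpa [Finset.sum_range_succ] using this
  have s3 : HasSum (fun i => F (i + 3)) (T - (F 0 + F 1 + F 2)) := by
    have := (hasSum_nat_add_iff' 3).2 s0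
    simpa [Finset.sum_range_succ] using this
  have s4 : HasSum (fun i => F (i + 3)) (((x : ℂ) ^ 2 - 1) * t * (T - (F 0 + F 1)) -
      ((x : ℂ) ^ 2 - 1) * t ^ 2 * (T - F 0) + t ^ 3 * T) := by
    have := ((s2.mul_left (((x : ℂ) ^ 2 - 1) * t)).sub
      (s1.mul_left (((x : ℂ) ^ 2 - 1) * t ^ 2))).add (s0.mul_left (t ^ 3))
    refine this.congr_fun ?_
    intro i; exact (hrec i)
  have heq := s3.unique s4
  have f0 : F 0 = 1 := by simp [hF, Uc]
  have f1 : F 1 = (x : ℂ) ^ 2 * t := by simp [hF, Uc]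
  have f2 : F 2 = ((x : ℂ) ^ 2 - 1) ^ 2 * t ^ 2 := by
    simp only [hF]
    have : Uc x 2 = x * x - 1 := rfl
    rw [this]; push_cast; ring
  rw [f0, f1, f2] at heq
  have hfin : T = (1 + t) / ((1 - t) * (1 - (rt x) ^ 2 * t) * (1 - ((rt x)⁻¹) ^ 2 * t)) := by
    rw [eq_div_iff hne, hpoly]
    linear_combination heq
  rw [← hfin]
  exact s0

theorem rt_spec : type_of% @rt_spec_pr := @rt_spec_pr
theorem Uc_le : type_of% @Uc_le_pr := @Uc_le_pr
theorem aloc_le : type_of% @aloc_le_pr := @aloc_le_pr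
theorem aloc_zero : type_of% @aloc_zero_pr := @aloc_zero_pr
theorem aloc_one : type_of% @aloc_one_pr := @aloc_one_pr
theorem aloc_conv : type_of% @aloc_conv_pr := @aloc_conv_pr
theorem Uc_sq_hasSum : type_of% @Uc_sq_hasSum_pr := @Uc_sq_hasSum_pr

end Pool.Agent.SEL
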