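import Pool.Agent.Lib_helper68.SEL.Defs

/-! Block KA: the divisor bound and the good squarefree factors. -/

namespace Pool.Agent.SEL

open Finset

theorem sel_KA_card {n : ℕ} (hn : 0 < n) :
    n.divisors.card = ∏ p ∈ n.primeFactors, (n.factorization p + 1) :=
  Nat.card_divisors hn.ne'

theorem omega_le_pr (n : ℕ) (hn : 0 < n) : 2 ^ n.primeFactors.card ≤ n.divisors.card := by
  rw [sel_KA_card hn, ← Finset.prod_const]
  refine Finset.prod_le_prod' fun p hp => ?_
  have h1 : 0 < n.factorization p :=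
    (Nat.prime_of_mem_primeFactors hp).factorization_pos_of_dvd hn.ne'
      (Nat.dvd_of_mem_primeFactors hp)
  omega

theorem sel_KA_rpow {n : ℕ} (hn : 0 < n) (ε : ℝ) :
    (n : ℝ) ^ ε = ∏ p ∈ n.primeFactors, ((p : ℝ) ^ ε) ^ (n.factorization p) := by
  have h1 : (n : ℝ) = ∏ p ∈ n.primeFactors, (p : ℝ) ^ (n.factorization p) := by
    have h2 := Nat.prod_factorization_pow_eq_self hn.ne'
    conv_lhs => rw [← h2]
    rw [Finsupp.prod, Nat.support_factorization]
    push_cast
    rfl
  conv_lhs => rw [h1]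
  rw [← Real.finsetProd_rpow _ _ (fun p _ => by positivity)]
  refine Finset.prod_congr rfl fun p _ => ?_
  rw [← Real.rpow_natCast, ← Real.rpow_mul (by positivity), ← Real.rpow_natCast,
    ← Real.rpow_mul (by positivity), mul_comm]

theorem divisor_bound_pr {ε : ℝ} (hε : 0 < ε) : ∃ C : ℝ, 0 < C ∧
    ∀ n : ℕ, 0 < n → (n.divisors.card : ℝ) ≤ C * (n : ℝ) ^ ε := by
  set B : ℕ := ⌈(2 : ℝ) ^ (1 / ε)⌉₊ with hB
  set K : ℝ := 1 + 1 / (ε * Real.log 2) with hK
  have hl2 : 0 < Real.log 2 := Real.log_pos (by norm_num)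
  have hK1 : 1 ≤ K := by
    have : 0 < 1 / (ε * Real.log 2) := by positivity
    linarith
  refine ⟨K ^ B, by positivity, fun n hn => ?_⟩
  rw [sel_KA_card hn, sel_KA_rpow hn ε]
  push_cast
  have hstep : ∀ p ∈ n.primeFactors, ((n.factorization p : ℝ) + 1) ≤
      (if p < B then K else 1) * ((p : ℝ) ^ ε) ^ (n.factorization p) := by
    intro p hp
    have hpp := Nat.prime_of_mem_primeFactors hp
    have hp2 : (2 : ℝ) ≤ p := by exact_mod_cast hpp.two_le
    set e := n.factorization p with he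
    by_cases hpB : p < B
    · rw [if_pos hpB]
      have h1 : (1 : ℝ) + e * (ε * Real.log 2) ≤ ((p : ℝ) ^ ε) ^ e := by
        calc (1 : ℝ) + e * (ε * Real.log 2) ≤ Real.exp (e * (ε * Real.log 2)) := by
              rw [add_comm]; exact Real.add_one_le_exp _
          _ = ((2 : ℝ) ^ ε) ^ e := by
              rw [← Real.rpow_natCast, ← Real.rpow_mul (by norm_num),
                Real.rpow_def_of_pos (by norm_num)]
              congr 1; ring
          _ ≤ ((p : ℝ) ^ ε) ^ e := by
              refine pow_le_pow_left₀ (by positivity) ?_ _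
              exact Real.rpow_le_rpow (by norm_num) hp2 hε.le
      calc (e : ℝ) + 1 ≤ K * (1 + e * (ε * Real.log 2)) := by
            rw [hK]
            have h2 : 0 ≤ (e : ℝ) * (ε * Real.log 2) := by positivity
            have h3 : 1 / (ε * Real.log 2) * (e * (ε * Real.log 2)) = e := by
              field_simp
            have h4 : 0 < 1 / (ε * Real.log 2) := by positivity
            nlinarith
        _ ≤ K * ((p : ℝ) ^ ε) ^ e := by gcongr
    · rw [if_neg hpB, one_mul]
      push Not at hpB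
      have h1 : (2 : ℝ) ≤ (p : ℝ) ^ ε := by
        have h2 : (2 : ℝ) ^ (1 / ε) ≤ p := (Nat.le_ceil _).trans (by exact_mod_cast hpB)
        calc (2 : ℝ) = ((2 : ℝ) ^ (1 / ε)) ^ ε := by
              rw [← Real.rpow_mul (by norm_num), one_div_mul_cancel hε.ne', Real.rpow_one]
          _ ≤ (p : ℝ) ^ ε := Real.rpow_le_rpow (by positivity) h2 hε.le
      calc (e : ℝ) + 1 ≤ 2 ^ e := by exact_mod_cast Nat.lt_two_pow_self
        _ ≤ ((p : ℝ) ^ ε) ^ e := pow_le_pow_left₀ (by norm_num) h1 _
  calc ∏ p ∈ n.primeFactors, ((n.factorization p : ℝ) + 1)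
      ≤ ∏ p ∈ n.primeFactors, ((if p < B then K else 1) * ((p : ℝ) ^ ε) ^ (n.factorization p)) :=
        Finset.prod_le_prod (fun p _ => by positivity) hstep
    _ = (∏ p ∈ n.primeFactors, (if p < B then K else 1)) *
          ∏ p ∈ n.primeFactors, ((p : ℝ) ^ ε) ^ (n.factorization p) := Finset.prod_mul_distrib
    _ ≤ K ^ B * ∏ p ∈ n.primeFactors, ((p : ℝ) ^ ε) ^ (n.factorization p) := by
        refine mul_le_mul_of_nonneg_right ?_ (Finset.prod_nonneg fun p _ => by positivity)
        rw [Finset.prod_ite, Finset.prod_const, Finset.prod_const_one, mul_one]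
        refine pow_le_pow_right₀ hK1 ?_
        calc (n.primeFactors.filter (fun p => p < B)).card ≤ (Finset.range B).card :=
              Finset.card_le_card fun p hp => Finset.mem_range.mpr (Finset.mem_filter.mp hp).2
          _ = B := Finset.card_range B

/-- the number of multiples -/
theorem sel_KA_mult (X d : ℕ) (_hd : 0 < d) :
    (((Finset.Icc 1 X).filter (fun c => d ∣ c)).card : ℝ) ≤ X / d := by
  have h1 : ((Finset.Icc 1 X).filter (fun c => d ∣ c)).card = X / d := by
    have := Nat.Ioc_filter_dvd_card_eq_div X d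
    rw [← this]
    congr 1
  rw [h1]
  exact Nat.cast_div_le

open Classical in
theorem good_sq_pr (l N : ℕ) (hl : 0 < l) (hN : 0 < N) (Y : ℝ) (hY : 1 ≤ Y) (X : ℕ) :
    (((Finset.Icc 1 X).filter (fun c : ℕ => ¬ ∃ r s : ℕ, c = r * s ∧ Squarefree r ∧
      r.Coprime (s * l * N) ∧ (s : ℝ) ≤ Y)).card : ℝ) ≤
      4 * X * ((l * N).divisors.card : ℝ) * Y ^ (-(1 / 6) : ℝ) := by
  have hY0 : 0 < Y := by linarith
  set t : ℝ := Y ^ (1 / 6 : ℝ) with ht
  have ht1 : 1 ≤ t := Real.one_le_rpow hY (by norm_num)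
  have ht0 : 0 < t := by linarith
  have ht3 : t ^ 3 * t ^ 3 = Y := by
    rw [← pow_add, ht, ← Real.rpow_natCast, ← Real.rpow_mul hY0.le]
    norm_num
  -- the bad set is covered
  have hcov : (Finset.Icc 1 X).filter (fun c : ℕ => ¬ ∃ r s : ℕ, c = r * s ∧ Squarefree r ∧
      r.Coprime (s * l * N) ∧ (s : ℝ) ≤ Y) ⊆
      ((Finset.Ioo ⌊t⌋₊ (X + 1)).biUnion fun b => (Finset.Icc 1 X).filter (fun c => b ^ 2 ∣ c)) ∪
      (((l * N).divisors.filter (fun v : ℕ => t ^ 3 < v)).biUnion
        fun v => (Finset.Icc 1 X).filter (fun c => v ∣ c)) := by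
    intro c hc
    rw [Finset.mem_filter, Finset.mem_Icc] at hc
    obtain ⟨⟨hc1, hcX⟩, hbad⟩ := hc
    obtain ⟨a, b, hab, hsq⟩ := Nat.sq_mul_squarefree c
    have ha0 : 0 < a := Nat.pos_of_ne_zero hsq.ne_zero
    have hb0 : 0 < b := by
      rcases Nat.eq_zero_or_pos b with h | h
      · subst h; simp at hab; omega
      · exact h
    set g := a.gcd (b * (l * N)) with hg
    have hg0 : 0 < g := Nat.gcd_pos_of_pos_left _ ha0
    obtain ⟨r, hr⟩ : g ∣ a := Nat.gcd_dvd_left _ _
    have hrs : Squarefree r := hsq.squarefree_of_dvd ⟨g, by rw [hr]; ring⟩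
    have hcop1 : Nat.Coprime g r := by
      rw [hr] at hsq
      exact Nat.coprime_of_squarefree_mul hsq
    have hcop : r.Coprime (b * (l * N)) := by
      rw [Nat.coprime_iff_gcd_eq_one, ← Nat.coprime_iff_gcd_eq_one]
      refine Nat.coprime_of_dvd fun p hp hpr hpm => ?_
      have h1 : p ∣ g := Nat.dvd_gcd (hpr.trans ⟨g, by rw [hr]; ring⟩) hpm
      have h2 : p ∣ Nat.gcd g r := Nat.dvd_gcd h1 hpr
      rw [hcop1] at h2
      exact hp.one_lt.ne' (Nat.dvd_one.mp h2)
    have hcb : r.Coprime b := hcop.coprime_dvd_right (dvd_mul_right _ _)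
    have hcl : r.Coprime (l * N) := hcop.coprime_dvd_right (dvd_mul_left _ _)
    -- hence `s` is large
    have hs : Y < ((b ^ 2 * g : ℕ) : ℝ) := by
      by_contra hcon
      push Not at hcon
      refine hbad ⟨r, b ^ 2 * g, by rw [← hab]; conv_lhs => rw [hr]
                                    ring, hrs, ?_, hcon⟩
      rw [mul_assoc]
      exact Nat.Coprime.mul_right (Nat.Coprime.mul_right (hcb.pow_right 2) hcop1.symm) hcl
    set v := a.gcd (l * N) with hv
    have hgv : g ≤ b * v := by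
      have h1 : g ∣ a.gcd b * a.gcd (l * N) := Nat.gcd_mul_right_dvd_mul_gcd a b (l * N)
      have h2 : 0 < a.gcd b * a.gcd (l * N) :=
        Nat.mul_pos (Nat.gcd_pos_of_pos_left _ ha0) (Nat.gcd_pos_of_pos_left _ ha0)
      refine (Nat.le_of_dvd h2 h1).trans ?_
      exact Nat.mul_le_mul_right _ (Nat.le_of_dvd hb0 (Nat.gcd_dvd_right _ _))
    have hlt : t ^ 3 * t ^ 3 < (b : ℝ) ^ 3 * v := by
      rw [ht3]
      refine hs.trans_le ?_
      have : b ^ 2 * g ≤ b ^ 3 * v := by
        calc b ^ 2 * g ≤ b ^ 2 * (b * v) := Nat.mul_le_mul_left _ hgv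
          _ = b ^ 3 * v := by ring
      exact_mod_cast this
    rw [Finset.mem_union, Finset.mem_biUnion, Finset.mem_biUnion]
    by_cases hvt : t ^ 3 < (v : ℝ)
    · right
      refine ⟨v, ?_, ?_⟩
      · rw [Finset.mem_filter, Nat.mem_divisors]
        exact ⟨⟨Nat.gcd_dvd_right _ _, by positivity⟩, hvt⟩
      · rw [Finset.mem_filter, Finset.mem_Icc]
        refine ⟨⟨hc1, hcX⟩, (Nat.gcd_dvd_left a (l * N)).trans ⟨b ^ 2, by rw [← hab]; ring⟩⟩
    · left
      push Not at hvt
      have hbt : t < b := by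
        by_contra hcon
        push Not at hcon
        have h1 : (b : ℝ) ^ 3 ≤ t ^ 3 := pow_le_pow_left₀ (by positivity) hcon 3
        have h2 : (b : ℝ) ^ 3 * v ≤ t ^ 3 * t ^ 3 := by gcongr
        linarith
      refine ⟨b, ?_, ?_⟩
      · rw [Finset.mem_Ioo]
        constructor
        · exact (Nat.floor_lt ht0.le).mpr hbt
        · have h1 : b ≤ b ^ 2 * a := by
            calc b = b * 1 * 1 := by ring
              _ ≤ b * b * a := by
                refine Nat.mul_le_mul (Nat.mul_le_mul_left _ hb0) ha0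
              _ = b ^ 2 * a := by ring
          omega
      · rw [Finset.mem_filter, Finset.mem_Icc]
        exact ⟨⟨hc1, hcX⟩, ⟨a, hab.symm⟩⟩
  have hcard := Finset.card_le_card hcov
  have h1 : (((Finset.Ioo ⌊t⌋₊ (X + 1)).biUnion
      fun b => (Finset.Icc 1 X).filter (fun c => b ^ 2 ∣ c)).card : ℝ) ≤ X * (2 / t) := by
    calc (((Finset.Ioo ⌊t⌋₊ (X + 1)).biUnion
        fun b => (Finset.Icc 1 X).filter (fun c => b ^ 2 ∣ c)).card : ℝ)
        ≤ ∑ b ∈ Finset.Ioo ⌊t⌋₊ (X + 1), (((Finset.Icc 1 X).filter (fun c => b ^ 2 ∣ c)).card : ℝ) := by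
          exact_mod_cast Finset.card_biUnion_le
      _ ≤ ∑ b ∈ Finset.Ioo ⌊t⌋₊ (X + 1), X * ((b : ℝ) ^ 2)⁻¹ := by
          refine Finset.sum_le_sum fun b hb => ?_
          have hb0 : 0 < b := by rw [Finset.mem_Ioo] at hb; omega
          have := sel_KA_mult X (b ^ 2) (by positivity)
          push_cast at this
          rwa [div_eq_mul_inv] at this
      _ = X * ∑ b ∈ Finset.Ioo ⌊t⌋₊ (X + 1), ((b : ℝ) ^ 2)⁻¹ := by rw [Finset.mul_sum]
      _ ≤ X * (2 / ((⌊t⌋₊ : ℝ) + 1)) := by
          gcongr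
          exact sum_Ioo_inv_sq_le _ _
      _ ≤ X * (2 / t) := by
          have : t ≤ (⌊t⌋₊ : ℝ) + 1 := (Nat.lt_floor_add_one t).le
          gcongr
  have h2 : ((((l * N).divisors.filter (fun v : ℕ => t ^ 3 < v)).biUnion
        fun v => (Finset.Icc 1 X).filter (fun c => v ∣ c)).card : ℝ) ≤
      ((l * N).divisors.card : ℝ) * (X * (1 / t)) := by
    calc ((((l * N).divisors.filter (fun v : ℕ => t ^ 3 < v)).biUnion
        fun v => (Finset.Icc 1 X).filter (fun c => v ∣ c)).card : ℝ)
        ≤ ∑ v ∈ (l * N).divisors.filter (fun v : ℕ => t ^ 3 < v),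
            (((Finset.Icc 1 X).filter (fun c => v ∣ c)).card : ℝ) := by
          exact_mod_cast Finset.card_biUnion_le
      _ ≤ ∑ _v ∈ (l * N).divisors.filter (fun v : ℕ => t ^ 3 < v), (X * (1 / t) : ℝ) := by
          refine Finset.sum_le_sum fun v hv => ?_
          rw [Finset.mem_filter, Nat.mem_divisors] at hv
          have hv0 : 0 < v := Nat.pos_of_ne_zero fun h => hv.1.2 (by
            have := hv.1.1; rw [h] at this; exact Nat.eq_zero_of_zero_dvd this)
          refine (sel_KA_mult X v hv0).trans ?_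
          rw [mul_one_div]
          have h3 : t ≤ t ^ 3 := by
            calc t = t * 1 * 1 := by ring
              _ ≤ t * t * t := by gcongr
              _ = t ^ 3 := by ring
          have h4 : t ≤ (v : ℝ) := h3.trans hv.2.le
          gcongr
      _ = (((l * N).divisors.filter (fun v : ℕ => t ^ 3 < v)).card : ℝ) * (X * (1 / t)) := by
          rw [Finset.sum_const, nsmul_eq_mul]
      _ ≤ ((l * N).divisors.card : ℝ) * (X * (1 / t)) := by
          have : (((l * N).divisors.filter (fun v : ℕ => t ^ 3 < v)).card : ℝ) ≤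
              ((l * N).divisors.card : ℝ) := by exact_mod_cast Finset.card_filter_le _ _
          gcongr
  have hτ : (1 : ℝ) ≤ ((l * N).divisors.card : ℝ) := by
    have : 0 < (l * N).divisors.card :=
      Finset.card_pos.mpr ⟨1, Nat.mem_divisors.mpr ⟨one_dvd _, by positivity⟩⟩
    exact_mod_cast this
  have hti : Y ^ (-(1 / 6) : ℝ) = 1 / t := by
    rw [Real.rpow_neg hY0.le, ht, one_div, one_div]
  rw [hti]
  have h5 : (((Finset.Icc 1 X).filter (fun c : ℕ => ¬ ∃ r s : ℕ, c = r * s ∧ Squarefree r ∧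
      r.Coprime (s * l * N) ∧ (s : ℝ) ≤ Y)).card : ℝ) ≤ X * (2 / t) +
      ((l * N).divisors.card : ℝ) * (X * (1 / t)) := by
    have h6 := hcard.trans (Finset.card_union_le _ _)
    have h7 := (Nat.cast_le (α := ℝ)).mpr h6
    rw [Nat.cast_add] at h7
    exact h7.trans (add_le_add h1 h2)
  refine h5.trans ?_
  have hXt : (0 : ℝ) ≤ X * (1 / t) := by positivity
  have e1 : (X : ℝ) * (2 / t) = 2 * (X * (1 / t)) := by ring
  have e2 : 4 * (X : ℝ) * ((l * N).divisors.card : ℝ) * (1 / t) =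
      4 * ((l * N).divisors.card : ℝ) * (X * (1 / t)) := by ring
  rw [e1, e2]
  nlinarith

theorem divisor_bound : type_of% @divisor_bound_pr := @divisor_bound_pr
theorem omega_le : type_of% @omega_le_pr := @omega_le_pr
theorem good_sq : type_of% @good_sq_pr := @good_sq_pr

end Pool.Agent.SEL
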