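import Pool.Agent.Lib_helper68.SEL.Defs

/-! SEL block Z11A -/

namespace Pool.Agent.SEL

open Complex MeasureTheory Filter Topology Pool.Agent.GL2
open scoped FourierTransform SchwartzMap ContDiff

theorem sel_z11a_rep (φ : ℝ → ℂ) (h1 : HasCompactSupport φ) (h2 : ContDiff ℝ ∞ φ) :
    ∃ g : ℝ → ℂ, Continuous g ∧ (∀ m : ℕ, Integrable fun u : ℝ => ‖g u‖ * (1 + |u|) ^ m) ∧
      ∀ x : ℝ, φ x = ∫ u : ℝ, g u * cexp (u * I * x) := by
  set f : 𝓢(ℝ, ℂ) := h1.toSchwartzMap h2 with hf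
  set F : 𝓢(ℝ, ℂ) := 𝓕 f with hF
  have hfφ : ∀ x, f x = φ x := fun x => rfl
  have hπ : (0 : ℝ) < 2 * Real.pi := by positivity
  refine ⟨fun u => ((1 / (2 * Real.pi) : ℝ) : ℂ) * F (u / (2 * Real.pi)), ?_, ?_, ?_⟩
  · exact continuous_const.mul (F.continuous.comp (continuous_id.div_const _))
  · intro m
    have key : Integrable fun v : ℝ => ‖F v‖ * (1 + |v * (2 * Real.pi)|) ^ m := by
      have e : (fun v : ℝ => ‖F v‖ * (1 + |v * (2 * Real.pi)|) ^ m) = fun v : ℝ =>
          ∑ j ∈ Finset.range (m + 1), (((2 * Real.pi) ^ (m - j)) * (m.choose j : ℝ)) *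
            (‖v‖ ^ (m - j) * ‖F v‖) := by
        funext v
        rw [add_pow, Finset.mul_sum]
        refine Finset.sum_congr rfl fun j _ => ?_
        rw [abs_mul, abs_of_pos hπ, one_pow, mul_pow, Real.norm_eq_abs]
        ring
      rw [e]
      refine integrable_finset_sum _ fun j _ => ?_
      exact (F.integrable_pow_mul volume (m - j)).const_mul _
    have := (key.comp_div (ne_of_gt hπ)).const_mul (1 / (2 * Real.pi))
    refine this.congr (Eventually.of_forall fun u => ?_)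
    have h8 : |1 / (2 * Real.pi)| = 1 / (2 * Real.pi) := abs_of_pos (by positivity)
    simp only [norm_mul, Complex.norm_real, Real.norm_eq_abs, h8,
      div_mul_cancel₀ _ (ne_of_gt hπ)]
    ring
  · intro x
    have h3 : f x = (𝓕⁻ F : 𝓢(ℝ, ℂ)) x := by
      rw [hF, FourierTransform.fourierInv_fourier_eq]
    rw [← hfφ x, h3, SchwartzMap.fourierInv_coe, Real.fourierInv_eq']
    have h4 := Measure.integral_comp_div (fun v : ℝ => cexp (((2 * Real.pi * inner ℝ v x : ℝ)) * I) • F v)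
      (2 * Real.pi)
    have h5 : (∫ v : ℝ, cexp (((2 * Real.pi * inner ℝ v x : ℝ)) * I) • F v) =
        ((1 / (2 * Real.pi) : ℝ) : ℂ) * ∫ u : ℝ, cexp (((2 * Real.pi * inner ℝ (u / (2 * Real.pi)) x : ℝ)) * I) •
          F (u / (2 * Real.pi)) := by
      rw [h4, abs_of_pos hπ, real_smul, ← mul_assoc, ← ofReal_mul]
      rw [one_div, inv_mul_cancel₀ (ne_of_gt hπ)]
      simp
    rw [h5, ← integral_const_mul]
    congr 1
    funext u
    rw [smul_eq_mul]
    have h6 : (2 * Real.pi * inner ℝ (u / (2 * Real.pi)) x : ℝ) = u * x := by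
      rw [RCLike.inner_apply, conj_trivial]
      field_simp
    rw [h6]
    push_cast
    ring_nf

theorem exists_bump_pr : ∃ Θ : ℝ → ℝ, Adm Θ ∧ Adm (fun x => Real.exp x * Θ x) ∧ Θ 0 = 1 ∧
    (∀ x, 0 ≤ Θ x ∧ Θ x ≤ 1) ∧ (∀ x, 1 ≤ x → Θ x = 0) := by
  let b : ContDiffBump (0 : ℝ) := ⟨1 / 4, 1 / 2, by norm_num, by norm_num⟩
  have hadm : ∀ c : ℝ, ∃ g : ℝ → ℂ, Continuous g ∧
      (∀ m : ℕ, Integrable fun u : ℝ => ‖g u‖ * (1 + |u|) ^ m) ∧
      ∀ x : ℝ, ((Real.exp (c * x) * b x : ℝ) : ℂ) = ∫ u : ℝ, g u * cexp (u * I * x) := by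
    intro c
    apply sel_z11a_rep (fun x : ℝ => ((Real.exp (c * x) * b x : ℝ) : ℂ))
    · apply HasCompactSupport.comp_left (g := fun x : ℝ => (x : ℂ)) _ (by simp)
      exact b.hasCompactSupport.mul_left
    · apply Complex.ofRealCLM.contDiff.comp
      exact (Real.contDiff_exp.comp (contDiff_const.mul contDiff_id)).mul b.contDiff
  have hAdm : ∀ c : ℝ, Adm fun x => Real.exp (c * x) * b x := by
    intro c
    obtain ⟨g, hg1, hg2, hg3⟩ := hadm (c + 1)
    refine ⟨g, hg1, hg2, fun x _ => ?_⟩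
    have := hg3 x
    have h1 : ((Real.exp (c * x) * b x : ℝ) : ℂ) = cexp (-x) * ((Real.exp ((c + 1) * x) * b x : ℝ) : ℂ) := by
      push_cast
      rw [← mul_assoc, ← Complex.exp_add]
      ring_nf
    rw [h1, this, ← integral_const_mul]
    congr 1
    funext u
    rw [mul_left_comm, ← Complex.exp_add]
    ring_nf
  refine ⟨b, ?_, ?_, ?_, fun x => ⟨b.nonneg, b.le_one⟩, fun x hx => ?_⟩
  · have := hAdm 0
    simpa using this
  · have := hAdm 1
    simpa using this
  · exact b.eventuallyEq_one.eq_of_nhds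
  · apply b.zero_of_le_dist
    rw [Real.dist_eq, sub_zero]
    exact le_trans (by show (1 / 2 : ℝ) ≤ 1; norm_num) (le_trans hx (le_abs_self x))

theorem exists_bump : type_of% @exists_bump_pr := @exists_bump_pr

end Pool.Agent.SEL
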