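import Pool.Agent.Lib_helper68.SEL.Defs
import Pool.Agent.Lib_helper68.GL2.B3
import Pool.Agent.Lib_helper68.SEL.K2

/-! Block K3: the average over the shifts `d + N s j`, squarefree modulus. -/

namespace Pool.Agent.SEL

open Complex Pool.Agent.GL2

theorem sel_k3_mul_inv {r : ℕ} (x y : ZMod r) (hx : IsUnit x) (hy : IsUnit y) :
    (x * y)⁻¹ = x⁻¹ * y⁻¹ := by
  obtain ⟨u, rfl⟩ := hx
  obtain ⟨v, rfl⟩ := hy
  rw [← Units.val_mul, ZMod.inv_coe_unit, ZMod.inv_coe_unit, ZMod.inv_coe_unit, mul_inv,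
    Units.val_mul]

/-- block K3: the average over the shifts `d + N s j` -/
theorem shift_sum_sq_pr {r s N l : ℕ} (hr : Squarefree r) (hs : 0 < s) (h : r.Coprime (s * l * N))
    (d : ℤ) (hd : IsCoprime d (s : ℤ)) (J : ℕ) (hJ : J ≤ r) :
    ‖∑ j ∈ (Finset.range J).filter
        (fun j : ℕ => IsCoprime (d + (N * s * j : ℕ)) ((r * s : ℕ) : ℤ)),
      ec l (r * s) (d + (N * s * j : ℕ))‖ ≤
      2 ^ r.primeFactors.card * (r : ℝ) ^ (3 / 4 : ℝ) * (3 + Real.log r) := by
  classical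
  have hr0 : NeZero r := ⟨hr.ne_zero⟩
  have hs0 : NeZero s := ⟨hs.ne'⟩
  have hrs : r.Coprime s := h.coprime_dvd_right (Dvd.intro _ (by rw [mul_assoc]))
  have hrl : r.Coprime l := h.coprime_dvd_right (Dvd.intro_left s rfl |>.mul_right N)
  have hrN : r.Coprime N := h.coprime_dvd_right (Dvd.intro_left _ rfl)
  obtain ⟨u, v, huv⟩ : ∃ u v : ℤ, u * s + v * r = 1 := by
    obtain ⟨a, b, hab⟩ := (Nat.isCoprime_iff_coprime.2 hrs)
    exact ⟨b, a, by linear_combination hab⟩
  have hNr : IsUnit (N : ZMod r) := (ZMod.isUnit_iff_coprime N r).2 hrN.symm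
  have hlr : IsUnit (l : ZMod r) := (ZMod.isUnit_iff_coprime l r).2 hrl.symm
  have hsr : IsUnit (s : ZMod r) := (ZMod.isUnit_iff_coprime s r).2 hrs.symm
  have hur : IsUnit (u : ZMod r) := by
    have := congrArg (Int.cast : ℤ → ZMod r) huv
    push_cast at this
    rw [ZMod.natCast_self, mul_zero, add_zero] at this
    exact IsUnit.of_mul_eq_one _ this
  set κ : ZMod r := (N : ZMod r) * (s : ZMod r) with hκ
  have hκ0 : IsUnit κ := hNr.mul hsr
  have hκi : IsUnit κ⁻¹ := by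
    obtain ⟨k, hk⟩ := hκ0
    rw [← hk, ZMod.inv_coe_unit]
    exact Units.isUnit _
  set b : ZMod r := (d : ZMod r) * κ⁻¹ with hb
  set α : ZMod r := -(l : ZMod r) * (u : ZMod r) * κ⁻¹ with hα
  have hα0 : IsUnit α := (hlr.neg.mul hur).mul hκi
  have hDp : ∀ j : ℕ, ((d + (N * s * j : ℕ) : ℤ) : ZMod r) = κ * (b + (j : ZMod r)) := by
    intro j
    push_cast
    have h1 : κ * κ⁻¹ = 1 := ZMod.mul_inv_of_unit _ hκ0
    calc (d : ZMod r) + N * s * j = (κ * κ⁻¹) * d + N * s * j := by rw [h1, one_mul]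
      _ = κ * (b + (j : ZMod r)) := by rw [hb, hκ]; ring
  have hDc : ∀ j : ℕ, ((d + (N * s * j : ℕ) : ℤ) : ZMod s) = (d : ZMod s) := by
    intro j
    push_cast
    simp
  have hcop : ∀ j : ℕ, IsCoprime (d + (N * s * j : ℕ)) ((r * s : ℕ) : ℤ) ↔
      IsUnit (b + (j : ZMod r)) := by
    intro j
    have h1 : IsCoprime (d + (N * s * j : ℕ)) (s : ℤ) := by
      obtain ⟨x, y, hxy⟩ := hd
      refine ⟨x, y - x * N * j, ?_⟩
      push_cast
      linear_combination hxy
    have h2 : IsCoprime (d + (N * s * j : ℕ)) (r : ℤ) ↔ IsUnit (b + (j : ZMod r)) := by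
      rw [isCoprime_comm, ← ZMod.coe_int_isUnit_iff_isCoprime, hDp]
      constructor
      · intro h3
        exact isUnit_of_mul_isUnit_right h3
      · intro h3
        exact hκ0.mul h3
    rw [← h2]
    push_cast
    constructor
    · intro h
      exact h.of_mul_right_left
    · intro h
      refine IsCoprime.mul_right h ?_
      push_cast at h1
      exact h1
  have hfil : (Finset.range J).filter
      (fun j : ℕ => IsCoprime (d + (N * s * j : ℕ)) ((r * s : ℕ) : ℤ)) =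
      (Finset.range J).filter (fun j : ℕ => IsUnit (b + (j : ZMod r))) := by
    ext j
    rw [Finset.mem_filter, Finset.mem_filter, hcop j]
  have hterm : ∀ j ∈ (Finset.range J).filter (fun j : ℕ => IsUnit (b + (j : ZMod r))),
      ec l (r * s) (d + (N * s * j : ℕ)) =
        (ZMod.stdAddChar (N := r) (α * (b + (j : ZMod r))⁻¹) : ℂ) *
          (ZMod.stdAddChar (N := s) (-(l : ZMod s) * (v : ZMod s) * (d : ZMod s)⁻¹) : ℂ) := by
    intro j hj
    rw [Finset.mem_filter] at hj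
    have hα2 : -(l : ZMod r) * (u : ZMod r) * (κ * (b + (j : ZMod r)))⁻¹ =
        α * (b + (j : ZMod r))⁻¹ := by
      rw [hα, sel_k3_mul_inv _ _ hκ0 hj.2]; ring
    rw [b3_ec l huv _ ((hcop j).2 hj.2), hDp, hDc, hα2]
  have hn : ‖(ZMod.stdAddChar (N := s) (-(l : ZMod s) * (v : ZMod s) * (d : ZMod s)⁻¹) : ℂ)‖ = 1 := by
    rw [ZMod.stdAddChar_apply]
    exact Circle.norm_coe _
  have hfin : ‖∑ j ∈ (Finset.range J).filter (fun j : ℕ => IsUnit (b + (j : ZMod r))),
      ec l (r * s) (d + (N * s * j : ℕ))‖ ≤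
      2 ^ r.primeFactors.card * (r : ℝ) ^ (3 / 4 : ℝ) * (3 + Real.log r) := by
    rw [Finset.sum_congr rfl hterm, ← Finset.sum_mul, norm_mul, hn, mul_one]
    exact incomplete_sq hr α b hα0 J hJ
  refine le_trans (le_of_eq ?_) hfin
  congr 1
  refine Finset.sum_congr ?_ fun _ _ => rfl
  ext j
  rw [Finset.mem_filter, Finset.mem_filter, hcop j]

theorem shift_sum_sq : type_of% @shift_sum_sq_pr := @shift_sum_sq_pr

end Pool.Agent.SEL
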