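import Pool.Agent.Lib_helper68.SEL.Defs
import Pool.Agent.Lib_helper8.SEL.DQ

/-! SEL block D1 (DUE): the form `DU`. -/

namespace Pool.Agent.SEL

open Complex MeasureTheory Filter Topology Pool.Agent.GL2

/-- summability of the one-variable series -/
theorem sel_d1_sum {k : ℕ} {a : ℕ → ℝ} (H : HData k a) (m : ℕ) {y : ℝ} (hy : 0 < y) (c : ℝ) :
    Summable fun n : ℕ => |c * (am a m n * Real.exp (-2 * Real.pi * n * y))| := by
  have h1 := (summable_a_pr H (y := 2 * Real.pi * y) (by positivity)).mul_left |c|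
  refine Summable.of_nonneg_of_le (fun n => abs_nonneg _) (fun n => ?_) h1
  rw [abs_mul, abs_mul, Real.abs_exp]
  refine mul_le_mul_of_nonneg_left ?_ (abs_nonneg _)
  rw [show -2 * Real.pi * (n : ℝ) * y = -(2 * Real.pi * y) * n by ring]
  exact mul_le_mul_of_nonneg_right (sel_k11_am_le a m n) (Real.exp_pos _).le

theorem sel_d1_am {k : ℕ} {a : ℕ → ℝ} (m : ℕ) {n : ℕ} (hn : 0 < n) :
    am a m n = lamA k a m n * (n : ℝ) ^ (((k : ℝ) - 1) / 2) := by
  have hn' : (0 : ℝ) < n := by exact_mod_cast hn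
  simp only [lamA, ArithmeticFunction.coe_mk]
  unfold am lam
  by_cases h : n.Coprime m
  · rw [if_pos h, if_neg (by push Not; exact ⟨hn.ne', h⟩), mul_assoc, ← Real.rpow_add hn']
    simp
  · rw [if_neg h, if_pos (Or.inr h), zero_mul]

theorem sel_d1_conv {k : ℕ} {a : ℕ → ℝ} (m : ℕ) (u : ArithmeticFunction ℝ) (N : ℕ)
    (hu : ∀ A : ℕ, N ≤ A → u A = 0) {R : ℕ} (hR : 0 < R) :
    ∑ A ∈ Finset.Ico 1 N, (if A ∣ R then lamA k a m (R / A) * u A else 0) =
      (lamA k a m * u) R := by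
  rw [ArithmeticFunction.mul_apply, Nat.sum_divisorsAntidiagonal' (fun i j => lamA k a m i * u j),
    ← Finset.sum_filter]
  apply Finset.sum_subset_zero_on_sdiff
  · intro A hA
    rw [Finset.mem_filter] at hA
    rw [Nat.mem_divisors]
    exact ⟨hA.2, hR.ne'⟩
  · intro A hA
    rw [Finset.mem_sdiff, Nat.mem_divisors, Finset.mem_filter, Finset.mem_Ico] at hA
    have hA0 : 0 < A := Nat.pos_of_dvd_of_pos hA.1.1 hR
    have : N ≤ A := by
      by_contra h
      exact hA.2 ⟨⟨hA0, by omega⟩, hA.1.1⟩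
    rw [hu A this, mul_zero]
  · intro A _
    rfl

theorem DU_hasSum_pr {k : ℕ} {a : ℕ → ℝ} (H : HData k a) (m : ℕ) (u : ArithmeticFunction ℝ) (N : ℕ)
    (hu : ∀ A : ℕ, N ≤ A → u A = 0) {y : ℝ} (hy : 0 < y) :
    HasSum (fun M : ℕ => ((lamA k a m * u) M) ^ 2 / M *
      ((M * y) ^ k * Real.exp (-4 * Real.pi * (M * y)))) (DU k a m u N y) := by
  set f : ℕ → ℕ → ℝ := fun A n => u A / √A * (A * y) ^ ((k : ℝ) / 2) *
    (am a m n * Real.exp (-2 * Real.pi * n * (A * y))) with hf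
  have hq := sel_dq_quad (Finset.Ico 1 N) (fun A => A) (fun A hA => (Finset.mem_Ico.1 hA).1) f
    (fun A hA => by
      have hA0 : (0 : ℝ) < A := by exact_mod_cast (Finset.mem_Ico.1 hA).1
      exact sel_d1_sum H m (y := A * y) (by positivity) _)
  have hDU : ∑ A ∈ Finset.Ico 1 N, ∑ B ∈ Finset.Ico 1 N, (∑' v : ℕ × ℕ,
      if v.1 * A = v.2 * B then f A v.1 * f B v.2 else 0) = DU k a m u N y := by
    unfold DU
    refine Finset.sum_congr rfl fun A hA => Finset.sum_congr rfl fun B hB => ?_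
    have hA0 : (0 : ℝ) < A := by exact_mod_cast (Finset.mem_Ico.1 hA).1
    have hB0 : (0 : ℝ) < B := by exact_mod_cast (Finset.mem_Ico.1 hB).1
    unfold KK
    have e1 : (((A * B : ℕ) : ℝ) * (y * y)) ^ ((k : ℝ) / 2) =
        (A * y) ^ ((k : ℝ) / 2) * (B * y) ^ ((k : ℝ) / 2) := by
      rw [← Real.mul_rpow (by positivity) (by positivity)]
      congr 1
      push_cast
      ring
    rw [e1, ← tsum_mul_left, ← tsum_mul_left]
    refine tsum_congr fun v => ?_
    by_cases h : v.1 * A = v.2 * B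
    · have h' : ((v.1 * A : ℕ) : ℤ) - ((v.2 * B : ℕ) : ℤ) = 0 := by rw [h]; ring
      rw [if_pos h, if_pos h']
      simp only [hf]
      have e2 : Real.exp (-2 * Real.pi * (v.1 * A * y + v.2 * B * y)) =
          Real.exp (-2 * Real.pi * v.1 * (A * y)) * Real.exp (-2 * Real.pi * v.2 * (B * y)) := by
        rw [← Real.exp_add]
        congr 1
        ring
      rw [e2]
      field_simp
    · have h' : ¬ ((v.1 * A : ℕ) : ℤ) - ((v.2 * B : ℕ) : ℤ) = 0 := by
        intro h'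
        apply h
        have : ((v.1 * A : ℕ) : ℤ) = ((v.2 * B : ℕ) : ℤ) := by linarith
        exact_mod_cast this
      rw [if_neg h, if_neg h', mul_zero, mul_zero]
  rw [hDU] at hq
  have hterm : (fun R : ℕ => (∑ A ∈ Finset.Ico 1 N, if A ∣ R then f A (R / A) else 0) ^ 2) =
      fun M : ℕ => ((lamA k a m * u) M) ^ 2 / M *
      ((M * y) ^ k * Real.exp (-4 * Real.pi * (M * y))) := by
    funext R
    rcases Nat.eq_zero_or_pos R with h0 | hR
    · subst h0
      have : ∀ A ∈ Finset.Ico 1 N, (if A ∣ 0 then f A (0 / A) else 0) = 0 := by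
        intro A _
        rw [if_pos (dvd_zero A), Nat.zero_div]
        simp only [hf]
        rw [sel_k12_am_zero H]
        ring
      rw [Finset.sum_congr rfl this]
      simp
    · have hR' : (0 : ℝ) < R := by exact_mod_cast hR
      have h1 : ∀ A ∈ Finset.Ico 1 N, (if A ∣ R then f A (R / A) else 0) =
          (R : ℝ) ^ (((k : ℝ) - 1) / 2) * y ^ ((k : ℝ) / 2) * Real.exp (-2 * Real.pi * (R * y)) *
          (if A ∣ R then lamA k a m (R / A) * u A else 0) := by
        intro A hA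
        by_cases hd : A ∣ R
        · rw [if_pos hd, if_pos hd]
          obtain ⟨n, rfl⟩ := hd
          have hA1 : 0 < A := (Finset.mem_Ico.1 hA).1
          have hA0 : (0 : ℝ) < A := by exact_mod_cast hA1
          have hn1 : 0 < n := Nat.pos_of_mul_pos_left hR
          have hn0 : (0 : ℝ) < n := by exact_mod_cast hn1
          rw [Nat.mul_div_cancel_left _ hA1]
          simp only [hf]
          rw [sel_d1_am (k := k) m hn1]
          push_cast
          rw [Real.mul_rpow hA0.le hn0.le, Real.mul_rpow hA0.le hy.le]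
          have e1 : (A : ℝ) ^ ((k : ℝ) / 2) = A ^ (((k : ℝ) - 1) / 2) * √A := by
            rw [Real.sqrt_eq_rpow, ← Real.rpow_add hA0]
            congr 1
            ring
          have e2 : Real.exp (-2 * Real.pi * (A * n * y)) = Real.exp (-2 * Real.pi * n * (A * y)) := by
            congr 1
            ring
          rw [e1, e2]
          have : √(A : ℝ) ≠ 0 := (Real.sqrt_pos.2 hA0).ne'
          field_simp
        · rw [if_neg hd, if_neg hd, mul_zero]
      rw [Finset.sum_congr rfl h1, ← Finset.mul_sum, sel_d1_conv m u N hu hR, mul_pow, mul_pow,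
        mul_pow, ← Real.exp_nat_mul, ← Real.rpow_natCast _ 2, ← Real.rpow_mul hR'.le,
        ← Real.rpow_natCast (y ^ ((k : ℝ) / 2)) 2, ← Real.rpow_mul hy.le]
      have e1 : ((k : ℝ) - 1) / 2 * ((2 : ℕ) : ℝ) = (k : ℝ) - 1 := by push_cast; ring
      have e2 : (k : ℝ) / 2 * ((2 : ℕ) : ℝ) = (k : ℝ) := by push_cast; ring
      rw [e1, e2, Real.rpow_sub_one hR'.ne', Real.rpow_natCast, Real.rpow_natCast]
      have e3 : ((2 : ℕ) : ℝ) * (-2 * Real.pi * (R * y)) = -4 * Real.pi * (R * y) := by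
        push_cast; ring
      rw [e3]
      ring
  rw [hterm] at hq
  exact hq

theorem sel_d1_DU_le {k : ℕ} {a : ℕ → ℝ} (H : HData k a) (m : ℕ) (u : ArithmeticFunction ℝ)
    (N : ℕ) : ∃ C : ℝ, ∀ y : ℝ, 0 < y → |DU k a m u N y| ≤ C * Real.exp (-Real.pi * y) := by
  obtain ⟨C, hC0, hC⟩ := KK_tail_pr H
  refine ⟨∑ A ∈ Finset.Ico 1 N, ∑ B ∈ Finset.Ico 1 N, |u A * u B / (√A * √B)| * C, fun y hy => ?_⟩
  unfold DU
  rw [Finset.sum_mul]
  refine (Finset.abs_sum_le_sum_abs _ _).trans (Finset.sum_le_sum fun A hA => ?_)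
  rw [Finset.sum_mul]
  refine (Finset.abs_sum_le_sum_abs _ _).trans (Finset.sum_le_sum fun B hB => ?_)
  have hA0 := (Finset.mem_Ico.1 hA).1
  have hB0 := (Finset.mem_Ico.1 hB).1
  have h1 := hC m A B 0 y y hA0 hB0 hy hy
  have e1 : -Real.pi * |((0 : ℤ) : ℝ)| * min y y - Real.pi / 2 * (y + y) = -Real.pi * y := by
    simp
    ring
  rw [e1] at h1
  rw [abs_mul, mul_assoc]
  exact mul_le_mul_of_nonneg_left h1 (abs_nonneg _)

theorem sel_d1_DU_cont {k : ℕ} {a : ℕ → ℝ} (H : HData k a) (m : ℕ) (u : ArithmeticFunction ℝ)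
    (N : ℕ) : ContinuousOn (DU k a m u N) (Set.Ioi 0) := by
  unfold DU
  refine continuousOn_finsetSum _ fun A hA => continuousOn_finsetSum _ fun B hB => ?_
  refine continuousOn_const.mul ?_
  have hA0 := (Finset.mem_Ico.1 hA).1
  have hB0 := (Finset.mem_Ico.1 hB).1
  have h1 := KK_cont_pr H (m := m) hA0 hB0 0
  exact h1.comp (f := fun y : ℝ => ((y, y) : ℝ × ℝ)) (by fun_prop) (fun y hy => ⟨hy, hy⟩)

theorem sel_d1_DU_int {k : ℕ} {a : ℕ → ℝ} (H : HData k a) (m : ℕ) (u : ArithmeticFunction ℝ)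
    (N : ℕ) {σ : ℝ} (hσ : 0 < σ) :
    IntegrableOn (fun y : ℝ => DU k a m u N y * y ^ (σ - 1)) (Set.Ioi 0) := by
  obtain ⟨C, hC⟩ := sel_d1_DU_le H m u N
  have h1 : IntegrableOn (fun y : ℝ => C * (y ^ (σ - 1) * Real.exp (-Real.pi * y ^ (1 : ℝ))))
      (Set.Ioi 0) :=
    (integrableOn_rpow_mul_exp_neg_mul_rpow (by linarith) one_pos Real.pi_pos).const_mul C
  refine Integrable.mono' h1 ?_ ?_
  · refine ContinuousOn.aestronglyMeasurable ?_ measurableSet_Ioi
    refine (sel_d1_DU_cont H m u N).mul ?_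
    intro y hy
    exact (Real.continuousAt_rpow_const _ _ (Or.inl (ne_of_gt hy))).continuousWithinAt
  · refine (ae_restrict_iff' measurableSet_Ioi).2 (Eventually.of_forall fun y hy => ?_)
    have hy' : 0 < y := hy
    rw [norm_mul, Real.norm_eq_abs, Real.norm_eq_abs, abs_of_pos (Real.rpow_pos_of_pos hy' _),
      Real.rpow_one]
    have := hC y hy'
    have h2 : 0 < y ^ (σ - 1) := Real.rpow_pos_of_pos hy' _
    nlinarith

theorem sel_d1_term (k : ℕ) {σ : ℝ} (hσ : 0 < σ) {M : ℕ} (hM : 0 < M) :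
    IntegrableOn (fun y : ℝ => ((M * y) ^ k * Real.exp (-4 * Real.pi * (M * y))) * y ^ (σ - 1))
      (Set.Ioi 0) ∧
    ∫ y in Set.Ioi (0 : ℝ), ((M * y) ^ k * Real.exp (-4 * Real.pi * (M * y))) * y ^ (σ - 1) =
      Real.Gamma (k + σ) * (4 * Real.pi) ^ (-(k + σ) : ℝ) * (M : ℝ) ^ (-σ) := by
  have hM' : (0 : ℝ) < M := by exact_mod_cast hM
  have hk0 : (0 : ℝ) ≤ k := Nat.cast_nonneg k
  have hpi := Real.pi_pos
  have e1 : ∀ y ∈ Set.Ioi (0 : ℝ), ((M * y) ^ k * Real.exp (-4 * Real.pi * (M * y))) * y ^ (σ - 1) =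
      (M : ℝ) ^ k * (y ^ ((k + σ) - 1) * Real.exp (-((4 * Real.pi * M) * y))) := by
    intro y hy
    have hy' : (0 : ℝ) < y := hy
    rw [show (k + σ) - 1 = (k : ℝ) + (σ - 1) by ring, Real.rpow_add hy', Real.rpow_natCast, mul_pow,
      show -4 * Real.pi * (M * y) = -((4 * Real.pi * M) * y) by ring]
    ring
  have h1 := Real.integral_rpow_mul_exp_neg_mul_Ioi (a := (k : ℝ) + σ) (r := 4 * Real.pi * M)
    (by positivity) (by positivity)
  have h2 : IntegrableOn (fun y : ℝ => y ^ (((k : ℝ) + σ) - 1) * Real.exp (-((4 * Real.pi * M) * y)))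
      (Set.Ioi 0) := by
    have := integrableOn_rpow_mul_exp_neg_mul_rpow (p := 1) (s := ((k : ℝ) + σ) - 1)
      (b := 4 * Real.pi * M) (by linarith) one_pos (by positivity)
    refine this.congr_fun (fun y hy => ?_) measurableSet_Ioi
    simp only [Real.rpow_one]
    congr 2
    ring
  constructor
  · have h3 : IntegrableOn (fun y : ℝ => (M : ℝ) ^ k * (y ^ (((k : ℝ) + σ) - 1) *
        Real.exp (-((4 * Real.pi * M) * y)))) (Set.Ioi 0) := Integrable.const_mul h2 _
    exact h3.congr_fun (fun y hy => (e1 y hy).symm) measurableSet_Ioi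
  · rw [setIntegral_congr_fun measurableSet_Ioi e1, integral_const_mul, h1]
    rw [one_div, Real.inv_rpow (by positivity), ← Real.rpow_neg (by positivity),
      Real.mul_rpow (by positivity) hM'.le]
    have e2 : (M : ℝ) ^ k * (M : ℝ) ^ (-((k : ℝ) + σ)) = (M : ℝ) ^ (-σ) := by
      rw [← Real.rpow_natCast, ← Real.rpow_add hM']
      congr 1
      ring
    rw [← e2]
    ring

theorem DU_mellin_pr {k : ℕ} {a : ℕ → ℝ} (H : HData k a) (m : ℕ) (u : ArithmeticFunction ℝ) (N : ℕ)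
    (hu : ∀ A : ℕ, N ≤ A → u A = 0) {σ : ℝ} (hσ : 0 < σ) :
    (Summable fun M : ℕ => ((lamA k a m * u) M) ^ 2 * (M : ℝ) ^ (-1 - σ)) ∧
    IntegrableOn (fun y : ℝ => DU k a m u N y * y ^ (σ - 1)) (Set.Ioi 0) ∧
    ∫ y in Set.Ioi (0 : ℝ), DU k a m u N y * y ^ (σ - 1) =
      Real.Gamma (k + σ) * (4 * Real.pi) ^ (-(k + σ) : ℝ) *
        ∑' M : ℕ, ((lamA k a m * u) M) ^ 2 * (M : ℝ) ^ (-1 - σ) := by
  have hk0 : (0 : ℝ) ≤ k := Nat.cast_nonneg k
  have hint := sel_d1_DU_int H m u N hσ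
  set G : ℝ := Real.Gamma (k + σ) * (4 * Real.pi) ^ (-(k + σ) : ℝ) with hG
  have hG0 : 0 < G := by
    have := Real.Gamma_pos_of_pos (s := k + σ) (by positivity)
    have hpi := Real.pi_pos
    positivity
  set F : ℕ → ℝ → ℝ := fun M y => ((lamA k a m * u) M) ^ 2 / M *
      ((M * y) ^ k * Real.exp (-4 * Real.pi * (M * y))) * y ^ (σ - 1) with hF
  have hF0 : ∀ M y, 0 < y → 0 ≤ F M y := by
    intro M y hy
    simp only [hF]
    positivity
  have hFi : ∀ M, Integrable (F M) (volume.restrict (Set.Ioi 0)) := by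
    intro M
    rcases Nat.eq_zero_or_pos M with h | h
    · subst h
      have : F 0 = fun _ => 0 := by
        funext y
        simp [hF]
      rw [this]
      exact integrable_zero _ _ _
    · have := ((sel_d1_term k hσ h).1).const_mul (((lamA k a m * u) M) ^ 2 / M)
      refine this.congr (Eventually.of_forall fun y => ?_)
      simp only [hF]
      ring
  have hFv : ∀ M, ∫ y in Set.Ioi (0 : ℝ), F M y =
      G * (((lamA k a m * u) M) ^ 2 * (M : ℝ) ^ (-1 - σ)) := by
    intro M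
    rcases Nat.eq_zero_or_pos M with h | h
    · subst h
      simp [hF]
    · have hM' : (0 : ℝ) < M := by exact_mod_cast h
      have e1 : ∀ y : ℝ, F M y = ((lamA k a m * u) M) ^ 2 / M *
          (((M * y) ^ k * Real.exp (-4 * Real.pi * (M * y))) * y ^ (σ - 1)) := by
        intro y
        simp only [hF]
        ring
      simp_rw [e1]
      rw [integral_const_mul, (sel_d1_term k hσ h).2, ← hG]
      have e2 : (M : ℝ) ^ (-1 - σ) = (M : ℝ)⁻¹ * (M : ℝ) ^ (-σ) := by
        rw [← Real.rpow_neg_one, ← Real.rpow_add hM']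
        congr 1
      rw [e2]
      ring
  have hFn : ∀ M, ∫ y in Set.Ioi (0 : ℝ), ‖F M y‖ = ∫ y in Set.Ioi (0 : ℝ), F M y := by
    intro M
    refine setIntegral_congr_fun measurableSet_Ioi fun y hy => ?_
    exact Real.norm_of_nonneg (hF0 M y hy)
  have hHS : ∀ y : ℝ, 0 < y → HasSum (fun M => F M y) (DU k a m u N y * y ^ (σ - 1)) :=
    fun y hy => (DU_hasSum_pr H m u N hu hy).mul_right _
  have hsum : Summable fun M => ∫ y in Set.Ioi (0 : ℝ), ‖F M y‖ := by
    refine summable_of_sum_le (c := ∫ y in Set.Ioi (0 : ℝ), DU k a m u N y * y ^ (σ - 1))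
      (fun M => integral_nonneg fun y => norm_nonneg _) (fun s => ?_)
    rw [Finset.sum_congr rfl fun M _ => hFn M, ← integral_finsetSum _ fun M _ => hFi M]
    refine setIntegral_mono_on (integrable_finsetSum _ fun M _ => hFi M) hint measurableSet_Ioi
      fun y hy => ?_
    exact sum_le_hasSum s (fun M _ => hF0 M y hy) (hHS y hy)
  have hmain := hasSum_integral_of_summable_integral_norm hFi hsum
  have hval : ∫ y in Set.Ioi (0 : ℝ), ∑' M, F M y =
      ∫ y in Set.Ioi (0 : ℝ), DU k a m u N y * y ^ (σ - 1) :=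
    setIntegral_congr_fun measurableSet_Ioi fun y hy => (hHS y hy).tsum_eq
  rw [hval] at hmain
  simp_rw [hFv] at hmain
  have hs : Summable fun M : ℕ => ((lamA k a m * u) M) ^ 2 * (M : ℝ) ^ (-1 - σ) :=
    (summable_mul_left_iff hG0.ne').1 hmain.summable
  refine ⟨hs, hint, ?_⟩
  rw [← hmain.tsum_eq, tsum_mul_left]

theorem DU_hasSum : type_of% @DU_hasSum_pr := @DU_hasSum_pr
theorem DU_mellin : type_of% @DU_mellin_pr := @DU_mellin_pr

end Pool.Agent.SEL
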