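import Pool.Agent.Lib_helper68.SEL.Defs
import Pool.Agent.Lib_helper68.GL2.B9

/-! Block K10 (UIG): the function `G2` (helper58). -/

namespace Pool.Agent.SEL

open Complex MeasureTheory Filter Topology Pool.Agent.GL2

/-! ### analytic facts about `qs a` -/

theorem sel_k10_diff {k : ℕ} {a : ℕ → ℝ} (H : HData k a) {z : ℂ} (hz : 0 < z.im) :
    DifferentiableAt ℂ (qs a) z := by
  have hO : IsOpen {w : ℂ | z.im / 2 < w.im} := isOpen_lt continuous_const Complex.continuous_im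
  have h1 : DifferentiableOn ℂ (qs a) {w : ℂ | z.im / 2 < w.im} := by
    unfold qs
    apply differentiableOn_tsum_of_summable_norm
      (u := fun n : ℕ => |a n| * Real.exp (-(2 * Real.pi * (z.im / 2)) * n))
      (summable_a H (by positivity)) _ hO
    · intro n w hw
      rw [b9_norm_term]
      apply mul_le_mul_of_nonneg_left _ (abs_nonneg _)
      apply Real.exp_le_exp.mpr
      have h1 : (0 : ℝ) ≤ n := Nat.cast_nonneg n
      have h2 : z.im / 2 ≤ w.im := le_of_lt hw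
      have h3 : 2 * Real.pi * (z.im / 2) ≤ 2 * Real.pi * w.im :=
        mul_le_mul_of_nonneg_left h2 (by positivity)
      nlinarith
    · intro n
      fun_prop
  exact h1.differentiableAt (hO.mem_nhds (by show z.im / 2 < z.im; linarith))

theorem sel_k10_half_le {k : ℕ} {x : ℝ} (hx : 1 ≤ x) : x ^ ((k : ℝ) / 2) ≤ x ^ k := by
  rw [← Real.rpow_natCast]
  apply Real.rpow_le_rpow_of_exponent_le hx
  have : (0 : ℝ) ≤ k := Nat.cast_nonneg k
  linarith

/-- the bound `‖f(w)‖ ≤ C D^k e^{-2π Im w}` for `Im w ≥ 1/(2D)` -/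
theorem sel_k10_dec {k : ℕ} {a : ℕ → ℝ} (H : HData k a) : ∃ C : ℝ, 1 ≤ C ∧ ∀ D : ℝ, 1 ≤ D →
    ∀ w : ℂ, 1 / (2 * D) ≤ w.im → ‖qs a w‖ ≤ C * D ^ k * Real.exp (-2 * Real.pi * w.im) := by
  obtain ⟨C1, hC1⟩ := qs_decay H
  obtain ⟨C0, hC0⟩ := H.bound
  refine ⟨|C1| + |C0| * 2 ^ k * Real.exp (2 * Real.pi) + 1, ?_, ?_⟩
  · have : 0 ≤ |C1| + |C0| * 2 ^ k * Real.exp (2 * Real.pi) := by positivity
    linarith
  intro D hD w hw
  have hD0 : 0 < D := by linarith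
  have hDk : 1 ≤ D ^ k := one_le_pow₀ hD
  have hpi := Real.pi_pos
  have hw0 : 0 < w.im := lt_of_lt_of_le (by positivity) hw
  have hE := Real.exp_pos (-2 * Real.pi * w.im)
  have hpos : 0 ≤ D ^ k * Real.exp (-2 * Real.pi * w.im) := by positivity
  rcases le_total 1 w.im with h1 | h1
  · have e1 := hC1 w h1
    have e2 : C1 * Real.exp (-2 * Real.pi * w.im) ≤
        |C1| * (D ^ k * Real.exp (-2 * Real.pi * w.im)) := by
      apply mul_le_mul (le_abs_self _) _ hE.le (abs_nonneg _)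
      exact le_mul_of_one_le_left hE.le hDk
    have e3 : 0 ≤ (|C0| * 2 ^ k * Real.exp (2 * Real.pi) + 1) *
        (D ^ k * Real.exp (-2 * Real.pi * w.im)) := by positivity
    calc ‖qs a w‖ ≤ _ := e1
      _ ≤ _ := e2
      _ ≤ _ := by nlinarith
  · have e1 := hC0 w hw0
    have e2 : w.im ^ (-(k : ℝ) / 2) ≤ 2 ^ k * D ^ k := by
      have h2 := b9_rpow_anti (k := k) (by positivity : (0 : ℝ) < 1 / (2 * D)) hw
      have h3 : (1 / (2 * D)) ^ (-(k : ℝ) / 2) = (2 * D) ^ ((k : ℝ) / 2) := by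
        rw [one_div, Real.inv_rpow (by positivity), neg_div, Real.rpow_neg (by positivity), inv_inv]
      rw [h3] at h2
      have h4 := sel_k10_half_le (k := k) (x := 2 * D) (by linarith)
      rw [mul_pow] at h4
      exact h2.trans h4
    have e3 : (1 : ℝ) ≤ Real.exp (2 * Real.pi) * Real.exp (-2 * Real.pi * w.im) := by
      rw [← Real.exp_add]
      apply Real.one_le_exp
      nlinarith
    have e4 : 0 ≤ w.im ^ (-(k : ℝ) / 2) := Real.rpow_nonneg hw0.le _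
    have e5 : 0 ≤ (|C1| + 1) * (D ^ k * Real.exp (-2 * Real.pi * w.im)) := by positivity
    calc ‖qs a w‖ ≤ C0 * w.im ^ (-(k : ℝ) / 2) := e1
      _ ≤ |C0| * (2 ^ k * D ^ k) := mul_le_mul (le_abs_self _) e2 e4 (abs_nonneg _)
      _ ≤ |C0| * (2 ^ k * D ^ k) * (Real.exp (2 * Real.pi) *
          Real.exp (-2 * Real.pi * w.im)) := le_mul_of_one_le_right (by positivity) e3
      _ ≤ _ := by nlinarith

theorem sel_k10_lip {k : ℕ} {a : ℕ → ℝ} (H : HData k a) : ∃ C : ℝ, 1 ≤ C ∧ ∀ D : ℝ, 1 ≤ D →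
    ∀ w w' : ℂ, 1 / (2 * D) ≤ w.im → 1 / (2 * D) ≤ w'.im →
      ‖qs a w - qs a w'‖ ≤ C * D ^ (k + 1) * ‖w - w'‖ := by
  obtain ⟨C0, hC0⟩ := H.bound
  refine ⟨|C0| * 4 ^ (k + 1) + 1, by have : 0 ≤ |C0| * 4 ^ (k + 1) := by positivity
                                     linarith, ?_⟩
  intro D hD w w' hw hw'
  have hD0 : 0 < D := by linarith
  have hconv : Convex ℝ {z : ℂ | 1 / (2 * D) ≤ z.im} := by
    intro x hx y hy s t hs ht hst
    simp only [Set.mem_ofPred_eq, Complex.add_im, Complex.real_smul, Complex.mul_im,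
      Complex.ofReal_re, Complex.ofReal_im, zero_mul, add_zero] at hx hy ⊢
    calc 1 / (2 * D) = s * (1 / (2 * D)) + t * (1 / (2 * D)) := by rw [← add_mul, hst, one_mul]
      _ ≤ s * x.im + t * y.im :=
        add_le_add (mul_le_mul_of_nonneg_left hx hs) (mul_le_mul_of_nonneg_left hy ht)
  have hpos : ∀ z : ℂ, 1 / (2 * D) ≤ z.im → 0 < z.im := fun z hz =>
    lt_of_lt_of_le (by positivity) hz
  refine Convex.norm_image_sub_le_of_norm_deriv_le (f := qs a)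
    (s := {z : ℂ | 1 / (2 * D) ≤ z.im}) (fun z hz => sel_k10_diff H (hpos z hz)) ?_ hconv hw' hw
  intro z hz
  have hz' : 1 / (2 * D) ≤ z.im := hz
  have hR : (0 : ℝ) < 1 / (4 * D) := by positivity
  have hhalf : 1 / (2 * D) = 1 / (4 * D) + 1 / (4 * D) := by field_simp; norm_num
  have him : ∀ u : ℂ, dist u z ≤ 1 / (4 * D) → 1 / (4 * D) ≤ u.im := by
    intro u hu
    have h1 : |(u - z).im| ≤ ‖u - z‖ := Complex.abs_im_le_norm _
    rw [dist_eq_norm] at hu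
    rw [Complex.sub_im] at h1
    have h2 := (abs_le.1 (h1.trans hu)).1
    linarith
  have hd : DiffContOnCl ℂ (qs a) (Metric.ball z (1 / (4 * D))) := by
    apply DifferentiableOn.diffContOnCl
    intro u hu
    have hu' : dist u z ≤ 1 / (4 * D) := by
      have := Metric.closure_ball_subset_closedBall hu
      exact Metric.mem_closedBall.1 this
    exact (sel_k10_diff H (lt_of_lt_of_le hR (him u hu'))).differentiableWithinAt
  have hb : ∀ u ∈ Metric.sphere z (1 / (4 * D)), ‖qs a u‖ ≤ |C0| * (4 ^ k * D ^ k) := by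
    intro u hu
    have hu' : dist u z ≤ 1 / (4 * D) := (Metric.mem_sphere.1 hu).le
    have h1 := him u hu'
    have h0 : 0 < u.im := lt_of_lt_of_le hR h1
    have e1 := hC0 u h0
    have e2 : u.im ^ (-(k : ℝ) / 2) ≤ 4 ^ k * D ^ k := by
      have h2 := b9_rpow_anti (k := k) hR h1
      have h3 : (1 / (4 * D)) ^ (-(k : ℝ) / 2) = (4 * D) ^ ((k : ℝ) / 2) := by
        rw [one_div, Real.inv_rpow (by positivity), neg_div, Real.rpow_neg (by positivity), inv_inv]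
      rw [h3] at h2
      have h4 := sel_k10_half_le (k := k) (x := 4 * D) (by linarith)
      rw [mul_pow] at h4
      exact h2.trans h4
    exact e1.trans (mul_le_mul (le_abs_self _) e2 (Real.rpow_nonneg h0.le _) (abs_nonneg _))
  have hder := Complex.norm_deriv_le_of_forall_mem_sphere_norm_le hR hd hb
  refine hder.trans ?_
  have : |C0| * (4 ^ k * D ^ k) / (1 / (4 * D)) = |C0| * 4 ^ (k + 1) * D ^ (k + 1) := by
    rw [div_div_eq_mul_div, div_one]; ring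
  rw [this]
  have h5 : 0 ≤ D ^ (k + 1) := by positivity
  nlinarith

/-! ### decomposition of `diag(D, 1) g` -/

theorem sel_k10_dcmp {k : ℕ} {a : ℕ → ℝ} (H : HData k a) {D : ℕ} (hD : 0 < D)
    {g : ℤ × ℤ × ℤ × ℤ} (hg : Det1 g) : ∃ (A : ℕ) (b : ℤ) (d : ℕ), A * d = D ∧
      ∀ z : ℂ, 0 < z.im → qs a (D * mob g z) =
        (b9_den g z / d) ^ k * qs a ((A * z + b) / d) := by
  obtain ⟨α, β, γ, δ⟩ := g
  set A : ℕ := Nat.gcd D γ.natAbs with hA
  have hA0 : 0 < A := Nat.gcd_pos_of_pos_left _ hD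
  obtain ⟨d, hd⟩ : A ∣ D := Nat.gcd_dvd_left _ _
  have hAγ : (A : ℤ) ∣ γ := by
    rw [Int.natCast_dvd]; exact Nat.gcd_dvd_right _ _
  obtain ⟨x, hx⟩ := hAγ
  have hd0 : 0 < d := by
    rcases Nat.eq_zero_or_pos d with h | h
    · rw [h, mul_zero] at hd; omega
    · exact h
  have hcop : IsCoprime x (d : ℤ) := by
    rw [Int.isCoprime_iff_gcd_eq_one]
    have h1 : Nat.Coprime (D / A) (γ.natAbs / A) := Nat.coprime_div_gcd_div_gcd hA0
    have h2 : D / A = d := by rw [hd]; exact Nat.mul_div_cancel_left d hA0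
    have h3 : γ.natAbs / A = x.natAbs := by
      rw [hx, Int.natAbs_mul, Int.natAbs_natCast]; exact Nat.mul_div_cancel_left _ hA0
    rw [h2, h3] at h1
    rw [Int.gcd_eq_natAbs, Int.natAbs_natCast]
    exact Nat.Coprime.symm h1
  obtain ⟨u, v, huv⟩ := hcop
  unfold Det1 at hg
  simp only at hg
  refine ⟨A, u * δ, d, hd.symm, fun z hz => ?_⟩
  have hdet : (d * α) * (v * δ) - (A * β - u * δ * α) * x = 1 := by
    have : (d * α) * (v * δ) - (A * β - u * δ * α) * x =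
        α * δ * (u * x + v * d) - β * (A * x) := by ring
    rw [this, huv, ← hx]; linarith
  have hdC : (d : ℂ) ≠ 0 := by exact_mod_cast hd0.ne'
  have hden : (γ : ℂ) * z + δ ≠ 0 := by
    have := b9_den_ne (g := (α, β, γ, δ)) (by unfold Det1; simpa using hg) hz
    simpa [b9_den] using this
  have hwim : 0 < (((A : ℂ) * z + (u * δ : ℤ)) / d).im := by
    have : ((A : ℂ) * z + (u * δ : ℤ)) / d = ((A / d : ℝ) : ℂ) * z + ((u * δ / d : ℝ) : ℂ) := by
      push_cast; field_simp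
    rw [this, Complex.add_im, Complex.ofReal_im, add_zero, Complex.mul_im, Complex.ofReal_re,
      Complex.ofReal_im, zero_mul, add_zero]
    have h1 : (0 : ℝ) < A := by exact_mod_cast hA0
    have h2 : (0 : ℝ) < d := by exact_mod_cast hd0
    positivity
  have hsl := H.slash (d * α) (A * β - u * δ * α) x (v * δ) hdet _ hwim
  have hxC : (γ : ℂ) = A * x := by exact_mod_cast hx
  have hDC : (D : ℂ) = A * d := by exact_mod_cast hd
  have huvC : (u : ℂ) * x + v * d = 1 := by exact_mod_cast huv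
  have e1 : (x : ℂ) * (((A : ℂ) * z + (u * δ : ℤ)) / d) + ((v * δ : ℤ) : ℂ) =
      (γ * z + δ) / d := by
    rw [eq_div_iff hdC, hxC]
    push_cast
    field_simp
    linear_combination (δ : ℂ) * huvC
  have e2 : (((d * α : ℤ) : ℂ) * (((A : ℂ) * z + (u * δ : ℤ)) / d) +
      ((A * β - u * δ * α : ℤ) : ℂ)) = A * (α * z + β) := by
    push_cast
    field_simp
    ring
  rw [e1, e2] at hsl
  have e3 : (A : ℂ) * (α * z + β) / ((γ * z + δ) / d) = D * mob (α, β, γ, δ) z := by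
    unfold mob
    simp only
    rw [hDC]
    field_simp
  rw [e3] at hsl
  rw [hsl]
  rfl

/-- the decomposition depends on the bottom row modulo `N` only -/
theorem sel_k10_rep {k : ℕ} {a : ℕ → ℝ} (H : HData k a) {D N : ℕ} (hD : 0 < D) (hDN : D ∣ N)
    (c d : ℤ) : ∃ t : ℕ × ℤ × ℕ, t.1 * t.2.2 = D ∧ ∀ g : ℤ × ℤ × ℤ × ℤ, Det1 g →
      (N : ℤ) ∣ g.2.2.1 - c → (N : ℤ) ∣ g.2.2.2 - d → ∀ z : ℂ, 0 < z.im →
        qs a (D * mob g z) =
          (b9_den g z / t.2.2) ^ k * qs a ((t.1 * z + t.2.1) / t.2.2) := by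
  by_cases h : ∃ g : ℤ × ℤ × ℤ × ℤ, Det1 g ∧ (N : ℤ) ∣ g.2.2.1 - c ∧ (N : ℤ) ∣ g.2.2.2 - d
  · obtain ⟨g, hg, h1, h2⟩ := h
    obtain ⟨A, b, e, hAe, hq⟩ := sel_k10_dcmp H hD hg
    refine ⟨(A, b, e), hAe, fun g' hg' h1' h2' z hz => ?_⟩
    have hDN' : (D : ℤ) ∣ (N : ℤ) := by exact_mod_cast hDN
    have k1 : (D : ℤ) ∣ g'.2.2.1 - g.2.2.1 := by
      have := dvd_sub (hDN'.trans h1') (hDN'.trans h1)
      simpa using this
    have k2 : (D : ℤ) ∣ g'.2.2.2 - g.2.2.2 := by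
      have := dvd_sub (hDN'.trans h2') (hDN'.trans h2)
      simpa using this
    have hl := b9_level H hD hg hg' k1 k2 hz
    unfold b9_sl at hl
    simp only at hl ⊢
    have hn := b9_den_ne hg hz
    have hn' := b9_den_ne hg' hz
    rw [hq z hz] at hl
    rw [eq_div_iff (pow_ne_zero k hn')] at hl
    rw [← hl, div_pow, div_pow]
    field_simp
  · exact ⟨(D, 0, 1), by simp, fun g hg h1 h2 => absurd ⟨g, hg, h1, h2⟩ h⟩

/-- the function attached to a triple -/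
noncomputable def sel_k10_F (k : ℕ) (a : ℕ → ℝ) (t : ℕ × ℤ × ℕ) (z : ℂ) : ℂ :=
  qs a ((t.1 * z + t.2.1) / t.2.2) / (t.2.2 : ℂ) ^ k

theorem sel_k10_im {t : ℕ × ℤ × ℕ} {D : ℕ} (hD : 0 < D) (ht : t.1 * t.2.2 = D) (z : ℂ) :
    ((t.1 * z + t.2.1) / t.2.2).im = t.1 / t.2.2 * z.im := by
  have h2 : (t.2.2 : ℂ) ≠ 0 := by
    have : t.2.2 ≠ 0 := by rintro h; rw [h, mul_zero] at ht; omega
    exact_mod_cast this
  have : ((t.1 : ℂ) * z + t.2.1) / t.2.2 =
      ((t.1 / t.2.2 : ℝ) : ℂ) * z + ((t.2.1 / t.2.2 : ℝ) : ℂ) := by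
    push_cast; field_simp
  rw [this, Complex.add_im, Complex.ofReal_im, add_zero, Complex.mul_im, Complex.ofReal_re,
      Complex.ofReal_im, zero_mul, add_zero]

theorem sel_k10_tb {t : ℕ × ℤ × ℕ} {D : ℕ} (hD : 0 < D) (ht : t.1 * t.2.2 = D) :
    (1 : ℝ) ≤ t.1 ∧ (1 : ℝ) ≤ t.2.2 ∧ (1 : ℝ) / D ≤ t.1 / t.2.2 ∧ (t.1 : ℝ) / t.2.2 ≤ D := by
  have h1 : 0 < t.1 := by
    rcases Nat.eq_zero_or_pos t.1 with h | h
    · rw [h, zero_mul] at ht; omega
    · exact h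
  have h2 : 0 < t.2.2 := by
    rcases Nat.eq_zero_or_pos t.2.2 with h | h
    · rw [h, mul_zero] at ht; omega
    · exact h
  have h1' : (1 : ℝ) ≤ t.1 := by exact_mod_cast h1
  have h2' : (1 : ℝ) ≤ t.2.2 := by exact_mod_cast h2
  have h3 : (t.1 : ℝ) * t.2.2 = D := by exact_mod_cast ht
  refine ⟨h1', h2', ?_, ?_⟩
  · rw [← h3, div_le_div_iff₀ (by positivity) (by positivity)]
    nlinarith [mul_le_mul h1' h1' zero_le_one (by linarith)]
  · rw [← h3, div_le_iff₀ (by positivity)]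
    nlinarith [mul_le_mul h2' h2' zero_le_one (by linarith)]

theorem sel_k10_F_le {k : ℕ} {a : ℕ → ℝ} (H : HData k a) : ∃ C : ℝ, 1 ≤ C ∧
    ∀ (t : ℕ × ℤ × ℕ) (D : ℕ), 0 < D → t.1 * t.2.2 = D → ∀ R : ℝ, 1 ≤ R → ∀ w : ℂ,
      1 / (2 * R) ≤ w.im → ‖sel_k10_F k a t w‖ ≤
        C * (R * D) ^ k * Real.exp (-2 * Real.pi * (w.im / D)) := by
  obtain ⟨C, hC1, hC⟩ := sel_k10_dec H
  refine ⟨C, hC1, fun t D hD ht R hR w hw => ?_⟩
  obtain ⟨h1, h2, h3, h4⟩ := sel_k10_tb hD ht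
  have hDR : (1 : ℝ) ≤ D := by exact_mod_cast hD
  have hR0 : 0 < R := by linarith
  have hw0 : 0 < w.im := lt_of_lt_of_le (by positivity) hw
  have him := sel_k10_im hD ht w
  have hge : w.im / D ≤ ((t.1 * w + t.2.1) / t.2.2).im := by
    rw [him]
    have := mul_le_mul_of_nonneg_right h3 hw0.le
    calc w.im / D = 1 / D * w.im := by ring
      _ ≤ _ := this
  have hge2 : 1 / (2 * (R * D)) ≤ ((t.1 * w + t.2.1) / t.2.2).im := by
    refine le_trans ?_ hge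
    rw [← mul_assoc, ← div_div]
    exact div_le_div_of_nonneg_right hw (by positivity)
  have key := hC (R * D) (one_le_mul_of_one_le_of_one_le hR hDR) _ hge2
  unfold sel_k10_F
  rw [norm_div, norm_pow, Complex.norm_natCast]
  have h5 : (1 : ℝ) ≤ (t.2.2 : ℝ) ^ k := one_le_pow₀ h2
  have h6 : Real.exp (-2 * Real.pi * ((t.1 * w + t.2.1) / t.2.2).im) ≤
      Real.exp (-2 * Real.pi * (w.im / D)) := by
    apply Real.exp_le_exp.2
    have : 2 * Real.pi * (w.im / D) ≤ 2 * Real.pi * ((t.1 * w + t.2.1) / t.2.2).im :=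
      mul_le_mul_of_nonneg_left hge (by positivity)
    linarith
  calc _ ≤ ‖qs a ((t.1 * w + t.2.1) / t.2.2)‖ := div_le_self (norm_nonneg _) h5
    _ ≤ _ := key
    _ ≤ _ := mul_le_mul_of_nonneg_left h6 (by positivity)

theorem sel_k10_F_lip {k : ℕ} {a : ℕ → ℝ} (H : HData k a) : ∃ C : ℝ, 1 ≤ C ∧
    ∀ (t : ℕ × ℤ × ℕ) (D : ℕ), 0 < D → t.1 * t.2.2 = D → ∀ R : ℝ, 1 ≤ R → ∀ w w' : ℂ,
      1 / (2 * R) ≤ w.im → 1 / (2 * R) ≤ w'.im →
        ‖sel_k10_F k a t w - sel_k10_F k a t w'‖ ≤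
          C * (R * D) ^ (k + 1) * D * ‖w - w'‖ := by
  obtain ⟨C, hC1, hC⟩ := sel_k10_lip H
  refine ⟨C, hC1, fun t D hD ht R hR w w' hw hw' => ?_⟩
  obtain ⟨h1, h2, h3, h4⟩ := sel_k10_tb hD ht
  have hDR : (1 : ℝ) ≤ D := by exact_mod_cast hD
  have hR0 : 0 < R := by linarith
  have hge : ∀ u : ℂ, 1 / (2 * R) ≤ u.im →
      1 / (2 * (R * D)) ≤ ((t.1 * u + t.2.1) / t.2.2).im := by
    intro u hu
    have hu0 : 0 < u.im := lt_of_lt_of_le (by positivity) hu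
    rw [sel_k10_im hD ht u]
    calc 1 / (2 * (R * D)) = 1 / D * (1 / (2 * R)) := by field_simp
      _ ≤ t.1 / t.2.2 * u.im := mul_le_mul h3 hu (by positivity) (by positivity)
  have key := hC (R * D) (one_le_mul_of_one_le_of_one_le hR hDR) _ _ (hge w hw) (hge w' hw')
  have h22 : (t.2.2 : ℂ) ≠ 0 := by
    have : (0 : ℝ) < t.2.2 := by linarith
    exact_mod_cast this.ne'
  have e1 : (t.1 * w + t.2.1) / t.2.2 - (t.1 * w' + t.2.1) / t.2.2 =
      ((t.1 / t.2.2 : ℝ) : ℂ) * (w - w') := by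
    push_cast; field_simp; ring
  rw [e1, norm_mul, Complex.norm_real, Real.norm_eq_abs, abs_of_nonneg (by positivity)] at key
  unfold sel_k10_F
  rw [← sub_div, norm_div, norm_pow, Complex.norm_natCast]
  have h5 : (1 : ℝ) ≤ (t.2.2 : ℝ) ^ k := one_le_pow₀ h2
  calc _ ≤ ‖qs a ((t.1 * w + t.2.1) / t.2.2) - qs a ((t.1 * w' + t.2.1) / t.2.2)‖ :=
        div_le_self (norm_nonneg _) h5
    _ ≤ _ := key
    _ ≤ C * (R * D) ^ (k + 1) * (D * ‖w - w'‖) := by gcongr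
    _ = _ := by ring

/-! ### the second point -/

/-- `1 - i(ρ-1) Im(u) u` -/
noncomputable def sel_k10_v (ρ : ℝ) (u : ℂ) : ℂ := 1 - I * (((ρ - 1) * u.im : ℝ) : ℂ) * u

/-- the second point -/
noncomputable def sel_k10_w (ρ : ℝ) (z u : ℂ) : ℂ :=
  z + I * (((ρ - 1) * z.im : ℝ) : ℂ) * u ^ 2 / sel_k10_v ρ u

theorem sel_k10_sq {u : ℂ} (hu : ‖u‖ = 1) : u.re ^ 2 + u.im ^ 2 = 1 := by
  have := Complex.normSq_eq_norm_sq u
  rw [hu, Complex.normSq_apply] at this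
  nlinarith

theorem sel_k10_v_sq (ρ : ℝ) {u : ℂ} (hu : ‖u‖ = 1) :
    ‖sel_k10_v ρ u‖ ^ 2 = 1 + (ρ ^ 2 - 1) * u.im ^ 2 := by
  have h1 := sel_k10_sq hu
  rw [← Complex.normSq_eq_norm_sq, Complex.normSq_apply]
  have e1 : (sel_k10_v ρ u).re = 1 + (ρ - 1) * u.im ^ 2 := by
    unfold sel_k10_v
    simp [Complex.mul_re, Complex.mul_im]
    ring
  have e2 : (sel_k10_v ρ u).im = -((ρ - 1) * u.im * u.re) := by
    unfold sel_k10_v
    simp [Complex.mul_re, Complex.mul_im]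
  rw [e1, e2]
  linear_combination ((ρ - 1) ^ 2 * u.im ^ 2) * h1

theorem sel_k10_v_norm {ρ : ℝ} (hρ : 1 ≤ ρ) {u : ℂ} (hu : ‖u‖ = 1) :
    1 ≤ ‖sel_k10_v ρ u‖ ∧ ‖sel_k10_v ρ u‖ ≤ ρ := by
  have h1 := sel_k10_v_sq ρ hu
  have h2 := sel_k10_sq hu
  have h3 : 0 ≤ (ρ ^ 2 - 1) := by nlinarith
  have h4 : u.im ^ 2 ≤ 1 := by nlinarith [sq_nonneg u.re]
  have h5 := norm_nonneg (sel_k10_v ρ u)
  constructor
  · have : 1 ≤ ‖sel_k10_v ρ u‖ ^ 2 := by rw [h1]; nlinarith [sq_nonneg u.im]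
    nlinarith
  · have : ‖sel_k10_v ρ u‖ ^ 2 ≤ ρ ^ 2 := by rw [h1]; nlinarith
    exact le_of_sq_le_sq this (by linarith)

theorem sel_k10_v_ne {ρ : ℝ} (hρ : 1 ≤ ρ) {u : ℂ} (hu : ‖u‖ = 1) : sel_k10_v ρ u ≠ 0 := by
  have := (sel_k10_v_norm hρ hu).1
  intro h
  rw [h, norm_zero] at this
  linarith

theorem sel_k10_w_im {ρ : ℝ} (hρ : 1 ≤ ρ) {u : ℂ} (hu : ‖u‖ = 1) (z : ℂ) :
    (sel_k10_w ρ z u).im = ρ * z.im / ‖sel_k10_v ρ u‖ ^ 2 := by
  have h1 := sel_k10_v_sq ρ hu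
  have h2 := sel_k10_sq hu
  have hv := sel_k10_v_norm hρ hu
  have hn : ‖sel_k10_v ρ u‖ ^ 2 ≠ 0 := by
    have : 0 < ‖sel_k10_v ρ u‖ := by linarith [hv.1]
    positivity
  have e1 : (sel_k10_v ρ u).re = 1 + (ρ - 1) * u.im ^ 2 := by
    unfold sel_k10_v
    simp [Complex.mul_re, Complex.mul_im]
    ring
  have e2 : (sel_k10_v ρ u).im = -((ρ - 1) * u.im * u.re) := by
    unfold sel_k10_v
    simp [Complex.mul_re, Complex.mul_im]
  unfold sel_k10_w
  rw [Complex.add_im, Complex.div_im, Complex.normSq_eq_norm_sq, e1, e2]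
  have e3 : (I * (((ρ - 1) * z.im : ℝ) : ℂ) * u ^ 2).im =
      (ρ - 1) * z.im * (u.re ^ 2 - u.im ^ 2) := by
    rw [pow_two]
    simp [Complex.mul_re, Complex.mul_im]
    left; ring
  have e4 : (I * (((ρ - 1) * z.im : ℝ) : ℂ) * u ^ 2).re =
      -((ρ - 1) * z.im * (2 * u.re * u.im)) := by
    rw [pow_two]
    simp [Complex.mul_re, Complex.mul_im]
    left; ring
  rw [e3, e4]
  rw [eq_div_iff hn, add_mul, sub_mul, div_mul_cancel₀ _ hn, div_mul_cancel₀ _ hn, h1]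
  have h3 : u.re ^ 2 = 1 - u.im ^ 2 := by linarith
  have h4 : (ρ - 1) * z.im * (u.re ^ 2 - u.im ^ 2) * (1 + (ρ - 1) * u.im ^ 2) -
      -((ρ - 1) * z.im * (2 * u.re * u.im)) * -((ρ - 1) * u.im * u.re) =
      (ρ - 1) * z.im * ((u.re ^ 2 - u.im ^ 2) * (1 + (ρ - 1) * u.im ^ 2) -
        2 * (ρ - 1) * u.im ^ 2 * u.re ^ 2) := by ring
  rw [h4, h3]
  ring

theorem sel_k10_w_im_ge {ρ : ℝ} (hρ : 1 ≤ ρ) {u : ℂ} (hu : ‖u‖ = 1) {z : ℂ} (hz : 0 < z.im) :
    z.im / ρ ≤ (sel_k10_w ρ z u).im := by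
  rw [sel_k10_w_im hρ hu]
  obtain ⟨h1, h2⟩ := sel_k10_v_norm hρ hu
  have h0 : 0 < ‖sel_k10_v ρ u‖ := by linarith
  rw [div_le_div_iff₀ (by linarith) (by positivity)]
  have : ‖sel_k10_v ρ u‖ ^ 2 ≤ ρ * ρ := by nlinarith
  nlinarith

theorem sel_k10_lip_v {ρ : ℝ} (hρ : 1 ≤ ρ) {u u' : ℂ} (hu : ‖u‖ = 1) (hu' : ‖u'‖ = 1) :
    ‖sel_k10_v ρ u - sel_k10_v ρ u'‖ ≤ 2 * (ρ - 1) * ‖u - u'‖ := by
  have e1 : sel_k10_v ρ u - sel_k10_v ρ u' =
      -(I * ((ρ - 1 : ℝ) : ℂ)) * (((u.im : ℝ) : ℂ) * (u - u') + (((u - u').im : ℝ) : ℂ) * u') := by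
    unfold sel_k10_v
    rw [Complex.sub_im]
    push_cast
    ring
  rw [e1, norm_mul, norm_neg, norm_mul, Complex.norm_I, one_mul, Complex.norm_real,
    Real.norm_eq_abs, abs_of_nonneg (by linarith)]
  have h1 : ‖((u.im : ℝ) : ℂ) * (u - u') + (((u - u').im : ℝ) : ℂ) * u'‖ ≤ 2 * ‖u - u'‖ := by
    refine (norm_add_le _ _).trans ?_
    rw [norm_mul, norm_mul, Complex.norm_real, Complex.norm_real, Real.norm_eq_abs,
      Real.norm_eq_abs, hu', mul_one]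
    have h2 := Complex.abs_im_le_norm u
    rw [hu] at h2
    have h3 := Complex.abs_im_le_norm (u - u')
    nlinarith [norm_nonneg (u - u')]
  nlinarith

theorem sel_k10_lip_w {ρ : ℝ} (hρ : 1 ≤ ρ) {u u' : ℂ} (hu : ‖u‖ = 1) (hu' : ‖u'‖ = 1) {z : ℂ}
    (hz : 0 < z.im) :
    ‖sel_k10_w ρ z u - sel_k10_w ρ z u'‖ ≤ 4 * ρ ^ 2 * z.im * ‖u - u'‖ := by
  have hv := sel_k10_v_ne hρ hu
  have hv' := sel_k10_v_ne hρ hu'
  obtain ⟨g1, g2⟩ := sel_k10_v_norm hρ hu
  obtain ⟨g1', g2'⟩ := sel_k10_v_norm hρ hu'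
  have e1 : sel_k10_w ρ z u - sel_k10_w ρ z u' = I * (((ρ - 1) * z.im : ℝ) : ℂ) *
      (((u - u') * (u + u') * sel_k10_v ρ u' - u' ^ 2 * (sel_k10_v ρ u - sel_k10_v ρ u')) /
        (sel_k10_v ρ u * sel_k10_v ρ u')) := by
    unfold sel_k10_w
    field_simp
    ring
  rw [e1, norm_mul, norm_mul, Complex.norm_I, one_mul, Complex.norm_real, Real.norm_eq_abs,
    abs_of_nonneg (mul_nonneg (by linarith) hz.le), norm_div, norm_mul]
  have h1 : 1 ≤ ‖sel_k10_v ρ u‖ * ‖sel_k10_v ρ u'‖ := one_le_mul_of_one_le_of_one_le g1 g1'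
  have h2 : ‖(u - u') * (u + u') * sel_k10_v ρ u' - u' ^ 2 * (sel_k10_v ρ u - sel_k10_v ρ u')‖ ≤
      4 * ρ * ‖u - u'‖ := by
    refine (norm_sub_le _ _).trans ?_
    rw [norm_mul, norm_mul, norm_mul, norm_pow, hu', one_pow, one_mul]
    have h3 : ‖u + u'‖ ≤ 2 := by
      refine (norm_add_le _ _).trans ?_
      rw [hu, hu']; norm_num
    have h4 := sel_k10_lip_v hρ hu hu'
    have h5 := norm_nonneg (u - u')
    have h6 : ‖u - u'‖ * ‖u + u'‖ * ‖sel_k10_v ρ u'‖ ≤ ‖u - u'‖ * 2 * ρ := by gcongr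
    nlinarith
  have h7 : ‖(u - u') * (u + u') * sel_k10_v ρ u' - u' ^ 2 * (sel_k10_v ρ u - sel_k10_v ρ u')‖ /
      (‖sel_k10_v ρ u‖ * ‖sel_k10_v ρ u'‖) ≤ 4 * ρ * ‖u - u'‖ :=
    (div_le_self (norm_nonneg _) h1).trans h2
  have h8 : 0 ≤ ‖u - u'‖ := norm_nonneg _
  calc (ρ - 1) * z.im * _ ≤ (ρ - 1) * z.im * (4 * ρ * ‖u - u'‖) :=
        mul_le_mul_of_nonneg_left h7 (mul_nonneg (by linarith) hz.le)
    _ ≤ ρ * z.im * (4 * ρ * ‖u - u'‖) := by
        apply mul_le_mul_of_nonneg_right _ (by positivity)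
        exact mul_le_mul_of_nonneg_right (by linarith) hz.le
    _ = _ := by ring

/-- `G2` at `g z` -/
theorem sel_k10_mob {g : ℤ × ℤ × ℤ × ℤ} (hg : Det1 g) {ρ : ℝ} (hρ : 1 ≤ ρ) {z : ℂ}
    (hz : 0 < z.im) : ‖uu g.2.2.1 g.2.2.2 z‖ = 1 ∧
    b9_den g z = ((‖b9_den g z‖ : ℝ) : ℂ) * uu g.2.2.1 g.2.2.2 z ∧
    b9_den g (sel_k10_w ρ z (uu g.2.2.1 g.2.2.2 z)) =
      b9_den g z / sel_k10_v ρ (uu g.2.2.1 g.2.2.2 z) ∧
    mob g z + ((((ρ - 1) * (mob g z).im : ℝ)) : ℂ) * I =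
      mob g (sel_k10_w ρ z (uu g.2.2.1 g.2.2.2 z)) := by
  set u := uu g.2.2.1 g.2.2.2 z with hu
  have hn := b9_den_ne hg hz
  have hnn : 0 < ‖b9_den g z‖ := norm_pos_iff.2 hn
  have hnC : ((‖b9_den g z‖ : ℝ) : ℂ) ≠ 0 := by exact_mod_cast hnn.ne'
  have hudef : u = b9_den g z / ((‖b9_den g z‖ : ℝ) : ℂ) := rfl
  have hu1 : ‖u‖ = 1 := by
    rw [hudef, norm_div, Complex.norm_real, norm_norm, div_self hnn.ne']
  have hden : b9_den g z = ((‖b9_den g z‖ : ℝ) : ℂ) * u := by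
    rw [hudef, mul_div_cancel₀ _ hnC]
  have hv := sel_k10_v_ne hρ hu1
  have him : u.im * ‖b9_den g z‖ = g.2.2.1 * z.im := by
    have h1 := congrArg Complex.im hden
    rw [Complex.mul_im, Complex.ofReal_re, Complex.ofReal_im, zero_mul, add_zero] at h1
    have h2 : (b9_den g z).im = g.2.2.1 * z.im := by
      unfold b9_den
      simp
    rw [h2] at h1
    linarith
  have hw : b9_den g (sel_k10_w ρ z u) = b9_den g z / sel_k10_v ρ u := by
    rw [eq_div_iff hv]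
    have e1 : b9_den g (sel_k10_w ρ z u) = b9_den g z +
        (g.2.2.1 : ℂ) * (I * (((ρ - 1) * z.im : ℝ) : ℂ) * u ^ 2 / sel_k10_v ρ u) := by
      unfold b9_den sel_k10_w
      ring
    rw [e1, add_mul, mul_assoc (g.2.2.1 : ℂ), div_mul_cancel₀ _ hv]
    have e2 : ((g.2.2.1 : ℂ)) * (((z.im : ℝ)) : ℂ) = ((u.im : ℝ) : ℂ) * ((‖b9_den g z‖ : ℝ) : ℂ) := by
      exact_mod_cast him.symm
    have e3 : (g.2.2.1 : ℂ) * (I * (((ρ - 1) * z.im : ℝ) : ℂ) * u ^ 2) =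
        I * ((ρ - 1 : ℝ) : ℂ) * ((u.im : ℝ) : ℂ) * u * b9_den g z := by
      rw [hden]
      push_cast
      linear_combination (I * ((ρ : ℂ) - 1) * u ^ 2) * e2
    rw [e3]
    unfold sel_k10_v
    push_cast
    ring
  refine ⟨hu1, hden, hw, ?_⟩
  have hwn : b9_den g (sel_k10_w ρ z u) ≠ 0 := by
    rw [hw]; exact div_ne_zero hn hv
  have hdetC : (g.1 : ℂ) * g.2.2.2 - g.2.1 * g.2.2.1 = 1 := by
    unfold Det1 at hg
    exact_mod_cast hg
  have hdiff : mob g (sel_k10_w ρ z u) - mob g z =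
      (sel_k10_w ρ z u - z) / (b9_den g (sel_k10_w ρ z u) * b9_den g z) := by
    rw [b9_mob, b9_mob]
    rw [div_sub_div _ _ hwn hn]
    congr 1
    unfold b9_num b9_den
    linear_combination (sel_k10_w ρ z u - z) * hdetC
  have hwz : sel_k10_w ρ z u - z = I * (((ρ - 1) * z.im : ℝ) : ℂ) * u ^ 2 / sel_k10_v ρ u := by
    unfold sel_k10_w; ring
  have e5 : (sel_k10_w ρ z u - z) / (b9_den g (sel_k10_w ρ z u) * b9_den g z) =
      ((((ρ - 1) * (mob g z).im : ℝ)) : ℂ) * I := by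
    rw [hwz, hw, b9_im_mob hg]
    have hu0 : u ≠ 0 := by
      intro h0
      rw [h0, norm_zero] at hu1
      norm_num at hu1
    have e6 : b9_den g z * b9_den g z = ((‖b9_den g z‖ : ℝ) : ℂ) ^ 2 * u ^ 2 := by
      nth_rw 1 2 [hden]
      ring
    rw [div_mul_eq_mul_div, e6]
    push_cast
    field_simp
  rw [← e5, ← hdiff]
  ring

/-! ### the constants -/

theorem sel_k10_poly (n : ℕ) {A y : ℝ} (hA : 1 ≤ A) (hy : 0 ≤ y) :
    y ^ n * Real.exp (-2 * Real.pi * (y / A)) ≤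
      n.factorial * A ^ n * Real.exp (-(Real.pi / A) * y) := by
  have hpi := Real.pi_gt_three
  have hA0 : 0 < A := by linarith
  have h1 : (Real.pi / A * y) ^ n / n.factorial ≤ Real.exp (Real.pi / A * y) :=
    Real.pow_div_factorial_le_exp _ (by positivity) n
  have h2 : y ^ n ≤ n.factorial * A ^ n * Real.exp (Real.pi / A * y) := by
    rw [div_le_iff₀ (by positivity)] at h1
    have h3 : y ^ n = (A / Real.pi) ^ n * (Real.pi / A * y) ^ n := by
      rw [← mul_pow]; congr 1; field_simp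
    have h4 : (A / Real.pi) ^ n ≤ A ^ n := by
      apply pow_le_pow_left₀ (by positivity)
      exact div_le_self hA0.le (by linarith)
    rw [h3]
    calc (A / Real.pi) ^ n * (Real.pi / A * y) ^ n ≤
        A ^ n * (Real.exp (Real.pi / A * y) * n.factorial) :=
          mul_le_mul h4 h1 (by positivity) (by positivity)
      _ = _ := by ring
  have h5 : Real.exp (-2 * Real.pi * (y / A)) =
      Real.exp (-(Real.pi / A) * y) * Real.exp (-(Real.pi / A * y)) := by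
    rw [← Real.exp_add]; congr 1; ring
  rw [h5]
  have h6 : Real.exp (Real.pi / A * y) * Real.exp (-(Real.pi / A * y)) = 1 := by
    rw [← Real.exp_add, add_neg_cancel, Real.exp_zero]
  calc y ^ n * (Real.exp (-(Real.pi / A) * y) * Real.exp (-(Real.pi / A * y)))
      ≤ (n.factorial * A ^ n * Real.exp (Real.pi / A * y)) *
        (Real.exp (-(Real.pi / A) * y) * Real.exp (-(Real.pi / A * y))) :=
        mul_le_mul_of_nonneg_right h2 (by positivity)
    _ = n.factorial * A ^ n * Real.exp (-(Real.pi / A) * y) *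
        (Real.exp (Real.pi / A * y) * Real.exp (-(Real.pi / A * y))) := by ring
    _ = _ := by rw [h6, mul_one]

/-- the representing function -/
noncomputable def sel_k10_H (k : ℕ) (a : ℕ → ℝ) (A B : ℕ) (ρ : ℝ) (tA tB : ℕ × ℤ × ℕ)
    (z u : ℂ) : ℂ :=
  ((((((A * B : ℕ) : ℝ) * ρ) ^ ((k : ℝ) / 2) * z.im ^ k : ℝ)) : ℂ) *
    (sel_k10_F k a tA z * starRingEnd ℂ (sel_k10_F k a tB (sel_k10_w ρ z u) /
      sel_k10_v ρ u ^ k))

theorem sel_k10_H_bounds {k : ℕ} {a : ℕ → ℝ} (H : HData k a) : ∃ C : ℝ, 1 ≤ C ∧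
    ∀ (A B : ℕ) (ρ : ℝ), 0 < A → 0 < B → 1 ≤ ρ → ∀ (tA tB : ℕ × ℤ × ℕ),
      tA.1 * tA.2.2 = A → tB.1 * tB.2.2 = B →
      (∀ z u : ℂ, 1 / 2 ≤ z.im → ‖u‖ = 1 → ‖sel_k10_H k a A B ρ tA tB z u‖ ≤
        C * (A * B * ρ) ^ (4 * k + 5) * Real.exp (-(Real.pi / (A * B)) * z.im)) ∧
      (∀ z u u' : ℂ, 1 / 2 ≤ z.im → ‖u‖ = 1 → ‖u'‖ = 1 →
        ‖sel_k10_H k a A B ρ tA tB z u - sel_k10_H k a A B ρ tA tB z u'‖ ≤
        C * (A * B * ρ) ^ (4 * k + 5) * ‖u - u'‖ *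
          Real.exp (-(Real.pi / (A * B)) * z.im)) := by
  obtain ⟨C1, hC1, hF⟩ := sel_k10_F_le H
  obtain ⟨C2, hC2, hL⟩ := sel_k10_F_lip H
  have hkf : (1 : ℝ) ≤ (k + 1).factorial := by
    exact_mod_cast Nat.one_le_iff_ne_zero.2 (Nat.factorial_ne_zero _)
  have hkf2 : (k.factorial : ℝ) ≤ (k + 1).factorial := by
    exact_mod_cast Nat.factorial_le (Nat.le_succ k)
  have hk0 : (0 : ℝ) ≤ k := Nat.cast_nonneg k
  have hbig : 1 ≤ C1 * C1 + C1 * (4 * C2 + 4 * k * C1) := by nlinarith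
  refine ⟨(k + 1).factorial * (C1 * C1 + C1 * (4 * C2 + 4 * k * C1)),
    one_le_mul_of_one_le_of_one_le hkf hbig, ?_⟩
  intro A B ρ hA hB hρ tA tB htA htB
  have hA1 : (1 : ℝ) ≤ A := by exact_mod_cast hA
  have hB1 : (1 : ℝ) ≤ B := by exact_mod_cast hB
  set T : ℝ := A * B * ρ with hT
  have hT1 : 1 ≤ T := one_le_mul_of_one_le_of_one_le (one_le_mul_of_one_le_of_one_le hA1 hB1) hρ
  have hT0 : 0 < T := by linarith
  have hAT : (A : ℝ) ≤ T := by
    rw [hT]; nlinarith [mul_le_mul hB1 hρ zero_le_one (by linarith)]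
  have hBT : (B : ℝ) ≤ T := by
    rw [hT]; nlinarith [mul_le_mul hA1 hρ zero_le_one (by linarith)]
  have hρT : ρ ≤ T := by
    rw [hT]; nlinarith [mul_le_mul hA1 hB1 zero_le_one (by linarith)]
  have hρB : ρ * B ≤ T := by
    rw [hT]
    have : 1 * (B * ρ) ≤ A * (B * ρ) := mul_le_mul_of_nonneg_right hA1 (by positivity)
    nlinarith
  have hcast : (((A * B : ℕ) : ℝ) * ρ) = T := by rw [hT]; push_cast; ring
  -- the first factor
  have hTk : T ^ ((k : ℝ) / 2) ≤ T ^ k := sel_k10_half_le hT1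
  have hTk0 : 0 ≤ T ^ ((k : ℝ) / 2) := Real.rpow_nonneg hT0.le _
  have hFA : ∀ z : ℂ, 1 / 2 ≤ z.im → ‖sel_k10_F k a tA z‖ ≤
      C1 * T ^ k * Real.exp (-2 * Real.pi * (z.im / A)) := by
    intro z hz
    have h1 := hF tA A hA htA 1 le_rfl z (by norm_num; linarith)
    rw [one_mul] at h1
    refine h1.trans ?_
    have : (A : ℝ) ^ k ≤ T ^ k := pow_le_pow_left₀ (by linarith) hAT k
    gcongr
  have hFB : ∀ z u : ℂ, 1 / 2 ≤ z.im → ‖u‖ = 1 →
      1 / (2 * ρ) ≤ (sel_k10_w ρ z u).im ∧ ‖sel_k10_F k a tB (sel_k10_w ρ z u)‖ ≤ C1 * T ^ k := by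
    intro z u hz hu
    have hz0 : 0 < z.im := by linarith
    have h0 : 1 / (2 * ρ) ≤ (sel_k10_w ρ z u).im := by
      refine le_trans ?_ (sel_k10_w_im_ge hρ hu hz0)
      rw [div_le_div_iff₀ (by linarith) (by linarith)]
      nlinarith
    refine ⟨h0, ?_⟩
    have hwim : 0 < (sel_k10_w ρ z u).im := lt_of_lt_of_le (by positivity) h0
    refine (hF tB B hB htB ρ hρ _ h0).trans ?_
    have h2 : (ρ * B) ^ k ≤ T ^ k := pow_le_pow_left₀ (by positivity) hρB k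
    have h3 : Real.exp (-2 * Real.pi * ((sel_k10_w ρ z u).im / B)) ≤ 1 := by
      apply Real.exp_le_one_iff.2
      have : 0 ≤ 2 * Real.pi * ((sel_k10_w ρ z u).im / B) := by positivity
      linarith
    calc _ ≤ C1 * T ^ k * 1 := by gcongr
      _ = _ := mul_one _
  have hexp : ∀ z : ℂ, 1 / 2 ≤ z.im → Real.exp (-(Real.pi / A) * z.im) ≤
      Real.exp (-(Real.pi / (A * B)) * z.im) := by
    intro z hz
    apply Real.exp_le_exp.2
    have h1 : Real.pi / (A * B) ≤ Real.pi / A := by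
      apply div_le_div_of_nonneg_left Real.pi_pos.le (by linarith)
      nlinarith
    nlinarith
  constructor
  · intro z u hz hu
    have hz0 : 0 < z.im := by linarith
    obtain ⟨g1, g2⟩ := sel_k10_v_norm hρ hu
    unfold sel_k10_H
    rw [norm_mul, norm_mul, RCLike.norm_conj, norm_div, norm_pow, Complex.norm_real,
      Real.norm_eq_abs, hcast, abs_of_nonneg (by positivity)]
    have h1 : ‖sel_k10_F k a tB (sel_k10_w ρ z u)‖ / ‖sel_k10_v ρ u‖ ^ k ≤ C1 * T ^ k :=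
      (div_le_self (norm_nonneg _) (one_le_pow₀ g1)).trans (hFB z u hz hu).2
    have h2 := hFA z hz
    have h3 := sel_k10_poly k hA1 hz0.le
    have h4 : (k.factorial : ℝ) * A ^ k * Real.exp (-(Real.pi / A) * z.im) ≤
        (k + 1).factorial * T ^ k * Real.exp (-(Real.pi / (A * B)) * z.im) := by
      have := hexp z hz
      gcongr
    calc T ^ ((k : ℝ) / 2) * z.im ^ k * (‖sel_k10_F k a tA z‖ *
          (‖sel_k10_F k a tB (sel_k10_w ρ z u)‖ / ‖sel_k10_v ρ u‖ ^ k))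
        ≤ T ^ k * z.im ^ k * ((C1 * T ^ k * Real.exp (-2 * Real.pi * (z.im / A))) *
          (C1 * T ^ k)) := by gcongr
      _ = (C1 * C1) * (T ^ k * T ^ k * T ^ k) *
          (z.im ^ k * Real.exp (-2 * Real.pi * (z.im / A))) := by ring
      _ ≤ (C1 * C1) * (T ^ k * T ^ k * T ^ k) *
          ((k + 1).factorial * T ^ k * Real.exp (-(Real.pi / (A * B)) * z.im)) := by
          apply mul_le_mul_of_nonneg_left (h3.trans h4) (by positivity)
      _ = (k + 1).factorial * (C1 * C1) * T ^ (4 * k) *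
          Real.exp (-(Real.pi / (A * B)) * z.im) := by
          rw [show 4 * k = k + k + k + k by ring, pow_add, pow_add, pow_add]; ring
      _ ≤ _ := by
          have h5 : T ^ (4 * k) ≤ T ^ (4 * k + 5) := pow_le_pow_right₀ hT1 (by omega)
          have h6 : (k + 1).factorial * (C1 * C1) ≤
              (k + 1).factorial * (C1 * C1 + C1 * (4 * C2 + 4 * k * C1)) := by
            apply mul_le_mul_of_nonneg_left _ (by linarith)
            have : 0 ≤ C1 * (4 * C2 + 4 * k * C1) := by positivity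
            linarith
          gcongr
  · intro z u u' hz hu hu'
    have hz0 : 0 < z.im := by linarith
    obtain ⟨g1, g2⟩ := sel_k10_v_norm hρ hu
    obtain ⟨g1', g2'⟩ := sel_k10_v_norm hρ hu'
    have hv := sel_k10_v_ne hρ hu
    have hv' := sel_k10_v_ne hρ hu'
    obtain ⟨i1, b1⟩ := hFB z u hz hu
    obtain ⟨i2, b2⟩ := hFB z u' hz hu'
    set X := sel_k10_F k a tB (sel_k10_w ρ z u) with hX
    set X' := sel_k10_F k a tB (sel_k10_w ρ z u') with hX'
    set y := z.im with hy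
    have hN0 : 0 ≤ ‖u - u'‖ := norm_nonneg _
    have hXX : ‖X - X'‖ ≤ 4 * C2 * T ^ (k + 4) * y * ‖u - u'‖ := by
      have h1 := hL tB B hB htB ρ hρ _ _ i1 i2
      have h2 := sel_k10_lip_w hρ hu hu' hz0
      have h3 : (ρ * B) ^ (k + 1) ≤ T ^ (k + 1) := pow_le_pow_left₀ (by positivity) hρB _
      calc ‖X - X'‖ ≤ _ := h1
        _ ≤ C2 * T ^ (k + 1) * T * (4 * T ^ 2 * y * ‖u - u'‖) := by
            have h4 : 4 * ρ ^ 2 * y * ‖u - u'‖ ≤ 4 * T ^ 2 * y * ‖u - u'‖ := by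
              have : ρ ^ 2 ≤ T ^ 2 := pow_le_pow_left₀ (by linarith) hρT 2
              gcongr
            have h5 := h2.trans h4
            gcongr
        _ = _ := by ring
    have hinv : ‖(sel_k10_v ρ u ^ k)⁻¹ - (sel_k10_v ρ u' ^ k)⁻¹‖ ≤ k * (2 * T * ‖u - u'‖) := by
      have h1 : ‖(sel_k10_v ρ u)⁻¹ - (sel_k10_v ρ u')⁻¹‖ ≤ 2 * T * ‖u - u'‖ := by
        rw [inv_sub_inv hv hv', norm_div, norm_mul, norm_sub_rev]
        refine (div_le_self (norm_nonneg _) (one_le_mul_of_one_le_of_one_le g1 g1')).trans ?_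
        refine (sel_k10_lip_v hρ hu hu').trans ?_
        have : ρ - 1 ≤ T := by linarith
        gcongr
      have h2 : ‖(sel_k10_v ρ u)⁻¹‖ ≤ 1 := by rw [norm_inv]; exact inv_le_one_of_one_le₀ g1
      have h3 : ‖(sel_k10_v ρ u')⁻¹‖ ≤ 1 := by rw [norm_inv]; exact inv_le_one_of_one_le₀ g1'
      have h4 : ∀ (n : ℕ) (x x' : ℂ), ‖x‖ ≤ 1 → ‖x'‖ ≤ 1 → ‖x ^ n - x' ^ n‖ ≤ n * ‖x - x'‖ := by
        intro n x x' hx hx'
        induction n with
        | zero => simp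
        | succ n ih =>
          have e : x ^ (n + 1) - x' ^ (n + 1) = (x ^ n - x' ^ n) * x + x' ^ n * (x - x') := by ring
          rw [e]
          refine (norm_add_le _ _).trans ?_
          rw [norm_mul, norm_mul, norm_pow]
          have e1 : ‖x'‖ ^ n ≤ 1 := pow_le_one₀ (norm_nonneg _) hx'
          have e2 : ‖x ^ n - x' ^ n‖ * ‖x‖ ≤ (n * ‖x - x'‖) * 1 :=
            mul_le_mul ih hx (norm_nonneg _) (by positivity)
          have e3 : ‖x'‖ ^ n * ‖x - x'‖ ≤ 1 * ‖x - x'‖ :=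
            mul_le_mul_of_nonneg_right e1 (norm_nonneg _)
          push_cast
          linarith
      rw [← inv_pow, ← inv_pow]
      exact (h4 k _ _ h2 h3).trans (mul_le_mul_of_nonneg_left h1 hk0)
    have hΔ : ‖X / sel_k10_v ρ u ^ k - X' / sel_k10_v ρ u' ^ k‖ ≤
        (4 * C2 + 4 * k * C1) * T ^ (k + 4) * y * ‖u - u'‖ := by
      have e : X / sel_k10_v ρ u ^ k - X' / sel_k10_v ρ u' ^ k =
          (X - X') / sel_k10_v ρ u ^ k + X' * ((sel_k10_v ρ u ^ k)⁻¹ -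
            (sel_k10_v ρ u' ^ k)⁻¹) := by
        rw [div_eq_mul_inv, div_eq_mul_inv, div_eq_mul_inv]; ring
      rw [e]
      refine (norm_add_le _ _).trans ?_
      rw [norm_div, norm_mul, norm_pow]
      have h1 : ‖X - X'‖ / ‖sel_k10_v ρ u‖ ^ k ≤ 4 * C2 * T ^ (k + 4) * y * ‖u - u'‖ :=
        (div_le_self (norm_nonneg _) (one_le_pow₀ g1)).trans hXX
      have h2 : ‖X'‖ * ‖(sel_k10_v ρ u ^ k)⁻¹ - (sel_k10_v ρ u' ^ k)⁻¹‖ ≤
          (C1 * T ^ k) * (k * (2 * T * ‖u - u'‖)) :=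
        mul_le_mul b2 hinv (norm_nonneg _) (by positivity)
      have h3 : (C1 * T ^ k) * (k * (2 * T * ‖u - u'‖)) ≤
          4 * k * C1 * T ^ (k + 4) * y * ‖u - u'‖ := by
        have h4 : T ^ (k + 1) ≤ T ^ (k + 4) := pow_le_pow_right₀ hT1 (by omega)
        have h5 : (1 : ℝ) ≤ 2 * y := by linarith
        calc (C1 * T ^ k) * (k * (2 * T * ‖u - u'‖)) =
            2 * k * C1 * T ^ (k + 1) * ‖u - u'‖ * 1 := by ring
          _ ≤ 2 * k * C1 * T ^ (k + 4) * ‖u - u'‖ * (2 * y) := by gcongr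
          _ = _ := by ring
      calc _ ≤ 4 * C2 * T ^ (k + 4) * y * ‖u - u'‖ + 4 * k * C1 * T ^ (k + 4) * y * ‖u - u'‖ :=
            add_le_add h1 (h2.trans h3)
        _ = _ := by ring
    unfold sel_k10_H
    rw [← mul_sub, ← mul_sub, ← map_sub, norm_mul, norm_mul, RCLike.norm_conj,
      Complex.norm_real, Real.norm_eq_abs, hcast, abs_of_nonneg (by positivity)]
    have h2 := hFA z hz
    have h3 := sel_k10_poly (k + 1) hA1 hz0.le
    have h4 : ((k + 1).factorial : ℝ) * A ^ (k + 1) * Real.exp (-(Real.pi / A) * z.im) ≤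
        (k + 1).factorial * T ^ (k + 1) * Real.exp (-(Real.pi / (A * B)) * z.im) := by
      have := hexp z hz
      gcongr
    calc T ^ ((k : ℝ) / 2) * y ^ k * (‖sel_k10_F k a tA z‖ *
          ‖X / sel_k10_v ρ u ^ k - X' / sel_k10_v ρ u' ^ k‖)
        ≤ T ^ k * y ^ k * ((C1 * T ^ k * Real.exp (-2 * Real.pi * (y / A))) *
          ((4 * C2 + 4 * k * C1) * T ^ (k + 4) * y * ‖u - u'‖)) := by gcongr
      _ = C1 * (4 * C2 + 4 * k * C1) * (T ^ k * T ^ k * T ^ (k + 4)) * ‖u - u'‖ *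
          (y ^ (k + 1) * Real.exp (-2 * Real.pi * (y / A))) := by ring
      _ ≤ C1 * (4 * C2 + 4 * k * C1) * (T ^ k * T ^ k * T ^ (k + 4)) * ‖u - u'‖ *
          ((k + 1).factorial * T ^ (k + 1) * Real.exp (-(Real.pi / (A * B)) * y)) := by
          apply mul_le_mul_of_nonneg_left (h3.trans h4) (by positivity)
      _ = (k + 1).factorial * (C1 * (4 * C2 + 4 * k * C1)) * T ^ (4 * k + 5) * ‖u - u'‖ *
          Real.exp (-(Real.pi / (A * B)) * y) := by
          rw [show 4 * k + 5 = k + k + (k + 4) + (k + 1) by ring, pow_add, pow_add, pow_add]; ring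
      _ ≤ _ := by
          have h6 : (k + 1).factorial * (C1 * (4 * C2 + 4 * k * C1)) ≤
              (k + 1).factorial * (C1 * C1 + C1 * (4 * C2 + 4 * k * C1)) := by
            apply mul_le_mul_of_nonneg_left _ (by linarith)
            have : 0 ≤ C1 * C1 := by positivity
            linarith
          gcongr

/-- block K10 -/
theorem uinv_G2_pr {k : ℕ} {a : ℕ → ℝ} (H : HData k a) : ∃ K E c₁ : ℝ, 0 < K ∧ 0 < E ∧ 0 < c₁ ∧
    (∀ (A B : ℕ) (ρ : ℝ), 0 < A → 0 < B → 1 ≤ ρ →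
      UInv (A * B) (K * (A * B * ρ) ^ E) (K * (A * B * ρ) ^ E) (c₁ / (A * B)) (G2 k a A B ρ)) ∧
    ∀ A B : ℕ, 0 < A → 0 < B →
      UInv (A * B) (K * ((A : ℝ) * B) ^ E) 0 (c₁ / (A * B)) (G2 k a A B 1) := by
  obtain ⟨C, hC1, hHb⟩ := sel_k10_H_bounds H
  obtain ⟨C0, hC0⟩ := H.bound
  set K : ℝ := C + C0 ^ 2 with hK
  have hK1 : 1 ≤ K := by have := sq_nonneg C0; linarith
  have key : ∀ (A B : ℕ) (ρ : ℝ), 0 < A → 0 < B → 1 ≤ ρ →
      ContinuousOn (G2 k a A B ρ) {z : ℂ | 0 < z.im} ∧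
      (∀ z : ℂ, 0 < z.im → ‖G2 k a A B ρ z‖ ≤ K * (A * B * ρ) ^ (4 * k + 5)) ∧
      ∃ Hf : ℤ → ℤ → ℂ → ℂ → ℂ,
        (∀ c d c' d' : ℤ, ((A * B : ℕ) : ℤ) ∣ c' - c → ((A * B : ℕ) : ℤ) ∣ d' - d →
          Hf c' d' = Hf c d) ∧
        (∀ g : ℤ × ℤ × ℤ × ℤ, Det1 g → ∀ z : ℂ, 1 / 2 ≤ z.im →
          G2 k a A B ρ (mob g z) = Hf g.2.2.1 g.2.2.2 z (uu g.2.2.1 g.2.2.2 z)) ∧
        (∀ (c d : ℤ) (z u : ℂ), 1 / 2 ≤ z.im → ‖u‖ = 1 → ‖Hf c d z u‖ ≤
          C * (A * B * ρ) ^ (4 * k + 5) * Real.exp (-(Real.pi / (A * B)) * z.im)) ∧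
        (∀ (c d : ℤ) (z u u' : ℂ), 1 / 2 ≤ z.im → ‖u‖ = 1 → ‖u'‖ = 1 →
          ‖Hf c d z u - Hf c d z u'‖ ≤ C * (A * B * ρ) ^ (4 * k + 5) * ‖u - u'‖ *
            Real.exp (-(Real.pi / (A * B)) * z.im)) ∧
        (ρ = 1 → ∀ (c d : ℤ) (z u u' : ℂ), Hf c d z u = Hf c d z u') := by
    intro A B ρ hA hB hρ
    have hA1 : (1 : ℝ) ≤ A := by exact_mod_cast hA
    have hB1 : (1 : ℝ) ≤ B := by exact_mod_cast hB
    have hT1 : (1 : ℝ) ≤ A * B * ρ :=
      one_le_mul_of_one_le_of_one_le (one_le_mul_of_one_le_of_one_le hA1 hB1) hρ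
    have him2 : ∀ z : ℂ, (z + (((ρ - 1) * z.im : ℝ) : ℂ) * I).im = ρ * z.im := by
      intro z
      simp
      ring
    refine ⟨?_, ?_, ?_⟩
    · -- continuity
      have hq := b9_qs_cont H
      unfold G2
      apply ContinuousOn.mul
      · apply Continuous.continuousOn
        fun_prop
      · apply ContinuousOn.mul
        · refine hq.comp (by fun_prop) fun z hz => ?_
          have hz' : 0 < z.im := hz
          show 0 < ((A : ℂ) * z).im
          rw [b9_im_nat]; positivity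
        · apply Complex.continuous_conj.comp_continuousOn
          refine hq.comp (by fun_prop) fun z hz => ?_
          have hz' : 0 < z.im := hz
          show 0 < ((B : ℂ) * (z + (((ρ - 1) * z.im : ℝ) : ℂ) * I)).im
          rw [b9_im_nat, him2]; positivity
    · -- the bound
      intro z hz
      have hC0' : 0 ≤ C0 := by
        have := (norm_nonneg _).trans (hC0 I (by simp))
        simpa using this
      have h1 := hC0 (A * z) (by rw [b9_im_nat]; positivity)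
      have h2 := hC0 (B * (z + (((ρ - 1) * z.im : ℝ) : ℂ) * I))
        (by rw [b9_im_nat, him2]; positivity)
      rw [b9_im_nat] at h1
      rw [b9_im_nat, him2] at h2
      unfold G2
      rw [norm_mul, norm_mul, RCLike.norm_conj, Complex.norm_real, Real.norm_eq_abs,
        abs_of_nonneg (by positivity)]
      have e1 : ((A : ℝ) * z.im) ^ (-(k : ℝ) / 2) * (B * (ρ * z.im)) ^ (-(k : ℝ) / 2) =
          (((A * B : ℕ) : ℝ) * ρ) ^ (-(k : ℝ) / 2) * (z.im ^ k)⁻¹ := by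
        rw [← Real.mul_rpow (by positivity) (by positivity)]
        have e2 : (A : ℝ) * z.im * (B * (ρ * z.im)) = ((A * B : ℕ) : ℝ) * ρ * (z.im ^ 2) := by
          push_cast; ring
        rw [e2, Real.mul_rpow (by positivity) (by positivity)]
        congr 1
        rw [← Real.rpow_natCast z.im 2, ← Real.rpow_mul hz.le, ← Real.rpow_natCast z.im k,
          ← Real.rpow_neg hz.le]
        congr 1; push_cast; ring
      have e3 : (((A * B : ℕ) : ℝ) * ρ) ^ ((k : ℝ) / 2) * (((A * B : ℕ) : ℝ) * ρ) ^ (-(k : ℝ) / 2)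
          = 1 := by
        rw [← Real.rpow_add (by positivity)]
        rw [show (k : ℝ) / 2 + -(k : ℝ) / 2 = 0 by ring, Real.rpow_zero]
      have hzk : z.im ^ k ≠ 0 := by positivity
      calc (((A * B : ℕ) : ℝ) * ρ) ^ ((k : ℝ) / 2) * z.im ^ k * (‖qs a (A * z)‖ *
            ‖qs a (B * (z + (((ρ - 1) * z.im : ℝ) : ℂ) * I))‖)
          ≤ (((A * B : ℕ) : ℝ) * ρ) ^ ((k : ℝ) / 2) * z.im ^ k *
            ((C0 * ((A : ℝ) * z.im) ^ (-(k : ℝ) / 2)) *
              (C0 * (B * (ρ * z.im)) ^ (-(k : ℝ) / 2))) := by gcongr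
        _ = C0 ^ 2 * (((A * B : ℕ) : ℝ) * ρ) ^ ((k : ℝ) / 2) * z.im ^ k *
            (((A : ℝ) * z.im) ^ (-(k : ℝ) / 2) * (B * (ρ * z.im)) ^ (-(k : ℝ) / 2)) := by ring
        _ = C0 ^ 2 * ((((A * B : ℕ) : ℝ) * ρ) ^ ((k : ℝ) / 2) *
            (((A * B : ℕ) : ℝ) * ρ) ^ (-(k : ℝ) / 2)) * (z.im ^ k * (z.im ^ k)⁻¹) := by
            rw [e1]; ring
        _ = C0 ^ 2 := by rw [e3, mul_inv_cancel₀ hzk]; ring
        _ ≤ K * 1 := by rw [hK]; linarith
        _ ≤ K * (A * B * ρ) ^ (4 * k + 5) :=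
            mul_le_mul_of_nonneg_left (one_le_pow₀ hT1) (by linarith)
    · -- the representation
      have hAN : A ∣ A * B := Dvd.intro _ rfl
      have hBN : B ∣ A * B := Dvd.intro_left _ rfl
      choose fA hfA1 hfA2 using fun (c d : ℤ) => sel_k10_rep H hA hAN c d
      choose fB hfB1 hfB2 using fun (c d : ℤ) => sel_k10_rep H hB hBN c d
      set N : ℤ := ((A * B : ℕ) : ℤ) with hN
      refine ⟨fun c d z u => sel_k10_H k a A B ρ (fA (c % N) (d % N)) (fB (c % N) (d % N)) z u,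
        ?_, ?_, ?_, ?_, ?_⟩
      · intro c d c' d' h1 h2
        have e1 : c' % N = c % N := (Int.emod_emod_of_dvd c' dvd_rfl).symm.trans (by
          have : c' ≡ c [ZMOD N] := (Int.modEq_iff_dvd.2 (by
            have := dvd_neg.2 h1; simpa using this))
          rw [Int.emod_emod_of_dvd c' dvd_rfl]; exact this)
        have e2 : d' % N = d % N := by
          have : d' ≡ d [ZMOD N] := (Int.modEq_iff_dvd.2 (by
            have := dvd_neg.2 h2; simpa using this))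
          exact this
        simp only [e1, e2]
      · intro g hg z hz
        have hz0 : 0 < z.im := by linarith
        obtain ⟨hu1, hden, hw, hm⟩ := sel_k10_mob hg hρ hz0
        set u := uu g.2.2.1 g.2.2.2 z with hu
        have hn := b9_den_ne hg hz0
        have hwim : 0 < (sel_k10_w ρ z u).im :=
          lt_of_lt_of_le (by positivity) (sel_k10_w_im_ge hρ hu1 hz0)
        have m1 : N ∣ g.2.2.1 - g.2.2.1 % N := by
          rw [Int.dvd_iff_emod_eq_zero]; simp [Int.sub_emod]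
        have m2 : N ∣ g.2.2.2 - g.2.2.2 % N := by
          rw [Int.dvd_iff_emod_eq_zero]; simp [Int.sub_emod]
        have qA := hfA2 (g.2.2.1 % N) (g.2.2.2 % N) g hg m1 m2 z hz0
        have qB := hfB2 (g.2.2.1 % N) (g.2.2.2 % N) g hg m1 m2 (sel_k10_w ρ z u) hwim
        show G2 k a A B ρ (mob g z) = sel_k10_H k a A B ρ (fA (g.2.2.1 % N) (g.2.2.2 % N))
          (fB (g.2.2.1 % N) (g.2.2.2 % N)) z u
        unfold G2 sel_k10_H sel_k10_F
        rw [hm, qA, qB, hw, b9_im_mob hg]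
        have hnn : 0 < ‖b9_den g z‖ := norm_pos_iff.2 hn
        have e1 : starRingEnd ℂ (b9_den g z) * b9_den g z = ((‖b9_den g z‖ : ℝ) : ℂ) ^ 2 := by
          rw [← Complex.normSq_eq_conj_mul_self, Complex.normSq_eq_norm_sq]; push_cast; ring
        have hnC : ((‖b9_den g z‖ : ℝ) : ℂ) ≠ 0 := by exact_mod_cast hnn.ne'
        have hv := sel_k10_v_ne hρ hu1
        have hvc : starRingEnd ℂ (sel_k10_v ρ u) ≠ 0 := by
          intro h0
          apply hv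
          have := congrArg (starRingEnd ℂ) h0
          simpa using this
        have tA0 : ((fA (g.2.2.1 % N) (g.2.2.2 % N)).2.2 : ℂ) ≠ 0 := by
          have := (sel_k10_tb hA (hfA1 (g.2.2.1 % N) (g.2.2.2 % N))).2.1
          have h0 : (0 : ℝ) < (fA (g.2.2.1 % N) (g.2.2.2 % N)).2.2 := by linarith
          exact_mod_cast h0.ne'
        have tB0 : ((fB (g.2.2.1 % N) (g.2.2.2 % N)).2.2 : ℂ) ≠ 0 := by
          have := (sel_k10_tb hB (hfB1 (g.2.2.1 % N) (g.2.2.2 % N))).2.1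
          have h0 : (0 : ℝ) < (fB (g.2.2.1 % N) (g.2.2.2 % N)).2.2 := by linarith
          exact_mod_cast h0.ne'
        generalize qs a (((fA (g.2.2.1 % N) (g.2.2.2 % N)).1 * z +
          (fA (g.2.2.1 % N) (g.2.2.2 % N)).2.1) / (fA (g.2.2.1 % N) (g.2.2.2 % N)).2.2) = qa
        generalize qs a (((fB (g.2.2.1 % N) (g.2.2.2 % N)).1 * (sel_k10_w ρ z u) +
          (fB (g.2.2.1 % N) (g.2.2.2 % N)).2.1) / (fB (g.2.2.1 % N) (g.2.2.2 % N)).2.2) = qb
        generalize ((fA (g.2.2.1 % N) (g.2.2.2 % N)).2.2 : ℂ) = dA at tA0 ⊢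
        simp only [map_mul, map_pow, map_div₀, Complex.conj_natCast]
        generalize ((fB (g.2.2.1 % N) (g.2.2.2 % N)).2.2 : ℂ) = dB at tB0 ⊢
        generalize starRingEnd ℂ (sel_k10_v ρ u) = vc at hvc ⊢
        generalize starRingEnd ℂ qb = qbc
        generalize (((A * B : ℕ) : ℝ) * ρ) ^ ((k : ℝ) / 2) = Tk
        have e2 : ((z.im / ‖b9_den g z‖ ^ 2 : ℝ) : ℂ) = (z.im : ℂ) /
            (starRingEnd ℂ (b9_den g z) * b9_den g z) := by
          rw [e1]; push_cast; rfl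
        have hcn : starRingEnd ℂ (b9_den g z) ≠ 0 := by
          intro h0
          apply hn
          have := congrArg (starRingEnd ℂ) h0
          simpa using this
        rw [Complex.ofReal_mul, Complex.ofReal_pow, e2, Complex.ofReal_mul, Complex.ofReal_pow]
        generalize starRingEnd ℂ (b9_den g z) = nc at hcn ⊢
        generalize b9_den g z = nn at hn ⊢
        simp only [div_pow, mul_pow]
        field_simp
      · intro c d z u hz hu
        exact (hHb A B ρ hA hB hρ _ _ (hfA1 _ _) (hfB1 _ _)).1 z u hz hu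
      · intro c d z u u' hz hu hu'
        exact (hHb A B ρ hA hB hρ _ _ (hfA1 _ _) (hfB1 _ _)).2 z u u' hz hu hu'
      · intro hρ1 c d z u u'
        subst hρ1
        simp [sel_k10_H, sel_k10_w, sel_k10_v]
  refine ⟨K, ((4 * k + 5 : ℕ) : ℝ), Real.pi, by linarith, by positivity, Real.pi_pos, ?_, ?_⟩
  · intro A B ρ hA hB hρ
    have hA1 : (1 : ℝ) ≤ A := by exact_mod_cast hA
    have hB1 : (1 : ℝ) ≤ B := by exact_mod_cast hB
    have hT1 : (1 : ℝ) ≤ A * B * ρ :=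
      one_le_mul_of_one_le_of_one_le (one_le_mul_of_one_le_of_one_le hA1 hB1) hρ
    obtain ⟨hc, hb, Hf, p1, p2, p3, p4, _⟩ := key A B ρ hA hB hρ
    rw [Real.rpow_natCast]
    have hTp : (1 : ℝ) ≤ (A * B * ρ) ^ (4 * k + 5) := one_le_pow₀ hT1
    have hCK : C ≤ K := by have := sq_nonneg C0; linarith
    refine ⟨hc, hb, Hf, p1, p2, fun c d z u hz hu => ?_, fun c d z u u' hz hu hu' => ?_⟩
    · refine (p3 c d z u hz hu).trans ?_
      gcongr
    · refine (p4 c d z u u' hz hu hu').trans ?_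
      have h1 : C * (A * B * ρ) ^ (4 * k + 5) ≤
          K * (A * B * ρ) ^ (4 * k + 5) * (K * (A * B * ρ) ^ (4 * k + 5)) := by
        have h2 : 1 ≤ K * (A * B * ρ) ^ (4 * k + 5) := one_le_mul_of_one_le_of_one_le hK1 hTp
        calc C * (A * B * ρ) ^ (4 * k + 5) ≤ K * (A * B * ρ) ^ (4 * k + 5) := by gcongr
          _ ≤ _ := le_mul_of_one_le_right (by positivity) h2
      gcongr
  · intro A B hA hB
    have hA1 : (1 : ℝ) ≤ A := by exact_mod_cast hA
    have hB1 : (1 : ℝ) ≤ B := by exact_mod_cast hB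
    obtain ⟨hc, hb, Hf, p1, p2, p3, p4, p5⟩ := key A B 1 hA hB le_rfl
    rw [Real.rpow_natCast]
    rw [mul_one] at hb p3
    have hCK : C ≤ K := by have := sq_nonneg C0; linarith
    refine ⟨hc, hb, Hf, p1, p2, fun c d z u hz hu => ?_, fun c d z u u' hz hu hu' => ?_⟩
    · refine (p3 c d z u hz hu).trans ?_
      gcongr
    · rw [p5 rfl c d z u u', sub_self, norm_zero, mul_zero, zero_mul, zero_mul]

theorem uinv_G2 : type_of% @uinv_G2_pr := @uinv_G2_pr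

end Pool.Agent.SEL
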