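import Pool.Agent.Lib_helper68.SEL.Defs
import Pool.Agent.Lib_helper68.GL2.BAS

/-! SEL block K11 (KKB): the double series. -/

namespace Pool.Agent.SEL

open Complex MeasureTheory Filter Topology Pool.Agent.GL2

theorem sel_k11_am_le (a : ℕ → ℝ) (m n : ℕ) : |am a m n| ≤ |a n| := by
  unfold am
  split_ifs
  · exact le_rfl
  · rw [abs_zero]; exact abs_nonneg _

theorem sel_k11_am_one (a : ℕ → ℝ) (n : ℕ) : am a 1 n = a n := by
  unfold am
  rw [if_pos (Nat.coprime_one_right n)]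

/-- the majorant of the double series -/
theorem sel_k11_maj {k : ℕ} {a : ℕ → ℝ} (H : HData k a) {y y' : ℝ} (hy : 0 < y) (hy' : 0 < y') :
    Summable fun v : ℕ × ℕ => |a v.1| * |a v.2| *
      Real.exp (-(y * v.1 + y' * v.2)) := by
  have h1 := summable_a_pr H hy
  have h2 := summable_a_pr H hy'
  refine (h1.mul_of_nonneg h2 (fun n => by positivity) (fun n => by positivity)).congr
    fun v => ?_
  rw [show -(y * v.1 + y' * v.2) = -y * (v.1 : ℝ) + -y' * (v.2 : ℝ) by ring, Real.exp_add]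
  ring

theorem sel_k11_exp_eq {A B : ℕ} (Y Y' : ℝ) (v : ℕ × ℕ) :
    -2 * Real.pi * ((v.1 : ℝ) * A * Y + v.2 * B * Y') =
      -((2 * Real.pi * (A * Y)) * v.1 + (2 * Real.pi * (B * Y')) * v.2) := by ring

theorem KK_summable_pr {k : ℕ} {a : ℕ → ℝ} (H : HData k a) {m A B : ℕ} (hA : 0 < A) (hB : 0 < B)
    (l : ℤ) {Y Y' : ℝ} (hY : 0 < Y) (hY' : 0 < Y') :
    Summable fun v : ℕ × ℕ => if ((v.1 * A : ℕ) : ℤ) - ((v.2 * B : ℕ) : ℤ) = l then
      am a m v.1 * am a m v.2 * Real.exp (-2 * Real.pi * (v.1 * A * Y + v.2 * B * Y')) else 0 := by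
  have hA' : (0 : ℝ) < A := by exact_mod_cast hA
  have hB' : (0 : ℝ) < B := by exact_mod_cast hB
  have hm := sel_k11_maj H (y := 2 * Real.pi * (A * Y)) (y' := 2 * Real.pi * (B * Y'))
    (by positivity) (by positivity)
  refine Summable.of_norm_bounded hm fun v => ?_
  split_ifs with h
  · rw [norm_mul, norm_mul, Real.norm_eq_abs, Real.norm_eq_abs, Real.norm_eq_abs, Real.abs_exp,
      sel_k11_exp_eq]
    exact mul_le_mul_of_nonneg_right (mul_le_mul (sel_k11_am_le a m v.1) (sel_k11_am_le a m v.2)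
      (abs_nonneg _) (abs_nonneg _)) (Real.exp_pos _).le
  · rw [norm_zero]
    positivity

theorem KK_symm_pr {k : ℕ} {a : ℕ → ℝ} (m A B : ℕ) (l : ℤ) (Y Y' : ℝ) :
    KK k a m A B l Y Y' = KK k a m B A (-l) Y' Y := by
  unfold KK
  have h1 : (((A * B : ℕ) : ℝ) * (Y * Y')) = (((B * A : ℕ) : ℝ) * (Y' * Y)) := by
    push_cast; ring
  rw [h1]
  congr 1
  rw [← (Equiv.prodComm ℕ ℕ).tsum_eq]
  refine tsum_congr fun v => ?_
  change (if ((v.2 * A : ℕ) : ℤ) - ((v.1 * B : ℕ) : ℤ) = l then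
      am a m v.2 * am a m v.1 * Real.exp (-2 * Real.pi * (v.2 * A * Y + v.1 * B * Y')) else 0) = _
  have hiff : ((v.2 * A : ℕ) : ℤ) - ((v.1 * B : ℕ) : ℤ) = l ↔
      ((v.1 * B : ℕ) : ℤ) - ((v.2 * A : ℕ) : ℤ) = -l := ⟨fun h => by linarith, fun h => by linarith⟩
  rw [if_congr hiff rfl rfl, show (v.2 : ℝ) * A * Y + v.1 * B * Y' = v.1 * B * Y' + v.2 * A * Y by ring,
    mul_comm (am a m v.2)]

theorem sel_k11_orth (n : ℤ) :
    ∫ θ in (0 : ℝ)..1, cexp (2 * Real.pi * I * n * θ) = if n = 0 then 1 else 0 := by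
  by_cases h : n = 0
  · subst h
    simp
  · rw [if_neg h]
    have hc : (2 * Real.pi * I * n : ℂ) ≠ 0 := by
      simp [Real.pi_ne_zero, h]
    rw [integral_exp_mul_complex hc]
    have : cexp (2 * Real.pi * I * n * ((1 : ℝ) : ℂ)) = 1 := by
      rw [Complex.exp_eq_one_iff]
      exact ⟨n, by push_cast; ring⟩
    rw [this]
    simp

theorem sel_k11_prod {k : ℕ} {a : ℕ → ℝ} (H : HData k a) {A B : ℕ} (hA : 0 < A) (hB : 0 < B)
    {Y Y' : ℝ} (hY : 0 < Y) (hY' : 0 < Y') (x : ℝ) :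
    HasSum (fun v : ℕ × ℕ => ((a v.1 * a v.2 *
        Real.exp (-2 * Real.pi * ((v.1 : ℝ) * A * Y + v.2 * B * Y')) : ℝ) : ℂ) *
        cexp (2 * Real.pi * I * ((((v.1 * A : ℕ) : ℤ) - ((v.2 * B : ℕ) : ℤ) : ℤ) : ℂ) * x))
      (qs a (A * (x + Y * I)) * starRingEnd ℂ (qs a (B * (x + Y' * I)))) := by
  have hA' : (0 : ℝ) < A := by exact_mod_cast hA
  have hB' : (0 : ℝ) < B := by exact_mod_cast hB
  have i1 : ((A : ℂ) * (x + Y * I)).im = A * Y := by simp
  have i2 : ((B : ℂ) * (x + Y' * I)).im = B * Y' := by simp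
  have s1 := bas_summable_qs H (z := (A : ℂ) * (x + Y * I)) (by rw [i1]; positivity)
  have s2 := bas_summable_qs H (z := (B : ℂ) * (x + Y' * I)) (by rw [i2]; positivity)
  have s2' : Summable (fun n : ℕ => ‖starRingEnd ℂ ((a n : ℂ) *
      cexp (2 * Real.pi * I * n * ((B : ℂ) * (x + Y' * I))))‖) := by
    refine s2.congr fun n => ?_
    rw [RCLike.norm_conj]
  have hs := (summable_mul_of_summable_norm s1 s2').hasSum
  rw [← tsum_mul_tsum_of_summable_norm s1 s2'] at hs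
  have hc : (∑' n : ℕ, starRingEnd ℂ ((a n : ℂ) *
      cexp (2 * Real.pi * I * n * ((B : ℂ) * (x + Y' * I))))) =
      starRingEnd ℂ (qs a (B * (x + Y' * I))) := by
    unfold qs
    rw [Complex.conj_tsum]
  rw [hc] at hs
  have hterm : (fun v : ℕ × ℕ => (a v.1 : ℂ) * cexp (2 * Real.pi * I * v.1 * ((A : ℂ) * (x + Y * I))) *
      starRingEnd ℂ ((a v.2 : ℂ) * cexp (2 * Real.pi * I * v.2 * ((B : ℂ) * (x + Y' * I))))) =
      fun v : ℕ × ℕ => ((a v.1 * a v.2 *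
        Real.exp (-2 * Real.pi * ((v.1 : ℝ) * A * Y + v.2 * B * Y')) : ℝ) : ℂ) *
        cexp (2 * Real.pi * I * ((((v.1 * A : ℕ) : ℤ) - ((v.2 * B : ℕ) : ℤ) : ℤ) : ℂ) * x) := by
    funext v
    rw [map_mul, Complex.conj_ofReal, ← Complex.exp_conj]
    push_cast
    rw [show (a v.1 : ℂ) * cexp (2 * Real.pi * I * v.1 * ((A : ℂ) * (x + Y * I))) *
      ((a v.2 : ℂ) * cexp (starRingEnd ℂ (2 * Real.pi * I * v.2 * ((B : ℂ) * (x + Y' * I))))) =
      (a v.1 : ℂ) * a v.2 * (cexp (2 * Real.pi * I * v.1 * ((A : ℂ) * (x + Y * I))) *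
      cexp (starRingEnd ℂ (2 * Real.pi * I * v.2 * ((B : ℂ) * (x + Y' * I))))) by ring,
      ← Complex.exp_add, mul_assoc ((a v.1 : ℂ) * a v.2), ← Complex.exp_add]
    congr 2
    simp only [map_mul, map_add, Complex.conj_ofReal, Complex.conj_I, map_natCast, map_ofNat]
    have hI : I * I = -1 := Complex.I_mul_I
    linear_combination (2 * Real.pi * v.1 * A * Y + 2 * Real.pi * v.2 * B * Y' : ℂ) * hI
  rw [hterm] at hs
  exact hs

theorem KK_int_pr {k : ℕ} {a : ℕ → ℝ} (H : HData k a) {A B : ℕ} (hA : 0 < A) (hB : 0 < B)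
    {ρ : ℝ} (hρ : 0 < ρ) (l : ℤ) {Y : ℝ} (hY : 0 < Y) :
    ∫ x in (0 : ℝ)..1, G2 k a A B ρ (x + Y * I) * cexp (-(2 * Real.pi * I) * l * x) =
      ((KK k a 1 A B l Y (ρ * Y) : ℝ) : ℂ) := by
  have hA' : (0 : ℝ) < A := by exact_mod_cast hA
  have hB' : (0 : ℝ) < B := by exact_mod_cast hB
  have hρY : 0 < ρ * Y := by positivity
  set P : ℝ := ((A * B : ℕ) : ℝ) * (Y * (ρ * Y)) with hP
  -- the terms
  set F : ℕ × ℕ → ℝ → ℂ := fun v x => ((a v.1 * a v.2 *
        Real.exp (-2 * Real.pi * ((v.1 : ℝ) * A * Y + v.2 * B * (ρ * Y))) : ℝ) : ℂ) *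
        cexp (2 * Real.pi * I * ((((v.1 * A : ℕ) : ℤ) - ((v.2 * B : ℕ) : ℤ) : ℤ) : ℂ) * x) *
        cexp (-(2 * Real.pi * I) * l * x) with hF
  have hFeq : ∀ v x, F v x = ((a v.1 * a v.2 *
        Real.exp (-2 * Real.pi * ((v.1 : ℝ) * A * Y + v.2 * B * (ρ * Y))) : ℝ) : ℂ) *
        cexp (2 * Real.pi * I * ((((v.1 * A : ℕ) : ℤ) - ((v.2 * B : ℕ) : ℤ) - l : ℤ) : ℂ) * x) := by
    intro v x
    simp only [hF]
    rw [mul_assoc, ← Complex.exp_add]
    congr 2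
    push_cast
    ring
  have hFn : ∀ v x, ‖F v x‖ = |a v.1| * |a v.2| *
      Real.exp (-((2 * Real.pi * (A * Y)) * v.1 + (2 * Real.pi * (B * (ρ * Y))) * v.2)) := by
    intro v x
    rw [hFeq, norm_mul, Complex.norm_real, Real.norm_eq_abs, abs_mul, abs_mul, Real.abs_exp,
      sel_k11_exp_eq]
    have : ‖cexp (2 * Real.pi * I * ((((v.1 * A : ℕ) : ℤ) - ((v.2 * B : ℕ) : ℤ) - l : ℤ) : ℂ) * x)‖
        = 1 := by
      rw [show (2 * Real.pi * I * ((((v.1 * A : ℕ) : ℤ) - ((v.2 * B : ℕ) : ℤ) - l : ℤ) : ℂ) * x) =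
        ((2 * Real.pi * ((((v.1 * A : ℕ) : ℤ) - ((v.2 * B : ℕ) : ℤ) - l : ℤ) : ℝ) * x : ℝ) : ℂ) * I by
        push_cast; ring, Complex.norm_exp_ofReal_mul_I]
    rw [this, mul_one]
  have hmaj := sel_k11_maj H (y := 2 * Real.pi * (A * Y)) (y' := 2 * Real.pi * (B * (ρ * Y)))
    (by positivity) (by positivity)
  have hint := intervalIntegral.hasSum_integral_of_dominated_convergence
    (μ := volume) (a := 0) (b := 1) (F := F)
    (f := fun x => (qs a (A * (x + Y * I)) * starRingEnd ℂ (qs a (B * (x + (ρ * Y : ℝ) * I)))) *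
        cexp (-(2 * Real.pi * I) * l * x))
    (bound := fun v _ => |a v.1| * |a v.2| *
      Real.exp (-((2 * Real.pi * (A * Y)) * v.1 + (2 * Real.pi * (B * (ρ * Y))) * v.2)))
    (fun v => by
      apply Continuous.aestronglyMeasurable
      simp only [hF]
      fun_prop)
    (fun v => Eventually.of_forall fun x _ => (hFn v x).le)
    (Eventually.of_forall fun x _ => hmaj)
    (by simp)
    (Eventually.of_forall fun x _ => by
      have := (sel_k11_prod H hA hB hY hρY x).mul_right (cexp (-(2 * Real.pi * I) * l * x))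
      exact this)
  have hval : ∀ v : ℕ × ℕ, ∫ x in (0 : ℝ)..1, F v x =
      (((if ((v.1 * A : ℕ) : ℤ) - ((v.2 * B : ℕ) : ℤ) = l then
      am a 1 v.1 * am a 1 v.2 * Real.exp (-2 * Real.pi * (v.1 * A * Y + v.2 * B * (ρ * Y))) else 0
        : ℝ)) : ℂ) := by
    intro v
    simp_rw [hFeq]
    rw [intervalIntegral.integral_const_mul, sel_k11_orth, sel_k11_am_one, sel_k11_am_one]
    by_cases h : ((v.1 * A : ℕ) : ℤ) - ((v.2 * B : ℕ) : ℤ) = l
    · rw [if_pos h, if_pos (by omega), mul_one]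
    · rw [if_neg h, if_neg (by omega), mul_zero, Complex.ofReal_zero]
  simp_rw [hval] at hint
  have hpow : (((A * B : ℕ) : ℝ) * ρ) ^ ((k : ℝ) / 2) * Y ^ k = P ^ ((k : ℝ) / 2) := by
    have h1 : P = ((A * B : ℕ) : ℝ) * ρ * (Y ^ 2) := by rw [hP]; ring
    rw [h1, Real.mul_rpow (x := ((A * B : ℕ) : ℝ) * ρ) (by positivity) (by positivity),
      ← Real.rpow_natCast Y 2, ← Real.rpow_mul hY.le, ← Real.rpow_natCast Y k]
    congr 2
    push_cast
    ring
  unfold KK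
  rw [← hP]
  have hG : ∀ x : ℝ, G2 k a A B ρ (x + Y * I) * cexp (-(2 * Real.pi * I) * l * x) =
      ((P ^ ((k : ℝ) / 2) : ℝ) : ℂ) *
      ((qs a (A * (x + Y * I)) * starRingEnd ℂ (qs a (B * (x + (ρ * Y : ℝ) * I)))) *
        cexp (-(2 * Real.pi * I) * l * x)) := by
    intro x
    unfold G2
    have him : ((x : ℂ) + Y * I).im = Y := by simp
    rw [him, hpow]
    have h2 : (x : ℂ) + Y * I + (((ρ - 1) * Y : ℝ) : ℂ) * I = x + (ρ * Y : ℝ) * I := by
      push_cast; ring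
    rw [h2]
    ring
  simp_rw [hG]
  rw [intervalIntegral.integral_const_mul, ← hint.tsum_eq, ← Complex.ofReal_tsum]
  push_cast
  rfl

theorem KK_summable : type_of% @KK_summable_pr := @KK_summable_pr
theorem KK_int : type_of% @KK_int_pr := @KK_int_pr
theorem KK_symm : type_of% @KK_symm_pr := @KK_symm_pr

end Pool.Agent.SEL
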