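import Pool.Agent.Lib_helper68.SEL.Defs
import Pool.Agent.Lib_helper68.SEL.K11

/-! SEL block K12 (KKU): uniform bounds of the double series. -/

namespace Pool.Agent.SEL

open Complex MeasureTheory Filter Topology Pool.Agent.GL2

theorem KK_ht_pr {k : ℕ} {a : ℕ → ℝ} (m A B : ℕ) {Y Y' : ℝ} (hY : 0 < Y) (hY' : 0 < Y') :
    KK k a m A B 0 Y Y' = (2 * √(Y * Y') / (Y + Y')) ^ k *
      KK k a m A B 0 ((Y + Y') / 2) ((Y + Y') / 2) := by
  unfold KK
  have h0 : (0 : ℝ) ≤ ((A * B : ℕ) : ℝ) := Nat.cast_nonneg _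
  have hs : 0 < Y + Y' := by positivity
  have h1 : (((A * B : ℕ) : ℝ) * (Y * Y')) ^ ((k : ℝ) / 2) =
      (2 * √(Y * Y') / (Y + Y')) ^ k *
        (((A * B : ℕ) : ℝ) * ((Y + Y') / 2 * ((Y + Y') / 2))) ^ ((k : ℝ) / 2) := by
    have h2 : ((2 * √(Y * Y') / (Y + Y')) ^ k : ℝ) =
        ((2 * √(Y * Y') / (Y + Y')) ^ 2) ^ ((k : ℝ) / 2) := by
      rw [← Real.rpow_natCast _ 2, ← Real.rpow_mul (by positivity), ← Real.rpow_natCast _ k]
      congr 1
      push_cast
      ring
    rw [h2, ← Real.mul_rpow (by positivity) (by positivity)]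
    congr 1
    rw [div_pow, mul_pow, Real.sq_sqrt (by positivity)]
    field_simp
  rw [h1, mul_assoc]
  congr 2
  refine tsum_congr fun v => ?_
  split_ifs with h
  · have h3 : (v.1 : ℝ) * A = v.2 * B := by
      have : ((v.1 * A : ℕ) : ℤ) = ((v.2 * B : ℕ) : ℤ) := by linarith
      have : v.1 * A = v.2 * B := by exact_mod_cast this
      exact_mod_cast this
    congr 2
    rw [h3]
    ring
  · rfl

/-- the main bound: the double series with the weaker decay -/
theorem sel_k12_core {k : ℕ} {a : ℕ → ℝ} (H : HData k a) : ∃ C : ℝ, 0 < C ∧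
    ∀ (m A B : ℕ) (l : ℤ) (Y Y' : ℝ), 0 < A → 0 < B → 0 < Y → 0 < Y' →
      ∀ F : ℕ × ℕ → ℝ, (∀ v, F v ≠ 0 → ((v.1 * A : ℕ) : ℤ) - ((v.2 * B : ℕ) : ℤ) = l) →
      (∀ v, |F v| ≤ |am a m v.1| * |am a m v.2| *
        Real.exp (-(Real.pi / 2) * (v.1 * A * Y + v.2 * B * Y'))) →
      (((A * B : ℕ) : ℝ) * (Y * Y')) ^ ((k : ℝ) / 2) * ∑' v : ℕ × ℕ, |F v| ≤ C := by
  obtain ⟨C, hC⟩ := Dm_le_pr H
  have hC0 : 0 ≤ C := by
    refine le_trans ?_ (hC 1 1 one_pos)
    unfold Dm
    positivity
  refine ⟨4 ^ k * C + 1, by positivity, ?_⟩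
  intro m A B l Y Y' hA hB hY hY' F hF0 hF
  have hA' : (0 : ℝ) < A := by exact_mod_cast hA
  have hB' : (0 : ℝ) < B := by exact_mod_cast hB
  set P : ℝ := (((A * B : ℕ) : ℝ) * (Y * Y')) ^ ((k : ℝ) / 2) with hP
  have hPpos : 0 < P := by rw [hP]; push_cast; positivity
  -- the two one-variable functions
  set f : ℝ → ℕ → ℝ := fun y n => y ^ k * ((am a m n) ^ 2 * Real.exp (-4 * Real.pi * n * (y / 4)))
    with hf
  have hfs : ∀ y : ℝ, 0 < y → Summable (f y) := by
    intro y hy
    have h1 := sel_k11_maj H (y := Real.pi / 2 * y) (y' := Real.pi / 2 * y)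
      (by positivity) (by positivity)
    have h2 := h1.comp_injective (i := fun n : ℕ => (n, n)) (fun p q h => (Prod.mk.inj h).1)
    refine Summable.mul_left _ ?_
    refine Summable.of_nonneg_of_le (fun n => by positivity) (fun n => ?_) h2
    simp only [Function.comp_apply]
    have h3 : (am a m n) ^ 2 ≤ |a n| * |a n| := by
      rw [← sq_abs, pow_two]
      exact mul_le_mul (sel_k11_am_le a m n) (sel_k11_am_le a m n) (abs_nonneg _) (abs_nonneg _)
    have h4 : Real.exp (-4 * Real.pi * n * (y / 4)) =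
        Real.exp (-(Real.pi / 2 * y * n + Real.pi / 2 * y * n)) := by
      congr 1
      ring
    rw [h4]
    exact mul_le_mul_of_nonneg_right h3 (Real.exp_pos _).le
  have hf0 : ∀ y : ℝ, 0 < y → ∀ n, 0 ≤ f y n := by
    intro y hy n
    simp only [hf]
    positivity
  have hfb : ∀ y : ℝ, 0 < y → ∑' n, f y n ≤ 4 ^ k * C := by
    intro y hy
    have h1 := hC m (y / 4) (by positivity)
    unfold Dm at h1
    simp only [hf]
    rw [tsum_mul_left]
    rw [div_pow, div_mul_eq_mul_div, div_le_iff₀ (by positivity)] at h1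
    linarith
  have hterm : ∀ v : ℕ × ℕ, P * |F v| ≤
      (if ((v.1 * A : ℕ) : ℤ) - ((v.2 * B : ℕ) : ℤ) = l then
        f (A * Y) v.1 / 2 else 0) + (if ((v.1 * A : ℕ) : ℤ) - ((v.2 * B : ℕ) : ℤ) = l then
        f (B * Y') v.2 / 2 else 0) := by
    intro v
    by_cases hv : F v = 0
    · rw [hv, abs_zero, mul_zero]
      have h1 := hf0 (A * Y) (by positivity) v.1
      have h2 := hf0 (B * Y') (by positivity) v.2
      split_ifs <;> linarith
    · rw [if_pos (hF0 v hv), if_pos (hF0 v hv)]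
      set X : ℝ := (A * Y) ^ ((k : ℝ) / 2) * |am a m v.1| * Real.exp (-(Real.pi / 2) * (v.1 * (A * Y)))
        with hX
      set X' : ℝ := (B * Y') ^ ((k : ℝ) / 2) * |am a m v.2| *
        Real.exp (-(Real.pi / 2) * (v.2 * (B * Y'))) with hX'
      have hsq : ∀ (y : ℝ) (n : ℕ), 0 < y → (y ^ ((k : ℝ) / 2) * |am a m n| *
          Real.exp (-(Real.pi / 2) * (n * y))) ^ 2 = f y n := by
        intro y n hy
        simp only [hf]
        rw [mul_pow, mul_pow, sq_abs, ← Real.exp_nat_mul, ← Real.rpow_natCast (y ^ ((k : ℝ) / 2)) 2,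
          ← Real.rpow_mul hy.le, ← Real.rpow_natCast y k]
        have e1 : (k : ℝ) / 2 * ((2 : ℕ) : ℝ) = (k : ℝ) := by push_cast; ring
        have e2 : ((2 : ℕ) : ℝ) * (-(Real.pi / 2) * (n * y)) = -4 * Real.pi * n * (y / 4) := by
          push_cast; ring
        rw [e1, e2]
        ring
      have hPX : P * (|am a m v.1| * |am a m v.2| *
          Real.exp (-(Real.pi / 2) * (v.1 * A * Y + v.2 * B * Y'))) = X * X' := by
        have e1 : P = (A * Y) ^ ((k : ℝ) / 2) * (B * Y') ^ ((k : ℝ) / 2) := by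
          rw [hP, ← Real.mul_rpow (by positivity) (by positivity)]
          congr 1
          push_cast
          ring
        have e2 : Real.exp (-(Real.pi / 2) * (v.1 * A * Y + v.2 * B * Y')) =
            Real.exp (-(Real.pi / 2) * (v.1 * (A * Y))) *
              Real.exp (-(Real.pi / 2) * (v.2 * (B * Y'))) := by
          rw [← Real.exp_add]
          congr 1
          ring
        rw [e1, e2, hX, hX']
        ring
      calc P * |F v| ≤ P * (|am a m v.1| * |am a m v.2| *
          Real.exp (-(Real.pi / 2) * (v.1 * A * Y + v.2 * B * Y'))) :=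
            mul_le_mul_of_nonneg_left (hF v) hPpos.le
        _ = X * X' := hPX
        _ ≤ X ^ 2 / 2 + X' ^ 2 / 2 := by nlinarith [sq_nonneg (X - X')]
        _ = _ := by rw [hX, hX', hsq _ _ (by positivity), hsq _ _ (by positivity)]
  have hfin : ∀ s : Finset (ℕ × ℕ), ∑ v ∈ s, P * |F v| ≤ 4 ^ k * C := by
    intro s
    have h1 : ∑ v ∈ s, (if ((v.1 * A : ℕ) : ℤ) - ((v.2 * B : ℕ) : ℤ) = l then
        f (A * Y) v.1 / 2 else 0) ≤ 4 ^ k * C / 2 := by
      rw [← Finset.sum_filter]
      have hinj : Set.InjOn Prod.fst (↑(s.filter fun v : ℕ × ℕ =>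
          ((v.1 * A : ℕ) : ℤ) - ((v.2 * B : ℕ) : ℤ) = l) : Set (ℕ × ℕ)) := by
        intro v hv w hw hvw
        simp only [Finset.coe_filter, Set.mem_ofPred_eq] at hv hw
        have h2 : ((v.2 * B : ℕ) : ℤ) = ((w.2 * B : ℕ) : ℤ) := by
          have := hv.2
          have := hw.2
          rw [hvw] at *
          linarith
        have h3 : v.2 * B = w.2 * B := by exact_mod_cast h2
        exact Prod.ext hvw (Nat.eq_of_mul_eq_mul_right hB h3)
      have h4 := Finset.sum_image (f := fun n => f (A * Y) n / 2) hinj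
      rw [← h4]
      refine (Summable.sum_le_tsum _ (fun n _ => by
        have := hf0 (A * Y) (by positivity) n
        positivity) ((hfs (A * Y) (by positivity)).div_const 2)).trans ?_
      rw [tsum_div_const]
      have := hfb (A * Y) (by positivity)
      linarith
    have h2 : ∑ v ∈ s, (if ((v.1 * A : ℕ) : ℤ) - ((v.2 * B : ℕ) : ℤ) = l then
        f (B * Y') v.2 / 2 else 0) ≤ 4 ^ k * C / 2 := by
      rw [← Finset.sum_filter]
      have hinj : Set.InjOn Prod.snd (↑(s.filter fun v : ℕ × ℕ =>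
          ((v.1 * A : ℕ) : ℤ) - ((v.2 * B : ℕ) : ℤ) = l) : Set (ℕ × ℕ)) := by
        intro v hv w hw hvw
        simp only [Finset.coe_filter, Set.mem_ofPred_eq] at hv hw
        have h2 : ((v.1 * A : ℕ) : ℤ) = ((w.1 * A : ℕ) : ℤ) := by
          have := hv.2
          have := hw.2
          rw [hvw] at *
          linarith
        have h3 : v.1 * A = w.1 * A := by exact_mod_cast h2
        exact Prod.ext (Nat.eq_of_mul_eq_mul_right hA h3) hvw
      have h4 := Finset.sum_image (f := fun n => f (B * Y') n / 2) hinj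
      rw [← h4]
      refine (Summable.sum_le_tsum _ (fun n _ => by
        have := hf0 (B * Y') (by positivity) n
        positivity) ((hfs (B * Y') (by positivity)).div_const 2)).trans ?_
      rw [tsum_div_const]
      have := hfb (B * Y') (by positivity)
      linarith
    calc ∑ v ∈ s, P * |F v| ≤ ∑ v ∈ s, ((if ((v.1 * A : ℕ) : ℤ) - ((v.2 * B : ℕ) : ℤ) = l then
        f (A * Y) v.1 / 2 else 0) + (if ((v.1 * A : ℕ) : ℤ) - ((v.2 * B : ℕ) : ℤ) = l then
        f (B * Y') v.2 / 2 else 0)) := Finset.sum_le_sum fun v _ => hterm v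
      _ ≤ 4 ^ k * C / 2 + 4 ^ k * C / 2 := by
        rw [Finset.sum_add_distrib]
        exact add_le_add h1 h2
      _ = _ := by ring
  rw [← tsum_mul_left]
  have := Real.tsum_le_of_sum_le (fun v => by positivity) hfin
  linarith

/-- `core` with a factor -/
theorem sel_k12_bd {k : ℕ} {a : ℕ → ℝ} (H : HData k a) : ∃ C : ℝ, 0 < C ∧
    ∀ (m A B : ℕ) (l : ℤ) (Y Y' E : ℝ), 0 < A → 0 < B → 0 < Y → 0 < Y' → 0 ≤ E →
      ∀ F : ℕ × ℕ → ℝ, (∀ v, F v ≠ 0 → ((v.1 * A : ℕ) : ℤ) - ((v.2 * B : ℕ) : ℤ) = l) →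
      (∀ v, |F v| ≤ E * (|am a m v.1| * |am a m v.2| *
        Real.exp (-(Real.pi / 2) * (v.1 * A * Y + v.2 * B * Y')))) →
      |(((A * B : ℕ) : ℝ) * (Y * Y')) ^ ((k : ℝ) / 2) * ∑' v : ℕ × ℕ, F v| ≤ C * E := by
  obtain ⟨C, hC0, hC⟩ := sel_k12_core H
  refine ⟨C, hC0, ?_⟩
  intro m A B l Y Y' E hA hB hY hY' hE F hF0 hF
  have hA' : (0 : ℝ) < A := by exact_mod_cast hA
  have hB' : (0 : ℝ) < B := by exact_mod_cast hB
  rcases hE.eq_or_lt with h0 | hE
  · have : ∀ v, F v = 0 := by
      intro v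
      have := hF v
      rw [← h0, zero_mul] at this
      exact abs_nonpos_iff.1 this
    simp only [this, tsum_zero, mul_zero, abs_zero, ← h0, le_refl]
  · have h1 := hC m A B l Y Y' hA hB hY hY' (fun v => F v / E) (fun v hv => hF0 v (fun h => hv (by
      simp [h]))) (fun v => by
      rw [abs_div, abs_of_pos hE, div_le_iff₀ hE]
      linarith [hF v])
    have hs : Summable fun v => |F v| := by
      have h2 := (sel_k11_maj H (y := Real.pi / 2 * (A * Y)) (y' := Real.pi / 2 * (B * Y'))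
        (by positivity) (by positivity)).mul_left E
      refine Summable.of_nonneg_of_le (fun v => abs_nonneg _) (fun v => (hF v).trans ?_) h2
      refine mul_le_mul_of_nonneg_left ?_ hE.le
      have h3 : -(Real.pi / 2) * ((v.1 : ℝ) * A * Y + v.2 * B * Y') =
        -(Real.pi / 2 * (A * Y) * v.1 + Real.pi / 2 * (B * Y') * v.2) := by ring
      rw [h3]
      exact mul_le_mul_of_nonneg_right (mul_le_mul (sel_k11_am_le a m v.1) (sel_k11_am_le a m v.2)
        (abs_nonneg _) (abs_nonneg _)) (Real.exp_pos _).le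
    have h2 : |∑' v : ℕ × ℕ, F v| ≤ ∑' v : ℕ × ℕ, |F v| := by
      have := norm_tsum_le_tsum_norm (f := F) hs
      exact this
    rw [abs_mul, abs_of_nonneg (by positivity)]
    refine (mul_le_mul_of_nonneg_left h2 (by positivity)).trans ?_
    have h3 : ∑' v : ℕ × ℕ, |F v| = E * ∑' v : ℕ × ℕ, |F v / E| := by
      rw [← tsum_mul_left]
      refine tsum_congr fun v => ?_
      rw [abs_div, abs_of_pos hE]
      field_simp
    rw [h3]
    calc _ = E * ((((A * B : ℕ) : ℝ) * (Y * Y')) ^ ((k : ℝ) / 2) * ∑' v : ℕ × ℕ, |F v / E|) := by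
          ring
      _ ≤ E * C := mul_le_mul_of_nonneg_left h1 hE.le
      _ = C * E := by ring

theorem sel_k12_am_zero {k : ℕ} {a : ℕ → ℝ} (H : HData k a) (m : ℕ) : am a m 0 = 0 := by
  unfold am
  rw [H.zero, ite_self]

theorem KK_tail_pr {k : ℕ} {a : ℕ → ℝ} (H : HData k a) : ∃ C : ℝ, 0 < C ∧
    ∀ (m A B : ℕ) (l : ℤ) (Y Y' : ℝ), 0 < A → 0 < B → 0 < Y → 0 < Y' →
      |KK k a m A B l Y Y'| ≤ C * Real.exp (-Real.pi * |(l : ℝ)| * min Y Y' -
        Real.pi / 2 * (Y + Y')) := by
  obtain ⟨C, hC0, hC⟩ := sel_k12_bd H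
  refine ⟨C, hC0, ?_⟩
  intro m A B l Y Y' hA hB hY hY'
  unfold KK
  refine hC m A B l Y Y' _ hA hB hY hY' (Real.exp_pos _).le _ (fun v hv => ?_) (fun v => ?_)
  · by_contra h
    exact hv (if_neg h)
  · by_cases h : ((v.1 * A : ℕ) : ℤ) - ((v.2 * B : ℕ) : ℤ) = l
    · rw [if_pos h, abs_mul, abs_mul, Real.abs_exp]
      rcases Nat.eq_zero_or_pos v.1 with h1 | h1
      · rw [h1, sel_k12_am_zero H]
        simp
      rcases Nat.eq_zero_or_pos v.2 with h2 | h2
      · rw [h2, sel_k12_am_zero H]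
        simp
      have key : Real.exp (-2 * Real.pi * (v.1 * A * Y + v.2 * B * Y')) ≤
          Real.exp (-Real.pi * |(l : ℝ)| * min Y Y' - Real.pi / 2 * (Y + Y')) *
            Real.exp (-(Real.pi / 2) * (v.1 * A * Y + v.2 * B * Y')) := by
        rw [← Real.exp_add]
        apply Real.exp_le_exp.2
        have hA1 : (1 : ℝ) ≤ A := by exact_mod_cast hA
        have hB1 : (1 : ℝ) ≤ B := by exact_mod_cast hB
        have hv1 : (1 : ℝ) ≤ v.1 := by exact_mod_cast h1
        have hv2 : (1 : ℝ) ≤ v.2 := by exact_mod_cast h2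
        have e1 : (1 : ℝ) ≤ v.1 * A := by nlinarith
        have e2 : (1 : ℝ) ≤ v.2 * B := by nlinarith
        have e3 : Y ≤ v.1 * A * Y := by nlinarith
        have e4 : Y' ≤ v.2 * B * Y' := by nlinarith
        have hl : (v.1 : ℝ) * A - v.2 * B = l := by
          have : (((v.1 * A : ℕ) : ℤ) : ℝ) - (((v.2 * B : ℕ) : ℤ) : ℝ) = (l : ℝ) := by
            rw [← h]; push_cast; ring
          push_cast at this
          exact this
        have hmin1 : min Y Y' ≤ Y := min_le_left _ _
        have hmin2 : min Y Y' ≤ Y' := min_le_right _ _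
        have hmin0 : 0 < min Y Y' := lt_min hY hY'
        have e5 : |(l : ℝ)| * min Y Y' ≤ v.1 * A * Y + v.2 * B * Y' := by
          have : |(l : ℝ)| ≤ v.1 * A + v.2 * B := by
            rw [← hl, abs_le]
            constructor <;> nlinarith
          calc |(l : ℝ)| * min Y Y' ≤ (v.1 * A + v.2 * B) * min Y Y' :=
                mul_le_mul_of_nonneg_right this hmin0.le
            _ ≤ _ := by
                rw [add_mul]
                exact add_le_add (mul_le_mul_of_nonneg_left hmin1 (by positivity))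
                  (mul_le_mul_of_nonneg_left hmin2 (by positivity))
        have hpi := Real.pi_pos
        nlinarith [mul_le_mul_of_nonneg_left e5 hpi.le, mul_le_mul_of_nonneg_left (add_le_add e3 e4)
          hpi.le]
      calc |am a m v.1| * |am a m v.2| * Real.exp (-2 * Real.pi * (v.1 * A * Y + v.2 * B * Y'))
          ≤ |am a m v.1| * |am a m v.2| * (Real.exp (-Real.pi * |(l : ℝ)| * min Y Y' -
            Real.pi / 2 * (Y + Y')) * Real.exp (-(Real.pi / 2) * (v.1 * A * Y + v.2 * B * Y'))) :=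
            mul_le_mul_of_nonneg_left key (by positivity)
        _ = _ := by ring
    · rw [if_neg h, abs_zero]
      positivity

theorem sel_k12_lip_real {k : ℕ} {t S : ℝ} (ht0 : 0 ≤ t) (ht1 : t ≤ 1) (hS : 0 ≤ S) :
    |Real.exp (k * t) * Real.exp (-2 * Real.pi * (Real.exp t * S)) -
      Real.exp (-2 * Real.pi * S)| ≤
      ((k + 3) * Real.exp k * t) * Real.exp (-(Real.pi / 2) * S) := by
  have hpi := Real.pi_pos
  have het : Real.exp t - 1 ≤ 2 * t := by
    have h1 := Real.abs_exp_sub_one_le (x := t) (by rw [abs_of_nonneg ht0]; exact ht1)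
    rw [abs_of_nonneg ht0] at h1
    exact (le_abs_self _).trans h1
  have het0 : 0 ≤ Real.exp t - 1 := by linarith [Real.one_le_exp ht0]
  set x : ℝ := k * t + -2 * Real.pi * (Real.exp t * S) with hx
  set y : ℝ := -2 * Real.pi * S with hy
  have hgen : ∀ x y M : ℝ, x ≤ M → y ≤ M → |Real.exp x - Real.exp y| ≤ |x - y| * Real.exp M := by
    intro x y M hx hy
    rcases le_total x y with h | h
    · have h1 := Real.add_one_le_exp (x - y)
      have h2 : Real.exp x = Real.exp y * Real.exp (x - y) := by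
        rw [← Real.exp_add]; congr 1; ring
      have h3 : Real.exp x ≤ Real.exp y := Real.exp_le_exp.2 h
      rw [abs_of_nonpos (by linarith), abs_of_nonpos (by linarith)]
      have h4 : Real.exp y ≤ Real.exp M := Real.exp_le_exp.2 hy
      have h5 := Real.exp_pos y
      nlinarith
    · have h1 := Real.add_one_le_exp (y - x)
      have h2 : Real.exp y = Real.exp x * Real.exp (y - x) := by
        rw [← Real.exp_add]; congr 1; ring
      have h3 : Real.exp y ≤ Real.exp x := Real.exp_le_exp.2 h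
      rw [abs_of_nonneg (by linarith), abs_of_nonneg (by linarith)]
      have h4 : Real.exp x ≤ Real.exp M := Real.exp_le_exp.2 hx
      have h5 := Real.exp_pos x
      nlinarith
  have hk0 : (0 : ℝ) ≤ k := Nat.cast_nonneg k
  have h1 := hgen x y (k + -2 * Real.pi * S) (by
    rw [hx]
    have e1 : (k : ℝ) * t ≤ k := by nlinarith
    have e2 : S ≤ Real.exp t * S := by nlinarith
    nlinarith) (by rw [hy]; linarith)
  rw [← Real.exp_add]
  refine h1.trans ?_
  have h2 : |x - y| ≤ t * (k + 4 * Real.pi * S) := by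
    have e0 : x - y = k * t - 2 * Real.pi * S * (Real.exp t - 1) := by rw [hx, hy]; ring
    rw [e0]
    have e1 : 0 ≤ 2 * Real.pi * S * (Real.exp t - 1) := by positivity
    have e2 : 2 * Real.pi * S * (Real.exp t - 1) ≤ 2 * Real.pi * S * (2 * t) :=
      mul_le_mul_of_nonneg_left het (by positivity)
    have e3 : 0 ≤ k * t := by positivity
    have e4 : 0 ≤ 4 * Real.pi * S * t := by positivity
    rw [abs_le]
    constructor <;> nlinarith
  have h3 : k + 4 * Real.pi * S ≤ (k + 3) * Real.exp (3 * Real.pi / 2 * S) := by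
    have e1 := Real.add_one_le_exp (3 * Real.pi / 2 * S)
    have e2 : 0 ≤ 3 * Real.pi / 2 * S := by positivity
    nlinarith
  calc |x - y| * Real.exp (k + -2 * Real.pi * S)
      ≤ (t * ((k + 3) * Real.exp (3 * Real.pi / 2 * S))) * Real.exp (k + -2 * Real.pi * S) := by
        apply mul_le_mul_of_nonneg_right _ (Real.exp_pos _).le
        exact h2.trans (mul_le_mul_of_nonneg_left h3 ht0)
    _ = ((k + 3) * Real.exp k * t) * Real.exp (-(Real.pi / 2) * S) := by
        have e1 : Real.exp (k + -2 * Real.pi * S) = Real.exp k * Real.exp (-2 * Real.pi * S) :=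
          Real.exp_add _ _
        have e2 : Real.exp (-(Real.pi / 2) * S) = Real.exp (3 * Real.pi / 2 * S) *
            Real.exp (-2 * Real.pi * S) := by
          rw [← Real.exp_add]
          congr 1
          ring
        rw [e1, e2]
        ring

theorem KK_lip_pr {k : ℕ} {a : ℕ → ℝ} (H : HData k a) : ∃ C : ℝ, 0 < C ∧
    ∀ (m A B : ℕ) (l : ℤ) (Y Y' t : ℝ), 0 < A → 0 < B → 0 < Y → 0 < Y' → 0 ≤ t → t ≤ 1 →
      |KK k a m A B l (Real.exp t * Y) (Real.exp t * Y') - KK k a m A B l Y Y'| ≤ C * t := by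
  obtain ⟨C, hC0, hC⟩ := sel_k12_bd H
  refine ⟨C * ((k + 3) * Real.exp k), by positivity, ?_⟩
  intro m A B l Y Y' t hA hB hY hY' ht0 ht1
  have hA' : (0 : ℝ) < A := by exact_mod_cast hA
  have hB' : (0 : ℝ) < B := by exact_mod_cast hB
  have hs1 := KK_summable_pr H (m := m) hA hB l (Y := Real.exp t * Y) (Y' := Real.exp t * Y')
    (by positivity) (by positivity)
  have hs0 := KK_summable_pr H (m := m) hA hB l hY hY'
  unfold KK
  have hP : (((A * B : ℕ) : ℝ) * (Real.exp t * Y * (Real.exp t * Y'))) ^ ((k : ℝ) / 2) =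
      (((A * B : ℕ) : ℝ) * (Y * Y')) ^ ((k : ℝ) / 2) * Real.exp (k * t) := by
    have e1 : ((A * B : ℕ) : ℝ) * (Real.exp t * Y * (Real.exp t * Y')) =
        ((A * B : ℕ) : ℝ) * (Y * Y') * Real.exp (2 * t) := by
      rw [show (2 * t) = t + t by ring, Real.exp_add]
      ring
    rw [e1, Real.mul_rpow (by positivity) (Real.exp_pos _).le, ← Real.exp_mul]
    congr 2
    ring
  rw [hP, mul_assoc, ← tsum_mul_left, ← mul_sub, ← Summable.tsum_sub (hs1.mul_left _) hs0]
  rw [show C * ((k + 3) * Real.exp k) * t = C * ((k + 3) * Real.exp k * t) by ring]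
  refine hC m A B l Y Y' _ hA hB hY hY' (by positivity) _ (fun v hv => ?_) (fun v => ?_)
  · by_contra h
    apply hv
    rw [if_neg h, if_neg h]
    ring
  · by_cases h : ((v.1 * A : ℕ) : ℤ) - ((v.2 * B : ℕ) : ℤ) = l
    · rw [if_pos h, if_pos h]
      have e1 : (v.1 : ℝ) * A * (Real.exp t * Y) + v.2 * B * (Real.exp t * Y') =
        Real.exp t * (v.1 * A * Y + v.2 * B * Y') := by ring
      rw [e1]
      have e2 := sel_k12_lip_real (k := k) (t := t) (S := v.1 * A * Y + v.2 * B * Y') ht0 ht1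
        (by positivity)
      rw [show Real.exp (k * t) * (am a m v.1 * am a m v.2 *
          Real.exp (-2 * Real.pi * (Real.exp t * (v.1 * A * Y + v.2 * B * Y')))) -
          am a m v.1 * am a m v.2 * Real.exp (-2 * Real.pi * (v.1 * A * Y + v.2 * B * Y')) =
          am a m v.1 * am a m v.2 * (Real.exp (k * t) *
            Real.exp (-2 * Real.pi * (Real.exp t * (v.1 * A * Y + v.2 * B * Y'))) -
            Real.exp (-2 * Real.pi * (v.1 * A * Y + v.2 * B * Y'))) by ring,
        abs_mul, abs_mul]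
      calc _ ≤ |am a m v.1| * |am a m v.2| * (((k + 3) * Real.exp k * t) *
            Real.exp (-(Real.pi / 2) * (v.1 * A * Y + v.2 * B * Y'))) :=
            mul_le_mul_of_nonneg_left e2 (by positivity)
        _ = _ := by ring
    · rw [if_neg h, if_neg h, mul_zero, sub_zero, abs_zero]
      positivity

theorem KK_cont_pr {k : ℕ} {a : ℕ → ℝ} (H : HData k a) {m A B : ℕ} (hA : 0 < A) (hB : 0 < B)
    (l : ℤ) : ContinuousOn (fun v : ℝ × ℝ => KK k a m A B l v.1 v.2)
      {v : ℝ × ℝ | 0 < v.1 ∧ 0 < v.2} := by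
  have hA' : (0 : ℝ) < A := by exact_mod_cast hA
  have hB' : (0 : ℝ) < B := by exact_mod_cast hB
  intro w hw
  apply ContinuousAt.continuousWithinAt
  obtain ⟨hw1, hw2⟩ := hw
  unfold KK
  apply ContinuousAt.mul
  · apply ContinuousAt.rpow_const
    · fun_prop
    · left
      have : 0 < ((A * B : ℕ) : ℝ) * (w.1 * w.2) := by push_cast; positivity
      exact this.ne'
  · set U : Set (ℝ × ℝ) := Set.Ioi (w.1 / 2) ×ˢ Set.Ioi (w.2 / 2) with hU
    have hUo : IsOpen U := isOpen_Ioi.prod isOpen_Ioi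
    have hwU : w ∈ U := by
      rw [hU, Set.mem_prod]
      simp only [Set.mem_Ioi]
      constructor <;> linarith
    have hmaj := sel_k11_maj H (y := 2 * Real.pi * (A * (w.1 / 2)))
      (y' := 2 * Real.pi * (B * (w.2 / 2))) (by positivity) (by positivity)
    have : ContinuousOn (fun y : ℝ × ℝ => ∑' v : ℕ × ℕ,
        if ((v.1 * A : ℕ) : ℤ) - ((v.2 * B : ℕ) : ℤ) = l then
        am a m v.1 * am a m v.2 * Real.exp (-2 * Real.pi * (v.1 * A * y.1 + v.2 * B * y.2))
        else 0) U := by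
      refine continuousOn_tsum (fun v => ?_) hmaj (fun v y hy => ?_)
      · split_ifs
        · fun_prop
        · fun_prop
      · rw [hU, Set.mem_prod] at hy
        simp only [Set.mem_Ioi] at hy
        split_ifs
        · rw [norm_mul, norm_mul, Real.norm_eq_abs, Real.norm_eq_abs, Real.norm_eq_abs,
            Real.abs_exp]
          refine mul_le_mul (mul_le_mul (sel_k11_am_le a m v.1) (sel_k11_am_le a m v.2)
            (abs_nonneg _) (abs_nonneg _)) ?_ (Real.exp_pos _).le (by positivity)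
          apply Real.exp_le_exp.2
          have e1 : (v.1 : ℝ) * A * (w.1 / 2) ≤ v.1 * A * y.1 :=
            mul_le_mul_of_nonneg_left hy.1.le (by positivity)
          have e2 : (v.2 : ℝ) * B * (w.2 / 2) ≤ v.2 * B * y.2 :=
            mul_le_mul_of_nonneg_left hy.2.le (by positivity)
          have hpi := Real.pi_pos
          nlinarith
        · rw [norm_zero]
          positivity
    exact this.continuousAt (hUo.mem_nhds hwU)

theorem KK_ht : type_of% @KK_ht_pr := @KK_ht_pr
theorem KK_tail : type_of% @KK_tail_pr := @KK_tail_pr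
theorem KK_lip : type_of% @KK_lip_pr := @KK_lip_pr
theorem KK_cont : type_of% @KK_cont_pr := @KK_cont_pr

end Pool.Agent.SEL
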