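import Pool.Agent.Lib_helper68.SEL.Defs
import Pool.Agent.Lib_helper68.GL2.R2
import Pool.Agent.Lib_helper68.SEL.K11

/-! Block K13 (KKE) of SEL: removal of the coprimality condition. -/

namespace Pool.Agent.SEL

open Complex MeasureTheory Filter Topology Pool.Agent.GL2

/-- the coefficients of the local factor -/
noncomputable def k13_c (k : ℕ) (a : ℕ → ℝ) (p : ℕ) (j : Fin 3) : ℝ :=
  ![1, - a p, (p : ℝ) ^ (k - 1)] j

theorem k13_peel {k : ℕ} {a : ℕ → ℝ} (H : HData k a) {m p : ℕ} (hp : p.Prime) (hpm : ¬ p ∣ m)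
    (n : ℕ) : am a (m * p) n =
      ∑ j : Fin 3, k13_c k a p j * (if p ^ (j : ℕ) ∣ n then am a m (n / p ^ (j : ℕ)) else 0) := by
  rw [am_peel H hp hpm, Fin.sum_univ_three]
  simp only [k13_c, Fin.val_zero, pow_zero, one_dvd, if_true, Nat.div_one, Fin.val_one, pow_one,
    Fin.val_two, Matrix.cons_val_zero, Matrix.cons_val_one, Matrix.cons_val]
  split_ifs <;> ring

/-- the summand of `KK` -/
noncomputable def k13_T (a : ℕ → ℝ) (m A B : ℕ) (l : ℤ) (Y Y' : ℝ) (v : ℕ × ℕ) : ℝ :=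
  if ((v.1 * A : ℕ) : ℤ) - ((v.2 * B : ℕ) : ℤ) = l then
      am a m v.1 * am a m v.2 * Real.exp (-2 * Real.pi * (v.1 * A * Y + v.2 * B * Y')) else 0

theorem k13_KK (k : ℕ) (a : ℕ → ℝ) (m A B : ℕ) (l : ℤ) (Y Y' : ℝ) :
    KK k a m A B l Y Y' = (((A * B : ℕ) : ℝ) * (Y * Y')) ^ ((k : ℝ) / 2) *
      ∑' v, k13_T a m A B l Y Y' v := rfl

theorem k13_hasSum {g : ℕ × ℕ → ℝ} {s : ℝ} (hg : HasSum g s) {d d' : ℕ} (hd : 0 < d)
    (hd' : 0 < d') :
    HasSum (fun v : ℕ × ℕ => if d ∣ v.1 ∧ d' ∣ v.2 then g (v.1 / d, v.2 / d') else 0) s := by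
  have hinj : Function.Injective (fun v : ℕ × ℕ => (d * v.1, d' * v.2)) := by
    rintro ⟨x, y⟩ ⟨x', y'⟩ h
    simp only [Prod.mk.injEq] at h
    exact Prod.ext (Nat.eq_of_mul_eq_mul_left hd h.1) (Nat.eq_of_mul_eq_mul_left hd' h.2)
  rw [← hinj.hasSum_iff]
  · convert hg using 1
    funext v
    simp only [Function.comp]
    rw [if_pos ⟨Dvd.intro _ rfl, Dvd.intro _ rfl⟩, Nat.mul_div_cancel_left _ hd,
      Nat.mul_div_cancel_left _ hd']
  · rintro ⟨x, y⟩ hv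
    simp only
    rw [if_neg]
    rintro ⟨⟨c, hc⟩, ⟨c', hc'⟩⟩
    apply hv
    exact ⟨(c, c'), by simp only [hc, hc']⟩

theorem k13_T_peel {k : ℕ} {a : ℕ → ℝ} (H : HData k a) {m p : ℕ} (hp : p.Prime) (hpm : ¬ p ∣ m)
    (A B : ℕ) (l : ℤ) (Y Y' : ℝ) (v : ℕ × ℕ) :
    k13_T a (m * p) A B l Y Y' v = ∑ j : Fin 3, ∑ j' : Fin 3, k13_c k a p j * k13_c k a p j' *
      (if p ^ (j : ℕ) ∣ v.1 ∧ p ^ (j' : ℕ) ∣ v.2 then
        k13_T a m (A * p ^ (j : ℕ)) (B * p ^ (j' : ℕ)) l Y Y'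
          (v.1 / p ^ (j : ℕ), v.2 / p ^ (j' : ℕ)) else 0) := by
  have e : ∀ j j' : Fin 3, (if p ^ (j : ℕ) ∣ v.1 ∧ p ^ (j' : ℕ) ∣ v.2 then
        k13_T a m (A * p ^ (j : ℕ)) (B * p ^ (j' : ℕ)) l Y Y'
          (v.1 / p ^ (j : ℕ), v.2 / p ^ (j' : ℕ)) else 0) =
      if ((v.1 * A : ℕ) : ℤ) - ((v.2 * B : ℕ) : ℤ) = l then
        (if p ^ (j : ℕ) ∣ v.1 then am a m (v.1 / p ^ (j : ℕ)) else 0) *
        (if p ^ (j' : ℕ) ∣ v.2 then am a m (v.2 / p ^ (j' : ℕ)) else 0) *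
          Real.exp (-2 * Real.pi * (v.1 * A * Y + v.2 * B * Y')) else 0 := by
    intro j j'
    by_cases h1 : p ^ (j : ℕ) ∣ v.1
    · by_cases h2 : p ^ (j' : ℕ) ∣ v.2
      · rw [if_pos ⟨h1, h2⟩, if_pos h1, if_pos h2]
        obtain ⟨x, hx⟩ := h1
        obtain ⟨y, hy⟩ := h2
        have hpj : 0 < p ^ (j : ℕ) := pow_pos hp.pos _
        have hpj' : 0 < p ^ (j' : ℕ) := pow_pos hp.pos _
        unfold k13_T
        rw [hx, hy, Nat.mul_div_cancel_left _ hpj, Nat.mul_div_cancel_left _ hpj']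
        simp only
        have e1 : x * (A * p ^ (j : ℕ)) = p ^ (j : ℕ) * x * A := by ring
        have e2 : y * (B * p ^ (j' : ℕ)) = p ^ (j' : ℕ) * y * B := by ring
        rw [e1, e2]
        have e3 : ((x : ℝ) * ((A * p ^ (j : ℕ) : ℕ) : ℝ) * Y +
            (y : ℝ) * ((B * p ^ (j' : ℕ) : ℕ) : ℝ) * Y') =
            (((p ^ (j : ℕ) * x : ℕ) : ℝ) * A * Y + ((p ^ (j' : ℕ) * y : ℕ) : ℝ) * B * Y') := by
          push_cast; ring
        rw [e3]
      · rw [if_neg (fun h => h2 h.2), if_neg h2]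
        simp
    · rw [if_neg (fun h => h1 h.1), if_neg h1]
      simp
  simp_rw [e]
  unfold k13_T
  by_cases hl : ((v.1 * A : ℕ) : ℤ) - ((v.2 * B : ℕ) : ℤ) = l
  · simp_rw [if_pos hl]
    rw [k13_peel H hp hpm, k13_peel H hp hpm v.2, Finset.sum_mul_sum, Finset.sum_mul]
    refine Finset.sum_congr rfl fun j _ => ?_
    rw [Finset.sum_mul]
    refine Finset.sum_congr rfl fun j' _ => ?_
    ring
  · simp_rw [if_neg hl]
    simp

theorem k13_step {k : ℕ} {a : ℕ → ℝ} (H : HData k a) {m p : ℕ} (hp : p.Prime) (hpm : ¬ p ∣ m)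
    {A B : ℕ} (hA : 0 < A) (hB : 0 < B) (l : ℤ) {Y Y' : ℝ} (hY : 0 < Y) (hY' : 0 < Y') :
    KK k a (m * p) A B l Y Y' = ∑ j : Fin 3, ∑ j' : Fin 3,
      (k13_c k a p j * ((p ^ (j : ℕ) : ℕ) : ℝ) ^ (-((k : ℝ) / 2))) *
      (k13_c k a p j' * ((p ^ (j' : ℕ) : ℕ) : ℝ) ^ (-((k : ℝ) / 2))) *
        KK k a m (A * p ^ (j : ℕ)) (B * p ^ (j' : ℕ)) l Y Y' := by
  have hsum : ∀ j j' : Fin 3, HasSum (fun v : ℕ × ℕ => k13_c k a p j * k13_c k a p j' *
      (if p ^ (j : ℕ) ∣ v.1 ∧ p ^ (j' : ℕ) ∣ v.2 then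
        k13_T a m (A * p ^ (j : ℕ)) (B * p ^ (j' : ℕ)) l Y Y'
          (v.1 / p ^ (j : ℕ), v.2 / p ^ (j' : ℕ)) else 0))
      (k13_c k a p j * k13_c k a p j' *
        ∑' v, k13_T a m (A * p ^ (j : ℕ)) (B * p ^ (j' : ℕ)) l Y Y' v) := by
    intro j j'
    have hpj : 0 < p ^ (j : ℕ) := pow_pos hp.pos _
    have hpj' : 0 < p ^ (j' : ℕ) := pow_pos hp.pos _
    have hs : Summable (k13_T a m (A * p ^ (j : ℕ)) (B * p ^ (j' : ℕ)) l Y Y') :=
      KK_summable H (Nat.mul_pos hA hpj) (Nat.mul_pos hB hpj') l hY hY'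
    exact (k13_hasSum hs.hasSum hpj hpj').mul_left _
  have htot : HasSum (k13_T a (m * p) A B l Y Y') (∑ j : Fin 3, ∑ j' : Fin 3,
      k13_c k a p j * k13_c k a p j' *
        ∑' v, k13_T a m (A * p ^ (j : ℕ)) (B * p ^ (j' : ℕ)) l Y Y' v) := by
    have h1 := hasSum_sum (s := (Finset.univ : Finset (Fin 3))) (fun j _ =>
      hasSum_sum (s := (Finset.univ : Finset (Fin 3))) (fun j' _ => hsum j j'))
    convert h1 using 1
    funext v
    exact k13_T_peel H hp hpm A B l Y Y' v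
  rw [k13_KK, htot.tsum_eq, Finset.mul_sum]
  refine Finset.sum_congr rfl fun j _ => ?_
  rw [Finset.mul_sum]
  refine Finset.sum_congr rfl fun j' _ => ?_
  rw [k13_KK]
  have hP : (0 : ℝ) < ((p ^ (j : ℕ) : ℕ) : ℝ) := by exact_mod_cast pow_pos hp.pos _
  have hP' : (0 : ℝ) < ((p ^ (j' : ℕ) : ℕ) : ℝ) := by exact_mod_cast pow_pos hp.pos _
  set P : ℝ := ((p ^ (j : ℕ) : ℕ) : ℝ) with hPdef
  set P' : ℝ := ((p ^ (j' : ℕ) : ℕ) : ℝ) with hPdef'
  have hA' : (0 : ℝ) < A := by exact_mod_cast hA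
  have hB' : (0 : ℝ) < B := by exact_mod_cast hB
  have e1 : (((A * p ^ (j : ℕ) * (B * p ^ (j' : ℕ)) : ℕ) : ℝ) * (Y * Y')) =
      (((A * B : ℕ) : ℝ) * (Y * Y')) * (P * P') := by
    rw [hPdef, hPdef']
    push_cast
    ring
  have hX : (0 : ℝ) ≤ ((A * B : ℕ) : ℝ) * (Y * Y') := by positivity
  rw [e1, Real.mul_rpow (x := ((A * B : ℕ) : ℝ) * (Y * Y')) (y := P * P') hX (by positivity),
    Real.mul_rpow hP.le hP'.le, Real.rpow_neg hP.le, Real.rpow_neg hP'.le]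
  have h2 : P ^ ((k : ℝ) / 2) ≠ 0 := (Real.rpow_pos_of_pos hP _).ne'
  have h3 : P' ^ ((k : ℝ) / 2) ≠ 0 := (Real.rpow_pos_of_pos hP' _).ne'
  field_simp

/-- the sum of the local coefficients -/
theorem k13_local {k : ℕ} {a : ℕ → ℝ} (H : HData k a) {p : ℕ} (hp : p.Prime) :
    ∑ j : Fin 3, |k13_c k a p j * ((p ^ (j : ℕ) : ℕ) : ℝ) ^ (-((k : ℝ) / 2))| ≤ (p : ℝ) ^ 2 := by
  have hp0 : (0 : ℝ) < p := by exact_mod_cast hp.pos
  have hp2 : (2 : ℝ) ≤ p := by exact_mod_cast hp.two_le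
  have h1 := (abs_ap_lt H hp).le
  rw [Fin.sum_univ_three]
  simp only [k13_c, Fin.val_zero, pow_zero, Fin.val_one, pow_one,
    Fin.val_two, Matrix.cons_val_zero, Matrix.cons_val_one]
  simp only [Matrix.cons_val, Nat.cast_one, Real.one_rpow, mul_one, abs_one]
  have hx : 0 < (p : ℝ) ^ (-((k : ℝ) / 2)) := Real.rpow_pos_of_pos hp0 _
  have e1 : |(-a p) * (p : ℝ) ^ (-((k : ℝ) / 2))| ≤ 1 + 1 / p := by
    rw [abs_mul, abs_neg, abs_of_pos hx]
    calc |a p| * (p : ℝ) ^ (-((k : ℝ) / 2)) ≤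
        ((p : ℝ) ^ ((k : ℝ) / 2) + (p : ℝ) ^ ((k : ℝ) / 2 - 1)) * (p : ℝ) ^ (-((k : ℝ) / 2)) :=
          mul_le_mul_of_nonneg_right h1 hx.le
      _ = 1 + 1 / p := by
          rw [add_mul, ← Real.rpow_add hp0, ← Real.rpow_add hp0]
          have e2 : (k : ℝ) / 2 + -((k : ℝ) / 2) = 0 := by ring
          have e3 : (k : ℝ) / 2 - 1 + -((k : ℝ) / 2) = -1 := by ring
          rw [e2, e3, Real.rpow_zero, Real.rpow_neg_one, one_div]
  have e2 : |(p : ℝ) ^ (k - 1) * ((p ^ 2 : ℕ) : ℝ) ^ (-((k : ℝ) / 2))| = 1 / p := by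
    rw [abs_of_nonneg (by positivity)]
    rw [Nat.cast_pow, ← Real.rpow_natCast, ← Real.rpow_natCast, ← Real.rpow_mul hp0.le,
      ← Real.rpow_add hp0, one_div, ← Real.rpow_neg_one]
    congr 1
    rw [Nat.cast_sub H.kpos]
    push_cast
    ring
  rw [e2]
  have e3 : 1 / (p : ℝ) ≤ 1 / 2 := by
    apply one_div_le_one_div_of_le <;> linarith
  nlinarith

/-- passing from an indexed family to a finite set -/
theorem k13_collect {ι : Type} [Fintype ι] (e : ι → ℕ) (c : ι → ℝ) (M : ℕ) (R : ℝ)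
    (he : ∀ i, 0 < e i ∧ e i ≤ M) (hc : ∑ i, |c i| ≤ R) :
    ∃ (T : Finset ℕ) (c' : ℕ → ℝ), (∀ e ∈ T, 0 < e ∧ e ≤ M) ∧ ∑ e ∈ T, |c' e| ≤ R ∧
      ∀ F : ℕ → ℕ → ℝ, ∑ i, ∑ i', c i * c i' * F (e i) (e i') =
        ∑ x ∈ T, ∑ y ∈ T, c' x * c' y * F x y := by
  classical
  refine ⟨Finset.univ.image e, fun x => ∑ i ∈ Finset.univ.filter (fun i => e i = x), c i,
    ?_, ?_, ?_⟩
  · intro x hx
    obtain ⟨i, _, rfl⟩ := Finset.mem_image.mp hx
    exact he i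
  · refine le_trans ?_ hc
    rw [← Finset.sum_fiberwise_of_maps_to (s := Finset.univ) (t := Finset.univ.image e) (g := e)
      (fun i _ => Finset.mem_image_of_mem e (Finset.mem_univ i))]
    exact Finset.sum_le_sum fun x _ => Finset.abs_sum_le_sum_abs _ _
  · intro F
    have h1 : ∀ G : ℕ → ℝ, ∑ i, c i * G (e i) = ∑ x ∈ Finset.univ.image e,
        (∑ i ∈ Finset.univ.filter (fun i => e i = x), c i) * G x := by
      intro G
      rw [← Finset.sum_fiberwise_of_maps_to (s := Finset.univ) (t := Finset.univ.image e) (g := e)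
        (fun i _ => Finset.mem_image_of_mem e (Finset.mem_univ i))]
      refine Finset.sum_congr rfl fun x _ => ?_
      rw [Finset.sum_mul]
      refine Finset.sum_congr rfl fun i hi => ?_
      rw [(Finset.mem_filter.mp hi).2]
    have h2 : ∀ i, ∑ i', c i * c i' * F (e i) (e i') =
        c i * ∑ y ∈ Finset.univ.image e,
          (∑ i' ∈ Finset.univ.filter (fun i' => e i' = y), c i') * F (e i) y := by
      intro i
      rw [← h1 (fun y => F (e i) y), Finset.mul_sum]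
      refine Finset.sum_congr rfl fun i' _ => ?_
      ring
    simp_rw [h2]
    rw [h1 (fun x => ∑ y ∈ Finset.univ.image e,
          (∑ i' ∈ Finset.univ.filter (fun i' => e i' = y), c i') * F x y)]
    refine Finset.sum_congr rfl fun x _ => ?_
    rw [Finset.mul_sum]
    refine Finset.sum_congr rfl fun y _ => ?_
    ring

theorem k13_ind {k : ℕ} {a : ℕ → ℝ} (H : HData k a) (S : Finset ℕ) (hS : ∀ p ∈ S, p.Prime) :
    ∃ (ι : Type) (_ : Fintype ι) (e : ι → ℕ) (c : ι → ℝ),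
      (∀ i, 0 < e i ∧ e i ≤ (∏ p ∈ S, p) ^ 2) ∧ ∑ i, |c i| ≤ ((∏ p ∈ S, p : ℕ) : ℝ) ^ 2 ∧
      ∀ (A B : ℕ) (l : ℤ) (Y Y' : ℝ), 0 < A → 0 < B → 0 < Y → 0 < Y' →
        KK k a (∏ p ∈ S, p) A B l Y Y' = ∑ i, ∑ i', c i * c i' *
          KK k a 1 (A * e i) (B * e i') l Y Y' := by
  classical
  induction S using Finset.induction_on with
  | empty =>
    refine ⟨Unit, inferInstance, fun _ => 1, fun _ => 1, by simp, by simp, ?_⟩
    intro A B l Y Y' _ _ _ _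
    simp
  | insert p S hpS ih =>
    obtain ⟨ι, _, e, c, he, hc, hK⟩ := ih (fun x hx => hS x (Finset.mem_insert_of_mem hx))
    have hp : p.Prime := hS p (Finset.mem_insert_self _ _)
    have hpm : ¬ p ∣ ∏ x ∈ S, x := by
      intro h
      obtain ⟨x, hx, hpx⟩ := (Prime.dvd_finsetProd_iff hp.prime _).mp h
      have := (Nat.prime_dvd_prime_iff_eq hp (hS x (Finset.mem_insert_of_mem hx))).mp hpx
      exact hpS (this ▸ hx)
    have hprod : ∏ x ∈ insert p S, x = (∏ x ∈ S, x) * p := by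
      rw [Finset.prod_insert hpS, mul_comm]
    refine ⟨ι × Fin 3, inferInstance, fun i => p ^ (i.2 : ℕ) * e i.1,
      fun i => c i.1 * (k13_c k a p i.2 * ((p ^ (i.2 : ℕ) : ℕ) : ℝ) ^ (-((k : ℝ) / 2))),
      ?_, ?_, ?_⟩
    · rintro ⟨i, j⟩
      refine ⟨Nat.mul_pos (pow_pos hp.pos _) (he i).1, ?_⟩
      simp only
      rw [hprod, mul_pow, mul_comm]
      apply Nat.mul_le_mul (he i).2
      exact Nat.pow_le_pow_right hp.pos (by have := j.2; omega)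
    · rw [hprod, Fintype.sum_prod_type]
      simp only
      simp_rw [abs_mul (c _), ← Finset.mul_sum]
      rw [← Finset.sum_mul, Nat.cast_mul, mul_pow]
      exact mul_le_mul hc (k13_local H hp) (Finset.sum_nonneg fun _ _ => abs_nonneg _)
        (by positivity)
    · intro A B l Y Y' hA hB hY hY'
      rw [hprod, k13_step H hp hpm hA hB l hY hY']
      have h1 : ∀ j j' : Fin 3, KK k a (∏ x ∈ S, x) (A * p ^ (j : ℕ)) (B * p ^ (j' : ℕ)) l Y Y' =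
          ∑ i, ∑ i', c i * c i' * KK k a 1 (A * (p ^ (j : ℕ) * e i)) (B * (p ^ (j' : ℕ) * e i'))
            l Y Y' := by
        intro j j'
        rw [hK _ _ l Y Y' (Nat.mul_pos hA (pow_pos hp.pos _)) (Nat.mul_pos hB (pow_pos hp.pos _))
          hY hY']
        simp_rw [mul_assoc A, mul_assoc B]
      simp_rw [h1, Fintype.sum_prod_type, Finset.mul_sum]
      -- reorder the sums
      rw [Finset.sum_comm (s := (Finset.univ : Finset ι)) (t := (Finset.univ : Finset (Fin 3)))]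
      refine Finset.sum_congr rfl fun j _ => ?_
      rw [Finset.sum_comm]
      refine Finset.sum_congr rfl fun i _ => ?_
      rw [Finset.sum_comm]
      refine Finset.sum_congr rfl fun i' _ => ?_
      refine Finset.sum_congr rfl fun j' _ => ?_
      ring

/-- block K13 -/
theorem KK_exp_pr {k : ℕ} {a : ℕ → ℝ} (H : HData k a) : ∃ E : ℝ, 0 < E ∧ ∀ m : ℕ, 0 < m →
    ∃ (T : Finset ℕ) (c : ℕ → ℝ), (∀ e ∈ T, 0 < e ∧ e ≤ m ^ 2) ∧
      ∑ e ∈ T, |c e| ≤ (m : ℝ) ^ E ∧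
      ∀ (A B : ℕ) (l : ℤ) (Y Y' : ℝ), 0 < A → 0 < B → 0 < Y → 0 < Y' →
        KK k a m A B l Y Y' = ∑ e ∈ T, ∑ e' ∈ T, c e * c e' *
          KK k a 1 (A * e) (B * e') l Y Y' := by
  refine ⟨2, by norm_num, ?_⟩
  intro m hm
  obtain ⟨ι, _, e, c, he, hc, hK⟩ := k13_ind H m.primeFactors
    (fun p hp => Nat.prime_of_mem_primeFactors hp)
  have hle : ∏ p ∈ m.primeFactors, p ≤ m := Nat.le_of_dvd hm (Nat.prod_primeFactors_dvd m)
  have hle' : ((∏ p ∈ m.primeFactors, p : ℕ) : ℝ) ≤ m := by exact_mod_cast hle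
  have hR : ∑ i, |c i| ≤ (m : ℝ) ^ (2 : ℝ) := by
    refine hc.trans ?_
    rw [Real.rpow_two]
    exact pow_le_pow_left₀ (Nat.cast_nonneg _) hle' 2
  obtain ⟨T, c', hT, hc', hF⟩ := k13_collect e c (m ^ 2) _
    (fun i => ⟨(he i).1, (he i).2.trans (Nat.pow_le_pow_left hle 2)⟩) hR
  refine ⟨T, c', hT, hc', ?_⟩
  intro A B l Y Y' hA hB hY hY'
  have ham : ∀ n, am a m n = am a (∏ p ∈ m.primeFactors, p) n := by
    intro n
    unfold am
    have : n.Coprime m ↔ n.Coprime (∏ p ∈ m.primeFactors, p) := by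
      rw [Nat.coprime_prod_right_iff]
      constructor
      · intro h p hp
        exact Nat.Coprime.coprime_dvd_right (Nat.dvd_of_mem_primeFactors hp) h
      · intro h
        rw [Nat.coprime_comm]
        apply Nat.coprime_of_dvd
        intro p hp hpm hpn
        have h2 := h p (Nat.mem_primeFactors.mpr ⟨hp, hpm, hm.ne'⟩)
        rw [Nat.coprime_comm, hp.coprime_iff_not_dvd] at h2
        exact h2 hpn
    simp only [this]
  have hKK : KK k a m A B l Y Y' = KK k a (∏ p ∈ m.primeFactors, p) A B l Y Y' := by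
    unfold KK
    simp_rw [ham]
  rw [hKK, hK A B l Y Y' hA hB hY hY', hF (fun x y => KK k a 1 (A * x) (B * y) l Y Y')]

theorem KK_exp : type_of% @KK_exp_pr := @KK_exp_pr

end Pool.Agent.SEL
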