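import Pool.Agent.Lib_helper68.SEL.Defs
import Pool.Agent.Lib_helper68.SEL.K10
import Pool.Agent.Lib_helper68.SEL.K11
import Pool.Agent.Lib_helper68.SEL.K12
import Pool.Agent.Lib_helper68.SEL.K13
import Pool.Agent.Lib_helper68.SEL.K8E

/-! Block K15 (KKN) of SEL: the limit of the diagonal. -/

namespace Pool.Agent.SEL

open Complex MeasureTheory Filter Topology Pool.Agent.GL2

theorem k15_G2_int {k : ℕ} {a : ℕ → ℝ} (H : HData k a) {A B : ℕ} (hA : 0 < A) (hB : 0 < B)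
    {y : ℝ} (hy : 0 < y) :
    ∫ x in (0 : ℝ)..1, G2 k a A B 1 (x + y * I) = ((KK k a 1 A B 0 y y : ℝ) : ℂ) := by
  have h := KK_int H hA hB (ρ := 1) one_pos 0 hy
  rw [one_mul] at h
  rw [← h]
  congr 1
  funext x
  simp

/-- the pointwise estimate from the averages -/
theorem k15_point {K : ℝ → ℝ} (hc : ContinuousOn K (Set.Ioi 0)) {C M D : ℝ} (hC : 0 ≤ C)
    (hlip : ∀ y t : ℝ, 0 < y → 0 ≤ t → t ≤ 1 → |K (Real.exp t * y) - K y| ≤ C * t)
    (hav : ∀ y₁ y₂ : ℝ, 0 < y₁ → y₁ ≤ 1 → y₁ ≤ y₂ →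
      |(∫ y in y₁..y₂, K y / y ^ 2) - D * (1 / y₁ - 1 / y₂)| ≤ M * y₁ ^ (-(3 / 4) : ℝ))
    {Y : ℝ} (hY : 0 < Y) (hY1 : Y ≤ 1) : |K Y - D| ≤ (C + 2 * M) * Y ^ (1 / 8 : ℝ) := by
  set η : ℝ := Y ^ (1 / 8 : ℝ) with hη
  have hη0 : 0 < η := Real.rpow_pos_of_pos hY _
  have hη1 : η ≤ 1 := Real.rpow_le_one hY.le hY1 (by norm_num)
  set y₂ : ℝ := Real.exp η * Y with hy₂
  have hy₂0 : 0 < y₂ := by positivity
  have hle : Y ≤ y₂ := by
    have : 1 ≤ Real.exp η := Real.one_le_exp hη0.le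
    nlinarith
  have hsub : Set.uIcc Y y₂ ⊆ Set.Ioi 0 := by
    rw [Set.uIcc_of_le hle]
    intro y hy
    exact lt_of_lt_of_le hY hy.1
  have hint1 : IntervalIntegrable (fun y => K y / y ^ 2) volume Y y₂ := by
    apply ContinuousOn.intervalIntegrable
    apply ContinuousOn.div (hc.mono hsub) (by fun_prop)
    intro y hy
    have : 0 < y := hsub hy
    positivity
  have hint2 : IntervalIntegrable (fun y : ℝ => 1 / y ^ 2) volume Y y₂ := by
    apply ContinuousOn.intervalIntegrable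
    apply ContinuousOn.div (by fun_prop) (by fun_prop)
    intro y hy
    have : 0 < y := hsub hy
    positivity
  have hI : ∫ y in Y..y₂, 1 / y ^ 2 = 1 / Y - 1 / y₂ := by
    have h1 : ∀ y ∈ Set.uIcc Y y₂, HasDerivAt (fun y : ℝ => -y⁻¹) (1 / y ^ 2) y := by
      intro y hy
      have hy0 : y ≠ 0 := (hsub hy : (0 : ℝ) < y).ne'
      have h2 := (hasDerivAt_inv hy0).neg
      rw [neg_neg, ← one_div] at h2
      exact h2
    rw [intervalIntegral.integral_eq_sub_of_hasDerivAt h1 hint2]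
    simp only [one_div]
    ring
  -- the difference with the constant
  have h1 : |(∫ y in Y..y₂, K y / y ^ 2) - K Y * (1 / Y - 1 / y₂)| ≤
      C * η * (1 / Y - 1 / y₂) := by
    rw [← hI, ← intervalIntegral.integral_const_mul, ← intervalIntegral.integral_sub hint1
      (hint2.const_mul _), ← intervalIntegral.integral_const_mul]
    refine (intervalIntegral.abs_integral_le_integral_abs hle).trans ?_
    apply intervalIntegral.integral_mono_on hle
    · exact (hint1.sub (hint2.const_mul _)).abs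
    · exact hint2.const_mul _
    · intro y hy
      have hy0 : 0 < y := lt_of_lt_of_le hY hy.1
      have e1 : K y / y ^ 2 - K Y * (1 / y ^ 2) = (K y - K Y) * (1 / y ^ 2) := by ring
      rw [e1, abs_mul, abs_of_pos (by positivity : (0 : ℝ) < 1 / y ^ 2)]
      apply mul_le_mul_of_nonneg_right _ (by positivity)
      set t : ℝ := Real.log (y / Y) with ht
      have hyY : 1 ≤ y / Y := by rw [le_div_iff₀ hY]; linarith [hy.1]
      have ht0 : 0 ≤ t := Real.log_nonneg hyY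
      have htη : t ≤ η := by
        rw [ht, Real.log_le_iff_le_exp (by positivity), div_le_iff₀ hY]
        exact hy.2
      have e2 : y = Real.exp t * Y := by
        rw [ht, Real.exp_log (by positivity)]
        field_simp
      have h2 := hlip Y t hY ht0 (htη.trans hη1)
      rw [← e2] at h2
      exact h2.trans (mul_le_mul_of_nonneg_left htη hC)
  have h2 := hav Y y₂ hY hY1 hle
  have hdelta : η / (2 * Y) ≤ 1 / Y - 1 / y₂ := by
    have e1 : 1 / Y - 1 / y₂ = (1 - Real.exp (-η)) / Y := by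
      rw [hy₂, Real.exp_neg]
      field_simp
    rw [e1]
    have h3 : Real.exp (-η) ≤ 1 - η / 2 := by
      have h4 : (1 + η) ≤ Real.exp η := by linarith [Real.add_one_le_exp η]
      rw [Real.exp_neg]
      rw [inv_le_comm₀ (Real.exp_pos _) (by linarith)]
      refine le_trans ?_ h4
      rw [inv_le_comm₀ (by linarith) (by linarith)]
      rw [inv_le_iff_one_le_mul₀ (by linarith)]
      nlinarith
    rw [div_le_div_iff₀ (by positivity) hY]
    nlinarith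
  have hd0 : 0 < 1 / Y - 1 / y₂ := lt_of_lt_of_le (by positivity) hdelta
  have h3 : |K Y - D| * (1 / Y - 1 / y₂) ≤ C * η * (1 / Y - 1 / y₂) + M * Y ^ (-(3 / 4) : ℝ) := by
    have e1 : |K Y - D| * (1 / Y - 1 / y₂) = |(K Y - D) * (1 / Y - 1 / y₂)| := by
      rw [abs_mul, abs_of_pos hd0]
    rw [e1]
    have e2 : (K Y - D) * (1 / Y - 1 / y₂) = -((∫ y in Y..y₂, K y / y ^ 2) - K Y * (1 / Y - 1 / y₂))
        + ((∫ y in Y..y₂, K y / y ^ 2) - D * (1 / Y - 1 / y₂)) := by ring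
    rw [e2]
    refine (abs_add_le _ _).trans ?_
    rw [abs_neg]
    exact add_le_add h1 h2
  have hM : 0 ≤ M := by
    have h4 := (abs_nonneg _).trans h2
    exact nonneg_of_mul_nonneg_left h4 (Real.rpow_pos_of_pos hY _)
  have h4 : |K Y - D| ≤ C * η + M * Y ^ (-(3 / 4) : ℝ) / (1 / Y - 1 / y₂) := by
    have h6 : |K Y - D| ≤ (C * η * (1 / Y - 1 / y₂) + M * Y ^ (-(3 / 4) : ℝ)) /
        (1 / Y - 1 / y₂) := by
      rw [le_div_iff₀ hd0]
      exact h3
    rwa [add_div, mul_div_assoc, div_self hd0.ne', mul_one] at h6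
  have h5 : M * Y ^ (-(3 / 4) : ℝ) / (1 / Y - 1 / y₂) ≤ 2 * M * η := by
    calc M * Y ^ (-(3 / 4) : ℝ) / (1 / Y - 1 / y₂) ≤ M * Y ^ (-(3 / 4) : ℝ) / (η / (2 * Y)) := by
          gcongr
      _ = 2 * M * (Y ^ (-(3 / 4) : ℝ) * Y / η) := by field_simp
      _ = 2 * M * η := by
          congr 1
          have e1 : Y ^ (-(3 / 4) : ℝ) * Y = η * η := by
            rw [hη, ← Real.rpow_add hY]
            nth_rewrite 2 [← Real.rpow_one Y]
            rw [← Real.rpow_add hY]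
            norm_num
          rw [e1]
          field_simp
  calc |K Y - D| ≤ _ := h4
    _ ≤ C * η + 2 * M * η := by linarith
    _ = _ := by ring

theorem k15_one {k : ℕ} {a : ℕ → ℝ} (H : HData k a) : ∃ C E : ℝ, 0 < C ∧ 0 < E ∧
    ∀ (A B : ℕ), 0 < A → 0 < B → ∃ D : ℝ, ∀ Y : ℝ, 0 < Y → Y ≤ 1 →
      |KK k a 1 A B 0 Y Y - D| ≤ C * ((A : ℝ) * B) ^ E * Y ^ (1 / 10 : ℝ) := by
  obtain ⟨C₁, E₁, hC₁, hE₁, heq⟩ := equi_pow
  obtain ⟨K, E₂, c₁, hK, hE₂, hc₁, _, hU⟩ := uinv_G2 H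
  obtain ⟨C₃, hC₃, hlip⟩ := KK_lip H
  refine ⟨C₃ + 2 * (C₁ * K * (1 + 1 / c₁) ^ E₁), E₂ + 2 * E₁, by positivity, by positivity, ?_⟩
  intro A B hA hB
  have hA' : (1 : ℝ) ≤ A := by exact_mod_cast hA
  have hB' : (1 : ℝ) ≤ B := by exact_mod_cast hB
  have hAB : (1 : ℝ) ≤ (A : ℝ) * B := by nlinarith
  have hAB0 : (0 : ℝ) < (A : ℝ) * B := by linarith
  obtain ⟨D, hD⟩ := heq (A * B) (K * ((A : ℝ) * B) ^ E₂) (c₁ / (A * B)) (G2 k a A B 1)
    (Nat.mul_pos hA hB) (by positivity) (hU A B hA hB)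
  refine ⟨D.re, ?_⟩
  intro Y hY hY1
  have hcont : ContinuousOn (fun y : ℝ => KK k a 1 A B 0 y y) (Set.Ioi 0) := by
    have h1 := KK_cont H (m := 1) hA hB 0
    exact h1.comp (f := fun y : ℝ => (y, y)) (by fun_prop) (fun y hy => ⟨hy, hy⟩)
  set M : ℝ := C₁ * (K * ((A : ℝ) * B) ^ E₂) *
    (((A * B : ℕ) : ℝ) * (1 + 1 / (c₁ / (A * B)))) ^ E₁ with hM
  have hav : ∀ y₁ y₂ : ℝ, 0 < y₁ → y₁ ≤ 1 → y₁ ≤ y₂ →
      |(∫ y in y₁..y₂, KK k a 1 A B 0 y y / y ^ 2) - D.re * (1 / y₁ - 1 / y₂)| ≤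
        M * y₁ ^ (-(3 / 4) : ℝ) := by
    intro y₁ y₂ h1 h2 h3
    have h4 := hD y₁ y₂ h1 h2 h3
    have e1 : ∫ y in y₁..y₂, (∫ x in (0 : ℝ)..1, G2 k a A B 1 (x + y * I)) / (y : ℂ) ^ 2 =
        ((∫ y in y₁..y₂, KK k a 1 A B 0 y y / y ^ 2 : ℝ) : ℂ) := by
      rw [← intervalIntegral.integral_ofReal]
      apply intervalIntegral.integral_congr
      intro y hy
      rw [Set.uIcc_of_le h3] at hy
      have hy0 : 0 < y := lt_of_lt_of_le h1 hy.1
      simp only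
      rw [k15_G2_int H hA hB hy0]
      push_cast
      rfl
    rw [e1] at h4
    refine le_trans ?_ h4
    refine le_trans (le_of_eq ?_) (Complex.abs_re_le_norm _)
    rw [Complex.sub_re, Complex.ofReal_re, Complex.mul_re, Complex.ofReal_re, Complex.ofReal_im,
      mul_zero, sub_zero]
  have h5 := k15_point hcont hC₃.le
    (fun y t hy ht0 ht1 => hlip 1 A B 0 y y t hA hB hy hy ht0 ht1) hav hY hY1
  refine h5.trans ?_
  have e2 : Y ^ (1 / 8 : ℝ) ≤ Y ^ (1 / 10 : ℝ) :=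
    Real.rpow_le_rpow_of_exponent_ge hY hY1 (by norm_num)
  have e3 : C₃ + 2 * M ≤ (C₃ + 2 * (C₁ * K * (1 + 1 / c₁) ^ E₁)) *
      ((A : ℝ) * B) ^ (E₂ + 2 * E₁) := by
    have h6 : (((A * B : ℕ) : ℝ) * (1 + 1 / (c₁ / (A * B)))) ≤
        ((A : ℝ) * B) ^ (2 : ℝ) * (1 + 1 / c₁) := by
      rw [Real.rpow_two]
      push_cast
      have e4 : 1 + 1 / (c₁ / ((A : ℝ) * B)) = 1 + (1 / c₁) * ((A : ℝ) * B) := by
        field_simp
      rw [e4]
      have h7 : 0 < 1 / c₁ := by positivity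
      nlinarith [mul_nonneg hAB0.le (by linarith : (0 : ℝ) ≤ (A : ℝ) * B - 1)]
    have h8 : (((A * B : ℕ) : ℝ) * (1 + 1 / (c₁ / (A * B)))) ^ E₁ ≤
        ((A : ℝ) * B) ^ (2 * E₁) * (1 + 1 / c₁) ^ E₁ := by
      refine (Real.rpow_le_rpow (by positivity) h6 hE₁.le).trans (le_of_eq ?_)
      rw [Real.mul_rpow (by positivity) (by positivity), ← Real.rpow_mul hAB0.le]
    have h9 : M ≤ C₁ * K * (1 + 1 / c₁) ^ E₁ * ((A : ℝ) * B) ^ (E₂ + 2 * E₁) := by
      rw [hM, Real.rpow_add hAB0]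
      calc _ ≤ C₁ * (K * ((A : ℝ) * B) ^ E₂) *
            (((A : ℝ) * B) ^ (2 * E₁) * (1 + 1 / c₁) ^ E₁) := by gcongr
        _ = _ := by ring
    have h10 : 1 ≤ ((A : ℝ) * B) ^ (E₂ + 2 * E₁) := Real.one_le_rpow hAB (by positivity)
    nlinarith
  have hnn : 0 ≤ C₃ + 2 * M := by
    rw [hM]; positivity
  calc (C₃ + 2 * M) * Y ^ (1 / 8 : ℝ) ≤ (C₃ + 2 * M) * Y ^ (1 / 10 : ℝ) :=
        mul_le_mul_of_nonneg_left e2 hnn
    _ ≤ _ := mul_le_mul_of_nonneg_right e3 (by positivity)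

/-- block K15 -/
theorem KK_near_pr {k : ℕ} {a : ℕ → ℝ} (H : HData k a) : ∃ C E : ℝ, 0 < C ∧ 0 < E ∧
    ∀ (m A B : ℕ) (Y : ℝ), 0 < m → 0 < A → 0 < B → 0 < Y → Y ≤ 1 →
      |KK k a m A B 0 Y Y - D0 k a m A B| ≤
        C * ((m : ℝ) * A * B) ^ E * Y ^ (1 / 10 : ℝ) := by
  obtain ⟨C, E, hC, hE, h1⟩ := k15_one H
  obtain ⟨E', hE', h2⟩ := KK_exp H
  refine ⟨C, 4 * E + 2 * E', hC, by positivity, ?_⟩
  intro m A B Y hm hA hB hY hY1
  obtain ⟨T, c, hT, hc, hK⟩ := h2 m hm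
  choose! D hD using h1
  have hA' : (1 : ℝ) ≤ A := by exact_mod_cast hA
  have hB' : (1 : ℝ) ≤ B := by exact_mod_cast hB
  have hm' : (1 : ℝ) ≤ m := by exact_mod_cast hm
  set L : ℝ := ∑ e ∈ T, ∑ e' ∈ T, c e * c e' * D (A * e) (B * e') with hL
  have hbd : ∀ y : ℝ, 0 < y → y ≤ 1 → |KK k a m A B 0 y y - L| ≤
      C * ((m : ℝ) * A * B) ^ (4 * E + 2 * E') * y ^ (1 / 10 : ℝ) := by
    intro y hy hy1
    rw [hK A B 0 y y hA hB hy hy, hL, ← Finset.sum_sub_distrib]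
    simp_rw [← Finset.sum_sub_distrib, ← mul_sub]
    set X : ℝ := C * ((m : ℝ) * A * B) ^ (4 * E) * y ^ (1 / 10 : ℝ) with hX
    have hX0 : 0 ≤ X := by positivity
    have h3 : ∀ e ∈ T, ∀ e' ∈ T, |c e * c e' * (KK k a 1 (A * e) (B * e') 0 y y -
        D (A * e) (B * e'))| ≤ |c e| * |c e'| * X := by
      intro e he e' he'
      rw [abs_mul, abs_mul]
      apply mul_le_mul_of_nonneg_left _ (by positivity)
      obtain ⟨he0, he1⟩ := hT e he
      obtain ⟨he0', he1'⟩ := hT e' he'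
      refine (hD (A * e) (B * e') (Nat.mul_pos hA he0) (Nat.mul_pos hB he0') y hy hy1).trans ?_
      rw [hX]
      have h4 : (((A * e : ℕ) : ℝ) * ((B * e' : ℕ) : ℝ)) ≤ ((m : ℝ) * A * B) ^ (4 : ℝ) := by
        have e5 : (e : ℝ) ≤ (m : ℝ) ^ 2 := by exact_mod_cast he1
        have e6 : (e' : ℝ) ≤ (m : ℝ) ^ 2 := by exact_mod_cast he1'
        have e7 : (A : ℝ) ≤ (A : ℝ) ^ 4 := le_self_pow₀ hA' (by norm_num)
        have e8 : (B : ℝ) ≤ (B : ℝ) ^ 4 := le_self_pow₀ hB' (by norm_num)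
        have e9 : ((m : ℝ) * A * B) ^ (4 : ℝ) = ((A : ℝ) ^ 4 * (m : ℝ) ^ 2) *
            ((B : ℝ) ^ 4 * (m : ℝ) ^ 2) := by
          rw [show (4 : ℝ) = ((4 : ℕ) : ℝ) by norm_num, Real.rpow_natCast]
          ring
        rw [e9]
        push_cast
        apply mul_le_mul
        · exact mul_le_mul e7 e5 (by positivity) (by positivity)
        · exact mul_le_mul e8 e6 (by positivity) (by positivity)
        · positivity
        · positivity
      have h5 : (((A * e : ℕ) : ℝ) * ((B * e' : ℕ) : ℝ)) ^ E ≤ ((m : ℝ) * A * B) ^ (4 * E) := by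
        rw [Real.rpow_mul (by positivity)]
        exact Real.rpow_le_rpow (by positivity) h4 hE.le
      gcongr
    calc |∑ e ∈ T, ∑ e' ∈ T, c e * c e' * (KK k a 1 (A * e) (B * e') 0 y y -
        D (A * e) (B * e'))| ≤ ∑ e ∈ T, ∑ e' ∈ T, |c e| * |c e'| * X := by
          refine (Finset.abs_sum_le_sum_abs _ _).trans (Finset.sum_le_sum fun e he => ?_)
          exact (Finset.abs_sum_le_sum_abs _ _).trans (Finset.sum_le_sum fun e' he' => h3 e he e' he')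
      _ = (∑ e ∈ T, |c e|) * (∑ e ∈ T, |c e|) * X := by
          rw [Finset.sum_mul_sum, Finset.sum_mul]
          simp_rw [Finset.sum_mul]
      _ ≤ ((m : ℝ) ^ E' * (m : ℝ) ^ E') * X := by
          apply mul_le_mul_of_nonneg_right _ hX0
          exact mul_le_mul hc hc (Finset.sum_nonneg fun _ _ => abs_nonneg _) (by positivity)
      _ ≤ (((m : ℝ) * A * B) ^ E' * ((m : ℝ) * A * B) ^ E') * X := by
          have h6 : (m : ℝ) ≤ (m : ℝ) * A * B := by
            have : (m : ℝ) * 1 * 1 ≤ (m : ℝ) * A * B := by gcongr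
            linarith
          gcongr
      _ = _ := by
          rw [hX, Real.rpow_add (by positivity), two_mul E', Real.rpow_add (by positivity)]
          ring
  have hlim : Tendsto (fun y : ℝ => KK k a m A B 0 y y) (𝓝[>] 0) (𝓝 L) := by
    rw [tendsto_iff_norm_sub_tendsto_zero]
    have h3 : Tendsto (fun y : ℝ => C * ((m : ℝ) * A * B) ^ (4 * E + 2 * E') * y ^ (1 / 10 : ℝ))
        (𝓝[>] 0) (𝓝 0) := by
      have h4 : Tendsto (fun y : ℝ => y ^ (1 / 10 : ℝ)) (𝓝[>] 0) (𝓝 0) := by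
        have h5 := (Real.continuous_rpow_const (q := (1 / 10 : ℝ)) (by norm_num)).tendsto 0
        rw [Real.zero_rpow (by norm_num)] at h5
        exact h5.mono_left nhdsWithin_le_nhds
      have h6 := h4.const_mul (C * ((m : ℝ) * A * B) ^ (4 * E + 2 * E'))
      rwa [mul_zero] at h6
    apply squeeze_zero' _ _ h3
    · exact Eventually.of_forall fun y => norm_nonneg _
    · have h7 : ∀ᶠ y : ℝ in 𝓝[>] 0, 0 < y ∧ y ≤ 1 := by
        have h8 : Set.Ioc (0 : ℝ) 1 ∈ 𝓝[>] (0 : ℝ) := Ioc_mem_nhdsGT one_pos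
        filter_upwards [h8] with y hy using hy
      filter_upwards [h7] with y hy
      rw [Real.norm_eq_abs]
      exact hbd y hy.1 hy.2
  have hD0 : D0 k a m A B = L := hlim.limUnder_eq
  rw [hD0]
  exact hbd Y hY hY1

theorem KK_near : type_of% @KK_near_pr := @KK_near_pr

end Pool.Agent.SEL
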