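import Pool.Agent.Lib_helper68.SEL.Defs
import Pool.Agent.Lib_helper68.SEL.D1
import Pool.Agent.Lib_helper68.SEL.K15

namespace Pool.Agent.SEL

open Complex MeasureTheory Filter Topology Pool.Agent.GL2

/-- the common counting estimate: a double sum over `[1,N)²` -/
theorem sel_d2_sum {N : ℕ} {Z : ℝ} (hN : (N : ℝ) ≤ Z) (F : ℕ → ℕ → ℝ) {B : ℝ}
    (hF : ∀ x ∈ Finset.Ico 1 N, ∀ y ∈ Finset.Ico 1 N, |F x y| ≤ B) (hB : 0 ≤ B) :
    |∑ x ∈ Finset.Ico 1 N, ∑ y ∈ Finset.Ico 1 N, F x y| ≤ Z ^ 2 * B := by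
  have hZ : 0 ≤ Z := (Nat.cast_nonneg N).trans hN
  have hc : ((Finset.Ico 1 N).card : ℝ) ≤ Z := by
    refine le_trans ?_ hN
    rw [Nat.card_Ico]
    exact_mod_cast Nat.sub_le _ _
  calc |∑ x ∈ Finset.Ico 1 N, ∑ y ∈ Finset.Ico 1 N, F x y|
      ≤ ∑ x ∈ Finset.Ico 1 N, |∑ y ∈ Finset.Ico 1 N, F x y| := Finset.abs_sum_le_sum_abs _ _
    _ ≤ ∑ x ∈ Finset.Ico 1 N, (Z * B) := by
        refine Finset.sum_le_sum fun x hx => ?_
        calc |∑ y ∈ Finset.Ico 1 N, F x y| ≤ ∑ y ∈ Finset.Ico 1 N, |F x y| :=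
              Finset.abs_sum_le_sum_abs _ _
          _ ≤ ∑ y ∈ Finset.Ico 1 N, B := Finset.sum_le_sum fun y hy => hF x hx y hy
          _ = (Finset.Ico 1 N).card * B := by rw [Finset.sum_const, nsmul_eq_mul]
          _ ≤ Z * B := mul_le_mul_of_nonneg_right hc hB
    _ = (Finset.Ico 1 N).card * (Z * B) := by rw [Finset.sum_const, nsmul_eq_mul]
    _ ≤ Z * (Z * B) := mul_le_mul_of_nonneg_right hc (mul_nonneg hZ hB)
    _ = Z ^ 2 * B := by ring

theorem sel_d2_sqrt {A : ℕ} (hA : 1 ≤ A) : 1 ≤ √(A : ℝ) := by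
  rw [Real.one_le_sqrt]
  exact_mod_cast hA

theorem DU_near_pr {k : ℕ} {a : ℕ → ℝ} (H : HData k a) (D : ℝ) : ∃ C E : ℝ, 0 < C ∧ 0 < E ∧
    ∀ (L : ℝ) (m N : ℕ) (u : ArithmeticFunction ℝ), 1 ≤ L → 0 < m → (m : ℝ) ≤ Real.exp (D * L) →
      (N : ℝ) ≤ Real.exp (D * L) → (∀ A : ℕ, |u A| ≤ Real.exp (D * L)) →
      ∀ y : ℝ, 0 < y → y ≤ 1 → |DU k a m u N y - QU k a m u N| ≤
        C * Real.exp (E * L) * y ^ (1 / 10 : ℝ) := by
  obtain ⟨C, E, hC, hE, hKK⟩ := KK_near H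
  set D' := max D 0 with hD'
  have hD'0 : 0 ≤ D' := le_max_right _ _
  refine ⟨C, 4 * D' + 3 * D' * E + 1, hC, by positivity, ?_⟩
  intro L m N u hL hm hmD hND huD y hy hy1
  have hL0 : 0 < L := by linarith
  have hle : Real.exp (D * L) ≤ Real.exp (D' * L) :=
    Real.exp_le_exp.2 (mul_le_mul_of_nonneg_right (le_max_left _ _) hL0.le)
  set Z := Real.exp (D' * L) with hZ
  have hZ1 : 1 ≤ Z := Real.one_le_exp (by positivity)
  have hZ0 : 0 < Z := by positivity
  have hm' := hmD.trans hle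
  have hN' := hND.trans hle
  have hu' := fun A => (huD A).trans hle
  have hdiff : DU k a m u N y - QU k a m u N = ∑ A ∈ Finset.Ico 1 N, ∑ B ∈ Finset.Ico 1 N,
      u A * u B / (√A * √B) * (KK k a m A B 0 y y - D0 k a m A B) := by
    unfold DU QU
    rw [← Finset.sum_sub_distrib]
    refine Finset.sum_congr rfl fun A _ => ?_
    rw [← Finset.sum_sub_distrib]
    refine Finset.sum_congr rfl fun B _ => ?_
    ring
  rw [hdiff]
  have hyp : 0 ≤ y ^ (1 / 10 : ℝ) := by positivity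
  have key : ∀ A ∈ Finset.Ico 1 N, ∀ B ∈ Finset.Ico 1 N,
      |u A * u B / (√A * √B) * (KK k a m A B 0 y y - D0 k a m A B)| ≤
        Z ^ 2 * (C * (Z ^ 3) ^ E * y ^ (1 / 10 : ℝ)) := by
    intro A hA B hB
    rw [Finset.mem_Ico] at hA hB
    have h1 : |u A * u B / (√A * √B)| ≤ Z ^ 2 := by
      rw [abs_div, abs_mul, abs_of_pos (show 0 < √(A : ℝ) * √(B : ℝ) by
        have := sel_d2_sqrt hA.1
        have := sel_d2_sqrt hB.1
        positivity)]
      have h2 : 1 ≤ √(A : ℝ) * √(B : ℝ) := by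
        have := sel_d2_sqrt hA.1
        have := sel_d2_sqrt hB.1
        nlinarith
      calc |u A| * |u B| / (√A * √B) ≤ |u A| * |u B| := div_le_self (by positivity) h2
        _ ≤ Z * Z := mul_le_mul (hu' A) (hu' B) (abs_nonneg _) hZ0.le
        _ = Z ^ 2 := by ring
    have h3 := hKK m A B y hm (by omega) (by omega) hy hy1
    have h4 : ((m : ℝ) * A * B) ^ E ≤ (Z ^ 3) ^ E := by
      refine Real.rpow_le_rpow (by positivity) ?_ hE.le
      have hA' : (A : ℝ) ≤ Z := le_trans (by exact_mod_cast hA.2.le) hN'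
      have hB' : (B : ℝ) ≤ Z := le_trans (by exact_mod_cast hB.2.le) hN'
      calc (m : ℝ) * A * B ≤ Z * Z * Z := by
            refine mul_le_mul (mul_le_mul hm' hA' (by positivity) hZ0.le) hB' (by positivity)
              (by positivity)
        _ = Z ^ 3 := by ring
    rw [abs_mul]
    refine mul_le_mul h1 (h3.trans ?_) (abs_nonneg _) (by positivity)
    exact mul_le_mul_of_nonneg_right (mul_le_mul_of_nonneg_left h4 hC.le) hyp
  refine (sel_d2_sum hN' _ key (by positivity)).trans ?_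
  have e1 : (Z ^ 3) ^ E = Real.exp (3 * D' * E * L) := by
    rw [hZ, ← Real.exp_nat_mul, ← Real.exp_mul]
    congr 1
    push_cast
    ring
  have e2 : Z ^ 2 * (Z ^ 2 * (C * (Z ^ 3) ^ E * y ^ (1 / 10 : ℝ))) =
      C * Real.exp ((4 * D' + 3 * D' * E) * L) * y ^ (1 / 10 : ℝ) := by
    rw [e1]
    have : Z ^ 2 * Z ^ 2 * Real.exp (3 * D' * E * L) = Real.exp ((4 * D' + 3 * D' * E) * L) := by
      rw [hZ, ← Real.exp_nat_mul, ← Real.exp_add, ← Real.exp_add]
      congr 1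
      push_cast
      ring
    rw [← this]
    ring
  rw [e2]
  refine mul_le_mul_of_nonneg_right (mul_le_mul_of_nonneg_left (Real.exp_le_exp.2 ?_) hC.le) hyp
  nlinarith

theorem sel_d2_nonneg {k : ℕ} {a : ℕ → ℝ} (H : HData k a) (m : ℕ) (u : ArithmeticFunction ℝ)
    (N : ℕ) (hu : ∀ A : ℕ, N ≤ A → u A = 0) {y : ℝ} (hy : 0 < y) : 0 ≤ DU k a m u N y :=
  (DU_hasSum H m u N hu hy).nonneg fun M => by positivity

theorem QU_le_pr {k : ℕ} {a : ℕ → ℝ} (H : HData k a) (D : ℝ) : ∃ C : ℝ, 0 < C ∧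
    ∀ (L : ℝ) (m N : ℕ) (u : ArithmeticFunction ℝ), 1 ≤ L → 0 < m → (m : ℝ) ≤ Real.exp (D * L) →
      (N : ℝ) ≤ Real.exp (D * L) → (∀ A : ℕ, |u A| ≤ Real.exp (D * L)) →
      (∀ A : ℕ, N ≤ A → u A = 0) → ∀ R : ℝ,
      (∀ X : ℕ, ∑ M ∈ Finset.Ico 1 X, ((lamA k a m * u) M) ^ 2 * (M : ℝ) ^ (-1 - 1 / L) ≤ R) →
      QU k a m u N ≤ C / L * (R + 1) := by
  obtain ⟨C, E, hC, hE, hnear⟩ := DU_near_pr H D
  -- bound of the Gamma factor
  obtain ⟨G, hG, hGam⟩ : ∃ G : ℝ, 0 < G ∧ ∀ s : ℝ, 0 < s → s ≤ 1 →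
      Real.Gamma (k + s) * (4 * Real.pi) ^ (-(k + s) : ℝ) ≤ G := by
    have hkpos : 0 < (k : ℝ) := by exact_mod_cast H.kpos
    have hcont : ContinuousOn (fun s : ℝ => Real.Gamma (k + s)) (Set.Icc 0 1) := by
      intro s hs
      refine ContinuousAt.continuousWithinAt ?_
      refine ContinuousAt.comp (g := Real.Gamma) (f := fun s : ℝ => (k : ℝ) + s) ?_ (by fun_prop)
      refine (Real.differentiableAt_Gamma fun n => ?_).continuousAt
      have : (0 : ℝ) ≤ n := Nat.cast_nonneg n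
      have := hs.1
      linarith
    obtain ⟨B, hB⟩ := isCompact_Icc.exists_bound_of_continuousOn hcont
    refine ⟨max B 1, by positivity, fun s hs0 hs1 => ?_⟩
    have h1 := hB s ⟨hs0.le, hs1⟩
    rw [Real.norm_eq_abs] at h1
    have h2 : (4 * Real.pi) ^ (-(k + s) : ℝ) ≤ 1 := by
      refine Real.rpow_le_one_of_one_le_of_nonpos ?_ (by linarith)
      have := Real.pi_gt_three
      linarith
    have h3 : 0 ≤ (4 * Real.pi) ^ (-(k + s) : ℝ) := by positivity
    calc Real.Gamma (k + s) * (4 * Real.pi) ^ (-(k + s) : ℝ)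
        ≤ max B 1 * 1 := by
          refine mul_le_mul (((le_abs_self _).trans h1).trans (le_max_left _ _)) h2 h3
            (by positivity)
      _ = max B 1 := mul_one _
  refine ⟨Real.exp (10 * E) * (G + 10 * C), by positivity, ?_⟩
  intro L m N u hL hm hmD hND huD hu R hR
  have hL0 : 0 < L := by linarith
  have hR0 : 0 ≤ R := by simpa using hR 0
  set s : ℝ := 1 / L with hs
  have hs0 : 0 < s := by positivity
  have hs1 : s ≤ 1 := by rw [hs, div_le_one hL0]; exact hL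
  obtain ⟨hsum, hint, heq⟩ := DU_mellin H m u N hu hs0
  set y₀ : ℝ := Real.exp (-(10 * E * L)) with hy₀
  have hy₀0 : 0 < y₀ := Real.exp_pos _
  have hy₀1 : y₀ ≤ 1 := Real.exp_le_one_iff.2 (by nlinarith [mul_pos hE hL0])
  have hDUnn : ∀ y : ℝ, 0 < y → 0 ≤ DU k a m u N y := fun y hy => sel_d2_nonneg H m u N hu hy
  -- upper bound
  have hts : ∑' M : ℕ, ((lamA k a m * u) M) ^ 2 * (M : ℝ) ^ (-1 - s) ≤ R := by
    refine Real.tsum_le_of_sum_range_le (fun M => by positivity) fun X => ?_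
    rcases Nat.eq_zero_or_pos X with rfl | hX
    · simpa using hR0
    · rw [Finset.range_eq_Ico, Finset.sum_eq_sum_Ico_succ_bot hX]
      have : ((lamA k a m * u) 0) ^ 2 * ((0 : ℕ) : ℝ) ^ (-1 - s) = 0 := by simp
      rw [this, zero_add]
      exact hR X
  have htsnn : 0 ≤ ∑' M : ℕ, ((lamA k a m * u) M) ^ 2 * (M : ℝ) ^ (-1 - s) :=
    tsum_nonneg fun M => by positivity
  have hup : ∫ y in Set.Ioi (0 : ℝ), DU k a m u N y * y ^ (s - 1) ≤ G * R := by
    rw [heq]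
    exact mul_le_mul (hGam s hs0 hs1) hts htsnn hG.le
  -- lower bound
  have hmono : ∫ y in Set.Ioc (0 : ℝ) y₀, DU k a m u N y * y ^ (s - 1) ≤
      ∫ y in Set.Ioi (0 : ℝ), DU k a m u N y * y ^ (s - 1) := by
    refine setIntegral_mono_set hint ?_ (Set.Ioc_subset_Ioi_self).eventuallyLE
    refine (ae_restrict_mem measurableSet_Ioi).mono fun y hy => ?_
    exact mul_nonneg (hDUnn y hy) (Real.rpow_nonneg (le_of_lt hy) _)
  set K : ℝ := C * Real.exp (E * L) with hK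
  have hi1 : IntervalIntegrable (fun y : ℝ => y ^ (s - 1)) volume 0 y₀ :=
    intervalIntegral.intervalIntegrable_rpow' (by linarith)
  have hi2 : IntervalIntegrable (fun y : ℝ => y ^ (s - 1 + 1 / 10)) volume 0 y₀ :=
    intervalIntegral.intervalIntegrable_rpow' (by linarith)
  have hi1' : IntegrableOn (fun y : ℝ => y ^ (s - 1)) (Set.Ioc 0 y₀) :=
    (intervalIntegrable_iff_integrableOn_Ioc_of_le hy₀0.le).1 hi1
  have hi2' : IntegrableOn (fun y : ℝ => y ^ (s - 1 + 1 / 10)) (Set.Ioc 0 y₀) :=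
    (intervalIntegrable_iff_integrableOn_Ioc_of_le hy₀0.le).1 hi2
  have hlow : ∫ y in Set.Ioc (0 : ℝ) y₀, (QU k a m u N * y ^ (s - 1) - K * y ^ (s - 1 + 1 / 10)) ≤
      ∫ y in Set.Ioc (0 : ℝ) y₀, DU k a m u N y * y ^ (s - 1) := by
    refine setIntegral_mono_on ((hi1'.const_mul _).sub (hi2'.const_mul _))
      (hint.mono_set Set.Ioc_subset_Ioi_self) measurableSet_Ioc ?_
    intro y hy
    have h1 := hnear L m N u hL hm hmD hND huD y hy.1 (hy.2.trans hy₀1)
    have h2 := (abs_le.1 h1).1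
    have h3 : 0 < y ^ (s - 1) := Real.rpow_pos_of_pos hy.1 _
    have h4 : y ^ (s - 1 + 1 / 10) = y ^ (s - 1) * y ^ (1 / 10 : ℝ) := Real.rpow_add hy.1 _ _
    rw [h4]
    nlinarith
  have hcalc : ∫ y in Set.Ioc (0 : ℝ) y₀,
      (QU k a m u N * y ^ (s - 1) - K * y ^ (s - 1 + 1 / 10)) =
      QU k a m u N * (y₀ ^ s / s) - K * (y₀ ^ (s + 1 / 10) / (s + 1 / 10)) := by
    rw [integral_sub (hi1'.const_mul _) (hi2'.const_mul _), integral_const_mul,
      integral_const_mul, ← intervalIntegral.integral_of_le hy₀0.le,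
      ← intervalIntegral.integral_of_le hy₀0.le,
      integral_rpow (Or.inl (by linarith)), integral_rpow (Or.inl (by linarith))]
    have e1 : s - 1 + 1 = s := by ring
    have e2 : s - 1 + 1 / 10 + 1 = s + 1 / 10 := by ring
    rw [e1, e2, Real.zero_rpow hs0.ne', Real.zero_rpow (by positivity), sub_zero, sub_zero]
  have hy₀s : y₀ ^ s = Real.exp (-(10 * E)) := by
    rw [hy₀, ← Real.exp_mul]
    congr 1
    rw [hs]
    field_simp
  have hy₀t : y₀ ^ (s + 1 / 10) = Real.exp (-(10 * E)) * Real.exp (-(E * L)) := by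
    rw [Real.rpow_add hy₀0, hy₀s, hy₀, ← Real.exp_mul]
    congr 2
    ring
  have hfin : QU k a m u N * (Real.exp (-(10 * E)) * L) ≤ G * R + 10 * C := by
    have h1 : QU k a m u N * (y₀ ^ s / s) - K * (y₀ ^ (s + 1 / 10) / (s + 1 / 10)) ≤ G * R := by
      rw [← hcalc]
      exact hlow.trans (hmono.trans hup)
    have h2 : y₀ ^ s / s = Real.exp (-(10 * E)) * L := by
      rw [hy₀s, hs]
      field_simp
    have h3 : K * (y₀ ^ (s + 1 / 10) / (s + 1 / 10)) ≤ 10 * C := by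
      have e1 : K * (y₀ ^ (s + 1 / 10) / (s + 1 / 10)) =
          C * Real.exp (-(10 * E)) / (s + 1 / 10) := by
        rw [hy₀t, hK]
        have : Real.exp (E * L) * Real.exp (-(E * L)) = 1 := by
          rw [← Real.exp_add]; simp
        calc C * Real.exp (E * L) * (Real.exp (-(10 * E)) * Real.exp (-(E * L)) / (s + 1 / 10))
            = C * Real.exp (-(10 * E)) * (Real.exp (E * L) * Real.exp (-(E * L))) /
                (s + 1 / 10) := by ring
          _ = _ := by rw [this, mul_one]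
      rw [e1, div_le_iff₀ (by positivity)]
      have e2 : Real.exp (-(10 * E)) ≤ 1 := Real.exp_le_one_iff.2 (by linarith)
      nlinarith [mul_pos hC hs0]
    rw [h2] at h1
    linarith
  have hexp : Real.exp (10 * E) * Real.exp (-(10 * E)) = 1 := by
    rw [← Real.exp_add]; simp
  have h5 : QU k a m u N * L ≤ Real.exp (10 * E) * (G * R + 10 * C) := by
    calc QU k a m u N * L = Real.exp (10 * E) * Real.exp (-(10 * E)) * (QU k a m u N * L) := by
          rw [hexp, one_mul]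
      _ = Real.exp (10 * E) * (QU k a m u N * (Real.exp (-(10 * E)) * L)) := by ring
      _ ≤ _ := mul_le_mul_of_nonneg_left hfin (Real.exp_pos _).le
  have h6 : G * R + 10 * C ≤ (G + 10 * C) * (R + 1) := by
    nlinarith [mul_nonneg hC.le hR0]
  rw [div_mul_eq_mul_div, le_div_iff₀ hL0]
  refine h5.trans ?_
  calc Real.exp (10 * E) * (G * R + 10 * C) ≤ Real.exp (10 * E) * ((G + 10 * C) * (R + 1)) :=
        mul_le_mul_of_nonneg_left h6 (Real.exp_pos _).le
    _ = _ := by ring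

theorem DU_near : type_of% @DU_near_pr := @DU_near_pr
theorem QU_le : type_of% @QU_le_pr := @QU_le_pr

end Pool.Agent.SEL
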