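import Pool.Agent.Lib_helper68.SEL.Defs
import Pool.Agent.Lib_helper8.SEL.DQ

/-! SEL block D3 (DGP): the form `Diag`. -/

namespace Pool.Agent.SEL

open Complex MeasureTheory Filter Topology Pool.Agent.GL2

theorem sel_d3_sum {k : ℕ} {a : ℕ → ℝ} (H : HData k a) (m : ℕ) {y : ℝ} (hy : 0 < y) (c : ℝ) :
    Summable fun n : ℕ => |c * (am a m n * Real.exp (-2 * Real.pi * n * y))| := by
  have h1 := (summable_a_pr H (y := 2 * Real.pi * y) (by positivity)).mul_left |c|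
  refine Summable.of_nonneg_of_le (fun n => abs_nonneg _) (fun n => ?_) h1
  rw [abs_mul, abs_mul, Real.abs_exp]
  refine mul_le_mul_of_nonneg_left ?_ (abs_nonneg _)
  rw [show -2 * Real.pi * (n : ℝ) * y = -(2 * Real.pi * y) * n by ring]
  exact mul_le_mul_of_nonneg_right (sel_k11_am_le a m n) (Real.exp_pos _).le

theorem sel_d3_JJ {N q : ℕ} {j : ℕ × ℕ} (hj : j ∈ JJ N q) : 0 < j.1 ∧ 0 < j.2 ∧ j.2 < N := by
  unfold JJ at hj
  rw [Finset.mem_filter, Finset.mem_product, Finset.mem_Ico, Finset.mem_Ico] at hj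
  exact ⟨hj.1.1.1, hj.1.2.1, hj.1.2.2⟩

theorem Diag_nonneg_pr {k : ℕ} {a : ℕ → ℝ} (H : HData k a) (q₀ q : ℕ) (β : ℕ → ℝ) (N : ℕ) {y : ℝ}
    (hy : 0 < y) : 0 ≤ Diag k a q₀ q β N y := by
  set T : ℕ := N.factorial with hT
  have hT0 : 0 < T := Nat.factorial_pos N
  set f : ℕ × ℕ → ℕ → ℝ := fun j n => cc β j * (j.1 * (y / j.2)) ^ ((k : ℝ) / 2) *
    (am a q₀ n * Real.exp (-2 * Real.pi * n * (j.1 * (y / j.2)))) with hf
  have hdvd : ∀ j ∈ JJ N q, j.2 ∣ T := by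
    intro j hj
    obtain ⟨_, h2, h3⟩ := sel_d3_JJ hj
    exact Nat.dvd_factorial h2 h3.le
  have hq := sel_dq_quad (JJ N q) (fun j => j.1 * (T / j.2)) (fun j hj => by
      obtain ⟨h1, h2, h3⟩ := sel_d3_JJ hj
      exact Nat.mul_pos h1 (Nat.div_pos (Nat.le_of_dvd hT0 (hdvd j hj)) h2)) f
    (fun j hj => by
      obtain ⟨h1, h2, h3⟩ := sel_d3_JJ hj
      have h1' : (0 : ℝ) < j.1 := by exact_mod_cast h1
      have h2' : (0 : ℝ) < j.2 := by exact_mod_cast h2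
      exact sel_d3_sum H q₀ (y := j.1 * (y / j.2)) (by positivity) _)
  have hD : ∑ j ∈ JJ N q, ∑ j' ∈ JJ N q, (∑' v : ℕ × ℕ,
      if v.1 * (j.1 * (T / j.2)) = v.2 * (j'.1 * (T / j'.2)) then f j v.1 * f j' v.2 else 0) =
      Diag k a q₀ q β N y := by
    unfold Diag
    refine Finset.sum_congr rfl fun j hj => Finset.sum_congr rfl fun j' hj' => ?_
    obtain ⟨h1, h2, _⟩ := sel_d3_JJ hj
    obtain ⟨h1', h2', _⟩ := sel_d3_JJ hj'
    have g1 : (0 : ℝ) < j.1 := by exact_mod_cast h1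
    have g2 : (0 : ℝ) < j.2 := by exact_mod_cast h2
    have g1' : (0 : ℝ) < j'.1 := by exact_mod_cast h1'
    have g2' : (0 : ℝ) < j'.2 := by exact_mod_cast h2'
    obtain ⟨t, ht⟩ := hdvd j hj
    obtain ⟨t', ht'⟩ := hdvd j' hj'
    have e1 : T / j.2 = t := by rw [ht, Nat.mul_div_cancel_left _ h2]
    have e1' : T / j'.2 = t' := by rw [ht', Nat.mul_div_cancel_left _ h2']
    have ht0 : 0 < t := Nat.pos_of_mul_pos_left (ht ▸ hT0)
    rw [e1, e1']
    unfold KK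
    have hpow : (((j.1 * j'.2 * (j'.1 * j.2) : ℕ) : ℝ) *
        (y / (j.2 * j'.2) * (y / (j.2 * j'.2)))) ^ ((k : ℝ) / 2) =
        (j.1 * (y / j.2)) ^ ((k : ℝ) / 2) * (j'.1 * (y / j'.2)) ^ ((k : ℝ) / 2) := by
      rw [← Real.mul_rpow (by positivity) (by positivity)]
      congr 1
      push_cast
      field_simp
    rw [hpow, ← tsum_mul_left, ← tsum_mul_left]
    refine tsum_congr fun v => ?_
    have hiff : v.1 * (j.1 * t) = v.2 * (j'.1 * t') ↔
        ((v.1 * (j.1 * j'.2) : ℕ) : ℤ) - ((v.2 * (j'.1 * j.2) : ℕ) : ℤ) = 0 := by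
      have hTT : j.2 * t = j'.2 * t' := by rw [← ht, ← ht']
      constructor
      · intro h
        have h3 : v.1 * (j.1 * j'.2) * T = v.2 * (j'.1 * j.2) * T := by
          calc v.1 * (j.1 * j'.2) * T = v.1 * (j.1 * t) * (j.2 * j'.2) := by rw [ht]; ring
            _ = v.2 * (j'.1 * t') * (j.2 * j'.2) := by rw [h]
            _ = v.2 * (j'.1 * j.2) * T := by rw [ht']; ring
        have h4 := Nat.eq_of_mul_eq_mul_right hT0 h3
        rw [h4, sub_self]
      · intro h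
        have h4 : v.1 * (j.1 * j'.2) = v.2 * (j'.1 * j.2) := by
          have : ((v.1 * (j.1 * j'.2) : ℕ) : ℤ) = ((v.2 * (j'.1 * j.2) : ℕ) : ℤ) := by linarith
          exact_mod_cast this
        have h5 : v.1 * (j.1 * t) * (j.2 * j'.2) = v.2 * (j'.1 * t') * (j.2 * j'.2) := by
          calc v.1 * (j.1 * t) * (j.2 * j'.2) = v.1 * (j.1 * j'.2) * (j.2 * t) := by ring
            _ = v.2 * (j'.1 * j.2) * (j'.2 * t') := by rw [h4, hTT]
            _ = v.2 * (j'.1 * t') * (j.2 * j'.2) := by ring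
        exact Nat.eq_of_mul_eq_mul_right (Nat.mul_pos h2 h2') h5
    by_cases h : v.1 * (j.1 * t) = v.2 * (j'.1 * t')
    · rw [if_pos h, if_pos (hiff.1 h)]
      simp only [hf]
      have e2 : Real.exp (-2 * Real.pi * (v.1 * ((j.1 * j'.2 : ℕ) : ℝ) * (y / (j.2 * j'.2)) +
          v.2 * ((j'.1 * j.2 : ℕ) : ℝ) * (y / (j.2 * j'.2)))) =
          Real.exp (-2 * Real.pi * v.1 * (j.1 * (y / j.2))) *
            Real.exp (-2 * Real.pi * v.2 * (j'.1 * (y / j'.2))) := by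
        rw [← Real.exp_add]
        congr 1
        push_cast
        field_simp
        ring
      rw [e2]
      ring
    · rw [if_neg h, if_neg (fun h' => h (hiff.2 h')), mul_zero, mul_zero]
  rw [← hD]
  exact hq.nonneg fun R => sq_nonneg _

theorem Diag_cont_pr {k : ℕ} {a : ℕ → ℝ} (H : HData k a) (q₀ q : ℕ) (β : ℕ → ℝ) (N : ℕ) :
    ContinuousOn (Diag k a q₀ q β N) (Set.Ioi 0) := by
  unfold Diag
  refine continuousOn_finsetSum _ fun j hj => continuousOn_finsetSum _ fun j' hj' => ?_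
  refine continuousOn_const.mul ?_
  obtain ⟨h1, h2, _⟩ := sel_d3_JJ hj
  obtain ⟨h1', h2', _⟩ := sel_d3_JJ hj'
  have g2 : (0 : ℝ) < j.2 := by exact_mod_cast h2
  have g2' : (0 : ℝ) < j'.2 := by exact_mod_cast h2'
  have h3 := KK_cont_pr H (m := q₀) (Nat.mul_pos h1 h2') (Nat.mul_pos h1' h2) 0
  refine h3.comp (f := fun y : ℝ => ((y / (j.2 * j'.2), y / (j.2 * j'.2)) : ℝ × ℝ)) (by fun_prop)
    (fun y hy => ?_)
  have hy' : (0 : ℝ) < y := hy
  exact ⟨by simp only; positivity, by simp only; positivity⟩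

theorem Diag_nonneg : type_of% @Diag_nonneg_pr := @Diag_nonneg_pr
theorem Diag_cont : type_of% @Diag_cont_pr := @Diag_cont_pr

end Pool.Agent.SEL
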