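import Pool.Agent.Lib_helper68.SEL.Defs
import Pool.Agent.Lib_helper68.SEL.K12
import Pool.Agent.Lib_helper68.SEL.K15

namespace Pool.Agent.SEL

open Complex MeasureTheory Filter Topology Pool.Agent.GL2

/-! ### Dirichlet convolution as a sum over pairs -/

theorem sel_d4_conv {N : ℕ} (b b' : ArithmeticFunction ℝ) (hb : ∀ n : ℕ, N ≤ n → b n = 0)
    (hb' : ∀ n : ℕ, N ≤ n → b' n = 0) (f : ℕ → ℝ) :
    ∑ A ∈ Finset.Ico 1 (N ^ 2), (b * b') A * f A =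
      ∑ v ∈ Finset.Ico 1 N ×ˢ Finset.Ico 1 N, b v.1 * b' v.2 * f (v.1 * v.2) := by
  have hmaps : ∀ v ∈ Finset.Ico 1 N ×ˢ Finset.Ico 1 N, v.1 * v.2 ∈ Finset.Ico 1 (N ^ 2) := by
    intro v hv
    rw [Finset.mem_product, Finset.mem_Ico, Finset.mem_Ico] at hv
    obtain ⟨⟨h1, h2⟩, h3, h4⟩ := hv
    rw [Finset.mem_Ico]
    refine ⟨Nat.mul_pos h1 h3, ?_⟩
    rw [pow_two]
    exact Nat.mul_lt_mul'' h2 h4
  rw [← Finset.sum_fiberwise_of_maps_to hmaps]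
  refine Finset.sum_congr rfl fun A hA => ?_
  rw [ArithmeticFunction.mul_apply, Finset.sum_mul]
  symm
  rw [Finset.mem_Ico] at hA
  have hsub : (Finset.Ico 1 N ×ˢ Finset.Ico 1 N).filter (fun v : ℕ × ℕ => v.1 * v.2 = A) ⊆
      A.divisorsAntidiagonal := by
    intro v hv
    rw [Finset.mem_filter] at hv
    rw [Nat.mem_divisorsAntidiagonal]
    exact ⟨hv.2, by omega⟩
  have h1 : ∑ v ∈ (Finset.Ico 1 N ×ˢ Finset.Ico 1 N).filter (fun v : ℕ × ℕ => v.1 * v.2 = A),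
      b v.1 * b' v.2 * f (v.1 * v.2) =
      ∑ v ∈ (Finset.Ico 1 N ×ˢ Finset.Ico 1 N).filter (fun v : ℕ × ℕ => v.1 * v.2 = A),
      b v.1 * b' v.2 * f A := by
    refine Finset.sum_congr rfl fun v hv => ?_
    rw [(Finset.mem_filter.1 hv).2]
  rw [h1]
  refine Finset.sum_subset hsub ?_
  intro v hv hv'
  rw [Nat.mem_divisorsAntidiagonal] at hv
  have h2 : v.1 ≠ 0 := by
    intro h
    rw [h, zero_mul] at hv
    exact hv.2 hv.1.symm
  have h3 : v.2 ≠ 0 := by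
    intro h
    rw [h, mul_zero] at hv
    exact hv.2 hv.1.symm
  have h4 : N ≤ v.1 ∨ N ≤ v.2 := by
    by_contra hcon
    push Not at hcon
    refine hv' ?_
    rw [Finset.mem_filter, Finset.mem_product, Finset.mem_Ico, Finset.mem_Ico]
    exact ⟨⟨⟨by omega, hcon.1⟩, by omega, hcon.2⟩, hv.1⟩
  rcases h4 with h4 | h4
  · rw [hb _ h4]; ring
  · rw [hb' _ h4]; ring

/-- sums over `JJ` of functions which vanish off the coprime pairs -/
theorem sel_d4_JJ {N q : ℕ} (g : ℕ × ℕ → ℝ)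
    (h : ∀ j : ℕ × ℕ, ¬ (j.1.Coprime q ∧ j.2.Coprime q) → g j = 0) :
    ∑ j ∈ JJ N q, g j = ∑ j ∈ Finset.Ico 1 N ×ˢ Finset.Ico 1 N, g j := by
  unfold JJ
  refine Finset.sum_subset (Finset.filter_subset _ _) ?_
  intro j hj hj'
  refine h j fun hcop => hj' ?_
  rw [Finset.mem_filter]
  exact ⟨hj, hcop⟩

/-- the double sum over `A`, `B` -/
theorem sel_d4_conv2 {N q : ℕ} (b b' : ArithmeticFunction ℝ) (hb : ∀ n : ℕ, N ≤ n → b n = 0)
    (hb' : ∀ n : ℕ, N ≤ n → b' n = 0) (hq : ∀ n : ℕ, ¬ n.Coprime q → b n = 0)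
    (hq' : ∀ n : ℕ, ¬ n.Coprime q → b' n = 0) (F : ℕ → ℕ → ℝ) :
    ∑ A ∈ Finset.Ico 1 (N ^ 2), ∑ B ∈ Finset.Ico 1 (N ^ 2), (b * b') A * (b * b') B * F A B =
      ∑ j ∈ JJ N q, ∑ j' ∈ JJ N q, (b j.1 * b' j'.2) * (b j'.1 * b' j.2) *
        F (j.1 * j'.2) (j'.1 * j.2) := by
  have h1 : ∀ A : ℕ, ∑ B ∈ Finset.Ico 1 (N ^ 2), (b * b') A * (b * b') B * F A B =
      (b * b') A * ∑ v ∈ Finset.Ico 1 N ×ˢ Finset.Ico 1 N,
        b v.1 * b' v.2 * F A (v.1 * v.2) := by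
    intro A
    rw [← sel_d4_conv b b' hb hb' (fun B => F A B), Finset.mul_sum]
    exact Finset.sum_congr rfl fun B _ => by ring
  rw [Finset.sum_congr rfl fun A _ => h1 A, sel_d4_conv b b' hb hb']
  have h2 : ∀ j : ℕ × ℕ, ∑ j' ∈ JJ N q, (b j.1 * b' j'.2) * (b j'.1 * b' j.2) *
      F (j.1 * j'.2) (j'.1 * j.2) = ∑ j' ∈ Finset.Ico 1 N ×ˢ Finset.Ico 1 N,
        (b j.1 * b' j'.2) * (b j'.1 * b' j.2) * F (j.1 * j'.2) (j'.1 * j.2) := by
    intro j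
    refine sel_d4_JJ _ fun j' hj' => ?_
    rcases not_and_or.1 hj' with h | h
    · rw [hq _ h]; ring
    · rw [hq' _ h]; ring
  rw [Finset.sum_congr rfl fun j _ => h2 j]
  rw [sel_d4_JJ (N := N) (q := q) (fun j => ∑ j' ∈ Finset.Ico 1 N ×ˢ Finset.Ico 1 N,
        (b j.1 * b' j'.2) * (b j'.1 * b' j.2) * F (j.1 * j'.2) (j'.1 * j.2)) ?_]
  · simp only [Finset.mul_sum, Finset.sum_product]
    refine Finset.sum_congr rfl fun x _ => ?_
    symm
    calc ∑ y ∈ Finset.Ico 1 N, ∑ x' ∈ Finset.Ico 1 N, ∑ y' ∈ Finset.Ico 1 N,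
          b x * b' y' * (b x' * b' y) * F (x * y') (x' * y)
        = ∑ y ∈ Finset.Ico 1 N, ∑ y' ∈ Finset.Ico 1 N, ∑ x' ∈ Finset.Ico 1 N,
          b x * b' y' * (b x' * b' y) * F (x * y') (x' * y) :=
          Finset.sum_congr rfl fun y _ => Finset.sum_comm
      _ = ∑ y' ∈ Finset.Ico 1 N, ∑ y ∈ Finset.Ico 1 N, ∑ x' ∈ Finset.Ico 1 N,
          b x * b' y' * (b x' * b' y) * F (x * y') (x' * y) := Finset.sum_comm
      _ = ∑ y' ∈ Finset.Ico 1 N, ∑ x' ∈ Finset.Ico 1 N, ∑ y ∈ Finset.Ico 1 N,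
          b x * b' y' * (b x' * b' y) * F (x * y') (x' * y) :=
          Finset.sum_congr rfl fun y _ => Finset.sum_comm
      _ = _ := by
          refine Finset.sum_congr rfl fun y' _ => Finset.sum_congr rfl fun x' _ =>
            Finset.sum_congr rfl fun y _ => ?_
          ring
  · intro j hj
    refine Finset.sum_eq_zero fun j' _ => ?_
    rcases not_and_or.1 hj with h | h
    · rw [hq _ h]; ring
    · rw [hq' _ h]; ring

/-! ### Mellin transforms -/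

theorem sel_d4_int {k : ℕ} {a : ℕ → ℝ} (H : HData k a) (m A B : ℕ) (hA : 0 < A) (hB : 0 < B)
    {σ : ℝ} (hσ : 0 < σ) :
    IntegrableOn (fun y : ℝ => KK k a m A B 0 y y * y ^ (σ - 1)) (Set.Ioi 0) := by
  obtain ⟨C, hC, hKK⟩ := KK_tail H
  have hbound : IntegrableOn (fun y : ℝ => C * (Real.exp (-y) * y ^ (σ - 1))) (Set.Ioi 0) :=
    (Real.GammaIntegral_convergent hσ).const_mul C
  refine Integrable.mono' hbound ?_ ?_
  · refine ContinuousOn.aestronglyMeasurable ?_ measurableSet_Ioi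
    have h1 := KK_cont H (m := m) hA hB 0
    refine ContinuousOn.mul ?_ ?_
    · exact h1.comp (f := fun y : ℝ => (y, y)) (by fun_prop) fun y hy => ⟨hy, hy⟩
    · exact fun y hy => (Real.continuousAt_rpow_const y _ (Or.inl (ne_of_gt hy))).continuousWithinAt
  · refine (ae_restrict_mem measurableSet_Ioi).mono fun y hy => ?_
    have hy' : (0 : ℝ) < y := hy
    have h1 := hKK m A B 0 y y hA hB hy' hy'
    have h2 : 0 ≤ y ^ (σ - 1) := Real.rpow_nonneg hy'.le _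
    rw [Real.norm_eq_abs, abs_mul, abs_of_nonneg h2, ← mul_assoc]
    refine mul_le_mul_of_nonneg_right (h1.trans (mul_le_mul_of_nonneg_left ?_ hC.le)) h2
    refine Real.exp_le_exp.2 ?_
    have := Real.pi_gt_three
    simp only [Int.cast_zero, abs_zero, mul_zero, zero_mul, zero_sub]
    nlinarith

theorem sel_d4_scale {k : ℕ} {a : ℕ → ℝ} (H : HData k a) (m A B : ℕ) (hA : 0 < A) (hB : 0 < B)
    {σ : ℝ} (hσ : 0 < σ) {c : ℝ} (hc : 0 < c) :
    IntegrableOn (fun y : ℝ => KK k a m A B 0 (y / c) (y / c) * y ^ (σ - 1)) (Set.Ioi 0) ∧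
    ∫ y in Set.Ioi (0 : ℝ), KK k a m A B 0 (y / c) (y / c) * y ^ (σ - 1) =
      c ^ σ * ∫ y in Set.Ioi (0 : ℝ), KK k a m A B 0 y y * y ^ (σ - 1) := by
  set g : ℝ → ℝ := fun y => KK k a m A B 0 y y * y ^ (σ - 1) with hg
  have hci : 0 < c⁻¹ := inv_pos.2 hc
  have hEq : Set.EqOn (fun y : ℝ => c ^ (σ - 1) * g (c⁻¹ * y))
      (fun y : ℝ => KK k a m A B 0 (y / c) (y / c) * y ^ (σ - 1)) (Set.Ioi 0) := by
    intro y hy
    have hy' : (0 : ℝ) < y := hy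
    simp only [hg]
    have e1 : c⁻¹ * y = y / c := by rw [div_eq_inv_mul]
    rw [e1]
    have e2 : c ^ (σ - 1) * (y / c) ^ (σ - 1) = y ^ (σ - 1) := by
      rw [Real.div_rpow hy'.le hc.le]
      field_simp
    calc c ^ (σ - 1) * (KK k a m A B 0 (y / c) (y / c) * (y / c) ^ (σ - 1))
        = KK k a m A B 0 (y / c) (y / c) * (c ^ (σ - 1) * (y / c) ^ (σ - 1)) := by ring
      _ = _ := by rw [e2]
  have hgi : IntegrableOn g (Set.Ioi 0) := sel_d4_int H m A B hA hB hσ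
  constructor
  · refine IntegrableOn.congr_fun ?_ hEq measurableSet_Ioi
    refine Integrable.const_mul ?_ _
    have := (integrableOn_Ioi_comp_mul_left_iff g 0 hci).2 (by simpa using hgi)
    exact this
  · rw [← setIntegral_congr_fun measurableSet_Ioi hEq, integral_const_mul,
      integral_comp_mul_left_Ioi g 0 hci, mul_zero, inv_inv, smul_eq_mul, ← mul_assoc]
    congr 1
    rw [Real.rpow_sub_one hc.ne']
    field_simp

theorem Diag_mellin_pr {k : ℕ} {a : ℕ → ℝ} (H : HData k a) (q₀ q N : ℕ)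
    (b b' : ArithmeticFunction ℝ)
    {σ : ℝ} (hσ : 0 < σ) (hb : ∀ n : ℕ, N ≤ n → b n = 0) (hb' : ∀ n : ℕ, ¬ n.Coprime q → b n = 0)
    (hbb : ∀ n : ℕ, b' n = b n * (n : ℝ) ^ σ) :
    IntegrableOn (fun y : ℝ => Diag k a q₀ q b N y * y ^ (σ - 1)) (Set.Ioi 0) ∧
    ∫ y in Set.Ioi (0 : ℝ), Diag k a q₀ q b N y * y ^ (σ - 1) =
      ∫ y in Set.Ioi (0 : ℝ), DU k a q₀ (b * b') (N ^ 2) y * y ^ (σ - 1) := by
  have hpos : ∀ j ∈ JJ N q, 0 < j.1 ∧ 0 < j.2 := by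
    intro j hj
    unfold JJ at hj
    rw [Finset.mem_filter, Finset.mem_product, Finset.mem_Ico, Finset.mem_Ico] at hj
    exact ⟨hj.1.1.1, hj.1.2.1⟩
  -- the terms of Diag
  have hterm : ∀ j ∈ JJ N q, ∀ j' ∈ JJ N q,
      IntegrableOn (fun y : ℝ => cc b j * cc b j' *
        KK k a q₀ (j.1 * j'.2) (j'.1 * j.2) 0 (y / (j.2 * j'.2)) (y / (j.2 * j'.2)) *
          y ^ (σ - 1)) (Set.Ioi 0) ∧
      ∫ y in Set.Ioi (0 : ℝ), cc b j * cc b j' *
        KK k a q₀ (j.1 * j'.2) (j'.1 * j.2) 0 (y / (j.2 * j'.2)) (y / (j.2 * j'.2)) *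
          y ^ (σ - 1) = cc b j * cc b j' * (((j.2 : ℝ) * j'.2) ^ σ *
        ∫ y in Set.Ioi (0 : ℝ), KK k a q₀ (j.1 * j'.2) (j'.1 * j.2) 0 y y * y ^ (σ - 1)) := by
    intro j hj j' hj'
    obtain ⟨h1, h2⟩ := hpos j hj
    obtain ⟨h3, h4⟩ := hpos j' hj'
    have hc : (0 : ℝ) < (j.2 : ℝ) * j'.2 := by positivity
    obtain ⟨e1, e2⟩ := sel_d4_scale H q₀ (j.1 * j'.2) (j'.1 * j.2) (Nat.mul_pos h1 h4)
      (Nat.mul_pos h3 h2) hσ hc
    constructor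
    · refine IntegrableOn.congr_fun (e1.const_mul (cc b j * cc b j')) ?_ measurableSet_Ioi
      intro y _
      simp only
      ring
    · rw [← e2, ← integral_const_mul]
      refine integral_congr_ae (Eventually.of_forall fun y => ?_)
      simp only
      ring
  have hDiag : ∀ y : ℝ, Diag k a q₀ q b N y * y ^ (σ - 1) =
      ∑ j ∈ JJ N q, ∑ j' ∈ JJ N q, cc b j * cc b j' *
        KK k a q₀ (j.1 * j'.2) (j'.1 * j.2) 0 (y / (j.2 * j'.2)) (y / (j.2 * j'.2)) *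
          y ^ (σ - 1) := by
    intro y
    unfold Diag
    rw [Finset.sum_mul]
    refine Finset.sum_congr rfl fun j _ => ?_
    rw [Finset.sum_mul]
  have hDU : ∀ y : ℝ, DU k a q₀ (b * b') (N ^ 2) y * y ^ (σ - 1) =
      ∑ A ∈ Finset.Ico 1 (N ^ 2), ∑ B ∈ Finset.Ico 1 (N ^ 2),
        ((b * b') A * (b * b') B / (√A * √B)) * (KK k a q₀ A B 0 y y * y ^ (σ - 1)) := by
    intro y
    unfold DU
    rw [Finset.sum_mul]
    refine Finset.sum_congr rfl fun A _ => ?_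
    rw [Finset.sum_mul]
    exact Finset.sum_congr rfl fun B _ => by ring
  simp only [hDiag, hDU]
  constructor
  · exact integrable_finsetSum _ fun j hj => integrable_finsetSum _ fun j' hj' =>
      (hterm j hj j' hj').1
  · rw [integral_finsetSum _ fun j hj => integrable_finsetSum _ fun j' hj' =>
      (hterm j hj j' hj').1]
    have hKi : ∀ A ∈ Finset.Ico 1 (N ^ 2), ∀ B ∈ Finset.Ico 1 (N ^ 2),
        IntegrableOn (fun y : ℝ => ((b * b') A * (b * b') B / (√A * √B)) *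
          (KK k a q₀ A B 0 y y * y ^ (σ - 1))) (Set.Ioi 0) := by
      intro A hA B hB
      rw [Finset.mem_Ico] at hA hB
      exact (sel_d4_int H q₀ A B (by omega) (by omega) hσ).const_mul _
    rw [integral_finsetSum _ fun A hA => integrable_finsetSum _ fun B hB => hKi A hA B hB]
    have e1 : ∀ j ∈ JJ N q, ∫ y in Set.Ioi (0 : ℝ), ∑ j' ∈ JJ N q, cc b j * cc b j' *
        KK k a q₀ (j.1 * j'.2) (j'.1 * j.2) 0 (y / (j.2 * j'.2)) (y / (j.2 * j'.2)) *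
          y ^ (σ - 1) = ∑ j' ∈ JJ N q, cc b j * cc b j' * (((j.2 : ℝ) * j'.2) ^ σ *
        ∫ y in Set.Ioi (0 : ℝ), KK k a q₀ (j.1 * j'.2) (j'.1 * j.2) 0 y y * y ^ (σ - 1)) := by
      intro j hj
      rw [integral_finsetSum _ fun j' hj' => (hterm j hj j' hj').1]
      exact Finset.sum_congr rfl fun j' hj' => (hterm j hj j' hj').2
    rw [Finset.sum_congr rfl e1]
    have e2 : ∀ A ∈ Finset.Ico 1 (N ^ 2), ∫ y in Set.Ioi (0 : ℝ),
        ∑ B ∈ Finset.Ico 1 (N ^ 2), ((b * b') A * (b * b') B / (√A * √B)) *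
          (KK k a q₀ A B 0 y y * y ^ (σ - 1)) =
        ∑ B ∈ Finset.Ico 1 (N ^ 2), (b * b') A * (b * b') B * ((√A * √B)⁻¹ *
          ∫ y in Set.Ioi (0 : ℝ), KK k a q₀ A B 0 y y * y ^ (σ - 1)) := by
      intro A hA
      rw [integral_finsetSum _ fun B hB => hKi A hA B hB]
      refine Finset.sum_congr rfl fun B _ => ?_
      rw [integral_const_mul]
      ring
    rw [Finset.sum_congr rfl e2]
    have hbN : ∀ n : ℕ, N ≤ n → b' n = 0 := fun n hn => by rw [hbb, hb n hn, zero_mul]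
    have hbq : ∀ n : ℕ, ¬ n.Coprime q → b' n = 0 := fun n hn => by rw [hbb, hb' n hn, zero_mul]
    rw [sel_d4_conv2 b b' hb hbN hb' hbq (fun A B => (√(A : ℝ) * √(B : ℝ))⁻¹ *
      ∫ y in Set.Ioi (0 : ℝ), KK k a q₀ A B 0 y y * y ^ (σ - 1))]
    refine Finset.sum_congr rfl fun j hj => Finset.sum_congr rfl fun j' hj' => ?_
    obtain ⟨h1, h2⟩ := hpos j hj
    obtain ⟨h3, h4⟩ := hpos j' hj'
    rw [hbb, hbb]
    unfold cc
    rw [Real.mul_rpow (Nat.cast_nonneg _) (Nat.cast_nonneg _)]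
    push_cast
    rw [Real.sqrt_mul (Nat.cast_nonneg _), Real.sqrt_mul (Nat.cast_nonneg _)]
    have s1 : 0 < √(j.1 : ℝ) := Real.sqrt_pos.2 (by exact_mod_cast h1)
    have s2 : 0 < √(j.2 : ℝ) := Real.sqrt_pos.2 (by exact_mod_cast h2)
    have s3 : 0 < √(j'.1 : ℝ) := Real.sqrt_pos.2 (by exact_mod_cast h3)
    have s4 : 0 < √(j'.2 : ℝ) := Real.sqrt_pos.2 (by exact_mod_cast h4)
    field_simp

theorem Diag_near_pr {k : ℕ} {a : ℕ → ℝ} (H : HData k a) (D : ℝ) : ∃ C E : ℝ, 0 < C ∧ 0 < E ∧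
    ∀ (L : ℝ) (q₀ q N : ℕ) (b : ArithmeticFunction ℝ), 1 ≤ L → 0 < q₀ →
      (q₀ : ℝ) ≤ Real.exp (D * L) → (N : ℝ) ≤ Real.exp (D * L) →
      (∀ A : ℕ, |b A| ≤ Real.exp (D * L)) → (∀ n : ℕ, N ≤ n → b n = 0) →
      (∀ n : ℕ, ¬ n.Coprime q → b n = 0) → ∀ y : ℝ, 0 < y → y ≤ 1 →
        |Diag k a q₀ q b N y - QU k a q₀ (b * b) (N ^ 2)| ≤
          C * Real.exp (E * L) * y ^ (1 / 10 : ℝ) := by
  obtain ⟨C, E, hC, hE, hKK⟩ := KK_near H
  set D' := max D 0 with hD'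
  have hD'0 : 0 ≤ D' := le_max_right _ _
  refine ⟨C, 8 * D' + 5 * D' * E + 1, hC, by positivity, ?_⟩
  intro L q₀ q N b hL hq₀ hqD hND hbD hbN hbq y hy hy1
  have hL0 : 0 < L := by linarith
  have hle : Real.exp (D * L) ≤ Real.exp (D' * L) :=
    Real.exp_le_exp.2 (mul_le_mul_of_nonneg_right (le_max_left _ _) hL0.le)
  set Z := Real.exp (D' * L) with hZ
  have hZ1 : 1 ≤ Z := Real.one_le_exp (by positivity)
  have hZ0 : 0 < Z := by positivity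
  have hm' := hqD.trans hle
  have hN' := hND.trans hle
  have hu' := fun A => (hbD A).trans hle
  have hpos : ∀ j ∈ JJ N q, (0 < j.1 ∧ j.1 < N) ∧ (0 < j.2 ∧ j.2 < N) := by
    intro j hj
    unfold JJ at hj
    rw [Finset.mem_filter, Finset.mem_product, Finset.mem_Ico, Finset.mem_Ico] at hj
    exact ⟨⟨hj.1.1.1, hj.1.1.2⟩, hj.1.2.1, hj.1.2.2⟩
  have hQU : QU k a q₀ (b * b) (N ^ 2) = ∑ j ∈ JJ N q, ∑ j' ∈ JJ N q, cc b j * cc b j' *
      D0 k a q₀ (j.1 * j'.2) (j'.1 * j.2) := by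
    unfold QU
    have e1 : ∑ A ∈ Finset.Ico 1 (N ^ 2), ∑ B ∈ Finset.Ico 1 (N ^ 2),
        (b * b) A * (b * b) B / (√A * √B) * D0 k a q₀ A B =
        ∑ A ∈ Finset.Ico 1 (N ^ 2), ∑ B ∈ Finset.Ico 1 (N ^ 2),
        (b * b) A * (b * b) B * ((√A * √B)⁻¹ * D0 k a q₀ A B) :=
      Finset.sum_congr rfl fun A _ => Finset.sum_congr rfl fun B _ => by ring
    rw [e1, sel_d4_conv2 b b hbN hbN hbq hbq (fun A B => (√(A : ℝ) * √(B : ℝ))⁻¹ *
      D0 k a q₀ A B)]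
    refine Finset.sum_congr rfl fun j hj => Finset.sum_congr rfl fun j' hj' => ?_
    obtain ⟨⟨h1, _⟩, h2, _⟩ := hpos j hj
    obtain ⟨⟨h3, _⟩, h4, _⟩ := hpos j' hj'
    unfold cc
    push_cast
    rw [Real.sqrt_mul (Nat.cast_nonneg _), Real.sqrt_mul (Nat.cast_nonneg _)]
    have s1 : 0 < √(j.1 : ℝ) := Real.sqrt_pos.2 (by exact_mod_cast h1)
    have s2 : 0 < √(j.2 : ℝ) := Real.sqrt_pos.2 (by exact_mod_cast h2)
    have s3 : 0 < √(j'.1 : ℝ) := Real.sqrt_pos.2 (by exact_mod_cast h3)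
    have s4 : 0 < √(j'.2 : ℝ) := Real.sqrt_pos.2 (by exact_mod_cast h4)
    field_simp
  have hdiff : Diag k a q₀ q b N y - QU k a q₀ (b * b) (N ^ 2) =
      ∑ j ∈ JJ N q, ∑ j' ∈ JJ N q, cc b j * cc b j' *
        (KK k a q₀ (j.1 * j'.2) (j'.1 * j.2) 0 (y / (j.2 * j'.2)) (y / (j.2 * j'.2)) -
          D0 k a q₀ (j.1 * j'.2) (j'.1 * j.2)) := by
    rw [hQU]
    unfold Diag
    rw [← Finset.sum_sub_distrib]
    refine Finset.sum_congr rfl fun j _ => ?_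
    rw [← Finset.sum_sub_distrib]
    exact Finset.sum_congr rfl fun j' _ => by ring
  rw [hdiff]
  have hyp : 0 ≤ y ^ (1 / 10 : ℝ) := by positivity
  have hcc : ∀ j ∈ JJ N q, |cc b j| ≤ Z ^ 2 := by
    intro j hj
    obtain ⟨⟨h1, _⟩, h2, _⟩ := hpos j hj
    have s1 : 1 ≤ √(j.1 : ℝ) := by rw [Real.one_le_sqrt]; exact_mod_cast h1
    have s2 : 1 ≤ √(j.2 : ℝ) := by rw [Real.one_le_sqrt]; exact_mod_cast h2
    have s3 : 1 ≤ √(j.1 : ℝ) * √(j.2 : ℝ) := by nlinarith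
    unfold cc
    rw [abs_div, abs_mul, abs_of_pos (show 0 < √(j.1 : ℝ) * √(j.2 : ℝ) by positivity)]
    calc |b j.1| * |b j.2| / (√j.1 * √j.2) ≤ |b j.1| * |b j.2| :=
          div_le_self (by positivity) s3
      _ ≤ Z * Z := mul_le_mul (hu' _) (hu' _) (abs_nonneg _) hZ0.le
      _ = Z ^ 2 := by ring
  have key : ∀ j ∈ JJ N q, ∀ j' ∈ JJ N q, |cc b j * cc b j' *
        (KK k a q₀ (j.1 * j'.2) (j'.1 * j.2) 0 (y / (j.2 * j'.2)) (y / (j.2 * j'.2)) -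
          D0 k a q₀ (j.1 * j'.2) (j'.1 * j.2))| ≤
        Z ^ 2 * Z ^ 2 * (C * (Z ^ 5) ^ E * y ^ (1 / 10 : ℝ)) := by
    intro j hj j' hj'
    obtain ⟨⟨h1, h1'⟩, h2, h2'⟩ := hpos j hj
    obtain ⟨⟨h3, h3'⟩, h4, h4'⟩ := hpos j' hj'
    have hc1 : (1 : ℝ) ≤ (j.2 : ℝ) * j'.2 := by
      have : 1 ≤ j.2 * j'.2 := Nat.mul_pos h2 h4
      exact_mod_cast this
    have hc0 : (0 : ℝ) < (j.2 : ℝ) * j'.2 := by linarith
    have hyc : y / ((j.2 : ℝ) * j'.2) ≤ y := div_le_self hy.le hc1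
    have h5 := hKK q₀ (j.1 * j'.2) (j'.1 * j.2) (y / ((j.2 : ℝ) * j'.2)) hq₀
      (Nat.mul_pos h1 h4) (Nat.mul_pos h3 h2) (by positivity) (hyc.trans hy1)
    have hb : ∀ n : ℕ, n < N → (n : ℝ) ≤ Z := fun n hn =>
      le_trans (by exact_mod_cast hn.le) hN'
    have h6 : ((q₀ : ℝ) * ((j.1 * j'.2 : ℕ) : ℝ) * ((j'.1 * j.2 : ℕ) : ℝ)) ^ E ≤ (Z ^ 5) ^ E := by
      refine Real.rpow_le_rpow (by positivity) ?_ hE.le
      push_cast
      calc (q₀ : ℝ) * (j.1 * j'.2) * (j'.1 * j.2) ≤ Z * (Z * Z) * (Z * Z) := by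
            refine mul_le_mul (mul_le_mul hm' (mul_le_mul (hb _ h1') (hb _ h4')
              (by positivity) (by positivity)) (by positivity) (by positivity))
              (mul_le_mul (hb _ h3') (hb _ h2') (by positivity) (by positivity))
              (by positivity) (by positivity)
        _ = Z ^ 5 := by ring
    have h7 : (y / ((j.2 : ℝ) * j'.2)) ^ (1 / 10 : ℝ) ≤ y ^ (1 / 10 : ℝ) :=
      Real.rpow_le_rpow (by positivity) hyc (by norm_num)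
    rw [abs_mul, abs_mul]
    refine mul_le_mul (mul_le_mul (hcc j hj) (hcc j' hj') (abs_nonneg _) (by positivity))
      (h5.trans ?_) (abs_nonneg _) (by positivity)
    exact mul_le_mul (mul_le_mul_of_nonneg_left h6 hC.le) h7 (by positivity) (by positivity)
  have hcard : ((JJ N q).card : ℝ) ≤ Z ^ 2 := by
    have h1 : (JJ N q).card ≤ N * N := by
      unfold JJ
      refine (Finset.card_filter_le _ _).trans ?_
      rw [Finset.card_product, Nat.card_Ico]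
      exact Nat.mul_le_mul (Nat.sub_le _ _) (Nat.sub_le _ _)
    calc ((JJ N q).card : ℝ) ≤ (N : ℝ) * N := by exact_mod_cast h1
      _ ≤ Z * Z := mul_le_mul hN' hN' (Nat.cast_nonneg _) hZ0.le
      _ = Z ^ 2 := by ring
  have hB0 : 0 ≤ Z ^ 2 * Z ^ 2 * (C * (Z ^ 5) ^ E * y ^ (1 / 10 : ℝ)) := by positivity
  have hsum : |∑ j ∈ JJ N q, ∑ j' ∈ JJ N q, cc b j * cc b j' *
        (KK k a q₀ (j.1 * j'.2) (j'.1 * j.2) 0 (y / (j.2 * j'.2)) (y / (j.2 * j'.2)) -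
          D0 k a q₀ (j.1 * j'.2) (j'.1 * j.2))| ≤
      Z ^ 2 * (Z ^ 2 * (Z ^ 2 * Z ^ 2 * (C * (Z ^ 5) ^ E * y ^ (1 / 10 : ℝ)))) := by
    refine (Finset.abs_sum_le_sum_abs _ _).trans ?_
    refine (Finset.sum_le_sum fun j hj => (Finset.abs_sum_le_sum_abs _ _).trans
      (Finset.sum_le_sum fun j' hj' => key j hj j' hj')).trans ?_
    rw [Finset.sum_const, Finset.sum_const, nsmul_eq_mul, nsmul_eq_mul]
    exact mul_le_mul hcard (mul_le_mul_of_nonneg_right hcard hB0) (by positivity) (by positivity)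
  refine hsum.trans ?_
  have e1 : (Z ^ 5) ^ E = Real.exp (5 * D' * E * L) := by
    rw [hZ, ← Real.exp_nat_mul, ← Real.exp_mul]
    congr 1
    push_cast
    ring
  have e2 : Z ^ 2 * (Z ^ 2 * (Z ^ 2 * Z ^ 2 * (C * (Z ^ 5) ^ E * y ^ (1 / 10 : ℝ)))) =
      C * Real.exp ((8 * D' + 5 * D' * E) * L) * y ^ (1 / 10 : ℝ) := by
    rw [e1]
    have : Z ^ 8 * Real.exp (5 * D' * E * L) = Real.exp ((8 * D' + 5 * D' * E) * L) := by
      rw [hZ, ← Real.exp_nat_mul, ← Real.exp_add]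
      congr 1
      push_cast
      ring
    rw [← this]
    ring
  rw [e2]
  refine mul_le_mul_of_nonneg_right (mul_le_mul_of_nonneg_left (Real.exp_le_exp.2 ?_) hC.le) hyp
  nlinarith

theorem Diag_mellin : type_of% @Diag_mellin_pr := @Diag_mellin_pr
theorem Diag_near : type_of% @Diag_near_pr := @Diag_near_pr

end Pool.Agent.SEL
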