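import Pool.Agent.Lib_helper68.SEL.Defs

/-! SEL block Z10A (EUL): Euler products. -/

namespace Pool.Agent.SEL

open Complex MeasureTheory Filter Topology Pool.Agent.GL2

theorem prod_bound_pr (G : ℕ → ℂ) (h1 : G 1 = 1) (hmul : ∀ m n : ℕ, m.Coprime n → G (m * n) = G m * G n)
    (s : ℝ) (c : ℕ → ℝ) (hc : ∀ p : ℕ, p.Prime → 0 ≤ c p ∧
      ∀ I : ℕ, ∑ i ∈ Finset.Ico 1 I, ‖G (p ^ i)‖ ^ 2 * ((p ^ i : ℕ) : ℝ) ^ (-s) ≤ c p)
    (Sc : ℝ) (hS : ∀ X : ℕ, ∑ p ∈ (Finset.range X).filter Nat.Prime, c p ≤ Sc) (X : ℕ) :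
    ∑ M ∈ Finset.Ico 1 X, ‖G M‖ ^ 2 * (M : ℝ) ^ (-s) ≤ Real.exp Sc ∧
    ∑ M ∈ Finset.Ico 2 X, ‖G M‖ ^ 2 * (M : ℝ) ^ (-s) ≤ Sc * Real.exp Sc := by
  set f : ℕ → ℝ := fun M => ‖G M‖ ^ 2 * (M : ℝ) ^ (-s) with hf
  have hf0 : ∀ M, 0 ≤ f M := fun M => by simp only [hf]; positivity
  have hf1 : f 1 = 1 := by simp [hf, h1]
  have hfm : ∀ {m n : ℕ}, Nat.Coprime m n → f (m * n) = f m * f n := by
    intro m n hmn
    simp only [hf]
    rw [hmul m n hmn, norm_mul, Nat.cast_mul, Real.mul_rpow (Nat.cast_nonneg _) (Nat.cast_nonneg _)]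
    ring
  have hpart : ∀ p : ℕ, p.Prime → ∀ I : ℕ, ∑ i ∈ Finset.range I, f (p ^ i) ≤ 1 + c p := by
    intro p hp I
    obtain ⟨hc0, hc1⟩ := hc p hp
    rcases Nat.eq_zero_or_pos I with h | h
    · subst h
      simp
      linarith
    · rw [Finset.range_eq_Ico, Finset.sum_eq_sum_Ico_succ_bot h, pow_zero, hf1]
      have := hc1 I
      simp only [hf]
      simpa using this
  have hsum : ∀ {p : ℕ}, p.Prime → Summable (fun n : ℕ => ‖f (p ^ n)‖) := by
    intro p hp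
    refine summable_of_sum_range_le (c := 1 + c p) (fun n => norm_nonneg _) (fun I => ?_)
    have : ∑ i ∈ Finset.range I, ‖f (p ^ i)‖ = ∑ i ∈ Finset.range I, f (p ^ i) :=
      Finset.sum_congr rfl fun i _ => Real.norm_of_nonneg (hf0 _)
    rw [this]
    exact hpart p hp I
  have hts : ∀ p : ℕ, p.Prime → ∑' n : ℕ, f (p ^ n) ≤ 1 + c p := by
    intro p hp
    exact Real.tsum_le_of_sum_range_le (fun n => hf0 _) (hpart p hp)
  obtain ⟨hE1, hE2⟩ := EulerProduct.summable_and_hasSum_smoothNumbers_prod_primesBelow_tsum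
    hf1 hfm hsum X
  set S0 : ℝ := ∑ p ∈ (Finset.range X).filter Nat.Prime, c p with hS0
  have hS00 : 0 ≤ S0 := Finset.sum_nonneg fun p hp => (hc p (Finset.mem_filter.1 hp).2).1
  have hprod : ∏ p ∈ X.primesBelow, ∑' n : ℕ, f (p ^ n) ≤ Real.exp S0 := by
    rw [hS0, Real.exp_sum]
    refine Finset.prod_le_prod (fun p hp => tsum_nonneg fun n => hf0 _) (fun p hp => ?_)
    have hp' : p.Prime := Nat.prime_of_mem_primesBelow hp
    refine (hts p hp').trans ?_
    have := Real.add_one_le_exp (c p)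
    linarith
  have hle : ∑ M ∈ Finset.Ico 1 X, f M ≤ Real.exp S0 := by
    have h3 : ∀ M ∈ Finset.Ico 1 X, M ∈ Nat.smoothNumbers X := by
      intro M hM
      rw [Finset.mem_Ico] at hM
      exact Nat.mem_smoothNumbers_of_lt hM.1 hM.2
    have h4 : HasSum (Set.indicator (Nat.smoothNumbers X) f)
        (∏ p ∈ X.primesBelow, ∑' n : ℕ, f (p ^ n)) := hasSum_subtype_iff_indicator.1 hE2
    have h5 : ∑ M ∈ Finset.Ico 1 X, f M =
        ∑ M ∈ Finset.Ico 1 X, Set.indicator (Nat.smoothNumbers X) f M :=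
      Finset.sum_congr rfl fun M hM => (Set.indicator_of_mem (h3 M hM) f).symm
    rw [h5]
    exact (sum_le_hasSum _ (fun M _ => Set.indicator_nonneg (fun m _ => hf0 m) M) h4).trans hprod
  have hSc : S0 ≤ Sc := hS X
  constructor
  · exact hle.trans (Real.exp_le_exp.2 hSc)
  · rcases Nat.lt_or_ge X 2 with hX | hX
    · rw [Finset.Ico_eq_empty (by omega), Finset.sum_empty]
      have : 0 ≤ Sc := hS00.trans hSc
      positivity
    · have h5 : ∑ M ∈ Finset.Ico 1 X, f M = f 1 + ∑ M ∈ Finset.Ico 2 X, f M :=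
        Finset.sum_eq_sum_Ico_succ_bot (by omega) f
      rw [hf1] at h5
      have h6 : Real.exp S0 - 1 ≤ S0 * Real.exp S0 := by
        have h7 := Real.add_one_le_exp (-S0)
        have h8 : Real.exp S0 * Real.exp (-S0) = 1 := by rw [← Real.exp_add]; simp
        have h9 := Real.exp_pos S0
        nlinarith
      have h7 : S0 * Real.exp S0 ≤ Sc * Real.exp Sc :=
        mul_le_mul hSc (Real.exp_le_exp.2 hSc) (Real.exp_pos _).le (hS00.trans hSc)
      change ∑ M ∈ Finset.Ico 2 X, f M ≤ _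
      linarith

theorem prod_bound : type_of% @prod_bound_pr := @prod_bound_pr

end Pool.Agent.SEL
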