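import Pool.Agent.Lib_helper68.SEL.Defs
import Pool.Agent.Lib_helper68.GL2.B5
import Pool.Agent.Lib_helper68.SEL.K3

/-!
# Block K5 (ROW): the sum over `d` for `c = r s`
-/

namespace Pool.Agent.SEL

open Complex MeasureTheory Filter Topology Pool.Agent.GL2

theorem sel_K5_sqrt_le {X : ℝ} (hX : 1 ≤ X) : √X ≤ X := by
  rw [Real.sqrt_le_left (by linarith)]
  nlinarith

/-- block K5 (ROW): trivial bound -/
theorem row_card_u_pr : ∃ C : ℝ, 0 < C ∧ ∀ (z : ℂ) (κ₁ κ₂ : ℝ), 1 / 2 ≤ z.im → 0 < κ₁ →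
    ∀ l : ℕ, 1 ≤ l → ∀ (c : ℤ) (D : Finset ℤ), (∀ d ∈ D, Ann z κ₁ κ₂ l c d) →
      (D.card : ℝ) ≤ C * ((1 + 1 / κ₁) * (1 + z.im)) * √l ∧
        (D.Nonempty → |(c : ℝ)| ≤ C * (1 + 1 / κ₁) * √l) := by
  refine ⟨3, by norm_num, fun z κ₁ κ₂ hz h1 l hl c D hD => ?_⟩
  have hl0 : (1 : ℝ) ≤ l := by exact_mod_cast hl
  have hsl : 1 ≤ √(l : ℝ) := by rw [Real.one_le_sqrt]; exact hl0
  have hz0 : 0 < z.im := by linarith
  have hi : 0 < 1 / κ₁ := by positivity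
  have hX : 1 ≤ (1 + 1 / κ₁) * (1 + z.im) := by nlinarith [mul_pos hi hz0]
  have hs1 : √(z.im / κ₁) ≤ (1 + 1 / κ₁) * (1 + z.im) := by
    refine (Real.sqrt_le_sqrt ?_).trans (sel_K5_sqrt_le hX)
    have e : z.im / κ₁ = (1 / κ₁) * z.im := by ring
    rw [e]
    nlinarith
  have hs2 : √(1 / (κ₁ * z.im)) ≤ 2 * (1 + 1 / κ₁) := by
    have h2 : 1 / (κ₁ * z.im) ≤ 2 * (1 / κ₁) := by
      have e : 1 / (κ₁ * z.im) = (1 / κ₁) * (1 / z.im) := by field_simp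
      have h3 : 1 / z.im ≤ 2 := by
        rw [div_le_iff₀ hz0]; linarith
      rw [e, mul_comm 2]
      exact mul_le_mul_of_nonneg_left h3 hi.le
    have h3 : (1 : ℝ) ≤ 1 + 2 * (1 / κ₁) := by linarith
    calc √(1 / (κ₁ * z.im)) ≤ √(1 + 2 * (1 / κ₁)) := Real.sqrt_le_sqrt (by linarith)
      _ ≤ 1 + 2 * (1 / κ₁) := sel_K5_sqrt_le h3
      _ ≤ 2 * (1 + 1 / κ₁) := by linarith
  have hn1 := Real.sqrt_nonneg (z.im / κ₁)
  have hn2 := Real.sqrt_nonneg (1 / (κ₁ * z.im))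
  constructor
  · have h3 := b5_card (c * z.re) (√(z.im / κ₁) * √l) (by positivity) D (by
      intro d hd
      have h4 := b5_ann_le h1 hl (hD d hd)
      rw [mul_pow, Real.sq_sqrt (by positivity), Real.sq_sqrt (by positivity)]
      have h5 : z.im / κ₁ * l = l * z.im / κ₁ := by ring
      rw [h5]
      nlinarith [sq_nonneg ((c : ℝ) * z.im)])
    have h4 : √(z.im / κ₁) * √l ≤ (1 + 1 / κ₁) * (1 + z.im) * √l :=
      mul_le_mul_of_nonneg_right hs1 (Real.sqrt_nonneg _)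
    have h5 : 1 ≤ (1 + 1 / κ₁) * (1 + z.im) * √l := by
      calc (1 : ℝ) = 1 * 1 := by norm_num
        _ ≤ (1 + 1 / κ₁) * (1 + z.im) * √l := mul_le_mul hX hsl (by norm_num) (by linarith)
    linarith
  · rintro ⟨d, hd⟩
    have h4 := b5_ann_le h1 hl (hD d hd)
    have h5 : (c : ℝ) ^ 2 ≤ (1 / (κ₁ * z.im)) * l := by
      have h6 : ((c : ℝ) * z.im) ^ 2 ≤ l * z.im / κ₁ := by
        nlinarith [sq_nonneg ((c : ℝ) * z.re + d)]
      have h7 : (c : ℝ) ^ 2 = ((c : ℝ) * z.im) ^ 2 / z.im ^ 2 := by field_simp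
      rw [h7, div_le_iff₀ (by positivity)]
      refine h6.trans (le_of_eq ?_)
      field_simp
    have h6 : |(c : ℝ)| ≤ √((1 / (κ₁ * z.im)) * l) := Real.abs_le_sqrt h5
    rw [Real.sqrt_mul (by positivity)] at h6
    refine h6.trans ?_
    have h7 : √(1 / (κ₁ * z.im)) * √l ≤ 2 * (1 + 1 / κ₁) * √l :=
      mul_le_mul_of_nonneg_right hs2 (Real.sqrt_nonneg _)
    have h8 : 0 ≤ (1 + 1 / κ₁) * √l := by positivity
    nlinarith

theorem sel_K5_unit (v v' : ℂ) (hv : v ≠ 0) (hv' : v' ≠ 0) :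
    ‖v' / ((‖v'‖ : ℝ) : ℂ) - v / ((‖v‖ : ℝ) : ℂ)‖ ≤ 2 * ‖v' - v‖ / ‖v‖ := by
  have h1 : 0 < ‖v‖ := norm_pos_iff.2 hv
  have h2 : 0 < ‖v'‖ := norm_pos_iff.2 hv'
  have e : v' / ((‖v'‖ : ℝ) : ℂ) - v / ((‖v‖ : ℝ) : ℂ) =
      (v' - v) / ((‖v‖ : ℝ) : ℂ) +
        v' / ((‖v'‖ : ℝ) : ℂ) * (((‖v‖ - ‖v'‖) / ‖v‖ : ℝ) : ℂ) := by
    have h3 : ((‖v‖ : ℝ) : ℂ) ≠ 0 := by exact_mod_cast h1.ne'
    have h4 : ((‖v'‖ : ℝ) : ℂ) ≠ 0 := by exact_mod_cast h2.ne'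
    push_cast
    field_simp
    ring
  rw [e]
  refine (norm_add_le _ _).trans ?_
  rw [norm_div, norm_mul, norm_div, Complex.norm_real, Complex.norm_real, Complex.norm_real,
    norm_norm, norm_norm, div_self h2.ne', one_mul, Real.norm_eq_abs, abs_div, abs_of_pos h1]
  have h5 : |‖v‖ - ‖v'‖| ≤ ‖v' - v‖ := by
    rw [abs_sub_comm]; exact abs_norm_sub_norm_le v' v
  have h6 : |‖v‖ - ‖v'‖| / ‖v‖ ≤ ‖v' - v‖ / ‖v‖ := div_le_div_of_nonneg_right h5 h1.le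
  have e2 : 2 * ‖v' - v‖ / ‖v‖ = ‖v' - v‖ / ‖v‖ + ‖v' - v‖ / ‖v‖ := by ring
  rw [e2]
  linarith

theorem sel_K5_uu_norm {c : ℕ} (hc : 0 < c) {z : ℂ} (hz : 0 < z.im) (d : ℤ) :
    (c : ℂ) * z + d ≠ 0 ∧ ‖uu c d z‖ = 1 := by
  have h1 : (c : ℂ) * z + d ≠ 0 := by
    intro h
    have h2 := congrArg Complex.im h
    simp at h2
    rcases h2 with h2 | h2
    · exact hc.ne' h2
    · exact hz.ne' h2
  refine ⟨h1, ?_⟩
  unfold uu
  rw [Int.cast_natCast, norm_div, Complex.norm_real, norm_norm, div_self (norm_ne_zero_iff.2 h1)]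

theorem sel_K5_Q {κ₁ κ₂ : ℝ} (h1 : 0 < κ₁) (h2 : 0 < κ₂) :
    1 ≤ (1 + κ₂) * (1 + 1 / κ₁) ∧ κ₂ ≤ (1 + κ₂) * (1 + 1 / κ₁) ∧
      κ₂ * (1 / κ₁) ≤ (1 + κ₂) * (1 + 1 / κ₁) := by
  have hi : 0 < 1 / κ₁ := by positivity
  have h := mul_pos h2 hi
  have e : (1 + κ₂) * (1 + 1 / κ₁) = 1 + κ₂ + 1 / κ₁ + κ₂ * (1 / κ₁) := by ring
  rw [e]
  refine ⟨by linarith, by linarith, by linarith⟩

theorem sel_K5_cle {κ₁ κ₂ y c l n : ℝ} (h1 : 0 < κ₁) (h2 : 0 < κ₂) (hy : 1 / 2 ≤ y)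
    (hn : 0 ≤ n) (h5 : c ^ 2 * y ^ 2 ≤ l * y / κ₁) (h6 : l * y ≤ κ₂ * n) :
    c ^ 2 ≤ (2 * ((1 + κ₂) * (1 + 1 / κ₁))) ^ 2 * n := by
  have hi : 0 < 1 / κ₁ := by positivity
  obtain ⟨hQ1, -, hQ3⟩ := sel_K5_Q h1 h2
  set Q := (1 + κ₂) * (1 + 1 / κ₁) with hQ
  have h7 : c ^ 2 * y ^ 2 ≤ κ₂ * (1 / κ₁) * n := by
    refine h5.trans ?_
    calc l * y / κ₁ = (1 / κ₁) * (l * y) := by ring
      _ ≤ (1 / κ₁) * (κ₂ * n) := mul_le_mul_of_nonneg_left h6 hi.le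
      _ = κ₂ * (1 / κ₁) * n := by ring
  have h8 : (1 / 4 : ℝ) ≤ y ^ 2 := by
    have := pow_le_pow_left₀ (by norm_num : (0 : ℝ) ≤ 1 / 2) hy 2
    linarith
  have h9 : c ^ 2 * (1 / 4) ≤ c ^ 2 * y ^ 2 := mul_le_mul_of_nonneg_left h8 (sq_nonneg c)
  have h10 : Q ≤ Q ^ 2 := by
    have := mul_le_mul_of_nonneg_left hQ1 (by linarith : 0 ≤ Q)
    rw [mul_one] at this
    rw [sq]; exact this
  have h11 : κ₂ * (1 / κ₁) * n ≤ Q ^ 2 * n := mul_le_mul_of_nonneg_right (hQ3.trans h10) hn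
  have e : (2 * Q) ^ 2 * n = 4 * (Q ^ 2 * n) := by ring
  rw [e]
  linarith

theorem sel_K5_uulip {z : ℂ} {κ₁ κ₂ : ℝ} (hz : 1 / 2 ≤ z.im) (h1 : 0 < κ₁) (hk2 : 0 < κ₂)
    {l : ℕ} (hl : 1 ≤ l) {c : ℕ} (hc : 0 < c) {d s : ℤ} {B : ℝ} (hs0 : 0 ≤ s)
    (hsB : (s : ℝ) ≤ B * c) (hA : Ann z κ₁ κ₂ l c d) :
    ‖uu c (d + s) z - uu c d z‖ ≤ 4 * (B * ((1 + κ₂) * (1 + 1 / κ₁))) := by
  have hz0 : 0 < z.im := by linarith
  have hc0 : (0 : ℝ) < c := by exact_mod_cast hc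
  have hv := (sel_K5_uu_norm hc hz0 d).1
  have hv' := (sel_K5_uu_norm hc hz0 (d + s)).1
  have h3 := sel_K5_unit _ _ hv hv'
  have hs0' : (0 : ℝ) ≤ s := by exact_mod_cast hs0
  unfold uu
  rw [Int.cast_natCast]
  refine h3.trans ?_
  have e3 : (c : ℂ) * z + ((d + s : ℤ) : ℂ) - ((c : ℂ) * z + (d : ℂ)) =
      ((s : ℝ) : ℂ) := by push_cast; ring
  rw [e3, Complex.norm_real, Real.norm_eq_abs, abs_of_nonneg hs0']
  have hn0 : 0 < ‖(c : ℂ) * z + d‖ := norm_pos_iff.2 hv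
  rw [div_le_iff₀ hn0]
  have hAc := b5_ann_le h1 hl hA
  have hA2 := ((b5_ann_iff hz0 h1 hk2 hl).1 hA).2
  push_cast at hAc hA2
  obtain ⟨hQ1, -, -⟩ := sel_K5_Q h1 hk2
  set Q := (1 + κ₂) * (1 + 1 / κ₁) with hQ
  have hQ0 : 0 ≤ Q := by linarith
  have h4 : (c : ℝ) ^ 2 ≤ (2 * Q * ‖(c : ℂ) * z + d‖) ^ 2 := by
    rw [mul_pow, b5_nsq_nat]
    apply sel_K5_cle h1 hk2 hz (by positivity)
    · refine le_trans ?_ hAc
      have := sq_nonneg ((c : ℝ) * z.re + d)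
      rw [← mul_pow]; linarith
    · rw [div_lt_iff₀ hk2] at hA2
      linarith
  have h5 : (c : ℝ) ≤ 2 * Q * ‖(c : ℂ) * z + d‖ :=
    (pow_le_pow_iff_left₀ hc0.le (by positivity) two_ne_zero).1 h4
  have hB : 0 ≤ B := by
    by_contra hn
    push Not at hn
    have := mul_neg_of_neg_of_pos hn hc0
    linarith
  calc 2 * (s : ℝ) ≤ 2 * (B * c) := by linarith
    _ ≤ 2 * (B * (2 * Q * ‖(c : ℂ) * z + d‖)) := by gcongr
    _ = 4 * (B * Q) * ‖(c : ℂ) * z + d‖ := by ring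

theorem sel_K5_phase {z : ℂ} {κ₁ κ₂ : ℝ} (hz0 : 0 < z.im) (h1 : 0 < κ₁) (hk2 : 0 < κ₂)
    {l : ℕ} (hl : 1 ≤ l) {c : ℕ} (hc : 0 < c) {d s : ℤ} {B : ℝ} (hs0 : 0 ≤ s)
    (hsB : (s : ℝ) ≤ B * c) (hAn : Ann z κ₁ κ₂ l c d) (hAn' : Ann z κ₁ κ₂ l c (d + s)) :
    ‖cexp (2 * Real.pi * I *
          ((l * (c * z.re + (d + s : ℤ)) / (c * ‖(c : ℂ) * z + (d + s : ℤ)‖ ^ 2) : ℝ) : ℂ)) -
      cexp (2 * Real.pi * I *
          ((l * (c * z.re + d) / (c * ‖(c : ℂ) * z + d‖ ^ 2) : ℝ) : ℂ))‖ ≤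
      2 * Real.pi * (κ₂ * B / z.im) := by
  have hl0 : (0 : ℝ) < l := by exact_mod_cast hl
  have hc0 : (0 : ℝ) < c := by exact_mod_cast hc
  have hs0' : (0 : ℝ) ≤ s := by exact_mod_cast hs0
  refine (b5_exp _ _).trans ?_
  rw [b5_nsq_nat, b5_nsq_nat]
  have hA := ((b5_ann_iff hz0 h1 hk2 hl).1 hAn).2
  have hA' := ((b5_ann_iff hz0 h1 hk2 hl).1 hAn').2
  push_cast at hA hA' ⊢
  have hR : 0 < l * z.im / κ₂ := by positivity
  have h3 := b5_lip (c * z.im) (c * z.re + d) (c * z.re + (d + s)) (l * z.im / κ₂) hR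
    hA.le hA'.le
  have e1 : (l : ℝ) * (c * z.re + (d + s)) /
      (c * ((c * z.re + (d + s)) ^ 2 + (c * z.im) ^ 2)) -
      l * (c * z.re + d) / (c * ((c * z.re + d) ^ 2 + (c * z.im) ^ 2)) =
      l / c * ((c * z.re + (d + s)) / ((c * z.re + (d + s)) ^ 2 + (c * z.im) ^ 2) -
      (c * z.re + d) / ((c * z.re + d) ^ 2 + (c * z.im) ^ 2)) := by
    rw [mul_sub, div_mul_div_comm, div_mul_div_comm]
  rw [e1, abs_mul, abs_of_pos (by positivity)]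
  have e2 : |c * z.re + (d + s) - (c * z.re + d)| = (s : ℝ) := by
    rw [add_sub_add_left_eq_sub, add_sub_cancel_left, abs_of_nonneg hs0']
  rw [e2] at h3
  calc 2 * Real.pi * (l / c * |(c * z.re + (d + s)) /
        ((c * z.re + (d + s)) ^ 2 + (c * z.im) ^ 2) -
        (c * z.re + d) / ((c * z.re + d) ^ 2 + (c * z.im) ^ 2)|)
      ≤ 2 * Real.pi * (l / c * (s / (l * z.im / κ₂))) := by gcongr
    _ ≤ 2 * Real.pi * (l / c * ((B * c) / (l * z.im / κ₂))) := by gcongr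
    _ = 2 * Real.pi * (κ₂ * B / z.im) := by field_simp

theorem sel_K5_num {κ₁ κ₂ Λ N δ y : ℝ} (h1 : 0 < κ₁) (hk2 : 0 < κ₂) (hΛ : 0 ≤ Λ) (hN : 0 ≤ N)
    (hδ : 0 ≤ δ) (hy : 1 / 2 ≤ y) :
    2 * Real.pi * (κ₂ * (N * δ) / y) + Λ * (4 * ((N * δ) * ((1 + κ₂) * (1 + 1 / κ₁)))) ≤
      17 * ((1 + Λ) * N * (1 + κ₂) * (1 + 1 / κ₁)) * δ := by
  have hpi : Real.pi ≤ 3.15 := Real.pi_lt_d2.le
  have hy0 : 0 < y := by linarith
  obtain ⟨-, hQ2, -⟩ := sel_K5_Q h1 hk2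
  have hND : 0 ≤ N * δ := mul_nonneg hN hδ
  have h8 : κ₂ * (N * δ) / y ≤ 2 * (κ₂ * (N * δ)) := by
    rw [div_le_iff₀ hy0]
    have h9 : 0 ≤ κ₂ * (N * δ) := by positivity
    have h10 := mul_le_mul_of_nonneg_left hy (by positivity : 0 ≤ 2 * (κ₂ * (N * δ)))
    linarith
  have h9 : κ₂ * (N * δ) ≤ (N * δ) * ((1 + κ₂) * (1 + 1 / κ₁)) := by
    have := mul_le_mul_of_nonneg_left hQ2 hND
    linarith
  set Q : ℝ := (N * δ) * ((1 + κ₂) * (1 + 1 / κ₁)) with hQ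
  have hQ0 : 0 ≤ Q := by rw [hQ]; positivity
  have h10 : 2 * Real.pi * (κ₂ * (N * δ) / y) ≤ 2 * 3.15 * (2 * Q) := by
    apply mul_le_mul (by linarith) (by linarith) (by positivity) (by norm_num)
  have e5 : 17 * ((1 + Λ) * N * (1 + κ₂) * (1 + 1 / κ₁)) * δ = 17 * Q + 17 * (Λ * Q) := by
    rw [hQ]; ring
  rw [e5]
  have h11 := mul_nonneg hΛ hQ0
  have e6 : Λ * (4 * Q) = 4 * (Λ * Q) := by ring
  rw [e6]
  linarith

theorem sel_K5_W {κ₁ κ₂ Λ N y : ℝ} (h1 : 0 < κ₁) (hk2 : 0 < κ₂) (hΛ : 0 ≤ Λ) (hN : 1 ≤ N)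
    (hy : 1 / 2 ≤ y) : 1 ≤ (1 + 1 / κ₁) * (1 + y) ∧
    (1 + 1 / κ₁) * (1 + y) ≤ (1 + Λ) * N * (1 + κ₂) * (1 + 1 / κ₁) * (1 + y) ∧
    (1 + Λ) * N * (1 + κ₂) * (1 + 1 / κ₁) ≤ (1 + Λ) * N * (1 + κ₂) * (1 + 1 / κ₁) * (1 + y) ∧
    N ≤ (1 + Λ) * N * (1 + κ₂) * (1 + 1 / κ₁) ∧ (1 + 1 / κ₁) ≤ (1 + 1 / κ₁) * (1 + y) := by
  have hi : 0 < 1 / κ₁ := by positivity
  have a1 : 1 ≤ 1 + 1 / κ₁ := by linarith
  have a2 : 1 ≤ 1 + y := by linarith
  have a3 : 1 ≤ 1 + Λ := by linarith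
  have a4 : 1 ≤ 1 + κ₂ := by linarith
  have a5 : 1 ≤ (1 + Λ) * N := one_le_mul_of_one_le_of_one_le a3 hN
  have a6 : 1 ≤ (1 + Λ) * N * (1 + κ₂) := one_le_mul_of_one_le_of_one_le a5 a4
  have a7 : 1 ≤ (1 + 1 / κ₁) * (1 + y) := one_le_mul_of_one_le_of_one_le a1 a2
  have a8 : 1 ≤ (1 + Λ) * N * (1 + κ₂) * (1 + 1 / κ₁) := one_le_mul_of_one_le_of_one_le a6 a1
  refine ⟨a7, ?_, le_mul_of_one_le_right (by linarith) a2, ?_,
    le_mul_of_one_le_right (by linarith) a2⟩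
  · rw [mul_assoc ((1 + Λ) * N * (1 + κ₂))]
    exact le_mul_of_one_le_left (by linarith) a6
  · have b1 : N ≤ (1 + Λ) * N := le_mul_of_one_le_left (by linarith) a3
    have b2 : (1 + Λ) * N ≤ (1 + Λ) * N * (1 + κ₂) := le_mul_of_one_le_right (by linarith) a4
    have b3 : (1 + Λ) * N * (1 + κ₂) ≤ (1 + Λ) * N * (1 + κ₂) * (1 + 1 / κ₁) :=
      le_mul_of_one_le_right (by linarith) a1
    linarith

theorem sel_K5_fin {C₀ C₀' W M N S T δ E A c U : ℝ} (hC₀' : 0 ≤ C₀') (hW : 1 ≤ W)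
    (hC0W : C₀ ≤ C₀' * W) (hC0 : 0 ≤ C₀) (hMW : M ≤ W) (hNM : N ≤ M) (hN : 0 ≤ N)
    (hS : 0 ≤ S) (hT : 0 ≤ T) (hδ : 0 ≤ δ) (hA : A ≤ C₀ * S * 2 * T)
    (hE : E = 17 * M * δ * U + 4 * (N * δ * c)) (hU : U ≤ C₀ * S) (hc : c ≤ C₀ * S) :
    A + E ≤ 30 * (C₀' + 1) * W ^ 2 * S * (δ + T) := by
  have hM : 0 ≤ M := hN.trans hNM
  have hWW : W ≤ W ^ 2 := by
    have := mul_le_mul_of_nonneg_left hW (by linarith : (0 : ℝ) ≤ W)
    rw [sq]; linarith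
  have h1 : C₀ ≤ C₀' * W ^ 2 := hC0W.trans (mul_le_mul_of_nonneg_left hWW hC₀')
  have h2 : C₀ * M ≤ C₀' * W ^ 2 := by
    calc C₀ * M ≤ (C₀' * W) * W := mul_le_mul hC0W hMW hM (by positivity)
      _ = _ := by ring
  have h3 : 17 * M * δ * U ≤ 17 * M * δ * (C₀ * S) := mul_le_mul_of_nonneg_left hU (by positivity)
  have h4 : 4 * (N * δ * c) ≤ 4 * (M * δ * (C₀ * S)) := by
    have h4a : N * δ * c ≤ N * δ * (C₀ * S) := mul_le_mul_of_nonneg_left hc (by positivity)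
    have h4b : N * δ * (C₀ * S) ≤ M * δ * (C₀ * S) := by gcongr
    linarith
  have h5 : C₀ * S * 2 * T ≤ 2 * (C₀' * W ^ 2) * (S * T) := by
    calc C₀ * S * 2 * T = 2 * C₀ * (S * T) := by ring
      _ ≤ _ := by gcongr
  have h6 : 21 * (C₀ * M) * (S * δ) ≤ 21 * (C₀' * W ^ 2) * (S * δ) := by gcongr
  have hz1 : 0 ≤ C₀' * W ^ 2 * (S * T) := by positivity
  have hz2 : 0 ≤ C₀' * W ^ 2 * (S * δ) := by positivity
  have hz3 : 0 ≤ W ^ 2 * (S * T) := by positivity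
  have hz4 : 0 ≤ W ^ 2 * (S * δ) := by positivity
  have e : 30 * (C₀' + 1) * W ^ 2 * S * (δ + T) = 30 * (C₀' * W ^ 2 * (S * T)) +
      30 * (C₀' * W ^ 2 * (S * δ)) + 30 * (W ^ 2 * (S * T)) + 30 * (W ^ 2 * (S * δ)) := by ring
  rw [e, hE]
  have e2 : 17 * M * δ * (C₀ * S) + 4 * (M * δ * (C₀ * S)) = 21 * (C₀ * M) * (S * δ) := by ring
  have e3 : 2 * (C₀' * W ^ 2) * (S * T) = 2 * (C₀' * W ^ 2 * (S * T)) := by ring
  have e4 : 21 * (C₀' * W ^ 2) * (S * δ) = 21 * (C₀' * W ^ 2 * (S * δ)) := by ring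
  linarith

open Classical in
/-- block K5 (ROW): the sum over `d` for `c = r s` -/
theorem row_sq_pr : ∃ C E : ℝ, 0 < C ∧ 0 < E ∧ ∀ (z : ℂ) (N : ℕ) (κ₁ κ₂ Λ : ℝ) (F : ℂ → ℂ),
    1 / 2 ≤ z.im → 0 < N → 0 < κ₁ → κ₁ < κ₂ → 0 ≤ Λ → (∀ u : ℂ, ‖u‖ = 1 → ‖F u‖ ≤ 1) →
    (∀ u u' : ℂ, ‖u‖ = 1 → ‖u'‖ = 1 → ‖F u - F u'‖ ≤ Λ * ‖u - u'‖) →
    ∀ (δ : ℝ) (l r s c : ℕ), 0 < δ → δ ≤ 1 → 1 ≤ l → 1 ≤ s → c = r * s → Squarefree r →
      r.Coprime (s * l * N) → 1 ≤ δ * r → ∀ (d₀ : ℤ) (D : Finset ℤ),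
      (∀ d : ℤ, d ∈ D ↔ Ann z κ₁ κ₂ l c d ∧ IsCoprime (c : ℤ) d ∧ (N : ℤ) ∣ d - d₀) →
      ‖∑ d ∈ D, ec l c d * cexp (2 * Real.pi * I *
          ((l * (c * z.re + d) / (c * ‖(c : ℂ) * z + d‖ ^ 2) : ℝ) : ℂ)) * F (uu c d z)‖ ≤
        C * ((1 + Λ) * N * (1 + κ₂) * (1 + 1 / κ₁) * (1 + z.im)) ^ E * √l *
          (δ + 2 ^ r.primeFactors.card * (3 + Real.log r) / (δ * (r : ℝ) ^ (1 / 4 : ℝ))) := by
  obtain ⟨C₀', hC₀'0, hC₀'⟩ := row_card_u_pr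
  refine ⟨30 * (C₀' + 1), 2, by positivity, by norm_num, ?_⟩
  intro z N κ₁ κ₂ Λ F hz hN h1 h2 hΛ hF1 hF2 δ l r c' c hδ0 hδ1 hl hc'0 hcdef hr hcop hδp d₀ D hD
  have hz0 : 0 < z.im := by linarith
  have hk2 : 0 < κ₂ := h1.trans h2
  have hl0 : (0 : ℝ) < l := by exact_mod_cast hl
  have hr0' : 0 < r := Nat.pos_of_ne_zero hr.ne_zero
  have hp1 : (1 : ℝ) ≤ r := by exact_mod_cast hr0'
  have hp0 : (0 : ℝ) < r := by linarith
  have hlog : 0 ≤ Real.log r := Real.log_nonneg hp1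
  have hc : 0 < c := by rw [hcdef]; exact Nat.mul_pos hr0' hc'0
  have hc0 : (0 : ℝ) < c := by exact_mod_cast hc
  have hN1 : (1 : ℝ) ≤ N := by exact_mod_cast hN
  have hi : 0 < 1 / κ₁ := by positivity
  set X : ℝ := (1 + 1 / κ₁) * (1 + z.im) with hXdef
  obtain ⟨hX, hWX, hMW, hNM, hX2⟩ := sel_K5_W h1 hk2 hΛ hN1 hz
  rw [← hXdef] at hX hWX hX2
  set M : ℝ := (1 + Λ) * N * (1 + κ₂) * (1 + 1 / κ₁) with hMdef
  set W : ℝ := M * (1 + z.im) with hWdef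
  have hW1 : 1 ≤ W := hX.trans hWX
  set C₀ : ℝ := C₀' * X with hC₀def
  have hC0 : 0 ≤ C₀ := by positivity
  have hsl := Real.sqrt_nonneg (l : ℝ)
  have hpq : 0 < (r : ℝ) ^ (1 / 4 : ℝ) := Real.rpow_pos_of_pos hp0 _
  set ω : ℝ := 2 ^ r.primeFactors.card with hωdef
  have hω : 0 < ω := by positivity
  set RHS0 : ℝ := 30 * (C₀' + 1) * W ^ (2 : ℝ) * √l *
    (δ + ω * (3 + Real.log r) / (δ * (r : ℝ) ^ (1 / 4 : ℝ))) with hRHS
  rcases D.eq_empty_or_nonempty with hDe | hDne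
  · rw [hDe, Finset.sum_empty, norm_zero, hRHS]
    positivity
  have hcC : (c : ℝ) ≤ C₀ * √l := by
    have h := (hC₀' z κ₁ κ₂ hz h1 l hl (c : ℤ) D (fun d hd => ((hD d).1 hd).1)).2 hDne
    rw [Int.cast_natCast, abs_of_pos hc0] at h
    refine h.trans ?_
    have h3 : C₀' * (1 + 1 / κ₁) ≤ C₀ := by
      rw [hC₀def]
      exact mul_le_mul_of_nonneg_left hX2 hC₀'0.le
    exact mul_le_mul_of_nonneg_right h3 hsl
  -- the annulus
  obtain ⟨a₁, b₁, hK₁⟩ := b5_interval (c * z.re) (c * z.im) (l * z.im / κ₁)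
  obtain ⟨a₂, b₂, hK₂⟩ := b5_interval (c * z.re) (c * z.im) (l * z.im / κ₂)
  set U : Finset ℤ := (Finset.Icc a₁ b₁).filter (fun d => d ∉ Finset.Icc a₂ b₂) with hU
  have hUiff : ∀ d, d ∈ U ↔ Ann z κ₁ κ₂ l c d := by
    intro d
    rw [hU, Finset.mem_filter, ← hK₁, ← hK₂, b5_ann_iff hz0 h1 hk2 hl, not_le]
    push_cast
    rfl
  have hUcard : (U.card : ℝ) ≤ C₀ * √l :=
    (hC₀' z κ₁ κ₂ hz h1 l hl (c : ℤ) U (fun d hd => (hUiff d).1 hd)).1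
  set χ : ℤ → ℂ := fun d => if IsCoprime (c : ℤ) d ∧ (N : ℤ) ∣ d - d₀ then ec l c d else 0 with hχ
  set g0 : ℤ → ℂ := fun d => cexp (2 * Real.pi * I *
          ((l * (c * z.re + d) / (c * ‖(c : ℂ) * z + d‖ ^ 2) : ℝ) : ℂ)) with hg0
  set g : ℤ → ℂ := fun d => g0 d * F (uu c d z) with hg
  have hχ1 : ∀ d, ‖χ d‖ ≤ 1 := by
    intro d
    rw [hχ]
    dsimp only
    split_ifs
    · rw [b5_ec]
    · simp
  have hg01 : ∀ d, ‖g0 d‖ = 1 := by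
    intro d
    rw [hg0]
    dsimp only
    have e : ∀ r : ℝ, 2 * Real.pi * I * (r : ℂ) = ((2 * Real.pi * r : ℝ) : ℂ) * I := by
      intro r
      push_cast
      ring
    rw [e, Complex.norm_exp_ofReal_mul_I]
  have hg1 : ∀ d, ‖g d‖ ≤ 1 := by
    intro d
    rw [hg]
    dsimp only
    rw [norm_mul, hg01, one_mul]
    exact hF1 _ (sel_K5_uu_norm hc hz0 d).2
  have hsumD : ∑ d ∈ D, ec l c d * cexp (2 * Real.pi * I *
          ((l * (c * z.re + d) / (c * ‖(c : ℂ) * z + d‖ ^ 2) : ℝ) : ℂ)) * F (uu c d z) =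
      ∑ d ∈ U, χ d * g d := by
    have hsub : D ⊆ U := fun d hd => (hUiff d).2 ((hD d).1 hd).1
    rw [← Finset.sum_subset hsub (f := fun d => χ d * g d)]
    · apply Finset.sum_congr rfl
      intro d hd
      rw [hχ, hg, hg0]
      dsimp only
      rw [if_pos ((hD d).1 hd).2]
      ring
    · intro d hdU hdD
      have : ¬ (IsCoprime (c : ℤ) d ∧ (N : ℤ) ∣ d - d₀) := fun h =>
        hdD ((hD d).2 ⟨(hUiff d).1 hdU, h⟩)
      rw [hχ]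
      dsimp only
      rw [if_neg this, zero_mul]
  rw [hsumD]
  -- the shifts
  set J : ℕ := ⌊δ * r⌋₊ with hJ
  have hJ1 : 1 ≤ J := by
    rw [hJ]
    exact Nat.le_floor (by simpa using hδp)
  have hJle : (J : ℝ) ≤ δ * r := Nat.floor_le (by positivity)
  have hJp : J ≤ r := by
    have : (J : ℝ) ≤ r := hJle.trans (mul_le_of_le_one_left hp0.le hδ1)
    exact_mod_cast this
  have hJge : δ * r / 2 ≤ J := by
    have h3 : δ * r < J + 1 := Nat.lt_floor_add_one _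
    have h4 : (1 : ℝ) ≤ J := by exact_mod_cast hJ1
    linarith
  set s : ℕ → ℤ := fun j => ((N * c' * j : ℕ) : ℤ) with hs
  have hs0 : ∀ j, 0 ≤ s j := fun j => Int.natCast_nonneg _
  have hsle : ∀ j ∈ Finset.range J, (s j : ℝ) ≤ N * δ * c := by
    intro j hj
    have h3 : j ≤ J := (Finset.mem_range.1 hj).le
    have h4 : (j : ℝ) ≤ δ * r := le_trans (by exact_mod_cast h3) hJle
    rw [hs, hcdef]
    push_cast
    have h5 : (N : ℝ) * c' * j ≤ N * c' * (δ * r) := mul_le_mul_of_nonneg_left h4 (by positivity)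
    linarith
  set B : ℝ := ω * (r : ℝ) ^ (3 / 4 : ℝ) * (3 + Real.log r) with hBdef
  have hB0 : 0 ≤ B := by rw [hBdef]; positivity
  have hB : ∀ d ∈ U, ‖∑ j ∈ Finset.range J, χ (d + s j)‖ ≤ B := by
    intro d _
    by_cases hd : IsCoprime d (c' : ℤ) ∧ (N : ℤ) ∣ d - d₀
    · have h3 := shift_sum_sq hr hc'0 hcop d hd.1 J hJp
      rw [Finset.sum_filter] at h3
      refine le_trans (le_of_eq ?_) h3
      congr 1
      apply Finset.sum_congr rfl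
      intro j _
      rw [hχ, hs]
      dsimp only
      have h4 : (N : ℤ) ∣ d + ((N * c' * j : ℕ) : ℤ) - d₀ := by
        have h5 : (N : ℤ) ∣ ((N * c' * j : ℕ) : ℤ) := ⟨(c' * j : ℕ), by push_cast; ring⟩
        have h6 := dvd_add hd.2 h5
        have e : d + ((N * c' * j : ℕ) : ℤ) - d₀ = d - d₀ + ((N * c' * j : ℕ) : ℤ) := by ring
        rw [e]
        exact h6
      rw [← hcdef]
      by_cases h7 : IsCoprime (c : ℤ) (d + ((N * c' * j : ℕ) : ℤ))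
      · rw [if_pos ⟨h7, h4⟩, if_pos h7.symm]
      · rw [if_neg (fun h => h7 h.1), if_neg (fun h => h7 h.symm)]
    · have h3 : ∀ j ∈ Finset.range J, χ (d + s j) = 0 := by
        intro j _
        rw [hχ, hs]
        dsimp only
        rw [if_neg]
        rintro ⟨h4, h5⟩
        apply hd
        constructor
        · have h6 : IsCoprime (c' : ℤ) (d + ((N * c' * j : ℕ) : ℤ)) := by
            rw [hcdef] at h4
            push_cast at h4 ⊢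
            exact h4.of_mul_left_right
          have e : d + ((N * c' * j : ℕ) : ℤ) = d + (c' : ℤ) * (N * j) := by
            push_cast
            ring
          rw [e, IsCoprime.add_mul_left_right_iff] at h6
          exact h6.symm
        · have h5' : (N : ℤ) ∣ ((N * c' * j : ℕ) : ℤ) := ⟨(c' * j : ℕ), by push_cast; ring⟩
          have h6 := dvd_sub h5 h5'
          have e : d + ((N * c' * j : ℕ) : ℤ) - d₀ - ((N * c' * j : ℕ) : ℤ) = d - d₀ := by ring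
          rw [e] at h6
          exact h6
      rw [Finset.sum_eq_zero h3, norm_zero]
      exact hB0
  set E : ℝ := 17 * M * δ * U.card + 4 * (N * δ * c) with hEdef
  have hE : ∀ j ∈ Finset.range J, ∑' d : ℤ, ‖(if d + s j ∈ U then g (d + s j) else 0) -
      (if d ∈ U then g d else 0)‖ ≤ E := by
    intro j hj
    have hsj := hsle j hj
    have hsj0 : (0 : ℝ) ≤ s j := by exact_mod_cast hs0 j
    set L : ℝ := 17 * M * δ with hL
    have hL0 : 0 ≤ L := by rw [hL]; positivity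
    have hlip : ∀ d, d ∈ U → d + s j ∈ U → ‖g (d + s j) - g d‖ ≤ L := by
      intro d hd hd'
      have hph : ‖g0 (d + s j) - g0 d‖ ≤ 2 * Real.pi * (κ₂ * (N * δ) / z.im) :=
        sel_K5_phase hz0 h1 hk2 hl hc (hs0 j) hsj ((hUiff d).1 hd) ((hUiff _).1 hd')
      have huu : ‖uu c (d + s j) z - uu c d z‖ ≤
          4 * ((N * δ) * ((1 + κ₂) * (1 + 1 / κ₁))) :=
        sel_K5_uulip hz h1 hk2 hl hc (hs0 j) hsj ((hUiff d).1 hd)
      have e4 : g (d + s j) - g d = (g0 (d + s j) - g0 d) * F (uu c (d + s j) z) +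
          g0 d * (F (uu c (d + s j) z) - F (uu c d z)) := by
        rw [hg]; ring
      rw [e4]
      refine (norm_add_le _ _).trans ?_
      rw [norm_mul, norm_mul, hg01, one_mul]
      have hu1 := (sel_K5_uu_norm hc hz0 d).2
      have hu2 := (sel_K5_uu_norm hc hz0 (d + s j)).2
      have h5 : ‖F (uu c (d + s j) z) - F (uu c d z)‖ ≤
          Λ * (4 * ((N * δ) * ((1 + κ₂) * (1 + 1 / κ₁)))) :=
        (hF2 _ _ hu2 hu1).trans (mul_le_mul_of_nonneg_left huu hΛ)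
      have h6 : ‖g0 (d + s j) - g0 d‖ * ‖F (uu c (d + s j) z)‖ ≤
          2 * Real.pi * (κ₂ * (N * δ) / z.im) := by
        calc ‖g0 (d + s j) - g0 d‖ * ‖F (uu c (d + s j) z)‖
            ≤ (2 * Real.pi * (κ₂ * (N * δ) / z.im)) * 1 :=
              mul_le_mul hph (hF1 _ hu2) (norm_nonneg _) (by positivity)
          _ = _ := mul_one _
      have h7 := sel_K5_num (κ₁ := κ₁) (κ₂ := κ₂) (Λ := Λ) (N := N) (δ := δ) (y := z.im)
        h1 hk2 hΛ (by positivity) hδ0.le hz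
      rw [← hMdef] at h7
      linarith
    have hpt : ∀ d : ℤ, ‖(if d + s j ∈ U then g (d + s j) else 0) - (if d ∈ U then g d else 0)‖ ≤
        L * (if d ∈ U then (1 : ℝ) else 0) +
        ((1 * (if d ∈ Finset.Ico (a₁ - s j) a₁ then (1 : ℝ) else 0) +
          1 * (if d ∈ Finset.Ioc (b₁ - s j) b₁ then (1 : ℝ) else 0)) +
        (1 * (if d ∈ Finset.Ico (a₂ - s j) a₂ then (1 : ℝ) else 0) +
          1 * (if d ∈ Finset.Ioc (b₂ - s j) b₂ then (1 : ℝ) else 0))) := by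
      intro d
      have hc1 := b5_icc a₁ b₁ (s j) (hs0 j) d
      have hc2 := b5_icc a₂ b₂ (s j) (hs0 j) d
      have hmem : ∀ e : ℤ, e ∈ U ↔ (e ∈ Finset.Icc a₁ b₁ ∧ e ∉ Finset.Icc a₂ b₂) := by
        intro e
        rw [hU, Finset.mem_filter]
      rw [one_mul, one_mul, one_mul, one_mul]
      refine le_trans ?_ (add_le_add le_rfl (add_le_add hc1 hc2))
      by_cases h3 : d ∈ U
      · by_cases h4 : d + s j ∈ U
        · rw [if_pos h3, if_pos h4, if_pos h3, mul_one]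
          have := hlip d h3 h4
          have h5 := abs_nonneg ((if d + s j ∈ Finset.Icc a₁ b₁ then (1 : ℝ) else 0) -
            (if d ∈ Finset.Icc a₁ b₁ then (1 : ℝ) else 0))
          have h6 := abs_nonneg ((if d + s j ∈ Finset.Icc a₂ b₂ then (1 : ℝ) else 0) -
            (if d ∈ Finset.Icc a₂ b₂ then (1 : ℝ) else 0))
          linarith
        · rw [if_pos h3, if_neg h4, if_pos h3, zero_sub, norm_neg]
          refine (hg1 d).trans ?_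
          have h3' := (hmem d).1 h3
          have h4' := fun h => h4 ((hmem _).2 h)
          by_cases h5 : d + s j ∈ Finset.Icc a₁ b₁
          · have h6 : d + s j ∈ Finset.Icc a₂ b₂ := by
              by_contra h7
              exact h4' ⟨h5, h7⟩
            rw [if_pos h6, if_neg h3'.2, if_pos h5, if_pos h3'.1]
            norm_num
            exact hL0
          · rw [if_neg h5, if_pos h3'.1]
            have h6 := abs_nonneg ((if d + s j ∈ Finset.Icc a₂ b₂ then (1 : ℝ) else 0) -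
              (if d ∈ Finset.Icc a₂ b₂ then (1 : ℝ) else 0))
            have h7 : |(0 : ℝ) - 1| = 1 := by norm_num
            rw [h7]
            linarith
      · by_cases h4 : d + s j ∈ U
        · rw [if_neg h3, if_pos h4, if_neg h3, sub_zero]
          refine (hg1 _).trans ?_
          have h4' := (hmem _).1 h4
          have h3' := fun h => h3 ((hmem _).2 h)
          by_cases h5 : d ∈ Finset.Icc a₁ b₁
          · have h6 : d ∈ Finset.Icc a₂ b₂ := by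
              by_contra h7
              exact h3' ⟨h5, h7⟩
            rw [if_pos h6, if_neg h4'.2, if_pos h5, if_pos h4'.1]
            norm_num
          · rw [if_neg h5, if_pos h4'.1]
            have h6 := abs_nonneg ((if d + s j ∈ Finset.Icc a₂ b₂ then (1 : ℝ) else 0) -
              (if d ∈ Finset.Icc a₂ b₂ then (1 : ℝ) else 0))
            have h7 : |(1 : ℝ) - 0| = 1 := by norm_num
            rw [h7]
            linarith
        · rw [if_neg h3, if_neg h4, if_neg h3, sub_zero, norm_zero]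
          positivity
    have hhas := (b5_hasSum U L).add (((b5_hasSum (Finset.Ico (a₁ - s j) a₁) 1).add
      (b5_hasSum (Finset.Ioc (b₁ - s j) b₁) 1)).add ((b5_hasSum (Finset.Ico (a₂ - s j) a₂) 1).add
      (b5_hasSum (Finset.Ioc (b₂ - s j) b₂) 1)))
    have hsummable : Summable (fun d : ℤ => ‖(if d + s j ∈ U then g (d + s j) else 0) -
        (if d ∈ U then g d else 0)‖) :=
      Summable.of_nonneg_of_le (fun d => norm_nonneg _) hpt hhas.summable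
    have h5 := hasSum_le hpt hsummable.hasSum hhas
    refine h5.trans ?_
    have hco : ∀ a : ℤ, ((Finset.Ico (a - s j) a).card : ℝ) = s j := by
      intro a
      rw [Int.card_Ico, sub_sub_cancel]
      have := Int.toNat_of_nonneg (hs0 j)
      exact_mod_cast this
    have hcc : ∀ a : ℤ, ((Finset.Ioc (a - s j) a).card : ℝ) = s j := by
      intro a
      rw [Int.card_Ioc, sub_sub_cancel]
      have := Int.toNat_of_nonneg (hs0 j)
      exact_mod_cast this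
    rw [hco, hco, hcc, hcc, hEdef]
    linarith
  have hfin := b5_avg χ g U hχ1 hg1 s J B E hB hE
  have hJ0 : (0 : ℝ) < J := by exact_mod_cast hJ1
  have hmain : ‖∑ d ∈ U, χ d * g d‖ ≤ U.card * B / J + E := by
    rw [div_add' _ _ _ hJ0.ne', le_div_iff₀ hJ0]
    linarith
  refine hmain.trans ?_
  have hp34 : (r : ℝ) ^ (3 / 4 : ℝ) * (r : ℝ) ^ (1 / 4 : ℝ) = r := by
    rw [← Real.rpow_add hp0]
    norm_num
  set T : ℝ := ω * (3 + Real.log r) / (δ * (r : ℝ) ^ (1 / 4 : ℝ)) with hT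
  have hT0 : 0 ≤ T := by rw [hT]; positivity
  have hterm1 : U.card * B / J ≤ C₀ * √l * 2 * T := by
    rw [div_le_iff₀ hJ0]
    have h3 : U.card * B ≤ C₀ * √l * B := mul_le_mul_of_nonneg_right hUcard hB0
    refine h3.trans ?_
    have h4 : C₀ * √l * B = C₀ * √l * 2 * T * (δ * r / 2) := by
      rw [hBdef, hT]
      have h6 : δ * (r : ℝ) / 2 = δ * (r : ℝ) ^ (1 / 4 : ℝ) * ((r : ℝ) ^ (3 / 4 : ℝ) / 2) := by
        have : δ * (r : ℝ) ^ (1 / 4 : ℝ) * ((r : ℝ) ^ (3 / 4 : ℝ) / 2) =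
            δ * ((r : ℝ) ^ (3 / 4 : ℝ) * (r : ℝ) ^ (1 / 4 : ℝ)) / 2 := by ring
        rw [this, hp34]
      rw [h6]
      field_simp
    rw [h4]
    apply mul_le_mul_of_nonneg_left hJge
    positivity
  have hW2 : W ^ (2 : ℝ) = W ^ 2 := by
    exact_mod_cast Real.rpow_natCast W 2
  rw [hRHS, hW2]
  have hC0W : C₀ ≤ C₀' * W := by
    rw [hC₀def]; exact mul_le_mul_of_nonneg_left hWX hC₀'0.le
  exact sel_K5_fin hC₀'0.le hW1 hC0W hC0 hMW hNM (by positivity) hsl hT0 hδ0.le hterm1 hEdef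
    hUcard hcC

theorem row_sq : type_of% @row_sq_pr := @row_sq_pr
theorem row_card_u : type_of% @row_card_u_pr := @row_card_u_pr

end Pool.Agent.SEL
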