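import Pool.Agent.Lib_helper68.SEL.Defs
import Pool.Agent.Lib_helper68.GL2.B6
import Pool.Agent.Lib_helper68.SEL.K5
import Pool.Agent.Lib_helper68.SEL.KA

/-!
# Block K6 (PTW): power saving for the twisted sum over the annulus
-/

namespace Pool.Agent.SEL

open Complex MeasureTheory Filter Topology Pool.Agent.GL2

theorem sel_K6_uu_norm {c d : ℤ} {z : ℂ} (h : (c : ℂ) * z + d ≠ 0) : ‖uu c d z‖ = 1 := by
  unfold uu
  rw [norm_div, Complex.norm_real, norm_norm, div_self (norm_ne_zero_iff.2 h)]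

theorem sel_K6_den {z : ℂ} (hz : 0 < z.im) {c d : ℤ} (h : IsCoprime c d) :
    (c : ℂ) * z + d ≠ 0 := by
  intro h0
  have h1 := congrArg Complex.im h0
  simp at h1
  rcases h1 with h1 | h1
  · subst h1
    simp at h0
    subst h0
    exact not_isCoprime_zero_zero h
  · exact hz.ne' h1

theorem sel_K6_uu_neg (c d : ℤ) (z : ℂ) : uu (-c) (-d) z = -uu c d z := by
  unfold uu
  have h : (((-c : ℤ) : ℂ) * z + ((-d : ℤ) : ℂ)) = -((c : ℂ) * z + d) := by push_cast; ring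
  rw [h, norm_neg, neg_div]

/-- the sum over the matrices with given positive `c` -/
theorem sel_K6_row {z : ℂ} (hz : 0 < z.im) {N : ℕ} {κ₁ κ₂ : ℝ} {l : ℕ} {c : ℕ} (hc : 0 < c)
    {d₀ : ℤ} {R : ℝ} {F : ℂ → ℂ}
    (hR : ∀ D : Finset ℤ,
      (∀ d : ℤ, d ∈ D ↔ Ann z κ₁ κ₂ l c d ∧ IsCoprime (c : ℤ) d ∧ (N : ℤ) ∣ d - d₀) →
      ‖∑ d ∈ D, ec l c d * cexp (2 * Real.pi * I *
          ((l * (c * z.re + d) / (c * ‖(c : ℂ) * z + d‖ ^ 2) : ℝ) : ℂ)) * F (uu c d z)‖ ≤ R)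
    (S : Finset (ℤ × ℤ × ℤ × ℤ)) (hS : ∀ g ∈ S, Det1 g)
    (hinj : ∀ g ∈ S, ∀ g' ∈ S, g.2.2 = g'.2.2 → g = g')
    (hc1 : ∀ g ∈ S, g.2.2.1 = (c : ℤ))
    (hd : ∀ d : ℤ, (∃ g ∈ S, g.2.2.2 = d) ↔
      Ann z κ₁ κ₂ l c d ∧ IsCoprime (c : ℤ) d ∧ (N : ℤ) ∣ d - d₀) :
    ‖∑ g ∈ S, cexp (-(2 * Real.pi * I) * l * ((mob g z).re : ℂ)) *
      F (uu g.2.2.1 g.2.2.2 z)‖ ≤ R := by
  classical
  have hi : Set.InjOn (fun g : ℤ × ℤ × ℤ × ℤ => g.2.2.2) (S : Set (ℤ × ℤ × ℤ × ℤ)) := by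
    intro g hg g' hg' h
    exact hinj g hg g' hg' (Prod.ext (by rw [hc1 g hg, hc1 g' hg']) h)
  have h1 := hR (S.image (fun g => g.2.2.2)) (by
    intro d
    rw [Finset.mem_image]
    exact hd d)
  rw [Finset.sum_image hi] at h1
  refine le_trans (le_of_eq ?_) h1
  congr 1
  refine Finset.sum_congr rfl fun g hg => ?_
  have hg2 : g = (g.1, g.2.1, (c : ℤ), g.2.2.2) := by
    rw [← hc1 g hg]
  have hdet : Det1 (g.1, g.2.1, (c : ℤ), g.2.2.2) := by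
    rw [← hg2]
    exact hS g hg
  have h2 := b6_term hz hc hdet l
  rw [← hg2] at h2
  rw [h2, hc1 g hg]

theorem sel_K6_num {Cτ : ℝ} (hCτ0 : 0 ≤ Cτ)
    (hCτ : ∀ n : ℕ, 0 < n → (n.divisors.card : ℝ) ≤ Cτ * (n : ℝ) ^ (1 / 32 : ℝ))
    {r l : ℕ} (hr : 0 < r) (hl : 0 < l) (hrl : (l : ℝ) ^ (3 / 10 : ℝ) ≤ r) :
    0 < (r : ℝ) ^ (-(1 / 8) : ℝ) ∧ (r : ℝ) ^ (-(1 / 8) : ℝ) ≤ 1 ∧
      1 ≤ (r : ℝ) ^ (-(1 / 8) : ℝ) * r ∧
      (r : ℝ) ^ (-(1 / 8) : ℝ) + 2 ^ r.primeFactors.card * (3 + Real.log r) /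
        ((r : ℝ) ^ (-(1 / 8) : ℝ) * (r : ℝ) ^ (1 / 4 : ℝ)) ≤
        (1 + 35 * Cτ) * (l : ℝ) ^ (-(3 / 160) : ℝ) := by
  have hr1 : (1 : ℝ) ≤ r := by exact_mod_cast hr
  have hr0 : (0 : ℝ) < r := by linarith
  have hl1 : (1 : ℝ) ≤ l := by exact_mod_cast hl
  have hl0 : (0 : ℝ) < l := by linarith
  have hδ0 : 0 < (r : ℝ) ^ (-(1 / 8) : ℝ) := Real.rpow_pos_of_pos hr0 _
  refine ⟨hδ0, Real.rpow_le_one_of_one_le_of_nonpos hr1 (by norm_num), ?_, ?_⟩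
  · have e : (r : ℝ) ^ (-(1 / 8) : ℝ) * r = (r : ℝ) ^ (7 / 8 : ℝ) := by
      conv_lhs => rw [show (r : ℝ) = (r : ℝ) ^ (1 : ℝ) by rw [Real.rpow_one]]
      rw [← Real.rpow_mul hr0.le, ← Real.rpow_add hr0]
      norm_num
    rw [e]
    exact Real.one_le_rpow hr1 (by norm_num)
  · have hq0 : 0 < (r : ℝ) ^ (1 / 32 : ℝ) := Real.rpow_pos_of_pos hr0 _
    have hq1 : 1 ≤ (r : ℝ) ^ (1 / 32 : ℝ) := Real.one_le_rpow hr1 (by norm_num)
    have hω : (2 : ℝ) ^ r.primeFactors.card ≤ Cτ * (r : ℝ) ^ (1 / 32 : ℝ) := by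
      have h1 : ((2 ^ r.primeFactors.card : ℕ) : ℝ) ≤ (r.divisors.card : ℝ) := by
        exact_mod_cast omega_le r hr
      push_cast at h1
      exact h1.trans (hCτ r hr)
    have hlog : 3 + Real.log r ≤ 35 * (r : ℝ) ^ (1 / 32 : ℝ) := by
      have h1 := Real.log_le_rpow_div hr0.le (by norm_num : (0 : ℝ) < 1 / 32)
      have h2 : (r : ℝ) ^ (1 / 32 : ℝ) / (1 / 32 : ℝ) = 32 * (r : ℝ) ^ (1 / 32 : ℝ) := by ring
      linarith
    have hlog0 : 0 ≤ 3 + Real.log r := by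
      have := Real.log_nonneg hr1
      linarith
    have e1 : (r : ℝ) ^ (-(1 / 8) : ℝ) * (r : ℝ) ^ (1 / 4 : ℝ) = (r : ℝ) ^ (1 / 8 : ℝ) := by
      rw [← Real.rpow_add hr0]; norm_num
    rw [e1]
    have h3 : 2 ^ r.primeFactors.card * (3 + Real.log r) / (r : ℝ) ^ (1 / 8 : ℝ) ≤
        35 * Cτ * (r : ℝ) ^ (-(1 / 16) : ℝ) := by
      have h4 : (0 : ℝ) < (r : ℝ) ^ (1 / 8 : ℝ) := Real.rpow_pos_of_pos hr0 _
      rw [div_le_iff₀ h4]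
      have e2 : 35 * Cτ * (r : ℝ) ^ (-(1 / 16) : ℝ) * (r : ℝ) ^ (1 / 8 : ℝ) =
          (Cτ * (r : ℝ) ^ (1 / 32 : ℝ)) * (35 * (r : ℝ) ^ (1 / 32 : ℝ)) := by
        have e3 : (r : ℝ) ^ (-(1 / 16) : ℝ) * (r : ℝ) ^ (1 / 8 : ℝ) =
            (r : ℝ) ^ (1 / 32 : ℝ) * (r : ℝ) ^ (1 / 32 : ℝ) := by
          rw [← Real.rpow_add hr0, ← Real.rpow_add hr0]; norm_num
        rw [mul_assoc, e3]; ring
      rw [e2]
      exact mul_le_mul hω hlog hlog0 (by positivity)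
    have h5 : (r : ℝ) ^ (-(1 / 8) : ℝ) ≤ (r : ℝ) ^ (-(1 / 16) : ℝ) :=
      Real.rpow_le_rpow_of_exponent_le hr1 (by norm_num)
    have h6 : (r : ℝ) ^ (-(1 / 16) : ℝ) ≤ (l : ℝ) ^ (-(3 / 160) : ℝ) := by
      have h7 : (0 : ℝ) < (l : ℝ) ^ (3 / 10 : ℝ) := Real.rpow_pos_of_pos hl0 _
      have h8 := Real.rpow_le_rpow_of_nonpos h7 hrl (by norm_num : (-(1 / 16) : ℝ) ≤ 0)
      rw [← Real.rpow_mul hl0.le] at h8
      have e4 : (3 / 10 : ℝ) * -(1 / 16) = -(3 / 160) := by norm_num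
      rwa [e4] at h8
    have h9 : 0 ≤ 1 + 35 * Cτ := by positivity
    calc (r : ℝ) ^ (-(1 / 8) : ℝ) + 2 ^ r.primeFactors.card * (3 + Real.log r) /
          (r : ℝ) ^ (1 / 8 : ℝ)
        ≤ (r : ℝ) ^ (-(1 / 16) : ℝ) + 35 * Cτ * (r : ℝ) ^ (-(1 / 16) : ℝ) := add_le_add h5 h3
      _ = (1 + 35 * Cτ) * (r : ℝ) ^ (-(1 / 16) : ℝ) := by ring
      _ ≤ _ := mul_le_mul_of_nonneg_left h6 h9

/-- final numerical bound -/
theorem sel_K6_fin {C₁ C₂ E₂ T Cd W A L N : ℝ} (hC₁ : 1 ≤ C₁) (hC₂ : 0 ≤ C₂) (hE₂ : 0 ≤ E₂)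
    (hT : 0 ≤ T) (hCd : 0 ≤ Cd) (hW : 1 ≤ W) (hN1 : 1 ≤ N) (hNW : N ≤ W) (hA : A = C₁ * W)
    (hL : 1 ≤ L) :
    3 * L ^ (2 / 5 : ℝ) * (A * √L) +
      (2 * (4 * (A * √L) * (Cd * (L * N) ^ (1 / 120 : ℝ)) * (L ^ (1 / 10 : ℝ)) ^ (-(1 / 6) : ℝ)))
        * (A * √L) +
      (3 * A * √L) * (C₂ * W ^ E₂ * √L * (T * L ^ (-(3 / 160) : ℝ))) ≤
    (3 * C₁ + 8 * Cd * C₁ ^ 2 + 3 * C₁ * C₂ * T) * W ^ (E₂ + 3) * L ^ (199 / 200 : ℝ) := by
  have hL0 : 0 < L := by linarith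
  have hW0 : 0 < W := by linarith
  have hN0 : 0 < N := by linarith
  have hs : √L = L ^ (1 / 2 : ℝ) := Real.sqrt_eq_rpow L
  set P := L ^ (199 / 200 : ℝ) with hP
  have hP0 : 0 < P := Real.rpow_pos_of_pos hL0 _
  set V := W ^ (E₂ + 3) with hV
  have hV1 : W ≤ V := by
    rw [hV]
    calc W = W ^ (1 : ℝ) := (Real.rpow_one W).symm
      _ ≤ _ := Real.rpow_le_rpow_of_exponent_le hW (by linarith)
  have hV2 : W ^ 3 ≤ V := by
    rw [hV]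
    calc W ^ 3 = W ^ (3 : ℝ) := by norm_cast
      _ ≤ _ := Real.rpow_le_rpow_of_exponent_le hW (by linarith)
  have hV3 : W * W ^ E₂ ≤ V := by
    rw [hV]
    calc W * W ^ E₂ = W ^ (1 + E₂) := by rw [Real.rpow_add hW0, Real.rpow_one]
      _ ≤ _ := Real.rpow_le_rpow_of_exponent_le hW (by linarith)
  have t1 : L ^ (2 / 5 : ℝ) * √L ≤ P := by
    rw [hs, ← Real.rpow_add hL0, hP]
    exact Real.rpow_le_rpow_of_exponent_le hL (by norm_num)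
  have t2 : √L * (L * N) ^ (1 / 120 : ℝ) * (L ^ (1 / 10 : ℝ)) ^ (-(1 / 6) : ℝ) * √L ≤ W * P := by
    rw [hs, Real.mul_rpow hL0.le hN0.le, ← Real.rpow_mul hL0.le]
    have h1 : N ^ (1 / 120 : ℝ) ≤ W := by
      calc N ^ (1 / 120 : ℝ) ≤ N ^ (1 : ℝ) :=
            Real.rpow_le_rpow_of_exponent_le hN1 (by norm_num)
        _ = N := Real.rpow_one N
        _ ≤ W := hNW
    have h2 : L ^ (1 / 2 : ℝ) * (L ^ (1 / 120 : ℝ) * N ^ (1 / 120 : ℝ)) *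
        L ^ (1 / 10 * -(1 / 6) : ℝ) * L ^ (1 / 2 : ℝ) =
        N ^ (1 / 120 : ℝ) * L ^ (1 / 2 + 1 / 120 + 1 / 10 * -(1 / 6) + 1 / 2 : ℝ) := by
      rw [Real.rpow_add hL0, Real.rpow_add hL0, Real.rpow_add hL0]; ring
    rw [h2]
    apply mul_le_mul h1 _ (by positivity) hW0.le
    rw [hP]
    exact Real.rpow_le_rpow_of_exponent_le hL (by norm_num)
  have t3 : √L * √L * L ^ (-(3 / 160) : ℝ) ≤ P := by
    rw [hs, ← Real.rpow_add hL0, ← Real.rpow_add hL0, hP]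
    exact Real.rpow_le_rpow_of_exponent_le hL (by norm_num)
  have a1 : 3 * L ^ (2 / 5 : ℝ) * (A * √L) ≤ 3 * C₁ * V * P := by
    calc 3 * L ^ (2 / 5 : ℝ) * (A * √L) = 3 * C₁ * W * (L ^ (2 / 5 : ℝ) * √L) := by
          rw [hA]; ring
      _ ≤ 3 * C₁ * V * P := by
          apply mul_le_mul _ t1 (by positivity) (by positivity)
          exact mul_le_mul_of_nonneg_left hV1 (by positivity)
  have a2 : (2 * (4 * (A * √L) * (Cd * (L * N) ^ (1 / 120 : ℝ)) *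
      (L ^ (1 / 10 : ℝ)) ^ (-(1 / 6) : ℝ))) * (A * √L) ≤ 8 * Cd * C₁ ^ 2 * V * P := by
    calc _ = 8 * Cd * C₁ ^ 2 * W ^ 2 * (√L * (L * N) ^ (1 / 120 : ℝ) *
          (L ^ (1 / 10 : ℝ)) ^ (-(1 / 6) : ℝ) * √L) := by rw [hA]; ring
      _ ≤ 8 * Cd * C₁ ^ 2 * W ^ 2 * (W * P) := mul_le_mul_of_nonneg_left t2 (by positivity)
      _ = 8 * Cd * C₁ ^ 2 * P * W ^ 3 := by ring
      _ ≤ 8 * Cd * C₁ ^ 2 * P * V := mul_le_mul_of_nonneg_left hV2 (by positivity)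
      _ = _ := by ring
  have a3 : (3 * A * √L) * (C₂ * W ^ E₂ * √L * (T * L ^ (-(3 / 160) : ℝ))) ≤
      3 * C₁ * C₂ * T * V * P := by
    calc _ = 3 * C₁ * C₂ * T * (W * W ^ E₂) * (√L * √L * L ^ (-(3 / 160) : ℝ)) := by
          rw [hA]; ring
      _ ≤ 3 * C₁ * C₂ * T * V * P := by
          apply mul_le_mul _ t3 (by positivity) (by positivity)
          exact mul_le_mul_of_nonneg_left hV3 (by positivity)
  have e : (3 * C₁ + 8 * Cd * C₁ ^ 2 + 3 * C₁ * C₂ * T) * V * P =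
      3 * C₁ * V * P + 8 * Cd * C₁ ^ 2 * V * P + 3 * C₁ * C₂ * T * V * P := by ring
  rw [e]
  linarith

/-- weights for the negative rows -/
theorem sel_K6_good {z : ℂ} (hz : 0 < z.im) {N : ℕ} {κ₁ κ₂ : ℝ} {l : ℕ} {c₀ d₀ : ℤ}
    {S : Finset (ℤ × ℤ × ℤ × ℤ)} (hS : ∀ g ∈ S, Det1 g)
    (hinj : ∀ g ∈ S, ∀ g' ∈ S, g.2.2 = g'.2.2 → g = g')
    (hrow : ∀ c d : ℤ, (∃ g ∈ S, g.2.2 = (c, d)) ↔
        Ann z κ₁ κ₂ l c d ∧ IsCoprime c d ∧ (N : ℤ) ∣ c - c₀ ∧ (N : ℤ) ∣ d - d₀)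
    {F : ℂ → ℂ} {c : ℤ} (hc0 : c ≠ 0) {R : ℝ} (hR0 : 0 ≤ R)
    (hbd : ∀ F' : ℂ → ℂ, (F' = F ∨ F' = fun u => F (-u)) → ∀ x : ℤ, ∀ D : Finset ℤ,
        (∀ d : ℤ, d ∈ D ↔ Ann z κ₁ κ₂ l (c.natAbs : ℤ) d ∧ IsCoprime ((c.natAbs : ℕ) : ℤ) d ∧
          (N : ℤ) ∣ d - x) →
        ‖∑ d ∈ D, ec l c.natAbs d * cexp (2 * Real.pi * I *
          ((l * ((c.natAbs : ℕ) * z.re + d) / ((c.natAbs : ℕ) *
            ‖(((c.natAbs : ℕ) : ℕ) : ℂ) * z + d‖ ^ 2) : ℝ) : ℂ)) *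
              F' (uu (c.natAbs : ℕ) d z)‖ ≤ R) :
    ‖∑ g ∈ S.filter (fun g => g.2.2.1 = c), cexp (-(2 * Real.pi * I) * l * ((mob g z).re : ℂ)) *
      F (uu g.2.2.1 g.2.2.2 z)‖ ≤ R := by
  classical
  have hn : 0 < c.natAbs := Int.natAbs_pos.mpr hc0
  have hSann : ∀ g ∈ S, Ann z κ₁ κ₂ l g.2.2.1 g.2.2.2 ∧ IsCoprime g.2.2.1 g.2.2.2 ∧
      (N : ℤ) ∣ g.2.2.1 - c₀ ∧ (N : ℤ) ∣ g.2.2.2 - d₀ := fun g hg =>
    (hrow g.2.2.1 g.2.2.2).mp ⟨g, hg, rfl⟩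
  rcases Finset.eq_empty_or_nonempty (S.filter (fun g => g.2.2.1 = c)) with he | ⟨g₁, hg₁⟩
  · rw [he, Finset.sum_empty, norm_zero]
    exact hR0
  rw [Finset.mem_filter] at hg₁
  have hcN : (N : ℤ) ∣ c - c₀ := by
    have := (hSann g₁ hg₁.1).2.2.1
    rwa [hg₁.2] at this
  rcases Int.natAbs_eq c with hpos | hneg
  · -- positive
    refine sel_K6_row hz hn (hbd F (Or.inl rfl) d₀) _ (fun g hg => hS g (Finset.mem_filter.mp hg).1)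
      (fun g hg g' hg' h => hinj g (Finset.mem_filter.mp hg).1 g' (Finset.mem_filter.mp hg').1 h)
      (fun g hg => by rw [(Finset.mem_filter.mp hg).2]; exact hpos) (fun d => ?_)
    rw [← hpos]
    constructor
    · rintro ⟨g, hg, rfl⟩
      rw [Finset.mem_filter] at hg
      have h5 := hSann g hg.1
      rw [hg.2] at h5
      exact ⟨h5.1, h5.2.1, h5.2.2.2⟩
    · rintro ⟨h5, h6, h7⟩
      obtain ⟨g, hg, hgc⟩ := (hrow c d).mpr ⟨h5, h6, hcN, h7⟩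
      exact ⟨g, Finset.mem_filter.mpr ⟨hg, by rw [hgc]⟩, by rw [hgc]⟩
  · -- negative
    have hneg' : ((c.natAbs : ℕ) : ℤ) = -c := by rw [hneg]; simp
    have hni : Set.InjOn b6_neg (S.filter (fun g => g.2.2.1 = c) : Set (ℤ × ℤ × ℤ × ℤ)) := by
      intro g _ g' _ h
      rw [← b6_neg_neg g, h, b6_neg_neg]
    have hsum : ∑ g ∈ S.filter (fun g => g.2.2.1 = c),
        cexp (-(2 * Real.pi * I) * l * ((mob g z).re : ℂ)) * F (uu g.2.2.1 g.2.2.2 z) =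
        ∑ g ∈ (S.filter (fun g => g.2.2.1 = c)).image b6_neg,
          cexp (-(2 * Real.pi * I) * l * ((mob g z).re : ℂ)) *
            (fun u => F (-u)) (uu g.2.2.1 g.2.2.2 z) := by
      rw [Finset.sum_image hni]
      refine Finset.sum_congr rfl fun g _ => ?_
      rw [b6_neg_mob]
      have e : uu (b6_neg g).2.2.1 (b6_neg g).2.2.2 z = -uu g.2.2.1 g.2.2.2 z :=
        sel_K6_uu_neg _ _ _
      simp only [e, neg_neg]
    rw [hsum]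
    refine sel_K6_row (F := fun u => F (-u)) hz hn (hbd (fun u => F (-u)) (Or.inr rfl) (-d₀)) _ (fun g hg => ?_)
      (fun g hg g' hg' h => ?_) (fun g hg => ?_) (fun d => ?_)
    · obtain ⟨g₂, hg₂, rfl⟩ := Finset.mem_image.mp hg
      exact b6_neg_det (hS g₂ (Finset.mem_filter.mp hg₂).1)
    · obtain ⟨g₂, hg₂, rfl⟩ := Finset.mem_image.mp hg
      obtain ⟨g₃, hg₃, rfl⟩ := Finset.mem_image.mp hg'
      congr 1
      refine hinj g₂ (Finset.mem_filter.mp hg₂).1 g₃ (Finset.mem_filter.mp hg₃).1 ?_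
      unfold b6_neg at h
      simp only [Prod.mk.injEq, neg_inj] at h
      exact Prod.ext h.1 h.2
    · obtain ⟨g₂, hg₂, rfl⟩ := Finset.mem_image.mp hg
      rw [hneg', ← (Finset.mem_filter.mp hg₂).2]
      rfl
    · rw [hneg']
      constructor
      · rintro ⟨g, hg, rfl⟩
        obtain ⟨g₂, hg₂, rfl⟩ := Finset.mem_image.mp hg
        rw [Finset.mem_filter] at hg₂
        have h5 := hSann g₂ hg₂.1
        rw [hg₂.2] at h5
        refine ⟨b6_ann_neg.mpr h5.1, h5.2.1.neg_neg, ?_⟩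
        have : (b6_neg g₂).2.2.2 - -d₀ = -(g₂.2.2.2 - d₀) := by
          unfold b6_neg; ring
        rw [this]
        exact h5.2.2.2.neg_right
      · rintro ⟨h5, h6, h7⟩
        have h8 : Ann z κ₁ κ₂ l c (-d) := by
          rw [← b6_ann_neg, neg_neg]
          exact h5
        have h9 : IsCoprime c (-d) := by
          have := h6.neg_neg
          rwa [neg_neg] at this
        have h10 : (N : ℤ) ∣ -d - d₀ := by
          have : -d - d₀ = -(d - -d₀) := by ring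
          rw [this]
          exact h7.neg_right
        obtain ⟨g, hg, hgc⟩ := (hrow c (-d)).mpr ⟨h8, h9, hcN, h10⟩
        refine ⟨b6_neg g, Finset.mem_image.mpr ⟨g, Finset.mem_filter.mpr ⟨hg, by rw [hgc]⟩, rfl⟩, ?_⟩
        unfold b6_neg
        rw [hgc]
        simp

open Classical in
/-- summing the bounds of the rows -/
theorem sel_K6_sum {K : Finset ℤ} {X : ℕ} (hK : ∀ c ∈ K, c.natAbs ≤ X) {f : ℤ → ℝ}
    {Bd : Finset ℕ} {Z A G B : ℝ} (hZ : 1 ≤ Z) (hA : 0 ≤ A) (hG : 0 ≤ G) (hB : (Bd.card : ℝ) ≤ B)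
    (hf : ∀ c ∈ K, f c ≤ (if ((c.natAbs : ℕ) : ℝ) ≤ Z then A else 0) +
      (if c.natAbs ∈ Bd then A else 0) + G) :
    ∑ c ∈ K, f c ≤ 3 * Z * A + (2 * B) * A + (2 * X + 1) * G := by
  refine (Finset.sum_le_sum hf).trans ?_
  rw [Finset.sum_add_distrib, Finset.sum_add_distrib, Finset.sum_const, nsmul_eq_mul]
  have hKcard : (K.card : ℝ) ≤ 2 * X + 1 := by
    have h3 : K ⊆ Finset.Icc (-(X : ℤ)) X := by
      intro c hc
      have := hK c hc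
      rw [Finset.mem_Icc]
      constructor <;> omega
    have h4 := Finset.card_le_card h3
    rw [Int.card_Icc] at h4
    have h5 : ((X : ℤ) + 1 - -(X : ℤ)).toNat = 2 * X + 1 := by omega
    rw [h5] at h4
    calc (K.card : ℝ) ≤ ((2 * X + 1 : ℕ) : ℝ) := by exact_mod_cast h4
      _ = 2 * X + 1 := by push_cast; ring
  have hs1 : ∑ c ∈ K, (if ((c.natAbs : ℕ) : ℝ) ≤ Z then A else 0) ≤ 3 * Z * A := by
    rw [← Finset.sum_filter, Finset.sum_const, nsmul_eq_mul]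
    refine mul_le_mul_of_nonneg_right ?_ hA
    have h3 : K.filter (fun c => ((c.natAbs : ℕ) : ℝ) ≤ Z) ⊆ Finset.Icc (-(⌊Z⌋₊ : ℤ)) ⌊Z⌋₊ := by
      intro c hc
      rw [Finset.mem_filter] at hc
      have h4 : c.natAbs ≤ ⌊Z⌋₊ := Nat.le_floor hc.2
      rw [Finset.mem_Icc]
      constructor <;> omega
    have h4 := Finset.card_le_card h3
    rw [Int.card_Icc] at h4
    have h5 : ((⌊Z⌋₊ : ℤ) + 1 - -(⌊Z⌋₊ : ℤ)).toNat = 2 * ⌊Z⌋₊ + 1 := by omega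
    rw [h5] at h4
    have h6 : (⌊Z⌋₊ : ℝ) ≤ Z := Nat.floor_le (by linarith)
    calc ((K.filter (fun c => ((c.natAbs : ℕ) : ℝ) ≤ Z)).card : ℝ) ≤ ((2 * ⌊Z⌋₊ + 1 : ℕ) : ℝ) := by
          exact_mod_cast h4
      _ = 2 * ⌊Z⌋₊ + 1 := by push_cast; ring
      _ ≤ 3 * Z := by linarith
  have hs2 : ∑ c ∈ K, (if c.natAbs ∈ Bd then A else 0) ≤ (2 * B) * A := by
    rw [← Finset.sum_filter, Finset.sum_const, nsmul_eq_mul]
    refine mul_le_mul_of_nonneg_right ?_ hA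
    have h3 : K.filter (fun c => c.natAbs ∈ Bd) ⊆
        Bd.image (fun n : ℕ => (n : ℤ)) ∪ Bd.image (fun n : ℕ => -(n : ℤ)) := by
      intro c hc
      rw [Finset.mem_filter] at hc
      rw [Finset.mem_union, Finset.mem_image, Finset.mem_image]
      rcases Int.natAbs_eq c with h | h
      · exact Or.inl ⟨c.natAbs, hc.2, h.symm⟩
      · exact Or.inr ⟨c.natAbs, hc.2, h.symm⟩
    have h4 : (K.filter (fun c => c.natAbs ∈ Bd)).card ≤ 2 * Bd.card := by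
      refine (Finset.card_le_card h3).trans ((Finset.card_union_le _ _).trans ?_)
      have h5 := Finset.card_image_le (s := Bd) (f := fun n : ℕ => (n : ℤ))
      have h6 := Finset.card_image_le (s := Bd) (f := fun n : ℕ => -(n : ℤ))
      omega
    calc ((K.filter (fun c => c.natAbs ∈ Bd)).card : ℝ) ≤ ((2 * Bd.card : ℕ) : ℝ) := by
          exact_mod_cast h4
      _ = 2 * (Bd.card : ℝ) := by push_cast; ring
      _ ≤ 2 * B := by linarith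
  have hs3 : (K.card : ℝ) * G ≤ (2 * X + 1) * G := mul_le_mul_of_nonneg_right hKcard hG
  linarith

theorem sel_K6_W {κ₁ κ₂ Λ N y : ℝ} (h1 : 0 < κ₁) (hk2 : 0 < κ₂) (hΛ : 0 ≤ Λ) (hN : 1 ≤ N)
    (hy : 1 / 2 ≤ y) : (1 + 1 / κ₁) ≤ (1 + 1 / κ₁) * (1 + y) ∧
    (1 + 1 / κ₁) * (1 + y) ≤ (1 + Λ) * N * (1 + κ₂) * (1 + 1 / κ₁) * (1 + y) ∧
    N ≤ (1 + Λ) * N * (1 + κ₂) * (1 + 1 / κ₁) * (1 + y) ∧
    1 ≤ (1 + Λ) * N * (1 + κ₂) * (1 + 1 / κ₁) * (1 + y) := by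
  have hi : 0 < 1 / κ₁ := by positivity
  have a1 : 1 ≤ 1 + 1 / κ₁ := by linarith
  have a2 : 1 ≤ 1 + y := by linarith
  have a3 : 1 ≤ 1 + Λ := by linarith
  have a4 : 1 ≤ 1 + κ₂ := by linarith
  have a5 : 1 ≤ (1 + Λ) * N := one_le_mul_of_one_le_of_one_le a3 hN
  have a6 : 1 ≤ (1 + Λ) * N * (1 + κ₂) := one_le_mul_of_one_le_of_one_le a5 a4
  have a7 : 1 ≤ (1 + 1 / κ₁) * (1 + y) := one_le_mul_of_one_le_of_one_le a1 a2
  have a8 : 1 ≤ (1 + Λ) * N * (1 + κ₂) * (1 + 1 / κ₁) := one_le_mul_of_one_le_of_one_le a6 a1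
  have b1 : N ≤ (1 + Λ) * N := le_mul_of_one_le_left (by linarith) a3
  have b2 : (1 + Λ) * N ≤ (1 + Λ) * N * (1 + κ₂) := le_mul_of_one_le_right (by linarith) a4
  have b3 : (1 + Λ) * N * (1 + κ₂) ≤ (1 + Λ) * N * (1 + κ₂) * (1 + 1 / κ₁) :=
    le_mul_of_one_le_right (by linarith) a1
  have b4 : (1 + Λ) * N * (1 + κ₂) * (1 + 1 / κ₁) ≤
      (1 + Λ) * N * (1 + κ₂) * (1 + 1 / κ₁) * (1 + y) :=
    le_mul_of_one_le_right (by linarith) a2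
  refine ⟨le_mul_of_one_le_right (by linarith) a2, ?_, by linarith, by linarith⟩
  rw [mul_assoc ((1 + Λ) * N * (1 + κ₂))]
  exact le_mul_of_one_le_left (by linarith) a6

open Classical in
/-- block K6 (PTW): power saving for the twisted sum over the annulus -/
theorem ptw_pow_pr : ∃ C E : ℝ, 0 < C ∧ 0 < E ∧ ∀ (z : ℂ) (N : ℕ) (κ₁ κ₂ Λ : ℝ) (F : ℂ → ℂ),
    1 / 2 ≤ z.im → 0 < N → 0 < κ₁ → κ₁ < κ₂ → 0 ≤ Λ → (∀ u : ℂ, ‖u‖ = 1 → ‖F u‖ ≤ 1) →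
    (∀ u u' : ℂ, ‖u‖ = 1 → ‖u'‖ = 1 → ‖F u - F u'‖ ≤ Λ * ‖u - u'‖) →
    ∀ l : ℕ, 1 ≤ l → ∀ (c₀ d₀ : ℤ) (S : Finset (ℤ × ℤ × ℤ × ℤ)), (∀ g ∈ S, Det1 g) →
      (∀ g ∈ S, ∀ g' ∈ S, g.2.2 = g'.2.2 → g = g') →
      (∀ c d : ℤ, (∃ g ∈ S, g.2.2 = (c, d)) ↔
        Ann z κ₁ κ₂ l c d ∧ IsCoprime c d ∧ (N : ℤ) ∣ c - c₀ ∧ (N : ℤ) ∣ d - d₀) →
      ‖∑ g ∈ S, cexp (-(2 * Real.pi * I) * l * ((mob g z).re : ℂ)) *
          F (uu g.2.2.1 g.2.2.2 z)‖ ≤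
        C * ((1 + Λ) * N * (1 + κ₂) * (1 + 1 / κ₁) * (1 + z.im)) ^ E *
          (l : ℝ) ^ (199 / 200 : ℝ) := by
  obtain ⟨C₁', hC₁'0, hC₁'⟩ := row_card_u
  obtain ⟨C₂, E₂, hC₂0, hE₂0, hC₂⟩ := row_sq
  obtain ⟨Cτ, hCτ0, hCτ⟩ := divisor_bound (ε := 1 / 32) (by norm_num)
  obtain ⟨Cd, hCd0, hCd⟩ := divisor_bound (ε := 1 / 120) (by norm_num)
  set C₁ : ℝ := max C₁' 1 with hC₁
  have hC₁1 : 1 ≤ C₁ := le_max_right _ _
  have hC₁0 : 0 < C₁ := by linarith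
  have hC₁le : C₁' ≤ C₁ := le_max_left _ _
  set T : ℝ := 1 + 35 * Cτ with hT
  have hT0 : 0 ≤ T := by rw [hT]; positivity
  refine ⟨3 * C₁ + 8 * Cd * C₁ ^ 2 + 3 * C₁ * C₂ * T, E₂ + 3, by positivity, by positivity, ?_⟩
  intro z N κ₁ κ₂ Λ F hz hN h1 h2 hΛ hF1 hF2 l hl c₀ d₀ S hS hinj hrow
  have hz0 : 0 < z.im := by linarith
  have hk2 : 0 < κ₂ := h1.trans h2
  have hN1 : (1 : ℝ) ≤ N := by exact_mod_cast hN
  have hlR : (1 : ℝ) ≤ l := by exact_mod_cast hl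
  have hl0 : (0 : ℝ) < l := by linarith
  obtain ⟨w1, w2, w3, w4⟩ := sel_K6_W h1 hk2 hΛ hN1 hz
  set W : ℝ := (1 + Λ) * N * (1 + κ₂) * (1 + 1 / κ₁) * (1 + z.im) with hW
  have hW0 : 0 < W := by linarith
  set A : ℝ := C₁ * W with hA
  have hA1 : 1 ≤ A := by rw [hA]; exact one_le_mul_of_one_le_of_one_le hC₁1 w4
  have hsq : (1 : ℝ) ≤ √l := by
    rw [Real.one_le_sqrt]; exact hlR
  set f : ℤ × ℤ × ℤ × ℤ → ℂ := fun g => cexp (-(2 * Real.pi * I) * l * ((mob g z).re : ℂ)) *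
          F (uu g.2.2.1 g.2.2.2 z) with hf
  set K : Finset ℤ := S.image (fun g => g.2.2.1) with hK
  have hSann : ∀ g ∈ S, Ann z κ₁ κ₂ l g.2.2.1 g.2.2.2 ∧ IsCoprime g.2.2.1 g.2.2.2 ∧
      (N : ℤ) ∣ g.2.2.1 - c₀ ∧ (N : ℤ) ∣ g.2.2.2 - d₀ := fun g hg =>
    (hrow g.2.2.1 g.2.2.2).mp ⟨g, hg, rfl⟩
  have hf1 : ∀ g ∈ S, ‖f g‖ ≤ 1 := by
    intro g hg
    rw [hf]
    simp only
    rw [norm_mul, b6_norm, one_mul]
    exact hF1 _ (sel_K6_uu_norm (sel_K6_den hz0 (hSann g hg).2.1))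
  -- trivial bound
  have htriv : ∀ c : ℤ, ((S.filter (fun g => g.2.2.1 = c)).card : ℝ) ≤ A * √l ∧
      ((S.filter (fun g => g.2.2.1 = c)).Nonempty → |(c : ℝ)| ≤ A * √l) := by
    intro c
    have hi : Set.InjOn (fun g : ℤ × ℤ × ℤ × ℤ => g.2.2.2)
        (S.filter (fun g => g.2.2.1 = c) : Set (ℤ × ℤ × ℤ × ℤ)) := by
      intro g hg g' hg' h
      simp only [Finset.coe_filter] at hg hg'
      exact hinj g hg.1 g' hg'.1 (Prod.ext (by rw [hg.2, hg'.2]) h)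
    have h3 := hC₁' z κ₁ κ₂ hz h1 l hl c
      ((S.filter (fun g => g.2.2.1 = c)).image (fun g => g.2.2.2)) (by
      intro d hd
      rw [Finset.mem_image] at hd
      obtain ⟨g, hg, rfl⟩ := hd
      rw [Finset.mem_filter] at hg
      rw [← hg.2]
      exact (hSann g hg.1).1)
    rw [Finset.card_image_of_injOn hi] at h3
    have h4 : C₁' * ((1 + 1 / κ₁) * (1 + z.im)) * √l ≤ A * √l := by
      apply mul_le_mul_of_nonneg_right _ (Real.sqrt_nonneg _)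
      exact mul_le_mul hC₁le w2 (by positivity) hC₁0.le
    have h5 : C₁' * (1 + 1 / κ₁) * √l ≤ A * √l := by
      apply mul_le_mul_of_nonneg_right _ (Real.sqrt_nonneg _)
      exact mul_le_mul hC₁le (w1.trans w2) (by positivity) hC₁0.le
    exact ⟨h3.1.trans h4, fun h => (h3.2 (h.image _)).trans h5⟩
  have htriv2 : ∀ c : ℤ, ‖∑ g ∈ S.filter (fun g => g.2.2.1 = c), f g‖ ≤ A * √l := by
    intro c
    refine (norm_sum_le _ _).trans (le_trans ?_ (htriv c).1)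
    calc ∑ g ∈ S.filter (fun g => g.2.2.1 = c), ‖f g‖ ≤
          ∑ g ∈ S.filter (fun g => g.2.2.1 = c), (1 : ℝ) :=
          Finset.sum_le_sum fun g hg => hf1 g (Finset.mem_filter.mp hg).1
      _ = ((S.filter (fun g => g.2.2.1 = c)).card : ℝ) := by simp
  set Y : ℝ := (l : ℝ) ^ (1 / 10 : ℝ) with hY
  have hY1 : 1 ≤ Y := Real.one_le_rpow hlR (by norm_num)
  have hY0 : 0 < Y := by linarith
  set Z : ℝ := (l : ℝ) ^ (2 / 5 : ℝ) with hZ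
  have hZ1 : 1 ≤ Z := Real.one_le_rpow hlR (by norm_num)
  set G : ℝ := C₂ * W ^ E₂ * √l * (T * (l : ℝ) ^ (-(3 / 160) : ℝ)) with hG
  have hG0 : 0 ≤ G := by rw [hG]; positivity
  set X : ℕ := ⌊A * √l⌋₊ with hX
  have hXle : (X : ℝ) ≤ A * √l := Nat.floor_le (by positivity)
  set Bd : Finset ℕ := (Finset.Icc 1 X).filter (fun c : ℕ => ¬ ∃ r s : ℕ, c = r * s ∧
    Squarefree r ∧ r.Coprime (s * l * N) ∧ (s : ℝ) ≤ Y) with hBd
  have hbad : (Bd.card : ℝ) ≤ 4 * (A * √l) * (Cd * ((l : ℝ) * N) ^ (1 / 120 : ℝ)) *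
      Y ^ (-(1 / 6) : ℝ) := by
    have h3 := good_sq l N hl hN Y hY1 X
    have h4 : ((l * N).divisors.card : ℝ) ≤ Cd * ((l : ℝ) * N) ^ (1 / 120 : ℝ) := by
      have := hCd (l * N) (Nat.mul_pos hl hN)
      push_cast at this
      exact this
    refine le_trans ?_ (le_trans h3 ?_)
    · rw [hBd]
    · apply mul_le_mul_of_nonneg_right _ (by positivity)
      exact mul_le_mul (by linarith) h4 (by positivity) (by positivity)
  have hgood : ∀ c : ℤ, c ≠ 0 → Z < ((c.natAbs : ℕ) : ℝ) → (∃ r s : ℕ, c.natAbs = r * s ∧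
      Squarefree r ∧ r.Coprime (s * l * N) ∧ (s : ℝ) ≤ Y) →
      ‖∑ g ∈ S.filter (fun g => g.2.2.1 = c), f g‖ ≤ G := by
    rintro c hc0 hcZ ⟨r, s, hrs, hr, hcop, hs⟩
    have hr0 : 0 < r := Nat.pos_of_ne_zero hr.ne_zero
    have hn : 0 < c.natAbs := Int.natAbs_pos.mpr hc0
    have hs0 : 0 < s := by
      rcases Nat.eq_zero_or_pos s with h | h
      · rw [h, mul_zero] at hrs
        omega
      · exact h
    have hrl : (l : ℝ) ^ (3 / 10 : ℝ) ≤ r := by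
      have h3 : (r : ℝ) * s = ((c.natAbs : ℕ) : ℝ) := by rw [hrs]; push_cast; ring
      have h4 : Z ≤ r * Y := by
        have h5 : (r : ℝ) * s ≤ r * Y := mul_le_mul_of_nonneg_left hs (by positivity)
        linarith
      have h5 : Z = (l : ℝ) ^ (3 / 10 : ℝ) * Y := by
        rw [hZ, hY, ← Real.rpow_add hl0]; norm_num
      rw [h5] at h4
      exact le_of_mul_le_mul_right h4 hY0
    obtain ⟨n1, n2, n3, n4⟩ := sel_K6_num hCτ0.le hCτ hr0 hl hrl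
    refine sel_K6_good hz0 hS hinj hrow hc0 hG0 ?_
    intro F' hF' x D hD
    have hF'1 : ∀ u : ℂ, ‖u‖ = 1 → ‖F' u‖ ≤ 1 := by
      rcases hF' with rfl | rfl
      · exact hF1
      · intro u hu
        exact hF1 _ (by rw [norm_neg]; exact hu)
    have hF'2 : ∀ u u' : ℂ, ‖u‖ = 1 → ‖u'‖ = 1 → ‖F' u - F' u'‖ ≤ Λ * ‖u - u'‖ := by
      rcases hF' with rfl | rfl
      · exact hF2
      · intro u u' hu hu'
        refine (hF2 (-u) (-u') (by rw [norm_neg]; exact hu) (by rw [norm_neg]; exact hu')).trans ?_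
        rw [← norm_neg (u - u')]
        apply le_of_eq
        congr 2
        ring
    refine (hC₂ z N κ₁ κ₂ Λ F' hz hN h1 h2 hΛ hF'1 hF'2 _ l r s c.natAbs n1 n2 hl hs0 hrs hr hcop
      n3 x D hD).trans ?_
    rw [hG]
    exact mul_le_mul_of_nonneg_left n4 (by positivity)
  have hKX : ∀ c ∈ K, c.natAbs ≤ X := by
    intro c hc
    rw [hK, Finset.mem_image] at hc
    obtain ⟨g, hg, hgc⟩ := hc
    have h3 := (htriv c).2 ⟨g, Finset.mem_filter.mpr ⟨hg, hgc⟩⟩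
    refine Nat.le_floor ?_
    rw [Nat.cast_natAbs]
    exact_mod_cast h3
  have hsum : ∑ g ∈ S, f g = ∑ c ∈ K, ∑ g ∈ S.filter (fun g => g.2.2.1 = c), f g :=
    (Finset.sum_fiberwise_of_maps_to (fun g hg => Finset.mem_image_of_mem _ hg) f).symm
  rw [hsum]
  refine (norm_sum_le _ _).trans ?_
  have hAl : 0 ≤ A * √l := by positivity
  have hterm : ∀ c ∈ K, ‖∑ g ∈ S.filter (fun g => g.2.2.1 = c), f g‖ ≤
      (if ((c.natAbs : ℕ) : ℝ) ≤ Z then A * √l else 0) +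
        (if c.natAbs ∈ Bd then A * √l else 0) + G := by
    intro c hc
    have h0 := htriv2 c
    by_cases hcZ : ((c.natAbs : ℕ) : ℝ) ≤ Z
    · rw [if_pos hcZ]
      split_ifs <;> linarith
    · rw [if_neg hcZ]
      push Not at hcZ
      have hn : 0 < c.natAbs := by
        have : (0 : ℝ) < ((c.natAbs : ℕ) : ℝ) := by linarith
        exact_mod_cast this
      by_cases hcB : c.natAbs ∈ Bd
      · rw [if_pos hcB]
        linarith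
      · rw [if_neg hcB]
        rw [hBd, Finset.mem_filter] at hcB
        have h3 : ∃ r s : ℕ, c.natAbs = r * s ∧
            Squarefree r ∧ r.Coprime (s * l * N) ∧ (s : ℝ) ≤ Y := by
          by_contra h4
          exact hcB ⟨Finset.mem_Icc.mpr ⟨hn, hKX c hc⟩, h4⟩
        have := hgood c (Int.natAbs_pos.mp hn) hcZ h3
        linarith
  have hfin := sel_K6_sum hKX hZ1 hAl hG0 hbad hterm
  refine hfin.trans ?_
  have h2X : (2 * (X : ℝ) + 1) * G ≤ (3 * A * √l) * G := by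
    apply mul_le_mul_of_nonneg_right _ hG0
    have : 1 ≤ A * √l := one_le_mul_of_one_le_of_one_le hA1 hsq
    linarith
  have hnum := sel_K6_fin (C₁ := C₁) (C₂ := C₂) (E₂ := E₂) (T := T) (Cd := Cd) (W := W) (A := A)
    (L := (l : ℝ)) (N := (N : ℝ)) hC₁1 hC₂0.le hE₂0.le hT0 hCd0.le w4 hN1 w3 hA hlR
  rw [← hY, ← hZ, ← hG] at hnum
  linarith

theorem ptw_pow : type_of% @ptw_pow_pr := @ptw_pow_pr

end Pool.Agent.SEL
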