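import Pool.Agent.Lib_helper68.SEL.Defs
import Pool.Agent.Lib_helper68.SEL.K9
import Pool.Agent.Lib_helper68.SEL.Z1

/-! SEL block Z2: multiplicativity. -/

namespace Pool.Agent.SEL

open Complex MeasureTheory Filter Topology Pool.Agent.GL2

theorem lam_mul_pr {k : ℕ} {a : ℕ → ℝ} (H : HData k a) {m n : ℕ} (h : m.Coprime n) :
    lam k a (m * n) = lam k a m * lam k a n := by
  unfold lam
  rw [H.mul m n h, Nat.cast_mul, Real.mul_rpow (Nat.cast_nonneg _) (Nat.cast_nonneg _)]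
  ring

theorem sel_Z2_lam_one {k : ℕ} {a : ℕ → ℝ} (H : HData k a) : lam k a 1 = 1 := by
  unfold lam; rw [H.one]; simp

theorem lam_pow_pr {k : ℕ} {a : ℕ → ℝ} (H : HData k a) {p : ℕ} (hp : p.Prime) (i : ℕ) :
    lam k a (p ^ i) = Uc (lam k a p) i := by
  have hp0 : (0 : ℝ) < p := by exact_mod_cast hp.pos
  induction i using Nat.strong_induction_on with
  | _ i ih =>
    rcases i with _ | _ | i
    · simp [Uc, sel_Z2_lam_one H]
    · simp [Uc]
    · have h1 := ih (i + 1) (by omega)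
      have h2 := ih i (by omega)
      change _ = lam k a p * Uc (lam k a p) (i + 1) - Uc (lam k a p) i
      rw [← h1, ← h2]
      unfold lam
      rw [H.hecke p i hp]
      have hk : (((k - 1 : ℕ) : ℝ)) = (k : ℝ) - 1 := by
        rw [Nat.cast_sub H.kpos]; simp
      have e1 : ((p ^ (i + 2) : ℕ) : ℝ) ^ (-(((k : ℝ) - 1) / 2)) =
          (p : ℝ) ^ (-(((k : ℝ) - 1) / 2)) * ((p ^ (i + 1) : ℕ) : ℝ) ^ (-(((k : ℝ) - 1) / 2)) := by
        rw [← Real.mul_rpow (by positivity) (by positivity)]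
        congr 1; push_cast; ring
      have e2 : ((p ^ (i + 2) : ℕ) : ℝ) ^ (-(((k : ℝ) - 1) / 2)) * (p : ℝ) ^ (k - 1) =
          ((p ^ i : ℕ) : ℝ) ^ (-(((k : ℝ) - 1) / 2)) := by
        have e3 : ((p ^ (i + 2) : ℕ) : ℝ) = ((p ^ i : ℕ) : ℝ) * ((p : ℝ) ^ (2 : ℝ)) := by
          push_cast; rw [Real.rpow_two]; ring
        rw [e3, Real.mul_rpow (by positivity) (by positivity), ← Real.rpow_mul hp0.le,
          ← Real.rpow_natCast (p : ℝ) (k - 1), hk, mul_assoc, ← Real.rpow_add hp0]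
        have e4 : 2 * (-(((k : ℝ) - 1) / 2)) + ((k : ℝ) - 1) = 0 := by ring
        rw [e4, Real.rpow_zero, mul_one]
      calc (a p * a (p ^ (i + 1)) - (p : ℝ) ^ (k - 1) * a (p ^ i)) *
            ((p ^ (i + 2) : ℕ) : ℝ) ^ (-(((k : ℝ) - 1) / 2))
          = a p * a (p ^ (i + 1)) * ((p ^ (i + 2) : ℕ) : ℝ) ^ (-(((k : ℝ) - 1) / 2)) -
            a (p ^ i) * (((p ^ (i + 2) : ℕ) : ℝ) ^ (-(((k : ℝ) - 1) / 2)) * (p : ℝ) ^ (k - 1)) := by
            ring
        _ = a p * a (p ^ (i + 1)) * ((p : ℝ) ^ (-(((k : ℝ) - 1) / 2)) *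
              ((p ^ (i + 1) : ℕ) : ℝ) ^ (-(((k : ℝ) - 1) / 2))) -
            a (p ^ i) * ((p ^ i : ℕ) : ℝ) ^ (-(((k : ℝ) - 1) / 2)) := by rw [e2, e1]
        _ = _ := by ring

/-- lower bound for `Uc` when the root is real and large -/
theorem sel_Z2_Uc_low (x : ℝ) (h : 1 < ‖rt x‖) (i : ℕ) : ‖rt x‖ ^ i ≤ |Uc x i| := by
  -- the root is real
  have hreal : ∃ r : ℝ, rt x = (r : ℂ) ∧ 1 < |r| := by
    by_cases hx : x ^ 2 ≤ 4
    · exfalso
      have hr : rt x = ⟨x / 2, √(4 - x ^ 2) / 2⟩ := by unfold rt; rw [if_pos hx]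
      have hs : √(4 - x ^ 2) ^ 2 = 4 - x ^ 2 := Real.sq_sqrt (by linarith)
      have hn : normSq (rt x) = 1 := by
        rw [hr, normSq_mk]; nlinarith
      have hnorm : ‖rt x‖ = 1 := by
        have : ‖rt x‖ ^ 2 = 1 := by rw [← Complex.normSq_eq_norm_sq, hn]
        nlinarith [norm_nonneg (rt x)]
      linarith
    · by_cases hx0 : 0 < x
      · refine ⟨(x + √(x ^ 2 - 4)) / 2, ?_, ?_⟩
        · unfold rt; rw [if_neg hx, if_pos hx0]
        · have : rt x = (((x + √(x ^ 2 - 4)) / 2 : ℝ) : ℂ) := by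
            unfold rt; rw [if_neg hx, if_pos hx0]
          rw [this, Complex.norm_real] at h; exact h
      · refine ⟨(x - √(x ^ 2 - 4)) / 2, ?_, ?_⟩
        · unfold rt; rw [if_neg hx, if_neg hx0]
        · have : rt x = (((x - √(x ^ 2 - 4)) / 2 : ℝ) : ℂ) := by
            unfold rt; rw [if_neg hx, if_neg hx0]
          rw [this, Complex.norm_real] at h; exact h
  obtain ⟨r, hr, hr1⟩ := hreal
  have hr0 : r ≠ 0 := by
    intro h0; rw [h0, abs_zero] at hr1; linarith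
  have hnr : ‖rt x‖ = |r| := by rw [hr]; simp
  -- the sum, multiplied by r^i, is a sum of even powers
  have hU : Uc x i * r ^ i = ∑ v ∈ Finset.HasAntidiagonal.antidiagonal i, (r ^ 2) ^ v.1 := by
    have h1 := sel_Z1_U_sum x i
    rw [hr] at h1
    have h2 : ((Uc x i * r ^ i : ℝ) : ℂ) =
        ((∑ v ∈ Finset.HasAntidiagonal.antidiagonal i, (r ^ 2) ^ v.1 : ℝ) : ℂ) := by
      rw [Complex.ofReal_mul, h1, Finset.sum_mul, Complex.ofReal_sum]
      apply Finset.sum_congr rfl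
      intro v hv
      rw [Finset.HasAntidiagonal.mem_antidiagonal] at hv
      have hrc : (r : ℂ) ≠ 0 := by exact_mod_cast hr0
      rw [← hv, pow_add, inv_pow]
      push_cast
      field_simp
      rw [← pow_mul, ← pow_mul, mul_comm]
    exact_mod_cast h2
  have hlow : (r ^ 2) ^ i ≤ ∑ v ∈ Finset.HasAntidiagonal.antidiagonal i, (r ^ 2) ^ v.1 := by
    have hm : ((i, 0) : ℕ × ℕ) ∈ Finset.HasAntidiagonal.antidiagonal i := by simp
    exact Finset.single_le_sum (f := fun v : ℕ × ℕ => (r ^ 2) ^ v.1)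
      (fun v _ => by positivity) hm
  have h3 : |r| ^ i * |r| ^ i ≤ |Uc x i| * |r| ^ i := by
    have e : |r| ^ i * |r| ^ i = (r ^ 2) ^ i := by
      rw [← mul_pow, abs_mul_abs_self, ← pow_two]
    rw [e, ← abs_pow r i, ← abs_mul, hU]
    exact hlow.trans (le_abs_self _)
  have hpos : 0 < |r| ^ i := pow_pos (by linarith) i
  rw [hnr]
  exact le_of_mul_le_mul_right h3 hpos

/-- (uses `lam_bound` of block K9) -/
theorem rt_bound_pr {k : ℕ} {a : ℕ → ℝ} (H : HData k a) {p : ℕ} (hp : p.Prime) :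
    ‖rt (lam k a p)‖ ≤ (p : ℝ) ^ (1 / 2 - 1 / 200 : ℝ) := by
  have hp1 : (1 : ℝ) ≤ p := by exact_mod_cast hp.one_lt.le
  have hB1 : (1 : ℝ) ≤ (p : ℝ) ^ (1 / 2 - 1 / 200 : ℝ) := Real.one_le_rpow hp1 (by norm_num)
  by_contra hcon
  push Not at hcon
  set r := ‖rt (lam k a p)‖ with hr
  set B := (p : ℝ) ^ (1 / 2 - 1 / 200 : ℝ) with hB
  have hB0 : 0 < B := by linarith
  obtain ⟨C, hC, hlb⟩ := lam_bound H
  have h1 : ∀ i : ℕ, (r / B) ^ i ≤ C := by
    intro i
    have h2 := hlb (p ^ i) (pow_pos hp.pos i)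
    rw [lam_pow_pr H hp i] at h2
    have h3 := sel_Z2_Uc_low (lam k a p) (by rw [← hr]; linarith) i
    have h4 : ((p ^ i : ℕ) : ℝ) ^ (1 / 2 - 1 / 200 : ℝ) = B ^ i := by
      rw [hB, Nat.cast_pow, ← Real.rpow_natCast, ← Real.rpow_natCast, ← Real.rpow_mul (by positivity),
        ← Real.rpow_mul (by positivity), mul_comm]
    rw [h4] at h2
    rw [div_pow, div_le_iff₀ (by positivity)]
    exact h3.trans h2
  have h5 : 1 < r / B := by rw [lt_div_iff₀ hB0, one_mul]; exact hcon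
  obtain ⟨n, hn⟩ := pow_unbounded_of_one_lt C h5
  exact absurd (h1 n) (not_le.2 hn)

/-! arithmetic functions -/

theorem sel_Z2_lamA_apply {k : ℕ} {a : ℕ → ℝ} (q n : ℕ) : lamA k a q n =
    if n = 0 ∨ ¬ n.Coprime q then 0 else lam k a n := rfl

theorem sel_Z2_alA_apply {k : ℕ} {a : ℕ → ℝ} (q n : ℕ) : alA k a q n =
    if n = 0 ∨ ¬ n.Coprime q then 0 else
      n.factorization.prod fun p i => aloc (lam k a p) i := rfl

theorem sel_Z2_lamA_mult {k : ℕ} {a : ℕ → ℝ} (H : HData k a) (q : ℕ) :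
    (lamA k a q).IsMultiplicative := by
  constructor
  · rw [sel_Z2_lamA_apply, if_neg (by simp)]; exact sel_Z2_lam_one H
  · intro m n h
    rw [sel_Z2_lamA_apply, sel_Z2_lamA_apply, sel_Z2_lamA_apply, lam_mul_pr H h]
    by_cases hm : m = 0
    · simp [hm]
    by_cases hn : n = 0
    · simp [hn]
    by_cases hmq : m.Coprime q
    · by_cases hnq : n.Coprime q
      · rw [if_neg (by simp [hm, hn, Nat.Coprime.mul_left hmq hnq]), if_neg (by simp [hm, hmq]),
          if_neg (by simp [hn, hnq])]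
      · have : ¬ (m * n).Coprime q := fun hc => hnq (Nat.Coprime.coprime_mul_left hc)
        simp [this, hnq]
    · have : ¬ (m * n).Coprime q := fun hc => hmq (Nat.Coprime.coprime_mul_right hc)
      simp [this, hmq]

theorem sel_Z2_alA_mult {k : ℕ} {a : ℕ → ℝ} (q : ℕ) :
    (alA k a q).IsMultiplicative := by
  constructor
  · rw [sel_Z2_alA_apply, if_neg (by simp)]; simp
  · intro m n h
    rw [sel_Z2_alA_apply, sel_Z2_alA_apply, sel_Z2_alA_apply]
    by_cases hm : m = 0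
    · simp [hm]
    by_cases hn : n = 0
    · simp [hn]
    by_cases hmq : m.Coprime q
    · by_cases hnq : n.Coprime q
      · rw [if_neg (by simp [hm, hn, Nat.Coprime.mul_left hmq hnq]), if_neg (by simp [hm, hmq]),
          if_neg (by simp [hn, hnq]), Nat.factorization_mul_of_coprime h,
          Finsupp.prod_add_index_of_disjoint]
        simpa using h.disjoint_primeFactors
      · have : ¬ (m * n).Coprime q := fun hc => hnq (Nat.Coprime.coprime_mul_left hc)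
        simp [this, hnq]
    · have : ¬ (m * n).Coprime q := fun hc => hmq (Nat.Coprime.coprime_mul_right hc)
      simp [this, hmq]

theorem sel_Z2_alA_pow {k : ℕ} {a : ℕ → ℝ} {q p : ℕ} (hp : p.Prime) (hq : ¬ p ∣ q) (i : ℕ) :
    alA k a q (p ^ i) = aloc (lam k a p) i := by
  have hc : (p ^ i).Coprime q := Nat.Coprime.pow_left i ((Nat.Prime.coprime_iff_not_dvd hp).2 hq)
  rw [sel_Z2_alA_apply, if_neg (by simp [hp.ne_zero, hc]), hp.factorization_pow,
    Finsupp.prod_single_index (h := fun p i => aloc (lam k a p) i) (aloc_zero_pr _)]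

theorem sel_Z2_lamA_pow {k : ℕ} {a : ℕ → ℝ} (H : HData k a) {q p : ℕ} (hp : p.Prime)
    (hq : ¬ p ∣ q) (i : ℕ) : lamA k a q (p ^ i) = Uc (lam k a p) i := by
  have hc : (p ^ i).Coprime q := Nat.Coprime.pow_left i ((Nat.Prime.coprime_iff_not_dvd hp).2 hq)
  rw [sel_Z2_lamA_apply, if_neg (by simp [hp.ne_zero, hc]), lam_pow_pr H hp]

theorem sel_Z2_alA_pow' {k : ℕ} {a : ℕ → ℝ} {q p : ℕ} (hp : p.Prime) (hq : p ∣ q) (i : ℕ) :
    alA k a q (p ^ i) = if i = 0 then 1 else 0 := by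
  by_cases hi : i = 0
  · subst hi; rw [if_pos rfl, pow_zero]; exact (sel_Z2_alA_mult q).1
  · have hc : ¬ (p ^ i).Coprime q := by
      intro h
      have h2 : p.Coprime q := (Nat.coprime_pow_left_iff (Nat.pos_of_ne_zero hi) _ _).1 h
      exact ((Nat.Prime.coprime_iff_not_dvd hp).1 h2) hq
    rw [sel_Z2_alA_apply, if_pos (Or.inr hc), if_neg hi]

theorem sel_Z2_lamA_pow' {k : ℕ} {a : ℕ → ℝ} (H : HData k a) {q p : ℕ} (hp : p.Prime)
    (hq : p ∣ q) (i : ℕ) : lamA k a q (p ^ i) = if i = 0 then 1 else 0 := by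
  by_cases hi : i = 0
  · subst hi; rw [if_pos rfl, pow_zero]; exact (sel_Z2_lamA_mult H q).1
  · have hc : ¬ (p ^ i).Coprime q := by
      intro h
      have h2 : p.Coprime q := (Nat.coprime_pow_left_iff (Nat.pos_of_ne_zero hi) _ _).1 h
      exact ((Nat.Prime.coprime_iff_not_dvd hp).1 h2) hq
    rw [sel_Z2_lamA_apply, if_pos (Or.inr hc), if_neg hi]

/-- sums over the divisors of a prime power -/
theorem sel_Z2_sum_pow {R : Type*} [AddCommMonoid R] {p : ℕ} (hp : p.Prime) (i : ℕ) (f : ℕ → ℕ → R) :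
    ∑ v ∈ (p ^ i).divisorsAntidiagonal, f v.1 v.2 =
      ∑ v ∈ Finset.HasAntidiagonal.antidiagonal i, f (p ^ v.1) (p ^ v.2) := by
  rw [Nat.sum_divisorsAntidiagonal (fun x y => f x y), Nat.sum_divisors_prime_pow hp,
    Finset.Nat.sum_antidiagonal_eq_sum_range_succ (fun x y => f (p ^ x) (p ^ y))]
  apply Finset.sum_congr rfl
  intro j hj
  rw [Finset.mem_range] at hj
  rw [Nat.pow_div (by omega) hp.pos]

/-- block Z2 (HEC): `λ * α * α = 1` -/
theorem al_inv_pr {k : ℕ} {a : ℕ → ℝ} (H : HData k a) :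
    lamA k a 1 * (alA k a 1 * alA k a 1) = 1 := by
  have hm : (lamA k a 1 * (alA k a 1 * alA k a 1)).IsMultiplicative :=
    (sel_Z2_lamA_mult H 1).mul ((sel_Z2_alA_mult 1).mul (sel_Z2_alA_mult 1))
  rw [ArithmeticFunction.IsMultiplicative.eq_iff_eq_on_prime_powers _ hm _
    ArithmeticFunction.isMultiplicative_one]
  intro p i hp
  have hp1 : ¬ p ∣ 1 := by
    intro h; exact hp.one_lt.ne' (Nat.dvd_one.1 h)
  rw [ArithmeticFunction.mul_apply,
    sel_Z2_sum_pow hp i (fun x y => lamA k a 1 x * (alA k a 1 * alA k a 1) y)]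
  have h2 : ∀ v ∈ Finset.HasAntidiagonal.antidiagonal i,
      lamA k a 1 (p ^ v.1) * (alA k a 1 * alA k a 1) (p ^ v.2) =
      Uc (lam k a p) v.1 * ∑ u ∈ Finset.HasAntidiagonal.antidiagonal v.2,
        aloc (lam k a p) u.1 * aloc (lam k a p) u.2 := by
    intro v _
    rw [sel_Z2_lamA_pow H hp hp1, ArithmeticFunction.mul_apply,
      sel_Z2_sum_pow hp v.2 (fun x y => alA k a 1 x * alA k a 1 y)]
    congr 1
    apply Finset.sum_congr rfl
    intro u _
    rw [sel_Z2_alA_pow hp hp1, sel_Z2_alA_pow hp hp1]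
  rw [Finset.sum_congr rfl h2, aloc_conv_pr]
  by_cases hi : i = 0
  · subst hi; simp
  · rw [if_neg hi, ArithmeticFunction.one_apply, if_neg]
    intro h
    rcases (Nat.pow_eq_one.1 h) with h | h
    · exact hp.one_lt.ne' h
    · exact hi h

/-- a multiplicative function with `|f (p^i)| ≤ (p^i)^2` satisfies `|f n| ≤ n^2` -/
theorem sel_Z2_mult_le (f : ArithmeticFunction ℝ) (hf : f.IsMultiplicative)
    (h : ∀ p i : ℕ, p.Prime → |f (p ^ i)| ≤ ((p ^ i : ℕ) : ℝ) ^ 2) (n : ℕ) :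
    |f n| ≤ (n : ℝ) ^ 2 := by
  induction n using Nat.recOnPosPrimePosCoprime with
  | prime_pow p i hp _ => exact h p i hp
  | zero => simp
  | one => rw [hf.1]; simp
  | coprime m n _ _ hmn ihm ihn =>
    rw [hf.2 hmn, abs_mul, Nat.cast_mul, mul_pow]
    exact mul_le_mul ihm ihn (abs_nonneg _) (by positivity)

theorem sel_Z2_pow_le {k : ℕ} {a : ℕ → ℝ} (H : HData k a) {p : ℕ} (hp : p.Prime) (i : ℕ) :
    ((i : ℝ) + 1) * ‖rt (lam k a p)‖ ^ i ≤ ((p ^ i : ℕ) : ℝ) ^ 2 := by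
  have hp2 : (2 : ℝ) ≤ p := by exact_mod_cast hp.two_le
  have h1 : ‖rt (lam k a p)‖ ≤ p := by
    refine (rt_bound_pr H hp).trans ?_
    calc (p : ℝ) ^ (1 / 2 - 1 / 200 : ℝ) ≤ (p : ℝ) ^ (1 : ℝ) :=
          Real.rpow_le_rpow_of_exponent_le (by linarith) (by norm_num)
      _ = p := Real.rpow_one _
  have h2 : ((i : ℝ) + 1) ≤ (p : ℝ) ^ i := by
    have h3 : ((i : ℝ) + 1) ≤ 2 ^ i := by
      have : i + 1 ≤ 2 ^ i := Nat.lt_two_pow_self
      exact_mod_cast this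
    exact h3.trans (by gcongr)
  calc ((i : ℝ) + 1) * ‖rt (lam k a p)‖ ^ i ≤ (p : ℝ) ^ i * (p : ℝ) ^ i := by
        gcongr
    _ = ((p ^ i : ℕ) : ℝ) ^ 2 := by push_cast; ring

/-- (uses `rt_bound`) -/
theorem lam_alA_le_pr {k : ℕ} {a : ℕ → ℝ} (H : HData k a) (q n : ℕ) (hn : 0 < n) :
    |lam k a n| ≤ (n : ℝ) ^ 2 ∧ |alA k a q n| ≤ (n : ℝ) ^ 2 := by
  constructor
  · have h1 := sel_Z2_mult_le (lamA k a 1) (sel_Z2_lamA_mult H 1) (fun p i hp => by
      have hp1 : ¬ p ∣ 1 := by intro h; exact hp.one_lt.ne' (Nat.dvd_one.1 h)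
      rw [sel_Z2_lamA_pow H hp hp1]
      exact (Uc_le_pr _ i).trans (sel_Z2_pow_le H hp i)) n
    rwa [sel_Z2_lamA_apply, if_neg (by simp; omega)] at h1
  · apply sel_Z2_mult_le (alA k a q) (sel_Z2_alA_mult q)
    intro p i hp
    by_cases hq : p ∣ q
    · rw [sel_Z2_alA_pow' hp hq]
      split_ifs with hi
      · subst hi; simp
      · simp
    · rw [sel_Z2_alA_pow hp hq]
      exact (aloc_le_pr _ i).trans (sel_Z2_pow_le H hp i)

theorem lam_mul : type_of% @lam_mul_pr := @lam_mul_pr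
theorem lam_pow : type_of% @lam_pow_pr := @lam_pow_pr
theorem rt_bound : type_of% @rt_bound_pr := @rt_bound_pr
theorem al_inv : type_of% @al_inv_pr := @al_inv_pr
theorem lam_alA_le : type_of% @lam_alA_le_pr := @lam_alA_le_pr

end Pool.Agent.SEL
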