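import Pool.Agent.Lib_helper68.SEL.Defs
import Pool.Agent.Lib_helper68.SEL.Z2

/-! SEL block Z3: the multiplicative function `GW`. -/

namespace Pool.Agent.SEL

open Complex MeasureTheory Filter Topology Pool.Agent.GL2

/-- complex version of `lamA` -/
noncomputable def sel_Z3_L (k : ℕ) (a : ℕ → ℝ) (q : ℕ) : ArithmeticFunction ℂ :=
  ⟨fun n => (lamA k a q n : ℂ), by simp⟩

/-- complex version of `alA` twisted by `n^{-w}` -/
noncomputable def sel_Z3_A (k : ℕ) (a : ℕ → ℝ) (q : ℕ) (w : ℂ) : ArithmeticFunction ℂ :=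
  ⟨fun n => (alA k a q n : ℂ) * (n : ℂ) ^ (-w), by simp⟩

theorem sel_Z3_L_apply (k : ℕ) (a : ℕ → ℝ) (q n : ℕ) : sel_Z3_L k a q n = (lamA k a q n : ℂ) := rfl

theorem sel_Z3_A_apply (k : ℕ) (a : ℕ → ℝ) (q : ℕ) (w : ℂ) (n : ℕ) :
    sel_Z3_A k a q w n = (alA k a q n : ℂ) * (n : ℂ) ^ (-w) := rfl

theorem sel_Z3_GW (k : ℕ) (a : ℕ → ℝ) (q₀ q : ℕ) (w₁ w₂ : ℂ) (M : ℕ) : GW k a q₀ q w₁ w₂ M =
    (sel_Z3_L k a q₀ * (sel_Z3_A k a q w₁ * sel_Z3_A k a q w₂)) M := by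
  rw [ArithmeticFunction.mul_apply]
  unfold GW
  apply Finset.sum_congr rfl
  intro v _
  rw [ArithmeticFunction.mul_apply]
  rfl

theorem sel_Z3_L_mult {k : ℕ} {a : ℕ → ℝ} (H : HData k a) (q : ℕ) :
    (sel_Z3_L k a q).IsMultiplicative := by
  constructor
  · rw [sel_Z3_L_apply, (sel_Z2_lamA_mult H q).1]; simp
  · intro m n h
    rw [sel_Z3_L_apply, sel_Z3_L_apply, sel_Z3_L_apply, (sel_Z2_lamA_mult H q).2 h]
    push_cast; rfl

theorem sel_Z3_A_mult {k : ℕ} {a : ℕ → ℝ} (q : ℕ) (w : ℂ) :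
    (sel_Z3_A k a q w).IsMultiplicative := by
  constructor
  · rw [sel_Z3_A_apply, (sel_Z2_alA_mult q).1]; simp
  · intro m n h
    rw [sel_Z3_A_apply, sel_Z3_A_apply, sel_Z3_A_apply, (sel_Z2_alA_mult q).2 h, Nat.cast_mul,
      Complex.natCast_mul_natCast_cpow]
    push_cast; ring

theorem sel_Z3_mult {k : ℕ} {a : ℕ → ℝ} (H : HData k a) (q₀ q : ℕ) (w₁ w₂ : ℂ) :
    (sel_Z3_L k a q₀ * (sel_Z3_A k a q w₁ * sel_Z3_A k a q w₂)).IsMultiplicative :=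
  (sel_Z3_L_mult H q₀).mul ((sel_Z3_A_mult q w₁).mul (sel_Z3_A_mult q w₂))

set_option linter.unusedVariables false in
theorem GW_one_pr {k : ℕ} {a : ℕ → ℝ} (H : HData k a) {q₀ q : ℕ} (hq : q₀ ∣ q) (w₁ w₂ : ℂ) :
    GW k a q₀ q w₁ w₂ 1 = 1 := by
  rw [sel_Z3_GW]; exact (sel_Z3_mult H q₀ q w₁ w₂).1

set_option linter.unusedVariables false in
theorem GW_mul_pr {k : ℕ} {a : ℕ → ℝ} (H : HData k a) {q₀ q : ℕ} (hq : q₀ ∣ q) (w₁ w₂ : ℂ)
    {m n : ℕ} (h : m.Coprime n) :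
    GW k a q₀ q w₁ w₂ (m * n) = GW k a q₀ q w₁ w₂ m * GW k a q₀ q w₁ w₂ n := by
  rw [sel_Z3_GW, sel_Z3_GW, sel_Z3_GW]; exact (sel_Z3_mult H q₀ q w₁ w₂).2 h

theorem sel_Z3_cpow (p j : ℕ) (w : ℂ) : ((p ^ j : ℕ) : ℂ) ^ (-w) = ((p : ℂ) ^ (-w)) ^ j := by
  rw [← Complex.cpow_nat_mul, Complex.natCast_cpow_natCast_mul]
  push_cast; rfl

theorem sel_Z3_pow_eq {k : ℕ} {a : ℕ → ℝ} (q₀ q : ℕ) (w₁ w₂ : ℂ)
    {p : ℕ} (hp : p.Prime) (i : ℕ) : GW k a q₀ q w₁ w₂ (p ^ i) =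
    ∑ v ∈ Finset.HasAntidiagonal.antidiagonal i, (lamA k a q₀ (p ^ v.1) : ℂ) *
      ∑ u ∈ Finset.HasAntidiagonal.antidiagonal v.2,
        ((alA k a q (p ^ u.1) : ℂ) * ((p : ℂ) ^ (-w₁)) ^ u.1) *
        ((alA k a q (p ^ u.2) : ℂ) * ((p : ℂ) ^ (-w₂)) ^ u.2) := by
  rw [sel_Z3_GW, ArithmeticFunction.mul_apply,
    sel_Z2_sum_pow hp i (fun x y => sel_Z3_L k a q₀ x * (sel_Z3_A k a q w₁ * sel_Z3_A k a q w₂) y)]
  apply Finset.sum_congr rfl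
  intro v _
  rw [ArithmeticFunction.mul_apply,
    sel_Z2_sum_pow hp v.2 (fun x y => sel_Z3_A k a q w₁ x * sel_Z3_A k a q w₂ y)]
  rw [sel_Z3_L_apply]
  congr 1
  apply Finset.sum_congr rfl
  intro u _
  rw [sel_Z3_A_apply, sel_Z3_A_apply, sel_Z3_cpow, sel_Z3_cpow]

theorem GW_pow_pr {k : ℕ} {a : ℕ → ℝ} (H : HData k a) {q₀ q : ℕ} (hq : q₀ ∣ q) (w₁ w₂ : ℂ)
    {p : ℕ} (hp : p.Prime) (i : ℕ) :
    GW k a q₀ q w₁ w₂ (p ^ i) =
      if ¬ p ∣ q then gloc (lam k a p) ((p : ℂ) ^ (-w₁)) ((p : ℂ) ^ (-w₂)) i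
      else if ¬ p ∣ q₀ then (Uc (lam k a p) i : ℂ) else if i = 0 then 1 else 0 := by
  rw [sel_Z3_pow_eq q₀ q w₁ w₂ hp i]
  by_cases hpq : p ∣ q
  · rw [if_neg (not_not.2 hpq)]
    -- only the term with `v.2 = 0` survives
    have hin : ∀ n : ℕ, ∑ u ∈ Finset.HasAntidiagonal.antidiagonal n,
        ((alA k a q (p ^ u.1) : ℂ) * ((p : ℂ) ^ (-w₁)) ^ u.1) *
        ((alA k a q (p ^ u.2) : ℂ) * ((p : ℂ) ^ (-w₂)) ^ u.2) = if n = 0 then 1 else 0 := by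
      intro n
      by_cases hn : n = 0
      · subst hn
        simp [(sel_Z2_alA_mult q).1]
      · rw [if_neg hn]
        apply Finset.sum_eq_zero
        intro u hu
        rw [Finset.HasAntidiagonal.mem_antidiagonal] at hu
        by_cases hu1 : u.1 = 0
        · have hu2 : u.2 ≠ 0 := by omega
          rw [sel_Z2_alA_pow' hp hpq u.2, if_neg hu2]; simp
        · rw [sel_Z2_alA_pow' hp hpq u.1, if_neg hu1]; simp
    have hsum : ∑ v ∈ Finset.HasAntidiagonal.antidiagonal i, (lamA k a q₀ (p ^ v.1) : ℂ) *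
      ∑ u ∈ Finset.HasAntidiagonal.antidiagonal v.2,
        ((alA k a q (p ^ u.1) : ℂ) * ((p : ℂ) ^ (-w₁)) ^ u.1) *
        ((alA k a q (p ^ u.2) : ℂ) * ((p : ℂ) ^ (-w₂)) ^ u.2) = (lamA k a q₀ (p ^ i) : ℂ) := by
      rw [Finset.sum_eq_single ((i, 0) : ℕ × ℕ)]
      · rw [hin]; simp
      · intro v hv hne
        rw [Finset.HasAntidiagonal.mem_antidiagonal] at hv
        have : v.2 ≠ 0 := by
          intro h0
          apply hne
          ext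
          · change v.1 = i; omega
          · exact h0
        rw [hin, if_neg this, mul_zero]
      · intro h; exact absurd (by simp) h
    rw [hsum]
    by_cases hp0 : p ∣ q₀
    · rw [if_neg (not_not.2 hp0), sel_Z2_lamA_pow' H hp hp0]
      split_ifs <;> simp
    · rw [if_pos hp0, sel_Z2_lamA_pow H hp hp0]
  · rw [if_pos hpq]
    have hp0 : ¬ p ∣ q₀ := fun h => hpq (h.trans hq)
    unfold gloc
    apply Finset.sum_congr rfl
    intro v _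
    rw [sel_Z2_lamA_pow H hp hp0]
    congr 1
    apply Finset.sum_congr rfl
    intro u _
    rw [sel_Z2_alA_pow hp hpq, sel_Z2_alA_pow hp hpq]

theorem GW_one : type_of% @GW_one_pr := @GW_one_pr
theorem GW_mul : type_of% @GW_mul_pr := @GW_mul_pr
theorem GW_pow : type_of% @GW_pow_pr := @GW_pow_pr

end Pool.Agent.SEL
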