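import Pool.Agent.Lib_helper68.SEL.Defs
import Pool.Agent.Lib_helper68.SEL.Z1

/-! SEL block Z4: bounds for the local factors. -/

namespace Pool.Agent.SEL

open Complex MeasureTheory Filter Topology Pool.Agent.GL2

theorem gloc_zero_pr (x : ℝ) (z₁ z₂ : ℂ) : gloc x z₁ z₂ 0 = 1 := by
  simp [gloc, Uc, aloc_zero_pr]

theorem gloc_one_pr (x : ℝ) (z₁ z₂ : ℂ) : gloc x z₁ z₂ 1 = x * (1 - (z₁ + z₂) / 2) := by
  unfold gloc
  rw [Finset.Nat.antidiagonal_succ]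
  simp only [Finset.Nat.antidiagonal_zero, Finset.map_singleton, Finset.sum_cons,
    Finset.sum_singleton, Function.Embedding.prodMap, Function.Embedding.coeFn_mk, Prod.map]
  rw [Finset.Nat.antidiagonal_succ]
  simp only [Finset.Nat.antidiagonal_zero, Finset.map_singleton, Finset.sum_cons,
    Finset.sum_singleton, Function.Embedding.prodMap, Function.Embedding.coeFn_mk, Prod.map,
    Nat.succ_eq_add_one, zero_add, aloc_zero_pr, aloc_one_pr, Uc, Function.Embedding.refl_apply]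
  push_cast
  ring

/-- general bound: sums of the shape of `gloc` with a bounded factor `e u₁ u₂` -/
theorem sel_Z4_sum_le (x : ℝ) (i : ℕ) (e : ℕ → ℕ → ℂ) (B : ℝ) (hB : 0 ≤ B)
    (he : ∀ u₁ u₂, u₁ + u₂ ≤ i → ‖e u₁ u₂‖ ≤ B) :
    ‖∑ v ∈ Finset.HasAntidiagonal.antidiagonal i, (Uc x v.1 : ℂ) *
      ∑ u ∈ Finset.HasAntidiagonal.antidiagonal v.2,
        (aloc x u.1 : ℂ) * (aloc x u.2 : ℂ) * e u.1 u.2‖ ≤
      (i + 1) ^ 5 * ‖rt x‖ ^ i * B := by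
  have hr1 : 1 ≤ ‖rt x‖ := (rt_spec_pr x).2.1
  have hin : ∀ v ∈ Finset.HasAntidiagonal.antidiagonal i,
      ‖(Uc x v.1 : ℂ) * ∑ u ∈ Finset.HasAntidiagonal.antidiagonal v.2,
        (aloc x u.1 : ℂ) * (aloc x u.2 : ℂ) * e u.1 u.2‖ ≤ (i + 1) ^ 4 * ‖rt x‖ ^ i * B := by
    intro v hv
    rw [Finset.HasAntidiagonal.mem_antidiagonal] at hv
    have h1 : ‖(Uc x v.1 : ℂ)‖ ≤ (i + 1) * ‖rt x‖ ^ v.1 := by
      have := Uc_le_pr x v.1
      have h2 : ((v.1 : ℝ) + 1) * ‖rt x‖ ^ v.1 ≤ (i + 1) * ‖rt x‖ ^ v.1 := by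
        apply mul_le_mul_of_nonneg_right _ (by positivity)
        have : (v.1 : ℝ) ≤ i := by exact_mod_cast (by omega : v.1 ≤ i)
        linarith
      simpa using this.trans h2
    have h3 : ∀ u ∈ Finset.HasAntidiagonal.antidiagonal v.2,
        ‖(aloc x u.1 : ℂ) * (aloc x u.2 : ℂ) * e u.1 u.2‖ ≤ (i + 1) ^ 2 * ‖rt x‖ ^ v.2 * B := by
      intro u hu
      rw [Finset.HasAntidiagonal.mem_antidiagonal] at hu
      have h4 : ∀ w : ℕ, w ≤ i → ‖(aloc x w : ℂ)‖ ≤ (i + 1) * ‖rt x‖ ^ w := by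
        intro w hw
        have := aloc_le_pr x w
        have h2 : ((w : ℝ) + 1) * ‖rt x‖ ^ w ≤ (i + 1) * ‖rt x‖ ^ w := by
          apply mul_le_mul_of_nonneg_right _ (by positivity)
          have : (w : ℝ) ≤ i := by exact_mod_cast hw
          linarith
        simpa using this.trans h2
      rw [norm_mul, norm_mul]
      calc ‖(aloc x u.1 : ℂ)‖ * ‖(aloc x u.2 : ℂ)‖ * ‖e u.1 u.2‖
          ≤ ((i + 1) * ‖rt x‖ ^ u.1) * ((i + 1) * ‖rt x‖ ^ u.2) * B := by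
            have a1 := h4 u.1 (by omega)
            have a2 := h4 u.2 (by omega)
            have a3 := he u.1 u.2 (by omega)
            gcongr
        _ = (i + 1) ^ 2 * ‖rt x‖ ^ v.2 * B := by
            rw [← hu, pow_add]; ring
    rw [norm_mul]
    have h5 := norm_sum_le_of_le _ h3
    rw [Finset.sum_const, Finset.Nat.card_antidiagonal, nsmul_eq_mul] at h5
    have h6 : (((v.2 + 1 : ℕ) : ℝ)) ≤ i + 1 := by exact_mod_cast (by omega : v.2 + 1 ≤ i + 1)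
    calc ‖(Uc x v.1 : ℂ)‖ * ‖∑ u ∈ Finset.HasAntidiagonal.antidiagonal v.2,
        (aloc x u.1 : ℂ) * (aloc x u.2 : ℂ) * e u.1 u.2‖
        ≤ ((i + 1) * ‖rt x‖ ^ v.1) * (((i : ℝ) + 1) * ((i + 1) ^ 2 * ‖rt x‖ ^ v.2 * B)) := by
          apply mul_le_mul h1 _ (norm_nonneg _) (by positivity)
          refine h5.trans ?_
          apply mul_le_mul_of_nonneg_right h6 (by positivity)
      _ = (i + 1) ^ 4 * ‖rt x‖ ^ i * B := by
          rw [← hv, pow_add]; push_cast; ring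
  refine (norm_sum_le_of_le _ hin).trans ?_
  rw [Finset.sum_const, Finset.Nat.card_antidiagonal, nsmul_eq_mul]
  push_cast
  apply le_of_eq
  ring

theorem sel_Z4_eq (x : ℝ) (z₁ z₂ : ℂ) (i : ℕ) : gloc x z₁ z₂ i =
    ∑ v ∈ Finset.HasAntidiagonal.antidiagonal i, (Uc x v.1 : ℂ) *
      ∑ u ∈ Finset.HasAntidiagonal.antidiagonal v.2,
        (aloc x u.1 : ℂ) * (aloc x u.2 : ℂ) * (z₁ ^ u.1 * z₂ ^ u.2) := by
  unfold gloc
  apply Finset.sum_congr rfl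
  intro v _
  congr 1
  apply Finset.sum_congr rfl
  intro u _
  ring

theorem gloc_le_pr (x : ℝ) {z₁ z₂ : ℂ} (h₁ : ‖z₁‖ ≤ 1) (h₂ : ‖z₂‖ ≤ 1) (i : ℕ) :
    ‖gloc x z₁ z₂ i‖ ≤ (i + 1) ^ 6 * ‖rt x‖ ^ i := by
  rw [sel_Z4_eq]
  refine (sel_Z4_sum_le x i (fun a b => z₁ ^ a * z₂ ^ b) 1 zero_le_one ?_).trans ?_
  · intro u₁ u₂ _
    rw [norm_mul, norm_pow, norm_pow]
    exact mul_le_one₀ (pow_le_one₀ (norm_nonneg _) h₁) (by positivity)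
      (pow_le_one₀ (norm_nonneg _) h₂)
  · rw [mul_one]
    apply mul_le_mul_of_nonneg_right _ (by positivity)
    apply pow_le_pow_right₀ _ (by norm_num)
    linarith [(Nat.cast_nonneg i : (0 : ℝ) ≤ i)]

theorem sel_Z4_pow_sub {z : ℂ} (hz : ‖z‖ ≤ 1) (n : ℕ) : ‖z ^ n - 1‖ ≤ n * ‖1 - z‖ := by
  induction n with
  | zero => simp
  | succ n ih =>
    have h : z ^ (n + 1) - 1 = z * (z ^ n - 1) - (1 - z) := by ring
    rw [h]
    calc ‖z * (z ^ n - 1) - (1 - z)‖ ≤ ‖z * (z ^ n - 1)‖ + ‖1 - z‖ := norm_sub_le _ _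
      _ = ‖z‖ * ‖z ^ n - 1‖ + ‖1 - z‖ := by rw [norm_mul]
      _ ≤ 1 * (n * ‖1 - z‖) + ‖1 - z‖ := by gcongr
      _ = _ := by push_cast; ring

theorem gloc_le'_pr (x : ℝ) {z₁ z₂ : ℂ} (h₁ : ‖z₁‖ ≤ 1) (h₂ : ‖z₂‖ ≤ 1) (i : ℕ) (hi : 1 ≤ i) :
    ‖gloc x z₁ z₂ i‖ ≤ (i + 1) ^ 7 * ‖rt x‖ ^ i * (‖1 - z₁‖ + ‖1 - z₂‖) := by
  have h0 : gloc x 1 1 i = 0 := by
    have h := aloc_conv_pr x i
    rw [if_neg (by omega)] at h
    have h2 := congrArg (fun r : ℝ => (r : ℂ)) h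
    simp only [Complex.ofReal_sum, Complex.ofReal_mul, Complex.ofReal_zero] at h2
    unfold gloc
    simp only [one_pow, mul_one]
    exact h2
  have h3 : gloc x z₁ z₂ i = ∑ v ∈ Finset.HasAntidiagonal.antidiagonal i, (Uc x v.1 : ℂ) *
      ∑ u ∈ Finset.HasAntidiagonal.antidiagonal v.2,
        (aloc x u.1 : ℂ) * (aloc x u.2 : ℂ) * (z₁ ^ u.1 * z₂ ^ u.2 - 1) := by
    rw [← sub_zero (gloc x z₁ z₂ i), ← h0, sel_Z4_eq, sel_Z4_eq, ← Finset.sum_sub_distrib]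
    apply Finset.sum_congr rfl
    intro v _
    rw [← mul_sub, ← Finset.sum_sub_distrib]
    congr 1
    apply Finset.sum_congr rfl
    intro u _
    simp only [one_pow, mul_one]
    ring
  rw [h3]
  refine (sel_Z4_sum_le x i (fun a b => z₁ ^ a * z₂ ^ b - 1)
    (i * (‖1 - z₁‖ + ‖1 - z₂‖)) (by positivity) ?_).trans ?_
  · intro u₁ u₂ hu
    have e : z₁ ^ u₁ * z₂ ^ u₂ - 1 = (z₁ ^ u₁ - 1) * z₂ ^ u₂ + (z₂ ^ u₂ - 1) := by ring
    have e1 : (u₁ : ℝ) ≤ i := by exact_mod_cast (by omega : u₁ ≤ i)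
    have e2 : (u₂ : ℝ) ≤ i := by exact_mod_cast (by omega : u₂ ≤ i)
    rw [e]
    calc ‖(z₁ ^ u₁ - 1) * z₂ ^ u₂ + (z₂ ^ u₂ - 1)‖
        ≤ ‖(z₁ ^ u₁ - 1) * z₂ ^ u₂‖ + ‖z₂ ^ u₂ - 1‖ := norm_add_le _ _
      _ = ‖z₁ ^ u₁ - 1‖ * ‖z₂‖ ^ u₂ + ‖z₂ ^ u₂ - 1‖ := by rw [norm_mul, norm_pow]
      _ ≤ (u₁ * ‖1 - z₁‖) * 1 + u₂ * ‖1 - z₂‖ := by
          have a1 := sel_Z4_pow_sub h₁ u₁
          have a2 := sel_Z4_pow_sub h₂ u₂
          have a3 : ‖z₂‖ ^ u₂ ≤ 1 := pow_le_one₀ (norm_nonneg _) h₂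
          gcongr
      _ ≤ i * ‖1 - z₁‖ + i * ‖1 - z₂‖ := by
          rw [mul_one]; gcongr
      _ = _ := by ring
  · have hi0 : (0 : ℝ) ≤ i := Nat.cast_nonneg i
    calc ((i : ℝ) + 1) ^ 5 * ‖rt x‖ ^ i * (i * (‖1 - z₁‖ + ‖1 - z₂‖))
        = (((i : ℝ) + 1) ^ 5 * i) * (‖rt x‖ ^ i * (‖1 - z₁‖ + ‖1 - z₂‖)) := by ring
      _ ≤ ((i : ℝ) + 1) ^ 7 * (‖rt x‖ ^ i * (‖1 - z₁‖ + ‖1 - z₂‖)) := by
          apply mul_le_mul_of_nonneg_right _ (by positivity)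
          calc ((i : ℝ) + 1) ^ 5 * (i : ℝ) ≤ ((i : ℝ) + 1) ^ 5 * ((i : ℝ) + 1) ^ 2 := by
                apply mul_le_mul_of_nonneg_left _ (by positivity)
                nlinarith
            _ = ((i : ℝ) + 1) ^ 7 := by ring
      _ = _ := by ring

theorem gloc_zero : type_of% @gloc_zero_pr := @gloc_zero_pr
theorem gloc_one : type_of% @gloc_one_pr := @gloc_one_pr
theorem gloc_le : type_of% @gloc_le_pr := @gloc_le_pr
theorem gloc_le' : type_of% @gloc_le'_pr := @gloc_le'_pr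

end Pool.Agent.SEL
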