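import Pool.Agent.Lib_helper68.SEL.Defs
import Pool.Agent.Lib_helper68.GL2.BAS
import Pool.Agent.Lib_helper68.GL2.RSF
import Pool.Agent.Lib_helper68.SEL.Z1
import Pool.Agent.Lib_helper68.SEL.Z2

/-! SEL block Z5 -/

namespace Pool.Agent.SEL

open Complex MeasureTheory Filter Topology Pool.Agent.GL2

theorem sel_z5_pow {k : ℕ} {a : ℕ → ℝ} (H : HData k a) : ∃ C : ℝ, 0 < C ∧ ∀ N : ℕ, 0 < N →
    ∑ n ∈ Finset.Icc 1 N, (a n) ^ 2 ≤ C * (N : ℝ) ^ k := by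
  obtain ⟨C, hC⟩ := Dm_le_pr H
  refine ⟨Real.exp (4 * Real.pi) * (|C| + 1), by positivity, fun N hN => ?_⟩
  have hN0 : (0 : ℝ) < N := by exact_mod_cast hN
  have hy : (0 : ℝ) < 1 / N := by positivity
  have h1 := hC 1 (1 / N) hy
  rw [Dm] at h1
  have h2 : ∑ n ∈ Finset.Icc 1 N, (am a 1 n) ^ 2 * Real.exp (-4 * Real.pi * n * (1 / N)) ≤
      ∑' n : ℕ, (am a 1 n) ^ 2 * Real.exp (-4 * Real.pi * n * (1 / N)) :=
    (rsf_summable H 1 hy).sum_le_tsum _ fun n _ => by positivity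
  have h3 : Real.exp (-(4 * Real.pi)) * ∑ n ∈ Finset.Icc 1 N, (a n) ^ 2 ≤
      ∑ n ∈ Finset.Icc 1 N, (am a 1 n) ^ 2 * Real.exp (-4 * Real.pi * n * (1 / N)) := by
    rw [Finset.mul_sum]
    refine Finset.sum_le_sum fun n hn => ?_
    rw [Finset.mem_Icc] at hn
    rw [rsf_am_one, mul_comm]
    refine mul_le_mul_of_nonneg_left (Real.exp_le_exp.2 ?_) (sq_nonneg _)
    have h4 : (n : ℝ) * (1 / N) ≤ 1 := by
      rw [mul_one_div, div_le_one hN0]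
      exact_mod_cast hn.2
    have h5 : -4 * Real.pi * n * (1 / N) = -(4 * Real.pi) * (n * (1 / N)) := by ring
    rw [h5]
    nlinarith [Real.pi_pos]
  have h6 : (1 / (N : ℝ)) ^ k * (Real.exp (-(4 * Real.pi)) * ∑ n ∈ Finset.Icc 1 N, (a n) ^ 2) ≤
      |C| + 1 := by
    refine (mul_le_mul_of_nonneg_left (h3.trans h2) (by positivity)).trans (h1.trans ?_)
    linarith [le_abs_self C]
  have h7 : ∑ n ∈ Finset.Icc 1 N, (a n) ^ 2 = Real.exp (4 * Real.pi) * (N : ℝ) ^ k *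
      ((1 / (N : ℝ)) ^ k * (Real.exp (-(4 * Real.pi)) * ∑ n ∈ Finset.Icc 1 N, (a n) ^ 2)) := by
    rw [Real.exp_neg, one_div, inv_pow]
    field_simp
  rw [h7]
  calc Real.exp (4 * Real.pi) * (N : ℝ) ^ k *
      ((1 / (N : ℝ)) ^ k * (Real.exp (-(4 * Real.pi)) * ∑ n ∈ Finset.Icc 1 N, (a n) ^ 2))
      ≤ Real.exp (4 * Real.pi) * (N : ℝ) ^ k * (|C| + 1) :=
        mul_le_mul_of_nonneg_left h6 (by positivity)
    _ = Real.exp (4 * Real.pi) * (|C| + 1) * (N : ℝ) ^ k := by ring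

theorem sel_z5_lam {k : ℕ} {a : ℕ → ℝ} (H : HData k a) {n : ℕ} (hn : 0 < n) :
    (lam k a n) ^ 2 = (a n) ^ 2 * n / (n : ℝ) ^ k := by
  have hn0 : (0 : ℝ) < n := by exact_mod_cast hn
  rw [lam, mul_pow, ← Real.rpow_natCast ((n : ℝ) ^ (-(((k : ℝ) - 1) / 2))) 2,
    ← Real.rpow_mul hn0.le]
  have h1 : -(((k : ℝ) - 1) / 2) * ((2 : ℕ) : ℝ) = 1 - k := by push_cast; ring
  rw [h1, Real.rpow_sub hn0, Real.rpow_one, Real.rpow_natCast]
  ring

theorem lam_sq_sum_pr {k : ℕ} {a : ℕ → ℝ} (H : HData k a) : ∃ C : ℝ, 0 < C ∧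
    ∀ N : ℕ, ∑ n ∈ Finset.Icc 1 N, (lam k a n) ^ 2 ≤ C * N := by
  obtain ⟨C, hC, hC'⟩ := sel_z5_pow H
  refine ⟨2 * (2 ^ k * C), by positivity, ?_⟩
  intro N
  induction N using Nat.strong_induction_on with
  | _ N ih =>
    rcases Nat.eq_zero_or_pos N with h0 | hN
    · subst h0; simp
    have hN0 : (0 : ℝ) < N := by exact_mod_cast hN
    have h1 := ih (N / 2) (Nat.div_lt_self hN one_lt_two)
    have h2 : ((N / 2 : ℕ) : ℝ) ≤ N / 2 := Nat.cast_div_le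
    have h3 : ∑ n ∈ Finset.Icc 1 N, (lam k a n) ^ 2 =
        ∑ n ∈ Finset.Icc 1 (N / 2), (lam k a n) ^ 2 +
          ∑ n ∈ Finset.Ioc (N / 2) N, (lam k a n) ^ 2 := by
      have e1 : ∀ M : ℕ, Finset.Icc 1 M = Finset.Ioc 0 M := fun M => by
        ext x; simp only [Finset.mem_Icc, Finset.mem_Ioc]; omega
      rw [e1, e1, Finset.sum_Ioc_consecutive _ (Nat.zero_le _) (Nat.div_le_self N 2)]
    have h4 : ∑ n ∈ Finset.Ioc (N / 2) N, (lam k a n) ^ 2 ≤ 2 ^ k * C * N := by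
      have h5 : ∀ n ∈ Finset.Ioc (N / 2) N, (lam k a n) ^ 2 ≤
          (2 ^ k * N / (N : ℝ) ^ k) * (a n) ^ 2 := by
        intro n hn
        rw [Finset.mem_Ioc] at hn
        have hn1 : 0 < n := by omega
        have hn0 : (0 : ℝ) < n := by exact_mod_cast hn1
        rw [sel_z5_lam H hn1]
        have h6 : (N : ℝ) ≤ 2 * n := by exact_mod_cast (by omega : N ≤ 2 * n)
        have h7 : (N : ℝ) ^ k ≤ 2 ^ k * (n : ℝ) ^ k := by
          rw [← mul_pow]; exact pow_le_pow_left₀ hN0.le h6 k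
        have h8 : (n : ℝ) ≤ N := by exact_mod_cast hn.2
        rw [div_le_iff₀ (by positivity)]
        have h9 : (a n) ^ 2 * n ≤ (a n) ^ 2 * N := mul_le_mul_of_nonneg_left h8 (sq_nonneg _)
        have h10 : (a n) ^ 2 * N ≤ 2 ^ k * N / (N : ℝ) ^ k * (a n) ^ 2 * (n : ℝ) ^ k := by
          have h11 : 2 ^ k * N / (N : ℝ) ^ k * (a n) ^ 2 * (n : ℝ) ^ k =
              ((a n) ^ 2 * N) * (2 ^ k * (n : ℝ) ^ k / (N : ℝ) ^ k) := by ring
          rw [h11]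
          have h12 : 1 ≤ 2 ^ k * (n : ℝ) ^ k / (N : ℝ) ^ k := by
            rw [one_le_div (by positivity)]; exact h7
          have h13 : 0 ≤ (a n) ^ 2 * N := by positivity
          nlinarith
        exact h9.trans h10
      refine (Finset.sum_le_sum h5).trans ?_
      rw [← Finset.mul_sum]
      have h6 : ∑ n ∈ Finset.Ioc (N / 2) N, (a n) ^ 2 ≤ C * (N : ℝ) ^ k := by
        refine (Finset.sum_le_sum_of_subset_of_nonneg ?_ fun n _ _ => sq_nonneg _).trans (hC' N hN)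
        intro x hx
        rw [Finset.mem_Ioc] at hx
        rw [Finset.mem_Icc]
        omega
      calc 2 ^ k * N / (N : ℝ) ^ k * ∑ n ∈ Finset.Ioc (N / 2) N, (a n) ^ 2
          ≤ 2 ^ k * N / (N : ℝ) ^ k * (C * (N : ℝ) ^ k) :=
            mul_le_mul_of_nonneg_left h6 (by positivity)
        _ = 2 ^ k * C * N := by field_simp
    rw [h3]
    have h5 : 2 * (2 ^ k * C) * ((N / 2 : ℕ) : ℝ) ≤ 2 * (2 ^ k * C) * (N / 2) :=
      mul_le_mul_of_nonneg_left h2 (by positivity)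
    linarith

theorem lam_sq_summable_pr {k : ℕ} {a : ℕ → ℝ} (H : HData k a) {x : ℝ} (hx : 1 < x) :
    Summable fun n : ℕ => (lam k a n) ^ 2 * (n : ℝ) ^ (-x) := by
  obtain ⟨C, hC, hC'⟩ := lam_sq_sum_pr H
  have h0 : lam k a 0 = 0 := by rw [lam, H.zero, zero_mul]
  have h1 : LSeriesSummable (fun n : ℕ => (((lam k a n) ^ 2 : ℝ) : ℂ)) (x : ℂ) := by
    apply LSeriesSummable_of_sum_norm_bigO_and_nonneg (r := 1) (f := fun n => (lam k a n) ^ 2)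
    · refine Asymptotics.IsBigO.of_bound C (Eventually.of_forall fun N => ?_)
      have e1 : |(N : ℝ)| = N := abs_of_nonneg (Nat.cast_nonneg N)
      have e2 : |∑ n ∈ Finset.Icc 1 N, (lam k a n) ^ 2| = ∑ n ∈ Finset.Icc 1 N, (lam k a n) ^ 2 :=
        abs_of_nonneg (Finset.sum_nonneg fun n _ => sq_nonneg _)
      rw [Real.rpow_one, Real.norm_eq_abs, Real.norm_eq_abs, e1, e2]
      exact hC' N
    · intro n; exact sq_nonneg _
    · norm_num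
    · simpa using hx
  have h2 := h1.norm
  refine h2.congr fun n => ?_
  rcases Nat.eq_zero_or_pos n with h | h
  · subst h
    simp [h0]
  · have hn0 : (0 : ℝ) < n := by exact_mod_cast h
    have e1 : |(lam k a n) ^ 2| = (lam k a n) ^ 2 := abs_of_nonneg (sq_nonneg _)
    rw [LSeries.norm_term_eq, if_neg h.ne']
    simp only [Complex.norm_real, Real.norm_eq_abs, e1, ofReal_re]
    rw [Real.rpow_neg hn0.le, div_eq_mul_inv]

theorem lam_sq_summable_prime_pr {k : ℕ} {a : ℕ → ℝ} (H : HData k a) {x : ℝ} (hx : 1 < x) :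
    Summable fun p : Nat.Primes => (lam k a p) ^ 2 * ((p : ℕ) : ℝ) ^ (-x) :=
  (lam_sq_summable_pr H hx).comp_injective Nat.Primes.coe_nat_injective

theorem rt_summable_pr {k : ℕ} {a : ℕ → ℝ} (H : HData k a) :
    Summable fun p : Nat.Primes => ‖rt (lam k a p)‖ ^ 4 * ((p : ℕ) : ℝ) ^ (-2 : ℝ) *
      (1 + Real.log (p : ℕ)) ^ 2 := by
  -- the logarithm is small
  obtain ⟨K, hK, hK'⟩ : ∃ K : ℝ, 0 < K ∧ ∀ p : ℝ, 1 ≤ p → (1 + Real.log p) ^ 2 ≤ K * p ^ (1 / 200 : ℝ) := by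
    refine ⟨(1 + 400) ^ 2, by norm_num, fun p hp => ?_⟩
    have hp0 : 0 < p := by linarith
    have h1 : Real.log p ≤ p ^ (1 / 400 : ℝ) / (1 / 400) := Real.log_le_rpow_div hp0.le (by norm_num)
    have h2 : 1 ≤ p ^ (1 / 400 : ℝ) := Real.one_le_rpow hp (by norm_num)
    have h3 : 0 ≤ Real.log p := Real.log_nonneg hp
    have h4 : 1 + Real.log p ≤ (1 + 400) * p ^ (1 / 400 : ℝ) := by
      rw [div_eq_mul_inv] at h1
      norm_num at h1 ⊢
      linarith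
    calc (1 + Real.log p) ^ 2 ≤ ((1 + 400) * p ^ (1 / 400 : ℝ)) ^ 2 :=
          pow_le_pow_left₀ (by linarith) h4 2
      _ = (1 + 400) ^ 2 * p ^ (1 / 200 : ℝ) := by
          rw [mul_pow, ← Real.rpow_natCast (p ^ (1 / 400 : ℝ)) 2, ← Real.rpow_mul hp0.le]
          norm_num
  have s1 : Summable fun p : Nat.Primes => ((p : ℕ) : ℝ) ^ (-(2 - 1 / 200) : ℝ) :=
    (Real.summable_nat_rpow.2 (by norm_num)).comp_injective Nat.Primes.coe_nat_injective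
  have s2 := lam_sq_summable_prime_pr H (x := 1 + 1 / 200) (by norm_num)
  have s3 : Summable fun p : Nat.Primes => K * (((p : ℕ) : ℝ) ^ (-(2 - 1 / 200) : ℝ) +
      4 * ((lam k a p) ^ 2 * ((p : ℕ) : ℝ) ^ (-(1 + 1 / 200) : ℝ))) :=
    (s1.add (s2.mul_left 4)).mul_left K
  refine Summable.of_nonneg_of_le (fun p => by positivity) (fun p => ?_) s3
  have hp := p.2
  have hp1 : (1 : ℝ) ≤ ((p : ℕ) : ℝ) := by exact_mod_cast hp.one_lt.le
  have hp0 : (0 : ℝ) < ((p : ℕ) : ℝ) := by linarith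
  obtain ⟨-, hr1, hr2, hr3⟩ := rt_spec (lam k a p)
  have hr4 := rt_bound H hp
  have h1 : ‖rt (lam k a p)‖ ^ 4 ≤ 1 + (lam k a p) ^ 4 := by
    rcases max_cases 1 |lam k a p| with h | h
    · rw [h.1] at hr2
      have : ‖rt (lam k a p)‖ = 1 := le_antisymm hr2 hr1
      rw [this]
      nlinarith [sq_nonneg ((lam k a p) ^ 2)]
    · rw [h.1] at hr2
      have : ‖rt (lam k a p)‖ ^ 4 ≤ |lam k a p| ^ 4 := pow_le_pow_left₀ (norm_nonneg _) hr2 4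
      rw [← abs_pow, abs_of_nonneg (by positivity)] at this
      linarith
  have h2 : (lam k a p) ^ 2 ≤ 4 * ((p : ℕ) : ℝ) ^ (1 - 1 / 100 : ℝ) := by
    have h3 : |lam k a p| ≤ 2 * ((p : ℕ) : ℝ) ^ (1 / 2 - 1 / 200 : ℝ) := by linarith
    have h4 := pow_le_pow_left₀ (abs_nonneg _) h3 2
    rw [sq_abs, mul_pow, ← Real.rpow_natCast (((p : ℕ) : ℝ) ^ (1 / 2 - 1 / 200 : ℝ)) 2,
      ← Real.rpow_mul hp0.le] at h4
    norm_num at h4 ⊢
    exact h4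
  have h3 : (lam k a p) ^ 4 * ((p : ℕ) : ℝ) ^ (-2 : ℝ) ≤
      4 * ((lam k a p) ^ 2 * ((p : ℕ) : ℝ) ^ (-(1 + 1 / 100) : ℝ)) := by
    have h4 : (lam k a p) ^ 4 = (lam k a p) ^ 2 * (lam k a p) ^ 2 := by ring
    rw [h4]
    calc (lam k a p) ^ 2 * (lam k a p) ^ 2 * ((p : ℕ) : ℝ) ^ (-2 : ℝ)
        ≤ (lam k a p) ^ 2 * (4 * ((p : ℕ) : ℝ) ^ (1 - 1 / 100 : ℝ)) * ((p : ℕ) : ℝ) ^ (-2 : ℝ) := by
          gcongr
      _ = 4 * ((lam k a p) ^ 2 * (((p : ℕ) : ℝ) ^ (1 - 1 / 100 : ℝ) * ((p : ℕ) : ℝ) ^ (-2 : ℝ))) := by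
          ring
      _ = _ := by
          rw [← Real.rpow_add hp0]
          norm_num
  have h5 : ‖rt (lam k a p)‖ ^ 4 * ((p : ℕ) : ℝ) ^ (-2 : ℝ) ≤ ((p : ℕ) : ℝ) ^ (-2 : ℝ) +
      4 * ((lam k a p) ^ 2 * ((p : ℕ) : ℝ) ^ (-(1 + 1 / 100) : ℝ)) := by
    have h6 : 0 < ((p : ℕ) : ℝ) ^ (-2 : ℝ) := Real.rpow_pos_of_pos hp0 _
    nlinarith
  have h7 := hK' _ hp1
  calc ‖rt (lam k a p)‖ ^ 4 * ((p : ℕ) : ℝ) ^ (-2 : ℝ) * (1 + Real.log (p : ℕ)) ^ 2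
      ≤ (((p : ℕ) : ℝ) ^ (-2 : ℝ) +
        4 * ((lam k a p) ^ 2 * ((p : ℕ) : ℝ) ^ (-(1 + 1 / 100) : ℝ))) *
          (K * ((p : ℕ) : ℝ) ^ (1 / 200 : ℝ)) := by
        apply mul_le_mul h5 h7 (sq_nonneg _)
        positivity
    _ = K * (((p : ℕ) : ℝ) ^ (-2 : ℝ) * ((p : ℕ) : ℝ) ^ (1 / 200 : ℝ) +
          4 * ((lam k a p) ^ 2 * (((p : ℕ) : ℝ) ^ (-(1 + 1 / 100) : ℝ) *
            ((p : ℕ) : ℝ) ^ (1 / 200 : ℝ)))) := by ring
    _ = _ := by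
        rw [← Real.rpow_add hp0, ← Real.rpow_add hp0]
        norm_num

theorem lam_sq_sum : type_of% @lam_sq_sum_pr := @lam_sq_sum_pr
theorem lam_sq_summable : type_of% @lam_sq_summable_pr := @lam_sq_summable_pr
theorem lam_sq_summable_prime : type_of% @lam_sq_summable_prime_pr := @lam_sq_summable_prime_pr
theorem rt_summable : type_of% @rt_summable_pr := @rt_summable_pr

end Pool.Agent.SEL
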