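import Pool.Agent.Lib_helper68.SEL.Defs
import Pool.Agent.Lib_helper68.GL2.RSL
import Pool.Agent.Lib_helper68.GL2.RSA
import Pool.Agent.Lib_helper68.GL2.RSF
import Pool.Agent.Lib_helper68.SEL.K15
import Pool.Agent.Lib_helper68.SEL.K7

/-! # Block K16: positivity of the residue -/

namespace Pool.Agent.SEL

open Complex MeasureTheory Filter Topology Pool.Agent.GL2

theorem sel_K16_KK (k : ℕ) (a : ℕ → ℝ) {Y : ℝ} (hY : 0 < Y) :
    KK k a 1 1 1 0 Y Y = Dm k a 1 Y := by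
  unfold KK Dm
  have h1 : ((((1 * 1 : ℕ) : ℝ) * (Y * Y)) ^ ((k : ℝ) / 2)) = Y ^ k := by
    have e : (((1 * 1 : ℕ) : ℝ) * (Y * Y)) = Y ^ (2 : ℝ) := by
      rw [Real.rpow_two]
      push_cast
      ring
    rw [e, ← Real.rpow_mul hY.le, ← Real.rpow_natCast]
    congr 1
    ring
  rw [h1]
  congr 1
  have hinj : Function.Injective fun n : ℕ => ((n, n) : ℕ × ℕ) := by
    intro m n h
    exact (Prod.mk.inj h).1
  rw [← hinj.tsum_eq (f := fun v : ℕ × ℕ => if ((v.1 * 1 : ℕ) : ℤ) - ((v.2 * 1 : ℕ) : ℤ) = 0 then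
      am a 1 v.1 * am a 1 v.2 *
        Real.exp (-2 * Real.pi * (v.1 * (1 : ℕ) * Y + v.2 * (1 : ℕ) * Y)) else 0)]
  · refine tsum_congr fun n => ?_
    simp only [mul_one, sub_self, if_true]
    rw [sq]
    congr 2
    push_cast
    ring
  · intro v hv
    rw [Function.mem_support] at hv
    by_cases h : ((v.1 * 1 : ℕ) : ℤ) - ((v.2 * 1 : ℕ) : ℤ) = 0
    · have : v.1 = v.2 := by
        push_cast at h
        omega
      exact ⟨v.1, Prod.ext rfl this⟩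
    · rw [if_neg h] at hv
      exact absurd rfl hv

/-- lower bound for the number of lattice points -/
theorem sel_K16_NN (M : ℕ) : ∃ c ε₀ : ℝ, 0 < c ∧ 0 < ε₀ ∧ ∀ z ∈ FD, z.im ≤ M →
    ∀ ε : ℝ, 0 < ε → ε ≤ ε₀ → c ≤ ε * NN z ε / 2 := by
  obtain ⟨C, E, hC, hE, h⟩ := lattice_pow
  obtain ⟨ρ, hρ, h2⟩ := h 1 one_pos 0 0
  have hρ := hρ rfl
  have hlim : Tendsto (fun ε : ℝ => C * (1 + (M : ℝ)) ^ E * ε ^ (1 / 4 : ℝ)) (𝓝[>] 0) (𝓝 0) := by
    have h3 : Tendsto (fun ε : ℝ => ε ^ (1 / 4 : ℝ)) (𝓝[>] 0) (𝓝 0) := by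
      have h4 : ContinuousAt (fun ε : ℝ => ε ^ (1 / 4 : ℝ)) 0 :=
        Real.continuousAt_rpow_const 0 (1 / 4) (Or.inr (by norm_num))
      have h5 := h4.tendsto
      rw [Real.zero_rpow (by norm_num)] at h5
      exact h5.mono_left nhdsWithin_le_nhds
    have := h3.const_mul (C * (1 + (M : ℝ)) ^ E)
    simpa using this
  have hev : ∀ᶠ ε : ℝ in 𝓝[>] 0, C * (1 + (M : ℝ)) ^ E * ε ^ (1 / 4 : ℝ) < ρ / 4 :=
    hlim.eventually (gt_mem_nhds (by positivity))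
  rw [eventually_nhdsWithin_iff, Metric.eventually_nhds_iff] at hev
  obtain ⟨δ, hδ, hδ2⟩ := hev
  refine ⟨ρ / 8, min (δ / 2) 1, by positivity, by positivity, ?_⟩
  intro z hz hzM ε hε hεm
  have him := rsl_FD_im hz
  have hre : |z.re| ≤ 1 := by
    have := hz.2.2
    linarith
  have hε1 : ε ≤ 1 := hεm.trans (min_le_right _ _)
  have hεδ : ε ≤ δ / 2 := hεm.trans (min_le_left _ _)
  have h3 := hδ2 (y := ε) (by rw [Real.dist_eq, sub_zero, abs_of_pos hε]; linarith) hε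
  have hfin := RSA_NN_finite ⟨z, hz.1⟩ hε
  have hfin' : Set.Finite {v : ℤ × ℤ | IsCoprime v.1 v.2 ∧ ε ≤ z.im / ‖(v.1 : ℂ) * z + v.2‖ ^ 2 ∧
    z.im / ‖(v.1 : ℂ) * z + v.2‖ ^ 2 < 2 * ε} := hfin
  have h4 := h2 z him.le hre ε (2 * ε) hε hε1 (by linarith) hfin'.toFinset (by
    intro v
    rw [Set.Finite.mem_toFinset]
    simp)
  have h5 : (hfin'.toFinset.card : ℝ) = NN z ε := by
    have : NN z ε = {v : ℤ × ℤ | IsCoprime v.1 v.2 ∧ ε ≤ z.im / ‖(v.1 : ℂ) * z + v.2‖ ^ 2 ∧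
      z.im / ‖(v.1 : ℂ) * z + v.2‖ ^ 2 < 2 * ε}.ncard := rfl
    rw [this, Set.ncard_eq_toFinset_card _ hfin']
  rw [h5] at h4
  have h6 := (abs_le.mp h4).1
  have h7 : C * (1 + z.im) ^ E * ε ^ (-(3 / 4) : ℝ) ≤ C * (1 + (M : ℝ)) ^ E * ε ^ (-(3 / 4) : ℝ) := by
    refine mul_le_mul_of_nonneg_right (mul_le_mul_of_nonneg_left ?_ hC.le) (by positivity)
    exact Real.rpow_le_rpow (by linarith) (by linarith) hE.le
  have h8 : ε * ε ^ (-(3 / 4) : ℝ) = ε ^ (1 / 4 : ℝ) := by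
    nth_rewrite 1 [← Real.rpow_one ε]
    rw [← Real.rpow_add hε]
    norm_num
  have h9 : ε * (1 / ε - 1 / (2 * ε)) = 1 / 2 := by
    field_simp
    norm_num
  have h10 : ρ * (1 / ε - 1 / (2 * ε)) - C * (1 + (M : ℝ)) ^ E * ε ^ (-(3 / 4) : ℝ) ≤ NN z ε := by
    linarith
  have h11 := mul_le_mul_of_nonneg_left h10 hε.le
  have h12 : ε * (ρ * (1 / ε - 1 / (2 * ε)) - C * (1 + (M : ℝ)) ^ E * ε ^ (-(3 / 4) : ℝ)) =
      ρ * (ε * (1 / ε - 1 / (2 * ε))) - C * (1 + (M : ℝ)) ^ E * (ε * ε ^ (-(3 / 4) : ℝ)) := by ring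
  rw [h12, h8, h9] at h11
  linarith

theorem sel_K16_Dm_pos {k : ℕ} {a : ℕ → ℝ} (H : HData k a) {y : ℝ} (hy : 0 < y) :
    0 < Dm k a 1 y := by
  unfold Dm
  refine mul_pos (pow_pos hy k) ?_
  refine (rsf_summable H 1 hy).tsum_pos (fun n => by positivity) 1 ?_
  rw [rsf_am_one, H.one]
  positivity

/-- the windows are bounded below -/
theorem sel_K16_low {k : ℕ} {a : ℕ → ℝ} (H : HData k a) : ∃ c : ℝ, 0 < c ∧
    ∀ᶠ ε : ℝ in 𝓝[>] 0, c ≤ ∫ t in (1 : ℝ)..2, Dm k a 1 (ε * t) / t ^ 2 := by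
  set f : ℂ → ENNReal := fun z => ENNReal.ofReal (ph k a z / z.im ^ 2) with hf
  have hfm : Measurable f := ((rsl_ph_meas k a).div (by fun_prop)).ennreal_ofReal
  set S : ℕ → Set ℂ := fun M => FD ∩ {z : ℂ | z.im ≤ M} with hS
  have hSm : ∀ M, MeasurableSet (S M) := fun M =>
    rsl_FD_meas.inter (measurableSet_le Complex.measurable_im measurable_const)
  have hU : FD ⊆ ⋃ M, S M := by
    intro z hz
    obtain ⟨M, hM⟩ := exists_nat_ge z.im
    exact Set.mem_iUnion.mpr ⟨M, hz, hM⟩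
  have hW1 : 0 < ∫ t in (1 : ℝ)..2, Dm k a 1 (1 * t) / t ^ 2 := by
    refine intervalIntegral.intervalIntegral_pos_of_pos_on
      (rsf_intervalIntegrable H 1 one_pos) ?_ (by norm_num)
    intro t ht
    have ht0 : 0 < t := by linarith [ht.1]
    have := sel_K16_Dm_pos H (y := 1 * t) (by linarith)
    positivity
  have hex : ∃ M : ℕ, ∫⁻ z in S M, f z ≠ 0 := by
    by_contra hcon
    push Not at hcon
    have h1 : ∫⁻ z in FD, f z = 0 := by
      rw [← withDensity_apply f rsl_FD_meas]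
      refine measure_mono_null hU (measure_iUnion_null fun M => ?_)
      rw [withDensity_apply f (hSm M)]
      exact hcon M
    have h2 := (lintegral_eq_zero_iff hfm).mp h1
    have h3 := unfold H (ε := 1) one_pos
    have h4 : ∫⁻ z in FD, ENNReal.ofReal (ph k a z / z.im ^ 2 * (1 * NN z 1 / 2)) = 0 := by
      rw [← lintegral_zero (α := ℂ) (μ := volume.restrict FD)]
      refine lintegral_congr_ae ?_
      filter_upwards [h2] with z hz
      have hz' : ph k a z / z.im ^ 2 ≤ 0 := by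
        simpa [hf] using hz
      refine ENNReal.ofReal_eq_zero.mpr ?_
      exact mul_nonpos_of_nonpos_of_nonneg hz' (by positivity)
    rw [h4] at h3
    exact absurd (ENNReal.ofReal_eq_zero.mp h3) (not_le.mpr hW1)
  obtain ⟨M, hM⟩ := hex
  obtain ⟨c, ε₀, hc, hε₀, hN⟩ := sel_K16_NN M
  set L : ENNReal := ENNReal.ofReal c * ∫⁻ z in S M, f z with hL
  have hL0 : L ≠ 0 := by
    rw [hL]
    exact mul_ne_zero (by simpa using hc) hM
  have hlow : ∀ ε : ℝ, 0 < ε → ε ≤ ε₀ →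
      L ≤ ENNReal.ofReal (∫ t in (1 : ℝ)..2, Dm k a 1 (ε * t) / t ^ 2) := by
    intro ε hε hεε
    rw [unfold H hε, hL, ← lintegral_const_mul _ hfm]
    refine le_trans ?_ (lintegral_mono_set (s := S M) (t := FD) Set.inter_subset_left)
    refine setLIntegral_mono' (hSm M) ?_
    intro z hz
    have h1 := hN z hz.1 hz.2 ε hε hεε
    have him := rsl_FD_im hz.1
    have h2 : 0 ≤ ph k a z / z.im ^ 2 := div_nonneg (RSA_ph_nonneg (by linarith)) (by positivity)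
    rw [hf]
    simp only
    rw [← ENNReal.ofReal_mul hc.le]
    refine ENNReal.ofReal_le_ofReal ?_
    rw [mul_comm]
    exact mul_le_mul_of_nonneg_left h1 h2
  have hLt : L ≠ ⊤ := ne_top_of_le_ne_top ENNReal.ofReal_ne_top (hlow ε₀ hε₀ le_rfl)
  refine ⟨L.toReal, ENNReal.toReal_pos hL0 hLt, ?_⟩
  have : Set.Ioc (0 : ℝ) ε₀ ∈ 𝓝[>] (0 : ℝ) := Ioc_mem_nhdsGT hε₀
  filter_upwards [this] with ε hε
  have h1 := hlow ε hε.1 hε.2
  have h2 : 0 ≤ ∫ t in (1 : ℝ)..2, Dm k a 1 (ε * t) / t ^ 2 := by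
    refine intervalIntegral.integral_nonneg (by norm_num) fun t ht => ?_
    have ht0 : 0 < t := by linarith [ht.1]
    have := sel_K16_Dm_pos H (y := ε * t) (mul_pos hε.1 ht0)
    positivity
  have h3 := ENNReal.toReal_mono ENNReal.ofReal_ne_top h1
  rwa [ENNReal.toReal_ofReal h2] at h3

/-- block K16: positivity of the residue -/
theorem D0_pos_pr {k : ℕ} {a : ℕ → ℝ} (H : HData k a) : 0 < D0 k a 1 1 1 := by
  obtain ⟨c, hc, hlow⟩ := sel_K16_low H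
  obtain ⟨C, E, hC, hE, hnear⟩ := KK_near H
  by_contra hcon
  push Not at hcon
  have hup : ∀ ε : ℝ, 0 < ε → ε ≤ 1 / 2 →
      ∫ t in (1 : ℝ)..2, Dm k a 1 (ε * t) / t ^ 2 ≤ C * (2 * ε) ^ (1 / 10 : ℝ) := by
    intro ε hε hε2
    have h1 : ∀ t ∈ Set.Icc (1 : ℝ) 2, Dm k a 1 (ε * t) / t ^ 2 ≤ C * (2 * ε) ^ (1 / 10 : ℝ) := by
      intro t ht
      have ht0 : 0 < t := by linarith [ht.1]
      have hY : 0 < ε * t := mul_pos hε ht0
      have hY1 : ε * t ≤ 1 := by nlinarith [ht.2]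
      have h2 := hnear 1 1 1 (ε * t) one_pos one_pos one_pos hY hY1
      rw [sel_K16_KK k a hY] at h2
      simp only [Nat.cast_one, mul_one, Real.one_rpow] at h2
      have h3 := (abs_le.mp h2).2
      have h4 : Dm k a 1 (ε * t) ≤ C * (ε * t) ^ (1 / 10 : ℝ) := by linarith
      have h5 : (ε * t) ^ (1 / 10 : ℝ) ≤ (2 * ε) ^ (1 / 10 : ℝ) := by
        refine Real.rpow_le_rpow hY.le ?_ (by norm_num)
        nlinarith [ht.2]
      have h6 : Dm k a 1 (ε * t) ≤ C * (2 * ε) ^ (1 / 10 : ℝ) :=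
        h4.trans (mul_le_mul_of_nonneg_left h5 hC.le)
      rw [div_le_iff₀ (by positivity)]
      have h7 : 0 ≤ C * (2 * ε) ^ (1 / 10 : ℝ) := by positivity
      have h8 : 1 ≤ t ^ 2 := by nlinarith [ht.1]
      nlinarith
    have h2 : ∫ t in (1 : ℝ)..2, Dm k a 1 (ε * t) / t ^ 2 ≤
        ∫ t in (1 : ℝ)..2, C * (2 * ε) ^ (1 / 10 : ℝ) :=
      intervalIntegral.integral_mono_on (by norm_num) (rsf_intervalIntegrable H 1 hε)
        (by simp) h1
    refine h2.trans ?_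
    simp
    norm_num
  have hlim : Tendsto (fun ε : ℝ => C * (2 * ε) ^ (1 / 10 : ℝ)) (𝓝[>] 0) (𝓝 0) := by
    have h4 : ContinuousAt (fun ε : ℝ => C * (2 * ε) ^ (1 / 10 : ℝ)) 0 := by
      refine ContinuousAt.mul continuousAt_const ?_
      refine ContinuousAt.rpow_const (by fun_prop) (Or.inr (by norm_num))
    have h5 := h4.tendsto
    rw [mul_zero, Real.zero_rpow (by norm_num), mul_zero] at h5
    exact h5.mono_left nhdsWithin_le_nhds
  have h6 : ∀ᶠ ε : ℝ in 𝓝[>] 0, C * (2 * ε) ^ (1 / 10 : ℝ) < c := hlim.eventually (gt_mem_nhds hc)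
  have h7 : ∀ᶠ ε : ℝ in 𝓝[>] 0, ε ∈ Set.Ioc (0 : ℝ) (1 / 2) := Ioc_mem_nhdsGT (by norm_num)
  obtain ⟨ε, hε1, hε2, hε3⟩ := (hlow.and (h6.and h7)).exists
  have := hup ε hε3.1 hε3.2
  linarith

theorem D0_pos : type_of% @D0_pos_pr := @D0_pos_pr

end Pool.Agent.SEL
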