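import Pool.Agent.Lib_helper68.SEL.Defs
import Pool.Agent.Lib_helper68.SEL.Z1
import Pool.Agent.Lib_helper68.SEL.Z2
import Pool.Agent.Lib_helper68.SEL.Z5

/-! SEL block Z7 -/

namespace Pool.Agent.SEL

open Complex MeasureTheory Filter Topology Pool.Agent.GL2

/-- the logarithm of `|1 + z|` -/
theorem sel_z7_log {z : ℂ} {b δ : ℝ} (hz : ‖z‖ ≤ b) (hb : b ≤ δ) (hδ : δ < 1) :
    |Real.log ‖1 + z‖ - z.re| ≤ b ^ 2 / (1 - δ) := by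
  have hz1 : ‖z‖ < 1 := by linarith
  have h1 := Complex.norm_log_one_add_sub_self_le hz1
  have h2 : Real.log ‖1 + z‖ - z.re = (Complex.log (1 + z) - z).re := by
    rw [Complex.sub_re, Complex.log_re]
  rw [h2]
  refine (Complex.abs_re_le_norm _).trans (h1.trans ?_)
  have h3 : (0 : ℝ) < 1 - δ := by linarith
  have h4 : (0 : ℝ) < 1 - ‖z‖ := by linarith
  have h5 : (1 - ‖z‖)⁻¹ ≤ (1 - δ)⁻¹ := inv_anti₀ h3 (by linarith)
  have h6 : ‖z‖ ^ 2 ≤ b ^ 2 := pow_le_pow_left₀ (norm_nonneg _) hz 2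
  calc ‖z‖ ^ 2 * (1 - ‖z‖)⁻¹ / 2 ≤ b ^ 2 * (1 - δ)⁻¹ / 2 := by gcongr
    _ ≤ b ^ 2 * (1 - δ)⁻¹ := by
        have : 0 ≤ b ^ 2 * (1 - δ)⁻¹ := by positivity
        linarith
    _ = b ^ 2 / (1 - δ) := by rw [div_eq_mul_inv]

/-- the local factor -/
theorem sel_z7_local (x : ℝ) (t : ℂ) {δ : ℝ} (hδ : δ < 1) (ht : ‖t‖ * ‖rt x‖ ^ 2 ≤ δ) :
    ∃ e : ℝ, |e| ≤ 4 * ((‖t‖ * ‖rt x‖ ^ 2) ^ 2 / (1 - δ)) ∧
      ‖(1 + t) / ((1 - t) * (1 - (rt x) ^ 2 * t) * (1 - ((rt x)⁻¹) ^ 2 * t))‖ =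
        Real.exp (x ^ 2 * t.re + e) := by
  obtain ⟨hr0, hr1, -, -⟩ := rt_spec x
  have hrn : rt x ≠ 0 := by
    intro h
    rw [h, norm_zero] at hr1
    linarith
  set r : ℂ := rt x with hr
  set b : ℝ := ‖t‖ * ‖r‖ ^ 2 with hb
  have hr2 : 1 ≤ ‖r‖ ^ 2 := one_le_pow₀ hr1
  have ht0 := norm_nonneg t
  have b1 : ‖t‖ ≤ b := by nlinarith
  have b2 : ‖-t‖ ≤ b := by rw [norm_neg]; exact b1
  have b3 : ‖-(r ^ 2 * t)‖ ≤ b := by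
    rw [norm_neg, norm_mul, norm_pow, hb, mul_comm]
  have b4 : ‖-((r⁻¹) ^ 2 * t)‖ ≤ b := by
    rw [norm_neg, norm_mul, norm_pow, norm_inv]
    have : (‖r‖⁻¹) ^ 2 ≤ 1 := pow_le_one₀ (by positivity) (inv_le_one_of_one_le₀ hr1)
    nlinarith
  have c1 := sel_z7_log b1 ht hδ
  have c2 := sel_z7_log b2 ht hδ
  have c3 := sel_z7_log b3 ht hδ
  have c4 := sel_z7_log b4 ht hδ
  have nz : ∀ z : ℂ, ‖z‖ ≤ b → 0 < ‖1 + z‖ := by
    intro z hz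
    rw [norm_pos_iff]
    intro h
    have : z = -1 := by linear_combination h
    rw [this, norm_neg, norm_one] at hz
    linarith
  have n1 := nz _ b1
  have n2 := nz _ b2
  have n3 := nz _ b3
  have n4 := nz _ b4
  have hre : x ^ 2 * t.re = t.re - (-t).re - (-(r ^ 2 * t)).re - (-((r⁻¹) ^ 2 * t)).re := by
    have h1 : ((x : ℂ)) ^ 2 * t = t + t + r ^ 2 * t + (r⁻¹) ^ 2 * t := by
      rw [← hr0]
      have h2 : r * r⁻¹ = 1 := mul_inv_cancel₀ hrn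
      linear_combination 2 * t * h2
    have h3 := congrArg Complex.re h1
    have h4 : (((x : ℂ)) ^ 2 * t).re = x ^ 2 * t.re := by
      rw [← Complex.ofReal_pow, Complex.re_ofReal_mul]
    rw [h4] at h3
    rw [h3]
    simp only [Complex.add_re, Complex.neg_re]
    ring
  refine ⟨(Real.log ‖1 + t‖ - t.re) - (Real.log ‖1 + -t‖ - (-t).re) -
    (Real.log ‖1 + -(r ^ 2 * t)‖ - (-(r ^ 2 * t)).re) -
    (Real.log ‖1 + -((r⁻¹) ^ 2 * t)‖ - (-((r⁻¹) ^ 2 * t)).re), ?_, ?_⟩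
  · rw [abs_le] at c1 c2 c3 c4 ⊢
    constructor <;> linarith [c1.1, c1.2, c2.1, c2.2, c3.1, c3.2, c4.1, c4.2]
  · have h5 : x ^ 2 * t.re + ((Real.log ‖1 + t‖ - t.re) - (Real.log ‖1 + -t‖ - (-t).re) -
        (Real.log ‖1 + -(r ^ 2 * t)‖ - (-(r ^ 2 * t)).re) -
        (Real.log ‖1 + -((r⁻¹) ^ 2 * t)‖ - (-((r⁻¹) ^ 2 * t)).re)) =
        Real.log ‖1 + t‖ - Real.log ‖1 + -t‖ - Real.log ‖1 + -(r ^ 2 * t)‖ -
        Real.log ‖1 + -((r⁻¹) ^ 2 * t)‖ := by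
      rw [hre]; ring
    rw [h5, Real.exp_sub, Real.exp_sub, Real.exp_sub, Real.exp_log n1, Real.exp_log n2,
      Real.exp_log n3, Real.exp_log n4]
    rw [norm_div, norm_mul, norm_mul, sub_eq_add_neg, sub_eq_add_neg, sub_eq_add_neg,
      div_div, div_div, mul_assoc]

theorem sel_z7_t {k : ℕ} {a : ℕ → ℝ} (H : HData k a) {p : ℕ} (hp : p.Prime) {w : ℂ} (hw : 1 < w.re) :
    ‖(p : ℂ) ^ (-w)‖ * ‖rt (lam k a p)‖ ^ 2 ≤ (2 : ℝ) ^ (-(1 / 100) : ℝ) ∧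
      ‖(p : ℂ) ^ (-w)‖ ≤ (p : ℝ) ^ (-1 : ℝ) := by
  have hp0 : (0 : ℝ) < p := by exact_mod_cast hp.pos
  have hp1 : (1 : ℝ) ≤ p := by exact_mod_cast hp.one_lt.le
  have hp2 : (2 : ℝ) ≤ p := by exact_mod_cast hp.two_le
  have h1 : ‖(p : ℂ) ^ (-w)‖ = (p : ℝ) ^ (-w.re) := by
    rw [Complex.norm_natCast_cpow_of_pos hp.pos, Complex.neg_re]
  have h2 : ‖(p : ℂ) ^ (-w)‖ ≤ (p : ℝ) ^ (-1 : ℝ) := by
    rw [h1]
    exact Real.rpow_le_rpow_of_exponent_le hp1 (by linarith)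
  refine ⟨?_, h2⟩
  have h3 := rt_bound H hp
  have h4 : ‖rt (lam k a p)‖ ^ 2 ≤ (p : ℝ) ^ (1 - 1 / 100 : ℝ) := by
    have h5 := pow_le_pow_left₀ (norm_nonneg _) h3 2
    rw [← Real.rpow_natCast ((p : ℝ) ^ (1 / 2 - 1 / 200 : ℝ)) 2, ← Real.rpow_mul hp0.le] at h5
    norm_num at h5 ⊢
    exact h5
  calc ‖(p : ℂ) ^ (-w)‖ * ‖rt (lam k a p)‖ ^ 2 ≤ (p : ℝ) ^ (-1 : ℝ) * (p : ℝ) ^ (1 - 1 / 100 : ℝ) := by
        gcongr
    _ = (p : ℝ) ^ (-(1 / 100) : ℝ) := by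
        rw [← Real.rpow_add hp0]; norm_num
    _ ≤ (2 : ℝ) ^ (-(1 / 100) : ℝ) :=
        Real.rpow_le_rpow_of_nonpos (by norm_num) hp2 (by norm_num)

theorem sel_z7_prod {k : ℕ} {a : ℕ → ℝ} (H : HData k a) {w : ℂ} (hw : 1 < w.re) :
    HasProd (fun p : Nat.Primes => ∑' e : ℕ, ((lam k a (p ^ e) : ℂ)) ^ 2 * (((p : ℕ) ^ e : ℕ) : ℂ) ^ (-w))
      (Zf k a w) := by
  have h0 : lam k a 0 = 0 := by rw [lam, H.zero, zero_mul]
  have h1 : lam k a 1 = 1 := by rw [lam, H.one]; simp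
  have := EulerProduct.eulerProduct_hasProd (R := ℂ)
    (f := fun n : ℕ => ((lam k a n : ℂ)) ^ 2 * (n : ℂ) ^ (-w)) (by simp [h1])
    (fun {m n} hmn => by
      rw [lam_mul H hmn, Nat.cast_mul, Complex.natCast_mul_natCast_cpow, ofReal_mul]
      ring)
    (by
      refine (lam_sq_summable H hw).congr fun n => ?_
      rcases Nat.eq_zero_or_pos n with h | h
      · subst h; simp [h0]
      · rw [norm_mul, norm_pow, Complex.norm_real, Real.norm_eq_abs, sq_abs,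
          Complex.norm_natCast_cpow_of_pos h, Complex.neg_re])
    (by simp [h0])
  exact this

theorem sel_z7_loc {k : ℕ} {a : ℕ → ℝ} (H : HData k a) {p : ℕ} (hp : p.Prime) {w : ℂ} (hw : 1 < w.re) :
    ∑' e : ℕ, ((lam k a (p ^ e) : ℂ)) ^ 2 * ((p ^ e : ℕ) : ℂ) ^ (-w) =
      (1 + (p : ℂ) ^ (-w)) / ((1 - (p : ℂ) ^ (-w)) * (1 - (rt (lam k a p)) ^ 2 * (p : ℂ) ^ (-w)) *
        (1 - ((rt (lam k a p))⁻¹) ^ 2 * (p : ℂ) ^ (-w))) := by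
  have hδ : (2 : ℝ) ^ (-(1 / 100) : ℝ) < 1 :=
    Real.rpow_lt_one_of_one_lt_of_neg (by norm_num) (by norm_num)
  have h1 := Uc_sq_hasSum (lam k a p) ((p : ℂ) ^ (-w)) (lt_of_le_of_lt (sel_z7_t H hp hw).1 hδ)
  rw [← h1.tsum_eq]
  refine tsum_congr fun e => ?_
  rw [lam_pow H hp e]
  congr 1
  rw [Nat.cast_pow, ← Complex.natCast_cpow_natCast_mul]
  rw [← Complex.cpow_nat_mul]

theorem Zf_euler_pr {k : ℕ} {a : ℕ → ℝ} (H : HData k a) : ∃ C : ℝ, 0 < C ∧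
    ∀ w : ℂ, 1 < w.re → Real.exp (Sc k a w - C) ≤ ‖Zf k a w‖ ∧
      ‖Zf k a w‖ ≤ Real.exp (Sc k a w + C) := by
  set δ : ℝ := (2 : ℝ) ^ (-(1 / 100) : ℝ) with hδd
  have hδ : δ < 1 := Real.rpow_lt_one_of_one_lt_of_neg (by norm_num) (by norm_num)
  have hδ' : 0 < 1 - δ := by linarith
  set B : Nat.Primes → ℝ := fun p => 4 / (1 - δ) * (‖rt (lam k a p)‖ ^ 4 * ((p : ℕ) : ℝ) ^ (-2 : ℝ) *
      (1 + Real.log (p : ℕ)) ^ 2) with hB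
  have sB : Summable B := (rt_summable H).mul_left _
  have hB0 : ∀ p, 0 ≤ B p := fun p => by positivity
  have hT : 0 ≤ ∑' p, B p := tsum_nonneg hB0
  refine ⟨(∑' p, B p) + 1, by linarith, fun w hw => ?_⟩
  have key : ∀ p : Nat.Primes, ∃ e : ℝ, |e| ≤ B p ∧
      ‖∑' e : ℕ, ((lam k a (p ^ e) : ℂ)) ^ 2 * (((p : ℕ) ^ e : ℕ) : ℂ) ^ (-w)‖ =
        Real.exp ((lam k a p) ^ 2 * (((p : ℕ) : ℂ) ^ (-w)).re + e) := by
    intro p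
    have hp := p.2
    have hp0 : (0 : ℝ) < ((p : ℕ) : ℝ) := by exact_mod_cast hp.pos
    have hp1 : (1 : ℝ) ≤ ((p : ℕ) : ℝ) := by exact_mod_cast hp.one_lt.le
    obtain ⟨ht1, ht2⟩ := sel_z7_t H hp hw
    obtain ⟨e, he1, he2⟩ := sel_z7_local (lam k a p) (((p : ℕ) : ℂ) ^ (-w)) hδ ht1
    refine ⟨e, he1.trans ?_, ?_⟩
    · rw [hB]
      simp only []
      have h1 : (‖((p : ℕ) : ℂ) ^ (-w)‖ * ‖rt (lam k a p)‖ ^ 2) ^ 2 ≤
          ‖rt (lam k a p)‖ ^ 4 * ((p : ℕ) : ℝ) ^ (-2 : ℝ) := by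
        have h2 : ‖((p : ℕ) : ℂ) ^ (-w)‖ ^ 2 ≤ ((p : ℕ) : ℝ) ^ (-2 : ℝ) := by
          have h3 := pow_le_pow_left₀ (norm_nonneg _) ht2 2
          rw [← Real.rpow_natCast (((p : ℕ) : ℝ) ^ (-1 : ℝ)) 2, ← Real.rpow_mul hp0.le] at h3
          norm_num at h3 ⊢
          exact h3
        calc (‖((p : ℕ) : ℂ) ^ (-w)‖ * ‖rt (lam k a p)‖ ^ 2) ^ 2
            = ‖rt (lam k a p)‖ ^ 4 * ‖((p : ℕ) : ℂ) ^ (-w)‖ ^ 2 := by ring
          _ ≤ _ := mul_le_mul_of_nonneg_left h2 (by positivity)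
      have h4 : (1 : ℝ) ≤ (1 + Real.log (p : ℕ)) ^ 2 := by
        have := Real.log_nonneg hp1
        nlinarith
      have h5 : 0 ≤ ‖rt (lam k a p)‖ ^ 4 * ((p : ℕ) : ℝ) ^ (-2 : ℝ) := by positivity
      calc 4 * ((‖((p : ℕ) : ℂ) ^ (-w)‖ * ‖rt (lam k a p)‖ ^ 2) ^ 2 / (1 - δ))
          ≤ 4 * ((‖rt (lam k a p)‖ ^ 4 * ((p : ℕ) : ℝ) ^ (-2 : ℝ)) / (1 - δ)) := by gcongr
        _ = 4 / (1 - δ) * (‖rt (lam k a p)‖ ^ 4 * ((p : ℕ) : ℝ) ^ (-2 : ℝ) * 1) := by ring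
        _ ≤ _ := by gcongr
    · rw [sel_z7_loc H hp hw, he2]
  choose e he1 he2 using key
  have s1 : Summable fun p : Nat.Primes => (lam k a p) ^ 2 * (((p : ℕ) : ℂ) ^ (-w)).re := by
    refine Summable.of_norm_bounded (lam_sq_summable_prime H hw) fun p => ?_
    rw [norm_mul, Real.norm_eq_abs, Real.norm_eq_abs, abs_of_nonneg (sq_nonneg (lam k a p))]
    refine mul_le_mul_of_nonneg_left ?_ (sq_nonneg _)
    refine (Complex.abs_re_le_norm _).trans (le_of_eq ?_)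
    rw [Complex.norm_natCast_cpow_of_pos p.2.pos, Complex.neg_re]
  have s2 : Summable e := Summable.of_norm_bounded sB fun p => by
    rw [Real.norm_eq_abs]; exact he1 p
  have h1 := (sel_z7_prod H hw).norm
  have h2 : HasProd (Real.exp ∘ fun p : Nat.Primes =>
      (lam k a p) ^ 2 * (((p : ℕ) : ℂ) ^ (-w)).re + e p) (Real.exp (Sc k a w + ∑' p, e p)) :=
    (s1.hasSum.add s2.hasSum).rexp
  have h3 : ‖Zf k a w‖ = Real.exp (Sc k a w + ∑' p, e p) := by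
    refine h1.unique ?_
    convert h2 using 1
    funext p
    exact he2 p
  have h4 : |∑' p, e p| ≤ ∑' p, B p := by
    have := tsum_of_norm_bounded (f := e) (g := B) sB.hasSum fun p => by
      rw [Real.norm_eq_abs]; exact he1 p
    rwa [Real.norm_eq_abs] at this
  rw [abs_le] at h4
  rw [h3]
  exact ⟨Real.exp_le_exp.2 (by linarith [h4.1]), Real.exp_le_exp.2 (by linarith [h4.2])⟩

theorem Zf_euler : type_of% @Zf_euler_pr := @Zf_euler_pr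

end Pool.Agent.SEL
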