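import Pool.Agent.Lib_helper68.SEL.Defs
import Pool.Agent.Lib_helper68.SEL.Z1
import Pool.Agent.Lib_helper68.SEL.Z10A
import Pool.Agent.Lib_helper68.SEL.Z2
import Pool.Agent.Lib_helper68.SEL.Z3
import Pool.Agent.Lib_helper68.SEL.Z4
import Pool.Agent.Lib_helper68.SEL.Z5
import Pool.Agent.Lib_helper68.SEL.Z8

/-! SEL block Z10B -/

namespace Pool.Agent.SEL

open Complex MeasureTheory Filter Topology Pool.Agent.GL2

/-- `2^{-1/100}` -/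
noncomputable def sel_z10b_d : ℝ := (2 : ℝ) ^ (-(1 / 100) : ℝ)

theorem sel_z10b_d_lt : sel_z10b_d < 1 :=
  Real.rpow_lt_one_of_one_lt_of_neg (by norm_num) (by norm_num)

theorem sel_z10b_d_pos : 0 < sel_z10b_d := Real.rpow_pos_of_pos (by norm_num) _

noncomputable def sel_z10b_K : ℝ := ∑' j : ℕ, ((j : ℝ) + 3) ^ 14 * sel_z10b_d ^ j

theorem sel_z10b_Ks : Summable fun j : ℕ => ((j : ℝ) + 3) ^ 14 * sel_z10b_d ^ j := by
  have h := summable_pow_mul_geometric_of_norm_lt_one 14 (r := sel_z10b_d)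
    (by rw [Real.norm_eq_abs, abs_of_pos sel_z10b_d_pos]; exact sel_z10b_d_lt)
  have h2 := ((summable_nat_add_iff 3).2 h).mul_left (sel_z10b_d ^ 3)⁻¹
  refine h2.congr fun j => ?_
  have h3 := sel_z10b_d_pos.ne'
  push_cast
  rw [pow_add]
  field_simp

theorem sel_z10b_K_nonneg : 0 ≤ sel_z10b_K :=
  tsum_nonneg fun j => mul_nonneg (by positivity) (pow_nonneg sel_z10b_d_pos.le _)

theorem sel_z10b_tail (g : ℕ → ℂ) (ρ D t : ℝ) (hρ : 0 ≤ ρ) (hD : 0 ≤ D) (ht : 0 ≤ t)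
    (hd : ρ ^ 2 * t ≤ sel_z10b_d)
    (hg : ∀ i : ℕ, 2 ≤ i → ‖g i‖ ≤ (i + 1) ^ 7 * ρ ^ i * D) (I : ℕ) :
    ∑ i ∈ Finset.Ico 2 I, ‖g i‖ ^ 2 * t ^ i ≤ sel_z10b_K * D ^ 2 * (ρ ^ 2 * t) ^ 2 := by
  rw [Finset.sum_Ico_eq_sum_range]
  have h1 : ∀ j ∈ Finset.range (I - 2), ‖g (2 + j)‖ ^ 2 * t ^ (2 + j) ≤
      (D ^ 2 * (ρ ^ 2 * t) ^ 2) * (((j : ℝ) + 3) ^ 14 * sel_z10b_d ^ j) := by
    intro j _
    have h2 := hg (2 + j) (by omega)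
    have h3 : ‖g (2 + j)‖ ^ 2 ≤ ((((2 + j : ℕ) : ℝ) + 1) ^ 7 * ρ ^ (2 + j) * D) ^ 2 :=
      pow_le_pow_left₀ (norm_nonneg _) h2 2
    have h4 : (ρ ^ 2 * t) ^ j ≤ sel_z10b_d ^ j := pow_le_pow_left₀ (by positivity) hd j
    calc ‖g (2 + j)‖ ^ 2 * t ^ (2 + j)
        ≤ ((((2 + j : ℕ) : ℝ) + 1) ^ 7 * ρ ^ (2 + j) * D) ^ 2 * t ^ (2 + j) :=
          mul_le_mul_of_nonneg_right h3 (by positivity)
      _ = (D ^ 2 * (ρ ^ 2 * t) ^ 2) * (((j : ℝ) + 3) ^ 14 * (ρ ^ 2 * t) ^ j) := by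
          push_cast
          ring
      _ ≤ _ := by gcongr
  refine (Finset.sum_le_sum h1).trans ?_
  rw [← Finset.mul_sum]
  have h5 : ∑ j ∈ Finset.range (I - 2), (((j : ℝ) + 3) ^ 14 * sel_z10b_d ^ j) ≤ sel_z10b_K :=
    sel_z10b_Ks.sum_le_tsum _ fun j _ => mul_nonneg (by positivity) (pow_nonneg sel_z10b_d_pos.le _)
  calc (D ^ 2 * (ρ ^ 2 * t) ^ 2) * ∑ j ∈ Finset.range (I - 2), (((j : ℝ) + 3) ^ 14 * sel_z10b_d ^ j)
      ≤ (D ^ 2 * (ρ ^ 2 * t) ^ 2) * sel_z10b_K := mul_le_mul_of_nonneg_left h5 (by positivity)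
    _ = _ := by ring

theorem sel_z10b_loc {k : ℕ} {a : ℕ → ℝ} (H : HData k a) {p : ℕ} (hp : p.Prime) {σ : ℝ}
    (hσ : 0 < σ) (g : ℕ → ℂ) (D A : ℝ) (hD : 0 ≤ D) (hA : ‖g 1‖ ^ 2 ≤ A)
    (hg : ∀ i : ℕ, 2 ≤ i → ‖g i‖ ≤ (i + 1) ^ 7 * ‖rt (lam k a p)‖ ^ i * D) (I : ℕ) :
    ∑ i ∈ Finset.Ico 1 I, ‖g i‖ ^ 2 * ((p ^ i : ℕ) : ℝ) ^ (-(1 + σ)) ≤
      A * (p : ℝ) ^ (-1 - σ) +
        sel_z10b_K * D ^ 2 * (‖rt (lam k a p)‖ ^ 4 * (p : ℝ) ^ (-2 : ℝ)) := by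
  have hp0 : (0 : ℝ) < p := by exact_mod_cast hp.pos
  have hp1 : (1 : ℝ) ≤ p := by exact_mod_cast hp.one_lt.le
  have hp2 : (2 : ℝ) ≤ p := by exact_mod_cast hp.two_le
  set ρ : ℝ := ‖rt (lam k a p)‖ with hρ
  set t : ℝ := (p : ℝ) ^ (-(1 + σ)) with ht
  have ht0 : 0 ≤ t := Real.rpow_nonneg hp0.le _
  have hA0 : 0 ≤ A := (sq_nonneg _).trans hA
  have hK := sel_z10b_K_nonneg
  have e1 : ∀ i : ℕ, ((p ^ i : ℕ) : ℝ) ^ (-(1 + σ)) = t ^ i := by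
    intro i
    rw [ht, ← Real.rpow_natCast, ← Real.rpow_mul hp0.le, Nat.cast_pow, ← Real.rpow_natCast,
      ← Real.rpow_mul hp0.le]
    congr 1
    ring
  have e2 : (p : ℝ) ^ (-1 - σ) = t := by
    rw [ht]; congr 1; ring
  have ht1 : t ≤ (p : ℝ) ^ (-1 : ℝ) := by
    rw [ht]
    exact Real.rpow_le_rpow_of_exponent_le hp1 (by linarith)
  have hρ2 : ρ ^ 2 ≤ (p : ℝ) ^ (1 - 1 / 100 : ℝ) := by
    have h5 := pow_le_pow_left₀ (norm_nonneg _) (rt_bound H hp) 2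
    rw [← Real.rpow_natCast ((p : ℝ) ^ (1 / 2 - 1 / 200 : ℝ)) 2, ← Real.rpow_mul hp0.le] at h5
    norm_num at h5 ⊢
    exact h5
  have hd : ρ ^ 2 * t ≤ sel_z10b_d := by
    calc ρ ^ 2 * t ≤ (p : ℝ) ^ (1 - 1 / 100 : ℝ) * (p : ℝ) ^ (-1 : ℝ) := by gcongr
      _ = (p : ℝ) ^ (-(1 / 100) : ℝ) := by
          rw [← Real.rpow_add hp0]; norm_num
      _ ≤ sel_z10b_d := Real.rpow_le_rpow_of_nonpos (by norm_num) hp2 (by norm_num)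
  have h1 := sel_z10b_tail g ρ D t (norm_nonneg _) hD ht0 hd hg I
  have h2 : (ρ ^ 2 * t) ^ 2 ≤ ρ ^ 4 * (p : ℝ) ^ (-2 : ℝ) := by
    have h3 : t ^ 2 ≤ (p : ℝ) ^ (-2 : ℝ) := by
      have h4 := pow_le_pow_left₀ ht0 ht1 2
      rw [← Real.rpow_natCast ((p : ℝ) ^ (-1 : ℝ)) 2, ← Real.rpow_mul hp0.le] at h4
      norm_num at h4 ⊢
      exact h4
    calc (ρ ^ 2 * t) ^ 2 = ρ ^ 4 * t ^ 2 := by ring
      _ ≤ _ := mul_le_mul_of_nonneg_left h3 (by positivity)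
  have h3 : sel_z10b_K * D ^ 2 * (ρ ^ 2 * t) ^ 2 ≤
      sel_z10b_K * D ^ 2 * (ρ ^ 4 * (p : ℝ) ^ (-2 : ℝ)) :=
    mul_le_mul_of_nonneg_left h2 (by positivity)
  rw [e2]
  simp only [e1]
  rcases Nat.lt_or_ge 1 I with hI | hI
  · rw [Finset.sum_eq_sum_Ico_succ_bot hI]
    rw [pow_one]
    have h4 : ‖g 1‖ ^ 2 * t ≤ A * t := mul_le_mul_of_nonneg_right hA ht0
    have h5 : ∑ i ∈ Finset.Ico (1 + 1) I, ‖g i‖ ^ 2 * t ^ i ≤
      sel_z10b_K * D ^ 2 * (ρ ^ 4 * (p : ℝ) ^ (-2 : ℝ)) := h1.trans h3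
    linarith
  · rw [Finset.Ico_eq_empty (by omega), Finset.sum_empty]
    positivity

theorem sel_z10b_primes (f : ℕ → ℝ) (hf : ∀ p : ℕ, p.Prime → 0 ≤ f p)
    (hs : Summable fun p : Nat.Primes => f p) (X : ℕ) :
    ∑ p ∈ (Finset.range X).filter Nat.Prime, f p ≤ ∑' p : Nat.Primes, f p := by
  have h1 : ∑ p ∈ ((Finset.range X).subtype Nat.Prime : Finset {p : ℕ // p.Prime}), f p ≤
      ∑' p : {p : ℕ // p.Prime}, f p :=
    Summable.sum_le_tsum (f := fun p : {p : ℕ // p.Prime} => f p) _ (fun p _ => hf p p.2) hs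
  rw [Finset.sum_subtype_eq_sum_filter] at h1
  exact h1

theorem sel_z10b_half (z₁ z₂ : ℂ) :
    ‖1 - (z₁ + z₂) / 2‖ ^ 2 ≤ (‖1 - z₁‖ ^ 2 + ‖1 - z₂‖ ^ 2) / 2 := by
  have h1 : 1 - (z₁ + z₂) / 2 = ((1 - z₁) + (1 - z₂)) / 2 := by ring
  have h2 : ‖1 - (z₁ + z₂) / 2‖ ≤ (‖1 - z₁‖ + ‖1 - z₂‖) / 2 := by
    rw [h1, norm_div]
    have : ‖(2 : ℂ)‖ = 2 := by norm_num
    rw [this]
    have := norm_add_le (1 - z₁) (1 - z₂)
    linarith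
  have h3 := pow_le_pow_left₀ (norm_nonneg _) h2 2
  nlinarith [sq_nonneg (‖1 - z₁‖ - ‖1 - z₂‖)]

theorem sel_z10b_z {p : ℕ} (hp : p.Prime) {w : ℂ} (hw : 0 ≤ w.re) :
    ‖(p : ℂ) ^ (-w)‖ ≤ 1 ∧ ‖1 - (p : ℂ) ^ (-w)‖ ≤ 2 ∧
      ‖1 - (p : ℂ) ^ (-w)‖ ≤ ‖w‖ * Real.log p := by
  have hp0 : (0 : ℝ) < p := by exact_mod_cast hp.pos
  have hp1 : (1 : ℝ) ≤ p := by exact_mod_cast hp.one_lt.le
  have h1 : ‖(p : ℂ) ^ (-w)‖ ≤ 1 := by
    rw [Complex.norm_natCast_cpow_of_pos hp.pos, Complex.neg_re]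
    exact Real.rpow_le_one_of_one_le_of_nonpos hp1 (by linarith)
  refine ⟨h1, ?_, ?_⟩
  · refine (norm_sub_le _ _).trans ?_
    rw [norm_one]; linarith
  · have hpc : (p : ℂ) ≠ 0 := by exact_mod_cast hp.ne_zero
    have h2 : Convex ℝ {z : ℂ | z.re ≤ 0} := convex_halfSpace_re_le 0
    have h3 := h2.norm_image_sub_le_of_norm_hasDerivWithin_le (f := Complex.exp)
      (f' := Complex.exp) (C := 1) (x := 0) (y := -w * (Real.log p : ℂ))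
      (fun z _ => (Complex.hasDerivAt_exp z).hasDerivWithinAt)
      (fun z hz => by
        rw [Complex.norm_exp]
        exact Real.exp_le_one_iff.2 hz)
      (by simp)
      (by
        have h4 := Real.log_nonneg hp1
        show (-w * (Real.log p : ℂ)).re ≤ 0
        rw [Complex.re_mul_ofReal, Complex.neg_re]
        nlinarith)
    rw [Complex.exp_zero, sub_zero, one_mul, norm_mul, norm_neg, Complex.norm_real,
      Real.norm_eq_abs, abs_of_nonneg (Real.log_nonneg hp1)] at h3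
    have h5 : (p : ℂ) ^ (-w) = Complex.exp (-w * (Real.log p : ℂ)) := by
      rw [Complex.cpow_def_of_ne_zero hpc, Complex.natCast_log]
      congr 1
      ring
    rw [h5, norm_sub_rev]
    exact h3

theorem euler_one_pr {k : ℕ} {a : ℕ → ℝ} (H : HData k a) : ∃ C E : ℝ, 0 < C ∧ 0 < E ∧
    ∀ (q₀ q : ℕ) (σ : ℝ) (w₁ w₂ : ℂ) (X : ℕ), 0 < q → q₀ ∣ q → 0 < σ → σ ≤ 1 →
      0 ≤ w₁.re → w₁.re ≤ σ → 0 ≤ w₂.re → w₂.re ≤ σ →
      ∑ M ∈ Finset.Ico 1 X, ‖GW k a q₀ q w₁ w₂ M‖ ^ 2 * (M : ℝ) ^ (-1 - σ) ≤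
        C * ((1 + ‖w₁‖ / σ) * (1 + ‖w₂‖ / σ)) ^ E * Real.exp (Eq k a q₀ q) := by
  obtain ⟨CT, hCT, hT⟩ := Tp_exp H
  set r : ℕ → ℝ := fun p => ‖rt (lam k a p)‖ ^ 4 * (p : ℝ) ^ (-2 : ℝ) * (1 + Real.log p) ^ 2 with hr
  have sr : Summable fun p : Nat.Primes => r p := rt_summable H
  have hr0 : ∀ p : ℕ, 0 ≤ r p := fun p => by positivity
  set K0 : ℝ := ∑' p : Nat.Primes, r p with hK0
  have hK := sel_z10b_K_nonneg
  refine ⟨CT ^ 2 * Real.exp (16 * sel_z10b_K * K0), 4, by positivity, by norm_num, ?_⟩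
  intro q₀ q σ w₁ w₂ X hq hq₀ hσ hσ1 h1 h1' h2 h2'
  set T : ℂ → ℕ → ℝ := fun w p => (lam k a p) ^ 2 * (p : ℝ) ^ (-1 - σ) * ‖1 - (p : ℂ) ^ (-w)‖ ^ 2
    with hTd
  have sT1 : Summable fun p : Nat.Primes => T w₁ p := Tp_summable H hσ h1
  have sT2 : Summable fun p : Nat.Primes => T w₂ p := Tp_summable H hσ h2
  have hT0 : ∀ w (p : ℕ), 0 ≤ T w p := fun w p => by positivity
  set e : ℕ → ℝ := fun p => if p ∈ q.primeFactors \ q₀.primeFactors then (lam k a p) ^ 2 / p else 0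
    with he
  have he0 : ∀ p : ℕ, 0 ≤ e p := fun p => by
    rw [he]; simp only []
    split_ifs
    · positivity
    · exact le_rfl
  set c : ℕ → ℝ := fun p => T w₁ p / 2 + T w₂ p / 2 + 16 * sel_z10b_K * r p + e p with hc
  have hr1 : ∀ p : ℕ, p.Prime → ‖rt (lam k a p)‖ ^ 4 * (p : ℝ) ^ (-2 : ℝ) ≤ r p := by
    intro p hp
    rw [hr]; simp only []
    have hp1 : (1 : ℝ) ≤ p := by exact_mod_cast hp.one_lt.le
    have h4 : (1 : ℝ) ≤ (1 + Real.log (p : ℕ)) ^ 2 := by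
      have := Real.log_nonneg hp1
      nlinarith
    have h5 : 0 ≤ ‖rt (lam k a p)‖ ^ 4 * (p : ℝ) ^ (-2 : ℝ) := by positivity
    nlinarith
  have hcp : ∀ p : ℕ, p.Prime → 0 ≤ c p ∧
      ∀ I : ℕ, ∑ i ∈ Finset.Ico 1 I, ‖GW k a q₀ q w₁ w₂ (p ^ i)‖ ^ 2 *
        ((p ^ i : ℕ) : ℝ) ^ (-(1 + σ)) ≤ c p := by
    intro p hp
    have hp0 : (0 : ℝ) < p := by exact_mod_cast hp.pos
    have hp1 : (1 : ℝ) ≤ p := by exact_mod_cast hp.one_lt.le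
    have hT1 := hT0 w₁ p
    have hT2 := hT0 w₂ p
    have hrp := hr0 p
    have hep := he0 p
    have hrp1 := hr1 p hp
    refine ⟨by rw [hc]; positivity, fun I => ?_⟩
    obtain ⟨z1, z1', -⟩ := sel_z10b_z hp h1
    obtain ⟨z2, z2', -⟩ := sel_z10b_z hp h2
    by_cases hpq : p ∣ q
    · by_cases hpq₀ : p ∣ q₀
      · -- all terms vanish
        have e1 : ∑ i ∈ Finset.Ico 1 I, ‖GW k a q₀ q w₁ w₂ (p ^ i)‖ ^ 2 *
            ((p ^ i : ℕ) : ℝ) ^ (-(1 + σ)) = 0 := by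
          refine Finset.sum_eq_zero fun i hi => ?_
          rw [Finset.mem_Ico] at hi
          rw [GW_pow H hq₀ w₁ w₂ hp i, if_neg (by tauto), if_neg (by tauto), if_neg (by omega)]
          simp
        rw [e1, hc]; positivity
      · have hG : ∀ i, GW k a q₀ q w₁ w₂ (p ^ i) = (Uc (lam k a p) i : ℂ) := by
          intro i
          rw [GW_pow H hq₀ w₁ w₂ hp i, if_neg (by tauto), if_pos hpq₀]
        simp only [hG]
        have h3 := sel_z10b_loc H hp hσ (fun i => (Uc (lam k a p) i : ℂ)) 1 ((lam k a p) ^ 2)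
          zero_le_one (by
            show ‖((Uc (lam k a p) 1 : ℝ) : ℂ)‖ ^ 2 ≤ _
            rw [Complex.norm_real, Real.norm_eq_abs, sq_abs]
            exact le_rfl)
          (fun i hi => by
            show ‖((Uc (lam k a p) i : ℝ) : ℂ)‖ ≤ _
            rw [Complex.norm_real, Real.norm_eq_abs, mul_one]
            refine (Uc_le _ i).trans ?_
            have h6 : ((i : ℝ) + 1) ≤ ((i : ℝ) + 1) ^ 7 := by
              refine le_self_pow₀ ?_ (by norm_num)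
              have : (0 : ℝ) ≤ i := Nat.cast_nonneg i
              linarith
            gcongr) I
        refine h3.trans ?_
        have h4 : e p = (lam k a p) ^ 2 / p := by
          rw [he]; simp only []
          rw [if_pos]
          rw [Finset.mem_sdiff, Nat.mem_primeFactors, Nat.mem_primeFactors]
          exact ⟨⟨hp, hpq, hq.ne'⟩, fun h => hpq₀ h.2.1⟩
        have h5 : (lam k a p) ^ 2 * (p : ℝ) ^ (-1 - σ) ≤ e p := by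
          rw [h4, div_eq_mul_inv, ← Real.rpow_neg_one]
          refine mul_le_mul_of_nonneg_left ?_ (sq_nonneg _)
          exact Real.rpow_le_rpow_of_exponent_le hp1 (by linarith)
        have h6 : sel_z10b_K * 1 ^ 2 * (‖rt (lam k a p)‖ ^ 4 * (p : ℝ) ^ (-2 : ℝ)) ≤
            16 * sel_z10b_K * r p := by
          have : sel_z10b_K * (‖rt (lam k a p)‖ ^ 4 * (p : ℝ) ^ (-2 : ℝ)) ≤ sel_z10b_K * r p :=
            mul_le_mul_of_nonneg_left hrp1 hK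
          have h7 : 0 ≤ sel_z10b_K * r p := by positivity
          nlinarith
        rw [hc]; simp only []
        linarith
    · have hG : ∀ i, GW k a q₀ q w₁ w₂ (p ^ i) =
          gloc (lam k a p) ((p : ℂ) ^ (-w₁)) ((p : ℂ) ^ (-w₂)) i := by
        intro i
        rw [GW_pow H hq₀ w₁ w₂ hp i, if_pos hpq]
      simp only [hG]
      have h3 := sel_z10b_loc H hp hσ
        (fun i => gloc (lam k a p) ((p : ℂ) ^ (-w₁)) ((p : ℂ) ^ (-w₂)) i)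
        (‖1 - (p : ℂ) ^ (-w₁)‖ + ‖1 - (p : ℂ) ^ (-w₂)‖)
        ((lam k a p) ^ 2 * ((‖1 - (p : ℂ) ^ (-w₁)‖ ^ 2 + ‖1 - (p : ℂ) ^ (-w₂)‖ ^ 2) / 2))
        (by positivity) (by
          rw [gloc_one, norm_mul, Complex.norm_real, Real.norm_eq_abs, mul_pow, sq_abs]
          exact mul_le_mul_of_nonneg_left (sel_z10b_half _ _) (sq_nonneg _))
        (fun i hi => gloc_le' _ z1 z2 i (by omega)) I
      refine h3.trans ?_
      have h4 : (lam k a p) ^ 2 * ((‖1 - (p : ℂ) ^ (-w₁)‖ ^ 2 + ‖1 - (p : ℂ) ^ (-w₂)‖ ^ 2) / 2) *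
          (p : ℝ) ^ (-1 - σ) = T w₁ p / 2 + T w₂ p / 2 := by
        rw [hTd]; ring
      have h5 : (‖1 - (p : ℂ) ^ (-w₁)‖ + ‖1 - (p : ℂ) ^ (-w₂)‖) ^ 2 ≤ 16 := by
        have h6 : ‖1 - (p : ℂ) ^ (-w₁)‖ + ‖1 - (p : ℂ) ^ (-w₂)‖ ≤ 4 := by linarith
        have h7 := pow_le_pow_left₀ (by positivity) h6 2
        norm_num at h7 ⊢
        exact h7
      have h6 : sel_z10b_K * (‖1 - (p : ℂ) ^ (-w₁)‖ + ‖1 - (p : ℂ) ^ (-w₂)‖) ^ 2 *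
          (‖rt (lam k a p)‖ ^ 4 * (p : ℝ) ^ (-2 : ℝ)) ≤ 16 * sel_z10b_K * r p := by
        calc sel_z10b_K * (‖1 - (p : ℂ) ^ (-w₁)‖ + ‖1 - (p : ℂ) ^ (-w₂)‖) ^ 2 *
              (‖rt (lam k a p)‖ ^ 4 * (p : ℝ) ^ (-2 : ℝ)) ≤ sel_z10b_K * 16 * r p := by gcongr
          _ = _ := by ring
      rw [h4, hc]; simp only []
      linarith
  set S : ℝ := Tp k a σ w₁ / 2 + Tp k a σ w₂ / 2 + 16 * sel_z10b_K * K0 + Eq k a q₀ q with hS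
  have hSc : ∀ X : ℕ, ∑ p ∈ (Finset.range X).filter Nat.Prime, c p ≤ S := by
    intro X
    rw [hc]
    simp only [Finset.sum_add_distrib, ← Finset.mul_sum, ← Finset.sum_div]
    have t1 := sel_z10b_primes (T w₁) (fun p _ => hT0 w₁ p) sT1 X
    have t2 := sel_z10b_primes (T w₂) (fun p _ => hT0 w₂ p) sT2 X
    have t3 := sel_z10b_primes r (fun p _ => hr0 p) sr X
    have t4 : ∑ p ∈ (Finset.range X).filter Nat.Prime, e p ≤ Eq k a q₀ q := by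
      rw [he]
      simp only []
      rw [← Finset.sum_filter, Eq]
      refine Finset.sum_le_sum_of_subset_of_nonneg ?_ fun p _ _ => by positivity
      intro p hp
      rw [Finset.mem_filter] at hp
      exact hp.2
    have t1' : ∑ p ∈ (Finset.range X).filter Nat.Prime, T w₁ p ≤ Tp k a σ w₁ := t1
    have t2' : ∑ p ∈ (Finset.range X).filter Nat.Prime, T w₂ p ≤ Tp k a σ w₂ := t2
    have t3' : 16 * sel_z10b_K * ∑ p ∈ (Finset.range X).filter Nat.Prime, r p ≤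
        16 * sel_z10b_K * K0 := mul_le_mul_of_nonneg_left t3 (by positivity)
    rw [hS]
    linarith
  have hmain := (prod_bound (fun M => GW k a q₀ q w₁ w₂ M) (GW_one H hq₀ w₁ w₂)
    (fun m n hmn => GW_mul H hq₀ w₁ w₂ hmn) (1 + σ) c hcp S hSc X).1
  have e3 : ∀ M : ℕ, (M : ℝ) ^ (-1 - σ) = (M : ℝ) ^ (-(1 + σ)) := fun M => by
    congr 1; ring
  simp only [e3]
  refine hmain.trans ?_
  have hx1 : 0 ≤ Tp k a σ w₁ := tsum_nonneg fun p => hT0 w₁ p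
  have hx2 : 0 ≤ Tp k a σ w₂ := tsum_nonneg fun p => hT0 w₂ p
  have y1 := hT σ w₁ hσ hσ1 h1 h1'
  have y2 := hT σ w₂ hσ hσ1 h2 h2'
  have x1 : Real.exp (Tp k a σ w₁ / 2) ≤ CT * (1 + ‖w₁‖ / σ) ^ 4 :=
    (Real.exp_le_exp.2 (by linarith)).trans y1
  have x2 : Real.exp (Tp k a σ w₂ / 2) ≤ CT * (1 + ‖w₂‖ / σ) ^ 4 :=
    (Real.exp_le_exp.2 (by linarith)).trans y2
  rw [hS, Real.exp_add, Real.exp_add, Real.exp_add]
  have e4 : ((1 + ‖w₁‖ / σ) * (1 + ‖w₂‖ / σ)) ^ (4 : ℝ) =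
      (1 + ‖w₁‖ / σ) ^ 4 * (1 + ‖w₂‖ / σ) ^ 4 := by
    rw [← mul_pow, ← Real.rpow_natCast]
    norm_num
  rw [e4]
  have hz1 : 0 ≤ ‖w₁‖ / σ := by positivity
  have hz2 : 0 ≤ ‖w₂‖ / σ := by positivity
  calc Real.exp (Tp k a σ w₁ / 2) * Real.exp (Tp k a σ w₂ / 2) *
        Real.exp (16 * sel_z10b_K * K0) * Real.exp (Eq k a q₀ q)
      ≤ (CT * (1 + ‖w₁‖ / σ) ^ 4) * (CT * (1 + ‖w₂‖ / σ) ^ 4) *
        Real.exp (16 * sel_z10b_K * K0) * Real.exp (Eq k a q₀ q) := by gcongr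
    _ = _ := by ring

theorem euler_two_pr {k : ℕ} {a : ℕ → ℝ} (H : HData k a) : ∃ C E : ℝ, 0 < C ∧ 0 < E ∧
    ∀ (σ : ℝ) (w₁ w₂ : ℂ) (X : ℕ), 0 < σ → σ ≤ 1 →
      0 ≤ w₁.re → w₁.re ≤ σ → 0 ≤ w₂.re → w₂.re ≤ σ →
      ∑ M ∈ Finset.Ico 2 X, ‖GW k a 1 1 w₁ w₂ M‖ ^ 2 * (M : ℝ) ^ (-1 - σ) ≤
        C * ((1 + ‖w₁‖ / σ) * (1 + ‖w₂‖ / σ)) ^ E * ((‖w₁‖ + ‖w₂‖) / σ) ^ 2 := by
  obtain ⟨CT, hCT, hT⟩ := Tp_exp H
  obtain ⟨CS, hCS, hTS⟩ := Tp_sq H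
  set r : ℕ → ℝ := fun p => ‖rt (lam k a p)‖ ^ 4 * (p : ℝ) ^ (-2 : ℝ) * (1 + Real.log p) ^ 2 with hr
  have sr : Summable fun p : Nat.Primes => r p := rt_summable H
  have hr0 : ∀ p : ℕ, 0 ≤ r p := fun p => by positivity
  set K0 : ℝ := ∑' p : Nat.Primes, r p with hK0
  have hK0' : 0 ≤ K0 := tsum_nonneg fun p => hr0 p
  have hK := sel_z10b_K_nonneg
  refine ⟨(CS + sel_z10b_K * K0) * (CT ^ 2 * Real.exp (16 * sel_z10b_K * K0)), 4,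
    by positivity, by norm_num, ?_⟩
  intro σ w₁ w₂ X hσ hσ1 h1 h1' h2 h2'
  set T : ℂ → ℕ → ℝ := fun w p => (lam k a p) ^ 2 * (p : ℝ) ^ (-1 - σ) * ‖1 - (p : ℂ) ^ (-w)‖ ^ 2
    with hTd
  have sT1 : Summable fun p : Nat.Primes => T w₁ p := Tp_summable H hσ h1
  have sT2 : Summable fun p : Nat.Primes => T w₂ p := Tp_summable H hσ h2
  have hT0 : ∀ w (p : ℕ), 0 ≤ T w p := fun w p => by positivity
  set D : ℕ → ℝ := fun p => ‖1 - (p : ℂ) ^ (-w₁)‖ + ‖1 - (p : ℂ) ^ (-w₂)‖ with hD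
  have hD0 : ∀ p, 0 ≤ D p := fun p => by positivity
  set R : ℕ → ℝ := fun p => sel_z10b_K * D p ^ 2 * (‖rt (lam k a p)‖ ^ 4 * (p : ℝ) ^ (-2 : ℝ)) with hR
  have hR0 : ∀ p, 0 ≤ R p := fun p => by positivity
  have hR1 : ∀ p : ℕ, p.Prime → R p ≤ 16 * sel_z10b_K * r p ∧
      R p ≤ (‖w₁‖ + ‖w₂‖) ^ 2 * sel_z10b_K * r p := by
    intro p hp
    have hp1 : (1 : ℝ) ≤ p := by exact_mod_cast hp.one_lt.le
    have hlog := Real.log_nonneg hp1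
    obtain ⟨-, z1', z1⟩ := sel_z10b_z hp h1
    obtain ⟨-, z2', z2⟩ := sel_z10b_z hp h2
    have h4 : (1 : ℝ) ≤ (1 + Real.log p) ^ 2 := by nlinarith
    have h5 : 0 ≤ ‖rt (lam k a p)‖ ^ 4 * (p : ℝ) ^ (-2 : ℝ) := by positivity
    constructor
    · have h6 : D p ^ 2 ≤ 16 := by
        have h6 : D p ≤ 4 := by rw [hD]; simp only []; linarith
        have h7 := pow_le_pow_left₀ (hD0 p) h6 2
        norm_num at h7 ⊢
        exact h7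
      have h7 : ‖rt (lam k a p)‖ ^ 4 * (p : ℝ) ^ (-2 : ℝ) ≤ r p := by
        rw [hr]; simp only []
        nlinarith
      rw [hR]; simp only []
      calc sel_z10b_K * D p ^ 2 * (‖rt (lam k a p)‖ ^ 4 * (p : ℝ) ^ (-2 : ℝ))
          ≤ sel_z10b_K * 16 * r p := by gcongr
        _ = _ := by ring
    · have h6 : D p ≤ (‖w₁‖ + ‖w₂‖) * (1 + Real.log p) := by
        rw [hD]; simp only []
        nlinarith [norm_nonneg w₁, norm_nonneg w₂]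
      have h7 : D p ^ 2 ≤ ((‖w₁‖ + ‖w₂‖) * (1 + Real.log p)) ^ 2 :=
        pow_le_pow_left₀ (hD0 p) h6 2
      rw [hR]; simp only []
      calc sel_z10b_K * D p ^ 2 * (‖rt (lam k a p)‖ ^ 4 * (p : ℝ) ^ (-2 : ℝ))
          ≤ sel_z10b_K * ((‖w₁‖ + ‖w₂‖) * (1 + Real.log p)) ^ 2 *
            (‖rt (lam k a p)‖ ^ 4 * (p : ℝ) ^ (-2 : ℝ)) := by gcongr
        _ = _ := by rw [hr]; ring
  have sR : Summable fun p : Nat.Primes => R p :=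
    Summable.of_nonneg_of_le (fun p => hR0 p) (fun p => (hR1 p p.2).1)
      (sr.mul_left (16 * sel_z10b_K))
  set c : ℕ → ℝ := fun p => T w₁ p / 2 + T w₂ p / 2 + R p with hc
  have hcp : ∀ p : ℕ, p.Prime → 0 ≤ c p ∧
      ∀ I : ℕ, ∑ i ∈ Finset.Ico 1 I, ‖GW k a 1 1 w₁ w₂ (p ^ i)‖ ^ 2 *
        ((p ^ i : ℕ) : ℝ) ^ (-(1 + σ)) ≤ c p := by
    intro p hp
    have hT1 := hT0 w₁ p
    have hT2 := hT0 w₂ p
    have hRp := hR0 p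
    refine ⟨by rw [hc]; positivity, fun I => ?_⟩
    obtain ⟨z1, -, -⟩ := sel_z10b_z hp h1
    obtain ⟨z2, -, -⟩ := sel_z10b_z hp h2
    have hG : ∀ i, GW k a 1 1 w₁ w₂ (p ^ i) =
        gloc (lam k a p) ((p : ℂ) ^ (-w₁)) ((p : ℂ) ^ (-w₂)) i := by
      intro i
      rw [GW_pow H (one_dvd 1) w₁ w₂ hp i, if_pos hp.not_dvd_one]
    simp only [hG]
    have h3 := sel_z10b_loc H hp hσ
      (fun i => gloc (lam k a p) ((p : ℂ) ^ (-w₁)) ((p : ℂ) ^ (-w₂)) i) (D p)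
      ((lam k a p) ^ 2 * ((‖1 - (p : ℂ) ^ (-w₁)‖ ^ 2 + ‖1 - (p : ℂ) ^ (-w₂)‖ ^ 2) / 2))
      (hD0 p) (by
        rw [gloc_one, norm_mul, Complex.norm_real, Real.norm_eq_abs, mul_pow, sq_abs]
        exact mul_le_mul_of_nonneg_left (sel_z10b_half _ _) (sq_nonneg _))
      (fun i hi => gloc_le' _ z1 z2 i (by omega)) I
    refine h3.trans (le_of_eq ?_)
    rw [hc, hTd, hR]
    ring
  set S : ℝ := Tp k a σ w₁ / 2 + Tp k a σ w₂ / 2 + ∑' p : Nat.Primes, R p with hS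
  have hSc : ∀ X : ℕ, ∑ p ∈ (Finset.range X).filter Nat.Prime, c p ≤ S := by
    intro X
    rw [hc]
    simp only [Finset.sum_add_distrib, ← Finset.sum_div]
    have t1 := sel_z10b_primes (T w₁) (fun p _ => hT0 w₁ p) sT1 X
    have t2 := sel_z10b_primes (T w₂) (fun p _ => hT0 w₂ p) sT2 X
    have t3 := sel_z10b_primes R (fun p _ => hR0 p) sR X
    have t1' : ∑ p ∈ (Finset.range X).filter Nat.Prime, T w₁ p ≤ Tp k a σ w₁ := t1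
    have t2' : ∑ p ∈ (Finset.range X).filter Nat.Prime, T w₂ p ≤ Tp k a σ w₂ := t2
    rw [hS]
    linarith
  have hmain := (prod_bound (fun M => GW k a 1 1 w₁ w₂ M) (GW_one H (one_dvd 1) w₁ w₂)
    (fun m n hmn => GW_mul H (one_dvd 1) w₁ w₂ hmn) (1 + σ) c hcp S hSc X).2
  have e3 : ∀ M : ℕ, (M : ℝ) ^ (-1 - σ) = (M : ℝ) ^ (-(1 + σ)) := fun M => by
    congr 1; ring
  simp only [e3]
  refine hmain.trans ?_
  have hx1 : 0 ≤ Tp k a σ w₁ := tsum_nonneg fun p => hT0 w₁ p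
  have hx2 : 0 ≤ Tp k a σ w₂ := tsum_nonneg fun p => hT0 w₂ p
  have hx3 : 0 ≤ ∑' p : Nat.Primes, R p := tsum_nonneg fun p => hR0 p
  have hR2 : ∑' p : Nat.Primes, R p ≤ 16 * sel_z10b_K * K0 := by
    rw [hK0, ← tsum_mul_left]
    exact sR.tsum_le_tsum (fun p => (hR1 p p.2).1) (sr.mul_left _)
  have hR3 : ∑' p : Nat.Primes, R p ≤ (‖w₁‖ + ‖w₂‖) ^ 2 * sel_z10b_K * K0 := by
    rw [hK0, ← tsum_mul_left]
    exact sR.tsum_le_tsum (fun p => (hR1 p p.2).2) (sr.mul_left _)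
  have y1 := hT σ w₁ hσ hσ1 h1 h1'
  have y2 := hT σ w₂ hσ hσ1 h2 h2'
  have x1 : Real.exp (Tp k a σ w₁ / 2) ≤ CT * (1 + ‖w₁‖ / σ) ^ 4 :=
    (Real.exp_le_exp.2 (by linarith)).trans y1
  have x2 : Real.exp (Tp k a σ w₂ / 2) ≤ CT * (1 + ‖w₂‖ / σ) ^ 4 :=
    (Real.exp_le_exp.2 (by linarith)).trans y2
  have x3 : Real.exp (∑' p : Nat.Primes, R p) ≤ Real.exp (16 * sel_z10b_K * K0) :=
    Real.exp_le_exp.2 hR2
  have hz1 : 0 ≤ ‖w₁‖ / σ := by positivity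
  have hz2 : 0 ≤ ‖w₂‖ / σ := by positivity
  have e4 : ((1 + ‖w₁‖ / σ) * (1 + ‖w₂‖ / σ)) ^ (4 : ℝ) =
      (1 + ‖w₁‖ / σ) ^ 4 * (1 + ‖w₂‖ / σ) ^ 4 := by
    rw [← mul_pow, ← Real.rpow_natCast]
    norm_num
  have x4 : Real.exp S ≤ CT ^ 2 * Real.exp (16 * sel_z10b_K * K0) *
      ((1 + ‖w₁‖ / σ) ^ 4 * (1 + ‖w₂‖ / σ) ^ 4) := by
    rw [hS, Real.exp_add, Real.exp_add]
    calc Real.exp (Tp k a σ w₁ / 2) * Real.exp (Tp k a σ w₂ / 2) *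
          Real.exp (∑' p : Nat.Primes, R p)
        ≤ (CT * (1 + ‖w₁‖ / σ) ^ 4) * (CT * (1 + ‖w₂‖ / σ) ^ 4) *
          Real.exp (16 * sel_z10b_K * K0) := by gcongr
      _ = _ := by ring
  have hSnn : 0 ≤ S := by rw [hS]; positivity
  have x5 : S ≤ (CS + sel_z10b_K * K0) * ((‖w₁‖ + ‖w₂‖) / σ) ^ 2 := by
    have u1 := hTS σ w₁ hσ hσ1 h1
    have u2 := hTS σ w₂ hσ hσ1 h2
    have u3 : (‖w₁‖ + ‖w₂‖) ^ 2 ≤ ((‖w₁‖ + ‖w₂‖) / σ) ^ 2 := by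
      refine pow_le_pow_left₀ (by positivity) ?_ 2
      rw [le_div_iff₀ hσ]
      nlinarith [norm_nonneg w₁, norm_nonneg w₂]
    have u4 : (‖w₁‖ + ‖w₂‖) ^ 2 * sel_z10b_K * K0 ≤
        sel_z10b_K * K0 * ((‖w₁‖ + ‖w₂‖) / σ) ^ 2 := by
      calc (‖w₁‖ + ‖w₂‖) ^ 2 * sel_z10b_K * K0 = sel_z10b_K * K0 * (‖w₁‖ + ‖w₂‖) ^ 2 := by ring
        _ ≤ _ := mul_le_mul_of_nonneg_left u3 (by positivity)
    have u5 : (‖w₁‖ / σ) ^ 2 + (‖w₂‖ / σ) ^ 2 ≤ ((‖w₁‖ + ‖w₂‖) / σ) ^ 2 := by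
      rw [add_div]
      nlinarith
    have u6 : CS * (‖w₁‖ / σ) ^ 2 + CS * (‖w₂‖ / σ) ^ 2 ≤ CS * ((‖w₁‖ + ‖w₂‖) / σ) ^ 2 := by
      rw [← mul_add]
      exact mul_le_mul_of_nonneg_left u5 hCS.le
    have u7 : 0 ≤ CS * (‖w₁‖ / σ) ^ 2 := by positivity
    have u8 : 0 ≤ CS * (‖w₂‖ / σ) ^ 2 := by positivity
    rw [hS]
    linarith
  rw [e4]
  calc S * Real.exp S ≤ ((CS + sel_z10b_K * K0) * ((‖w₁‖ + ‖w₂‖) / σ) ^ 2) *
        (CT ^ 2 * Real.exp (16 * sel_z10b_K * K0) *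
          ((1 + ‖w₁‖ / σ) ^ 4 * (1 + ‖w₂‖ / σ) ^ 4)) :=
        mul_le_mul x5 x4 (Real.exp_pos _).le (by positivity)
    _ = _ := by ring

theorem euler_one : type_of% @euler_one_pr := @euler_one_pr
theorem euler_two : type_of% @euler_two_pr := @euler_two_pr

end Pool.Agent.SEL
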