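import Pool.Agent.Lib_helper68.SEL.Defs

/-! SEL block Z11B -/

namespace Pool.Agent.SEL

open Complex MeasureTheory Filter Topology Pool.Agent.GL2

/-- Cauchy-Schwarz with a weight -/
theorem sel_z11b_cs {α : Type*} [MeasurableSpace α] (μ : Measure α) (F : α → ℂ) (Γ : α → ℂ)
    (hF : Integrable F μ) (hΓ : AEStronglyMeasurable Γ μ) (K : ℝ) (hK : ∀ u, ‖Γ u‖ ≤ K) :
    ‖∫ u, F u * Γ u ∂μ‖ ^ 2 ≤ (∫ u, ‖F u‖ ∂μ) * ∫ u, ‖F u‖ * ‖Γ u‖ ^ 2 ∂μ := by
  have i0 : Integrable (fun u => ‖F u‖) μ := hF.norm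
  have i1 : Integrable (fun u => ‖F u‖ * ‖Γ u‖) μ := by
    refine Integrable.mul_bdd (c := K) i0 hΓ.norm (Eventually.of_forall fun u => ?_)
    simpa using hK u
  have i2 : Integrable (fun u => ‖F u‖ * ‖Γ u‖ ^ 2) μ := by
    refine Integrable.mul_bdd (c := K ^ 2) i0 (hΓ.norm.pow 2) (Eventually.of_forall fun u => ?_)
    rw [norm_pow, norm_norm]
    exact pow_le_pow_left₀ (norm_nonneg _) (hK u) 2
  set A := ∫ u, ‖F u‖ ∂μ with hA
  set B := ∫ u, ‖F u‖ * ‖Γ u‖ ∂μ with hB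
  set D := ∫ u, ‖F u‖ * ‖Γ u‖ ^ 2 ∂μ with hD
  have h1 : ‖∫ u, F u * Γ u ∂μ‖ ≤ B := by
    refine (norm_integral_le_integral_norm _).trans (le_of_eq ?_)
    rw [hB]
    simp only [norm_mul]
  have hB0 : 0 ≤ B := integral_nonneg fun u => by positivity
  have h2 : ∀ t : ℝ, 0 ≤ A * (t * t) + (-2 * B) * t + D := by
    intro t
    have h3 : 0 ≤ ∫ u, ‖F u‖ * (‖Γ u‖ - t) ^ 2 ∂μ := integral_nonneg fun u => by positivity
    have h4 : ∫ u, ‖F u‖ * (‖Γ u‖ - t) ^ 2 ∂μ = A * (t * t) + (-2 * B) * t + D := by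
      have h5 : (fun u => ‖F u‖ * (‖Γ u‖ - t) ^ 2) = fun u =>
          (t * t) * ‖F u‖ + (-2 * t) * (‖F u‖ * ‖Γ u‖) + ‖F u‖ * ‖Γ u‖ ^ 2 := by
        funext u; ring
      have k0 : Integrable (fun u => (t * t) * ‖F u‖) μ := i0.const_mul _
      have k1 : Integrable (fun u => (-2 * t) * (‖F u‖ * ‖Γ u‖)) μ := i1.const_mul _
      have k2 : Integrable (fun u => (t * t) * ‖F u‖ + (-2 * t) * (‖F u‖ * ‖Γ u‖)) μ := k0.add k1
      rw [h5, integral_add k2 i2, integral_add k0 k1, integral_const_mul, integral_const_mul]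
      ring
    rw [← h4]; exact h3
  have h6 := discrim_le_zero h2
  rw [discrim] at h6
  calc ‖∫ u, F u * Γ u ∂μ‖ ^ 2 ≤ B ^ 2 := pow_le_pow_left₀ (norm_nonneg _) h1 2
    _ ≤ A * D := by nlinarith

theorem sel_z11b_cpow (L : ℝ) (n : ℕ) (hn : 1 ≤ n) (u : ℝ) :
    (n : ℂ) ^ (-((1 - u * I) / L)) = cexp ((-1 + u * I) * ((Real.log n / L : ℝ) : ℂ)) := by
  have hn0 : (n : ℂ) ≠ 0 := by
    exact_mod_cast (by omega : n ≠ 0)
  rw [Complex.cpow_def_of_ne_zero hn0]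
  congr 1
  rw [show (n : ℂ) = ((n : ℝ) : ℂ) by push_cast; rfl, ← Complex.ofReal_log (by positivity)]
  push_cast
  ring

theorem adm_mink_pr {Θ₁ Θ₂ : ℝ → ℝ} (h₁ : Adm Θ₁) (h₂ : Adm Θ₂) (E : ℝ) : ∃ C : ℝ, 0 < C ∧
    ∀ (L : ℝ), 0 < L → ∀ (T : Finset ℕ) (wt : ℕ → ℝ) (R : ℝ) (Γ : ℂ → ℂ → ℕ → ℂ) (G : ℕ → ℂ)
      (c : ℕ → ℕ × ℕ → ℂ),
      (∀ M ∈ T, 0 ≤ wt M) → 0 ≤ R →
      (∀ (w₁ w₂ : ℂ) (M : ℕ), M ∈ T → Γ w₁ w₂ M = ∑ v ∈ Finset.Icc 1 M ×ˢ Finset.Icc 1 M,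
        c M v * (v.1 : ℂ) ^ (-w₁) * (v.2 : ℂ) ^ (-w₂)) →
      (∀ M ∈ T, G M = ∑ v ∈ Finset.Icc 1 M ×ˢ Finset.Icc 1 M,
        c M v * (Θ₁ (Real.log v.1 / L) : ℂ) * (Θ₂ (Real.log v.2 / L) : ℂ)) →
      (∀ u₁ u₂ : ℝ, ∑ M ∈ T, ‖Γ ((1 - u₁ * I) / L) ((1 - u₂ * I) / L) M‖ ^ 2 * wt M ≤
        R * ((1 + |u₁|) * (1 + |u₂|)) ^ E) →
      ∑ M ∈ T, ‖G M‖ ^ 2 * wt M ≤ C * R := by
  obtain ⟨g₁, hg₁, hi₁, hr₁⟩ := h₁
  obtain ⟨g₂, hg₂, hi₂, hr₂⟩ := h₂
  have j₁ : Integrable g₁ := by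
    have := hi₁ 0
    simp only [pow_zero, mul_one] at this
    exact (integrable_norm_iff hg₁.aestronglyMeasurable).1 this
  have j₂ : Integrable g₂ := by
    have := hi₂ 0
    simp only [pow_zero, mul_one] at this
    exact (integrable_norm_iff hg₂.aestronglyMeasurable).1 this
  set m : ℕ := ⌈E⌉₊ with hm
  set F : ℝ × ℝ → ℂ := fun u => g₁ u.1 * g₂ u.2 with hF
  have iF : Integrable F (volume.prod volume) := j₁.mul_prod j₂
  set W : ℝ × ℝ → ℝ := fun u => (‖g₁ u.1‖ * (1 + |u.1|) ^ m) * (‖g₂ u.2‖ * (1 + |u.2|) ^ m) with hW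
  have iW : Integrable W (volume.prod volume) := (hi₁ m).mul_prod (hi₂ m)
  set A : ℝ := ∫ u, ‖F u‖ ∂(volume.prod volume) with hA
  set B : ℝ := ∫ u, W u ∂(volume.prod volume) with hB
  have hA0 : 0 ≤ A := integral_nonneg fun u => norm_nonneg _
  have hB0 : 0 ≤ B := integral_nonneg fun u => by positivity
  refine ⟨A * B + 1, by positivity, ?_⟩
  intro L hL T wt R Γ G c hwt hR hΓ hG hb
  -- the kernel
  set Φ : ℕ → ℝ × ℝ → ℂ := fun M u => Γ ((1 - u.1 * I) / L) ((1 - u.2 * I) / L) M with hΦ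
  have hΦe : ∀ M ∈ T, ∀ u : ℝ × ℝ, Φ M u = ∑ v ∈ Finset.Icc 1 M ×ˢ Finset.Icc 1 M,
      c M v * cexp ((-1 + u.1 * I) * ((Real.log v.1 / L : ℝ) : ℂ)) *
        cexp ((-1 + u.2 * I) * ((Real.log v.2 / L : ℝ) : ℂ)) := by
    intro M hM u
    rw [hΦ]
    simp only []
    rw [hΓ _ _ M hM]
    refine Finset.sum_congr rfl fun v hv => ?_
    rw [Finset.mem_product, Finset.mem_Icc, Finset.mem_Icc] at hv
    rw [sel_z11b_cpow L v.1 hv.1.1, sel_z11b_cpow L v.2 hv.2.1]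
  have hΦc : ∀ M ∈ T, Continuous (Φ M) := by
    intro M hM
    have : Φ M = fun u : ℝ × ℝ => ∑ v ∈ Finset.Icc 1 M ×ˢ Finset.Icc 1 M,
      c M v * cexp ((-1 + u.1 * I) * ((Real.log v.1 / L : ℝ) : ℂ)) *
        cexp ((-1 + u.2 * I) * ((Real.log v.2 / L : ℝ) : ℂ)) := by
      funext u
      exact hΦe M hM u
    rw [this]
    fun_prop
  have hexp : ∀ (n : ℕ) (u : ℝ), 1 ≤ n → ‖cexp ((-1 + u * I) * ((Real.log n / L : ℝ) : ℂ))‖ ≤ 1 := by
    intro n u hn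
    rw [Complex.norm_exp]
    have h1 : ((-1 + (u : ℂ) * I) * ((Real.log n / L : ℝ) : ℂ)).re = -(Real.log n / L) := by
      rw [Complex.mul_re, Complex.ofReal_re, Complex.ofReal_im]
      simp
    rw [h1, Real.exp_le_one_iff]
    have : 0 ≤ Real.log n / L := div_nonneg (Real.log_natCast_nonneg n) hL.le
    linarith
  have hΦb : ∀ M ∈ T, ∀ u, ‖Φ M u‖ ≤ ∑ v ∈ Finset.Icc 1 M ×ˢ Finset.Icc 1 M, ‖c M v‖ := by
    intro M hM u
    rw [hΦe M hM u]
    refine (norm_sum_le _ _).trans (Finset.sum_le_sum fun v hv => ?_)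
    rw [Finset.mem_product, Finset.mem_Icc, Finset.mem_Icc] at hv
    rw [norm_mul, norm_mul]
    have e1 := hexp v.1 u.1 hv.1.1
    have e2 := hexp v.2 u.2 hv.2.1
    calc ‖c M v‖ * ‖cexp ((-1 + u.1 * I) * ((Real.log v.1 / L : ℝ) : ℂ))‖ *
        ‖cexp ((-1 + u.2 * I) * ((Real.log v.2 / L : ℝ) : ℂ))‖ ≤ ‖c M v‖ * 1 * 1 := by
          gcongr
      _ = ‖c M v‖ := by ring
  -- the representation of `G`
  have hGi : ∀ M ∈ T, G M = ∫ u, F u * Φ M u ∂(volume.prod volume) := by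
    intro M hM
    have h1 : ∀ v ∈ Finset.Icc 1 M ×ˢ Finset.Icc 1 M,
        c M v * (Θ₁ (Real.log v.1 / L) : ℂ) * (Θ₂ (Real.log v.2 / L) : ℂ) =
        ∫ u : ℝ × ℝ, c M v * ((g₁ u.1 * cexp ((-1 + u.1 * I) * ((Real.log v.1 / L : ℝ) : ℂ))) *
          (g₂ u.2 * cexp ((-1 + u.2 * I) * ((Real.log v.2 / L : ℝ) : ℂ)))) ∂(volume.prod volume) := by
      intro v hv
      have h9 := integral_prod_mul (μ := (volume : Measure ℝ)) (ν := (volume : Measure ℝ))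
        (fun u : ℝ => g₁ u * cexp ((-1 + u * I) * ((Real.log v.1 / L : ℝ) : ℂ)))
        (fun u : ℝ => g₂ u * cexp ((-1 + u * I) * ((Real.log v.2 / L : ℝ) : ℂ)))
      rw [integral_const_mul, h9]
      rw [hr₁ _ (div_nonneg (Real.log_natCast_nonneg _) hL.le),
        hr₂ _ (div_nonneg (Real.log_natCast_nonneg _) hL.le)]
      push_cast
      ring
    rw [hG M hM, Finset.sum_congr rfl h1, ← integral_finsetSum]
    · congr 1
      funext u
      rw [hΦe M hM u, Finset.mul_sum]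
      refine Finset.sum_congr rfl fun v hv => ?_
      rw [hF]
      simp only []
      ring
    · intro v hv
      rw [Finset.mem_product, Finset.mem_Icc, Finset.mem_Icc] at hv
      apply Integrable.const_mul
      have k1 : Integrable fun u : ℝ => g₁ u * cexp ((-1 + u * I) * ((Real.log v.1 / L : ℝ) : ℂ)) := by
        refine Integrable.mul_bdd (c := 1) j₁ ?_ (Eventually.of_forall fun u => hexp v.1 u hv.1.1)
        exact (by fun_prop : Continuous fun u : ℝ =>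
          cexp ((-1 + u * I) * ((Real.log v.1 / L : ℝ) : ℂ))).aestronglyMeasurable
      have k2 : Integrable fun u : ℝ => g₂ u * cexp ((-1 + u * I) * ((Real.log v.2 / L : ℝ) : ℂ)) := by
        refine Integrable.mul_bdd (c := 1) j₂ ?_ (Eventually.of_forall fun u => hexp v.2 u hv.2.1)
        exact (by fun_prop : Continuous fun u : ℝ =>
          cexp ((-1 + u * I) * ((Real.log v.2 / L : ℝ) : ℂ))).aestronglyMeasurable
      exact k1.mul_prod k2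
  -- Cauchy-Schwarz
  have hcs : ∀ M ∈ T, ‖G M‖ ^ 2 * wt M ≤
      A * ∫ u, ‖F u‖ * (‖Φ M u‖ ^ 2 * wt M) ∂(volume.prod volume) := by
    intro M hM
    have h1 := sel_z11b_cs (volume.prod volume) F (Φ M) iF (hΦc M hM).aestronglyMeasurable _
      (hΦb M hM)
    rw [← hGi M hM] at h1
    have h2 : ∫ u, ‖F u‖ * (‖Φ M u‖ ^ 2 * wt M) ∂(volume.prod volume) =
        (∫ u, ‖F u‖ * ‖Φ M u‖ ^ 2 ∂(volume.prod volume)) * wt M := by
      rw [← integral_mul_const]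
      congr 1
      funext u
      ring
    rw [h2, ← mul_assoc]
    exact mul_le_mul_of_nonneg_right h1 (hwt M hM)
  have i2 : ∀ M ∈ T, Integrable (fun u => ‖F u‖ * (‖Φ M u‖ ^ 2 * wt M)) (volume.prod volume) := by
    intro M hM
    refine Integrable.mul_bdd (c := (∑ v ∈ Finset.Icc 1 M ×ˢ Finset.Icc 1 M, ‖c M v‖) ^ 2 * wt M)
      iF.norm ?_ (Eventually.of_forall fun u => ?_)
    · exact (((hΦc M hM).norm.pow 2).mul continuous_const).aestronglyMeasurable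
    · rw [norm_mul, norm_pow, norm_norm, Real.norm_eq_abs, abs_of_nonneg (hwt M hM)]
      exact mul_le_mul_of_nonneg_right (pow_le_pow_left₀ (norm_nonneg _) (hΦb M hM u) 2) (hwt M hM)
  calc ∑ M ∈ T, ‖G M‖ ^ 2 * wt M
      ≤ ∑ M ∈ T, A * ∫ u, ‖F u‖ * (‖Φ M u‖ ^ 2 * wt M) ∂(volume.prod volume) :=
        Finset.sum_le_sum hcs
    _ = A * ∫ u, ∑ M ∈ T, ‖F u‖ * (‖Φ M u‖ ^ 2 * wt M) ∂(volume.prod volume) := by
        rw [← Finset.mul_sum, integral_finsetSum _ i2]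
    _ ≤ A * ∫ u, R * W u ∂(volume.prod volume) := by
        refine mul_le_mul_of_nonneg_left ?_ hA0
        refine integral_mono (integrable_finsetSum _ i2) (iW.const_mul R) fun u => ?_
        simp only []
        rw [← Finset.mul_sum]
        have h1 := hb u.1 u.2
        have h2 : ((1 + |u.1|) * (1 + |u.2|)) ^ E ≤ ((1 + |u.1|) * (1 + |u.2|)) ^ m := by
          rw [← Real.rpow_natCast]
          refine Real.rpow_le_rpow_of_exponent_le ?_ (Nat.le_ceil E)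
          nlinarith [abs_nonneg u.1, abs_nonneg u.2, mul_nonneg (abs_nonneg u.1) (abs_nonneg u.2)]
        calc ‖F u‖ * ∑ M ∈ T, ‖Φ M u‖ ^ 2 * wt M
            ≤ ‖F u‖ * (R * ((1 + |u.1|) * (1 + |u.2|)) ^ m) := by
              refine mul_le_mul_of_nonneg_left (h1.trans ?_) (norm_nonneg _)
              exact mul_le_mul_of_nonneg_left h2 hR
          _ = R * W u := by
              rw [hF, hW]
              simp only [norm_mul]
              rw [mul_pow]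
              ring
    _ = A * B * R := by
        rw [integral_const_mul]
        ring
    _ ≤ (A * B + 1) * R := by nlinarith

theorem adm_mink : type_of% @adm_mink_pr := @adm_mink_pr

end Pool.Agent.SEL
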