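import Pool.Agent.Lib_helper68.SEL.Defs
import Pool.Agent.Lib_helper68.SEL.Z10B
import Pool.Agent.Lib_helper68.SEL.Z11A
import Pool.Agent.Lib_helper68.SEL.Z11B

/-! [SEL Z12] the quadratic forms in Dirichlet series. Cites: Z10B euler_one, Z11A exists_bump,
Z11B adm_mink. -/

namespace Pool.Agent.SEL

open Complex MeasureTheory Filter Topology Pool.Agent.GL2

/-- triple Dirichlet convolution as a sum over pairs -/
theorem sel_z12_tri (f g h : ℕ → ℂ) (M : ℕ) (hM : 0 < M) :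
    ∑ v ∈ M.divisorsAntidiagonal, f v.1 * ∑ u ∈ v.2.divisorsAntidiagonal, g u.1 * h u.2 =
    ∑ v ∈ Finset.Icc 1 M ×ˢ Finset.Icc 1 M,
      (if v.1 * v.2 ∣ M then f (M / (v.1 * v.2)) else 0) * g v.1 * h v.2 := by
  simp only [ite_mul, zero_mul]
  rw [← Finset.sum_filter]
  simp_rw [Finset.mul_sum]
  rw [Finset.sum_sigma']
  refine Finset.sum_nbij' (fun x => x.2) (fun w => ⟨(M / (w.1 * w.2), w.1 * w.2), w⟩)
    ?_ ?_ ?_ ?_ ?_
  · rintro ⟨v, u⟩ hx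
    simp only [Finset.mem_sigma, Nat.mem_divisorsAntidiagonal] at hx
    obtain ⟨⟨h1, h2⟩, h3, h4⟩ := hx
    simp only [Finset.mem_filter, Finset.mem_product, Finset.mem_Icc]
    have hd : v.2 ∣ M := ⟨v.1, by rw [← h1]; ring⟩
    have hd1 : u.1 ∣ M := (Dvd.intro _ h3).trans hd
    have hd2 : u.2 ∣ M := (Dvd.intro_left _ h3).trans hd
    exact ⟨⟨⟨Nat.pos_of_dvd_of_pos hd1 hM, Nat.le_of_dvd hM hd1⟩,
      ⟨Nat.pos_of_dvd_of_pos hd2 hM, Nat.le_of_dvd hM hd2⟩⟩, h3 ▸ hd⟩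
  · rintro w hw
    simp only [Finset.mem_filter, Finset.mem_product, Finset.mem_Icc] at hw
    obtain ⟨⟨⟨h1, h2⟩, h3, h4⟩, h5⟩ := hw
    simp only [Finset.mem_sigma, Nat.mem_divisorsAntidiagonal]
    have : w.1 * w.2 ≠ 0 := (Nat.mul_pos h1 h3).ne'
    exact ⟨⟨Nat.div_mul_cancel h5, hM.ne'⟩, trivial, this⟩
  · rintro ⟨v, u⟩ hx
    simp only [Finset.mem_sigma, Nat.mem_divisorsAntidiagonal] at hx
    obtain ⟨⟨h1, h2⟩, h3, h4⟩ := hx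
    have h5 : M / v.2 = v.1 := by
      rw [← h1, Nat.mul_div_cancel _ (Nat.pos_of_ne_zero h4)]
    simp only [h3, h5]
  · intro w hw
    rfl
  · rintro ⟨v, u⟩ hx
    simp only [Finset.mem_sigma, Nat.mem_divisorsAntidiagonal] at hx
    obtain ⟨⟨h1, h2⟩, h3, h4⟩ := hx
    have h5 : M / (u.1 * u.2) = v.1 := by
      rw [h3, ← h1, Nat.mul_div_cancel _ (Nat.pos_of_ne_zero h4)]
    rw [h5]
    ring

/-- Dirichlet convolution as a sum over pairs -/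
theorem sel_z12_dbl (f g h : ℕ → ℂ) (h1 : h 1 = 1) (M : ℕ) (hM : 0 < M) :
    ∑ v ∈ M.divisorsAntidiagonal, f v.1 * g v.2 =
    ∑ v ∈ Finset.Icc 1 M ×ˢ Finset.Icc 1 M,
      (if v.2 = 1 ∧ v.1 ∣ M then f (M / v.1) else 0) * g v.1 * h v.2 := by
  rw [Nat.sum_divisorsAntidiagonal' (f := fun x y => f x * g y), Finset.sum_product]
  have : ∀ x ∈ Finset.Icc 1 M, ∑ y ∈ Finset.Icc 1 M,
      (if y = 1 ∧ x ∣ M then f (M / x) else 0) * g x * h y =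
      if x ∣ M then f (M / x) * g x else 0 := by
    intro x hx
    rw [Finset.sum_eq_single 1]
    · by_cases hxM : x ∣ M <;> simp [hxM, h1]
    · intro b _ hb
      simp [hb]
    · intro h
      exact absurd (Finset.mem_Icc.2 ⟨le_rfl, hM⟩) h
  rw [Finset.sum_congr rfl this, ← Finset.sum_filter]
  refine Finset.sum_congr ?_ (fun _ _ => rfl)
  ext x
  simp only [Nat.mem_divisors, Finset.mem_filter, Finset.mem_Icc]
  constructor
  · rintro ⟨h2, h3⟩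
    exact ⟨⟨Nat.pos_of_dvd_of_pos h2 hM, Nat.le_of_dvd hM h2⟩, h2⟩
  · rintro ⟨_, h3⟩
    exact ⟨h3, hM.ne'⟩

theorem sel_z12_w {L : ℝ} (hL : 1 ≤ L) (u : ℝ) :
    ((1 - (u : ℂ) * I) / (L : ℂ)).re = 1 / L ∧
    1 + ‖(1 - (u : ℂ) * I) / (L : ℂ)‖ / (1 / L) ≤ 2 * (1 + |u|) := by
  have hL0 : 0 < L := by linarith
  constructor
  · rw [Complex.div_ofReal_re]
    simp
  · rw [norm_div, Complex.norm_real, Real.norm_of_nonneg hL0.le]
    have h1 : ‖(1 : ℂ) - (u : ℂ) * I‖ ≤ 1 + |u| := by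
      refine (norm_sub_le _ _).trans ?_
      simp
    have h2 : ‖(1 : ℂ) - (u : ℂ) * I‖ / L / (1 / L) = ‖(1 : ℂ) - (u : ℂ) * I‖ := by
      field_simp
    rw [h2]
    have := abs_nonneg u
    linarith

theorem sel_z12_pow {A B x y E : ℝ} (hA : 0 ≤ A) (hB : 0 ≤ B) (hx : 0 ≤ x) (hy : 0 ≤ y)
    (h1 : A ≤ 2 * x) (h2 : B ≤ 2 * y) (hE : 0 < E) :
    (A * B) ^ E ≤ 4 ^ E * (x * y) ^ E := by
  rw [← Real.mul_rpow (by norm_num) (mul_nonneg hx hy)]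
  refine Real.rpow_le_rpow (mul_nonneg hA hB) ?_ hE.le
  nlinarith [mul_le_mul h1 h2 hB (by linarith : (0 : ℝ) ≤ 2 * x)]

theorem gen_one_pr {k : ℕ} {a : ℕ → ℝ} (H : HData k a) {Θ₁ Θ₂ : ℝ → ℝ} (h₁ : Adm Θ₁)
    (h₂ : Adm Θ₂) :
    ∃ C : ℝ, 0 < C ∧ ∀ (q₀ q : ℕ) (L : ℝ) (X : ℕ), 0 < q → q₀ ∣ q → 1 ≤ L →
      ∑ M ∈ Finset.Ico 1 X, ((lamA k a q₀ * (beA k a q L Θ₁ * beA k a q L Θ₂)) M) ^ 2 *
        (M : ℝ) ^ (-1 - 1 / L) ≤ C * Real.exp (Eq k a q₀ q) := by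
  obtain ⟨C, E, hC, hE, hb⟩ := euler_one H
  obtain ⟨C', hC', hm⟩ := adm_mink h₁ h₂ E
  refine ⟨C' * (C * 4 ^ E), by positivity, fun q₀ q L X hq hqq hL => ?_⟩
  have hL0 : 0 < L := by linarith
  have key := hm L hL0 (Finset.Ico 1 X) (fun M => (M : ℝ) ^ (-1 - 1 / L))
    (C * 4 ^ E * Real.exp (Eq k a q₀ q)) (fun w₁ w₂ M => GW k a q₀ q w₁ w₂ M)
    (fun M => (((lamA k a q₀ * (beA k a q L Θ₁ * beA k a q L Θ₂)) M : ℝ) : ℂ))
    (fun M v => (if v.1 * v.2 ∣ M then (lamA k a q₀ (M / (v.1 * v.2)) : ℂ) else 0) *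
      (alA k a q v.1 : ℂ) * (alA k a q v.2 : ℂ)) ?_ ?_ ?_ ?_ ?_
  · have e : ∀ M ∈ Finset.Ico 1 X,
        ‖(((lamA k a q₀ * (beA k a q L Θ₁ * beA k a q L Θ₂)) M : ℝ) : ℂ)‖ ^ 2 *
          (M : ℝ) ^ (-1 - 1 / L) =
        ((lamA k a q₀ * (beA k a q L Θ₁ * beA k a q L Θ₂)) M) ^ 2 *
          (M : ℝ) ^ (-1 - 1 / L) := by
      intro M _
      rw [Complex.norm_real, Real.norm_eq_abs, sq_abs]
    rw [Finset.sum_congr rfl e] at key
    refine key.trans (le_of_eq ?_)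
    ring
  · intro M _
    positivity
  · positivity
  · intro w₁ w₂ M hM
    have hM0 : 0 < M := (Finset.mem_Ico.1 hM).1
    show GW k a q₀ q w₁ w₂ M = _
    unfold GW
    rw [sel_z12_tri (fun n => (lamA k a q₀ n : ℂ))
      (fun n => (alA k a q n : ℂ) * (n : ℂ) ^ (-w₁))
      (fun n => (alA k a q n : ℂ) * (n : ℂ) ^ (-w₂)) M hM0]
    refine Finset.sum_congr rfl (fun v _ => ?_)
    ring
  · intro M hM
    have hM0 : 0 < M := (Finset.mem_Ico.1 hM).1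
    have e1 : (((lamA k a q₀ * (beA k a q L Θ₁ * beA k a q L Θ₂)) M : ℝ) : ℂ) =
        ∑ v ∈ M.divisorsAntidiagonal, (lamA k a q₀ v.1 : ℂ) *
          ∑ u ∈ v.2.divisorsAntidiagonal,
            ((alA k a q u.1 : ℂ) * (Θ₁ (Real.log u.1 / L) : ℂ)) *
              ((alA k a q u.2 : ℂ) * (Θ₂ (Real.log u.2 / L) : ℂ)) := by
      rw [ArithmeticFunction.mul_apply]
      push_cast
      refine Finset.sum_congr rfl (fun v _ => ?_)
      rw [ArithmeticFunction.mul_apply]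
      push_cast
      refine congrArg _ (Finset.sum_congr rfl (fun u _ => ?_))
      simp [beA]
    show (((lamA k a q₀ * (beA k a q L Θ₁ * beA k a q L Θ₂)) M : ℝ) : ℂ) = _
    rw [e1, sel_z12_tri (fun n => (lamA k a q₀ n : ℂ))
      (fun n => (alA k a q n : ℂ) * (Θ₁ (Real.log n / L) : ℂ))
      (fun n => (alA k a q n : ℂ) * (Θ₂ (Real.log n / L) : ℂ)) M hM0]
    refine Finset.sum_congr rfl (fun v _ => ?_)
    ring
  · intro u₁ u₂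
    obtain ⟨r1, b1⟩ := sel_z12_w hL u₁
    obtain ⟨r2, b2⟩ := sel_z12_w hL u₂
    have hσ : 0 < 1 / L := by positivity
    have hσ1 : 1 / L ≤ 1 := by rw [div_le_one hL0]; exact hL
    refine (hb q₀ q (1 / L) _ _ X hq hqq hσ hσ1 (by rw [r1]; exact hσ.le) r1.le
      (by rw [r2]; exact hσ.le) r2.le).trans ?_
    have h3 := sel_z12_pow (E := E)
      (by positivity : 0 ≤ 1 + ‖(1 - (u₁ : ℂ) * I) / (L : ℂ)‖ / (1 / L))
      (by positivity : 0 ≤ 1 + ‖(1 - (u₂ : ℂ) * I) / (L : ℂ)‖ / (1 / L))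
      (by positivity : (0 : ℝ) ≤ 1 + |u₁|) (by positivity : (0 : ℝ) ≤ 1 + |u₂|) b1 b2 hE
    calc C * ((1 + ‖(1 - (u₁ : ℂ) * I) / (L : ℂ)‖ / (1 / L)) *
          (1 + ‖(1 - (u₂ : ℂ) * I) / (L : ℂ)‖ / (1 / L))) ^ E * Real.exp (Eq k a q₀ q)
        ≤ C * (4 ^ E * ((1 + |u₁|) * (1 + |u₂|)) ^ E) * Real.exp (Eq k a q₀ q) := by
          gcongr
      _ = C * 4 ^ E * Real.exp (Eq k a q₀ q) * ((1 + |u₁|) * (1 + |u₂|)) ^ E := by ring

theorem gen_nu_pr {k : ℕ} {a : ℕ → ℝ} (H : HData k a) {Θ : ℝ → ℝ} (h : Adm Θ) :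
    ∃ C : ℝ, 0 < C ∧ ∀ (L : ℝ) (X : ℕ), 1 ≤ L →
      ∑ M ∈ Finset.Ico 1 X, ((lamA k a 1 * nuA k a L Θ) M) ^ 2 *
        (M : ℝ) ^ (-1 - 1 / L) ≤ C := by
  obtain ⟨C, E, hC, hE, hb⟩ := euler_one H
  obtain ⟨Θ₀, hΘ₀, -, hΘ₀1, -, -⟩ := exists_bump
  obtain ⟨C', hC', hm⟩ := adm_mink h hΘ₀ (2 * E)
  refine ⟨C' * (C * 4 ^ E), by positivity, fun L X hL => ?_⟩
  have hL0 : 0 < L := by linarith
  have key := hm L hL0 (Finset.Ico 1 X) (fun M => (M : ℝ) ^ (-1 - 1 / L))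
    (C * 4 ^ E) (fun w₁ _ M => GW k a 1 1 w₁ w₁ M)
    (fun M => (((lamA k a 1 * nuA k a L Θ) M : ℝ) : ℂ))
    (fun M v => (if v.2 = 1 ∧ v.1 ∣ M then (lamA k a 1 (M / v.1) : ℂ) else 0) *
      (((alA k a 1 * alA k a 1) v.1 : ℝ) : ℂ)) ?_ ?_ ?_ ?_ ?_
  · have e : ∀ M ∈ Finset.Ico 1 X,
        ‖(((lamA k a 1 * nuA k a L Θ) M : ℝ) : ℂ)‖ ^ 2 * (M : ℝ) ^ (-1 - 1 / L) =
        ((lamA k a 1 * nuA k a L Θ) M) ^ 2 * (M : ℝ) ^ (-1 - 1 / L) := by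
      intro M _
      rw [Complex.norm_real, Real.norm_eq_abs, sq_abs]
    rw [Finset.sum_congr rfl e] at key
    exact key
  · intro M _
    positivity
  · positivity
  · intro w₁ w₂ M hM
    have hM0 : 0 < M := (Finset.mem_Ico.1 hM).1
    show GW k a 1 1 w₁ w₁ M = _
    unfold GW
    have e1 : ∀ v ∈ M.divisorsAntidiagonal, (lamA k a 1 v.1 : ℂ) *
        ∑ u ∈ v.2.divisorsAntidiagonal, ((alA k a 1 u.1 : ℂ) * (u.1 : ℂ) ^ (-w₁)) *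
          ((alA k a 1 u.2 : ℂ) * (u.2 : ℂ) ^ (-w₁)) =
        (lamA k a 1 v.1 : ℂ) *
          ((((alA k a 1 * alA k a 1) v.2 : ℝ) : ℂ) * (v.2 : ℂ) ^ (-w₁)) := by
      intro v _
      rw [ArithmeticFunction.mul_apply]
      push_cast
      rw [Finset.sum_mul]
      refine congrArg _ (Finset.sum_congr rfl (fun u hu => ?_))
      rw [← (Nat.mem_divisorsAntidiagonal.1 hu).1]
      push_cast
      rw [Complex.natCast_mul_natCast_cpow]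
      ring
    rw [Finset.sum_congr rfl e1, sel_z12_dbl (fun n => (lamA k a 1 n : ℂ))
      (fun n => (((alA k a 1 * alA k a 1) n : ℝ) : ℂ) * (n : ℂ) ^ (-w₁))
      (fun n => (n : ℂ) ^ (-w₂)) (by simp) M hM0]
    refine Finset.sum_congr rfl (fun v _ => ?_)
    ring
  · intro M hM
    have hM0 : 0 < M := (Finset.mem_Ico.1 hM).1
    have e1 : (((lamA k a 1 * nuA k a L Θ) M : ℝ) : ℂ) =
        ∑ v ∈ M.divisorsAntidiagonal, (lamA k a 1 v.1 : ℂ) *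
          ((((alA k a 1 * alA k a 1) v.2 : ℝ) : ℂ) * (Θ (Real.log v.2 / L) : ℂ)) := by
      rw [ArithmeticFunction.mul_apply]
      push_cast
      refine Finset.sum_congr rfl (fun v _ => ?_)
      simp [nuA]
    show (((lamA k a 1 * nuA k a L Θ) M : ℝ) : ℂ) = _
    rw [e1, sel_z12_dbl (fun n => (lamA k a 1 n : ℂ))
      (fun n => (((alA k a 1 * alA k a 1) n : ℝ) : ℂ) * (Θ (Real.log n / L) : ℂ))
      (fun n => (Θ₀ (Real.log n / L) : ℂ)) (by simp [hΘ₀1]) M hM0]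
    refine Finset.sum_congr rfl (fun v _ => ?_)
    ring
  · intro u₁ u₂
    obtain ⟨r1, b1⟩ := sel_z12_w hL u₁
    have hσ : 0 < 1 / L := by positivity
    have hσ1 : 1 / L ≤ 1 := by rw [div_le_one hL0]; exact hL
    refine (hb 1 1 (1 / L) _ _ X one_pos (dvd_refl 1) hσ hσ1 (by rw [r1]; exact hσ.le) r1.le
      (by rw [r1]; exact hσ.le) r1.le).trans ?_
    have h3 := sel_z12_pow (E := E)
      (by positivity : 0 ≤ 1 + ‖(1 - (u₁ : ℂ) * I) / (L : ℂ)‖ / (1 / L))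
      (by positivity : 0 ≤ 1 + ‖(1 - (u₁ : ℂ) * I) / (L : ℂ)‖ / (1 / L))
      (by positivity : (0 : ℝ) ≤ 1 + |u₁|) (by positivity : (0 : ℝ) ≤ 1 + |u₁|) b1 b1 hE
    have hEq : Eq k a 1 1 = 0 := by simp [Eq]
    rw [hEq, Real.exp_zero, mul_one]
    have h4 : ((1 + |u₁|) * (1 + |u₁|)) ^ E ≤ ((1 + |u₁|) * (1 + |u₂|)) ^ (2 * E) := by
      have h5 : ((1 + |u₁|) * (1 + |u₁|)) ^ E = (1 + |u₁|) ^ (2 * E) := by
        rw [← pow_two, ← Real.rpow_natCast, ← Real.rpow_mul (by positivity)]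
        norm_num
      rw [h5]
      refine Real.rpow_le_rpow (by positivity) ?_ (by positivity)
      have := abs_nonneg u₁
      have := abs_nonneg u₂
      nlinarith
    calc C * ((1 + ‖(1 - (u₁ : ℂ) * I) / (L : ℂ)‖ / (1 / L)) *
          (1 + ‖(1 - (u₁ : ℂ) * I) / (L : ℂ)‖ / (1 / L))) ^ E
        ≤ C * (4 ^ E * ((1 + |u₁|) * (1 + |u₂|)) ^ (2 * E)) := by
          refine mul_le_mul_of_nonneg_left (h3.trans ?_) hC.le
          exact mul_le_mul_of_nonneg_left h4 (by positivity)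
      _ = C * 4 ^ E * ((1 + |u₁|) * (1 + |u₂|)) ^ (2 * E) := by ring

theorem gen_one : type_of% @gen_one_pr := @gen_one_pr
theorem gen_nu : type_of% @gen_nu_pr := @gen_nu_pr

end Pool.Agent.SEL
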