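import Pool.Agent.Lib_helper68.SEL.Defs
import Pool.Agent.Lib_helper68.SEL.D1
import Pool.Agent.Lib_helper68.SEL.D2
import Pool.Agent.Lib_helper68.SEL.D3
import Pool.Agent.Lib_helper68.SEL.D4
import Pool.Agent.Lib_helper68.SEL.Z12
import Pool.Agent.Lib_helper68.SEL.Z2
import Pool.Agent.Lib_helper68.SEL.Z9

/-! Block D5: the two bounds for the diagonal -/

namespace Pool.Agent.SEL

open Complex MeasureTheory Filter Topology Pool.Agent.GL2

theorem sel_D5_be_le {k : ℕ} {a : ℕ → ℝ} (H : HData k a) (q : ℕ) (L : ℝ) {Θ : ℝ → ℝ}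
    (hΘ : ∀ x, 0 ≤ Θ x ∧ Θ x ≤ 1) (n : ℕ) : |beA k a q L Θ n| ≤ (n : ℝ) ^ 2 := by
  rcases Nat.eq_zero_or_pos n with rfl | hn
  · simp
  · have h1 := (lam_alA_le H q n hn).2
    have h2 := hΘ (Real.log n / L)
    show |alA k a q n * Θ (Real.log n / L)| ≤ _
    rw [abs_mul, abs_of_nonneg h2.1]
    calc |alA k a q n| * Θ (Real.log n / L) ≤ (n : ℝ) ^ 2 * 1 :=
          mul_le_mul h1 h2.2 h2.1 (by positivity)
      _ = _ := mul_one _

theorem sel_D5_be_zero {k : ℕ} {a : ℕ → ℝ} (q : ℕ) {L : ℝ} (hL : 0 < L) {Θ : ℝ → ℝ}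
    (hΘ' : ∀ x, 1 ≤ x → Θ x = 0) (n : ℕ) (hn : NL L ≤ n) : beA k a q L Θ n = 0 := by
  show alA k a q n * Θ (Real.log n / L) = 0
  rw [hΘ', mul_zero]
  have h1 : Real.exp L ≤ n := (Nat.le_ceil _).trans (by exact_mod_cast hn)
  rw [le_div_iff₀ hL, one_mul]
  exact (Real.le_log_iff_exp_le ((Real.exp_pos L).trans_le h1)).2 h1

theorem sel_D5_be_cop {k : ℕ} {a : ℕ → ℝ} (q : ℕ) {L : ℝ} {Θ : ℝ → ℝ} (n : ℕ)
    (hn : ¬ n.Coprime q) : beA k a q L Θ n = 0 := by
  show alA k a q n * Θ (Real.log n / L) = 0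
  have : alA k a q n = 0 := by
    show (if n = 0 ∨ ¬ n.Coprime q then (0 : ℝ) else _) = 0
    rw [if_pos (Or.inr hn)]
  rw [this, zero_mul]

theorem sel_D5_be_shift {k : ℕ} {a : ℕ → ℝ} (q : ℕ) {L : ℝ} {Θ : ℝ → ℝ} (n : ℕ) :
    beA k a q L (fun x => Real.exp x * Θ x) n = beA k a q L Θ n * (n : ℝ) ^ (1 / L) := by
  show alA k a q n * (Real.exp (Real.log n / L) * Θ (Real.log n / L)) =
    alA k a q n * Θ (Real.log n / L) * (n : ℝ) ^ (1 / L)
  rcases Nat.eq_zero_or_pos n with rfl | hn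
  · simp
  · have hn' : (0 : ℝ) < n := by exact_mod_cast hn
    rw [Real.rpow_def_of_pos hn']
    have : Real.log n / L = Real.log n * (1 / L) := by ring
    rw [this]
    ring

theorem sel_D5_NL {L : ℝ} (hL : 1 ≤ L) : (NL L : ℝ) ≤ Real.exp (2 * L) := by
  have h1 : (NL L : ℝ) < Real.exp L + 1 := Nat.ceil_lt_add_one (Real.exp_pos L).le
  have h2 : (1 : ℝ) ≤ Real.exp L := Real.one_le_exp (by linarith)
  have h3 : (2 : ℝ) ≤ Real.exp L := by
    have := Real.add_one_le_exp L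
    linarith
  have h4 : Real.exp (2 * L) = Real.exp L * Real.exp L := by rw [← Real.exp_add]; ring_nf
  rw [h4]
  nlinarith

/-- the convolution square -/
theorem sel_D5_conv_le {b : ArithmeticFunction ℝ} (hb : ∀ n : ℕ, |b n| ≤ (n : ℝ) ^ 2) {N : ℕ}
    (hb0 : ∀ n : ℕ, N ≤ n → b n = 0) (A : ℕ) :
    (N ^ 2 ≤ A → (b * b) A = 0) ∧ |(b * b) A| ≤ (A : ℝ) ^ 3 := by
  constructor
  · intro hA
    rw [ArithmeticFunction.mul_apply]
    refine Finset.sum_eq_zero fun v hv => ?_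
    have hv' := (Nat.mem_divisorsAntidiagonal.1 hv).1
    by_cases h1 : N ≤ v.1
    · rw [hb0 _ h1, zero_mul]
    · have h2 : N ≤ v.2 := by
        by_contra h2
        push Not at h1 h2
        have : v.1 * v.2 < N * N := Nat.mul_lt_mul'' h1 h2
        rw [hv'] at this
        nlinarith
      rw [hb0 _ h2, mul_zero]
  · rw [ArithmeticFunction.mul_apply]
    refine (Finset.abs_sum_le_sum_abs _ _).trans ?_
    have h1 : ∀ v ∈ A.divisorsAntidiagonal, |b v.1 * b v.2| ≤ (A : ℝ) ^ 2 := by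
      intro v hv
      have hv' := (Nat.mem_divisorsAntidiagonal.1 hv).1
      rw [abs_mul]
      calc |b v.1| * |b v.2| ≤ (v.1 : ℝ) ^ 2 * (v.2 : ℝ) ^ 2 :=
            mul_le_mul (hb _) (hb _) (abs_nonneg _) (by positivity)
        _ = (A : ℝ) ^ 2 := by rw [← hv']; push_cast; ring
    refine (Finset.sum_le_card_nsmul _ _ _ h1).trans ?_
    rw [nsmul_eq_mul]
    have h2 : A.divisorsAntidiagonal.card ≤ A := by
      rw [← Nat.map_div_right_divisors, Finset.card_map]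
      exact Nat.card_divisors_le_self A
    have h3 : (A.divisorsAntidiagonal.card : ℝ) ≤ A := by exact_mod_cast h2
    calc (A.divisorsAntidiagonal.card : ℝ) * (A : ℝ) ^ 2 ≤ A * (A : ℝ) ^ 2 := by gcongr
      _ = _ := by ring

theorem sel_D5_gamma (k : ℕ) (hk : 0 < k) : ∃ G : ℝ, 0 < G ∧ ∀ σ : ℝ, 0 < σ → σ ≤ 1 →
    Real.Gamma (k + σ) * (4 * Real.pi) ^ (-(k + σ) : ℝ) ≤ G := by
  have hk' : (0 : ℝ) < k := by exact_mod_cast hk
  have hc : ContinuousOn (fun σ : ℝ => Real.Gamma (k + σ)) (Set.Icc 0 1) := by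
    intro σ hσ
    have hpos : 0 < (k : ℝ) + σ := by have := hσ.1; linarith
    have h1 : ContinuousAt Real.Gamma (k + σ) := by
      apply (Real.differentiableAt_Gamma ?_).continuousAt
      intro m
      have : (0 : ℝ) ≤ m := Nat.cast_nonneg m
      linarith
    exact (ContinuousAt.comp (f := fun σ : ℝ => (k : ℝ) + σ) h1
      (by fun_prop)).continuousWithinAt
  obtain ⟨σ₀, _, h⟩ := isCompact_Icc.exists_isMaxOn ⟨0, by simp⟩ hc
  refine ⟨Real.Gamma (k + σ₀) + 1, ?_, fun σ h0 h1 => ?_⟩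
  · have h2 : Real.Gamma (k + 1) ≤ Real.Gamma (k + σ₀) := h (by simp : (1 : ℝ) ∈ Set.Icc (0 : ℝ) 1)
    have h3 : 0 < Real.Gamma (k + 1) := Real.Gamma_pos_of_pos (by positivity)
    linarith
  · have h2 : Real.Gamma (k + σ) ≤ Real.Gamma (k + σ₀) := h ⟨h0.le, h1⟩
    have h3 : 0 < Real.Gamma (k + σ) := Real.Gamma_pos_of_pos (by positivity)
    have h4 : (4 * Real.pi) ^ (-(k + σ) : ℝ) ≤ 1 := by
      apply Real.rpow_le_one_of_one_le_of_nonpos
      · have := Real.pi_gt_three; linarith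
      · linarith
    calc Real.Gamma (k + σ) * (4 * Real.pi) ^ (-(k + σ) : ℝ) ≤ Real.Gamma (k + σ) * 1 := by gcongr
      _ ≤ _ := by linarith

theorem Diag_bounds_pr {k : ℕ} {a : ℕ → ℝ} (H : HData k a) {Θ : ℝ → ℝ} (h : Adm Θ)
    (h' : Adm (fun x => Real.exp x * Θ x)) (hΘ : ∀ x, 0 ≤ Θ x ∧ Θ x ≤ 1)
    (hΘ' : ∀ x, 1 ≤ x → Θ x = 0) :
    ∃ B₀ : ℝ, 2 ≤ B₀ ∧ ∀ B : ℝ, B₀ ≤ B → ∃ C : ℝ, 0 < C ∧ ∀ (q : ℕ) (L : ℝ), 2 ≤ q →
      L = Real.log q / B → 2 ≤ L →
      (∀ y : ℝ, 0 < y → y ≤ (q : ℝ) ^ (-(1 / 2) : ℝ) →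
        Diag k a (qz q L) q (beA k a q L Θ) (NL L) y ≤ C / L) ∧
      IntegrableOn (fun y : ℝ => Diag k a (qz q L) q (beA k a q L Θ) (NL L) y / y)
        (Set.Ici (1 / (q : ℝ))) ∧
      ∫ y in Set.Ici (1 / (q : ℝ)), Diag k a (qz q L) q (beA k a q L Θ) (NL L) y / y ≤ C := by
  obtain ⟨C1, E1, hC1, hE1, hnear⟩ := Diag_near H 12
  obtain ⟨C2, hC2, hQ⟩ := QU_le H 12
  obtain ⟨C3, hC3, hg⟩ := gen_one H h h
  obtain ⟨C4, hC4, hg'⟩ := gen_one H h h'
  obtain ⟨G, hG, hGam⟩ := sel_D5_gamma k H.kpos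
  refine ⟨max 2 (20 * (E1 + 1)), le_max_left _ _, fun B hB => ?_⟩
  have hB2 : 2 ≤ B := (le_max_left _ _).trans hB
  have hB0 : 0 < B := by linarith
  have hBE : 20 * (E1 + 1) ≤ B := (le_max_right _ _).trans hB
  obtain ⟨C5, hC5, hEq⟩ := Eq_le H (η := 1 / B) (by positivity)
  set R : ℝ := C3 * Real.exp C5 with hR
  set R' : ℝ := C4 * Real.exp C5 with hR'
  have hR0 : 0 < R := by positivity
  have hR0' : 0 < R' := by positivity
  refine ⟨C1 + C2 * (R + 1) + Real.exp B * (G * R'), by positivity,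
    fun q L hq hLq hL => ?_⟩
  have hL0 : 0 < L := by linarith
  have hL1 : 1 ≤ L := by linarith
  have hq0 : 0 < q := by omega
  have hqr : (0 : ℝ) < q := by exact_mod_cast hq0
  have hlog : Real.log q = B * L := by rw [hLq]; field_simp
  obtain ⟨hz1, hz2, hz3, hz4, hz5⟩ := qz_spec q hq0 hL0.le
  set q₀ : ℕ := qz q L with hq₀
  set b : ArithmeticFunction ℝ := beA k a q L Θ with hb
  set b' : ArithmeticFunction ℝ := beA k a q L (fun x => Real.exp x * Θ x) with hb'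
  set N : ℕ := NL L with hN
  have hble : ∀ n : ℕ, |b n| ≤ (n : ℝ) ^ 2 := sel_D5_be_le H q L hΘ
  have hb0 : ∀ n : ℕ, N ≤ n → b n = 0 := sel_D5_be_zero q hL0 hΘ'
  have hbc : ∀ n : ℕ, ¬ n.Coprime q → b n = 0 := fun n hn => sel_D5_be_cop q n hn
  have hbb : ∀ n : ℕ, b' n = b n * (n : ℝ) ^ (1 / L) := fun n => sel_D5_be_shift q n
  have hNe : (N : ℝ) ≤ Real.exp (2 * L) := sel_D5_NL hL1
  have hexp : ∀ x y : ℝ, x ≤ y → Real.exp x ≤ Real.exp y := fun x y => Real.exp_le_exp.2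
  -- sizes
  have hq₀e : (q₀ : ℝ) ≤ Real.exp (12 * L) := by
    refine hz4.trans ?_
    rw [Real.rpow_def_of_pos (by norm_num)]
    apply hexp
    have h4 : Real.log 4 ≤ 2 := by
      have h1 : Real.log 4 = 2 * Real.log 2 := by
        rw [show (4 : ℝ) = 2 ^ 2 by norm_num, Real.log_pow]; norm_num
      have := Real.log_two_lt_d9
      linarith
    nlinarith
  have hNe' : (N : ℝ) ≤ Real.exp (12 * L) := hNe.trans (hexp _ _ (by linarith))
  have hN2e : ((N ^ 2 : ℕ) : ℝ) ≤ Real.exp (12 * L) := by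
    push_cast
    calc (N : ℝ) ^ 2 ≤ Real.exp (2 * L) ^ 2 := by gcongr
      _ = Real.exp (4 * L) := by rw [← Real.exp_nat_mul]; ring_nf
      _ ≤ _ := hexp _ _ (by linarith)
  have hbe : ∀ A : ℕ, |b A| ≤ Real.exp (12 * L) := by
    intro A
    rcases le_or_gt N A with hA | hA
    · rw [hb0 A hA, abs_zero]; positivity
    · refine (hble A).trans ?_
      have hA' : (A : ℝ) ≤ N := by exact_mod_cast hA.le
      calc (A : ℝ) ^ 2 ≤ Real.exp (2 * L) ^ 2 := by gcongr; exact hA'.trans hNe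
        _ = Real.exp (4 * L) := by rw [← Real.exp_nat_mul]; ring_nf
        _ ≤ _ := hexp _ _ (by linarith)
  have hconv0 : ∀ A : ℕ, N ^ 2 ≤ A → (b * b) A = 0 := fun A => (sel_D5_conv_le hble hb0 A).1
  have hconve : ∀ A : ℕ, |(b * b) A| ≤ Real.exp (12 * L) := by
    intro A
    rcases le_or_gt (N ^ 2) A with hA | hA
    · rw [hconv0 A hA, abs_zero]; positivity
    · refine (sel_D5_conv_le hble hb0 A).2.trans ?_
      have hA' : (A : ℝ) ≤ (N : ℝ) ^ 2 := by exact_mod_cast hA.le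
      calc (A : ℝ) ^ 3 ≤ (Real.exp (2 * L) ^ 2) ^ 3 := by
            gcongr
            exact hA'.trans (by gcongr)
        _ = Real.exp (12 * L) := by rw [← pow_mul, ← Real.exp_nat_mul]; ring_nf
  -- the series
  have hE5 : Real.exp (Eq k a q₀ q) ≤ Real.exp C5 :=
    hexp _ _ (hEq q L hq0 (by rw [hLq]; exact le_of_eq (by ring)) hL0.le)
  have hser : ∀ X : ℕ, ∑ M ∈ Finset.Ico 1 X, ((lamA k a q₀ * (b * b)) M) ^ 2 *
      (M : ℝ) ^ (-1 - 1 / L) ≤ R := fun X =>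
    (hg q₀ q L X hq0 hz2 hL1).trans (by rw [hR]; gcongr)
  have hser' : ∀ X : ℕ, ∑ M ∈ Finset.Ico 1 X, ((lamA k a q₀ * (b * b')) M) ^ 2 *
      (M : ℝ) ^ (-1 - 1 / L) ≤ R' := fun X =>
    (hg' q₀ q L X hq0 hz2 hL1).trans (by rw [hR']; gcongr)
  have hQU : QU k a q₀ (b * b) (N ^ 2) ≤ C2 / L * (R + 1) :=
    hQ L q₀ (N ^ 2) (b * b) hL1 hz1 hq₀e hN2e hconve hconv0 R hser
  have hDN := hnear L q₀ q N b hL1 hz1 hq₀e hNe' hbe hb0 hbc
  -- the Mellin transform
  set σ : ℝ := 1 / L with hσ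
  have hσ0 : 0 < σ := by positivity
  have hσ1 : σ ≤ 1 := by rw [hσ, div_le_one hL0]; exact hL1
  obtain ⟨hmi, hme⟩ := Diag_mellin H q₀ q N b b' hσ0 hb0 hbc hbb
  have hbb0 : ∀ A : ℕ, N ^ 2 ≤ A → (b * b') A = 0 := by
    intro A hA
    rw [ArithmeticFunction.mul_apply]
    refine Finset.sum_eq_zero fun v hv => ?_
    have hv' := (Nat.mem_divisorsAntidiagonal.1 hv).1
    by_cases h1 : N ≤ v.1
    · rw [hb0 _ h1, zero_mul]
    · have h2 : N ≤ v.2 := by
        by_contra h2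
        push Not at h1 h2
        have : v.1 * v.2 < N * N := Nat.mul_lt_mul'' h1 h2
        rw [hv'] at this
        nlinarith
      rw [hbb, hb0 _ h2, zero_mul, mul_zero]
  obtain ⟨hds, hdi, hde⟩ := DU_mellin H q₀ (b * b') (N ^ 2) hbb0 hσ0
  have htsum : ∑' M : ℕ, ((lamA k a q₀ * (b * b')) M) ^ 2 * (M : ℝ) ^ (-1 - σ) ≤ R' := by
    refine Real.tsum_le_of_sum_range_le (fun M => by positivity) fun X => ?_
    rcases Nat.eq_zero_or_pos X with rfl | hX
    · simpa using hR0'.le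
    · rw [Finset.range_eq_Ico, Finset.sum_eq_sum_Ico_succ_bot hX]
      have : (lamA k a q₀ * (b * b')) 0 = 0 := ArithmeticFunction.map_zero
      rw [this]
      simpa using hser' X
  have hval : ∫ y in Set.Ioi (0 : ℝ), Diag k a q₀ q b N y * y ^ (σ - 1) ≤ G * R' := by
    rw [hme, hde]
    have h0 : 0 ≤ ∑' M : ℕ, ((lamA k a q₀ * (b * b')) M) ^ 2 * (M : ℝ) ^ (-1 - σ) :=
      tsum_nonneg fun M => by positivity
    exact mul_le_mul (hGam σ hσ0 hσ1) htsum h0 hG.le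
  have hnn : ∀ y : ℝ, 0 < y → 0 ≤ Diag k a q₀ q b N y := fun y hy => Diag_nonneg H q₀ q b N hy
  have hqσ : (q : ℝ) ^ σ = Real.exp B := by
    rw [Real.rpow_def_of_pos hqr, hlog, hσ]
    congr 1
    field_simp
  have hpt : ∀ y ∈ Set.Ici (1 / (q : ℝ)), Diag k a q₀ q b N y / y ≤
      Real.exp B * (Diag k a q₀ q b N y * y ^ (σ - 1)) := by
    intro y hy
    have hy0 : 0 < y := lt_of_lt_of_le (by positivity) hy
    have h1 : 1 ≤ (q : ℝ) ^ σ * y ^ σ := by
      rw [← Real.mul_rpow hqr.le hy0.le]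
      apply Real.one_le_rpow _ hσ0.le
      have : 1 / (q : ℝ) ≤ y := hy
      rw [div_le_iff₀ hqr] at this
      linarith
    rw [Real.rpow_sub_one hy0.ne', ← hqσ]
    have h2 := hnn y hy0
    have h3 : Diag k a q₀ q b N y / y * 1 ≤
        Diag k a q₀ q b N y / y * ((q : ℝ) ^ σ * y ^ σ) := by gcongr
    calc Diag k a q₀ q b N y / y = Diag k a q₀ q b N y / y * 1 := by ring
      _ ≤ _ := h3
      _ = _ := by ring
  have hsub : Set.Ici (1 / (q : ℝ)) ⊆ Set.Ioi 0 := by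
    intro y hy
    have h1 : (0 : ℝ) < 1 / (q : ℝ) := by positivity
    exact lt_of_lt_of_le h1 hy
  have hcon : ContinuousOn (fun y : ℝ => Diag k a q₀ q b N y / y) (Set.Ici (1 / (q : ℝ))) :=
    ((Diag_cont H q₀ q b N).mono hsub).div continuousOn_id fun y hy => (hsub hy).ne'
  have hbig : IntegrableOn (fun y : ℝ => Real.exp B * (Diag k a q₀ q b N y * y ^ (σ - 1)))
      (Set.Ici (1 / (q : ℝ))) := (hmi.mono_set hsub).const_mul _
  have hint : IntegrableOn (fun y : ℝ => Diag k a q₀ q b N y / y) (Set.Ici (1 / (q : ℝ))) := by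
    refine Integrable.mono' hbig (hcon.aestronglyMeasurable measurableSet_Ici) ?_
    refine (ae_restrict_iff' measurableSet_Ici).2 (Eventually.of_forall fun y hy => ?_)
    rw [Real.norm_of_nonneg (div_nonneg (hnn y (hsub hy)) (hsub hy).le)]
    exact hpt y hy
  refine ⟨fun y hy hyq => ?_, hint, ?_⟩
  · -- small y
    have hq1 : (1 : ℝ) ≤ q := by exact_mod_cast hq0
    have hy1 : y ≤ 1 := hyq.trans (Real.rpow_le_one_of_one_le_of_nonpos hq1 (by norm_num))
    have h1 := (abs_le.1 (hDN y hy hy1)).2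
    have h2 : y ^ (1 / 10 : ℝ) ≤ Real.exp (-(B * L / 20)) := by
      calc y ^ (1 / 10 : ℝ) ≤ ((q : ℝ) ^ (-(1 / 2) : ℝ)) ^ (1 / 10 : ℝ) := by gcongr
        _ = Real.exp (-(B * L / 20)) := by
            rw [← Real.rpow_mul hqr.le, Real.rpow_def_of_pos hqr, hlog]
            congr 1
            ring
    have h3 : Real.exp (E1 * L) * y ^ (1 / 10 : ℝ) ≤ 1 / L := by
      calc Real.exp (E1 * L) * y ^ (1 / 10 : ℝ)
          ≤ Real.exp (E1 * L) * Real.exp (-(B * L / 20)) := by gcongr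
        _ = Real.exp (E1 * L - B * L / 20) := by rw [← Real.exp_add]; ring_nf
        _ ≤ Real.exp (-L) := by
            apply hexp
            nlinarith
        _ ≤ 1 / L := by
            rw [Real.exp_neg, ← one_div]
            apply one_div_le_one_div_of_le hL0
            have := Real.add_one_le_exp L
            linarith
    have h4 : C1 * Real.exp (E1 * L) * y ^ (1 / 10 : ℝ) ≤ C1 / L := by
      calc C1 * Real.exp (E1 * L) * y ^ (1 / 10 : ℝ)
          = C1 * (Real.exp (E1 * L) * y ^ (1 / 10 : ℝ)) := by ring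
        _ ≤ C1 * (1 / L) := by gcongr
        _ = _ := by ring
    calc Diag k a q₀ q b N y ≤ C1 / L + C2 / L * (R + 1) := by linarith
      _ = (C1 + C2 * (R + 1)) / L := by ring
      _ ≤ (C1 + C2 * (R + 1) + Real.exp B * (G * R')) / L := by
          apply div_le_div_of_nonneg_right _ hL0.le
          have : 0 ≤ Real.exp B * (G * R') := by positivity
          linarith
  · calc ∫ y in Set.Ici (1 / (q : ℝ)), Diag k a q₀ q b N y / y
        ≤ ∫ y in Set.Ici (1 / (q : ℝ)), Real.exp B * (Diag k a q₀ q b N y * y ^ (σ - 1)) :=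
          setIntegral_mono_on hint hbig measurableSet_Ici hpt
      _ = Real.exp B * ∫ y in Set.Ici (1 / (q : ℝ)), Diag k a q₀ q b N y * y ^ (σ - 1) := by
          rw [integral_const_mul]
      _ ≤ Real.exp B * ∫ y in Set.Ioi (0 : ℝ), Diag k a q₀ q b N y * y ^ (σ - 1) := by
          refine mul_le_mul_of_nonneg_left ?_ (Real.exp_pos B).le
          refine setIntegral_mono_set hmi ?_ (Filter.Eventually.of_forall hsub)
          refine (ae_restrict_iff' measurableSet_Ioi).2 (Eventually.of_forall fun y hy => ?_)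
          have hy' : (0 : ℝ) < y := hy
          exact mul_nonneg (hnn y hy') (by positivity)
      _ ≤ Real.exp B * (G * R') := by gcongr
      _ ≤ _ := by
          have : 0 ≤ C1 + C2 * (R + 1) := by positivity
          linarith

theorem Diag_bounds : type_of% @Diag_bounds_pr := @Diag_bounds_pr

end Pool.Agent.SEL
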