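import Pool.Agent.Lib_helper68.GL2.DefsB

/-!
# Selberg's theorem for the twists of a Hecke eigenform, every modulus: definitions
(MP_77948b_nt)
-/

namespace Pool.Agent.SEL

open Complex MeasureTheory Filter Topology Pool.Agent.GL2


/-! ### Modular side -/

/-- the unit complex number `(cz+d)/|cz+d|` -/
noncomputable def uu (c d : ℤ) (z : ℂ) : ℂ :=
  ((c : ℂ) * z + d) / ((‖(c : ℂ) * z + d‖ : ℝ) : ℂ)

/-- what is used about a function `G` on the upper half plane: `G(gz)` depends only on the bottom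
row of `g` modulo `N` and, in a Lipschitz way, on the unit number `(cz+d)/|cz+d|`; and it decays
when `z` goes to the cusp. -/
structure UInv (N : ℕ) (K Λ c₀ : ℝ) (G : ℂ → ℂ) : Prop where
  cont : ContinuousOn G {z : ℂ | 0 < z.im}
  bdd : ∀ z : ℂ, 0 < z.im → ‖G z‖ ≤ K
  rep : ∃ H : ℤ → ℤ → ℂ → ℂ → ℂ,
    (∀ c d c' d' : ℤ, (N : ℤ) ∣ c' - c → (N : ℤ) ∣ d' - d → H c' d' = H c d) ∧
    (∀ g : ℤ × ℤ × ℤ × ℤ, Det1 g → ∀ z : ℂ, 1 / 2 ≤ z.im →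
      G (mob g z) = H g.2.2.1 g.2.2.2 z (uu g.2.2.1 g.2.2.2 z)) ∧
    (∀ (c d : ℤ) (z u : ℂ), 1 / 2 ≤ z.im → ‖u‖ = 1 → ‖H c d z u‖ ≤ K * Real.exp (-c₀ * z.im)) ∧
    (∀ (c d : ℤ) (z u u' : ℂ), 1 / 2 ≤ z.im → ‖u‖ = 1 → ‖u'‖ = 1 →
      ‖H c d z u - H c d z u'‖ ≤ K * Λ * ‖u - u'‖ * Real.exp (-c₀ * z.im))

/-- `(AB ρ)^{k/2} y^k f(Az) conj f(B(x + i ρ y))` -/
noncomputable def G2 (k : ℕ) (a : ℕ → ℝ) (A B : ℕ) (ρ : ℝ) (z : ℂ) : ℂ :=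
  (((((A * B : ℕ) : ℝ) * ρ) ^ ((k : ℝ) / 2) * z.im ^ k : ℝ) : ℂ) *
    (qs a (A * z) * starRingEnd ℂ (qs a (B * (z + (((ρ - 1) * z.im : ℝ) : ℂ) * I))))

/-- the correlation sum with shift `l` at the heights `Y`, `Y'`:
`(AB Y Y')^{k/2} ∑_{nA - n'B = l, (nn', m) = 1} a(n) a(n') e^{-2π(nAY + n'BY')}` -/
noncomputable def KK (k : ℕ) (a : ℕ → ℝ) (m A B : ℕ) (l : ℤ) (Y Y' : ℝ) : ℝ :=
  (((A * B : ℕ) : ℝ) * (Y * Y')) ^ ((k : ℝ) / 2) *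
    ∑' v : ℕ × ℕ, if ((v.1 * A : ℕ) : ℤ) - ((v.2 * B : ℕ) : ℤ) = l then
      am a m v.1 * am a m v.2 * Real.exp (-2 * Real.pi * (v.1 * A * Y + v.2 * B * Y')) else 0

/-- the limit of `KK m A B 0 Y Y` as `Y → 0` -/
noncomputable def D0 (k : ℕ) (a : ℕ → ℝ) (m A B : ℕ) : ℝ :=
  limUnder (𝓝[>] (0 : ℝ)) fun Y : ℝ => KK k a m A B 0 Y Y

/-! ### Arithmetic of the coefficients -/

/-- normalised coefficients `λ(n) = a(n) n^{-(k-1)/2}` -/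
noncomputable def lam (k : ℕ) (a : ℕ → ℝ) (n : ℕ) : ℝ := a n * (n : ℝ) ^ (-(((k : ℝ) - 1) / 2))

/-- coefficients of `(1 - x)^{1/2}` -/
noncomputable def hc : ℕ → ℝ
  | 0 => 1
  | (j + 1) => hc j * ((j : ℝ) - 1 / 2) / (j + 1)

/-- a root of `r + r⁻¹ = x` of modulus at least one -/
noncomputable def rt (x : ℝ) : ℂ :=
  if x ^ 2 ≤ 4 then ⟨x / 2, √(4 - x ^ 2) / 2⟩
  else if 0 < x then (((x + √(x ^ 2 - 4)) / 2 : ℝ) : ℂ) else (((x - √(x ^ 2 - 4)) / 2 : ℝ) : ℂ)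

/-- coefficients of `(1 - x w + w²)^{1/2}` -/
noncomputable def aloc (x : ℝ) (i : ℕ) : ℝ :=
  (∑ v ∈ Finset.HasAntidiagonal.antidiagonal i, (hc v.1 : ℂ) * (hc v.2 : ℂ) * rt x ^ v.1 * (rt x)⁻¹ ^ v.2).re

/-- coefficients of `(1 - x w + w²)⁻¹` -/
noncomputable def Uc (x : ℝ) : ℕ → ℝ
  | 0 => 1
  | 1 => x
  | (n + 2) => x * Uc x (n + 1) - Uc x n

/-- `λ(n)` restricted to `(n, q) = 1` -/
noncomputable def lamA (k : ℕ) (a : ℕ → ℝ) (q : ℕ) : ArithmeticFunction ℝ :=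
  ⟨fun n => if n = 0 ∨ ¬ n.Coprime q then 0 else lam k a n, by simp⟩

/-- the Dirichlet square root of the inverse of `λ`, restricted to `(n, q) = 1` -/
noncomputable def alA (k : ℕ) (a : ℕ → ℝ) (q : ℕ) : ArithmeticFunction ℝ :=
  ⟨fun n => if n = 0 ∨ ¬ n.Coprime q then 0 else
    n.factorization.prod fun p i => aloc (lam k a p) i, by simp⟩

/-- the mollifier coefficients `α(n) Θ(log n / L)` -/
noncomputable def beA (k : ℕ) (a : ℕ → ℝ) (q : ℕ) (L : ℝ) (Θ : ℝ → ℝ) : ArithmeticFunction ℝ :=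
  ⟨fun n => alA k a q n * Θ (Real.log n / L), by simp⟩

/-- the coefficients `μ_f(n) Θ(log n / L)`, `μ_f` the Dirichlet inverse of `λ` -/
noncomputable def nuA (k : ℕ) (a : ℕ → ℝ) (L : ℝ) (Θ : ℝ → ℝ) : ArithmeticFunction ℝ :=
  ⟨fun n => (alA k a 1 * alA k a 1) n * Θ (Real.log n / L), by simp⟩

/-- `∑_{n m l = M} λ(n) α(m) m^{-w₁} α(l) l^{-w₂}` -/
noncomputable def GW (k : ℕ) (a : ℕ → ℝ) (q₀ q : ℕ) (w₁ w₂ : ℂ) (M : ℕ) : ℂ :=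
  ∑ v ∈ M.divisorsAntidiagonal, (lamA k a q₀ v.1 : ℂ) * ∑ u ∈ v.2.divisorsAntidiagonal,
    ((alA k a q u.1 : ℂ) * (u.1 : ℂ) ^ (-w₁)) * ((alA k a q u.2 : ℂ) * (u.2 : ℂ) ^ (-w₂))

/-- the local version of `GW` at a prime, with `λ(p) = x`, `p^{-w_j} = z_j` -/
noncomputable def gloc (x : ℝ) (z₁ z₂ : ℂ) (i : ℕ) : ℂ :=
  ∑ v ∈ Finset.HasAntidiagonal.antidiagonal i, (Uc x v.1 : ℂ) * ∑ u ∈ Finset.HasAntidiagonal.antidiagonal v.2,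
    ((aloc x u.1 : ℂ) * z₁ ^ u.1) * ((aloc x u.2 : ℂ) * z₂ ^ u.2)

/-- `Θ` has a representation `Θ(x) = ∫ g(u) e^{(-1+iu)x} du` for `x ≥ 0` with rapidly decaying `g` -/
def Adm (Θ : ℝ → ℝ) : Prop :=
  ∃ g : ℝ → ℂ, Continuous g ∧ (∀ m : ℕ, Integrable fun u : ℝ => ‖g u‖ * (1 + |u|) ^ m) ∧
    ∀ x : ℝ, 0 ≤ x → (Θ x : ℂ) = ∫ u : ℝ, g u * cexp ((-1 + u * I) * x)

/-- `∑ λ(n)² n^{-w}` -/
noncomputable def Zf (k : ℕ) (a : ℕ → ℝ) (w : ℂ) : ℂ :=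
  ∑' n : ℕ, ((lam k a n : ℂ)) ^ 2 * (n : ℂ) ^ (-w)

/-- `∑_p λ(p)² p^{-x}` for real `x` -/
noncomputable def Sr (k : ℕ) (a : ℕ → ℝ) (x : ℝ) : ℝ :=
  ∑' p : Nat.Primes, (lam k a p) ^ 2 * ((p : ℕ) : ℝ) ^ (-x)

/-- `Re ∑_p λ(p)² p^{-w}` -/
noncomputable def Sc (k : ℕ) (a : ℕ → ℝ) (w : ℂ) : ℝ :=
  ∑' p : Nat.Primes, (lam k a p) ^ 2 * (((p : ℕ) : ℂ) ^ (-w)).re

/-- `T(σ, w) = ∑_p λ(p)² p^{-1-σ} |1 - p^{-w}|²` -/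
noncomputable def Tp (k : ℕ) (a : ℕ → ℝ) (σ : ℝ) (w : ℂ) : ℝ :=
  ∑' p : Nat.Primes, (lam k a p) ^ 2 * ((p : ℕ) : ℝ) ^ (-1 - σ) *
    ‖1 - ((p : ℕ) : ℂ) ^ (-w)‖ ^ 2

/-- the product of the primes of `q` up to `z` -/
noncomputable def qz (q : ℕ) (z : ℝ) : ℕ :=
  ∏ p ∈ q.primeFactors.filter (fun p : ℕ => (p : ℝ) ≤ z), p

/-- `∑ λ(p)²/p` over the primes of `q` which do not divide `q₀` -/
noncomputable def Eq (k : ℕ) (a : ℕ → ℝ) (q₀ q : ℕ) : ℝ :=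
  ∑ p ∈ q.primeFactors \ q₀.primeFactors, (lam k a p) ^ 2 / p

/-! ### The diagonal -/

/-- `∑_{A,B} u(A) u(B) (AB)^{-1/2} KK m A B 0 y y` -/
noncomputable def DU (k : ℕ) (a : ℕ → ℝ) (m : ℕ) (u : ArithmeticFunction ℝ) (N : ℕ) (y : ℝ) : ℝ :=
  ∑ A ∈ Finset.Ico 1 N, ∑ B ∈ Finset.Ico 1 N, u A * u B / (√A * √B) * KK k a m A B 0 y y

/-- the limit of `DU` -/
noncomputable def QU (k : ℕ) (a : ℕ → ℝ) (m : ℕ) (u : ArithmeticFunction ℝ) (N : ℕ) : ℝ :=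
  ∑ A ∈ Finset.Ico 1 N, ∑ B ∈ Finset.Ico 1 N, u A * u B / (√A * √B) * D0 k a m A B

/-- pairs `(m, l)` in `[1, N)²` of integers coprime to `q` -/
def JJ (N q : ℕ) : Finset (ℕ × ℕ) :=
  (Finset.Ico 1 N ×ˢ Finset.Ico 1 N).filter fun j => j.1.Coprime q ∧ j.2.Coprime q

/-- `β(m) β(l) / √(ml)` -/
noncomputable def cc (β : ℕ → ℝ) (j : ℕ × ℕ) : ℝ := β j.1 * β j.2 / (√(j.1) * √(j.2))

/-- the diagonal of the mean square of `fd` -/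
noncomputable def Diag (k : ℕ) (a : ℕ → ℝ) (q₀ q : ℕ) (β : ℕ → ℝ) (N : ℕ) (y : ℝ) : ℝ :=
  ∑ j ∈ JJ N q, ∑ j' ∈ JJ N q, cc β j * cc β j' *
    KK k a q₀ (j.1 * j'.2) (j'.1 * j.2) 0 (y / (j.2 * j'.2)) (y / (j.2 * j'.2))

/-! ### The Fourier densities -/

/-- the Fourier density of `Λ(1/2+it, f ⊗ χ)` (unitary normalisation), up to the shift by `log q`
already included: `2 e^{kv/2} ∑ χ(n) a(n) e^{-2π n e^v}` -/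
noncomputable def dn (k : ℕ) (a : ℕ → ℝ) {q : ℕ} (χ : DirichletCharacter ℂ q) (v : ℝ) : ℂ :=
  2 * (Real.exp (k * v / 2) : ℂ) *
    ∑' n : ℕ, χ n * ((a n * Real.exp (-2 * Real.pi * n * Real.exp v) : ℝ) : ℂ)

/-- the Fourier density of `q^{it} Λ(1/2+it) |φ(t)|²` -/
noncomputable def fd (k : ℕ) (a : ℕ → ℝ) (β : ℕ → ℝ) (N : ℕ) {q : ℕ}
    (χ : DirichletCharacter ℂ q) (v : ℝ) : ℂ :=
  ∑ m ∈ Finset.Ico 1 N, ∑ l ∈ Finset.Ico 1 N,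
    ((β m * β l / (√m * √l) : ℝ) : ℂ) * (χ m * starRingEnd ℂ (χ l)) *
      dn k a χ (v + (Real.log m - Real.log l - Real.log q))

/-- the Fourier density of `Λ(1/2+it) φ(t)²` -/
noncomputable def Dd (k : ℕ) (a : ℕ → ℝ) (β : ℕ → ℝ) (N : ℕ) {q : ℕ}
    (χ : DirichletCharacter ℂ q) (u : ℝ) : ℂ :=
  ∑ m ∈ Finset.Ico 1 N, ∑ l ∈ Finset.Ico 1 N,
    ((β m * β l / (√m * √l) : ℝ) : ℂ) * (χ m * χ l) * dn k a χ (u + (Real.log m + Real.log l))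

/-- the main term of `Dd` -/
noncomputable def gd (k : ℕ) (u : ℝ) : ℂ :=
  ((2 * Real.exp (k * u / 2) * Real.exp (-2 * Real.pi * Real.exp u) : ℝ) : ℂ)

/-- `Λ` is the completed `L`-function `Λ(s, f ⊗ χ)` in the unitary normalisation -/
def IsLam (k : ℕ) (a : ℕ → ℝ) {q : ℕ} (χ : DirichletCharacter ℂ q) (Λ : ℂ → ℂ) : Prop :=
  Differentiable ℂ Λ ∧ ∀ s : ℂ, 3 / 2 < s.re → HasSum (fun n : ℕ =>
    Gammaℝ (s + ((k : ℂ) - 1) / 2) * Gammaℝ (s + ((k : ℂ) + 1) / 2) *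
      ((a n : ℂ) * χ n / (n : ℂ) ^ (s + ((k : ℂ) - 1) / 2))) (Λ s)

/-- the mollifier length -/
noncomputable def NL (L : ℝ) : ℕ := ⌈Real.exp L⌉₊

end Pool.Agent.SEL
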