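import Pool.Agent.Lib_helper68.SEL.Defs
import Pool.Agent.Lib_helper24.ABS.FWE
import Pool.Agent.Lib_helper68.GL2.LAM2
import Pool.Agent.Lib_helper68.GL2.NORM

/-! SEL block F1 -/

namespace Pool.Agent.SEL

open Complex MeasureTheory Filter Topology Pool.Agent.GL2
open Pool.Agent.SQS (hat)
open scoped ENNReal

/-- the constant `2 q^{-k/2}` -/
noncomputable def sel_f1_c (k q : ℕ) : ℝ := 2 * Real.exp (-(k * Real.log q / 2))

theorem sel_f1_dn {k : ℕ} {a : ℕ → ℝ} {q : ℕ} [NeZero q] (χ : DirichletCharacter ℂ q) (v : ℝ) :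
    dn k a χ v = (sel_f1_c k q : ℂ) * dens k a χ (v + Real.log q) := by
  have hq : (0 : ℝ) < q := by exact_mod_cast Nat.pos_of_ne_zero (NeZero.ne q)
  unfold dn dens sel_f1_c
  have h1 : ∀ n : ℕ, -2 * Real.pi * n * Real.exp (v + Real.log q) / q =
      -2 * Real.pi * n * Real.exp v := by
    intro n
    rw [Real.exp_add, Real.exp_log hq]
    field_simp
  simp only [h1]
  rw [← mul_assoc]
  congr 1
  rw [← ofReal_mul]
  have h2 : 2 * Real.exp (-(k * Real.log q / 2)) * Real.exp (k * (v + Real.log q) / 2) =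
      2 * Real.exp (k * v / 2) := by
    rw [mul_assoc, ← Real.exp_add]
    congr 2
    ring
  rw [h2]
  push_cast
  rfl

theorem sel_f1_nice {k : ℕ} {a : ℕ → ℝ} (H : HData k a) {q : ℕ} [NeZero q]
    (χ : DirichletCharacter ℂ q) (hχ : χ.IsPrimitive) : ABS.Nice (dens k a χ) := by
  have hc := lam2_dens_cont H χ
  refine ⟨hc.measurable, ?_, ?_⟩
  · obtain ⟨C, hC⟩ := dens_decay_pr H χ hχ 1
    refine Integrable.mono' (lam2_integrable.const_mul C) hc.aestronglyMeasurable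
      (Eventually.of_forall fun u => ?_)
    have := hC u
    rwa [neg_one_mul] at this
  · obtain ⟨C, hC⟩ := dens_decay_pr H χ hχ 0
    refine ⟨C, fun u => ?_⟩
    have := hC u
    simpa using this

theorem dn_nice_pr {k : ℕ} {a : ℕ → ℝ} (H : HData k a) {q : ℕ} [NeZero q] (_hq : 2 ≤ q)
    (χ : DirichletCharacter ℂ q) (hχ : χ.IsPrimitive) : ABS.Nice (dn k a χ) := by
  have h1 := ((sel_f1_nice H χ hχ).shift (Real.log q)).const_mul (sel_f1_c k q : ℂ)
  have h2 : dn k a χ = fun u => (sel_f1_c k q : ℂ) * dens k a χ (u + Real.log q) := by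
    funext u
    exact sel_f1_dn χ u
  rw [h2]
  exact h1

theorem dn_fe_pr {k : ℕ} {a : ℕ → ℝ} (H : HData k a) {q : ℕ} [NeZero q] (_hq : 2 ≤ q)
    (χ : DirichletCharacter ℂ q) (hχ : χ.IsPrimitive) : ∃ W : ℂ, ‖W‖ = 1 ∧
      ∀ u : ℝ, dn k a χ u = W * starRingEnd ℂ (dn k a χ (-(2 * Real.log q) - u)) := by
  obtain ⟨W, hW, hfe⟩ := dens_neg_pr H χ hχ
  refine ⟨W, hW, fun u => ?_⟩
  rw [sel_f1_dn, sel_f1_dn, map_mul, conj_ofReal]
  have h1 := hfe (-(u + Real.log q))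
  rw [neg_neg] at h1
  rw [h1]
  have h2 : -(2 * Real.log q) - u + Real.log q = -(u + Real.log q) := by ring
  rw [h2]
  ring

/-- the completed `L`-function -/
noncomputable def sel_f1_L (k : ℕ) (a : ℕ → ℝ) {q : ℕ} (χ : DirichletCharacter ℂ q) (s : ℂ) : ℂ :=
  2 * (q : ℂ) ^ (-(s + ((k : ℂ) - 1) / 2)) * lam2_L k a χ (s + ((k : ℂ) - 1) / 2)

theorem sel_f1_isLam {k : ℕ} {a : ℕ → ℝ} (H : HData k a) {q : ℕ} [NeZero q]
    (χ : DirichletCharacter ℂ q) (hχ : χ.IsPrimitive) : IsLam k a χ (sel_f1_L k a χ) := by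
  have h1 : IsCompletedL k (fun n => (a n : ℂ)) χ (lam2_L k a χ) :=
    ⟨lam2_diff H χ hχ, fun s hs => lam2_hasSum H χ s hs⟩
  exact norm_from h1

theorem Lam_unique_pr {k : ℕ} {a : ℕ → ℝ} {q : ℕ} [NeZero q] {χ : DirichletCharacter ℂ q}
    {Λ Λ' : ℂ → ℂ} (h : IsLam k a χ Λ) (h' : IsLam k a χ Λ') : Λ = Λ' := by
  refine AnalyticOnNhd.eq_of_eventuallyEq (𝕜 := ℂ) (z₀ := ((2 : ℝ) : ℂ))
    (fun z _ => h.1.analyticAt z) (fun z _ => h'.1.analyticAt z) ?_
  have hopen : IsOpen {s : ℂ | (3 / 2 : ℝ) < s.re} :=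
    isOpen_lt continuous_const Complex.continuous_re
  have hmem : ((2 : ℝ) : ℂ) ∈ {s : ℂ | (3 / 2 : ℝ) < s.re} := by
    rw [Set.mem_ofPred_eq, Complex.ofReal_re]
    norm_num
  filter_upwards [hopen.mem_nhds hmem] with s hs
  exact (h.2 s hs).unique (h'.2 s hs)

theorem sel_f1_int {k : ℕ} {a : ℕ → ℝ} (H : HData k a) {q : ℕ} [NeZero q]
    (χ : DirichletCharacter ℂ q) (hχ : χ.IsPrimitive) (w : ℂ) :
    Integrable (fun u : ℝ => dens k a χ u * cexp (w * u)) := by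
  obtain ⟨C, hC⟩ := dens_decay_pr H χ hχ (|w.re| + 1)
  have hC0 : 0 ≤ C := by
    have := (norm_nonneg _).trans (hC 0)
    simpa using this
  refine Integrable.mono' (lam2_integrable.const_mul C)
    ((lam2_dens_cont H χ).mul (by fun_prop)).aestronglyMeasurable
    (Eventually.of_forall fun u => ?_)
  rw [norm_mul]
  calc ‖dens k a χ u‖ * ‖cexp (w * u)‖
      ≤ (C * Real.exp (-(|w.re| + 1) * |u|)) * Real.exp (|w.re| * |u|) :=
        mul_le_mul (hC u) (lam2_norm w u le_rfl) (norm_nonneg _) (by positivity)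
    _ = C * Real.exp (-|u|) := by
        rw [mul_assoc, ← Real.exp_add]
        congr 2
        ring

theorem sel_f1_mellin {k : ℕ} {a : ℕ → ℝ} (H : HData k a) {q : ℕ} [NeZero q]
    (χ : DirichletCharacter ℂ q) (hχ : χ.IsPrimitive) (s : ℂ) :
    Integrable (fun v : ℝ => dn k a χ v * cexp ((s - 1 / 2) * v)) ∧
      sel_f1_L k a χ s = ∫ v : ℝ, dn k a χ v * cexp ((s - 1 / 2) * v) := by
  have hq : (0 : ℝ) < q := by exact_mod_cast Nat.pos_of_ne_zero (NeZero.ne q)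
  have hq0 : (q : ℂ) ≠ 0 := by exact_mod_cast hq.ne'
  have h1 := sel_f1_int H χ hχ (s - 1 / 2)
  set f : ℝ → ℂ := fun u : ℝ => dens k a χ u * cexp ((s - 1 / 2) * u) with hf
  set K : ℂ := (sel_f1_c k q : ℂ) * cexp (-((s - 1 / 2) * (Real.log q : ℂ))) with hK
  have h2 : (fun v : ℝ => dn k a χ v * cexp ((s - 1 / 2) * v)) = fun v : ℝ =>
      K * f (v + Real.log q) := by
    funext v
    have e1 : cexp ((s - 1 / 2) * v) = cexp (-((s - 1 / 2) * (Real.log q : ℂ))) *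
        cexp ((s - 1 / 2) * ((v + Real.log q : ℝ) : ℂ)) := by
      rw [← Complex.exp_add]
      congr 1
      push_cast
      ring
    rw [sel_f1_dn, hK, hf, e1]
    simp only []
    ring
  refine ⟨?_, ?_⟩
  · rw [h2]
    exact (h1.comp_add_right (Real.log q)).const_mul K
  · rw [h2, integral_const_mul, integral_add_right_eq_self f (Real.log q)]
    unfold sel_f1_L lam2_L
    have e2 : ∀ u : ℝ, cexp ((s + ((k : ℂ) - 1) / 2 - (k : ℂ) / 2) * u) = cexp ((s - 1 / 2) * u) := by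
      intro u
      congr 1
      ring
    simp only [e2]
    congr 1
    rw [hK, sel_f1_c, Complex.cpow_def_of_ne_zero hq0]
    rw [show (q : ℂ) = ((q : ℝ) : ℂ) by push_cast; rfl, ← Complex.ofReal_log hq.le]
    rw [ofReal_mul, ofReal_exp, mul_assoc, ← Complex.exp_add]
    push_cast
    congr 2
    ring

theorem exists_Lam_pr {k : ℕ} {a : ℕ → ℝ} (H : HData k a) {q : ℕ} [NeZero q] (_hq : 2 ≤ q)
    (χ : DirichletCharacter ℂ q) (hχ : χ.IsPrimitive) : ∃ Λ : ℂ → ℂ, IsLam k a χ Λ ∧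
      ∀ t : ℝ, hat (dn k a χ) t = Λ (1 / 2 + t * I) := by
  refine ⟨sel_f1_L k a χ, sel_f1_isLam H χ hχ, fun t => ?_⟩
  rw [(sel_f1_mellin H χ hχ (1 / 2 + t * I)).2, hat]
  congr 1
  funext u
  congr 2
  ring

/-- the Mellin representation everywhere -/
theorem Lam_mellin_pr {k : ℕ} {a : ℕ → ℝ} (H : HData k a) {q : ℕ} [NeZero q] (_hq : 2 ≤ q)
    (χ : DirichletCharacter ℂ q) (hχ : χ.IsPrimitive) {Λ : ℂ → ℂ} (h : IsLam k a χ Λ) (s : ℂ) :
    Integrable (fun v : ℝ => dn k a χ v * cexp ((s - 1 / 2) * v)) ∧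
      Λ s = ∫ v : ℝ, dn k a χ v * cexp ((s - 1 / 2) * v) := by
  rw [Lam_unique_pr h (sel_f1_isLam H χ hχ)]
  exact sel_f1_mellin H χ hχ s

theorem dn_nice : type_of% @dn_nice_pr := @dn_nice_pr
theorem dn_fe : type_of% @dn_fe_pr := @dn_fe_pr
theorem exists_Lam : type_of% @exists_Lam_pr := @exists_Lam_pr
theorem Lam_unique : type_of% @Lam_unique_pr := @Lam_unique_pr
theorem Lam_mellin : type_of% @Lam_mellin_pr := @Lam_mellin_pr

end Pool.Agent.SEL
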