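import Pool.Agent.Lib_helper68.SEL.Defs
import Pool.Agent.Lib_helper68.GL2.LAM2
import Pool.Agent.Lib_helper24.ABS.Basic

/-! Block F2: the reference density -/

namespace Pool.Agent.SEL

open Complex MeasureTheory Filter Topology Pool.Agent.GL2
open Pool.Agent.SQS (hat)

theorem sel_F2_cont (k : ℕ) : Continuous (gd k) := by
  unfold gd
  fun_prop

theorem sel_F2_norm (k : ℕ) (u : ℝ) : ‖gd k u‖ =
    2 * Real.exp (k * u / 2) * Real.exp (-2 * Real.pi * Real.exp u) := by
  unfold gd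
  rw [Complex.norm_real, Real.norm_of_nonneg (by positivity)]

theorem sel_F2_le {k : ℕ} (hk : 0 < k) (u : ℝ) :
    ‖gd k u‖ ≤ 2 * (k.factorial : ℝ) * Real.exp (-(|(1 / 2) * u|)) := by
  rw [sel_F2_norm]
  have hk1 : (1 : ℝ) ≤ k := by exact_mod_cast hk
  have hf1 : (1 : ℝ) ≤ (k.factorial : ℝ) := by exact_mod_cast Nat.factorial_pos k
  rcases le_or_gt u 0 with hu | hu
  · have h1 : Real.exp (-2 * Real.pi * Real.exp u) ≤ 1 := by
      rw [Real.exp_le_one_iff]
      have := Real.pi_pos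
      have := Real.exp_pos u
      nlinarith [mul_pos Real.pi_pos (Real.exp_pos u)]
    have h2 : Real.exp (k * u / 2) ≤ Real.exp (-(|(1 / 2) * u|)) := by
      apply Real.exp_le_exp.2
      rw [abs_of_nonpos (by linarith)]
      nlinarith
    calc 2 * Real.exp (k * u / 2) * Real.exp (-2 * Real.pi * Real.exp u)
        ≤ 2 * Real.exp (-(|(1 / 2) * u|)) * 1 := by gcongr
      _ ≤ 2 * (k.factorial : ℝ) * Real.exp (-(|(1 / 2) * u|)) := by
          rw [mul_one, mul_assoc]
          have := Real.exp_pos (-(|(1 / 2) * u|))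
          nlinarith
  · have h1 : Real.exp u ^ k / (k.factorial : ℝ) ≤ Real.exp (Real.exp u) :=
      Real.pow_div_factorial_le_exp _ (Real.exp_pos u).le k
    have h2 : Real.exp (-2 * Real.pi * Real.exp u) ≤ Real.exp (-Real.exp u) := by
      apply Real.exp_le_exp.2
      have := Real.pi_gt_three
      have := Real.exp_pos u
      nlinarith
    have h3 : Real.exp (-Real.exp u) ≤ (k.factorial : ℝ) * Real.exp (-(k * u)) := by
      rw [Real.exp_neg, Real.exp_neg, Real.exp_nat_mul]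
      rw [inv_le_comm₀ (Real.exp_pos _) (by positivity), mul_inv, inv_inv]
      calc (k.factorial : ℝ)⁻¹ * Real.exp u ^ k = Real.exp u ^ k / (k.factorial : ℝ) := by
            rw [div_eq_mul_inv, mul_comm]
        _ ≤ _ := h1
    calc 2 * Real.exp (k * u / 2) * Real.exp (-2 * Real.pi * Real.exp u)
        ≤ 2 * Real.exp (k * u / 2) * ((k.factorial : ℝ) * Real.exp (-(k * u))) := by
          gcongr
          exact h2.trans h3
      _ = 2 * (k.factorial : ℝ) * Real.exp (k * u / 2 + -(k * u)) := by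
          rw [Real.exp_add]; ring
      _ ≤ 2 * (k.factorial : ℝ) * Real.exp (-(|(1 / 2) * u|)) := by
          gcongr
          rw [abs_of_pos (by linarith)]
          nlinarith

theorem sel_F2_int {k : ℕ} (hk : 0 < k) : Integrable (gd k) := by
  have h1 : Integrable (fun u : ℝ => 2 * (k.factorial : ℝ) * Real.exp (-(|(1 / 2) * u|))) :=
    (lam2_integrable.comp_mul_left' (R := 1 / 2) (by norm_num)).const_mul _
  exact h1.mono' (sel_F2_cont k).aestronglyMeasurable (Eventually.of_forall (sel_F2_le hk))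

theorem gd_nice_pr {k : ℕ} (hk : 0 < k) : ABS.Nice (gd k) := by
  refine ⟨(sel_F2_cont k).measurable, sel_F2_int hk, 2 * (k.factorial : ℝ), fun u => ?_⟩
  refine (sel_F2_le hk u).trans ?_
  have : Real.exp (-(|(1 / 2) * u|)) ≤ 1 := by
    rw [Real.exp_le_one_iff]
    have := abs_nonneg ((1 / 2) * u)
    linarith
  have h2 : (0 : ℝ) ≤ 2 * (k.factorial : ℝ) := by positivity
  nlinarith

theorem sel_F2_hat {k : ℕ} (hk : 0 < k) (t : ℝ) : hat (gd k) t =
    2 * ((1 / ((2 * Real.pi : ℝ) : ℂ)) ^ ((k : ℂ) / 2 + t * I) * Gamma ((k : ℂ) / 2 + t * I)) := by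
  have hre : 0 < ((k : ℂ) / 2 + t * I).re := by
    have : ((k : ℂ) / 2 + t * I).re = (k : ℝ) / 2 := by simp
    rw [this]
    have : (0 : ℝ) < k := by exact_mod_cast hk
    positivity
  rw [← integral_cpow_mul_exp_neg_mul_Ioi hre (r := 2 * Real.pi) (by positivity)]
  rw [← integral_const_mul]
  have himg : Real.exp '' Set.univ = Set.Ioi 0 := by
    rw [Set.image_univ, Real.range_exp]
  rw [← himg, integral_image_eq_integral_abs_deriv_smul MeasurableSet.univ
    (fun x _ => (Real.hasDerivAt_exp x).hasDerivWithinAt) Real.exp_injective.injOn,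
    setIntegral_univ]
  unfold hat
  congr 1
  funext u
  have hne : ((Real.exp u : ℝ) : ℂ) ≠ 0 := by exact_mod_cast (Real.exp_pos u).ne'
  rw [Real.abs_exp, Complex.cpow_sub _ _ hne, Complex.cpow_one, Complex.real_smul]
  have h1 : ((Real.exp u : ℝ) : ℂ) ^ ((k : ℂ) / 2 + t * I) =
      (Real.exp (k * u / 2) : ℂ) * cexp (t * u * I) := by
    rw [Complex.cpow_def_of_ne_zero hne, ← Complex.ofReal_log (Real.exp_pos u).le, Real.log_exp,
      Complex.ofReal_exp, ← Complex.exp_add]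
    congr 1
    push_cast
    ring
  rw [h1]
  have h2 : cexp (-(((2 * Real.pi : ℝ) : ℂ) * ((Real.exp u : ℝ) : ℂ))) =
      ((Real.exp (-2 * Real.pi * Real.exp u) : ℝ) : ℂ) := by
    rw [Complex.ofReal_exp]
    push_cast
    ring_nf
  rw [h2]
  unfold gd
  push_cast
  field_simp

theorem sel_F2_ne {k : ℕ} (hk : 0 < k) (t : ℝ) : hat (gd k) t ≠ 0 := by
  rw [sel_F2_hat hk]
  have hre : 0 < ((k : ℂ) / 2 + t * I).re := by
    have : ((k : ℂ) / 2 + t * I).re = (k : ℝ) / 2 := by simp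
    rw [this]
    have : (0 : ℝ) < k := by exact_mod_cast hk
    positivity
  have h1 := Complex.Gamma_ne_zero_of_re_pos hre
  have h2 : (1 / ((2 * Real.pi : ℝ) : ℂ)) ^ ((k : ℂ) / 2 + t * I) ≠ 0 := by
    rw [Ne, Complex.cpow_eq_zero_iff]
    push Not
    intro h
    exfalso
    have h3 : ((2 * Real.pi : ℝ) : ℂ) ≠ 0 := by
      have := Real.pi_pos
      exact_mod_cast (by positivity : (0 : ℝ) < 2 * Real.pi).ne'
    exact (one_div_ne_zero h3) h
  exact mul_ne_zero two_ne_zero (mul_ne_zero h2 h1)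

theorem gd_low_pr {k : ℕ} (hk : 0 < k) (T : ℝ) : ∃ m δ : ℝ, 0 < m ∧ 0 < δ ∧
    (∀ t : ℝ, |t| ≤ T → m ≤ ‖hat (gd k) t‖) ∧
    ∀ t s : ℝ, |t| ≤ T → |s| ≤ T → |t - s| < δ → ‖hat (gd k) t - hat (gd k) s‖ ≤ m / 2 := by
  have hc : Continuous (hat (gd k)) := ABS.continuous_hat (sel_F2_int hk)
  have hK : IsCompact (Set.Icc (-|T|) |T|) := isCompact_Icc
  have hne : (Set.Icc (-|T|) |T|).Nonempty := ⟨0, by simp⟩
  obtain ⟨t₀, ht₀, hmin⟩ := hK.exists_isMinOn hne (hc.norm.continuousOn)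
  have hmem : ∀ t : ℝ, |t| ≤ T → t ∈ Set.Icc (-|T|) |T| := by
    intro t ht
    have h1 := abs_le.1 (ht.trans (le_abs_self T))
    exact h1
  have hm : 0 < ‖hat (gd k) t₀‖ := norm_pos_iff.2 (sel_F2_ne hk t₀)
  have huc := hK.uniformContinuousOn_of_continuous hc.continuousOn
  rw [Metric.uniformContinuousOn_iff] at huc
  obtain ⟨δ, hδ, h⟩ := huc (‖hat (gd k) t₀‖ / 2) (by positivity)
  refine ⟨‖hat (gd k) t₀‖, δ, hm, hδ, fun t ht => hmin (hmem t ht), fun t s ht hs hts => ?_⟩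
  have := h t (hmem t ht) s (hmem s hs) (by rwa [Real.dist_eq])
  rw [dist_eq_norm] at this
  exact this.le

theorem gd_nice : type_of% @gd_nice_pr := @gd_nice_pr
theorem gd_low : type_of% @gd_low_pr := @gd_low_pr

end Pool.Agent.SEL
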