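import Pool.Agent.Lib_helper68.SEL.Defs
import Pool.Agent.Lib_helper68.SEL.F1

/-!
# Block F3A (ZER): upper bound for `Λ`
-/

namespace Pool.Agent.SEL

open Complex MeasureTheory Filter Topology Pool.Agent.GL2

theorem sel_f3a_exp_abs {a : ℝ} (ha : 0 < a) : Integrable (fun v : ℝ => Real.exp (-a * |v|)) ∧
    ∫ v : ℝ, Real.exp (-a * |v|) = 2 / a := by
  have h1 : ∫ v : ℝ, Real.exp (-a * |v|) = 2 / a := by
    rw [integral_comp_abs (f := fun v => Real.exp (-a * v)), integral_exp_mul_Ioi (by linarith)]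
    field_simp
    simp
  refine ⟨?_, h1⟩
  by_contra h
  rw [integral_undef h] at h1
  have : 0 < 2 / a := by positivity
  linarith

/-- `n^k e^{-2π n y} ≤ C n^{-2} y^{-m}` with `m = k + 2 + j` -/
theorem sel_f3a_term (k j : ℕ) {n : ℕ} (hn : 1 ≤ n) {y : ℝ} (hy : 0 < y) :
    (n : ℝ) ^ k * Real.exp (-2 * Real.pi * n * y) ≤
      ((k + 2 + j).factorial : ℝ) * (1 / (n : ℝ) ^ 2) * (1 / y ^ (k + 2 + j)) := by
  have hn' : (1 : ℝ) ≤ n := by exact_mod_cast hn
  have hn0 : (0 : ℝ) < n := by linarith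
  have h1 := Real.pow_div_factorial_le_exp (x := n * y) (by positivity) (k + 2 + j)
  have h2 : Real.exp (n * y) ≤ Real.exp (2 * Real.pi * n * y) := by
    apply Real.exp_le_exp.mpr
    have := Real.pi_gt_three
    nlinarith [mul_pos hn0 hy]
  have h3 : (n * y) ^ (k + 2 + j) ≤ ((k + 2 + j).factorial : ℝ) * Real.exp (2 * Real.pi * n * y) := by
    have h4 : 0 < ((k + 2 + j).factorial : ℝ) := by exact_mod_cast Nat.factorial_pos _
    rw [div_le_iff₀ h4] at h1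
    linarith [mul_le_mul_of_nonneg_left h2 h4.le]
  have h4 : Real.exp (-2 * Real.pi * n * y) = (Real.exp (2 * Real.pi * n * y))⁻¹ := by
    rw [← Real.exp_neg]
    congr 1
    ring
  rw [h4, ← div_eq_mul_inv, div_le_iff₀ (Real.exp_pos _)]
  have h5 : (n : ℝ) ^ k * ((n : ℝ) ^ 2 * y ^ (k + 2 + j)) ≤ (n * y) ^ (k + 2 + j) := by
    rw [mul_pow, ← mul_assoc]
    refine mul_le_mul_of_nonneg_right ?_ (by positivity)
    rw [← pow_add]
    exact pow_le_pow_right₀ hn' (by omega)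
  have h6 : (n : ℝ) ^ k * ((n : ℝ) ^ 2 * y ^ (k + 2 + j)) ≤
      ((k + 2 + j).factorial : ℝ) * Real.exp (2 * Real.pi * n * y) := h5.trans h3
  have h7 : ((k + 2 + j).factorial : ℝ) * (1 / (n : ℝ) ^ 2) * (1 / y ^ (k + 2 + j)) *
      Real.exp (2 * Real.pi * n * y) =
      (((k + 2 + j).factorial : ℝ) * Real.exp (2 * Real.pi * n * y)) /
        ((n : ℝ) ^ 2 * y ^ (k + 2 + j)) := by
    field_simp
  rw [h7, le_div_iff₀ (by positivity)]
  exact h6

theorem sel_f3a_dn {k : ℕ} {a : ℕ → ℝ} (H : HData k a) (j : ℕ) : ∃ C : ℝ, 0 < C ∧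
    ∀ (q : ℕ) (χ : DirichletCharacter ℂ q) (v : ℝ),
      ‖dn k a χ v‖ ≤ C * Real.exp (((k : ℝ) / 2 - (k + 2 + j : ℕ)) * v) := by
  obtain ⟨C₀, hC₀⟩ := H.growth
  set S : ℝ := ∑' n : ℕ, 1 / (n : ℝ) ^ 2 with hS
  have hsum : Summable (fun n : ℕ => 1 / (n : ℝ) ^ 2) :=
    Real.summable_one_div_nat_pow.mpr (by norm_num)
  have hS0 : 0 ≤ S := tsum_nonneg fun n => by positivity
  refine ⟨2 * (|C₀| * ((k + 2 + j).factorial : ℝ) * S) + 1, by positivity, fun q χ v => ?_⟩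
  have hy : 0 < Real.exp v := Real.exp_pos v
  have hterm : ∀ n : ℕ, ‖χ n * ((a n * Real.exp (-2 * Real.pi * n * Real.exp v) : ℝ) : ℂ)‖ ≤
      (|C₀| * ((k + 2 + j).factorial : ℝ) * (1 / Real.exp v ^ (k + 2 + j))) *
        (1 / (n : ℝ) ^ 2) := by
    intro n
    rcases Nat.eq_zero_or_pos n with h0 | h0
    · subst h0
      simp [H.zero]
    · have hn' : (1 : ℝ) ≤ n := by exact_mod_cast h0
      rw [norm_mul, Complex.norm_real, Real.norm_eq_abs, abs_mul, Real.abs_exp]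
      have h1 : ‖χ n‖ ≤ 1 := χ.norm_le_one _
      have h2 : |a n| ≤ |C₀| * (n : ℝ) ^ k := by
        refine (hC₀ n).trans ?_
        refine mul_le_mul (le_abs_self _) ?_ (by positivity) (abs_nonneg _)
        rw [← Real.rpow_natCast]
        exact Real.rpow_le_rpow_of_exponent_le hn' (by
          have : (0 : ℝ) ≤ k := Nat.cast_nonneg k
          linarith)
      calc ‖χ n‖ * (|a n| * Real.exp (-2 * Real.pi * n * Real.exp v))
          ≤ 1 * (|C₀| * (n : ℝ) ^ k * Real.exp (-2 * Real.pi * n * Real.exp v)) := by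
            refine mul_le_mul h1 ?_ (by positivity) zero_le_one
            exact mul_le_mul_of_nonneg_right h2 (Real.exp_pos _).le
        _ = |C₀| * ((n : ℝ) ^ k * Real.exp (-2 * Real.pi * n * Real.exp v)) := by ring
        _ ≤ |C₀| * (((k + 2 + j).factorial : ℝ) * (1 / (n : ℝ) ^ 2) *
            (1 / Real.exp v ^ (k + 2 + j))) :=
            mul_le_mul_of_nonneg_left (sel_f3a_term k j h0 hy) (abs_nonneg _)
        _ = _ := by ring
  have h1 : ‖∑' n : ℕ, χ n * ((a n * Real.exp (-2 * Real.pi * n * Real.exp v) : ℝ) : ℂ)‖ ≤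
      (|C₀| * ((k + 2 + j).factorial : ℝ) * (1 / Real.exp v ^ (k + 2 + j))) * S := by
    refine tsum_of_norm_bounded ?_ hterm
    rw [hS]
    exact hsum.hasSum.mul_left _
  unfold dn
  rw [norm_mul, norm_mul, Complex.norm_ofNat, Complex.norm_real,
    Real.norm_of_nonneg (Real.exp_pos _).le]
  have hexp : Real.exp (k * v / 2) * (1 / Real.exp v ^ (k + 2 + j)) =
      Real.exp (((k : ℝ) / 2 - (k + 2 + j : ℕ)) * v) := by
    rw [← Real.exp_nat_mul, one_div, ← Real.exp_neg, ← Real.exp_add]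
    congr 1
    push_cast
    ring
  calc 2 * Real.exp (k * v / 2) *
        ‖∑' n : ℕ, χ n * ((a n * Real.exp (-2 * Real.pi * n * Real.exp v) : ℝ) : ℂ)‖
      ≤ 2 * Real.exp (k * v / 2) *
        ((|C₀| * ((k + 2 + j).factorial : ℝ) * (1 / Real.exp v ^ (k + 2 + j))) * S) :=
        mul_le_mul_of_nonneg_left h1 (by positivity)
    _ = 2 * (|C₀| * ((k + 2 + j).factorial : ℝ) * S) *
        (Real.exp (k * v / 2) * (1 / Real.exp v ^ (k + 2 + j))) := by ring
    _ = 2 * (|C₀| * ((k + 2 + j).factorial : ℝ) * S) *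
        Real.exp (((k : ℝ) / 2 - (k + 2 + j : ℕ)) * v) := by rw [hexp]
    _ ≤ _ := by
        refine mul_le_mul_of_nonneg_right ?_ (Real.exp_pos _).le
        linarith

theorem zer_upper_pr {k : ℕ} {a : ℕ → ℝ} (H : HData k a) : ∃ C : ℝ, 0 < C ∧
    ∀ (q : ℕ) [NeZero q], 2 ≤ q → ∀ χ : DirichletCharacter ℂ q, χ.IsPrimitive →
    ∀ Λ : ℂ → ℂ, IsLam k a χ Λ → ∀ z : ℂ, |z.re| ≤ 6 → ‖Λ z‖ ≤ (q : ℝ) ^ C := by
  obtain ⟨C, hC, hdn⟩ := sel_f3a_dn H 10
  -- exponent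
  set D : ℝ := (k + 2 + 10 : ℕ) - (k : ℝ) / 2 with hD
  have hk0 : (0 : ℝ) ≤ k := Nat.cast_nonneg k
  have hD12 : 12 ≤ D := by
    rw [hD]
    push_cast
    linarith
  have hneg : (k : ℝ) / 2 - (k + 2 + 10 : ℕ) = -D := by
    rw [hD]
    ring
  obtain ⟨m, hm⟩ := exists_nat_gt (C * (2 / (D - 7)))
  have hcst : 0 < C * (2 / (D - 7)) := by
    have : 0 < D - 7 := by linarith
    positivity
  refine ⟨D + 7 + m, by positivity, fun q _ hq χ hχ Λ hΛ z hz => ?_⟩
  have hq' : (2 : ℝ) ≤ q := by exact_mod_cast hq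
  have hq0 : (0 : ℝ) < q := by linarith
  set ℓ := Real.log q with hℓ
  have hℓ0 : 0 ≤ ℓ := Real.log_nonneg (by linarith)
  obtain ⟨hint, hmel⟩ := Lam_mellin H hq χ hχ hΛ z
  obtain ⟨W, hW, hfe⟩ := dn_fe H hq χ hχ
  -- bound of `dn`
  have hb : ∀ v : ℝ, ‖dn k a χ v‖ ≤ C * Real.exp (D * ℓ) * Real.exp (-D * |v + ℓ|) := by
    intro v
    rcases le_total 0 (v + ℓ) with h | h
    · have h1 := hdn q χ v
      rw [hneg] at h1
      refine h1.trans (le_of_eq ?_)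
      rw [abs_of_nonneg h, mul_assoc, ← Real.exp_add]
      congr 2
      ring
    · have h1 := hdn q χ (-(2 * ℓ) - v)
      rw [hneg] at h1
      have h2 : ‖dn k a χ v‖ = ‖dn k a χ (-(2 * ℓ) - v)‖ := by
        rw [hfe v, norm_mul, hW, one_mul, RCLike.norm_conj]
      rw [h2]
      refine h1.trans (le_of_eq ?_)
      rw [abs_of_nonpos h, mul_assoc, ← Real.exp_add]
      congr 2
      ring
  have hz' : |(z - 1 / 2).re| ≤ 7 := by
    have h1 : (z - 1 / 2).re = z.re - 1 / 2 := by simp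
    rw [h1]
    have h2 := abs_le.mp hz
    exact abs_le.mpr ⟨by linarith, by linarith⟩
  have hpt : ∀ v : ℝ, ‖dn k a χ v * cexp ((z - 1 / 2) * v)‖ ≤
      C * Real.exp ((D + 7) * ℓ) * Real.exp (-(D - 7) * |v + ℓ|) := by
    intro v
    rw [norm_mul, Complex.norm_exp]
    have h1 : ((z - 1 / 2) * (v : ℂ)).re = (z - 1 / 2).re * v := by
      rw [Complex.re_mul_ofReal]
    rw [h1]
    have h2 : (z - 1 / 2).re * v ≤ 7 * ℓ + 7 * |v + ℓ| := by
      calc (z - 1 / 2).re * v ≤ |(z - 1 / 2).re * v| := le_abs_self _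
        _ = |(z - 1 / 2).re| * |v| := abs_mul _ _
        _ ≤ 7 * |v| := mul_le_mul_of_nonneg_right hz' (abs_nonneg _)
        _ ≤ 7 * (|v + ℓ| + ℓ) := by
            refine mul_le_mul_of_nonneg_left ?_ (by norm_num)
            have h3 := abs_sub (v + ℓ) ℓ
            rw [add_sub_cancel_right, abs_of_nonneg hℓ0] at h3
            exact h3
        _ = 7 * ℓ + 7 * |v + ℓ| := by ring
    calc ‖dn k a χ v‖ * Real.exp ((z - 1 / 2).re * v)
        ≤ (C * Real.exp (D * ℓ) * Real.exp (-D * |v + ℓ|)) * Real.exp (7 * ℓ + 7 * |v + ℓ|) :=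
          mul_le_mul (hb v) (Real.exp_le_exp.mpr h2) (Real.exp_pos _).le (by positivity)
      _ = C * (Real.exp (D * ℓ) * Real.exp (-D * |v + ℓ|) * Real.exp (7 * ℓ + 7 * |v + ℓ|)) := by
          ring
      _ = C * (Real.exp ((D + 7) * ℓ) * Real.exp (-(D - 7) * |v + ℓ|)) := by
          rw [← Real.exp_add, ← Real.exp_add, ← Real.exp_add]
          congr 2
          ring
      _ = _ := by ring
  obtain ⟨hi, hv⟩ := sel_f3a_exp_abs (a := D - 7) (by linarith)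
  have hi2 : Integrable (fun v : ℝ => C * Real.exp ((D + 7) * ℓ) *
      Real.exp (-(D - 7) * |v + ℓ|)) := (hi.comp_add_right ℓ).const_mul _
  have h1 : ‖Λ z‖ ≤ C * Real.exp ((D + 7) * ℓ) * (2 / (D - 7)) := by
    rw [hmel]
    calc ‖∫ v : ℝ, dn k a χ v * cexp ((z - 1 / 2) * v)‖
        ≤ ∫ v : ℝ, C * Real.exp ((D + 7) * ℓ) * Real.exp (-(D - 7) * |v + ℓ|) :=
          norm_integral_le_of_norm_le hi2 (Eventually.of_forall hpt)
      _ = C * Real.exp ((D + 7) * ℓ) * (2 / (D - 7)) := by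
          rw [integral_const_mul, integral_add_right_eq_self
            (fun v : ℝ => Real.exp (-(D - 7) * |v|)) ℓ, hv]
  refine h1.trans ?_
  have h2 : Real.exp ((D + 7) * ℓ) = (q : ℝ) ^ (D + 7) := by
    rw [Real.rpow_def_of_pos hq0, mul_comm]
  rw [h2, Real.rpow_add hq0 (D + 7) m]
  have h3 : C * (2 / (D - 7)) ≤ (q : ℝ) ^ (m : ℝ) := by
    rw [Real.rpow_natCast]
    calc C * (2 / (D - 7)) ≤ m := hm.le
      _ ≤ (2 : ℝ) ^ m := by exact_mod_cast (Nat.lt_two_pow_self (n := m)).le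
      _ ≤ (q : ℝ) ^ m := pow_le_pow_left₀ (by norm_num) hq' m
  calc C * (q : ℝ) ^ (D + 7) * (2 / (D - 7)) = (q : ℝ) ^ (D + 7) * (C * (2 / (D - 7))) := by ring
    _ ≤ (q : ℝ) ^ (D + 7) * (q : ℝ) ^ (m : ℝ) :=
        mul_le_mul_of_nonneg_left h3 (by positivity)

theorem zer_upper : type_of% @zer_upper_pr := @zer_upper_pr

end Pool.Agent.SEL
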