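import Pool.Agent.Lib_helper68.SEL.Defs
import Pool.Agent.Lib_helper68.SEL.F1
import Pool.Agent.Lib_helper68.SEL.Z5

/-!
# Block F3B (ZER): Euler product, no zeros for `Re s > 1`
-/

namespace Pool.Agent.SEL

open Complex MeasureTheory Filter Topology Pool.Agent.GL2

/-- lower bound of an Euler product of degree two -/
theorem sel_f3b_low {F : ℕ → ℂ} (h0 : F 0 = 0) (h1 : F 1 = 1)
    (hmul : ∀ {m n : ℕ}, m.Coprime n → F (m * n) = F m * F n) (hsum : Summable (fun n => ‖F n‖))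
    (x : ℕ → ℂ) (hx : ∀ p : ℕ, p.Prime → ∀ r : ℕ,
      F (p ^ (r + 2)) = F p * F (p ^ (r + 1)) - x p ^ 2 * F (p ^ r)) (S : ℝ)
    (hS : ∀ N : ℕ, ∑ p ∈ N.primesBelow, (‖F p‖ + ‖x p‖ ^ 2) ≤ S) :
    Real.exp (-S) ≤ ‖∑' n, F n‖ := by
  have hloc : ∀ p : ℕ, p.Prime → Real.exp (-(‖F p‖ + ‖x p‖ ^ 2)) ≤ ‖∑' e : ℕ, F (p ^ e)‖ := by
    intro p hp
    have hs : Summable (fun e : ℕ => F (p ^ e)) :=
      (hsum.comp_injective (Nat.pow_right_injective hp.one_lt)).of_norm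
    set G := ∑' e : ℕ, F (p ^ e) with hG
    have h2 : G = F (p ^ 0) + ∑' e : ℕ, F (p ^ (e + 1)) := hs.tsum_eq_zero_add
    have hs1 : Summable (fun e : ℕ => F (p ^ (e + 1))) := (summable_nat_add_iff 1).mpr hs
    have h3 : ∑' e : ℕ, F (p ^ (e + 1)) = F (p ^ (0 + 1)) + ∑' e : ℕ, F (p ^ (e + 1 + 1)) :=
      hs1.tsum_eq_zero_add
    have h4 : ∑' e : ℕ, F (p ^ (e + 1 + 1)) =
        F p * (∑' e : ℕ, F (p ^ (e + 1))) - x p ^ 2 * G := by
      rw [hG, ← tsum_mul_left, ← tsum_mul_left, ← (hs1.mul_left _).tsum_sub (hs.mul_left _)]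
      exact tsum_congr fun e => hx p hp e
    rw [pow_zero, h1] at h2
    rw [zero_add, pow_one, h4] at h3
    have h5 : G * (1 - F p + x p ^ 2) = 1 := by
      have h6 : ∑' e : ℕ, F (p ^ (e + 1)) = G - 1 := by rw [h2]; ring
      rw [h6] at h3
      linear_combination h3
    have h6 : ‖G‖ * ‖1 - F p + x p ^ 2‖ = 1 := by rw [← norm_mul, h5, norm_one]
    have h7 : ‖1 - F p + x p ^ 2‖ ≤ Real.exp (‖F p‖ + ‖x p‖ ^ 2) := by
      calc ‖1 - F p + x p ^ 2‖ ≤ ‖(1 : ℂ) - F p‖ + ‖x p ^ 2‖ := norm_add_le _ _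
        _ ≤ (‖(1 : ℂ)‖ + ‖F p‖) + ‖x p‖ ^ 2 := by
            rw [norm_pow]
            exact add_le_add (norm_sub_le _ _) le_rfl
        _ = (‖F p‖ + ‖x p‖ ^ 2) + 1 := by
            rw [norm_one]
            ring
        _ ≤ _ := Real.add_one_le_exp _
    rw [Real.exp_neg, inv_le_iff_one_le_mul₀ (Real.exp_pos _)]
    rw [← h6]
    exact mul_le_mul_of_nonneg_left h7 (norm_nonneg _)
  have hlim := (EulerProduct.eulerProduct h1 hmul hsum h0).norm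
  refine ge_of_tendsto' hlim fun N => ?_
  rw [norm_prod]
  calc Real.exp (-S) ≤ Real.exp (∑ p ∈ N.primesBelow, -(‖F p‖ + ‖x p‖ ^ 2)) := by
        apply Real.exp_le_exp.mpr
        rw [Finset.sum_neg_distrib]
        linarith [hS N]
    _ = ∏ p ∈ N.primesBelow, Real.exp (-(‖F p‖ + ‖x p‖ ^ 2)) := Real.exp_sum _ _
    _ ≤ _ := Finset.prod_le_prod (fun p _ => (Real.exp_pos _).le)
        fun p hp => hloc p (Nat.prime_of_mem_primesBelow hp)

/-- the summands of `L(s, f ⊗ χ)` -/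
noncomputable def sel_f3b_F (k : ℕ) (a : ℕ → ℝ) {q : ℕ} (χ : DirichletCharacter ℂ q) (s : ℂ)
    (n : ℕ) : ℂ := (a n : ℂ) * χ n / (n : ℂ) ^ (s + ((k : ℂ) - 1) / 2)

/-- the constant -/
noncomputable def sel_f3b_S (k : ℕ) (a : ℕ → ℝ) (σ : ℝ) : ℝ :=
  ∑' n : ℕ, ((lam k a n) ^ 2 * (n : ℝ) ^ (-σ) + 2 * (n : ℝ) ^ (-σ))

theorem sel_f3b_Ssum {k : ℕ} {a : ℕ → ℝ} (H : HData k a) {σ : ℝ} (hσ : 1 < σ) :
    Summable (fun n : ℕ => (lam k a n) ^ 2 * (n : ℝ) ^ (-σ) + 2 * (n : ℝ) ^ (-σ)) := by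
  refine (lam_sq_summable H hσ).add (Summable.mul_left 2 ?_)
  exact Real.summable_nat_rpow.mpr (by linarith)

theorem sel_f3b_norm {k : ℕ} {a : ℕ → ℝ} (H : HData k a) {q : ℕ} (χ : DirichletCharacter ℂ q)
    (s : ℂ) (n : ℕ) : ‖sel_f3b_F k a χ s n‖ ≤ |lam k a n| * (n : ℝ) ^ (-s.re) := by
  rcases Nat.eq_zero_or_pos n with h | h
  · subst h
    unfold sel_f3b_F
    rw [H.zero]
    simp only [Complex.ofReal_zero, zero_mul, zero_div, norm_zero]
    positivity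
  · have hn : (0 : ℝ) < n := by exact_mod_cast h
    unfold sel_f3b_F lam
    rw [norm_div, norm_mul, Complex.norm_real, Real.norm_eq_abs,
      Complex.norm_natCast_cpow_of_pos h, abs_mul, abs_of_pos (Real.rpow_pos_of_pos hn _)]
    have h1 : (s + ((k : ℂ) - 1) / 2).re = s.re + ((k : ℝ) - 1) / 2 := by
      simp
    rw [h1, mul_assoc, ← Real.rpow_add hn, div_eq_mul_inv, ← Real.rpow_neg hn.le]
    have h2 : -(((k : ℝ) - 1) / 2) + -s.re = -(s.re + ((k : ℝ) - 1) / 2) := by ring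
    rw [h2]
    refine mul_le_mul_of_nonneg_right ?_ (by positivity)
    exact mul_le_of_le_one_right (abs_nonneg _) (χ.norm_le_one _)

theorem sel_f3b_norm2 {k : ℕ} {a : ℕ → ℝ} (H : HData k a) {q : ℕ} (χ : DirichletCharacter ℂ q)
    (s : ℂ) (n : ℕ) : ‖sel_f3b_F k a χ s n‖ + (n : ℝ) ^ (-s.re) ≤
      (lam k a n) ^ 2 * (n : ℝ) ^ (-s.re) + 2 * (n : ℝ) ^ (-s.re) := by
  have h1 := sel_f3b_norm H χ s n
  have h2 : |lam k a n| ≤ lam k a n ^ 2 + 1 := by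
    nlinarith [sq_abs (lam k a n), sq_nonneg (|lam k a n| - 1), abs_nonneg (lam k a n)]
  have h3 : 0 ≤ (n : ℝ) ^ (-s.re) := by positivity
  have h4 := mul_le_mul_of_nonneg_right h2 h3
  linarith

theorem sel_f3b_sum {k : ℕ} {a : ℕ → ℝ} (H : HData k a) {q : ℕ} (χ : DirichletCharacter ℂ q)
    {s : ℂ} (hs : 1 < s.re) : Summable (fun n => ‖sel_f3b_F k a χ s n‖) := by
  refine Summable.of_nonneg_of_le (fun n => norm_nonneg _) (fun n => ?_) (sel_f3b_Ssum H hs)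
  have h1 := sel_f3b_norm2 H χ s n
  have h3 : 0 ≤ (n : ℝ) ^ (-s.re) := by positivity
  linarith

theorem sel_f3b_L {k : ℕ} {a : ℕ → ℝ} (H : HData k a) {q : ℕ} (χ : DirichletCharacter ℂ q)
    {s : ℂ} (hs : 1 < s.re) :
    Real.exp (-sel_f3b_S k a s.re) ≤ ‖∑' n, sel_f3b_F k a χ s n‖ := by
  have hpc : ∀ p : ℕ, p.Prime → (p : ℂ) ≠ 0 := fun p hp => by exact_mod_cast hp.ne_zero
  refine sel_f3b_low (x := fun p => χ p * (p : ℂ) ^ (-s)) ?_ ?_ ?_ (sel_f3b_sum H χ hs) ?_ _ ?_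
  · unfold sel_f3b_F
    rw [H.zero]
    simp
  · unfold sel_f3b_F
    rw [H.one]
    simp
  · intro m n h
    unfold sel_f3b_F
    rw [H.mul m n h, Nat.cast_mul, Nat.cast_mul, map_mul, Complex.natCast_mul_natCast_cpow]
    push_cast
    ring
  · intro p hp r
    have hp0 := hpc p hp
    set w := s + ((k : ℂ) - 1) / 2 with hw
    have hkk : ((p : ℝ) ^ (k - 1) : ℝ) = (p : ℝ) ^ ((k : ℝ) - 1) := by
      rw [← Real.rpow_natCast, Nat.cast_sub H.kpos]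
      simp
    have hpw : ∀ j : ℕ, ((p ^ j : ℕ) : ℂ) ^ w = ((p : ℂ) ^ w) ^ j := by
      intro j
      rw [Nat.cast_pow, ← Complex.natCast_cpow_natCast_mul, mul_comm, ← Complex.cpow_nat_mul,
        mul_comm]
    have hne : (p : ℂ) ^ w ≠ 0 := by
      rw [Complex.cpow_def_of_ne_zero hp0]
      exact Complex.exp_ne_zero _
    have hkey : (((p : ℝ) ^ (k - 1) : ℝ) : ℂ) = ((p : ℂ) ^ (-s)) ^ 2 * ((p : ℂ) ^ w) ^ 2 := by
      rw [hkk, ← mul_pow, ← Complex.cpow_add _ _ hp0, ← Complex.cpow_nat_mul]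
      rw [Complex.ofReal_cpow (Nat.cast_nonneg p)]
      push_cast
      congr 1
      rw [hw]
      ring
    unfold sel_f3b_F
    rw [← hw, H.hecke p r hp]
    rw [show (p : ℂ) ^ w = (((p ^ 1 : ℕ) : ℂ)) ^ w by rw [pow_one], hpw, hpw, hpw, hpw]
    rw [Complex.ofReal_sub, Complex.ofReal_mul, Complex.ofReal_mul, hkey]
    have hχ : ∀ j : ℕ, χ ((p ^ j : ℕ) : ZMod q) = χ (p : ZMod q) ^ j := by
      intro j
      rw [Nat.cast_pow, map_pow]
    rw [hχ, hχ, hχ]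
    field_simp
    ring
  · intro N
    have h1 : ∀ p ∈ N.primesBelow, ‖sel_f3b_F k a χ s p‖ + ‖χ p * (p : ℂ) ^ (-s)‖ ^ 2 ≤
        (lam k a p) ^ 2 * (p : ℝ) ^ (-s.re) + 2 * (p : ℝ) ^ (-s.re) := by
      intro p hp
      have hpp := Nat.prime_of_mem_primesBelow hp
      have hp0 : (0 : ℝ) < p := by exact_mod_cast hpp.pos
      have hp1 : (1 : ℝ) ≤ p := by exact_mod_cast hpp.one_lt.le
      refine le_trans ?_ (sel_f3b_norm2 H χ s p)
      refine add_le_add le_rfl ?_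
      have h2 : ‖χ p * (p : ℂ) ^ (-s)‖ ≤ (p : ℝ) ^ (-s.re) := by
        rw [norm_mul, Complex.norm_natCast_cpow_of_pos hpp.pos, Complex.neg_re]
        exact mul_le_of_le_one_left (by positivity) (χ.norm_le_one _)
      have h3 : (p : ℝ) ^ (-s.re) ≤ 1 := Real.rpow_le_one_of_one_le_of_nonpos hp1 (by linarith)
      calc ‖χ p * (p : ℂ) ^ (-s)‖ ^ 2 ≤ ((p : ℝ) ^ (-s.re)) ^ 2 :=
            pow_le_pow_left₀ (norm_nonneg _) h2 2
        _ = (p : ℝ) ^ (-s.re) * (p : ℝ) ^ (-s.re) := sq _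
        _ ≤ (p : ℝ) ^ (-s.re) * 1 := mul_le_mul_of_nonneg_left h3 (by positivity)
        _ = _ := mul_one _
    refine (Finset.sum_le_sum h1).trans ?_
    exact (sel_f3b_Ssum H hs).sum_le_tsum _ fun n _ => by positivity

/-- the gamma factor -/
noncomputable def sel_f3b_G (k : ℕ) (s : ℂ) : ℂ :=
  Gammaℝ (s + ((k : ℂ) - 1) / 2) * Gammaℝ (s + ((k : ℂ) + 1) / 2)

theorem sel_f3b_Gne {k : ℕ} (hk : 0 < k) {s : ℂ} (hs : 0 < s.re) : sel_f3b_G k s ≠ 0 := by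
  have hk1 : (1 : ℝ) ≤ k := by exact_mod_cast hk
  unfold sel_f3b_G
  refine mul_ne_zero (Gammaℝ_ne_zero_of_re_pos ?_) (Gammaℝ_ne_zero_of_re_pos ?_)
  · simp
    linarith
  · simp
    linarith

theorem sel_f3b_eq {k : ℕ} {a : ℕ → ℝ} (_H : HData k a) {q : ℕ} {χ : DirichletCharacter ℂ q}
    {Λ : ℂ → ℂ} (h : IsLam k a χ Λ) {s : ℂ} (hs : 3 / 2 < s.re) :
    Λ s = sel_f3b_G k s * ∑' n, sel_f3b_F k a χ s n := by
  have h1 := (h.2 s hs).tsum_eq
  rw [← h1, ← tsum_mul_left]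
  rfl

theorem zer_lower_pr {k : ℕ} {a : ℕ → ℝ} (H : HData k a) (T : ℝ) : ∃ c : ℝ, 0 < c ∧
    ∀ (q : ℕ) [NeZero q], 2 ≤ q → ∀ χ : DirichletCharacter ℂ q, χ.IsPrimitive →
    ∀ Λ : ℂ → ℂ, IsLam k a χ Λ → ∀ t : ℝ, |t| ≤ T → c ≤ ‖Λ (2 + t * I)‖ := by
  rcases lt_or_ge T 0 with hT | hT
  · exact ⟨1, one_pos, fun q _ _ χ _ Λ _ t ht => absurd (ht.trans_lt hT) (not_lt.mpr (abs_nonneg t))⟩
  have hre : ∀ t : ℝ, (2 + t * I : ℂ).re = 2 := fun t => by simp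
  have hne : ∀ t : ℝ, sel_f3b_G k (2 + t * I) ≠ 0 := fun t =>
    sel_f3b_Gne H.kpos (by rw [hre]; norm_num)
  have hinv : Continuous (fun t : ℝ => (sel_f3b_G k (2 + t * I))⁻¹) := by
    unfold sel_f3b_G
    simp only [mul_inv]
    refine Continuous.mul ?_ ?_
    · exact differentiable_Gammaℝ_inv.continuous.comp (by fun_prop)
    · exact differentiable_Gammaℝ_inv.continuous.comp (by fun_prop)
  obtain ⟨t₀, ht₀, hmax⟩ := isCompact_Icc.exists_isMaxOn (s := Set.Icc (-T) T)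
    ⟨0, by simp [hT]⟩ hinv.norm.continuousOn
  set m := ‖(sel_f3b_G k (2 + t₀ * I))⁻¹‖ with hm
  have hm0 : 0 < m := norm_pos_iff.mpr (inv_ne_zero (hne t₀))
  refine ⟨m⁻¹ * Real.exp (-sel_f3b_S k a 2), by positivity, fun q _ _ χ _ Λ h t ht => ?_⟩
  rw [sel_f3b_eq H h (by rw [hre]; norm_num), norm_mul]
  have h1 : m⁻¹ ≤ ‖sel_f3b_G k (2 + t * I)‖ := by
    have h2 : ‖(sel_f3b_G k (2 + t * I))⁻¹‖ ≤ m := hmax (abs_le.mp ht)
    rw [norm_inv] at h2
    have h3 : 0 < ‖sel_f3b_G k (2 + t * I)‖ := norm_pos_iff.mpr (hne t)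
    rw [inv_le_comm₀ hm0 h3]
    exact h2
  have h2 := sel_f3b_L H χ (s := 2 + t * I) (by rw [hre]; norm_num)
  rw [hre] at h2
  exact mul_le_mul h1 h2 (Real.exp_pos _).le (norm_nonneg _)

theorem sel_f3b_right {k : ℕ} {a : ℕ → ℝ} (H : HData k a) {q : ℕ} {χ : DirichletCharacter ℂ q}
    {Λ : ℂ → ℂ} (h : IsLam k a χ Λ) {ρ : ℂ} (hρ : 1 < ρ.re) : Λ ρ ≠ 0 := by
  set g : ℕ → ℂ := fun n => (lam k a n : ℂ) * χ n with hg
  have hterm : ∀ (s : ℂ) (n : ℕ), LSeries.term g s n = sel_f3b_F k a χ s n := by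
    intro s n
    rcases Nat.eq_zero_or_pos n with hn | hn
    · subst hn
      unfold sel_f3b_F
      rw [H.zero]
      simp
    · have hn0 : (0 : ℝ) < n := by exact_mod_cast hn
      have hnc : (n : ℂ) ≠ 0 := by exact_mod_cast hn.ne'
      rw [LSeries.term_of_ne_zero hn.ne']
      simp only [hg]
      unfold sel_f3b_F lam
      rw [Complex.cpow_add _ _ hnc, Complex.ofReal_mul, Complex.ofReal_cpow hn0.le]
      have h1 : ((-(((k : ℝ) - 1) / 2) : ℝ) : ℂ) = -(((k : ℂ) - 1) / 2) := by push_cast; rfl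
      rw [h1, Complex.ofReal_natCast, Complex.cpow_neg]
      have h2 : (n : ℂ) ^ (((k : ℂ) - 1) / 2) ≠ 0 := by
        rw [Complex.cpow_def_of_ne_zero hnc]
        exact Complex.exp_ne_zero _
      have h3 : (n : ℂ) ^ s ≠ 0 := by
        rw [Complex.cpow_def_of_ne_zero hnc]
        exact Complex.exp_ne_zero _
      field_simp
  have habs : LSeries.abscissaOfAbsConv g ≤ (1 : ℝ) := by
    refine LSeries.abscissaOfAbsConv_le_of_forall_lt_LSeriesSummable fun y hy => ?_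
    unfold LSeriesSummable
    have h1 : LSeries.term g (y : ℂ) = sel_f3b_F k a χ (y : ℂ) := funext (hterm _)
    rw [h1]
    exact (sel_f3b_sum H χ (s := (y : ℂ)) (by simpa using hy)).of_norm
  set D : Set ℂ := {s : ℂ | 1 < s.re} with hD
  have hDo : IsOpen D := isOpen_lt continuous_const Complex.continuous_re
  have hDc : IsPreconnected D := (convex_halfSpace_re_gt 1).isPreconnected
  have h2an : AnalyticOnNhd ℂ (LSeries g) D := by
    refine (LSeries_analyticOnNhd g).mono fun s hs => ?_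
    exact habs.trans_lt (by exact_mod_cast hs)
  have h1an : AnalyticOnNhd ℂ (fun s => Λ s * ((Gammaℝ (s + ((k : ℂ) - 1) / 2))⁻¹ *
      (Gammaℝ (s + ((k : ℂ) + 1) / 2))⁻¹)) D := by
    have : Differentiable ℂ (fun s => Λ s * ((Gammaℝ (s + ((k : ℂ) - 1) / 2))⁻¹ *
      (Gammaℝ (s + ((k : ℂ) + 1) / 2))⁻¹)) := by
      refine h.1.mul (Differentiable.mul ?_ ?_)
      · exact differentiable_Gammaℝ_inv.comp (by fun_prop)
      · exact differentiable_Gammaℝ_inv.comp (by fun_prop)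
    exact fun s _ => this.analyticAt s
  have heq : ∀ s : ℂ, 3 / 2 < s.re → Λ s * ((Gammaℝ (s + ((k : ℂ) - 1) / 2))⁻¹ *
      (Gammaℝ (s + ((k : ℂ) + 1) / 2))⁻¹) = LSeries g s := by
    intro s hs
    rw [sel_f3b_eq H h hs]
    have h1 := sel_f3b_Gne H.kpos (s := s) (by linarith)
    have h2 : LSeries g s = ∑' n, sel_f3b_F k a χ s n := by
      unfold LSeries
      exact tsum_congr fun n => hterm s n
    rw [h2, ← mul_inv]
    change sel_f3b_G k s * (∑' n, sel_f3b_F k a χ s n) * (sel_f3b_G k s)⁻¹ = _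
    rw [mul_comm, ← mul_assoc, inv_mul_cancel₀ h1, one_mul]
  have hev : (fun s => Λ s * ((Gammaℝ (s + ((k : ℂ) - 1) / 2))⁻¹ *
      (Gammaℝ (s + ((k : ℂ) + 1) / 2))⁻¹)) =ᶠ[𝓝 (2 : ℂ)] LSeries g := by
    have : {s : ℂ | 3 / 2 < s.re} ∈ 𝓝 (2 : ℂ) :=
      (isOpen_lt continuous_const Complex.continuous_re).mem_nhds (by
        show (3 / 2 : ℝ) < (2 : ℂ).re
        simp
        norm_num)
    exact Filter.eventually_of_mem this fun s hs => heq s hs
  have hall := h1an.eqOn_of_preconnected_of_eventuallyEq h2an hDc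
    (show (2 : ℂ) ∈ D by simp [hD]) hev
  intro h0
  have h3 := hall hρ
  simp only [h0, zero_mul] at h3
  have h4 := sel_f3b_L H χ hρ
  have h5 : LSeries g ρ = ∑' n, sel_f3b_F k a χ ρ n := by
    unfold LSeries
    exact tsum_congr fun n => hterm ρ n
  rw [← h5, ← h3, norm_zero] at h4
  exact absurd h4 (not_le.mpr (Real.exp_pos _))

theorem zer_strip_pr {k : ℕ} {a : ℕ → ℝ} (H : HData k a) {q : ℕ} [NeZero q] (hq : 2 ≤ q)
    (χ : DirichletCharacter ℂ q) (hχ : χ.IsPrimitive) {Λ : ℂ → ℂ} (h : IsLam k a χ Λ) (ρ : ℂ)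
    (hρ : Λ ρ = 0) : 0 ≤ ρ.re ∧ ρ.re ≤ 1 := by
  constructor
  · by_contra hneg
    push Not at hneg
    obtain ⟨W, hW, hfe⟩ := dn_fe H hq χ hχ
    set ℓ := Real.log q with hℓ
    have h1 : Λ (1 - starRingEnd ℂ ρ) = 0 := by
      rw [(Lam_mellin H hq χ hχ h _).2]
      have h2 : ∀ v : ℝ, dn k a χ v * cexp ((1 - starRingEnd ℂ ρ - 1 / 2) * v) =
          W * starRingEnd ℂ (dn k a χ (-(2 * ℓ) - v) * cexp ((1 / 2 - ρ) * v)) := by
        intro v
        rw [map_mul, ← Complex.exp_conj, map_mul, Complex.conj_ofReal, map_sub, hfe v]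
        have h3 : starRingEnd ℂ (1 / 2 : ℂ) = 1 / 2 := by
          rw [map_div₀, map_one, map_ofNat]
        rw [h3]
        have h4 : (1 - starRingEnd ℂ ρ - 1 / 2 : ℂ) = 1 / 2 - starRingEnd ℂ ρ := by ring
        rw [h4]
        ring
      simp_rw [h2]
      rw [integral_const_mul, integral_conj]
      have h3 : ∫ v : ℝ, dn k a χ (-(2 * ℓ) - v) * cexp ((1 / 2 - ρ) * v) =
          ∫ w : ℝ, dn k a χ w * cexp ((1 / 2 - ρ) * ((-(2 * ℓ) - w : ℝ) : ℂ)) := by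
        rw [← integral_sub_left_eq_self (fun w : ℝ => dn k a χ w *
          cexp ((1 / 2 - ρ) * ((-(2 * ℓ) - w : ℝ) : ℂ))) volume (-(2 * ℓ))]
        refine integral_congr_ae (Eventually.of_forall fun v => ?_)
        simp only
        congr 2
        push_cast
        ring
      have h4 : ∀ w : ℝ, dn k a χ w * cexp ((1 / 2 - ρ) * ((-(2 * ℓ) - w : ℝ) : ℂ)) =
          cexp ((1 / 2 - ρ) * (-(2 * ℓ) : ℝ)) * (dn k a χ w * cexp ((ρ - 1 / 2) * w)) := by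
        intro w
        have h5 : (1 / 2 - ρ) * ((-(2 * ℓ) - w : ℝ) : ℂ) =
            (1 / 2 - ρ) * (-(2 * ℓ) : ℝ) + (ρ - 1 / 2) * w := by
          push_cast
          ring
        rw [h5, Complex.exp_add]
        ring
      rw [h3]
      simp_rw [h4]
      rw [integral_const_mul, ← (Lam_mellin H hq χ hχ h ρ).2, hρ]
      simp
    refine sel_f3b_right H h (ρ := 1 - starRingEnd ℂ ρ) ?_ h1
    simp only [Complex.sub_re, Complex.one_re, Complex.conj_re]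
    linarith
  · by_contra hgt
    push Not at hgt
    exact sel_f3b_right H h hgt hρ

theorem zer_strip : type_of% @zer_strip_pr := @zer_strip_pr
theorem zer_lower : type_of% @zer_lower_pr := @zer_lower_pr

end Pool.Agent.SEL
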