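import Pool.Agent.Lib_helper68.SEL.Defs
import Pool.Agent.Lib_helper92.SQA.NZJ
import Pool.Agent.Lib_helper68.SEL.F3A
import Pool.Agent.Lib_helper68.SEL.F3B

/-!
# Block F3C (ZER): the number of zeros
-/

namespace Pool.Agent.SEL

open Complex MeasureTheory Filter Topology Pool.Agent.GL2
open scoped ENNReal

theorem zeros_le_pr {k : ℕ} {a : ℕ → ℝ} (H : HData k a) (T : ℝ) : ∃ C : ℝ, 0 < C ∧
    ∀ (q : ℕ) [NeZero q], 2 ≤ q → ∀ χ : DirichletCharacter ℂ q, χ.IsPrimitive →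
    ∀ Λ : ℂ → ℂ, IsLam k a χ Λ →
      ∑' ρ : {ρ : ℂ // |ρ.im| ≤ T}, (analyticOrderNatAt Λ ρ.1 : ℝ≥0∞) ≤
        ENNReal.ofReal (C * Real.log q) := by
  obtain ⟨C₁, hC₁, hup⟩ := zer_upper H
  obtain ⟨K, hK⟩ := exists_nat_ge T
  obtain ⟨c, hc, hlow⟩ := zer_lower H K
  have hlog2 : 0 < Real.log 2 := Real.log_pos (by norm_num)
  have hlog43 : 0 < Real.log (4 / 3) := Real.log_pos (by norm_num)
  set A : ℝ := (2 * K + 1) / Real.log (4 / 3) with hA
  have hA0 : 0 < A := by positivity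
  refine ⟨A * (C₁ + |Real.log c| / Real.log 2) , by positivity, fun q _ hq χ hχ Λ hΛ => ?_⟩
  have hq' : (2 : ℝ) ≤ q := by exact_mod_cast hq
  have hq0 : (0 : ℝ) < q := by linarith
  have hM : (1 : ℝ) ≤ (q : ℝ) ^ C₁ := Real.one_le_rpow (by linarith) hC₁.le
  have h1 := SQ.nzj_count Λ hΛ.1 K ((q : ℝ) ^ C₁) c hM hc (fun j hj => by
      refine hlow q hq χ hχ Λ hΛ (j : ℝ) ?_
      rw [Finset.mem_Icc] at hj
      rw [abs_le]
      exact ⟨by exact_mod_cast hj.1, by exact_mod_cast hj.2⟩)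
    (fun z hz => hup q hq χ hχ Λ hΛ z hz) (fun ρ hρ => zer_strip H hq χ hχ hΛ ρ hρ) T hK
  refine h1.trans (ENNReal.ofReal_le_ofReal ?_)
  have hlq : Real.log 2 ≤ Real.log q := Real.log_le_log (by norm_num) hq'
  have h2 : Real.log ((q : ℝ) ^ C₁ / c) ≤ (C₁ + |Real.log c| / Real.log 2) * Real.log q := by
    rw [Real.log_div (by positivity) hc.ne', Real.log_rpow hq0, add_mul]
    have h3 : |Real.log c| ≤ |Real.log c| / Real.log 2 * Real.log q := by
      rw [div_mul_eq_mul_div, le_div_iff₀ hlog2]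
      exact mul_le_mul_of_nonneg_left hlq (abs_nonneg _)
    linarith [neg_abs_le (Real.log c)]
  calc (2 * (K : ℝ) + 1) * (Real.log ((q : ℝ) ^ C₁ / c) / Real.log (4 / 3))
      = A * Real.log ((q : ℝ) ^ C₁ / c) := by
        rw [hA]
        ring
    _ ≤ A * ((C₁ + |Real.log c| / Real.log 2) * Real.log q) :=
        mul_le_mul_of_nonneg_left h2 hA0.le
    _ = _ := by ring

theorem zeros_le : type_of% @zeros_le_pr := @zeros_le_pr

end Pool.Agent.SEL
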