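import Pool.Agent.Lib_helper68.SEL.Defs
import Pool.Agent.Lib_helper68.GL2.MSB

/-!
# SEL block M1 (ORT): orthogonality (helper80)
-/

namespace Pool.Agent.SEL

open Complex MeasureTheory Filter Topology Pool.Agent.GL2

/-- the residue class of `j.1 n / j.2` -/
noncomputable def sel_m1_c (q : ℕ) (j : ℕ × ℕ) (n : ℕ) : ZMod q :=
  (j.1 : ZMod q) * n * ((j.2 : ZMod q))⁻¹

theorem sel_m1_char {q : ℕ} [NeZero q] (χ : DirichletCharacter ℂ q) {j : ℕ × ℕ}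
    (hj : j.2.Coprime q) (n : ℕ) :
    χ j.1 * starRingEnd ℂ (χ j.2) * χ n = χ (sel_m1_c q j n) := by
  have h1 : starRingEnd ℂ (χ ((j.2 : ℕ) : ZMod q)) = χ (((j.2 : ℕ) : ZMod q)⁻¹) := by
    have h2 : starRingEnd ℂ (χ ((j.2 : ℕ) : ZMod q)) = χ⁻¹ ((j.2 : ℕ) : ZMod q) :=
      MulChar.star_apply' χ _
    rw [h2, MulChar.inv_apply, ← ZMod.coe_unitOfCoprime j.2 hj, Ring.inverse_unit,
      ZMod.inv_coe_unit]
  unfold sel_m1_c
  rw [h1, map_mul, map_mul]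
  ring

theorem sel_m1_eq {q : ℕ} [NeZero q] {j j' : ℕ × ℕ} (hj : j.2.Coprime q) (hj' : j'.2.Coprime q)
    (n n' : ℕ) : sel_m1_c q j n = sel_m1_c q j' n' ↔
      (q : ℤ) ∣ ((n * (j.1 * j'.2) : ℕ) : ℤ) - ((n' * (j'.1 * j.2) : ℕ) : ℤ) := by
  rw [← ZMod.intCast_zmod_eq_zero_iff_dvd]
  push_cast
  rw [sub_eq_zero]
  have hu : IsUnit ((j.2 : ℕ) : ZMod q) := (ZMod.isUnit_iff_coprime _ _).2 hj
  have hu' : IsUnit ((j'.2 : ℕ) : ZMod q) := (ZMod.isUnit_iff_coprime _ _).2 hj'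
  have e1 : ((j.2 : ℕ) : ZMod q) * ((j.2 : ℕ) : ZMod q)⁻¹ = 1 := ZMod.coe_mul_inv_eq_one _ hj
  have e2 : ((j'.2 : ℕ) : ZMod q) * ((j'.2 : ℕ) : ZMod q)⁻¹ = 1 := ZMod.coe_mul_inv_eq_one _ hj'
  unfold sel_m1_c
  constructor
  · intro h
    have h2 := congrArg (fun t => t * (((j.2 : ℕ) : ZMod q) * ((j'.2 : ℕ) : ZMod q))) h
    calc ((n : ZMod q)) * (j.1 * j'.2) = (j.1 * n * (j.2 : ZMod q)⁻¹) * (j.2 * j'.2) := by
          rw [show (j.1 * n * (j.2 : ZMod q)⁻¹) * (j.2 * j'.2) =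
            (j.2 * (j.2 : ZMod q)⁻¹) * (n * (j.1 * j'.2)) by ring, e1, one_mul]
      _ = _ := h2
      _ = (j'.2 * (j'.2 : ZMod q)⁻¹) * (n' * (j'.1 * j.2)) := by ring
      _ = _ := by rw [e2, one_mul]
  · intro h
    calc (j.1 * n * (j.2 : ZMod q)⁻¹) = (j'.2 * (j'.2 : ZMod q)⁻¹) * (j.1 * n * (j.2 : ZMod q)⁻¹) := by
          rw [e2, one_mul]
      _ = (n * (j.1 * j'.2)) * ((j'.2 : ZMod q)⁻¹ * (j.2 : ZMod q)⁻¹) := by ring
      _ = (n' * (j'.1 * j.2)) * ((j'.2 : ZMod q)⁻¹ * (j.2 : ZMod q)⁻¹) := by rw [h]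
      _ = (j.2 * (j.2 : ZMod q)⁻¹) * (j'.1 * n' * (j'.2 : ZMod q)⁻¹) := by ring
      _ = _ := by rw [e1, one_mul]

/-- the sum over one residue class -/
noncomputable def sel_m1_f (q : ℕ) (x : ℕ × ℕ → ℕ → ℂ) (j : ℕ × ℕ) (r : ZMod q) : ℂ :=
  ∑' n : ℕ, if sel_m1_c q j n = r then x j n else 0

theorem sel_m1_norm {q : ℕ} {x : ℕ × ℕ → ℕ → ℂ} {j : ℕ × ℕ}
    (hx : Summable fun n : ℕ => ‖x j n‖) (r : ZMod q) :
    Summable fun n : ℕ => ‖if sel_m1_c q j n = r then x j n else 0‖ := by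
  refine Summable.of_nonneg_of_le (fun n => norm_nonneg _) (fun n => ?_) hx
  split_ifs
  · exact le_rfl
  · rw [norm_zero]; exact norm_nonneg _

theorem sel_m1_char_sum {q : ℕ} [NeZero q] (χ : DirichletCharacter ℂ q) {x : ℕ × ℕ → ℕ → ℂ}
    {j : ℕ × ℕ} (hj : j.2.Coprime q) (hx : Summable fun n : ℕ => ‖x j n‖) :
    χ j.1 * starRingEnd ℂ (χ j.2) * ∑' n : ℕ, χ n * x j n = ∑ r, χ r * sel_m1_f q x j r := by
  unfold sel_m1_f
  rw [← tsum_mul_left]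
  simp_rw [← tsum_mul_left]
  rw [← Summable.tsum_finsetSum (fun r _ => ((sel_m1_norm hx r).of_norm).mul_left (χ r))]
  refine tsum_congr fun n => ?_
  rw [Finset.sum_eq_single (sel_m1_c q j n)]
  · rw [if_pos rfl, ← sel_m1_char χ hj]
    ring
  · intro r _ hr
    rw [if_neg (fun h => hr h.symm), mul_zero]
  · intro h
    exact absurd (Finset.mem_univ _) h

theorem sel_m1_pair {q : ℕ} [NeZero q] {x : ℕ × ℕ → ℕ → ℂ} {j j' : ℕ × ℕ}
    (hj : j.2.Coprime q) (hj' : j'.2.Coprime q) (hx : Summable fun n : ℕ => ‖x j n‖)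
    (hx' : Summable fun n : ℕ => ‖x j' n‖) :
    ∑ r, sel_m1_f q x j r * starRingEnd ℂ (sel_m1_f q x j' r) = ∑' v : ℕ × ℕ,
      if (q : ℤ) ∣ ((v.1 * (j.1 * j'.2) : ℕ) : ℤ) - ((v.2 * (j'.1 * j.2) : ℕ) : ℤ) then
        x j v.1 * starRingEnd ℂ (x j' v.2) else 0 := by
  have hB : ∀ r : ZMod q, Summable fun n : ℕ =>
      ‖(if sel_m1_c q j' n = r then starRingEnd ℂ (x j' n) else 0 : ℂ)‖ := by
    intro r
    refine (sel_m1_norm hx' r).congr fun n => ?_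
    split_ifs
    · rw [RCLike.norm_conj]
    · rfl
  have h1 : ∀ r : ZMod q, sel_m1_f q x j r * starRingEnd ℂ (sel_m1_f q x j' r) =
      ∑' v : ℕ × ℕ, (if sel_m1_c q j v.1 = r then x j v.1 else 0) *
        (if sel_m1_c q j' v.2 = r then starRingEnd ℂ (x j' v.2) else 0) := by
    intro r
    have h2 : starRingEnd ℂ (sel_m1_f q x j' r) =
        ∑' n : ℕ, (if sel_m1_c q j' n = r then starRingEnd ℂ (x j' n) else 0 : ℂ) := by
      unfold sel_m1_f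
      rw [Complex.conj_tsum]
      refine tsum_congr fun n => ?_
      split_ifs
      · rfl
      · simp
    rw [h2]
    exact tsum_mul_tsum_of_summable_norm
      (f := fun n : ℕ => (if sel_m1_c q j n = r then x j n else 0 : ℂ))
      (g := fun n : ℕ => (if sel_m1_c q j' n = r then starRingEnd ℂ (x j' n) else 0 : ℂ))
      (sel_m1_norm hx r) (hB r)
  have h3 : ∀ r : ZMod q, Summable fun v : ℕ × ℕ =>
      (if sel_m1_c q j v.1 = r then x j v.1 else 0 : ℂ) *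
        (if sel_m1_c q j' v.2 = r then starRingEnd ℂ (x j' v.2) else 0 : ℂ) := by
    intro r
    exact summable_mul_of_summable_norm
      (f := fun n : ℕ => (if sel_m1_c q j n = r then x j n else 0 : ℂ))
      (g := fun n : ℕ => (if sel_m1_c q j' n = r then starRingEnd ℂ (x j' n) else 0 : ℂ))
      (sel_m1_norm hx r) (hB r)
  rw [Finset.sum_congr rfl fun r _ => h1 r, ← Summable.tsum_finsetSum fun r _ => h3 r]
  refine tsum_congr fun v => ?_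
  rw [Finset.sum_eq_single (sel_m1_c q j v.1)]
  · rw [if_pos rfl]
    by_cases h : sel_m1_c q j v.1 = sel_m1_c q j' v.2
    · rw [if_pos h.symm, if_pos ((sel_m1_eq hj hj' _ _).1 h)]
    · rw [if_neg (fun h' => h h'.symm), if_neg (fun h' => h ((sel_m1_eq hj hj' _ _).2 h')),
        mul_zero]
  · intro r _ hr
    rw [if_neg (fun h => hr h.symm), zero_mul]
  · intro h
    exact absurd (Finset.mem_univ _) h

/-- block M1 (ORT) -/
theorem orth_pairs_pr {q : ℕ} [NeZero q] (J : Finset (ℕ × ℕ)) (hJ : ∀ j ∈ J, j.2.Coprime q)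
    (x : ℕ × ℕ → ℕ → ℂ) (hx : ∀ j ∈ J, Summable fun n : ℕ => ‖x j n‖) :
    ∑ χ : DirichletCharacter ℂ q, ‖∑ j ∈ J, χ j.1 * starRingEnd ℂ (χ j.2) *
      ∑' n : ℕ, χ n * x j n‖ ^ 2 ≤
    q.totient * ∑ j ∈ J, ∑ j' ∈ J, (∑' v : ℕ × ℕ,
      if (q : ℤ) ∣ ((v.1 * (j.1 * j'.2) : ℕ) : ℤ) - ((v.2 * (j'.1 * j.2) : ℕ) : ℤ) then
        x j v.1 * starRingEnd ℂ (x j' v.2) else 0).re := by
  have h1 : ∀ χ : DirichletCharacter ℂ q, ∑ j ∈ J, χ j.1 * starRingEnd ℂ (χ j.2) *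
      ∑' n : ℕ, χ n * x j n = ∑ r, χ r * ∑ j ∈ J, sel_m1_f q x j r := by
    intro χ
    rw [Finset.sum_congr rfl fun j hj => sel_m1_char_sum χ (hJ j hj) (hx j hj), Finset.sum_comm]
    simp_rw [Finset.mul_sum]
  simp_rw [h1]
  refine (msb_parseval _).trans (le_of_eq ?_)
  congr 1
  have h2 : ∀ r : ZMod q, ‖∑ j ∈ J, sel_m1_f q x j r‖ ^ 2 =
      ∑ j ∈ J, ∑ j' ∈ J, (sel_m1_f q x j r * starRingEnd ℂ (sel_m1_f q x j' r)).re := by
    intro r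
    have h3 : ((‖∑ j ∈ J, sel_m1_f q x j r‖ ^ 2 : ℝ) : ℂ) =
        ∑ j ∈ J, ∑ j' ∈ J, sel_m1_f q x j r * starRingEnd ℂ (sel_m1_f q x j' r) := by
      rw [Complex.ofReal_pow, ← Complex.mul_conj', map_sum, Finset.sum_mul_sum]
    have h4 := congrArg Complex.re h3
    rw [Complex.ofReal_re, Complex.re_sum] at h4
    rw [h4]
    exact Finset.sum_congr rfl fun j _ => Complex.re_sum _ _
  rw [Finset.sum_congr rfl fun r _ => h2 r, Finset.sum_comm]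
  refine Finset.sum_congr rfl fun j hj => ?_
  rw [Finset.sum_comm]
  refine Finset.sum_congr rfl fun j' hj' => ?_
  rw [← Complex.re_sum, sel_m1_pair (hJ j hj) (hJ j' hj') (hx j hj) (hx j' hj')]

theorem orth_pairs : type_of% @orth_pairs_pr := @orth_pairs_pr

end Pool.Agent.SEL
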