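import Pool.Agent.Lib_helper68.SEL.Defs
import Pool.Agent.Lib_helper68.GL2.BAS
import Pool.Agent.Lib_helper68.SEL.K12
import Pool.Agent.Lib_helper68.SEL.M1

/-! Block M2 (MNF): mean square of `fd` (helper58). -/

namespace Pool.Agent.SEL

open Complex MeasureTheory Filter Topology Pool.Agent.GL2

/-- the logarithmic shift -/
noncomputable def sel_m2_c (q : ℕ) (j : ℕ × ℕ) : ℝ :=
  Real.log j.1 - Real.log j.2 - Real.log q

/-- the weight -/
noncomputable def sel_m2_E (k q : ℕ) (j : ℕ × ℕ) (n : ℕ) (v : ℝ) : ℝ :=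
  Real.exp (k * (v + sel_m2_c q j) / 2) *
    Real.exp (-2 * Real.pi * n * Real.exp (v + sel_m2_c q j))

theorem sel_m2_E_nonneg (k q : ℕ) (j : ℕ × ℕ) (n : ℕ) (v : ℝ) : 0 ≤ sel_m2_E k q j n v := by
  unfold sel_m2_E; positivity

theorem sel_m2_E_cont (k q : ℕ) (j : ℕ × ℕ) (n : ℕ) : Continuous (sel_m2_E k q j n) := by
  unfold sel_m2_E; fun_prop

theorem sel_m2_E_le (k q : ℕ) (j : ℕ × ℕ) (R : ℝ) : ∃ M y : ℝ, 0 ≤ M ∧ 0 < y ∧
    ∀ n : ℕ, ∀ v : ℝ, |v| ≤ R → sel_m2_E k q j n v ≤ M * Real.exp (-y * n) := by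
  refine ⟨Real.exp (k * (R + |sel_m2_c q j|) / 2),
    2 * Real.pi * Real.exp (-(R + |sel_m2_c q j|)), (Real.exp_pos _).le, by positivity, ?_⟩
  intro n v hv
  unfold sel_m2_E
  have h1 := abs_le.1 hv
  have h2 := abs_le.1 (le_refl |sel_m2_c q j|)
  apply mul_le_mul
  · apply Real.exp_le_exp.2
    have : (k : ℝ) * (v + sel_m2_c q j) ≤ k * (R + |sel_m2_c q j|) := by
      apply mul_le_mul_of_nonneg_left _ (Nat.cast_nonneg k)
      linarith [h1.2, h2.2]
    linarith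
  · apply Real.exp_le_exp.2
    have h3 : Real.exp (-(R + |sel_m2_c q j|)) ≤ Real.exp (v + sel_m2_c q j) := by
      apply Real.exp_le_exp.2; linarith [h1.1, h2.1]
    have h4 : (0 : ℝ) ≤ 2 * Real.pi * n := by positivity
    nlinarith [mul_le_mul_of_nonneg_left h3 h4]
  · exact (Real.exp_pos _).le
  · exact (Real.exp_pos _).le

section
variable {W : ℝ → ℂ} {S : Set ℝ}

theorem sel_m2_W_int (hW : Measurable W) (hWb : ∃ B, ∀ v, ‖W v‖ ≤ B)
    (hSb : ∃ R : ℝ, ∀ v ∈ S, |v| ≤ R) (hWS : ∀ v, v ∉ S → W v = 0) {f : ℝ → ℝ}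
    (hf : Continuous f) : Integrable fun v => (f v : ℂ) * W v := by
  obtain ⟨B, hB⟩ := hWb
  obtain ⟨R, hR⟩ := hSb
  have h1 : IntegrableOn (fun v => (f v : ℂ) * W v) (Set.Icc (-R) R) := by
    have h2 : IntegrableOn (fun v => (f v : ℂ)) (Set.Icc (-R) R) :=
      (Complex.continuous_ofReal.comp hf).continuousOn.integrableOn_Icc
    exact Integrable.mul_bdd (c := B) h2 hW.aestronglyMeasurable
      (Eventually.of_forall fun v => hB v)
  refine (integrableOn_iff_integrable_of_support_subset ?_).1 h1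
  intro v hv
  rw [Function.mem_support] at hv
  have hvS : v ∈ S := by
    by_contra hn
    exact hv (by rw [hWS v hn, mul_zero])
  exact abs_le.1 (hR v hvS)

theorem sel_m2_W1 (hW : Measurable W) (hWb : ∃ B, ∀ v, ‖W v‖ ≤ B)
    (hSb : ∃ R : ℝ, ∀ v ∈ S, |v| ≤ R) (hWS : ∀ v, v ∉ S → W v = 0) : Integrable W := by
  have := sel_m2_W_int hW hWb hSb hWS (f := fun _ => 1) continuous_const
  simpa using this

theorem sel_m2_EW (hSb : ∃ R : ℝ, ∀ v ∈ S, |v| ≤ R) (hWS : ∀ v, v ∉ S → W v = 0)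
    (k q : ℕ) (j : ℕ × ℕ) : ∃ M y : ℝ, 0 ≤ M ∧ 0 < y ∧ ∀ (n : ℕ) (v : ℝ),
      ‖(sel_m2_E k q j n v : ℂ) * W v‖ ≤ M * Real.exp (-y * n) * ‖W v‖ := by
  obtain ⟨R, hR⟩ := hSb
  obtain ⟨M, y, hM, hy, hE⟩ := sel_m2_E_le k q j R
  refine ⟨M, y, hM, hy, fun n v => ?_⟩
  simp only [norm_mul, Complex.norm_real, Real.norm_eq_abs,
    abs_of_nonneg (sel_m2_E_nonneg k q j n v)]
  by_cases hv : v ∈ S
  · exact mul_le_mul_of_nonneg_right (hE n v (hR v hv)) (norm_nonneg _)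
  · rw [hWS v hv]; simp

theorem sel_m2_int_tsum {F : ℕ → ℝ → ℂ} (hFm : ∀ n, Measurable (F n)) {u : ℕ → ℝ}
    (hu : Summable u) {g : ℝ → ℝ} (hg : Integrable g) (hb : ∀ n v, ‖F n v‖ ≤ u n * g v) :
    Integrable (fun v => ∑' n, F n v) := by
  have hs : ∀ v, Summable fun n => ‖F n v‖ := fun v =>
    Summable.of_nonneg_of_le (fun n => norm_nonneg _) (fun n => hb n v) (hu.mul_right (g v))
  have hm : Measurable fun v => ∑' n, F n v := by
    refine measurable_of_tendsto_metrizable (f := fun N v => ∑ n ∈ Finset.range N, F n v)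
      (fun N => Finset.measurable_sum _ fun n _ => hFm n) ?_
    rw [tendsto_pi_nhds]
    intro v
    exact (hs v).of_norm.hasSum.tendsto_sum_nat
  refine Integrable.mono' (hg.const_mul (∑' n, u n)) hm.aestronglyMeasurable ?_
  refine Eventually.of_forall fun v => ?_
  calc ‖∑' n, F n v‖ ≤ ∑' n, ‖F n v‖ := norm_tsum_le_tsum_norm (hs v)
    _ ≤ ∑' n, u n * g v := (hs v).tsum_le_tsum (fun n => hb n v) (hu.mul_right (g v))
    _ = (∑' n, u n) * g v := tsum_mul_right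

theorem sel_m2_int_le (hW : Measurable W) (hWb : ∃ B, ∀ v, ‖W v‖ ≤ B)
    (hSb : ∃ R : ℝ, ∀ v ∈ S, |v| ≤ R) (hWS : ∀ v, v ∉ S → W v = 0) (k q : ℕ) (j : ℕ × ℕ) :
    ∃ M y : ℝ, 0 ≤ M ∧ 0 < y ∧ ∀ n : ℕ,
      ∫ v, ‖(sel_m2_E k q j n v : ℂ) * W v‖ ≤ M * Real.exp (-y * n) := by
  obtain ⟨R, hR⟩ := hSb
  obtain ⟨M, y, hM, hy, hE⟩ := sel_m2_E_le k q j R
  refine ⟨M * ∫ v, ‖W v‖, y, mul_nonneg hM (integral_nonneg fun _ => norm_nonneg _), hy, ?_⟩
  intro n
  have hWi : Integrable W := by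
    have := sel_m2_W_int hW hWb ⟨R, hR⟩ hWS (f := fun _ => 1) continuous_const
    simpa using this
  calc ∫ v, ‖(sel_m2_E k q j n v : ℂ) * W v‖ ≤ ∫ v, (M * Real.exp (-y * n)) * ‖W v‖ := by
        apply integral_mono
          (sel_m2_W_int hW hWb ⟨R, hR⟩ hWS (sel_m2_E_cont k q j n)).norm (hWi.norm.const_mul _)
        intro v
        simp only [norm_mul, Complex.norm_real, Real.norm_eq_abs,
          abs_of_nonneg (sel_m2_E_nonneg k q j n v)]
        by_cases hv : v ∈ S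
        · exact mul_le_mul_of_nonneg_right (hE n v (hR v hv)) (norm_nonneg _)
        · rw [hWS v hv]; simp
    _ = _ := by rw [integral_const_mul]; ring

/-- the coefficients of the Dirichlet series -/
noncomputable def sel_m2_x (k : ℕ) (a : ℕ → ℝ) (q₀ q : ℕ) (β : ℕ → ℝ) (W : ℝ → ℂ)
    (j : ℕ × ℕ) (n : ℕ) : ℂ :=
  2 * (cc β j : ℂ) * ((am a q₀ n : ℂ) * ∫ v, (sel_m2_E k q j n v : ℂ) * W v)

theorem sel_m2_am_le (a : ℕ → ℝ) (m n : ℕ) : |am a m n| ≤ |a n| := by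
  unfold am
  split_ifs
  · exact le_rfl
  · simp

theorem sel_m2_x_summable {k : ℕ} {a : ℕ → ℝ} (H : HData k a) (q₀ q : ℕ) (β : ℕ → ℝ)
    (hW : Measurable W) (hWb : ∃ B, ∀ v, ‖W v‖ ≤ B)
    (hSb : ∃ R : ℝ, ∀ v ∈ S, |v| ≤ R) (hWS : ∀ v, v ∉ S → W v = 0) (j : ℕ × ℕ) :
    Summable fun n => ‖sel_m2_x k a q₀ q β W j n‖ := by
  obtain ⟨M, y, hM, hy, hE⟩ := sel_m2_int_le hW hWb hSb hWS k q j
  have h1 := (summable_a_pr H hy).mul_left (2 * |cc β j| * M)
  refine Summable.of_nonneg_of_le (fun n => norm_nonneg _) (fun n => ?_) h1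
  unfold sel_m2_x
  rw [norm_mul, norm_mul, norm_mul, Complex.norm_real, Complex.norm_real, Real.norm_eq_abs,
    Real.norm_eq_abs, Complex.norm_ofNat]
  have h2 : ‖∫ v, (sel_m2_E k q j n v : ℂ) * W v‖ ≤ M * Real.exp (-y * n) :=
    (norm_integral_le_integral_norm _).trans (hE n)
  calc 2 * |cc β j| * (|am a q₀ n| * ‖∫ v, (sel_m2_E k q j n v : ℂ) * W v‖)
      ≤ 2 * |cc β j| * (|a n| * (M * Real.exp (-y * n))) := by
        refine mul_le_mul_of_nonneg_left ?_ (by positivity)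
        exact mul_le_mul (sel_m2_am_le a q₀ n) h2 (norm_nonneg _) (abs_nonneg _)
    _ = _ := by ring

theorem sel_m2_dn {k : ℕ} {a : ℕ → ℝ} (H : HData k a) {q q₀ : ℕ} (hq₀ : q₀ ∣ q) (β : ℕ → ℝ)
    (hW : Measurable W) (hWb : ∃ B, ∀ v, ‖W v‖ ≤ B)
    (hSb : ∃ R : ℝ, ∀ v ∈ S, |v| ≤ R) (hWS : ∀ v, v ∉ S → W v = 0) (j : ℕ × ℕ)
    (χ : DirichletCharacter ℂ q) :
    Integrable (fun v => dn k a χ (v + sel_m2_c q j) * W v) ∧
    (cc β j : ℂ) * ∫ v, dn k a χ (v + sel_m2_c q j) * W v =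
      ∑' n : ℕ, χ n * sel_m2_x k a q₀ q β W j n := by
  set F : ℕ → ℝ → ℂ := fun n v => (2 * (χ n * (a n : ℂ))) * ((sel_m2_E k q j n v : ℂ) * W v)
    with hF
  have hFi : ∀ n, Integrable (F n) := fun n =>
    (sel_m2_W_int hW hWb hSb hWS (sel_m2_E_cont k q j n)).const_mul _
  obtain ⟨M, y, hM, hy, hE⟩ := sel_m2_int_le hW hWb hSb hWS k q j
  have hFs : Summable fun n => ∫ v, ‖F n v‖ := by
    have h1 := (summable_a_pr H hy).mul_left (2 * M)
    refine Summable.of_nonneg_of_le (fun n => integral_nonneg fun _ => norm_nonneg _)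
      (fun n => ?_) h1
    have h2 : ∫ v, ‖F n v‖ = ‖2 * (χ n * (a n : ℂ))‖ *
        ∫ v, ‖(sel_m2_E k q j n v : ℂ) * W v‖ := by
      rw [← integral_const_mul]
      congr 1
      ext v
      simp only [hF]
      rw [norm_mul]
    rw [h2]
    have h3 : ‖2 * (χ n * (a n : ℂ))‖ ≤ 2 * |a n| := by
      rw [norm_mul, norm_mul, Complex.norm_real, Real.norm_eq_abs, Complex.norm_ofNat]
      have := DirichletCharacter.norm_le_one χ n
      nlinarith [abs_nonneg (a n)]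
    calc _ ≤ 2 * |a n| * (M * Real.exp (-y * n)) :=
          mul_le_mul h3 (hE n) (integral_nonneg fun _ => norm_nonneg _) (by positivity)
      _ = _ := by ring
  have hpt : ∀ v, dn k a χ (v + sel_m2_c q j) * W v = ∑' n, F n v := by
    intro v
    unfold dn
    rw [← tsum_mul_left, ← tsum_mul_right]
    refine tsum_congr fun n => ?_
    simp only [hF, sel_m2_E]
    push_cast
    ring
  have hint := hasSum_integral_of_summable_integral_norm hFi hFs
  have hInt : Integrable (fun v => dn k a χ (v + sel_m2_c q j) * W v) := by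
    have h5 : (fun v => dn k a χ (v + sel_m2_c q j) * W v) = fun v => ∑' n, F n v :=
      funext hpt
    rw [h5]
    obtain ⟨M', y', hM', hy', hE'⟩ := sel_m2_EW (W := W) hSb hWS k q j
    refine sel_m2_int_tsum (u := fun n => 2 * M' * (|a n| * Real.exp (-y' * n)))
      (g := fun v => ‖W v‖) (fun n => ?_) ((summable_a_pr H hy').mul_left (2 * M'))
      (sel_m2_W1 hW hWb hSb hWS).norm (fun n v => ?_)
    · exact measurable_const.mul ((Complex.continuous_ofReal.comp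
        (sel_m2_E_cont k q j n)).measurable.mul hW)
    · simp only [hF]
      rw [norm_mul]
      have h3 : ‖2 * (χ n * (a n : ℂ))‖ ≤ 2 * |a n| := by
        rw [norm_mul, norm_mul, Complex.norm_real, Real.norm_eq_abs, Complex.norm_ofNat]
        have := DirichletCharacter.norm_le_one χ n
        nlinarith [abs_nonneg (a n)]
      calc _ ≤ 2 * |a n| * (M' * Real.exp (-y' * n) * ‖W v‖) :=
            mul_le_mul h3 (hE' n v) (norm_nonneg _) (by positivity)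
        _ = _ := by ring
  refine ⟨hInt, ?_⟩
  have h5 : (fun v => dn k a χ (v + sel_m2_c q j) * W v) = fun v => ∑' n, F n v := funext hpt
  rw [h5, ← hint.tsum_eq, ← tsum_mul_left]
  congr 1
  ext n
  simp only [hF]
  rw [integral_const_mul]
  unfold sel_m2_x
  have h6 : χ n * (am a q₀ n : ℂ) = χ n * (a n : ℂ) := by
    by_cases hn : n.Coprime q
    · rw [am, if_pos (Nat.Coprime.coprime_dvd_right hq₀ hn)]
    · have : χ n = 0 := by
        apply MulChar.map_nonunit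
        rw [ZMod.isUnit_iff_coprime]; exact hn
      rw [this, zero_mul, zero_mul]
  calc (cc β j : ℂ) * (2 * (χ n * (a n : ℂ)) * ∫ v, (sel_m2_E k q j n v : ℂ) * W v)
      = 2 * (cc β j : ℂ) * ((χ n * (a n : ℂ)) * ∫ v, (sel_m2_E k q j n v : ℂ) * W v) := by ring
    _ = 2 * (cc β j : ℂ) * ((χ n * (am a q₀ n : ℂ)) *
        ∫ v, (sel_m2_E k q j n v : ℂ) * W v) := by rw [h6]
    _ = _ := by ring

theorem sel_m2_fd {k : ℕ} {a : ℕ → ℝ} (H : HData k a) {q q₀ : ℕ} (hq₀ : q₀ ∣ q) (β : ℕ → ℝ)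
    (N : ℕ) (hW : Measurable W) (hWb : ∃ B, ∀ v, ‖W v‖ ≤ B)
    (hSb : ∃ R : ℝ, ∀ v ∈ S, |v| ≤ R) (hWS : ∀ v, v ∉ S → W v = 0)
    (χ : DirichletCharacter ℂ q) :
    ∫ v, fd k a β N χ v * W v = ∑ j ∈ JJ N q, χ j.1 * starRingEnd ℂ (χ j.2) *
      ∑' n : ℕ, χ n * sel_m2_x k a q₀ q β W j n := by
  have h1 : ∀ v, fd k a β N χ v * W v = ∑ j ∈ JJ N q,
      (χ j.1 * starRingEnd ℂ (χ j.2)) * ((cc β j : ℂ) *
        (dn k a χ (v + sel_m2_c q j) * W v)) := by
    intro v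
    unfold fd
    rw [← Finset.sum_product', Finset.sum_mul]
    symm
    unfold JJ
    apply Finset.sum_subset_zero_on_sdiff (Finset.filter_subset _ _)
    · intro j hj
      rw [Finset.mem_sdiff, Finset.mem_filter] at hj
      have hz : χ j.1 = 0 ∨ χ j.2 = 0 := by
        by_contra hn
        push Not at hn
        apply hj.2
        refine ⟨hj.1, ?_, ?_⟩
        · by_contra hc
          apply hn.1
          apply MulChar.map_nonunit
          rw [ZMod.isUnit_iff_coprime]; exact hc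
        · by_contra hc
          apply hn.2
          apply MulChar.map_nonunit
          rw [ZMod.isUnit_iff_coprime]; exact hc
      rcases hz with hz | hz
      · rw [hz]; simp
      · rw [hz]; simp
    · intro j hj
      unfold cc sel_m2_c
      push_cast
      ring
  have h2 : (fun v => fd k a β N χ v * W v) = fun v => ∑ j ∈ JJ N q,
      (χ j.1 * starRingEnd ℂ (χ j.2)) * ((cc β j : ℂ) *
        (dn k a χ (v + sel_m2_c q j) * W v)) := funext h1
  rw [h2, integral_finsetSum]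
  · apply Finset.sum_congr rfl
    intro j hj
    rw [integral_const_mul, integral_const_mul,
      (sel_m2_dn H hq₀ β hW hWb hSb hWS j χ).2]
  · intro j hj
    exact (((sel_m2_dn H hq₀ β hW hWb hSb hWS j χ).1).const_mul _).const_mul _


end

/-! reindexing by the shift -/

theorem sel_m2_fiber {q : ℕ} (hq : 0 < q) (d : ℕ × ℕ → ℤ) {f : ℕ × ℕ → ℂ}
    (hf : Summable fun v => ‖f v‖) :
    ∑' v : ℕ × ℕ, (if (q : ℤ) ∣ d v then f v else 0) =
      ∑' h : ℤ, ∑' v : ℕ × ℕ, if d v = h * q then f v else 0 := by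
  have hq0 : (q : ℤ) ≠ 0 := by exact_mod_cast hq.ne'
  set g : ℕ × ℕ → ℤ → ℂ := fun v h => if d v = h * q then f v else 0 with hg
  have huniq : ∀ v : ℕ × ℕ, ∀ h₀ : ℤ, d v = h₀ * q → ∀ h : ℤ, h ≠ h₀ → g v h = 0 := by
    intro v h₀ h0 h hne
    simp only [hg]
    rw [if_neg]
    intro h1
    exact hne (mul_right_cancel₀ hq0 (h1.symm.trans h0))
  have hnone : ∀ v : ℕ × ℕ, ¬ (q : ℤ) ∣ d v → ∀ h : ℤ, g v h = 0 := by
    intro v hv h
    simp only [hg]
    rw [if_neg]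
    intro h1
    exact hv ⟨h, by rw [h1]; ring⟩
  have hinner : ∀ v, ∑' h, g v h = if (q : ℤ) ∣ d v then f v else 0 := by
    intro v
    by_cases hv : (q : ℤ) ∣ d v
    · obtain ⟨h₀, h0⟩ := id hv
      have h0' : d v = h₀ * q := by rw [h0]; ring
      rw [tsum_eq_single h₀ (huniq v h₀ h0'), if_pos hv]
      simp only [hg]
      rw [if_pos h0']
    · rw [if_neg hv]
      simp only [hnone v hv, tsum_zero]
  have hsum : Summable (Function.uncurry g) := by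
    apply Summable.of_norm
    rw [summable_prod_of_nonneg (fun _ => norm_nonneg _)]
    constructor
    · intro v
      by_cases hv : (q : ℤ) ∣ d v
      · obtain ⟨h₀, h0⟩ := id hv
        have h0' : d v = h₀ * q := by rw [h0]; ring
        apply summable_of_ne_finset_zero (s := {h₀})
        intro h hh
        rw [Finset.mem_singleton] at hh
        simp only [Function.uncurry]
        rw [huniq v h₀ h0' h hh, norm_zero]
      · apply summable_of_ne_finset_zero (s := ∅)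
        intro h _
        simp only [Function.uncurry]
        rw [hnone v hv h, norm_zero]
    · refine Summable.of_nonneg_of_le (fun v => tsum_nonneg fun _ => norm_nonneg _)
        (fun v => ?_) hf
      simp only [Function.uncurry]
      by_cases hv : (q : ℤ) ∣ d v
      · obtain ⟨h₀, h0⟩ := id hv
        have h0' : d v = h₀ * q := by rw [h0]; ring
        rw [tsum_eq_single h₀ (fun h hh => by rw [huniq v h₀ h0' h hh, norm_zero])]
        simp only [hg]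
        rw [if_pos h0']
      · simp only [hnone v hv, norm_zero, tsum_zero]
        exact norm_nonneg _
  rw [hsum.tsum_comm]
  exact (tsum_congr hinner).symm

/-- the kernel -/
noncomputable def sel_m2_K (k : ℕ) (a : ℕ → ℝ) (q₀ q : ℕ) (j j' : ℕ × ℕ) (h : ℤ)
    (p : ℝ × ℝ) : ℝ :=
  KK k a q₀ (j.1 * j'.2) (j'.1 * j.2) (h * q) (Real.exp p.1 / (q * (j.2 * j'.2)))
        (Real.exp p.2 / (q * (j.2 * j'.2)))

theorem sel_m2_exp {q : ℕ} (hq : 0 < q) {j : ℕ × ℕ} (h1 : 0 < j.1) (h2 : 0 < j.2) (v : ℝ) :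
    Real.exp (v + sel_m2_c q j) = j.1 * (Real.exp v / (q * j.2)) := by
  unfold sel_m2_c
  have e1 : (0 : ℝ) < j.1 := by exact_mod_cast h1
  have e2 : (0 : ℝ) < j.2 := by exact_mod_cast h2
  have e3 : (0 : ℝ) < q := by exact_mod_cast hq
  rw [Real.exp_add, Real.exp_sub, Real.exp_sub, Real.exp_log e1, Real.exp_log e2, Real.exp_log e3]
  field_simp

theorem sel_m2_point (k : ℕ) (a : ℕ → ℝ) (q₀ : ℕ) {q : ℕ} (hq : 0 < q) {j j' : ℕ × ℕ}
    (h1 : 0 < j.1) (h2 : 0 < j.2) (h1' : 0 < j'.1) (h2' : 0 < j'.2) (h : ℤ) (p : ℝ × ℝ) :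
    ∑' v : ℕ × ℕ, (if ((v.1 * (j.1 * j'.2) : ℕ) : ℤ) - ((v.2 * (j'.1 * j.2) : ℕ) : ℤ) = h * q then
      am a q₀ v.1 * am a q₀ v.2 * (sel_m2_E k q j v.1 p.1 * sel_m2_E k q j' v.2 p.2) else 0) =
      sel_m2_K k a q₀ q j j' h p := by
  unfold sel_m2_K KK
  rw [← tsum_mul_left]
  refine tsum_congr fun v => ?_
  split_ifs with hc
  · have e1 : (0 : ℝ) < j.1 := by exact_mod_cast h1
    have e2 : (0 : ℝ) < j.2 := by exact_mod_cast h2
    have e1' : (0 : ℝ) < j'.1 := by exact_mod_cast h1'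
    have e2' : (0 : ℝ) < j'.2 := by exact_mod_cast h2'
    have e3 : (0 : ℝ) < q := by exact_mod_cast hq
    set Y := Real.exp p.1 / (q * ((j.2 : ℝ) * j'.2)) with hY
    set Y' := Real.exp p.2 / (q * ((j.2 : ℝ) * j'.2)) with hY'
    have f1 : Real.exp (p.1 + sel_m2_c q j) = ((j.1 * j'.2 : ℕ) : ℝ) * Y := by
      rw [sel_m2_exp hq h1 h2, hY]; push_cast; field_simp
    have f2 : Real.exp (p.2 + sel_m2_c q j') = ((j'.1 * j.2 : ℕ) : ℝ) * Y' := by
      rw [sel_m2_exp hq h1' h2', hY']; push_cast; field_simp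
    have f3 : (((j.1 * j'.2 * (j'.1 * j.2) : ℕ) : ℝ) * (Y * Y')) ^ ((k : ℝ) / 2) =
        Real.exp (k * (p.1 + sel_m2_c q j) / 2) * Real.exp (k * (p.2 + sel_m2_c q j') / 2) := by
      have f4 : ((j.1 * j'.2 * (j'.1 * j.2) : ℕ) : ℝ) * (Y * Y') =
          Real.exp ((p.1 + sel_m2_c q j) + (p.2 + sel_m2_c q j')) := by
        rw [Real.exp_add (p.1 + sel_m2_c q j), f1, f2]; push_cast; ring
      rw [f4, ← Real.exp_mul, ← Real.exp_add]
      congr 1; ring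
    rw [f3]
    unfold sel_m2_E
    rw [f1, f2]
    have f5 : Real.exp (-2 * Real.pi * (v.1 * ((j.1 * j'.2 : ℕ) : ℝ) * Y +
        v.2 * ((j'.1 * j.2 : ℕ) : ℝ) * Y')) =
        Real.exp (-2 * Real.pi * v.1 * (((j.1 * j'.2 : ℕ) : ℝ) * Y)) *
        Real.exp (-2 * Real.pi * v.2 * (((j'.1 * j.2 : ℕ) : ℝ) * Y')) := by
      rw [← Real.exp_add]; congr 1; ring
    rw [f5]; ring
  · rw [mul_zero]

section
variable {W : ℝ → ℂ} {S : Set ℝ}

theorem sel_m2_T {k : ℕ} {a : ℕ → ℝ} (H : HData k a) (q₀ : ℕ) {q : ℕ} (hq : 0 < q) (β : ℕ → ℝ)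
    (hW : Measurable W) (hWb : ∃ B, ∀ v, ‖W v‖ ≤ B)
    (hSb : ∃ R : ℝ, ∀ v ∈ S, |v| ≤ R) (hWS : ∀ v, v ∉ S → W v = 0) {j j' : ℕ × ℕ}
    (h1 : 0 < j.1) (h2 : 0 < j.2) (h1' : 0 < j'.1) (h2' : 0 < j'.2) (h : ℤ) :
    ∑' v : ℕ × ℕ, (if ((v.1 * (j.1 * j'.2) : ℕ) : ℤ) - ((v.2 * (j'.1 * j.2) : ℕ) : ℤ) = h * q then
      sel_m2_x k a q₀ q β W j v.1 * starRingEnd ℂ (sel_m2_x k a q₀ q β W j' v.2) else 0) =
    4 * (cc β j : ℂ) * (cc β j' : ℂ) * ∫ p : ℝ × ℝ, (sel_m2_K k a q₀ q j j' h p : ℂ) *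
      (W p.1 * starRingEnd ℂ (W p.2)) := by
  set cond : ℕ × ℕ → Prop := fun v =>
    ((v.1 * (j.1 * j'.2) : ℕ) : ℤ) - ((v.2 * (j'.1 * j.2) : ℕ) : ℤ) = h * q with hcond
  have hdec : DecidablePred cond := fun v => by simp only [hcond]; infer_instance
  set Gf : ℕ × ℕ → ℝ × ℝ → ℂ := fun v p => (if cond v then (am a q₀ v.1 * am a q₀ v.2 : ℝ) else (0 : ℝ) : ℝ) *
    (((sel_m2_E k q j v.1 p.1 : ℂ) * W p.1) *
      starRingEnd ℂ ((sel_m2_E k q j' v.2 p.2 : ℂ) * W p.2)) with hG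
  have hEi : ∀ (i : ℕ × ℕ) (n : ℕ), Integrable fun v => (sel_m2_E k q i n v : ℂ) * W v :=
    fun i n => sel_m2_W_int hW hWb hSb hWS (sel_m2_E_cont k q i n)
  have hEc : ∀ (i : ℕ × ℕ) (n : ℕ), Integrable fun v =>
      starRingEnd ℂ ((sel_m2_E k q i n v : ℂ) * W v) := by
    intro i n
    refine Integrable.mono (hEi i n)
      (Complex.continuous_conj.comp_aestronglyMeasurable (hEi i n).1) ?_
    exact Eventually.of_forall fun v => by rw [RCLike.norm_conj]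
  have hGi : ∀ v, Integrable (Gf v) := by
    intro v
    have := ((hEi j v.1).mul_prod (hEc j' v.2)).const_mul
      (((if cond v then (am a q₀ v.1 * am a q₀ v.2 : ℝ) else (0 : ℝ) : ℝ) : ℂ))
    rw [Measure.volume_eq_prod]
    exact this
  obtain ⟨M, y, hM, hy, hE⟩ := sel_m2_int_le hW hWb hSb hWS k q j
  obtain ⟨M', y', hM', hy', hE'⟩ := sel_m2_int_le hW hWb hSb hWS k q j'
  have hGn : ∀ v, ∫ p, ‖Gf v p‖ ≤ (|a v.1| * Real.exp (-y * v.1) * M) *
      (|a v.2| * Real.exp (-y' * v.2) * M') := by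
    intro v
    have e1 : ∫ p, ‖Gf v p‖ = |if cond v then (am a q₀ v.1 * am a q₀ v.2 : ℝ) else (0 : ℝ)| *
        ((∫ u, ‖(sel_m2_E k q j v.1 u : ℂ) * W u‖) * ∫ u, ‖(sel_m2_E k q j' v.2 u : ℂ) * W u‖) := by
      rw [← integral_prod_mul, ← integral_const_mul, Measure.volume_eq_prod]
      congr 1
      funext p
      simp only [hG]
      rw [norm_mul, norm_mul, Complex.norm_real, Real.norm_eq_abs, RCLike.norm_conj]
    rw [e1]
    have e2 : |if cond v then (am a q₀ v.1 * am a q₀ v.2 : ℝ) else (0 : ℝ)| ≤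
        |a v.1| * |a v.2| := by
      split_ifs
      · rw [abs_mul]
        exact mul_le_mul (sel_m2_am_le a q₀ v.1) (sel_m2_am_le a q₀ v.2) (abs_nonneg _)
          (abs_nonneg _)
      · rw [abs_zero]; positivity
    calc _ ≤ (|a v.1| * |a v.2|) * ((M * Real.exp (-y * v.1)) * (M' * Real.exp (-y' * v.2))) := by
          apply mul_le_mul e2 _ _ (by positivity)
          · exact mul_le_mul (hE v.1) (hE' v.2) (integral_nonneg fun _ => norm_nonneg _)
              (by positivity)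
          · exact mul_nonneg (integral_nonneg fun _ => norm_nonneg _)
              (integral_nonneg fun _ => norm_nonneg _)
      _ = _ := by ring
  have hGs : Summable fun v => ∫ p, ‖Gf v p‖ := by
    have s1 := (summable_a_pr H hy).mul_right M
    have s2 := (summable_a_pr H hy').mul_right M'
    have s3 := s1.mul_of_nonneg s2 (fun n => by positivity) (fun n => by positivity)
    exact Summable.of_nonneg_of_le (fun v => integral_nonneg fun _ => norm_nonneg _) hGn s3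
  have hsum := hasSum_integral_of_summable_integral_norm hGi hGs
  have hpt : ∀ p, ∑' v, Gf v p = (sel_m2_K k a q₀ q j j' h p : ℂ) *
      (W p.1 * starRingEnd ℂ (W p.2)) := by
    intro p
    rw [← sel_m2_point k a q₀ hq h1 h2 h1' h2' h p, Complex.ofReal_tsum, ← tsum_mul_right]
    refine tsum_congr fun v => ?_
    simp only [hG, hcond, map_mul, Complex.conj_ofReal]
    split_ifs
    · push_cast; ring
    · push_cast; ring
  have hval : ∀ v, ∫ p, Gf v p = (if cond v then (am a q₀ v.1 * am a q₀ v.2 : ℝ) else (0 : ℝ) : ℝ) *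
      ((∫ u, (sel_m2_E k q j v.1 u : ℂ) * W u) *
        starRingEnd ℂ (∫ u, (sel_m2_E k q j' v.2 u : ℂ) * W u)) := by
    intro v
    simp only [hG]
    rw [integral_const_mul, Measure.volume_eq_prod,
      integral_prod_mul (fun u => (sel_m2_E k q j v.1 u : ℂ) * W u)
        (fun u => starRingEnd ℂ ((sel_m2_E k q j' v.2 u : ℂ) * W u)), integral_conj]
  have hfin : ∑' v, ∫ p, Gf v p = ∫ p : ℝ × ℝ, (sel_m2_K k a q₀ q j j' h p : ℂ) *
      (W p.1 * starRingEnd ℂ (W p.2)) := by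
    rw [hsum.tsum_eq]
    congr 1
    funext p
    exact hpt p
  rw [← hfin, ← tsum_mul_left]
  refine tsum_congr fun v => ?_
  rw [hval v]
  simp only [hcond, sel_m2_x, map_mul, Complex.conj_ofReal]
  split_ifs
  · push_cast
    have : starRingEnd ℂ (2 : ℂ) = 2 := by simp [map_ofNat]
    rw [this]; ring
  · push_cast; ring


theorem sel_m2_WW (hW : Measurable W) (hWb : ∃ B, ∀ v, ‖W v‖ ≤ B)
    (hSb : ∃ R : ℝ, ∀ v ∈ S, |v| ≤ R) (hWS : ∀ v, v ∉ S → W v = 0) :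
    Integrable fun p : ℝ × ℝ => W p.1 * starRingEnd ℂ (W p.2) := by
  have h1 := sel_m2_W1 hW hWb hSb hWS
  have h2 : Integrable fun v => starRingEnd ℂ (W v) := by
    refine Integrable.mono h1 (Complex.continuous_conj.comp_aestronglyMeasurable h1.1) ?_
    exact Eventually.of_forall fun v => by rw [RCLike.norm_conj]
  rw [Measure.volume_eq_prod]
  exact h1.mul_prod h2

theorem sel_m2_K_int {k : ℕ} {a : ℕ → ℝ} (H : HData k a) (q₀ : ℕ) {q : ℕ} (hq : 0 < q)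
    (hW : Measurable W) (hWb : ∃ B, ∀ v, ‖W v‖ ≤ B)
    (hSb : ∃ R : ℝ, ∀ v ∈ S, |v| ≤ R) (hWS : ∀ v, v ∉ S → W v = 0) {j j' : ℕ × ℕ}
    (h1 : 0 < j.1) (h2 : 0 < j.2) (h1' : 0 < j'.1) (h2' : 0 < j'.2) (h : ℤ) :
    Integrable fun p : ℝ × ℝ => (sel_m2_K k a q₀ q j j' h p : ℂ) *
      (W p.1 * starRingEnd ℂ (W p.2)) := by
  have hA : 0 < j.1 * j'.2 := Nat.mul_pos h1 h2'
  have hB : 0 < j'.1 * j.2 := Nat.mul_pos h1' h2
  have e3 : (0 : ℝ) < q := by exact_mod_cast hq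
  have e2 : (0 : ℝ) < j.2 := by exact_mod_cast h2
  have e2' : (0 : ℝ) < j'.2 := by exact_mod_cast h2'
  have hpos : ∀ t : ℝ, 0 < Real.exp t / (q * ((j.2 : ℝ) * j'.2)) := fun t => by positivity
  have hcont : Continuous fun p : ℝ × ℝ => sel_m2_K k a q₀ q j j' h p := by
    have hc := KK_cont H (m := q₀) hA hB (h * q)
    have hm : Continuous fun p : ℝ × ℝ => (Real.exp p.1 / (q * ((j.2 : ℝ) * j'.2)),
        Real.exp p.2 / (q * ((j.2 : ℝ) * j'.2))) := by fun_prop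
    have := hc.comp_continuous hm (fun p => ⟨hpos p.1, hpos p.2⟩)
    exact this
  obtain ⟨C, hC0, hC⟩ := KK_tail H
  refine Integrable.bdd_mul (c := C) (sel_m2_WW hW hWb hSb hWS)
    (Complex.continuous_ofReal.comp hcont).aestronglyMeasurable ?_
  refine Eventually.of_forall fun p => ?_
  rw [Complex.norm_real, Real.norm_eq_abs]
  refine (hC q₀ _ _ (h * q) _ _ hA hB (hpos p.1) (hpos p.2)).trans ?_
  have h3 : -Real.pi * |((h * q : ℤ) : ℝ)| * min (Real.exp p.1 / (q * ((j.2 : ℝ) * j'.2)))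
      (Real.exp p.2 / (q * ((j.2 : ℝ) * j'.2))) - Real.pi / 2 *
      (Real.exp p.1 / (q * ((j.2 : ℝ) * j'.2)) + Real.exp p.2 / (q * ((j.2 : ℝ) * j'.2))) ≤ 0 := by
    have h4 := lt_min (hpos p.1) (hpos p.2)
    have h5 : 0 ≤ Real.pi * |((h * q : ℤ) : ℝ)| * min (Real.exp p.1 / (q * ((j.2 : ℝ) * j'.2)))
      (Real.exp p.2 / (q * ((j.2 : ℝ) * j'.2))) := by positivity
    have h6 : 0 ≤ Real.pi / 2 *
      (Real.exp p.1 / (q * ((j.2 : ℝ) * j'.2)) + Real.exp p.2 / (q * ((j.2 : ℝ) * j'.2))) := by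
      have := hpos p.1
      have := hpos p.2
      positivity
    linarith
  calc C * Real.exp _ ≤ C * 1 := by
        apply mul_le_mul_of_nonneg_left _ hC0.le
        exact Real.exp_le_one_iff.2 h3
    _ = C := mul_one C

theorem sel_m2_diag {k : ℕ} {a : ℕ → ℝ} (q₀ : ℕ) {q : ℕ} (hq : 0 < q) (β : ℕ → ℝ) (N : ℕ)
    (p : ℝ × ℝ) : ∑ j ∈ JJ N q, ∑ j' ∈ JJ N q, cc β j * cc β j' * sel_m2_K k a q₀ q j j' 0 p =
      (1 / Real.cosh ((p.1 - p.2) / 2)) ^ k *
        Diag k a q₀ q β N ((Real.exp p.1 + Real.exp p.2) / (2 * q)) := by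
  unfold Diag
  rw [Finset.mul_sum]
  refine Finset.sum_congr rfl fun j hj => ?_
  rw [Finset.mul_sum]
  refine Finset.sum_congr rfl fun j' hj' => ?_
  simp only [JJ, Finset.mem_filter, Finset.mem_product, Finset.mem_Ico] at hj hj'
  have e2 : (0 : ℝ) < j.2 := by exact_mod_cast hj.1.2.1
  have e2' : (0 : ℝ) < j'.2 := by exact_mod_cast hj'.1.2.1
  have e3 : (0 : ℝ) < q := by exact_mod_cast hq
  have hpos : ∀ t : ℝ, 0 < Real.exp t / (q * ((j.2 : ℝ) * j'.2)) := fun t => by positivity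
  unfold sel_m2_K
  rw [zero_mul, KK_ht q₀ _ _ (hpos p.1) (hpos p.2)]
  have f1 : (Real.exp p.1 / (q * ((j.2 : ℝ) * j'.2)) + Real.exp p.2 / (q * ((j.2 : ℝ) * j'.2))) / 2 =
      (Real.exp p.1 + Real.exp p.2) / (2 * q) / ((j.2 : ℝ) * j'.2) := by
    field_simp
  have f2 : 2 * √(Real.exp p.1 / (q * ((j.2 : ℝ) * j'.2)) *
      (Real.exp p.2 / (q * ((j.2 : ℝ) * j'.2)))) /
      (Real.exp p.1 / (q * ((j.2 : ℝ) * j'.2)) + Real.exp p.2 / (q * ((j.2 : ℝ) * j'.2))) =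
      1 / Real.cosh ((p.1 - p.2) / 2) := by
    have g1 : Real.exp p.1 / (q * ((j.2 : ℝ) * j'.2)) * (Real.exp p.2 / (q * ((j.2 : ℝ) * j'.2))) =
        (Real.exp ((p.1 + p.2) / 2) / (q * ((j.2 : ℝ) * j'.2))) ^ 2 := by
      rw [div_mul_div_comm, ← Real.exp_add, div_pow, ← Real.exp_nat_mul]
      congr 1
      · congr 1; push_cast; ring
      · ring
    rw [g1, Real.sqrt_sq (by positivity)]
    have g2 : Real.exp p.1 = Real.exp ((p.1 + p.2) / 2) * Real.exp ((p.1 - p.2) / 2) := by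
      rw [← Real.exp_add]; congr 1; ring
    have g3 : Real.exp p.2 = Real.exp ((p.1 + p.2) / 2) * Real.exp (-((p.1 - p.2) / 2)) := by
      rw [← Real.exp_add]; congr 1; ring
    rw [Real.cosh_eq]
    have g4 : Real.exp p.1 / (q * ((j.2 : ℝ) * j'.2)) + Real.exp p.2 / (q * ((j.2 : ℝ) * j'.2)) =
        Real.exp ((p.1 + p.2) / 2) * (Real.exp ((p.1 - p.2) / 2) +
          Real.exp (-((p.1 - p.2) / 2))) / (q * ((j.2 : ℝ) * j'.2)) := by
      rw [← add_div, g2, g3]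
      have : (Real.exp ((p.1 + p.2) / 2) * Real.exp ((p.1 - p.2) / 2)) = Real.exp p.1 := g2.symm
      ring
    rw [g4]
    have h1 := Real.exp_pos ((p.1 + p.2) / 2)
    have h2 := Real.exp_pos ((p.1 - p.2) / 2)
    have h3 := Real.exp_pos (-((p.1 - p.2) / 2))
    field_simp
  rw [f1, f2]
  ring

end

/-- block M2 -/
theorem mean_fd_pr {k : ℕ} {a : ℕ → ℝ} (H : HData k a) {q : ℕ} [NeZero q] {q₀ : ℕ} (hq₀ : q₀ ∣ q)
    (β : ℕ → ℝ) (N : ℕ) {W : ℝ → ℂ} (hW : Measurable W) (hWb : ∃ B, ∀ v, ‖W v‖ ≤ B)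
    {S : Set ℝ} (hS : MeasurableSet S) (hSb : ∃ R : ℝ, ∀ v ∈ S, |v| ≤ R)
    (hWS : ∀ v, v ∉ S → W v = 0) (b : ℤ → ℝ) (hb : Summable b) (hb0 : ∀ h, 0 ≤ b h)
    (ω : ℝ → ℝ) (hω : Continuous ω) (hω0 : ∀ v, 0 ≤ ω v)
    (hK : ∀ j ∈ JJ N q, ∀ j' ∈ JJ N q, ∀ h : ℤ, h ≠ 0 → ∀ v ∈ S, ∀ v' ∈ S,
      |KK k a q₀ (j.1 * j'.2) (j'.1 * j.2) (h * q) (Real.exp v / (q * (j.2 * j'.2)))
        (Real.exp v' / (q * (j.2 * j'.2)))| ≤ b h * ω v * ω v') :
    ∑ χ : DirichletCharacter ℂ q, ‖∫ v, fd k a β N χ v * W v‖ ^ 2 ≤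
      4 * q.totient * ((∫ v, ∫ v', ‖W v‖ * ‖W v'‖ * ((1 / Real.cosh ((v - v') / 2)) ^ k *
          |Diag k a q₀ q β N ((Real.exp v + Real.exp v') / (2 * q))|)) +
        (∑ j ∈ JJ N q, |cc β j|) ^ 2 * (∑' h, b h) * (∫ v, ω v * ‖W v‖) ^ 2) := by
  have hq : 0 < q := Nat.pos_of_ne_zero (NeZero.ne q)
  have hJ : ∀ j ∈ JJ N q, 0 < j.1 ∧ 0 < j.2 ∧ j.2.Coprime q := by
    intro j hj
    simp only [JJ, Finset.mem_filter, Finset.mem_product, Finset.mem_Ico] at hj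
    exact ⟨hj.1.1.1, hj.1.2.1, hj.2.2⟩
  have hxs : ∀ j, Summable fun n => ‖sel_m2_x k a q₀ q β W j n‖ := fun j =>
    sel_m2_x_summable H q₀ q β hW hWb hSb hWS j
  have horth := orth_pairs (JJ N q) (fun j hj => (hJ j hj).2.2) (sel_m2_x k a q₀ q β W)
    (fun j _ => hxs j)
  have hLHS : ∑ χ : DirichletCharacter ℂ q, ‖∫ v, fd k a β N χ v * W v‖ ^ 2 =
      ∑ χ : DirichletCharacter ℂ q, ‖∑ j ∈ JJ N q, χ j.1 * starRingEnd ℂ (χ j.2) *
      ∑' n : ℕ, χ n * sel_m2_x k a q₀ q β W j n‖ ^ 2 :=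
    Finset.sum_congr rfl fun χ _ => by rw [sel_m2_fd H hq₀ β N hW hWb hSb hWS χ]
  rw [hLHS]
  refine horth.trans ?_
  set Iw := ∫ v, ω v * ‖W v‖ with hIw
  have hIw0 : 0 ≤ Iw := integral_nonneg fun v => mul_nonneg (hω0 v) (norm_nonneg _)
  have hSb0 : 0 ≤ ∑' h, b h := tsum_nonneg hb0
  -- the fibres
  set T : ℕ × ℕ → ℕ × ℕ → ℤ → ℂ := fun j j' h =>
    ∑' v : ℕ × ℕ, (if ((v.1 * (j.1 * j'.2) : ℕ) : ℤ) - ((v.2 * (j'.1 * j.2) : ℕ) : ℤ) = h * q then
      sel_m2_x k a q₀ q β W j v.1 * starRingEnd ℂ (sel_m2_x k a q₀ q β W j' v.2) else 0) with hT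
  have hfib : ∀ j j' : ℕ × ℕ, (∑' v : ℕ × ℕ,
      if (q : ℤ) ∣ ((v.1 * (j.1 * j'.2) : ℕ) : ℤ) - ((v.2 * (j'.1 * j.2) : ℕ) : ℤ) then
        sel_m2_x k a q₀ q β W j v.1 * starRingEnd ℂ (sel_m2_x k a q₀ q β W j' v.2) else 0) =
      ∑' h : ℤ, T j j' h := by
    intro j j'
    apply sel_m2_fiber hq
    have := (hxs j).mul_of_nonneg (hxs j') (fun _ => norm_nonneg _) (fun _ => norm_nonneg _)
    refine this.congr fun v => ?_
    rw [norm_mul, RCLike.norm_conj]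
  have hTeq : ∀ j ∈ JJ N q, ∀ j' ∈ JJ N q, ∀ h : ℤ, T j j' h =
      4 * (cc β j : ℂ) * (cc β j' : ℂ) * ∫ p : ℝ × ℝ, (sel_m2_K k a q₀ q j j' h p : ℂ) *
        (W p.1 * starRingEnd ℂ (W p.2)) := fun j hj j' hj' h =>
    sel_m2_T H q₀ hq β hW hWb hSb hWS (hJ j hj).1 (hJ j hj).2.1 (hJ j' hj').1 (hJ j' hj').2.1 h
  have hwi : Integrable fun v => ω v * ‖W v‖ := by
    have := (sel_m2_W_int hW hWb hSb hWS hω).norm
    refine this.congr (Eventually.of_forall fun v => ?_)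
    simp only [norm_mul, Complex.norm_real, Real.norm_eq_abs, abs_of_nonneg (hω0 v)]
  have hTle : ∀ j ∈ JJ N q, ∀ j' ∈ JJ N q, ∀ h : ℤ, h ≠ 0 →
      ‖T j j' h‖ ≤ 4 * |cc β j| * |cc β j'| * Iw ^ 2 * b h := by
    intro j hj j' hj' h hh
    rw [hTeq j hj j' hj' h]
    rw [norm_mul, norm_mul, norm_mul, Complex.norm_real, Complex.norm_real, Real.norm_eq_abs,
      Real.norm_eq_abs, Complex.norm_ofNat]
    have h1 : ‖∫ p : ℝ × ℝ, (sel_m2_K k a q₀ q j j' h p : ℂ) *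
        (W p.1 * starRingEnd ℂ (W p.2))‖ ≤ ∫ p : ℝ × ℝ, b h * ((ω p.1 * ‖W p.1‖) *
          (ω p.2 * ‖W p.2‖)) := by
      apply norm_integral_le_of_norm_le
      · rw [Measure.volume_eq_prod]
        exact (hwi.mul_prod hwi).const_mul _
      · refine Eventually.of_forall fun p => ?_
        rw [norm_mul, norm_mul, RCLike.norm_conj, Complex.norm_real, Real.norm_eq_abs]
        by_cases hp1 : p.1 ∈ S
        · by_cases hp2 : p.2 ∈ S
          · have h2 := hK j hj j' hj' h hh p.1 hp1 p.2 hp2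
            calc |sel_m2_K k a q₀ q j j' h p| * (‖W p.1‖ * ‖W p.2‖) ≤
                (b h * ω p.1 * ω p.2) * (‖W p.1‖ * ‖W p.2‖) :=
                  mul_le_mul_of_nonneg_right h2 (by positivity)
              _ = _ := by ring
          · rw [hWS p.2 hp2]; simp
        · rw [hWS p.1 hp1]; simp
    have h2 : ∫ p : ℝ × ℝ, b h * ((ω p.1 * ‖W p.1‖) * (ω p.2 * ‖W p.2‖)) = b h * Iw ^ 2 := by
      rw [integral_const_mul, Measure.volume_eq_prod,
        integral_prod_mul (fun v => ω v * ‖W v‖) (fun v => ω v * ‖W v‖)]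
      rw [← hIw]; ring
    rw [h2] at h1
    calc _ ≤ 4 * |cc β j| * |cc β j'| * (b h * Iw ^ 2) :=
          mul_le_mul_of_nonneg_left h1 (by positivity)
      _ = _ := by ring
  have hTs : ∀ j ∈ JJ N q, ∀ j' ∈ JJ N q, (∑' h : ℤ, T j j' h).re ≤
      (T j j' 0).re + 4 * |cc β j| * |cc β j'| * Iw ^ 2 * ∑' h, b h := by
    intro j hj j' hj'
    have hs : Summable (T j j') := by
      refine Summable.of_norm_bounded
        (g := fun h => 4 * |cc β j| * |cc β j'| * Iw ^ 2 * b h + if h = 0 then ‖T j j' 0‖ else 0)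
        ?_ ?_
      · refine (hb.mul_left _).add ?_
        apply summable_of_ne_finset_zero (s := {0})
        intro h hh
        rw [Finset.mem_singleton] at hh
        rw [if_neg hh]
      · intro h
        by_cases hh : h = 0
        · subst hh
          rw [if_pos rfl]
          have := hb0 0
          have : 0 ≤ 4 * |cc β j| * |cc β j'| * Iw ^ 2 * b 0 := by positivity
          linarith
        · rw [if_neg hh, add_zero]
          exact hTle j hj j' hj' h hh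
    rw [hs.tsum_eq_add_tsum_ite 0, Complex.add_re]
    have h1 : (∑' h : ℤ, if h = 0 then 0 else T j j' h).re ≤
        ∑' h, 4 * |cc β j| * |cc β j'| * Iw ^ 2 * b h := by
      have hn : ∀ h : ℤ, ‖if h = 0 then (0 : ℂ) else T j j' h‖ ≤
          4 * |cc β j| * |cc β j'| * Iw ^ 2 * b h := by
        intro h
        by_cases hh : h = 0
        · rw [if_pos hh, norm_zero]
          have := hb0 h
          positivity
        · rw [if_neg hh]
          exact hTle j hj j' hj' h hh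
      have hs1 : Summable fun h : ℤ => ‖if h = 0 then (0 : ℂ) else T j j' h‖ :=
        Summable.of_nonneg_of_le (fun _ => norm_nonneg _) hn (hb.mul_left _)
      calc _ ≤ ‖∑' h : ℤ, if h = 0 then (0 : ℂ) else T j j' h‖ := Complex.re_le_norm _
        _ ≤ ∑' h : ℤ, ‖if h = 0 then (0 : ℂ) else T j j' h‖ := norm_tsum_le_tsum_norm hs1
        _ ≤ _ := hs1.tsum_le_tsum hn (hb.mul_left _)
    rw [tsum_mul_left] at h1
    linarith
  -- the diagonal
  have hKi : ∀ j ∈ JJ N q, ∀ j' ∈ JJ N q, Integrable fun p : ℝ × ℝ =>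
      (sel_m2_K k a q₀ q j j' 0 p : ℂ) * (W p.1 * starRingEnd ℂ (W p.2)) := fun j hj j' hj' =>
    sel_m2_K_int H q₀ hq hW hWb hSb hWS (hJ j hj).1 (hJ j hj).2.1 (hJ j' hj').1 (hJ j' hj').2.1 0
  set Φ : ℝ × ℝ → ℂ := fun p => (((1 / Real.cosh ((p.1 - p.2) / 2)) ^ k *
        Diag k a q₀ q β N ((Real.exp p.1 + Real.exp p.2) / (2 * q)) : ℝ) : ℂ) *
          (W p.1 * starRingEnd ℂ (W p.2)) with hΦ
  have hΦeq : Φ = fun p => ∑ j ∈ JJ N q, ∑ j' ∈ JJ N q, ((cc β j * cc β j' : ℝ) : ℂ) *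
      ((sel_m2_K k a q₀ q j j' 0 p : ℂ) * (W p.1 * starRingEnd ℂ (W p.2))) := by
    funext p
    simp only [hΦ]
    rw [← sel_m2_diag q₀ hq β N p]
    push_cast
    rw [Finset.sum_mul]
    refine Finset.sum_congr rfl fun j _ => ?_
    rw [Finset.sum_mul]
    refine Finset.sum_congr rfl fun j' _ => ?_
    ring
  have hΦi : Integrable Φ := by
    rw [hΦeq]
    refine integrable_finsetSum _ fun j hj => integrable_finsetSum _ fun j' hj' => ?_
    exact (hKi j hj j' hj').const_mul _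
  have hdiag : ∑ j ∈ JJ N q, ∑ j' ∈ JJ N q, T j j' 0 = 4 * ∫ p, Φ p := by
    rw [hΦeq, integral_finsetSum _ (fun j hj => integrable_finsetSum _ fun j' hj' =>
      (hKi j hj j' hj').const_mul _), Finset.mul_sum]
    refine Finset.sum_congr rfl fun j hj => ?_
    rw [integral_finsetSum _ (fun j' hj' => (hKi j hj j' hj').const_mul _), Finset.mul_sum]
    refine Finset.sum_congr rfl fun j' hj' => ?_
    rw [hTeq j hj j' hj' 0, integral_const_mul]
    push_cast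
    ring
  have hΦn : ∫ p, ‖Φ p‖ = ∫ v, ∫ v', ‖W v‖ * ‖W v'‖ * ((1 / Real.cosh ((v - v') / 2)) ^ k *
          |Diag k a q₀ q β N ((Real.exp v + Real.exp v') / (2 * q))|) := by
    have h1 : Integrable (fun p => ‖Φ p‖) ((volume : Measure ℝ).prod volume) := by
      rw [← Measure.volume_eq_prod]; exact hΦi.norm
    rw [Measure.volume_eq_prod, integral_prod _ h1]
    congr 1
    funext v
    congr 1
    funext v'
    simp only [hΦ]
    rw [norm_mul, norm_mul, RCLike.norm_conj, Complex.norm_real, Real.norm_eq_abs, abs_mul,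
      abs_of_nonneg (by have := Real.cosh_pos ((v - v') / 2); positivity :
        0 ≤ (1 / Real.cosh ((v - v') / 2)) ^ k)]
    ring
  have hdre : (∑ j ∈ JJ N q, ∑ j' ∈ JJ N q, (T j j' 0).re) ≤ 4 * ∫ p, ‖Φ p‖ := by
    have h1 : (∑ j ∈ JJ N q, ∑ j' ∈ JJ N q, (T j j' 0).re) = (4 * ∫ p, Φ p).re := by
      rw [← hdiag, Complex.re_sum]
      refine Finset.sum_congr rfl fun j _ => ?_
      rw [Complex.re_sum]
    rw [h1]
    calc _ ≤ ‖4 * ∫ p, Φ p‖ := Complex.re_le_norm _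
      _ = 4 * ‖∫ p, Φ p‖ := by rw [norm_mul, Complex.norm_ofNat]
      _ ≤ 4 * ∫ p, ‖Φ p‖ := by
        apply mul_le_mul_of_nonneg_left (norm_integral_le_integral_norm _) (by norm_num)
  have hoff : ∑ j ∈ JJ N q, ∑ j' ∈ JJ N q, 4 * |cc β j| * |cc β j'| * Iw ^ 2 * ∑' h, b h =
      4 * ((∑ j ∈ JJ N q, |cc β j|) ^ 2 * (∑' h, b h) * Iw ^ 2) := by
    have h1 : (∑ j ∈ JJ N q, |cc β j|) ^ 2 = ∑ j ∈ JJ N q, ∑ j' ∈ JJ N q,
        |cc β j| * |cc β j'| := by
      rw [pow_two, Finset.sum_mul_sum]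
    rw [h1, Finset.sum_mul, Finset.sum_mul, Finset.mul_sum]
    refine Finset.sum_congr rfl fun j _ => ?_
    rw [Finset.sum_mul, Finset.sum_mul, Finset.mul_sum]
    refine Finset.sum_congr rfl fun j' _ => ?_
    ring
  have htot : ∑ j ∈ JJ N q, ∑ j' ∈ JJ N q, (∑' v : ℕ × ℕ,
      if (q : ℤ) ∣ ((v.1 * (j.1 * j'.2) : ℕ) : ℤ) - ((v.2 * (j'.1 * j.2) : ℕ) : ℤ) then
        sel_m2_x k a q₀ q β W j v.1 * starRingEnd ℂ (sel_m2_x k a q₀ q β W j' v.2) else 0).re ≤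
      4 * (∫ p, ‖Φ p‖) + 4 * ((∑ j ∈ JJ N q, |cc β j|) ^ 2 * (∑' h, b h) * Iw ^ 2) := by
    rw [← hoff]
    refine le_trans ?_ (add_le_add_left hdre _)
    rw [← Finset.sum_add_distrib]
    refine Finset.sum_le_sum fun j hj => ?_
    rw [← Finset.sum_add_distrib]
    refine Finset.sum_le_sum fun j' hj' => ?_
    rw [hfib j j']
    exact hTs j hj j' hj'
  calc _ ≤ (q.totient : ℝ) * (4 * (∫ p, ‖Φ p‖) +
        4 * ((∑ j ∈ JJ N q, |cc β j|) ^ 2 * (∑' h, b h) * Iw ^ 2)) :=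
        mul_le_mul_of_nonneg_left htot (Nat.cast_nonneg _)
    _ = _ := by rw [hΦn]; ring

theorem mean_fd : type_of% @mean_fd_pr := @mean_fd_pr

end Pool.Agent.SEL
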