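import Pool.Agent.Lib_helper68.SEL.Defs

/-!
# SEL block M3 (SCH): Schur bounds (helper80)
-/

namespace Pool.Agent.SEL

open Complex MeasureTheory Filter Topology Pool.Agent.GL2

/-- `sech (u/2)` -/
noncomputable def sel_m3_K (u : ℝ) : ℝ := 1 / Real.cosh (u / 2)

theorem sel_m3_K_pos (u : ℝ) : 0 < sel_m3_K u := by
  unfold sel_m3_K
  exact div_pos one_pos (Real.cosh_pos _)

theorem sel_m3_K_le (u : ℝ) : sel_m3_K u ≤ 1 := by
  unfold sel_m3_K
  rw [div_le_one (Real.cosh_pos _)]
  exact Real.one_le_cosh _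

theorem sel_m3_K_cont : Continuous sel_m3_K := by
  unfold sel_m3_K
  exact continuous_const.div (Real.continuous_cosh.comp (continuous_id.div_const 2))
    (fun u => (Real.cosh_pos _).ne')

theorem sel_m3_K_neg (u : ℝ) : sel_m3_K (-u) = sel_m3_K u := by
  unfold sel_m3_K
  rw [neg_div, Real.cosh_neg]

theorem sel_m3_K_pow {k : ℕ} (hk : 0 < k) (u : ℝ) : sel_m3_K u ^ k ≤ sel_m3_K u :=
  pow_le_of_le_one (sel_m3_K_pos u).le (sel_m3_K_le u) hk.ne'

theorem sel_m3_sech : Integrable sel_m3_K ∧ ∫ u : ℝ, sel_m3_K u ≤ 2 * Real.pi := by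
  set f : ℝ → ℝ := fun u => 2 * Real.arctan (Real.sinh (u / 2)) with hf
  have hd : ∀ u, HasDerivAt f (sel_m3_K u) u := by
    intro u
    have h1 : HasDerivAt (fun u : ℝ => Real.sinh (u / 2)) (Real.cosh (u / 2) * (1 / 2)) u :=
      ((hasDerivAt_id u).div_const 2).sinh
    have h2 : HasDerivAt f (2 * (1 / (1 + Real.sinh (u / 2) ^ 2) *
        (Real.cosh (u / 2) * (1 / 2)))) u := (h1.arctan).const_mul 2
    have h5 : sel_m3_K u = 2 * (1 / (1 + Real.sinh (u / 2) ^ 2) *
        (Real.cosh (u / 2) * (1 / 2))) := by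
      unfold sel_m3_K
      have h3 : 1 + Real.sinh (u / 2) ^ 2 = Real.cosh (u / 2) ^ 2 := by
        rw [Real.cosh_sq]; ring
      have h4 := (Real.cosh_pos (u / 2)).ne'
      rw [h3]
      field_simp
    rw [h5]
    exact h2
  have hinj : Function.Injective f := by
    intro x y hxy
    have h1 : Real.arctan (Real.sinh (x / 2)) = Real.arctan (Real.sinh (y / 2)) := by
      have : 2 * Real.arctan (Real.sinh (x / 2)) = 2 * Real.arctan (Real.sinh (y / 2)) := hxy
      linarith
    have h2 := Real.sinh_injective (Real.arctan_injective h1)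
    linarith
  have him : f '' Set.univ ⊆ Set.Ioo (-Real.pi) Real.pi := by
    rintro _ ⟨u, _, rfl⟩
    have h1 := Real.neg_pi_div_two_lt_arctan (Real.sinh (u / 2))
    have h2 := Real.arctan_lt_pi_div_two (Real.sinh (u / 2))
    constructor <;> simp only [hf] <;> linarith
  have hvol : volume (f '' Set.univ) ≤ ENNReal.ofReal (2 * Real.pi) := by
    refine (measure_mono him).trans ?_
    rw [Real.volume_Ioo]
    apply ENNReal.ofReal_le_ofReal
    linarith
  have hfin : volume (f '' Set.univ) ≠ ⊤ := ne_top_of_le_ne_top ENNReal.ofReal_ne_top hvol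
  have e1 : ∀ x, |sel_m3_K x| • (fun _ : ℝ => (1 : ℝ)) (f x) = sel_m3_K x := by
    intro x
    simp only [smul_eq_mul, mul_one]
    exact abs_of_pos (sel_m3_K_pos x)
  constructor
  · have h1 := (integrableOn_image_iff_integrableOn_abs_deriv_smul MeasurableSet.univ
      (fun x _ => (hd x).hasDerivWithinAt) hinj.injOn (fun _ => (1 : ℝ))).1
      (integrableOn_const hfin)
    rw [integrableOn_univ] at h1
    exact h1.congr (Filter.Eventually.of_forall fun x => e1 x)
  · have h1 := integral_image_eq_integral_abs_deriv_smul MeasurableSet.univ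
      (fun x _ => (hd x).hasDerivWithinAt) hinj.injOn (fun _ => (1 : ℝ))
    rw [setIntegral_univ, integral_congr_ae (Filter.Eventually.of_forall fun x => e1 x)] at h1
    rw [← h1, setIntegral_const, smul_eq_mul, mul_one]
    exact ENNReal.toReal_le_of_le_ofReal (by positivity) hvol

theorem sel_m3_W {W : ℝ → ℂ} (hW : Measurable W)
    (hWb : ∃ B, ∀ v, ‖W v‖ ≤ B) (hWs : ∃ R : ℝ, ∀ v, R < |v| → W v = 0) :
    Integrable fun v => ‖W v‖ ^ 2 := by
  obtain ⟨B, hB⟩ := hWb
  obtain ⟨R, hR⟩ := hWs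
  have hm : Measurable fun v => ‖W v‖ ^ 2 := hW.norm.pow_const 2
  have h1 : IntegrableOn (fun v => ‖W v‖ ^ 2) (Set.Icc (-R) R) := by
    refine Measure.integrableOn_of_bounded (M := B ^ 2) ?_ hm.aestronglyMeasurable ?_
    · rw [Real.volume_Icc]; exact ENNReal.ofReal_ne_top
    · refine Filter.Eventually.of_forall fun v => ?_
      rw [Real.norm_of_nonneg (by positivity)]
      exact pow_le_pow_left₀ (norm_nonneg _) (hB v) 2
  rwa [integrableOn_iff_integrable_of_support_subset] at h1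
  intro v hv
  by_contra hc
  apply hv
  have : R < |v| := by
    by_contra h
    push Not at h
    exact hc (abs_le.1 h)
  simp [hR v this]

theorem schur_one_pr {k : ℕ} (hk : 0 < k) {W : ℝ → ℂ} (hW : Measurable W)
    (hWb : ∃ B, ∀ v, ‖W v‖ ≤ B) (hWs : ∃ R : ℝ, ∀ v, R < |v| → W v = 0) {D : ℝ → ℝ → ℝ} {E : ℝ}
    (hD : ∀ v v', W v ≠ 0 → W v' ≠ 0 → 0 ≤ D v v' ∧ D v v' ≤ E) (hE : 0 ≤ E) :
    ∫ v, ∫ v', ‖W v‖ * ‖W v'‖ * ((1 / Real.cosh ((v - v') / 2)) ^ k * D v v') ≤
      2 * Real.pi * E * ∫ v, ‖W v‖ ^ 2 := by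
  have hWi := sel_m3_W hW hWb hWs
  obtain ⟨hK, hK2⟩ := sel_m3_sech
  have hP2 : Integrable (fun p : ℝ × ℝ => ‖W p.2‖ ^ 2 * sel_m3_K (p.1 - p.2)) :=
    Integrable.convolution_integrand (ContinuousLinearMap.mul ℝ ℝ) hWi hK
  have hP1 : Integrable (fun p : ℝ × ℝ => ‖W p.1‖ ^ 2 * sel_m3_K (p.1 - p.2)) := by
    refine hP2.swap.congr (Filter.Eventually.of_forall fun p => ?_)
    show ‖W p.1‖ ^ 2 * sel_m3_K (p.2 - p.1) = _
    rw [← sel_m3_K_neg, neg_sub]
  set P : ℝ × ℝ → ℝ := fun p => E / 2 * (‖W p.1‖ ^ 2 * sel_m3_K (p.1 - p.2)) +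
    E / 2 * (‖W p.2‖ ^ 2 * sel_m3_K (p.1 - p.2)) with hP
  have hPi : Integrable P := (hP1.const_mul _).add (hP2.const_mul _)
  have hf0 : ∀ v v', 0 ≤ ‖W v‖ * ‖W v'‖ * ((1 / Real.cosh ((v - v') / 2)) ^ k * D v v') := by
    intro v v'
    by_cases h1 : W v = 0
    · simp [h1]
    by_cases h2 : W v' = 0
    · simp [h2]
    have := (hD v v' h1 h2).1
    have h3 := Real.cosh_pos ((v - v') / 2)
    positivity
  have hfP : ∀ v v', ‖W v‖ * ‖W v'‖ * ((1 / Real.cosh ((v - v') / 2)) ^ k * D v v') ≤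
      P (v, v') := by
    intro v v'
    have hPn : 0 ≤ P (v, v') := by
      simp only [hP]
      have := sel_m3_K_pos (v - v')
      positivity
    by_cases h1 : W v = 0
    · simp only [h1, norm_zero, zero_mul]; exact hPn
    by_cases h2 : W v' = 0
    · simp only [h2, norm_zero, zero_mul, mul_zero]; exact hPn
    obtain ⟨h3, h4⟩ := hD v v' h1 h2
    have h5 : (1 / Real.cosh ((v - v') / 2)) ^ k ≤ sel_m3_K (v - v') := sel_m3_K_pow hk _
    have h6 := sel_m3_K_pos (v - v')
    have h7 : ‖W v‖ * ‖W v'‖ ≤ (‖W v‖ ^ 2 + ‖W v'‖ ^ 2) / 2 := by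
      nlinarith [sq_nonneg (‖W v‖ - ‖W v'‖)]
    calc ‖W v‖ * ‖W v'‖ * ((1 / Real.cosh ((v - v') / 2)) ^ k * D v v')
        ≤ ‖W v‖ * ‖W v'‖ * (sel_m3_K (v - v') * E) := by
          apply mul_le_mul_of_nonneg_left _ (by positivity)
          exact mul_le_mul h5 h4 h3 h6.le
      _ ≤ (‖W v‖ ^ 2 + ‖W v'‖ ^ 2) / 2 * (sel_m3_K (v - v') * E) :=
          mul_le_mul_of_nonneg_right h7 (by positivity)
      _ = P (v, v') := by simp only [hP]; ring
  have step1 : ∫ v, ∫ v', ‖W v‖ * ‖W v'‖ * ((1 / Real.cosh ((v - v') / 2)) ^ k * D v v') ≤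
      ∫ v, ∫ v', P (v, v') := by
    refine integral_mono_of_nonneg (Filter.Eventually.of_forall fun v =>
      integral_nonneg fun v' => hf0 v v') hPi.integral_prod_left ?_
    filter_upwards [hPi.prod_right_ae] with v hv
    exact integral_mono_of_nonneg (Filter.Eventually.of_forall fun v' => hf0 v v') hv
      (Filter.Eventually.of_forall fun v' => hfP v v')
  have e1 : ∫ p : ℝ × ℝ, ‖W p.1‖ ^ 2 * sel_m3_K (p.1 - p.2) =
      (∫ v, ‖W v‖ ^ 2) * ∫ u, sel_m3_K u := by
    rw [Measure.volume_eq_prod, integral_prod _ hP1, ← integral_mul_const]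
    refine integral_congr_ae (Filter.Eventually.of_forall fun v => ?_)
    show ∫ v', ‖W v‖ ^ 2 * sel_m3_K (v - v') = _
    rw [integral_const_mul, integral_sub_left_eq_self (fun u => sel_m3_K u)]
  have e2 : ∫ p : ℝ × ℝ, ‖W p.2‖ ^ 2 * sel_m3_K (p.1 - p.2) =
      (∫ v, ‖W v‖ ^ 2) * ∫ u, sel_m3_K u := by
    rw [Measure.volume_eq_prod, integral_prod_symm _ hP2, ← integral_mul_const]
    refine integral_congr_ae (Filter.Eventually.of_forall fun v => ?_)
    show ∫ v', ‖W v‖ ^ 2 * sel_m3_K (v' - v) = _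
    rw [integral_const_mul, integral_sub_right_eq_self (fun u => sel_m3_K u)]
  have step2 : ∫ v, ∫ v', P (v, v') = E * ((∫ v, ‖W v‖ ^ 2) * ∫ u, sel_m3_K u) := by
    rw [← integral_prod _ hPi, ← Measure.volume_eq_prod]
    simp only [hP]
    rw [integral_add (hP1.const_mul _) (hP2.const_mul _), integral_const_mul,
      integral_const_mul, e1, e2]
    ring
  refine step1.trans ?_
  rw [step2]
  have h8 : 0 ≤ ∫ v, ‖W v‖ ^ 2 := integral_nonneg fun v => by positivity
  calc E * ((∫ v, ‖W v‖ ^ 2) * ∫ u, sel_m3_K u)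
      ≤ E * ((∫ v, ‖W v‖ ^ 2) * (2 * Real.pi)) :=
        mul_le_mul_of_nonneg_left (mul_le_mul_of_nonneg_left hK2 h8) hE
    _ = _ := by ring

theorem sel_m3_phi {q : ℕ} (hq : 0 < q) (D : ℝ → ℝ)
    (hDi : IntegrableOn (fun y => D y / y) (Set.Ici (1 / (q : ℝ)))) :
    IntegrableOn (fun u => D (Real.exp u)) (Set.Ioi (Real.log (1 / q))) ∧
    ∫ u in Set.Ioi (Real.log (1 / (q : ℝ))), D (Real.exp u) =
      ∫ y in Set.Ici (1 / (q : ℝ)), D y / y := by
  have hq' : (0 : ℝ) < 1 / q := by positivity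
  have him : Real.exp '' Set.Ioi (Real.log (1 / (q : ℝ))) = Set.Ioi (1 / (q : ℝ)) := by
    ext y
    constructor
    · rintro ⟨u, hu, rfl⟩
      exact (Real.log_lt_iff_lt_exp hq').1 hu
    · intro hy
      have hy0 : 0 < y := hq'.trans hy
      exact ⟨Real.log y, Real.log_lt_log hq' hy, Real.exp_log hy0⟩
  have e1 : ∀ x, |Real.exp x| • ((fun y => D y / y) (Real.exp x)) = D (Real.exp x) := by
    intro x
    have := Real.exp_pos x
    rw [abs_of_pos this, smul_eq_mul]
    field_simp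
  have hd : ∀ x ∈ Set.Ioi (Real.log (1 / (q : ℝ))),
      HasDerivWithinAt Real.exp (Real.exp x) (Set.Ioi (Real.log (1 / (q : ℝ)))) x :=
    fun x _ => (Real.hasDerivAt_exp x).hasDerivWithinAt
  constructor
  · have h1 := (integrableOn_image_iff_integrableOn_abs_deriv_smul measurableSet_Ioi hd
      Real.exp_injective.injOn (fun y => D y / y)).1
      (by rw [him]; exact hDi.mono_set Set.Ioi_subset_Ici_self)
    exact h1.congr_fun (fun x _ => e1 x) measurableSet_Ioi
  · have h1 := integral_image_eq_integral_abs_deriv_smul measurableSet_Ioi hd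
      Real.exp_injective.injOn (fun y => D y / y)
    rw [him] at h1
    rw [integral_Ici_eq_integral_Ioi, h1]
    exact (setIntegral_congr_fun measurableSet_Ioi fun x _ => e1 x).symm

theorem schur_diag_pr {k : ℕ} (hk : 0 < k) {q : ℕ} (hq : 0 < q) (D : ℝ → ℝ)
    (hD0 : ∀ y, 0 < y → 0 ≤ D y) (hDc : ContinuousOn D (Set.Ioi 0))
    (hDi : IntegrableOn (fun y => D y / y) (Set.Ici (1 / (q : ℝ)))) {a R : ℝ} (ha : 0 ≤ a)
    (haR : a ≤ R) :
    ∫ v in Set.Ioc a R, ∫ v' in Set.Ioc a R, (1 / Real.cosh ((v - v') / 2)) ^ k *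
      D ((Real.exp v + Real.exp v') / (2 * q)) ≤
        2 * Real.pi * ∫ y in Set.Ici (1 / (q : ℝ)), D y / y := by
  have hq' : (0 : ℝ) < q := by exact_mod_cast hq
  obtain ⟨hφ, hφ2⟩ := sel_m3_phi hq D hDi
  obtain ⟨hK, hK2⟩ := sel_m3_sech
  set M := ∫ y in Set.Ici (1 / (q : ℝ)), D y / y with hM
  have hM0 : 0 ≤ M := by
    rw [hM]
    refine setIntegral_nonneg measurableSet_Ici fun y hy => ?_
    have : 0 < y := lt_of_lt_of_le (by positivity) hy
    exact div_nonneg (hD0 y this) this.le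
  -- the function
  set g : ℝ × ℝ → ℝ := fun p => sel_m3_K (p.1 - p.2) ^ k *
      D ((Real.exp p.1 + Real.exp p.2) / (2 * q)) with hg
  have hpos : ∀ p : ℝ × ℝ, 0 < (Real.exp p.1 + Real.exp p.2) / (2 * q) := fun p => by positivity
  have hgc : Continuous g := by
    refine ((sel_m3_K_cont.comp (continuous_fst.sub continuous_snd)).pow k).mul ?_
    refine hDc.comp_continuous ?_ (fun p => hpos p)
    fun_prop
  have hg0 : ∀ p, 0 ≤ g p := fun p =>
    mul_nonneg (pow_nonneg (sel_m3_K_pos _).le _) (hD0 _ (hpos p))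
  set S : Set (ℝ × ℝ) := Set.Ioc a R ×ˢ Set.Ioc a R with hS
  have hSm : MeasurableSet S := measurableSet_Ioc.prod measurableSet_Ioc
  set F : ℝ × ℝ → ℝ := S.indicator g with hF
  have hFm : Measurable F := hgc.measurable.indicator hSm
  have hF0 : ∀ p, 0 ≤ F p := fun p => Set.indicator_nonneg (fun p _ => hg0 p) p
  obtain ⟨B, hB⟩ := (isCompact_Icc.prod isCompact_Icc :
    IsCompact (Set.Icc a R ×ˢ Set.Icc a R)).exists_bound_of_continuousOn hgc.continuousOn
  have hFB : ∀ p, ‖F p‖ ≤ max B 0 := by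
    intro p
    by_cases hp : p ∈ S
    · rw [hF, Set.indicator_of_mem hp]
      exact (hB p ⟨Set.Ioc_subset_Icc_self hp.1, Set.Ioc_subset_Icc_self hp.2⟩).trans
        (le_max_left _ _)
    · rw [hF, Set.indicator_of_notMem hp, norm_zero]
      exact le_max_right _ _
  -- rewriting the left side
  have e1 : ∫ v in Set.Ioc a R, ∫ v' in Set.Ioc a R, (1 / Real.cosh ((v - v') / 2)) ^ k *
      D ((Real.exp v + Real.exp v') / (2 * q)) = ∫ v, ∫ s, F (v, v - s) := by
    rw [← integral_indicator measurableSet_Ioc]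
    refine integral_congr_ae (Filter.Eventually.of_forall fun v => ?_)
    show (Set.Ioc a R).indicator (fun v => ∫ v' in Set.Ioc a R, g (v, v')) v =
      ∫ s, F (v, v - s)
    rw [integral_sub_left_eq_self (fun v' => F (v, v')) volume v]
    by_cases hv : v ∈ Set.Ioc a R
    · rw [Set.indicator_of_mem hv, ← integral_indicator measurableSet_Ioc]
      refine integral_congr_ae (Filter.Eventually.of_forall fun v' => ?_)
      show (Set.Ioc a R).indicator (fun v' => g (v, v')) v' = F (v, v')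
      by_cases hv' : v' ∈ Set.Ioc a R
      · rw [Set.indicator_of_mem hv', hF, Set.indicator_of_mem (show (v, v') ∈ S from ⟨hv, hv'⟩)]
      · rw [Set.indicator_of_notMem hv', hF,
          Set.indicator_of_notMem (show (v, v') ∉ S from fun h => hv' h.2)]
    · rw [Set.indicator_of_notMem hv]
      have : ∀ v', F (v, v') = 0 := fun v' => by
        rw [hF, Set.indicator_of_notMem (show (v, v') ∉ S from fun h => hv h.1)]
      simp [this]
  have hint : Integrable (fun p : ℝ × ℝ => F (p.1, p.1 - p.2)) := by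
    have hm : Measurable (fun p : ℝ × ℝ => F (p.1, p.1 - p.2)) :=
      hFm.comp (measurable_fst.prodMk (measurable_fst.sub measurable_snd))
    have h1 : IntegrableOn (fun p : ℝ × ℝ => F (p.1, p.1 - p.2))
        (Set.Icc a R ×ˢ Set.Icc (-(R - a)) (R - a)) := by
      refine Measure.integrableOn_of_bounded (M := max B 0) ?_ hm.aestronglyMeasurable
        (Filter.Eventually.of_forall fun p => hFB _)
      exact ((isCompact_Icc.prod isCompact_Icc).measure_lt_top).ne
    rwa [integrableOn_iff_integrable_of_support_subset] at h1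
    intro p hp
    have hp' : (p.1, p.1 - p.2) ∈ S := by
      by_contra hc
      exact hp (Set.indicator_of_notMem hc _)
    obtain ⟨⟨h2, h3⟩, h4, h5⟩ := hp'
    simp only at h2 h3 h4 h5
    exact ⟨⟨h2.le, h3⟩, by linarith, by linarith⟩
  rw [e1, integral_integral_swap (f := fun v s => F (v, v - s)) hint]
  -- the inner integral
  set φ : ℝ → ℝ := (Set.Ioi (Real.log (1 / (q : ℝ)))).indicator (fun u => D (Real.exp u)) with hφd
  have hφi : Integrable φ := by
    rw [hφd, integrable_indicator_iff measurableSet_Ioi]; exact hφ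
  have hφM : ∫ u, φ u = M := by
    rw [hφd, integral_indicator measurableSet_Ioi]; exact hφ2
  have hφ0 : ∀ u, 0 ≤ φ u := fun u => Set.indicator_nonneg (fun u _ => hD0 _ (Real.exp_pos u)) u
  have inner : ∀ s, ∫ v, F (v, v - s) ≤ sel_m3_K s * M := by
    intro s
    set c : ℝ := Real.log ((1 + Real.exp (-s)) / (2 * q)) with hc
    have hcpos : 0 < (1 + Real.exp (-s)) / (2 * q) := by positivity
    have h1 : ∀ v, F (v, v - s) ≤ sel_m3_K s * φ (v + c) := by
      intro v
      by_cases hv : (v, v - s) ∈ S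
      · rw [hF, Set.indicator_of_mem hv]
        have h2 : Real.exp (v + c) = (Real.exp v + Real.exp (v - s)) / (2 * q) := by
          rw [Real.exp_add, hc, Real.exp_log hcpos, sub_eq_add_neg, Real.exp_add]
          ring
        have h3 : v + c ∈ Set.Ioi (Real.log (1 / (q : ℝ))) := by
          show Real.log (1 / (q : ℝ)) < v + c
          rw [Real.log_lt_iff_lt_exp (by positivity), h2]
          have h4 : 1 < Real.exp v := Real.one_lt_exp_iff.2 (lt_of_le_of_lt ha hv.1.1)
          have h5 : 1 < Real.exp (v - s) := Real.one_lt_exp_iff.2 (lt_of_le_of_lt ha hv.2.1)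
          rw [div_lt_div_iff₀ hq' (by positivity)]
          nlinarith
        rw [hφd, Set.indicator_of_mem h3, h2]
        show sel_m3_K (v - (v - s)) ^ k * D ((Real.exp v + Real.exp (v - s)) / (2 * q)) ≤ _
        rw [sub_sub_cancel]
        exact mul_le_mul_of_nonneg_right (sel_m3_K_pow hk s) (hD0 _ (hpos (v, v - s)))
      · rw [hF, Set.indicator_of_notMem hv]
        exact mul_nonneg (sel_m3_K_pos s).le (hφ0 _)
    calc ∫ v, F (v, v - s) ≤ ∫ v, sel_m3_K s * φ (v + c) :=
          integral_mono_of_nonneg (Filter.Eventually.of_forall fun v => hF0 _)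
            ((hφi.comp_add_right c).const_mul _) (Filter.Eventually.of_forall h1)
      _ = sel_m3_K s * M := by
          rw [integral_const_mul, integral_add_right_eq_self φ c, hφM]
  calc ∫ s, ∫ v, F (v, v - s) ≤ ∫ s, sel_m3_K s * M :=
        integral_mono_of_nonneg (Filter.Eventually.of_forall fun s => integral_nonneg fun v => hF0 _)
          (hK.mul_const _) (Filter.Eventually.of_forall inner)
    _ = (∫ s, sel_m3_K s) * M := integral_mul_const _ _
    _ ≤ 2 * Real.pi * M := mul_le_mul_of_nonneg_right hK2 hM0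

theorem schur_one : type_of% @schur_one_pr := @schur_one_pr
theorem schur_diag : type_of% @schur_diag_pr := @schur_diag_pr

end Pool.Agent.SEL
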