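import Pool.Agent.Lib_helper68.SEL.Defs
import Pool.Agent.Lib_helper68.SEL.K12
import Pool.Agent.Lib_helper68.SEL.K14
import Pool.Agent.Lib_helper68.SEL.Z9

/-! Block M4 (OFS) of SEL: the off-diagonal terms. -/

namespace Pool.Agent.SEL

open Complex MeasureTheory Filter Topology Pool.Agent.GL2

/-- a summable weight on `ℤ` -/
noncomputable def m4_w (h : ℤ) : ℝ := 1 / (1 + (h : ℝ) ^ 2)

theorem m4_summable : Summable m4_w := by
  have h1 : Summable (fun n : ℕ => 1 / (1 + (n : ℝ) ^ 2)) := by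
    apply Summable.of_nonneg_of_le (fun n => by positivity) (fun n => ?_)
      ((summable_nat_add_iff 1).mpr (Real.summable_one_div_nat_pow.mpr (one_lt_two)) |>.mul_left 2)
    push_cast
    rw [mul_one_div, div_le_div_iff₀ (by positivity) (by positivity)]
    nlinarith [sq_nonneg ((n : ℝ) - 1)]
  apply Summable.of_nat_of_neg
  · refine h1.congr fun n => ?_
    simp [m4_w]
  · refine h1.congr fun n => ?_
    simp [m4_w]

theorem m4_pos (h : ℤ) : 0 < m4_w h := by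
  unfold m4_w
  positivity

theorem m4_NL {L : ℝ} {q : ℕ} {j : ℕ × ℕ} (hj : j ∈ JJ (NL L) q) :
    1 ≤ j.1 ∧ 1 ≤ j.2 ∧ (j.1 : ℝ) ≤ Real.exp L ∧ (j.2 : ℝ) ≤ Real.exp L := by
  unfold JJ at hj
  rw [Finset.mem_filter, Finset.mem_product, Finset.mem_Ico, Finset.mem_Ico] at hj
  obtain ⟨⟨⟨h1, h2⟩, h3, h4⟩, _⟩ := hj
  have h5 : ∀ x : ℕ, x < NL L → (x : ℝ) ≤ Real.exp L := by
    intro x hx
    unfold NL at hx
    exact (Nat.lt_ceil.mp hx).le
  exact ⟨h1, h3, h5 _ h2, h5 _ h4⟩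

/-- the size of `|l| Y` -/
theorem m4_lY {q : ℕ} (hq : 0 < q) {j j' : ℕ × ℕ} (h : ℤ) (v : ℝ) :
    |((h * q : ℤ) : ℝ)| * (Real.exp v / (q * (j.2 * j'.2))) =
      |(h : ℝ)| * Real.exp v / (j.2 * j'.2) := by
  have hq' : (0 : ℝ) < q := by exact_mod_cast hq
  push_cast
  rw [abs_mul, abs_of_pos hq']
  field_simp

theorem m4_low {q : ℕ} (hq : 0 < q) {L : ℝ} {j j' : ℕ × ℕ} (hj : j ∈ JJ (NL L) q)
    (hj' : j' ∈ JJ (NL L) q) (h : ℤ) (v : ℝ) :
    |(h : ℝ)| * Real.exp (v - 2 * L) ≤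
      |((h * q : ℤ) : ℝ)| * (Real.exp v / (q * (j.2 * j'.2))) := by
  obtain ⟨_, h2, _, h4⟩ := m4_NL hj
  obtain ⟨_, h2', _, h4'⟩ := m4_NL hj'
  rw [m4_lY hq]
  have e2 : (0 : ℝ) < j.2 := by exact_mod_cast h2
  have e2' : (0 : ℝ) < j'.2 := by exact_mod_cast h2'
  rw [Real.exp_sub, mul_div_assoc]
  apply mul_le_mul_of_nonneg_left _ (abs_nonneg _)
  apply div_le_div_of_nonneg_left (Real.exp_pos _).le (by positivity)
  rw [two_mul, Real.exp_add]
  exact mul_le_mul h4 h4' e2'.le (Real.exp_pos _).le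

theorem m4_up {q : ℕ} (hq : 0 < q) {L : ℝ} {j j' : ℕ × ℕ} (hj : j ∈ JJ (NL L) q)
    (hj' : j' ∈ JJ (NL L) q) (h : ℤ) (v : ℝ) :
    |((h * q : ℤ) : ℝ)| * (Real.exp v / (q * (j.2 * j'.2))) ≤ |(h : ℝ)| * Real.exp v := by
  obtain ⟨_, h2, _, h4⟩ := m4_NL hj
  obtain ⟨_, h2', _, h4'⟩ := m4_NL hj'
  rw [m4_lY hq]
  have e2 : (1 : ℝ) ≤ j.2 := by exact_mod_cast h2
  have e2' : (1 : ℝ) ≤ j'.2 := by exact_mod_cast h2'
  apply div_le_self (by positivity)
  nlinarith

/-- `min` version -/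
theorem m4_min {q : ℕ} (hq : 0 < q) {L : ℝ} {j j' : ℕ × ℕ} (hj : j ∈ JJ (NL L) q)
    (hj' : j' ∈ JJ (NL L) q) (h : ℤ) {v v' X : ℝ} (hv : X ≤ v) (hv' : X ≤ v') :
    |(h : ℝ)| * Real.exp (X - 2 * L) ≤
      |((h * q : ℤ) : ℝ)| * min (Real.exp v / (q * (j.2 * j'.2)))
        (Real.exp v' / (q * (j.2 * j'.2))) := by
  have hm : ∀ x : ℝ, X ≤ x → |(h : ℝ)| * Real.exp (X - 2 * L) ≤
      |((h * q : ℤ) : ℝ)| * (Real.exp x / (q * (j.2 * j'.2))) := by
    intro x hx
    refine le_trans ?_ (m4_low hq hj hj' h x)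
    apply mul_le_mul_of_nonneg_left _ (abs_nonneg _)
    exact Real.exp_le_exp.mpr (by linarith)
  rcases min_choice (Real.exp v / (q * (j.2 * j'.2) : ℝ)) (Real.exp v' / (q * (j.2 * j'.2)))
    with h1 | h1
  · rw [h1]; exact hm v hv
  · rw [h1]; exact hm v' hv'

theorem m4_pow_exp (n : ℕ) {x : ℝ} (hx : 0 ≤ x) : x ^ n ≤ n.factorial * Real.exp x := by
  have h := Real.pow_div_factorial_le_exp x hx n
  rw [div_le_iff₀ (by positivity)] at h
  linarith

/-- the bound for large `h` -/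
theorem m4_far (n : ℕ) {L : ℝ} (hL : 1 ≤ L) {h : ℤ} (hh : Real.exp (3 * L) ≤ |(h : ℝ)|) :
    Real.exp (-Real.pi * (|(h : ℝ)| * Real.exp (-(2 * L)))) ≤
      2 * (6 + n).factorial * (Real.exp (-(n * L)) * m4_w h) := by
  set x : ℝ := |(h : ℝ)| ^ (1 / 3 : ℝ) with hx
  have hh0 : 0 < |(h : ℝ)| := lt_of_lt_of_le (Real.exp_pos _) hh
  have hx0 : 0 < x := Real.rpow_pos_of_pos hh0 _
  have hxL : Real.exp L ≤ x := by
    have h1 : (Real.exp (3 * L)) ^ (1 / 3 : ℝ) = Real.exp L := by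
      rw [← Real.exp_mul]
      congr 1
      ring
    rw [← h1, hx]
    exact Real.rpow_le_rpow (Real.exp_pos _).le hh (by norm_num)
  have hx3 : x ^ 3 = |(h : ℝ)| := by
    rw [hx, ← Real.rpow_natCast, ← Real.rpow_mul hh0.le]
    norm_num
  have hx1 : 1 ≤ x := le_trans (Real.one_le_exp (by linarith)) hxL
  have h1 : x ≤ |(h : ℝ)| * Real.exp (-(2 * L)) := by
    rw [Real.exp_neg, ← div_eq_mul_inv, le_div_iff₀ (Real.exp_pos _), two_mul, Real.exp_add, ← hx3]
    have h2 : Real.exp L * Real.exp L ≤ x * x :=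
      mul_le_mul hxL hxL (Real.exp_pos _).le hx0.le
    nlinarith
  have h3 : Real.exp (-Real.pi * (|(h : ℝ)| * Real.exp (-(2 * L)))) ≤ Real.exp (-x) := by
    apply Real.exp_le_exp.mpr
    have := Real.pi_gt_three
    nlinarith
  refine h3.trans ?_
  have h4 : Real.exp (n * L) ≤ x ^ n := by
    rw [Real.exp_nat_mul]
    exact pow_le_pow_left₀ (Real.exp_pos _).le hxL n
  have h5 : 1 + (h : ℝ) ^ 2 ≤ 2 * x ^ 6 := by
    have e1 : (h : ℝ) ^ 2 = x ^ 6 := by
      rw [← sq_abs, ← hx3]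
      ring
    have e2 : 1 ≤ x ^ 6 := one_le_pow₀ hx1
    linarith
  have h6 := m4_pow_exp (6 + n) hx0.le
  unfold m4_w
  rw [Real.exp_neg, Real.exp_neg]
  rw [show 2 * ((6 + n).factorial : ℝ) * ((Real.exp (n * L))⁻¹ * (1 / (1 + (h : ℝ) ^ 2))) =
    (2 * ((6 + n).factorial : ℝ)) / (Real.exp (n * L) * (1 + (h : ℝ) ^ 2)) by
      field_simp]
  rw [inv_eq_one_div, div_le_div_iff₀ (Real.exp_pos _) (by positivity), one_mul]
  calc Real.exp (n * L) * (1 + (h : ℝ) ^ 2) ≤ x ^ n * (2 * x ^ 6) := by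
        apply mul_le_mul h4 h5 (by positivity) (by positivity)
    _ = 2 * x ^ (6 + n) := by rw [pow_add]; ring
    _ ≤ _ := by nlinarith

/-- the bound in the tail -/
theorem m4_tl (n : ℕ) {L : ℝ} (hL : 1 ≤ L) {h : ℤ} (hh : h ≠ 0) :
    Real.exp (-Real.pi * (|(h : ℝ)| * Real.exp (2 * L))) ≤
      2 * n.factorial * (Real.exp (-(n * L)) * m4_w h) := by
  have hh1 : 1 ≤ |(h : ℝ)| := by
    have : 1 ≤ |h| := Int.one_le_abs hh
    exact_mod_cast this
  set x := |(h : ℝ)| with hx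
  set y := Real.exp (2 * L) with hy
  have hyL : Real.exp L ≤ y := Real.exp_le_exp.mpr (by linarith)
  have hL1 : 1 ≤ Real.exp L := Real.one_le_exp (by linarith)
  have h1 : x + Real.exp L ≤ Real.pi * (x * y) := by
    have h0 := Real.pi_gt_three
    have hy1 : 1 ≤ y := hL1.trans hyL
    have e1 : x ≤ x * y := le_mul_of_one_le_right (by linarith) hy1
    have e2 : y ≤ x * y := le_mul_of_one_le_left (by linarith) hh1
    have e3 : 3 * (x * y) ≤ Real.pi * (x * y) := mul_le_mul_of_nonneg_right h0.le (by linarith)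
    linarith
  have h2 : Real.exp (-Real.pi * (x * y)) ≤ Real.exp (-x) * Real.exp (-Real.exp L) := by
    rw [← Real.exp_add]
    apply Real.exp_le_exp.mpr
    linarith
  refine h2.trans ?_
  have h3 : Real.exp (-x) ≤ 2 * m4_w h := by
    unfold m4_w
    rw [Real.exp_neg, inv_eq_one_div, mul_one_div, div_le_div_iff₀ (Real.exp_pos _) (by positivity)]
    have h4 := Real.quadratic_le_exp_of_nonneg (x := x) (by linarith)
    have h5 : (h : ℝ) ^ 2 = x ^ 2 := by rw [hx, sq_abs]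
    rw [h5]
    nlinarith
  have h4 : Real.exp (-Real.exp L) ≤ n.factorial * Real.exp (-(n * L)) := by
    have h5 := m4_pow_exp n (Real.exp_pos L).le
    rw [← Real.exp_nat_mul] at h5
    rw [Real.exp_neg, Real.exp_neg, inv_eq_one_div, ← div_eq_mul_inv,
      div_le_div_iff₀ (Real.exp_pos _) (Real.exp_pos _), one_mul]
    exact h5
  calc Real.exp (-x) * Real.exp (-Real.exp L) ≤
      (2 * m4_w h) * (n.factorial * Real.exp (-(n * L))) :=
        mul_le_mul h3 h4 (Real.exp_pos _).le (by have := m4_pos h; positivity)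
    _ = _ := by ring

/-- the bound for small `h` -/
theorem m4_near {E : ℝ} (hE : 0 < E) {L : ℝ} (hL : 1 ≤ L) {q : ℕ} (hq : 2 ≤ q) {B : ℝ}
    (hB : 0 < B) (hLB : L = Real.log q / B) {j j' : ℕ × ℕ} (hj : j ∈ JJ (NL L) q)
    (hj' : j' ∈ JJ (NL L) q) {h : ℤ} (hh : h ≠ 0) (hh3 : |(h : ℝ)| ≤ Real.exp (3 * L))
    {v v' : ℝ} (hv : 0 ≤ v) (hv4 : v ≤ 4 * L) (hv' : 0 ≤ v') (hv4' : v' ≤ 4 * L) :
    ((qz q L : ℝ) * ((j.1 * j'.2 : ℕ) : ℝ) * ((j'.1 * j.2 : ℕ) : ℝ) *
      ((1 + |((h * q : ℤ) : ℝ)| * (Real.exp v / (q * (j.2 * j'.2)))) *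
        (1 + 1 / (|((h * q : ℤ) : ℝ)| * (Real.exp v / (q * (j.2 * j'.2)))))) *
      ((1 + |((h * q : ℤ) : ℝ)| * (Real.exp v' / (q * (j.2 * j'.2)))) *
        (1 + 1 / (|((h * q : ℤ) : ℝ)| * (Real.exp v' / (q * (j.2 * j'.2))))))) ^ E *
      |((h * q : ℤ) : ℝ)| ^ (-(1 / 400) : ℝ) ≤ Real.exp (28 * E * L - B * L / 400) := by
  have hq0 : 0 < q := by omega
  have hq0' : (0 : ℝ) < q := by exact_mod_cast hq0
  have hL0 : 0 ≤ L := by linarith
  obtain ⟨a1, a2, a3, a4⟩ := m4_NL hj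
  obtain ⟨b1, b2, b3, b4⟩ := m4_NL hj'
  have hh1 : 1 ≤ |(h : ℝ)| := by
    have : 1 ≤ |h| := Int.one_le_abs hh
    exact_mod_cast this
  have he1 : 2 ≤ Real.exp L := by
    have := Real.add_one_le_exp L
    linarith
  have h4e : (4 : ℝ) ≤ Real.exp 2 := by
    have h1 : (2 : ℝ) ≤ Real.exp 1 := by
      have := Real.add_one_le_exp (1 : ℝ)
      linarith
    have h2 : Real.exp 2 = Real.exp 1 * Real.exp 1 := by rw [← Real.exp_add]; norm_num
    rw [h2]; nlinarith
  have hqz : (qz q L : ℝ) ≤ Real.exp (2 * L) := by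
    refine ((qz_spec q hq0 hL0).2.2.2.1).trans ?_
    rw [mul_comm 2 L, mul_comm L 2, Real.exp_mul]
    exact Real.rpow_le_rpow (by norm_num) h4e hL0
  have hqz0 : 0 ≤ (qz q L : ℝ) := Nat.cast_nonneg _
  have hY : ∀ x : ℝ, 0 ≤ x → x ≤ 4 * L →
      (1 + |((h * q : ℤ) : ℝ)| * (Real.exp x / (q * (j.2 * j'.2)))) *
        (1 + 1 / (|((h * q : ℤ) : ℝ)| * (Real.exp x / (q * (j.2 * j'.2))))) ≤
        Real.exp (11 * L) := by
    intro x hx hx4
    have h1 := m4_low hq0 hj hj' h x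
    have h2 := m4_up hq0 hj hj' h x
    set Z := |((h * q : ℤ) : ℝ)| * (Real.exp x / (q * (j.2 * j'.2))) with hZ
    have h3 : Z ≤ Real.exp (7 * L) := by
      refine h2.trans ?_
      calc |(h : ℝ)| * Real.exp x ≤ Real.exp (3 * L) * Real.exp (4 * L) := by
            apply mul_le_mul hh3 (Real.exp_le_exp.mpr hx4) (Real.exp_pos _).le (Real.exp_pos _).le
        _ = Real.exp (7 * L) := by rw [← Real.exp_add]; ring_nf
    have h4 : Real.exp (-(2 * L)) ≤ Z := by
      refine le_trans ?_ h1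
      calc Real.exp (-(2 * L)) ≤ 1 * Real.exp (x - 2 * L) := by
            rw [one_mul]; exact Real.exp_le_exp.mpr (by linarith)
        _ ≤ _ := mul_le_mul_of_nonneg_right hh1 (Real.exp_pos _).le
    have hZ0 : 0 < Z := lt_of_lt_of_le (Real.exp_pos _) h4
    have h5 : 1 / Z ≤ Real.exp (2 * L) := by
      rw [div_le_iff₀ hZ0]
      have h6 : Real.exp (2 * L) * Real.exp (-(2 * L)) = 1 := by
        rw [← Real.exp_add]; simp
      rw [← h6]
      exact mul_le_mul_of_nonneg_left h4 (Real.exp_pos _).le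
    have h7 : 1 + Z ≤ Real.exp (8 * L) := by
      have e1 : Real.exp (8 * L) = Real.exp (7 * L) * Real.exp L := by
        rw [← Real.exp_add]; ring_nf
      have e2 : 1 ≤ Real.exp (7 * L) := Real.one_le_exp (by linarith)
      rw [e1]
      nlinarith
    have h8 : 1 + 1 / Z ≤ Real.exp (3 * L) := by
      have e1 : Real.exp (3 * L) = Real.exp (2 * L) * Real.exp L := by
        rw [← Real.exp_add]; ring_nf
      have e2 : 1 ≤ Real.exp (2 * L) := Real.one_le_exp (by linarith)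
      rw [e1]
      nlinarith
    calc (1 + Z) * (1 + 1 / Z) ≤ Real.exp (8 * L) * Real.exp (3 * L) :=
          mul_le_mul h7 h8 (by positivity) (Real.exp_pos _).le
      _ = Real.exp (11 * L) := by rw [← Real.exp_add]; ring_nf
  have h1 := hY v hv hv4
  have h2 := hY v' hv' hv4'
  set P := (1 + |((h * q : ℤ) : ℝ)| * (Real.exp v / (q * (j.2 * j'.2)))) *
        (1 + 1 / (|((h * q : ℤ) : ℝ)| * (Real.exp v / (q * (j.2 * j'.2))))) with hP
  set P' := (1 + |((h * q : ℤ) : ℝ)| * (Real.exp v' / (q * (j.2 * j'.2)))) *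
        (1 + 1 / (|((h * q : ℤ) : ℝ)| * (Real.exp v' / (q * (j.2 * j'.2))))) with hP'
  have hPn : 0 ≤ P := by rw [hP]; positivity
  have hPn' : 0 ≤ P' := by rw [hP']; positivity
  have hA : ((j.1 * j'.2 : ℕ) : ℝ) ≤ Real.exp (2 * L) := by
    push_cast
    rw [two_mul, Real.exp_add]
    exact mul_le_mul a3 b4 (Nat.cast_nonneg _) (Real.exp_pos _).le
  have hB' : ((j'.1 * j.2 : ℕ) : ℝ) ≤ Real.exp (2 * L) := by
    push_cast
    rw [two_mul, Real.exp_add]
    exact mul_le_mul b3 a4 (Nat.cast_nonneg _) (Real.exp_pos _).le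
  have h3 : (qz q L : ℝ) * ((j.1 * j'.2 : ℕ) : ℝ) * ((j'.1 * j.2 : ℕ) : ℝ) * P * P' ≤
      Real.exp (28 * L) := by
    calc _ ≤ Real.exp (2 * L) * Real.exp (2 * L) * Real.exp (2 * L) * Real.exp (11 * L) *
          Real.exp (11 * L) := by
          gcongr
      _ = Real.exp (28 * L) := by
          rw [← Real.exp_add, ← Real.exp_add, ← Real.exp_add, ← Real.exp_add]
          ring_nf
  have h4 : ((qz q L : ℝ) * ((j.1 * j'.2 : ℕ) : ℝ) * ((j'.1 * j.2 : ℕ) : ℝ) * P * P') ^ E ≤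
      Real.exp (28 * E * L) := by
    refine (Real.rpow_le_rpow (by positivity) h3 hE.le).trans (le_of_eq ?_)
    rw [← Real.exp_mul]
    ring_nf
  have h5 : |((h * q : ℤ) : ℝ)| ^ (-(1 / 400) : ℝ) ≤ Real.exp (-(B * L / 400)) := by
    have e1 : (q : ℝ) ≤ |((h * q : ℤ) : ℝ)| := by
      push_cast
      rw [abs_mul, abs_of_pos hq0']
      nlinarith
    refine (Real.rpow_le_rpow_of_nonpos hq0' e1 (by norm_num)).trans (le_of_eq ?_)
    rw [Real.rpow_def_of_pos hq0', hLB]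
    congr 1
    field_simp
  calc _ ≤ Real.exp (28 * E * L) * Real.exp (-(B * L / 400)) :=
        mul_le_mul h4 h5 (by positivity) (Real.exp_pos _).le
    _ = _ := by rw [← Real.exp_add]; ring_nf

/-- block M4 -/
theorem off_small_pr {k : ℕ} {a : ℕ → ℝ} (H : HData k a) (D : ℝ) : ∃ B₀ C : ℝ, 0 < B₀ ∧ 0 < C ∧
    ∀ (B : ℝ) (q : ℕ) (L : ℝ), B₀ ≤ B → 2 ≤ q → L = Real.log q / B → 1 ≤ L →
    ∃ b : ℤ → ℝ, Summable b ∧ (∀ h, 0 ≤ b h) ∧ ∑' h, b h ≤ C * Real.exp (-D * L) ∧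
      ∀ j ∈ JJ (NL L) q, ∀ j' ∈ JJ (NL L) q, ∀ h : ℤ, h ≠ 0 → ∀ v v' : ℝ, 0 ≤ v → v ≤ 4 * L →
        0 ≤ v' → v' ≤ 4 * L →
      |KK k a (qz q L) (j.1 * j'.2) (j'.1 * j.2) (h * q) (Real.exp v / (q * (j.2 * j'.2)))
        (Real.exp v' / (q * (j.2 * j'.2)))| ≤ b h := by
  obtain ⟨C₁, E, hC₁, hE, hoff⟩ := KK_off H
  obtain ⟨C₂, hC₂, htail⟩ := KK_tail H
  obtain ⟨n, hn⟩ := exists_nat_ge D
  set C₃ : ℝ := C₁ + C₂ * (2 * (6 + n).factorial) with hC₃
  have hC₃0 : 0 < C₃ := by positivity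
  have hW : 0 < ∑' h, m4_w h :=
    m4_summable.tsum_pos (fun h => (m4_pos h).le) 0 (m4_pos 0)
  refine ⟨400 * (28 * E + 7 + n), C₃ * ∑' h, m4_w h, by positivity, by positivity, ?_⟩
  intro B q L hB hq hL hL1
  have hB0 : 0 < B := lt_of_lt_of_le (by positivity) hB
  have hq0 : 0 < q := by omega
  have hq0' : (0 : ℝ) < q := by exact_mod_cast hq0
  refine ⟨fun h => C₃ * (Real.exp (-(n * L)) * m4_w h), ?_, ?_, ?_, ?_⟩
  · exact (m4_summable.mul_left _).mul_left _
  · intro h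
    have := m4_pos h
    positivity
  · rw [tsum_mul_left, tsum_mul_left]
    have h1 : Real.exp (-(n * L)) ≤ Real.exp (-D * L) := by
      apply Real.exp_le_exp.mpr
      nlinarith
    calc C₃ * (Real.exp (-(n * L)) * ∑' h, m4_w h) ≤
        C₃ * (Real.exp (-D * L) * ∑' h, m4_w h) := by gcongr
      _ = _ := by ring
  · intro j hj j' hj' h hh v v' hv hv4 hv' hv4'
    obtain ⟨a1, a2, a3, a4⟩ := m4_NL hj
    obtain ⟨b1, b2, b3, b4⟩ := m4_NL hj'
    have hA : 0 < j.1 * j'.2 := Nat.mul_pos a1 b2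
    have hB' : 0 < j'.1 * j.2 := Nat.mul_pos b1 a2
    have a2' : (0 : ℝ) < j.2 := by exact_mod_cast a2
    have b2' : (0 : ℝ) < j'.2 := by exact_mod_cast b2
    have hY : 0 < Real.exp v / (q * (j.2 * j'.2)) := by positivity
    have hY' : 0 < Real.exp v' / (q * (j.2 * j'.2)) := by positivity
    have hlne : (h * q : ℤ) ≠ 0 := mul_ne_zero hh (by exact_mod_cast hq0.ne')
    have hw := m4_pos h
    rcases le_total |(h : ℝ)| (Real.exp (3 * L)) with h3 | h3
    · have h4 := hoff (qz q L) (j.1 * j'.2) (j'.1 * j.2) (h * q) _ _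
        (qz_spec q hq0 (by linarith : (0 : ℝ) ≤ L)).1 hA hB' hlne hY hY'
      refine h4.trans ?_
      rw [mul_assoc]
      have h5 := m4_near hE hL1 hq hB0 hL hj hj' hh h3 hv hv4 hv' hv4'
      have h6 : Real.exp (28 * E * L - B * L / 400) ≤ Real.exp (-(n * L)) * m4_w h := by
        have h7 : Real.exp (-(7 * L)) ≤ m4_w h := by
          unfold m4_w
          rw [Real.exp_neg, inv_eq_one_div]
          apply one_div_le_one_div_of_le (by positivity)
          have e1 : (h : ℝ) ^ 2 ≤ Real.exp (6 * L) := by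
            rw [← sq_abs]
            calc |(h : ℝ)| ^ 2 ≤ Real.exp (3 * L) ^ 2 := pow_le_pow_left₀ (abs_nonneg _) h3 2
              _ = Real.exp (6 * L) := by rw [← Real.exp_nat_mul]; congr 1; push_cast; ring
          have e2 : Real.exp (7 * L) = Real.exp (6 * L) * Real.exp L := by
            rw [← Real.exp_add]; ring_nf
          have e3 : 2 ≤ Real.exp L := by
            have := Real.add_one_le_exp L
            linarith
          have e4 : 1 ≤ Real.exp (6 * L) := Real.one_le_exp (by linarith)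
          rw [e2]
          nlinarith
        calc Real.exp (28 * E * L - B * L / 400) ≤ Real.exp (-(n * L)) * Real.exp (-(7 * L)) := by
              rw [← Real.exp_add]
              apply Real.exp_le_exp.mpr
              have h8 : 400 * (28 * E + 7 + n) * L ≤ B * L :=
                mul_le_mul_of_nonneg_right hB (by linarith)
              linarith
          _ ≤ _ := mul_le_mul_of_nonneg_left h7 (Real.exp_pos _).le
      calc _ ≤ C₁ * (Real.exp (-(n * L)) * m4_w h) :=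
            mul_le_mul_of_nonneg_left (h5.trans h6) hC₁.le
        _ ≤ C₃ * (Real.exp (-(n * L)) * m4_w h) := by
            apply mul_le_mul_of_nonneg_right _ (by positivity)
            rw [hC₃]
            have : 0 ≤ C₂ * (2 * ((6 + n).factorial : ℝ)) := by positivity
            linarith
    · have h4 := htail (qz q L) (j.1 * j'.2) (j'.1 * j.2) (h * q) _ _ hA hB' hY hY'
      refine h4.trans ?_
      have h5 := m4_min hq0 hj hj' h (v := v) (v' := v') (X := 0) hv hv'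
      rw [zero_sub] at h5
      have h6 := m4_far n hL1 h3
      calc _ ≤ C₂ * Real.exp (-Real.pi * (|(h : ℝ)| * Real.exp (-(2 * L)))) := by
            apply mul_le_mul_of_nonneg_left _ hC₂.le
            apply Real.exp_le_exp.mpr
            have e1 : 0 ≤ Real.pi / 2 * (Real.exp v / (q * (j.2 * j'.2)) +
              Real.exp v' / (q * (j.2 * j'.2))) := by positivity
            have e2 := mul_le_mul_of_nonneg_left h5 Real.pi_pos.le
            linarith
        _ ≤ C₂ * (2 * (6 + n).factorial * (Real.exp (-(n * L)) * m4_w h)) :=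
            mul_le_mul_of_nonneg_left h6 hC₂.le
        _ ≤ C₃ * (Real.exp (-(n * L)) * m4_w h) := by
            rw [hC₃]
            have : 0 ≤ C₁ * (Real.exp (-(n * L)) * m4_w h) := by positivity
            nlinarith

/-- block M4 -/
theorem off_tail_pr {k : ℕ} {a : ℕ → ℝ} (H : HData k a) (D : ℝ) : ∃ C : ℝ, 0 < C ∧
    ∀ (q : ℕ) (L : ℝ), 2 ≤ q → 1 ≤ L →
    ∃ b : ℤ → ℝ, Summable b ∧ (∀ h, 0 ≤ b h) ∧ ∑' h, b h ≤ C * Real.exp (-D * L) ∧
      ∀ j ∈ JJ (NL L) q, ∀ j' ∈ JJ (NL L) q, ∀ h : ℤ, h ≠ 0 → ∀ v v' : ℝ, 4 * L ≤ v →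
        4 * L ≤ v' →
      |KK k a (qz q L) (j.1 * j'.2) (j'.1 * j.2) (h * q) (Real.exp v / (q * (j.2 * j'.2)))
        (Real.exp v' / (q * (j.2 * j'.2)))| ≤ b h *
          Real.exp (-(Real.pi / 2) * (Real.exp v / (q * Real.exp (2 * L)))) *
          Real.exp (-(Real.pi / 2) * (Real.exp v' / (q * Real.exp (2 * L)))) := by
  obtain ⟨C₂, hC₂, htail⟩ := KK_tail H
  obtain ⟨n, hn⟩ := exists_nat_ge D
  set C₃ : ℝ := C₂ * (2 * n.factorial) with hC₃
  have hC₃0 : 0 < C₃ := by positivity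
  have hW : 0 < ∑' h, m4_w h :=
    m4_summable.tsum_pos (fun h => (m4_pos h).le) 0 (m4_pos 0)
  refine ⟨C₃ * ∑' h, m4_w h, by positivity, ?_⟩
  intro q L hq hL1
  have hq0 : 0 < q := by omega
  have hq0' : (0 : ℝ) < q := by exact_mod_cast hq0
  refine ⟨fun h => C₃ * (Real.exp (-(n * L)) * m4_w h), ?_, ?_, ?_, ?_⟩
  · exact (m4_summable.mul_left _).mul_left _
  · intro h
    have := m4_pos h
    positivity
  · rw [tsum_mul_left, tsum_mul_left]
    have h1 : Real.exp (-(n * L)) ≤ Real.exp (-D * L) := by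
      apply Real.exp_le_exp.mpr
      nlinarith
    calc C₃ * (Real.exp (-(n * L)) * ∑' h, m4_w h) ≤
        C₃ * (Real.exp (-D * L) * ∑' h, m4_w h) := by gcongr
      _ = _ := by ring
  · intro j hj j' hj' h hh v v' hv hv'
    obtain ⟨a1, a2, a3, a4⟩ := m4_NL hj
    obtain ⟨b1, b2, b3, b4⟩ := m4_NL hj'
    have hA : 0 < j.1 * j'.2 := Nat.mul_pos a1 b2
    have hB' : 0 < j'.1 * j.2 := Nat.mul_pos b1 a2
    have a2' : (0 : ℝ) < j.2 := by exact_mod_cast a2
    have b2' : (0 : ℝ) < j'.2 := by exact_mod_cast b2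
    have hY : 0 < Real.exp v / (q * (j.2 * j'.2)) := by positivity
    have hY' : 0 < Real.exp v' / (q * (j.2 * j'.2)) := by positivity
    have h4 := htail (qz q L) (j.1 * j'.2) (j'.1 * j.2) (h * q) _ _ hA hB' hY hY'
    refine h4.trans ?_
    have h5 := m4_min hq0 hj hj' h (v := v) (v' := v') (X := 4 * L) hv hv'
    have e0 : 4 * L - 2 * L = 2 * L := by ring
    rw [e0] at h5
    have h6 := m4_tl n hL1 hh
    have hlow : ∀ x : ℝ, Real.exp x / (q * Real.exp (2 * L)) ≤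
        Real.exp x / (q * (j.2 * j'.2)) := by
      intro x
      apply div_le_div_of_nonneg_left (Real.exp_pos _).le (by positivity)
      apply mul_le_mul_of_nonneg_left _ hq0'.le
      rw [two_mul, Real.exp_add]
      exact mul_le_mul a4 b4 b2'.le (Real.exp_pos _).le
    have hl1 := hlow v
    have hl2 := hlow v'
    have hpi := Real.pi_pos
    calc _ ≤ C₂ * (Real.exp (-Real.pi * (|(h : ℝ)| * Real.exp (2 * L))) *
          Real.exp (-(Real.pi / 2) * (Real.exp v / (q * Real.exp (2 * L)))) *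
          Real.exp (-(Real.pi / 2) * (Real.exp v' / (q * Real.exp (2 * L))))) := by
          apply mul_le_mul_of_nonneg_left _ hC₂.le
          rw [← Real.exp_add, ← Real.exp_add]
          apply Real.exp_le_exp.mpr
          have e2 := mul_le_mul_of_nonneg_left h5 Real.pi_pos.le
          have e3 := mul_le_mul_of_nonneg_left hl1 (by positivity : (0 : ℝ) ≤ Real.pi / 2)
          have e4 := mul_le_mul_of_nonneg_left hl2 (by positivity : (0 : ℝ) ≤ Real.pi / 2)
          linarith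
      _ ≤ C₂ * ((2 * n.factorial * (Real.exp (-(n * L)) * m4_w h)) *
          Real.exp (-(Real.pi / 2) * (Real.exp v / (q * Real.exp (2 * L)))) *
          Real.exp (-(Real.pi / 2) * (Real.exp v' / (q * Real.exp (2 * L))))) := by
          gcongr
      _ = _ := by rw [hC₃]; ring

theorem off_small : type_of% @off_small_pr := @off_small_pr
theorem off_tail : type_of% @off_tail_pr := @off_tail_pr

end Pool.Agent.SEL
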