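import Pool.Agent.Lib_helper68.SEL.Defs
import Pool.Agent.Lib_helper24.ABS.FWE
import Pool.Agent.Lib_helper68.GL2.LAM1
import Pool.Agent.Lib_helper68.SEL.D3
import Pool.Agent.Lib_helper68.SEL.D5
import Pool.Agent.Lib_helper68.SEL.M2
import Pool.Agent.Lib_helper68.SEL.M3
import Pool.Agent.Lib_helper68.SEL.M4
import Pool.Agent.Lib_helper68.SEL.Z9

/-! Block M5: the two mean values of `fd` -/

namespace Pool.Agent.SEL

open Complex MeasureTheory Filter Topology Pool.Agent.GL2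

theorem sel_M5_dn {k : ℕ} {a : ℕ → ℝ} {q : ℕ} [NeZero q] (χ : DirichletCharacter ℂ q) (v : ℝ) :
    dn k a χ v = ((2 * (q : ℝ) ^ (-(k : ℝ) / 2) : ℝ) : ℂ) * dens k a χ (v + Real.log q) := by
  have hq : (0 : ℝ) < q := by exact_mod_cast Nat.pos_of_ne_zero (NeZero.ne q)
  unfold dn dens
  have h1 : Real.exp (k * (v + Real.log q) / 2) =
      Real.exp (k * v / 2) * (q : ℝ) ^ ((k : ℝ) / 2) := by
    rw [Real.rpow_def_of_pos hq, ← Real.exp_add]
    congr 1
    ring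
  have h2 : ∀ n : ℕ, -2 * Real.pi * n * Real.exp (v + Real.log q) / q =
      -2 * Real.pi * n * Real.exp v := by
    intro n
    rw [Real.exp_add, Real.exp_log hq]
    field_simp
  simp only [h2]
  rw [h1]
  have h3 : (q : ℝ) ^ (-(k : ℝ) / 2) * (q : ℝ) ^ ((k : ℝ) / 2) = 1 := by
    rw [← Real.rpow_add hq]
    have : -(k : ℝ) / 2 + (k : ℝ) / 2 = 0 := by ring
    rw [this, Real.rpow_zero]
  have h4 : ((2 * (q : ℝ) ^ (-(k : ℝ) / 2) : ℝ) : ℂ) *
      ((Real.exp (k * v / 2) * (q : ℝ) ^ ((k : ℝ) / 2) : ℝ) : ℂ) =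
      2 * (Real.exp (k * v / 2) : ℂ) := by
    rw [← Complex.ofReal_mul]
    have : 2 * (q : ℝ) ^ (-(k : ℝ) / 2) * (Real.exp (k * v / 2) * (q : ℝ) ^ ((k : ℝ) / 2)) =
        2 * Real.exp (k * v / 2) := by
      calc _ = 2 * Real.exp (k * v / 2) * ((q : ℝ) ^ (-(k : ℝ) / 2) * (q : ℝ) ^ ((k : ℝ) / 2)) := by
            ring
        _ = _ := by rw [h3, mul_one]
    rw [this]
    push_cast
    ring
  rw [← mul_assoc, h4]

theorem sel_M5_dn_cont {k : ℕ} {a : ℕ → ℝ} (H : HData k a) {q : ℕ} [NeZero q]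
    (χ : DirichletCharacter ℂ q) : Continuous (dn k a χ) := by
  have h1 : Continuous (dens k a χ) := by
    have := dens_continuous_pr H 1 χ
    have h2 : am a 1 = a := by
      funext n
      unfold am
      rw [if_pos (Nat.coprime_one_right n)]
    rwa [h2] at this
  have h2 : dn k a χ = fun v => ((2 * (q : ℝ) ^ (-(k : ℝ) / 2) : ℝ) : ℂ) *
      dens k a χ (v + Real.log q) := by
    funext v
    exact sel_M5_dn χ v
  rw [h2]
  exact continuous_const.mul (h1.comp (by fun_prop))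

theorem sel_M5_fd_cont {k : ℕ} {a : ℕ → ℝ} (H : HData k a) (β : ℕ → ℝ) (N : ℕ) {q : ℕ} [NeZero q]
    (χ : DirichletCharacter ℂ q) : Continuous (fd k a β N χ) := by
  unfold fd
  refine continuous_finsetSum _ fun m _ => continuous_finsetSum _ fun l _ => ?_
  exact continuous_const.mul ((sel_M5_dn_cont H χ).comp (by fun_prop))

/-- the coefficients -/
theorem sel_M5_cc {β : ℕ → ℝ} (hβ : ∀ n : ℕ, |β n| ≤ (n : ℝ) ^ 2) {L : ℝ} (hL : 1 ≤ L) (q : ℕ) :
    (∑ j ∈ JJ (NL L) q, |cc β j|) ^ 2 ≤ Real.exp (24 * L) := by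
  have hN := sel_D5_NL hL
  set N : ℕ := NL L with hNd
  have h1 : ∑ j ∈ JJ N q, |cc β j| ≤ ∑ j ∈ Finset.Ico 1 N ×ˢ Finset.Ico 1 N, (N : ℝ) ^ 4 := by
    refine (Finset.sum_le_sum_of_subset_of_nonneg (Finset.filter_subset _ _)
      fun _ _ _ => abs_nonneg _).trans (Finset.sum_le_sum fun j hj => ?_)
    rw [Finset.mem_product, Finset.mem_Ico, Finset.mem_Ico] at hj
    have e1 : (1 : ℝ) ≤ √(j.1 : ℝ) := by
      rw [Real.one_le_sqrt]; exact_mod_cast hj.1.1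
    have e2 : (1 : ℝ) ≤ √(j.2 : ℝ) := by
      rw [Real.one_le_sqrt]; exact_mod_cast hj.2.1
    have e3 : (j.1 : ℝ) ≤ N := by exact_mod_cast hj.1.2.le
    have e4 : (j.2 : ℝ) ≤ N := by exact_mod_cast hj.2.2.le
    unfold cc
    rw [abs_div, abs_mul, abs_of_nonneg (by positivity : (0 : ℝ) ≤ √(j.1 : ℝ) * √(j.2 : ℝ))]
    calc |β j.1| * |β j.2| / (√(j.1 : ℝ) * √(j.2 : ℝ)) ≤ |β j.1| * |β j.2| / 1 := by
          apply div_le_div_of_nonneg_left (by positivity) one_pos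
          nlinarith
      _ = |β j.1| * |β j.2| := div_one _
      _ ≤ (j.1 : ℝ) ^ 2 * (j.2 : ℝ) ^ 2 := mul_le_mul (hβ _) (hβ _) (abs_nonneg _) (by positivity)
      _ ≤ (N : ℝ) ^ 2 * (N : ℝ) ^ 2 := by gcongr
      _ = (N : ℝ) ^ 4 := by ring
  have h2 : ∑ j ∈ Finset.Ico 1 N ×ˢ Finset.Ico 1 N, (N : ℝ) ^ 4 ≤ (N : ℝ) ^ 6 := by
    rw [Finset.sum_const, Finset.card_product, Nat.card_Ico, nsmul_eq_mul]
    have : ((N - 1 : ℕ) : ℝ) ≤ N := by exact_mod_cast Nat.sub_le N 1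
    push_cast
    calc ((N - 1 : ℕ) : ℝ) * ((N - 1 : ℕ) : ℝ) * (N : ℝ) ^ 4 ≤ (N : ℝ) * (N : ℝ) * (N : ℝ) ^ 4 := by
          gcongr
      _ = _ := by ring
  have h0 : 0 ≤ ∑ j ∈ JJ N q, |cc β j| := Finset.sum_nonneg fun _ _ => abs_nonneg _
  calc (∑ j ∈ JJ N q, |cc β j|) ^ 2 ≤ ((N : ℝ) ^ 6) ^ 2 := by gcongr; exact h1.trans h2
    _ ≤ ((Real.exp (2 * L)) ^ 6) ^ 2 := by gcongr
    _ = Real.exp (24 * L) := by rw [← pow_mul, ← Real.exp_nat_mul]; ring_nf

theorem sel_M5_small {L : ℝ} (hL : 2 ≤ L) : Real.exp (24 * L) * Real.exp (-26 * L) * L ^ 2 ≤ 1 := by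
  rw [← Real.exp_add]
  have e : 24 * L + -26 * L = -(2 * L) := by ring
  rw [e, Real.exp_neg]
  have h1 : L ≤ Real.exp L := by have := Real.add_one_le_exp L; linarith
  have h2 : Real.exp (2 * L) = Real.exp L * Real.exp L := by rw [← Real.exp_add]; ring_nf
  rw [inv_mul_le_iff₀ (Real.exp_pos _), mul_one, h2]
  nlinarith

theorem sel_M5_cs {W : ℝ → ℂ} (hW : Measurable W) (hWb : ∃ B, ∀ v, ‖W v‖ ≤ B) {V : ℝ} (hV : 0 < V)
    (hWs : ∀ v, v < 0 ∨ V < v → W v = 0) : (∫ v, ‖W v‖) ^ 2 ≤ V * ∫ v, ‖W v‖ ^ 2 := by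
  obtain ⟨B, hB⟩ := hWb
  have hsupp : ∀ v, v ∉ Set.Icc 0 V → W v = 0 := by
    intro v hv
    apply hWs
    by_contra hcon
    push Not at hcon
    exact hv ⟨hcon.1, hcon.2⟩
  have e1 : ∫ v, ‖W v‖ = ∫ v in Set.Icc 0 V, ‖W v‖ := by
    rw [setIntegral_eq_integral_of_forall_compl_eq_zero]
    intro v hv; rw [hsupp v hv, norm_zero]
  have e2 : ∫ v, ‖W v‖ ^ 2 = ∫ v in Set.Icc 0 V, ‖W v‖ ^ 2 := by
    rw [setIntegral_eq_integral_of_forall_compl_eq_zero]
    intro v hv; rw [hsupp v hv, norm_zero]; simp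
  rw [e1, e2]
  have hB0 : 0 ≤ B := (norm_nonneg _).trans (hB 0)
  have hfin : volume (Set.Icc 0 V) ≠ ⊤ := by
    rw [Real.volume_Icc]; exact ENNReal.ofReal_ne_top
  have i1 : IntegrableOn (fun v => ‖W v‖) (Set.Icc 0 V) :=
    Measure.integrableOn_of_bounded (M := B) hfin hW.norm.aestronglyMeasurable
      (Eventually.of_forall fun v => by rw [norm_norm]; exact hB v)
  have i2 : IntegrableOn (fun v => ‖W v‖ ^ 2) (Set.Icc 0 V) :=
    Measure.integrableOn_of_bounded (M := B ^ 2) hfin (hW.norm.pow_const 2).aestronglyMeasurable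
      (Eventually.of_forall fun v => by
        rw [Real.norm_of_nonneg (by positivity)]; gcongr; exact hB v)
  set A : ℝ := ∫ v in Set.Icc 0 V, ‖W v‖ with hA
  have h0 : 0 ≤ ∫ v in Set.Icc 0 V, (‖W v‖ - A / V) ^ 2 := integral_nonneg fun v => by positivity
  have e3 : (fun v => (‖W v‖ - A / V) ^ 2) =
      fun v => ‖W v‖ ^ 2 - (2 * (A / V)) * ‖W v‖ + (A / V) ^ 2 := by funext v; ring
  have i3 : IntegrableOn (fun _ : ℝ => (A / V) ^ 2) (Set.Icc 0 V) := integrableOn_const hfin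
  have i4 : Integrable (fun v => ‖W v‖ ^ 2 - (2 * (A / V)) * ‖W v‖)
      (volume.restrict (Set.Icc 0 V)) := i2.sub (i1.const_mul _)
  rw [e3, integral_add i4 i3, integral_sub i2 (i1.const_mul _),
    integral_const_mul, ← hA, setIntegral_const, Real.volume_real_Icc_of_le hV.le,
    smul_eq_mul] at h0
  have e4 : (V - 0) * (A / V) ^ 2 = A ^ 2 / V := by field_simp; ring
  have e5 : 2 * (A / V) * A = 2 * (A ^ 2 / V) := by field_simp
  rw [e4, e5] at h0
  have h1 : A ^ 2 / V ≤ ∫ v in Set.Icc 0 V, ‖W v‖ ^ 2 := by linarith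
  rw [div_le_iff₀ hV] at h1
  linarith

theorem s_one_pr {k : ℕ} {a : ℕ → ℝ} (H : HData k a) {Θ : ℝ → ℝ} (h : Adm Θ)
    (h' : Adm (fun x => Real.exp x * Θ x)) (hΘ : ∀ x, 0 ≤ Θ x ∧ Θ x ≤ 1)
    (hΘ' : ∀ x, 1 ≤ x → Θ x = 0) :
    ∃ B₀ : ℝ, 2 ≤ B₀ ∧ ∀ B : ℝ, B₀ ≤ B → ∃ C : ℝ, 0 < C ∧ ∀ (q : ℕ) [NeZero q] (L : ℝ), 2 ≤ q →
      L = Real.log q / B → 2 ≤ L → ∀ W : ℝ → ℂ, Measurable W → (∃ B, ∀ v, ‖W v‖ ≤ B) →
      (∀ v, v < 0 ∨ 1 / 2 * L < v → W v = 0) →
      ∑ χ : DirichletCharacter ℂ q, ‖∫ v, fd k a (beA k a q L Θ) (NL L) χ v * W v‖ ^ 2 ≤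
        C * q.totient / L * ∫ v, ‖W v‖ ^ 2 := by
  obtain ⟨B1, hB1, hdiag⟩ := Diag_bounds H h h' hΘ hΘ'
  obtain ⟨B2, CO, hB2, hCO, hoff⟩ := off_small H 26
  refine ⟨max B1 B2, hB1.trans (le_max_left _ _), fun B hB => ?_⟩
  have hBB1 : B1 ≤ B := (le_max_left _ _).trans hB
  have hBB2 : B2 ≤ B := (le_max_right _ _).trans hB
  obtain ⟨C, hC, hdiag⟩ := hdiag B hBB1
  have hB0 : 2 ≤ B := hB1.trans hBB1
  refine ⟨4 * (2 * Real.pi * C + CO), by positivity, fun q _ L hq hLq hL W hWm hWb hWs => ?_⟩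
  have hL0 : 0 < L := by linarith
  have hL1 : 1 ≤ L := by linarith
  have hq0 : 0 < q := by omega
  have hqr : (0 : ℝ) < q := by exact_mod_cast hq0
  have hlog : Real.log q = B * L := by rw [hLq]; field_simp
  obtain ⟨hz1, hz2, hz3, hz4, hz5⟩ := qz_spec q hq0 hL0.le
  obtain ⟨hd1, hd2, hd3⟩ := hdiag q L hq hLq hL
  obtain ⟨b, hb1, hb2, hb3, hb4⟩ := hoff B q L hBB2 hq hLq hL1
  have hβ : ∀ n : ℕ, |beA k a q L Θ n| ≤ (n : ℝ) ^ 2 := sel_D5_be_le H q L hΘ
  have hsupp : ∀ v, v ∉ Set.Icc 0 (1 / 2 * L) → W v = 0 := by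
    intro v hv
    apply hWs
    by_contra hcon
    push Not at hcon
    exact hv ⟨hcon.1, hcon.2⟩
  have hm := mean_fd H hz2 (beA k a q L Θ) (NL L) hWm hWb (S := Set.Icc 0 (1 / 2 * L))
    measurableSet_Icc ⟨L, fun v hv => by rw [abs_of_nonneg hv.1]; linarith [hv.2]⟩ hsupp b hb1 hb2
    (fun _ => 1) continuous_const (fun _ => zero_le_one) (fun j hj j' hj' x hx v hv v' hv' => by
      rw [mul_one, mul_one]
      exact hb4 j hj j' hj' x hx v v' hv.1 (by linarith [hv.2]) hv'.1 (by linarith [hv'.2]))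
  refine hm.trans ?_
  have hI : 0 ≤ ∫ v, ‖W v‖ ^ 2 := integral_nonneg fun v => by positivity
  have hT1 : (∫ v, ∫ v', ‖W v‖ * ‖W v'‖ * ((1 / Real.cosh ((v - v') / 2)) ^ k *
          |Diag k a (qz q L) q (beA k a q L Θ) (NL L) ((Real.exp v + Real.exp v') / (2 * q))|)) ≤
      2 * Real.pi * (C / L) * ∫ v, ‖W v‖ ^ 2 := by
    refine schur_one H.kpos hWm hWb ⟨L, fun v hv => ?_⟩ (fun v v' hv hv' => ?_) (by positivity)
    · apply hWs
      rcases le_or_gt 0 v with h0 | h0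
      · right; rw [abs_of_nonneg h0] at hv; linarith
      · left; exact h0
    · have hv1 : v ∈ Set.Icc 0 (1 / 2 * L) := by
        by_contra hcon; exact hv (hsupp v hcon)
      have hv2 : v' ∈ Set.Icc 0 (1 / 2 * L) := by
        by_contra hcon; exact hv' (hsupp v' hcon)
      refine ⟨abs_nonneg _, ?_⟩
      have hypos : 0 < (Real.exp v + Real.exp v') / (2 * q) := by positivity
      rw [abs_of_nonneg (Diag_nonneg H _ _ _ _ hypos)]
      apply hd1 _ hypos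
      have e1 : Real.exp v ≤ Real.exp (1 / 2 * L) := Real.exp_le_exp.2 hv1.2
      have e2 : Real.exp v' ≤ Real.exp (1 / 2 * L) := Real.exp_le_exp.2 hv2.2
      have e3 : Real.exp (1 / 2 * L) ≤ (q : ℝ) ^ (1 / 2 : ℝ) := by
        rw [Real.rpow_def_of_pos hqr, hlog]
        apply Real.exp_le_exp.2
        nlinarith
      rw [div_le_iff₀ (by positivity)]
      have e4 : (q : ℝ) ^ (-(1 / 2) : ℝ) * (2 * q) = 2 * (q : ℝ) ^ (1 / 2 : ℝ) := by
        have : (q : ℝ) ^ (-(1 / 2) : ℝ) * q = (q : ℝ) ^ (1 / 2 : ℝ) := by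
          rw [← Real.rpow_add_one hqr.ne']
          norm_num
        linarith
      rw [e4]
      linarith
  have hT2 : (∑ j ∈ JJ (NL L) q, |cc (beA k a q L Θ) j|) ^ 2 * (∑' x, b x) *
      (∫ v, (1 : ℝ) * ‖W v‖) ^ 2 ≤ CO / L * ∫ v, ‖W v‖ ^ 2 := by
    simp only [one_mul]
    have e1 := sel_M5_cc hβ hL1 q
    have e2 := sel_M5_cs hWm hWb (V := 1 / 2 * L) (by positivity) hWs
    have e3 : 0 ≤ ∑' x, b x := tsum_nonneg hb2
    calc (∑ j ∈ JJ (NL L) q, |cc (beA k a q L Θ) j|) ^ 2 * (∑' x, b x) * (∫ v, ‖W v‖) ^ 2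
        ≤ Real.exp (24 * L) * (CO * Real.exp (-26 * L)) * (1 / 2 * L * ∫ v, ‖W v‖ ^ 2) := by
          gcongr
      _ = (Real.exp (24 * L) * Real.exp (-26 * L) * L ^ 2) *
          (1 / 2 * (CO / L) * ∫ v, ‖W v‖ ^ 2) := by field_simp
      _ ≤ 1 * (1 / 2 * (CO / L) * ∫ v, ‖W v‖ ^ 2) := by
          gcongr
          exact sel_M5_small hL
      _ ≤ CO / L * ∫ v, ‖W v‖ ^ 2 := by
          have : 0 ≤ CO / L * ∫ v, ‖W v‖ ^ 2 := by positivity
          linarith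
  calc 4 * (q.totient : ℝ) * ((∫ v, ∫ v', ‖W v‖ * ‖W v'‖ *
          ((1 / Real.cosh ((v - v') / 2)) ^ k *
          |Diag k a (qz q L) q (beA k a q L Θ) (NL L) ((Real.exp v + Real.exp v') / (2 * q))|)) +
        (∑ j ∈ JJ (NL L) q, |cc (beA k a q L Θ) j|) ^ 2 * (∑' x, b x) *
          (∫ v, (1 : ℝ) * ‖W v‖) ^ 2)
      ≤ 4 * (q.totient : ℝ) * (2 * Real.pi * (C / L) * (∫ v, ‖W v‖ ^ 2) +
        CO / L * ∫ v, ‖W v‖ ^ 2) := by
        gcongr
    _ = 4 * (2 * Real.pi * C + CO) * q.totient / L * ∫ v, ‖W v‖ ^ 2 := by ring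

/-- the mean square over one interval -/
theorem sel_M5_interval {k : ℕ} {a : ℕ → ℝ} (H : HData k a) {Θ : ℝ → ℝ}
    (hΘ : ∀ x, 0 ≤ Θ x ∧ Θ x ≤ 1) {q : ℕ} [NeZero q] (hq : 2 ≤ q) {L C : ℝ} (hL : 2 ≤ L)
    (hd2 : IntegrableOn (fun y : ℝ => Diag k a (qz q L) q (beA k a q L Θ) (NL L) y / y)
        (Set.Ici (1 / (q : ℝ))))
    (hd3 : ∫ y in Set.Ici (1 / (q : ℝ)), Diag k a (qz q L) q (beA k a q L Θ) (NL L) y / y ≤ C)
    {α R : ℝ} (hα : 0 ≤ α) (hαR : α ≤ R) (t : ℝ) (b : ℤ → ℝ) (hb : Summable b)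
    (hb0 : ∀ h, 0 ≤ b h) {CO : ℝ} (hbs : ∑' x, b x ≤ CO * Real.exp (-26 * L))
    (ω : ℝ → ℝ) (hω : Continuous ω) (hω0 : ∀ v, 0 ≤ ω v)
    (hK : ∀ j ∈ JJ (NL L) q, ∀ j' ∈ JJ (NL L) q, ∀ h : ℤ, h ≠ 0 → ∀ v ∈ Set.Ioc α R,
      ∀ v' ∈ Set.Ioc α R,
      |KK k a (qz q L) (j.1 * j'.2) (j'.1 * j.2) (h * q) (Real.exp v / (q * (j.2 * j'.2)))
        (Real.exp v' / (q * (j.2 * j'.2)))| ≤ b h * ω v * ω v') {M : ℝ}
    (hωM : ∫ v in Set.Ioc α R, ω v ≤ M * L) :
    ∑ χ : DirichletCharacter ℂ q, ‖∫ v in Set.Ioc α R, fd k a (beA k a q L Θ) (NL L) χ v *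
      cexp (t * v * I)‖ ^ 2 ≤ 4 * (2 * Real.pi * C + CO * M ^ 2) * q.totient := by
  have hL0 : 0 < L := by linarith
  have hL1 : 1 ≤ L := by linarith
  have hq0 : 0 < q := by omega
  obtain ⟨hz1, hz2, hz3, hz4, hz5⟩ := qz_spec q hq0 hL0.le
  have hβ : ∀ n : ℕ, |beA k a q L Θ n| ≤ (n : ℝ) ^ 2 := sel_D5_be_le H q L hΘ
  set W : ℝ → ℂ := (Set.Ioc α R).indicator (fun v => cexp (t * v * I)) with hW
  have hWm : Measurable W := by
    rw [hW]
    exact Measurable.indicator (by fun_prop) measurableSet_Ioc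
  have hWn : ∀ v, ‖W v‖ = (Set.Ioc α R).indicator (fun _ => (1 : ℝ)) v := by
    intro v
    rw [hW]
    by_cases hv : v ∈ Set.Ioc α R
    · rw [Set.indicator_of_mem hv, Set.indicator_of_mem hv, ABS.expI_norm]
    · rw [Set.indicator_of_notMem hv, Set.indicator_of_notMem hv, norm_zero]
  have hWb : ∃ B, ∀ v, ‖W v‖ ≤ B := by
    refine ⟨1, fun v => ?_⟩
    rw [hWn]
    exact Set.indicator_le_self' (fun _ _ => zero_le_one) v
  have hm := mean_fd H hz2 (beA k a q L Θ) (NL L) hWm hWb (S := Set.Ioc α R)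
    measurableSet_Ioc ⟨R, fun v hv => by
      rw [abs_of_nonneg (hα.trans hv.1.le)]; exact hv.2⟩
    (fun v hv => by rw [hW, Set.indicator_of_notMem hv]) b hb hb0 ω hω hω0 hK
  have e0 : ∀ χ : DirichletCharacter ℂ q, ∫ v in Set.Ioc α R,
      fd k a (beA k a q L Θ) (NL L) χ v * cexp (t * v * I) =
      ∫ v, fd k a (beA k a q L Θ) (NL L) χ v * W v := by
    intro χ
    rw [← integral_indicator measurableSet_Ioc]
    congr 1
    funext v
    rw [hW]
    by_cases hv : v ∈ Set.Ioc α R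
    · rw [Set.indicator_of_mem hv, Set.indicator_of_mem hv]
    · rw [Set.indicator_of_notMem hv, Set.indicator_of_notMem hv, mul_zero]
  simp only [e0]
  refine hm.trans ?_
  have hT1 : (∫ v, ∫ v', ‖W v‖ * ‖W v'‖ * ((1 / Real.cosh ((v - v') / 2)) ^ k *
          |Diag k a (qz q L) q (beA k a q L Θ) (NL L) ((Real.exp v + Real.exp v') / (2 * q))|)) ≤
      2 * Real.pi * C := by
    have h1 := schur_diag H.kpos hq0 (Diag k a (qz q L) q (beA k a q L Θ) (NL L))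
      (fun y hy => Diag_nonneg H _ _ _ _ hy) (Diag_cont H _ _ _ _) hd2 hα hαR
    have e1 : (∫ v, ∫ v', ‖W v‖ * ‖W v'‖ * ((1 / Real.cosh ((v - v') / 2)) ^ k *
          |Diag k a (qz q L) q (beA k a q L Θ) (NL L) ((Real.exp v + Real.exp v') / (2 * q))|)) =
        ∫ v in Set.Ioc α R, ∫ v' in Set.Ioc α R, (1 / Real.cosh ((v - v') / 2)) ^ k *
          Diag k a (qz q L) q (beA k a q L Θ) (NL L) ((Real.exp v + Real.exp v') / (2 * q)) := by
      rw [← integral_indicator measurableSet_Ioc]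
      congr 1
      funext v
      by_cases hv : v ∈ Set.Ioc α R
      · rw [Set.indicator_of_mem hv, ← integral_indicator measurableSet_Ioc]
        congr 1
        funext v'
        have hypos : 0 < (Real.exp v + Real.exp v') / (2 * q) := by positivity
        rw [abs_of_nonneg (Diag_nonneg H _ _ _ _ hypos), hWn, hWn, Set.indicator_of_mem hv,
          one_mul]
        by_cases hv' : v' ∈ Set.Ioc α R
        · rw [Set.indicator_of_mem hv', Set.indicator_of_mem hv', one_mul]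
        · rw [Set.indicator_of_notMem hv', Set.indicator_of_notMem hv', zero_mul]
      · rw [Set.indicator_of_notMem hv]
        have : ∀ v', ‖W v‖ * ‖W v'‖ * ((1 / Real.cosh ((v - v') / 2)) ^ k *
          |Diag k a (qz q L) q (beA k a q L Θ) (NL L) ((Real.exp v + Real.exp v') / (2 * q))|) =
            0 := by
          intro v'
          rw [hWn v, Set.indicator_of_notMem hv]
          ring
        simp only [this, integral_zero]
    rw [e1]
    refine h1.trans ?_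
    gcongr
  have hWω : ∫ v, ω v * ‖W v‖ = ∫ v in Set.Ioc α R, ω v := by
    rw [← integral_indicator measurableSet_Ioc]
    congr 1
    funext v
    rw [hWn]
    by_cases hv : v ∈ Set.Ioc α R
    · rw [Set.indicator_of_mem hv, Set.indicator_of_mem hv, mul_one]
    · rw [Set.indicator_of_notMem hv, Set.indicator_of_notMem hv, mul_zero]
  have hT2 : (∑ j ∈ JJ (NL L) q, |cc (beA k a q L Θ) j|) ^ 2 * (∑' x, b x) *
      (∫ v, ω v * ‖W v‖) ^ 2 ≤ CO * M ^ 2 := by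
    have e1 := sel_M5_cc hβ hL1 q
    have e3 : 0 ≤ ∑' x, b x := tsum_nonneg hb0
    have e4 : 0 ≤ ∫ v in Set.Ioc α R, ω v := integral_nonneg fun v => hω0 v
    have hCO : 0 ≤ CO := by
      have := e3.trans hbs
      exact nonneg_of_mul_nonneg_left this (Real.exp_pos _)
    rw [hWω]
    calc (∑ j ∈ JJ (NL L) q, |cc (beA k a q L Θ) j|) ^ 2 * (∑' x, b x) *
          (∫ v in Set.Ioc α R, ω v) ^ 2
        ≤ Real.exp (24 * L) * (CO * Real.exp (-26 * L)) * (M * L) ^ 2 := by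
          gcongr
      _ = (Real.exp (24 * L) * Real.exp (-26 * L) * L ^ 2) * (CO * M ^ 2) := by ring
      _ ≤ 1 * (CO * M ^ 2) := by
          gcongr
          exact sel_M5_small hL
      _ = _ := one_mul _
  calc 4 * (q.totient : ℝ) * ((∫ v, ∫ v', ‖W v‖ * ‖W v'‖ *
          ((1 / Real.cosh ((v - v') / 2)) ^ k *
          |Diag k a (qz q L) q (beA k a q L Θ) (NL L) ((Real.exp v + Real.exp v') / (2 * q))|)) +
        (∑ j ∈ JJ (NL L) q, |cc (beA k a q L Θ) j|) ^ 2 * (∑' x, b x) *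
          (∫ v, ω v * ‖W v‖) ^ 2)
      ≤ 4 * (q.totient : ℝ) * (2 * Real.pi * C + CO * M ^ 2) := by
        gcongr
    _ = _ := by ring

theorem s_three_pr {k : ℕ} {a : ℕ → ℝ} (H : HData k a) {Θ : ℝ → ℝ} (h : Adm Θ)
    (h' : Adm (fun x => Real.exp x * Θ x)) (hΘ : ∀ x, 0 ≤ Θ x ∧ Θ x ≤ 1)
    (hΘ' : ∀ x, 1 ≤ x → Θ x = 0) :
    ∃ B₀ : ℝ, 2 ≤ B₀ ∧ ∀ B : ℝ, B₀ ≤ B → ∃ C : ℝ, 0 < C ∧ ∀ (q : ℕ) [NeZero q] (L : ℝ), 2 ≤ q →
      L = Real.log q / B → 2 ≤ L → ∀ R : ℝ, 0 < R → ∀ t : ℝ,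
      ∑ χ : DirichletCharacter ℂ q, ‖∫ v in Set.Ioc 0 R, fd k a (beA k a q L Θ) (NL L) χ v *
        cexp (t * v * I)‖ ^ 2 ≤ C * q.totient := by
  obtain ⟨B1, hB1, hdiag⟩ := Diag_bounds H h h' hΘ hΘ'
  obtain ⟨B2, CO, hB2, hCO, hoff⟩ := off_small H 26
  obtain ⟨CT, hCT, htail⟩ := off_tail H 26
  refine ⟨max B1 B2, hB1.trans (le_max_left _ _), fun B hB => ?_⟩
  have hBB1 : B1 ≤ B := (le_max_left _ _).trans hB
  have hBB2 : B2 ≤ B := (le_max_right _ _).trans hB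
  obtain ⟨C, hC, hdiag⟩ := hdiag B hBB1
  have hB0 : 2 ≤ B := hB1.trans hBB1
  refine ⟨2 * (4 * (2 * Real.pi * C + CO * 4 ^ 2)) +
    2 * (4 * (2 * Real.pi * C + CT * (B + 3) ^ 2)), by positivity,
    fun q _ L hq hLq hL R hR t => ?_⟩
  have hL0 : 0 < L := by linarith
  have hL1 : 1 ≤ L := by linarith
  have hq0 : 0 < q := by omega
  have hqr : (0 : ℝ) < q := by exact_mod_cast hq0
  have hlog : Real.log q = B * L := by rw [hLq]; field_simp
  obtain ⟨hd1, hd2, hd3⟩ := hdiag q L hq hLq hL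
  obtain ⟨b, hb1, hb2, hb3, hb4⟩ := hoff B q L hBB2 hq hLq hL1
  obtain ⟨c, hc1, hc2, hc3, hc4⟩ := htail q L hq hL1
  set F : DirichletCharacter ℂ q → ℝ → ℂ := fun χ v =>
    fd k a (beA k a q L Θ) (NL L) χ v * cexp (t * v * I) with hF
  have hFc : ∀ χ, Continuous (F χ) := fun χ =>
    (sel_M5_fd_cont H _ _ χ).mul (by fun_prop)
  have hFi : ∀ χ (x y : ℝ), IntegrableOn (F χ) (Set.Ioc x y) := fun χ x y =>
    ((hFc χ).continuousOn.integrableOn_Icc (a := x) (b := y)).mono_set Set.Ioc_subset_Icc_self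
  set V : ℝ := 4 * L with hV
  have hV0 : 0 < V := by positivity
  -- first interval
  have hP1 : ∑ χ : DirichletCharacter ℂ q, ‖∫ v in Set.Ioc 0 (min R V), F χ v‖ ^ 2 ≤
      4 * (2 * Real.pi * C + CO * 4 ^ 2) * q.totient := by
    refine sel_M5_interval H hΘ hq hL hd2 hd3 le_rfl (le_min hR.le hV0.le) t b hb1 hb2 hb3
      (fun _ => 1) continuous_const (fun _ => zero_le_one) ?_ ?_
    · intro j hj j' hj' x hx v hv v' hv'
      rw [mul_one, mul_one]
      exact hb4 j hj j' hj' x hx v v' hv.1.le (hv.2.trans (min_le_right _ _)) hv'.1.le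
        (hv'.2.trans (min_le_right _ _))
    · rw [setIntegral_const, smul_eq_mul, mul_one, Real.volume_real_Ioc_of_le (by positivity)]
      rw [sub_zero]
      exact min_le_right _ _
  have hP2 : ∑ χ : DirichletCharacter ℂ q, ‖∫ v in Set.Ioc V R, F χ v‖ ^ 2 ≤
      4 * (2 * Real.pi * C + CT * (B + 3) ^ 2) * q.totient := by
    rcases le_or_gt R V with hRV | hRV
    · rw [Set.Ioc_eq_empty (not_lt.2 hRV)]
      simp only [Measure.restrict_empty, integral_zero_measure, norm_zero]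
      simp only [ne_eq, OfNat.ofNat_ne_zero, not_false_eq_true, zero_pow, Finset.sum_const_zero]
      positivity
    set v₀ : ℝ := Real.log q + 2 * L with hv₀
    have hv₀0 : 0 < v₀ := by rw [hv₀, hlog]; positivity
    have hev₀ : (q : ℝ) * Real.exp (2 * L) = Real.exp v₀ := by
      rw [hv₀, Real.exp_add, Real.exp_log hqr]
    set ω : ℝ → ℝ := fun v => Real.exp (-(Real.pi / 2) * (Real.exp v / (q * Real.exp (2 * L))))
      with hω
    have hωc : Continuous ω := by rw [hω]; fun_prop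
    refine sel_M5_interval H hΘ hq hL hd2 hd3 hV0.le hRV.le t c hc1 hc2 hc3 ω hωc
      (fun v => (Real.exp_pos _).le) ?_ ?_
    · intro j hj j' hj' x hx v hv v' hv'
      exact hc4 j hj j' hj' x hx v v' hv.1.le hv'.1.le
    · -- the integral of ω
      have hω1 : ∀ v, ω v ≤ 1 := by
        intro v
        rw [hω]
        show Real.exp _ ≤ 1
        rw [Real.exp_le_one_iff]
        have : 0 ≤ Real.exp v / (q * Real.exp (2 * L)) := by positivity
        have := Real.pi_pos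
        nlinarith
      have hω2 : ∀ v, ω v ≤ Real.exp (v₀ - v) := by
        intro v
        apply Real.exp_le_exp.2
        rw [hev₀, ← Real.exp_sub]
        have h1 := Real.add_one_le_exp (v - v₀)
        have h2 := Real.pi_gt_three
        nlinarith [Real.exp_pos (v - v₀)]
      set g : ℝ → ℝ := fun v => (Set.Ioc 0 v₀).indicator (fun _ => (1 : ℝ)) v +
        (Set.Ioi v₀).indicator (fun v => Real.exp (v₀ - v)) v with hg
      have hi2 : IntegrableOn (fun v : ℝ => Real.exp (v₀ - v)) (Set.Ioi v₀) := by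
        have := (integrableOn_exp_neg_Ioi v₀).const_mul (Real.exp v₀)
        refine this.congr (Eventually.of_forall fun v => ?_)
        show Real.exp v₀ * Real.exp (-v) = _
        rw [← Real.exp_add]; ring_nf
      have hgi1 : Integrable ((Set.Ioc 0 v₀).indicator (fun _ => (1 : ℝ))) := by
        rw [integrable_indicator_iff measurableSet_Ioc]
        exact integrableOn_const (by simp)
      have hgi2 : Integrable ((Set.Ioi v₀).indicator (fun v => Real.exp (v₀ - v))) := by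
        rw [integrable_indicator_iff measurableSet_Ioi]
        exact hi2
      have hgi : Integrable g := hgi1.add hgi2
      have hle : ∀ v ∈ Set.Ioc V R, ω v ≤ g v := by
        intro v hv
        rw [hg]
        show ω v ≤ _ + _
        have hv0 : 0 < v := hV0.trans hv.1
        rcases le_or_gt v v₀ with h1 | h1
        · rw [Set.indicator_of_mem (show v ∈ Set.Ioc 0 v₀ from ⟨hv0, h1⟩)]
          have : 0 ≤ (Set.Ioi v₀).indicator (fun v => Real.exp (v₀ - v)) v :=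
            Set.indicator_nonneg (fun _ _ => (Real.exp_pos _).le) v
          linarith [hω1 v]
        · rw [Set.indicator_of_mem (show v ∈ Set.Ioi v₀ from h1)]
          have : 0 ≤ (Set.Ioc 0 v₀).indicator (fun _ => (1 : ℝ)) v :=
            Set.indicator_nonneg (fun _ _ => zero_le_one) v
          linarith [hω2 v]
      have hgn : ∀ v, 0 ≤ g v := fun v => add_nonneg
        (Set.indicator_nonneg (fun _ _ => zero_le_one) v)
        (Set.indicator_nonneg (fun _ _ => (Real.exp_pos _).le) v)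
      have hωi : IntegrableOn ω (Set.Ioc V R) :=
        (hωc.continuousOn.integrableOn_Icc (a := V) (b := R)).mono_set Set.Ioc_subset_Icc_self
      calc ∫ v in Set.Ioc V R, ω v ≤ ∫ v in Set.Ioc V R, g v :=
            setIntegral_mono_on hωi hgi.integrableOn measurableSet_Ioc hle
        _ ≤ ∫ v, g v := setIntegral_le_integral hgi (Eventually.of_forall hgn)
        _ = v₀ + 1 := by
            rw [hg, integral_add hgi1 hgi2, integral_indicator measurableSet_Ioc,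
              integral_indicator measurableSet_Ioi, setIntegral_const, smul_eq_mul, mul_one,
              Real.volume_real_Ioc_of_le hv₀0.le, sub_zero]
            congr 1
            have e1 : (fun v : ℝ => Real.exp (v₀ - v)) = fun v => Real.exp v₀ * Real.exp (-v) := by
              funext v; rw [← Real.exp_add]; ring_nf
            rw [e1, integral_const_mul, integral_exp_neg_Ioi, ← Real.exp_add]
            simp
        _ ≤ (B + 3) * L := by rw [hv₀, hlog]; nlinarith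
  have hsplit : ∀ χ : DirichletCharacter ℂ q, ‖∫ v in Set.Ioc 0 R, F χ v‖ ^ 2 ≤
      2 * ‖∫ v in Set.Ioc 0 (min R V), F χ v‖ ^ 2 + 2 * ‖∫ v in Set.Ioc V R, F χ v‖ ^ 2 := by
    intro χ
    have hun : Set.Ioc 0 R = Set.Ioc 0 (min R V) ∪ Set.Ioc V R := by
      rcases le_or_gt R V with hRV | hRV
      · rw [min_eq_left hRV, Set.Ioc_eq_empty (not_lt.2 hRV), Set.union_empty]
      · rw [min_eq_right hRV.le, Set.Ioc_union_Ioc_eq_Ioc hV0.le hRV.le]
    have hdis : Disjoint (Set.Ioc 0 (min R V)) (Set.Ioc V R) := by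
      rw [Set.disjoint_left]
      intro v hv hv'
      exact absurd (hv.2.trans (min_le_right _ _)) (not_le.2 hv'.1)
    rw [hun, setIntegral_union hdis measurableSet_Ioc (hFi χ _ _) (hFi χ _ _)]
    have h1 := norm_add_le (∫ v in Set.Ioc 0 (min R V), F χ v) (∫ v in Set.Ioc V R, F χ v)
    have h2 : ‖(∫ v in Set.Ioc 0 (min R V), F χ v) + ∫ v in Set.Ioc V R, F χ v‖ ^ 2 ≤
      (‖∫ v in Set.Ioc 0 (min R V), F χ v‖ + ‖∫ v in Set.Ioc V R, F χ v‖) ^ 2 := by gcongr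
    nlinarith [sq_nonneg (‖∫ v in Set.Ioc 0 (min R V), F χ v‖ - ‖∫ v in Set.Ioc V R, F χ v‖)]
  calc ∑ χ : DirichletCharacter ℂ q, ‖∫ v in Set.Ioc 0 R, F χ v‖ ^ 2
      ≤ ∑ χ : DirichletCharacter ℂ q, (2 * ‖∫ v in Set.Ioc 0 (min R V), F χ v‖ ^ 2 +
        2 * ‖∫ v in Set.Ioc V R, F χ v‖ ^ 2) := Finset.sum_le_sum fun χ _ => hsplit χ
    _ = 2 * ∑ χ : DirichletCharacter ℂ q, ‖∫ v in Set.Ioc 0 (min R V), F χ v‖ ^ 2 +
        2 * ∑ χ : DirichletCharacter ℂ q, ‖∫ v in Set.Ioc V R, F χ v‖ ^ 2 := by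
        rw [Finset.sum_add_distrib, Finset.mul_sum, Finset.mul_sum]
    _ ≤ 2 * (4 * (2 * Real.pi * C + CO * 4 ^ 2) * q.totient) +
        2 * (4 * (2 * Real.pi * C + CT * (B + 3) ^ 2) * q.totient) := by gcongr
    _ = _ := by ring

theorem s_one : type_of% @s_one_pr := @s_one_pr
theorem s_three : type_of% @s_three_pr := @s_three_pr

end Pool.Agent.SEL
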