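import Pool.Agent.Lib_helper68.SEL.Defs
import Pool.Agent.Lib_helper68.SEL.D1
import Pool.Agent.Lib_helper68.SEL.D2
import Pool.Agent.Lib_helper68.SEL.Z11A
import Pool.Agent.Lib_helper68.SEL.Z12
import Pool.Agent.Lib_helper68.SEL.Z2

/-! [SEL Z13] Chebyshev's bound. Cites: D1 DU_hasSum, D2 DU_near QU_le, Z2 lam_alA_le,
Z11A exists_bump, Z12 gen_nu. -/

namespace Pool.Agent.SEL

open Complex MeasureTheory Filter Topology Pool.Agent.GL2

theorem sel_z13_lam_one {k : ℕ} {a : ℕ → ℝ} (H : HData k a) : lam k a 1 = 1 := by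
  simp [lam, H.one]

theorem sel_z13_al_one (k : ℕ) (a : ℕ → ℝ) (q : ℕ) : alA k a q 1 = 1 := by
  simp [alA]

theorem sel_z13_nu_one (k : ℕ) (a : ℕ → ℝ) (L : ℝ) (Θ : ℝ → ℝ) (h0 : Θ 0 = 1) :
    nuA k a L Θ 1 = 1 := by
  simp [nuA, h0, sel_z13_al_one, ArithmeticFunction.mul_apply]

theorem sel_z13_conv_le {k : ℕ} {a : ℕ → ℝ} (H : HData k a) (n : ℕ) :
    |(alA k a 1 * alA k a 1) n| ≤ (n : ℝ) ^ 3 := by
  rw [ArithmeticFunction.mul_apply]
  refine (Finset.abs_sum_le_sum_abs _ _).trans ?_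
  have h1 : ∀ v ∈ n.divisorsAntidiagonal, |alA k a 1 v.1 * alA k a 1 v.2| ≤ (n : ℝ) ^ 2 := by
    intro v hv
    obtain ⟨h2, h3⟩ := Nat.mem_divisorsAntidiagonal.1 hv
    have hv1 : 0 < v.1 := Nat.pos_of_ne_zero (fun h => h3 (by rw [← h2, h, zero_mul]))
    have hv2 : 0 < v.2 := Nat.pos_of_ne_zero (fun h => h3 (by rw [← h2, h, mul_zero]))
    have a1 := (lam_alA_le H 1 v.1 hv1).2
    have a2 := (lam_alA_le H 1 v.2 hv2).2
    rw [abs_mul, ← h2]
    push_cast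
    rw [mul_pow]
    exact mul_le_mul a1 a2 (abs_nonneg _) (by positivity)
  refine (Finset.sum_le_card_nsmul _ _ _ h1).trans ?_
  have hc : n.divisorsAntidiagonal.card = n.divisors.card := by
    rw [Finset.card_eq_sum_ones, Finset.card_eq_sum_ones]
    exact Nat.sum_divisorsAntidiagonal (n := n) (fun _ _ => 1)
  rw [nsmul_eq_mul, hc]
  have h4 : (n.divisors.card : ℝ) ≤ n := by exact_mod_cast Nat.card_divisors_le_self n
  calc (n.divisors.card : ℝ) * (n : ℝ) ^ 2 ≤ n * (n : ℝ) ^ 2 :=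
        mul_le_mul_of_nonneg_right h4 (by positivity)
    _ = (n : ℝ) ^ 3 := by ring

theorem sel_z13_nu_zero {k : ℕ} {a : ℕ → ℝ} {L : ℝ} (hL : 0 < L) {Θ : ℝ → ℝ}
    (h1 : ∀ x, 1 ≤ x → Θ x = 0) {n : ℕ} (hn : Real.exp L ≤ n) : nuA k a L Θ n = 0 := by
  have hn0 : (0 : ℝ) < n := lt_of_lt_of_le (Real.exp_pos L) hn
  have : 1 ≤ Real.log n / L := by
    rw [le_div_iff₀ hL, one_mul]
    rw [Real.le_log_iff_exp_le hn0]
    exact hn
  show (alA k a 1 * alA k a 1) n * Θ (Real.log n / L) = 0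
  rw [h1 _ this, mul_zero]

theorem sel_z13_nu_le {k : ℕ} {a : ℕ → ℝ} (H : HData k a) {L : ℝ} (hL : 0 < L) {Θ : ℝ → ℝ}
    (h0 : ∀ x, 0 ≤ Θ x ∧ Θ x ≤ 1) (h1 : ∀ x, 1 ≤ x → Θ x = 0) (n : ℕ) :
    |nuA k a L Θ n| ≤ Real.exp (3 * L) := by
  by_cases hn : Real.exp L ≤ n
  · rw [sel_z13_nu_zero hL h1 hn, abs_zero]
    positivity
  · push Not at hn
    show |(alA k a 1 * alA k a 1) n * Θ (Real.log n / L)| ≤ _
    rw [abs_mul, abs_of_nonneg (h0 _).1]
    calc |(alA k a 1 * alA k a 1) n| * Θ (Real.log n / L)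
        ≤ (n : ℝ) ^ 3 * 1 := mul_le_mul (sel_z13_conv_le H n) (h0 _).2 (h0 _).1 (by positivity)
      _ ≤ (Real.exp L) ^ 3 := by
        rw [mul_one]
        exact pow_le_pow_left₀ (by positivity) hn.le 3
      _ = Real.exp (3 * L) := by
        rw [← Real.exp_nat_mul]; norm_num

/-- at a prime beyond `e^L` -/
theorem sel_z13_prime {k : ℕ} {a : ℕ → ℝ} {L : ℝ} (hL : 0 < L) {Θ : ℝ → ℝ}
    (h0 : Θ 0 = 1) (h1 : ∀ x, 1 ≤ x → Θ x = 0) {p : ℕ} (hp : p.Prime)
    (hpL : Real.exp L ≤ p) : (lamA k a 1 * nuA k a L Θ) p = lam k a p := by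
  rw [ArithmeticFunction.mul_apply,
    Nat.sum_divisorsAntidiagonal (f := fun x y => lamA k a 1 x * nuA k a L Θ y),
    Nat.Prime.sum_divisors hp, Nat.div_self hp.pos, Nat.div_one,
    sel_z13_nu_zero hL h1 hpL, sel_z13_nu_one k a L Θ h0]
  simp [lamA, hp.ne_zero]

theorem sel_z13_NL {L : ℝ} (hL : 1 ≤ L) : ((NL L : ℕ) : ℝ) ≤ Real.exp (3 * L) := by
  have h1 : ((NL L : ℕ) : ℝ) < Real.exp L + 1 := Nat.ceil_lt_add_one (Real.exp_pos L).le
  have h2 : 2 ≤ Real.exp L := by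
    have := Real.add_one_le_exp L
    linarith
  have h3 : Real.exp (3 * L) = Real.exp L ^ 3 := by
    rw [← Real.exp_nat_mul]; norm_num
  rw [h3]
  nlinarith [mul_nonneg (by linarith : (0 : ℝ) ≤ Real.exp L - 2) (by linarith : (0 : ℝ) ≤ Real.exp L),
    mul_nonneg (mul_nonneg (by linarith : (0 : ℝ) ≤ Real.exp L - 2)
      (by linarith : (0 : ℝ) ≤ Real.exp L)) (by linarith : (0 : ℝ) ≤ Real.exp L)]

/-- the dyadic step -/
theorem sel_z13_dyadic {k : ℕ} {a : ℕ → ℝ} (H : HData k a) : ∃ (K : ℝ) (N₀ : ℕ), 0 < K ∧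
    0 < N₀ ∧ ∀ N : ℕ, N₀ ≤ N →
      ∑ p ∈ (Finset.Ioc (N / 2) N).filter Nat.Prime, (lam k a p) ^ 2 * Real.log p ≤ K * N := by
  obtain ⟨Θ, hA, -, hΘ0, hΘ, hΘ1⟩ := exists_bump
  obtain ⟨C1, hC1, h1⟩ := gen_nu H hA
  obtain ⟨C2, E, hC2, hE, h2⟩ := DU_near H 3
  obtain ⟨C3, hC3, h3⟩ := QU_le H 3
  obtain ⟨c, hc0, hc2, hcE⟩ : ∃ c : ℝ, 0 < c ∧ c ≤ 1 / 2 ∧ E * c ≤ 1 / 20 := by
    refine ⟨min (1 / 2) (1 / (20 * E)), by positivity, min_le_left _ _, ?_⟩
    calc E * min (1 / 2) (1 / (20 * E)) ≤ E * (1 / (20 * E)) :=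
          mul_le_mul_of_nonneg_left (min_le_right _ _) hE.le
      _ = 1 / 20 := by field_simp
  set K : ℝ := C3 / c * (C1 + 1) + 20 * C2 with hK
  have hKpos : 0 < K := by positivity
  refine ⟨2 ^ k * Real.exp (4 * Real.pi) * K, ⌈Real.exp (1 / c)⌉₊, by positivity,
    Nat.ceil_pos.2 (Real.exp_pos _), fun N hN => ?_⟩
  have hN1 : Real.exp (1 / c) ≤ N := Nat.ceil_le.1 hN
  have hN0 : (0 : ℝ) < N := lt_of_lt_of_le (Real.exp_pos _) hN1
  have hlog : 1 / c ≤ Real.log N := (Real.le_log_iff_exp_le hN0).2 hN1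
  have hlog0 : 0 < Real.log N := lt_of_lt_of_le (by positivity) hlog
  obtain ⟨L, hL⟩ : ∃ L, L = c * Real.log N := ⟨_, rfl⟩
  have hL1 : 1 ≤ L := by
    rw [hL]
    calc (1 : ℝ) = c * (1 / c) := by field_simp
      _ ≤ c * Real.log N := mul_le_mul_of_nonneg_left hlog hc0.le
  have hL0 : 0 < L := by linarith
  -- exp L ≤ N / 2
  have hexp : Real.exp L ≤ (N : ℝ) / 2 := by
    have e1 : Real.exp L ≤ Real.exp (Real.log N / 2) := by
      apply Real.exp_le_exp.2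
      rw [hL]
      nlinarith
    have e2 : Real.exp (Real.log N / 2) ^ 2 = N := by
      rw [← Real.exp_nat_mul]
      have : ((2 : ℕ) : ℝ) * (Real.log N / 2) = Real.log N := by push_cast; ring
      rw [this, Real.exp_log hN0]
    have e3 : 2 ≤ Real.exp L := by
      have := Real.add_one_le_exp L
      linarith
    nlinarith
  have hNy : (0 : ℝ) < 1 / N := by positivity
  have hNy1 : (1 : ℝ) / N ≤ 1 := by
    rw [div_le_one hN0]
    have : (1 : ℝ) ≤ Real.exp L := by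
      have := Real.add_one_le_exp L
      linarith
    linarith
  set u := nuA k a L Θ with hu
  have hm1 : ((1 : ℕ) : ℝ) ≤ Real.exp (3 * L) := by
    rw [Nat.cast_one]
    exact Real.one_le_exp (by linarith)
  have hub : ∀ A : ℕ, |u A| ≤ Real.exp (3 * L) := fun A => sel_z13_nu_le H hL0 hΘ hΘ1 A
  have hu0 : ∀ A : ℕ, NL L ≤ A → u A = 0 := by
    intro A hA
    exact sel_z13_nu_zero hL0 hΘ1 ((Nat.le_ceil _).trans (by exact_mod_cast hA))
  have hQ := h3 L 1 (NL L) u hL1 one_pos hm1 (sel_z13_NL hL1) hub hu0 C1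
    (fun X => h1 L X hL1)
  have hD := h2 L 1 (NL L) u hL1 one_pos hm1 (sel_z13_NL hL1) hub (1 / N) hNy hNy1
  have hDU : DU k a 1 u (NL L) (1 / N) ≤ K / Real.log N := by
    have e1 := (abs_le.1 hD).2
    have e2 : C3 / L * (C1 + 1) = C3 / c * (C1 + 1) / Real.log N := by
      rw [hL]; field_simp
    have e3 : C2 * Real.exp (E * L) * ((1 : ℝ) / N) ^ (1 / 10 : ℝ) ≤
        20 * C2 / Real.log N := by
      have f1 : ((1 : ℝ) / N) ^ (1 / 10 : ℝ) = Real.exp (-(Real.log N / 10)) := by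
        rw [Real.rpow_def_of_pos hNy, Real.log_div one_ne_zero hN0.ne', Real.log_one]
        congr 1
        ring
      rw [f1, mul_assoc, ← Real.exp_add]
      have f2 : E * L + -(Real.log N / 10) ≤ -(Real.log N / 20) := by
        rw [hL]
        nlinarith
      have f3 : Real.exp (-(Real.log N / 20)) ≤ 20 / Real.log N := by
        rw [Real.exp_neg, inv_eq_one_div, div_le_div_iff₀ (Real.exp_pos _) hlog0]
        have := Real.add_one_le_exp (Real.log N / 20)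
        linarith
      calc C2 * Real.exp (E * L + -(Real.log N / 10))
          ≤ C2 * Real.exp (-(Real.log N / 20)) :=
            mul_le_mul_of_nonneg_left (Real.exp_le_exp.2 f2) hC2.le
        _ ≤ C2 * (20 / Real.log N) := mul_le_mul_of_nonneg_left f3 hC2.le
        _ = 20 * C2 / Real.log N := by ring
    rw [hK, add_div]
    linarith
  have hsum := DU_hasSum H 1 u (NL L) hu0 hNy
  have hlow := sum_le_hasSum ((Finset.Ioc (N / 2) N).filter Nat.Prime)
    (fun i _ => by positivity) hsum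
  have hterm : ∀ p ∈ (Finset.Ioc (N / 2) N).filter Nat.Prime,
      (lam k a p) ^ 2 * Real.log p ≤ (Real.log N * (N * 2 ^ k * Real.exp (4 * Real.pi))) *
        (((lamA k a 1 * u) p) ^ 2 / p *
          ((p * (1 / (N : ℝ))) ^ k * Real.exp (-4 * Real.pi * (p * (1 / (N : ℝ)))))) := by
    intro p hp
    obtain ⟨hp1, hpp⟩ := Finset.mem_filter.1 hp
    obtain ⟨hp2, hp3⟩ := Finset.mem_Ioc.1 hp1
    have hp4 : (N : ℝ) ≤ 2 * p := by
      have : N < p * 2 := (Nat.div_lt_iff_lt_mul (by norm_num)).1 hp2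
      have h5 : ((N : ℕ) : ℝ) ≤ ((p * 2 : ℕ) : ℝ) := by exact_mod_cast this.le
      push_cast at h5
      linarith
    have hp5 : (p : ℝ) ≤ N := by exact_mod_cast hp3
    have hp0 : (0 : ℝ) < p := by exact_mod_cast hpp.pos
    have hpe : (lamA k a 1 * u) p = lam k a p :=
      sel_z13_prime hL0 hΘ0 hΘ1 hpp (by linarith)
    rw [hpe]
    have g1 : Real.log p ≤ Real.log N := Real.log_le_log hp0 hp5
    have g2 : 1 ≤ 2 ^ k * (p * (1 / (N : ℝ))) ^ k := by
      rw [← mul_pow]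
      apply one_le_pow₀
      rw [mul_one_div, ← mul_div_assoc, one_le_div hN0]
      exact hp4
    have g3 : 1 ≤ Real.exp (4 * Real.pi) * Real.exp (-4 * Real.pi * (p * (1 / (N : ℝ)))) := by
      rw [← Real.exp_add]
      apply Real.one_le_exp
      have : (p : ℝ) * (1 / (N : ℝ)) ≤ 1 := by
        rw [mul_one_div, div_le_one hN0]; exact hp5
      nlinarith [Real.pi_pos]
    have g4 : 1 ≤ (N : ℝ) / p := by rw [one_le_div hp0]; exact hp5
    have g5 : (1 : ℝ) ≤ ((N : ℝ) / p) * ((2 ^ k * (p * (1 / (N : ℝ))) ^ k) *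
        (Real.exp (4 * Real.pi) * Real.exp (-4 * Real.pi * (p * (1 / (N : ℝ)))))) :=
      one_le_mul_of_one_le_of_one_le g4 (one_le_mul_of_one_le_of_one_le g2 g3)
    calc (lam k a p) ^ 2 * Real.log p ≤ (lam k a p) ^ 2 * Real.log N :=
          mul_le_mul_of_nonneg_left g1 (by positivity)
      _ = (lam k a p) ^ 2 * Real.log N * 1 := by ring
      _ ≤ (lam k a p) ^ 2 * Real.log N * (((N : ℝ) / p) * ((2 ^ k * (p * (1 / (N : ℝ))) ^ k) *
        (Real.exp (4 * Real.pi) * Real.exp (-4 * Real.pi * (p * (1 / (N : ℝ))))))) :=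
          mul_le_mul_of_nonneg_left g5 (by positivity)
      _ = _ := by ring
  refine (Finset.sum_le_sum hterm).trans ?_
  rw [← Finset.mul_sum]
  calc (Real.log N * (N * 2 ^ k * Real.exp (4 * Real.pi))) *
        ∑ p ∈ (Finset.Ioc (N / 2) N).filter Nat.Prime, (((lamA k a 1 * u) p) ^ 2 / p *
          ((p * (1 / (N : ℝ))) ^ k * Real.exp (-4 * Real.pi * (p * (1 / (N : ℝ))))))
      ≤ (Real.log N * (N * 2 ^ k * Real.exp (4 * Real.pi))) * (K / Real.log N) :=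
        mul_le_mul_of_nonneg_left (hlow.trans hDU) (by positivity)
    _ = 2 ^ k * Real.exp (4 * Real.pi) * K * N := by
        field_simp

theorem cheb_pr {k : ℕ} {a : ℕ → ℝ} (H : HData k a) : ∃ C : ℝ, 0 < C ∧
    ∀ N : ℕ, ∑ p ∈ (Finset.Icc 1 N).filter Nat.Prime, (lam k a p) ^ 2 * Real.log p ≤
      C * N := by
  obtain ⟨K, N₀, hK, hN₀, hd⟩ := sel_z13_dyadic H
  set S : ℕ → ℝ := fun N => ∑ p ∈ (Finset.Icc 1 N).filter Nat.Prime,
    (lam k a p) ^ 2 * Real.log p with hS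
  have hnn : ∀ p : ℕ, 0 ≤ (lam k a p) ^ 2 * Real.log p := fun p =>
    mul_nonneg (sq_nonneg _) (Real.log_natCast_nonneg p)
  have hmono : ∀ N, N ≤ N₀ → S N ≤ S N₀ := by
    intro N hN
    refine Finset.sum_le_sum_of_subset_of_nonneg ?_ (fun p _ _ => hnn p)
    intro p hp
    obtain ⟨h1, h2⟩ := Finset.mem_filter.1 hp
    obtain ⟨h3, h4⟩ := Finset.mem_Icc.1 h1
    exact Finset.mem_filter.2 ⟨Finset.mem_Icc.2 ⟨h3, h4.trans hN⟩, h2⟩
  have hS0 : 0 ≤ S N₀ := Finset.sum_nonneg (fun p _ => hnn p)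
  refine ⟨2 * K + S N₀, by positivity, fun N => ?_⟩
  show S N ≤ _
  induction N using Nat.strong_induction_on with
  | _ N ih =>
    by_cases h0 : N = 0
    · subst h0; simp [hS]
    · have hN1 : (1 : ℝ) ≤ N := by exact_mod_cast Nat.one_le_iff_ne_zero.2 h0
      by_cases hN : N < N₀
      · have := hmono N hN.le
        nlinarith
      · push Not at hN
        have hs : S N = S (N / 2) + ∑ p ∈ (Finset.Ioc (N / 2) N).filter Nat.Prime,
            (lam k a p) ^ 2 * Real.log p := by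
          simp only [hS, Finset.sum_filter]
          have e : ∀ n : ℕ, Finset.Icc 1 n = Finset.Ioc 0 n := fun n => by
            ext x; simp [Finset.mem_Icc, Finset.mem_Ioc, Nat.lt_iff_add_one_le]
          rw [e, e, Finset.sum_Ioc_consecutive _ (Nat.zero_le _) (Nat.div_le_self N 2)]
        rw [hs]
        have h1 := ih (N / 2) (Nat.div_lt_self (Nat.pos_of_ne_zero h0) (by norm_num))
        have h2 := hd N hN
        have h3 : ((N / 2 : ℕ) : ℝ) ≤ N / 2 := Nat.cast_div_le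
        have h4 : (2 * K + S N₀) * ((N / 2 : ℕ) : ℝ) ≤ (2 * K + S N₀) * (N / 2) :=
          mul_le_mul_of_nonneg_left h3 (by positivity)
        nlinarith

theorem cheb : type_of% @cheb_pr := @cheb_pr

end Pool.Agent.SEL
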