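import Pool.Agent.Lib_helper68.SEL.Defs
import Pool.Agent.Lib_helper68.SEL.Z10B
import Pool.Agent.Lib_helper68.SEL.Z11B
import Pool.Agent.Lib_helper68.SEL.Z13
import Pool.Agent.Lib_helper68.SEL.Z2
import Pool.Agent.Lib_helper68.SEL.Z3
import Pool.Agent.Lib_helper68.SEL.Z4
import Pool.Agent.Lib_helper68.SEL.Z5

/-! # Block Z14: the Dirichlet polynomial at short length -/

namespace Pool.Agent.SEL

open Complex MeasureTheory Filter Topology Pool.Agent.GL2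

theorem sel_Z14_exp {z : ℂ} (hz : 0 ≤ z.re) : ‖1 - cexp (-z)‖ ≤ ‖z‖ := by
  have hconv : Convex ℝ {z : ℂ | 0 ≤ z.re} := convex_halfSpace_re_ge 0
  have h := hconv.norm_image_sub_le_of_norm_hasDerivWithin_le (f := fun z : ℂ => cexp (-z))
    (f' := fun z : ℂ => -cexp (-z)) (C := 1) (x := z) (y := 0) ?_ ?_ hz (by simp)
  · simpa using h
  · intro x _
    have := (hasDerivAt_neg x).cexp
    simp only [mul_neg, mul_one] at this
    exact this.hasDerivWithinAt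
  · intro x hx
    rw [norm_neg, Complex.norm_exp]
    apply Real.exp_le_one_iff.mpr
    have hx' : 0 ≤ x.re := hx
    simpa using hx'

theorem sel_Z14_cpow {p : ℕ} (hp : 1 ≤ p) (w : ℂ) :
    (p : ℂ) ^ (-w) = cexp (-(w * Real.log p)) := by
  have hp0 : (p : ℂ) ≠ 0 := by
    exact_mod_cast (by omega : p ≠ 0)
  rw [Complex.cpow_def_of_ne_zero hp0, ← Complex.natCast_log]
  congr 1
  ring

theorem sel_Z14_z_le {p : ℕ} (hp : 1 ≤ p) {w : ℂ} (hw : 0 ≤ w.re) : ‖(p : ℂ) ^ (-w)‖ ≤ 1 := by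
  rw [sel_Z14_cpow hp, Complex.norm_exp]
  apply Real.exp_le_one_iff.mpr
  have h1 : 0 ≤ Real.log p := Real.log_natCast_nonneg p
  have h2 : (-(w * (Real.log p : ℂ))).re = -(w.re * Real.log p) := by
    rw [Complex.neg_re, Complex.re_mul_ofReal]
  rw [h2]
  have := mul_nonneg hw h1
  linarith

theorem sel_Z14_z_sub {p : ℕ} (hp : 1 ≤ p) {w : ℂ} (hw : 0 ≤ w.re) :
    ‖1 - (p : ℂ) ^ (-w)‖ ≤ ‖w‖ * Real.log p := by
  have h1 : 0 ≤ Real.log p := Real.log_natCast_nonneg p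
  rw [sel_Z14_cpow hp]
  refine (sel_Z14_exp ?_).trans ?_
  · rw [Complex.mul_re, Complex.ofReal_re, Complex.ofReal_im]
    have := mul_nonneg hw h1
    linarith
  · rw [norm_mul, Complex.norm_real, Real.norm_of_nonneg h1]

/-- majorant of the local coefficients -/
noncomputable def sel_Z14_b (x : ℝ) (i : ℕ) : ℝ := if i = 1 then x ^ 2 else ‖rt x‖ ^ (2 * i)

theorem sel_Z14_b_nonneg (x : ℝ) (i : ℕ) : 0 ≤ sel_Z14_b x i := by
  unfold sel_Z14_b
  split_ifs <;> positivity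

theorem sel_Z14_gloc (x : ℝ) {z₁ z₂ : ℂ} (h₁ : ‖z₁‖ ≤ 1) (h₂ : ‖z₂‖ ≤ 1) {V : ℝ}
    (hV : ‖1 - z₁‖ + ‖1 - z₂‖ ≤ V) {i : ℕ} (hi : 1 ≤ i) :
    ‖gloc x z₁ z₂ i‖ ^ 2 ≤ ((i : ℝ) + 1) ^ 14 * sel_Z14_b x i ∧
    ‖gloc x z₁ z₂ i‖ ^ 2 ≤ ((i : ℝ) + 1) ^ 14 * sel_Z14_b x i * V ^ 2 := by
  have hV0 : 0 ≤ ‖1 - z₁‖ + ‖1 - z₂‖ := by positivity
  by_cases h : i = 1
  · subst h
    have hb : sel_Z14_b x 1 = x ^ 2 := by simp [sel_Z14_b]
    rw [hb, gloc_one, norm_mul, Complex.norm_real, Real.norm_eq_abs, mul_pow, sq_abs]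
    have e : (1 : ℂ) - (z₁ + z₂) / 2 = ((1 - z₁) + (1 - z₂)) / 2 := by ring
    have h3 : ‖(1 : ℂ) - (z₁ + z₂) / 2‖ ≤ (‖1 - z₁‖ + ‖1 - z₂‖) / 2 := by
      rw [e, norm_div]
      have : ‖(2 : ℂ)‖ = 2 := by simp
      rw [this]
      exact div_le_div_of_nonneg_right (norm_add_le _ _) (by norm_num)
    have h4 : ‖(1 : ℂ) - (z₁ + z₂) / 2‖ ≤ 2 := by
      have a1 : ‖(1 : ℂ) - z₁‖ ≤ 1 + 1 := (norm_sub_le _ _).trans (by simpa using h₁)
      have a2 : ‖(1 : ℂ) - z₂‖ ≤ 1 + 1 := (norm_sub_le _ _).trans (by simpa using h₂)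
      linarith
    have h0 : 0 ≤ ‖(1 : ℂ) - (z₁ + z₂) / 2‖ := norm_nonneg _
    constructor
    · have h5 : ‖(1 : ℂ) - (z₁ + z₂) / 2‖ ^ 2 ≤ (((1 : ℕ) : ℝ) + 1) ^ 14 := by
        norm_num
        nlinarith
      rw [mul_comm]
      exact mul_le_mul_of_nonneg_right h5 (sq_nonneg x)
    · have h5 : ‖(1 : ℂ) - (z₁ + z₂) / 2‖ ^ 2 ≤ (((1 : ℕ) : ℝ) + 1) ^ 14 * V ^ 2 := by
        have h6 : ‖(1 : ℂ) - (z₁ + z₂) / 2‖ ≤ V := by linarith
        have h7 : ‖(1 : ℂ) - (z₁ + z₂) / 2‖ ^ 2 ≤ V ^ 2 := pow_le_pow_left₀ h0 h6 2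
        norm_num
        nlinarith [sq_nonneg V]
      have := mul_le_mul_of_nonneg_left h5 (sq_nonneg x)
      nlinarith
  · have hb : sel_Z14_b x i = ‖rt x‖ ^ (2 * i) := by simp [sel_Z14_b, h]
    rw [hb]
    have g1 := gloc_le x h₁ h₂ i
    have g2 := gloc_le' x h₁ h₂ i hi
    have h0 : 0 ≤ ‖gloc x z₁ z₂ i‖ := norm_nonneg _
    have hi1 : (1 : ℝ) ≤ (i : ℝ) + 1 := by
      have : (0 : ℝ) ≤ i := Nat.cast_nonneg i
      linarith
    constructor
    · have h6 := pow_le_pow_left₀ h0 g1 2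
      have h7 : (((i : ℝ) + 1) ^ 6 * ‖rt x‖ ^ i) ^ 2 = ((i : ℝ) + 1) ^ 12 * ‖rt x‖ ^ (2 * i) := by
        rw [mul_pow, ← pow_mul, ← pow_mul, mul_comm i 2]
      rw [h7] at h6
      refine h6.trans (mul_le_mul_of_nonneg_right ?_ (by positivity))
      exact pow_le_pow_right₀ hi1 (by norm_num)
    · have h5 : ‖gloc x z₁ z₂ i‖ ≤ ((i : ℝ) + 1) ^ 7 * ‖rt x‖ ^ i * V :=
        g2.trans (mul_le_mul_of_nonneg_left hV (by positivity))
      have h6 := pow_le_pow_left₀ h0 h5 2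
      have h7 : (((i : ℝ) + 1) ^ 7 * ‖rt x‖ ^ i * V) ^ 2 =
          ((i : ℝ) + 1) ^ 14 * ‖rt x‖ ^ (2 * i) * V ^ 2 := by
        rw [mul_pow, mul_pow, ← pow_mul, ← pow_mul, mul_comm i 2]
      rwa [h7] at h6

/-- the sum over prime powers -/
noncomputable def sel_Z14_P (k : ℕ) (a : ℕ → ℝ) (N m : ℕ) : ℝ :=
  ∑ p ∈ (Finset.Icc 1 N).filter Nat.Prime, ∑ i ∈ Finset.Icc 1 N,
    if p ^ i * m ≤ N then ((i : ℝ) + 1) ^ 14 * sel_Z14_b (lam k a p) i * (i * Real.log p) else 0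

theorem sel_Z14_K : ∃ K : ℝ, 0 < K ∧ ∀ N : ℕ, ∑ i ∈ Finset.Icc 2 N,
    ((i : ℝ) + 1) ^ 15 * ((2 : ℝ) ^ (-(1 / 100) : ℝ)) ^ (i - 2) ≤ K := by
  set ρ : ℝ := (2 : ℝ) ^ (-(1 / 100) : ℝ) with hρ
  have hρ0 : 0 < ρ := by positivity
  have hρ1 : ρ < 1 := Real.rpow_lt_one_of_one_lt_of_neg (by norm_num) (by norm_num)
  have h1 := summable_pow_mul_geometric_of_norm_lt_one (R := ℝ) 15 (r := ρ)
    (by rw [Real.norm_of_nonneg hρ0.le]; exact hρ1)
  have h2 : Summable fun i : ℕ => (((i + 1 : ℕ) : ℝ)) ^ 15 * ρ ^ (i + 1) :=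
    (summable_nat_add_iff 1).mpr h1
  refine ⟨(ρ ^ 3)⁻¹ * (∑' i : ℕ, (((i + 1 : ℕ) : ℝ)) ^ 15 * ρ ^ (i + 1)) + 1, ?_, fun N => ?_⟩
  · have : 0 ≤ ∑' i : ℕ, (((i + 1 : ℕ) : ℝ)) ^ 15 * ρ ^ (i + 1) :=
      tsum_nonneg fun i => by positivity
    positivity
  · have h3 : ∑ i ∈ Finset.Icc 2 N, ((i : ℝ) + 1) ^ 15 * ρ ^ (i - 2) =
        (ρ ^ 3)⁻¹ * ∑ i ∈ Finset.Icc 2 N, (((i + 1 : ℕ) : ℝ)) ^ 15 * ρ ^ (i + 1) := by
      rw [Finset.mul_sum]
      refine Finset.sum_congr rfl fun i hi => ?_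
      have hi2 : 2 ≤ i := (Finset.mem_Icc.mp hi).1
      obtain ⟨j, rfl⟩ := Nat.exists_eq_add_of_le hi2
      have e1 : 2 + j - 2 = j := by omega
      have e2 : 2 + j + 1 = j + 3 := by omega
      rw [e1, e2, pow_add]
      push_cast
      field_simp
      ring
    rw [h3]
    have h4 : ∑ i ∈ Finset.Icc 2 N, (((i + 1 : ℕ) : ℝ)) ^ 15 * ρ ^ (i + 1) ≤
        ∑' i : ℕ, (((i + 1 : ℕ) : ℝ)) ^ 15 * ρ ^ (i + 1) :=
      h2.sum_le_tsum _ fun i _ => by positivity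
    have := mul_le_mul_of_nonneg_left h4 (by positivity : 0 ≤ (ρ ^ 3)⁻¹)
    linarith

/-- Chebyshev for prime powers -/
theorem sel_Z14_P_le {k : ℕ} {a : ℕ → ℝ} (H : HData k a) : ∃ C : ℝ, 0 < C ∧
    ∀ N m : ℕ, 1 ≤ m → m ≤ N → sel_Z14_P k a N m ≤ C * (N / m) := by
  obtain ⟨C₁, hC₁, h₁⟩ := cheb H
  obtain ⟨K, hK, hK2⟩ := sel_Z14_K
  set T : ℕ → ℝ := fun p => ‖rt (lam k a p)‖ ^ 4 * (p : ℝ) ^ (-2 : ℝ) * (1 + Real.log p) ^ 2 with hT
  have hTs : Summable fun p : Nat.Primes => T p := rt_summable H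
  have hT0 : ∀ p : ℕ, 0 ≤ T p := fun p => by
    rw [hT]
    positivity
  set Z : ℝ := ∑' p : Nat.Primes, T p with hZ
  have hZ0 : 0 ≤ Z := tsum_nonneg fun p => hT0 p
  have hTZ : ∀ N : ℕ, ∑ p ∈ (Finset.Icc 1 N).filter Nat.Prime, T p ≤ Z := by
    intro N
    have h2 : ∑ p ∈ (Finset.Icc 1 N).filter Nat.Prime, T p =
        ∑ p ∈ (Finset.Icc 1 N).subtype Nat.Prime, T (p : ℕ) := by
      rw [← Finset.sum_subtype_eq_sum_filter]
    rw [h2]
    have h3 : ∀ s : Finset Nat.Primes, ∑ p ∈ s, T p ≤ Z := fun s =>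
      hTs.sum_le_tsum s fun p _ => hT0 p
    exact h3 ((Finset.Icc 1 N).subtype Nat.Prime)
  refine ⟨2 ^ 14 * C₁ + Z * K, by positivity, fun N m hm hmN => ?_⟩
  have hm0 : (0 : ℝ) < m := by exact_mod_cast hm
  have hN1 : 1 ≤ N := hm.trans hmN
  have hNm : (0 : ℝ) ≤ (N : ℝ) / m := by positivity
  have hsplit : sel_Z14_P k a N m =
      (∑ p ∈ (Finset.Icc 1 N).filter Nat.Prime, if p * m ≤ N then
        2 ^ 14 * ((lam k a p) ^ 2 * Real.log p) else 0) +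
      ∑ p ∈ (Finset.Icc 1 N).filter Nat.Prime, ∑ i ∈ Finset.Icc 2 N,
        if p ^ i * m ≤ N then ((i : ℝ) + 1) ^ 14 * sel_Z14_b (lam k a p) i * (i * Real.log p)
        else 0 := by
    unfold sel_Z14_P
    rw [← Finset.sum_add_distrib]
    refine Finset.sum_congr rfl fun p _ => ?_
    have : Finset.Icc 1 N = insert 1 (Finset.Icc 2 N) := by
      ext i
      simp only [Finset.mem_Icc, Finset.mem_insert]
      omega
    rw [this, Finset.sum_insert (by simp)]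
    congr 1
    rw [pow_one]
    split_ifs
    · simp only [sel_Z14_b, if_true, Nat.cast_one]
      ring
    · rfl
  have hone : (∑ p ∈ (Finset.Icc 1 N).filter Nat.Prime, if p * m ≤ N then
      2 ^ 14 * ((lam k a p) ^ 2 * Real.log p) else 0) ≤ 2 ^ 14 * C₁ * (N / m) := by
    have h2 : (∑ p ∈ (Finset.Icc 1 N).filter Nat.Prime, if p * m ≤ N then
        2 ^ 14 * ((lam k a p) ^ 2 * Real.log p) else 0) ≤
        ∑ p ∈ (Finset.Icc 1 (N / m)).filter Nat.Prime, 2 ^ 14 * ((lam k a p) ^ 2 * Real.log p) := by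
      rw [← Finset.sum_filter]
      refine Finset.sum_le_sum_of_subset_of_nonneg ?_ ?_
      · intro p hp
        simp only [Finset.mem_filter, Finset.mem_Icc] at hp ⊢
        exact ⟨⟨hp.1.1.1, (Nat.le_div_iff_mul_le (by omega)).mpr hp.2⟩, hp.1.2⟩
      · intro p _ _
        have := Real.log_natCast_nonneg p
        positivity
    refine h2.trans ?_
    rw [← Finset.mul_sum, mul_assoc]
    refine mul_le_mul_of_nonneg_left ((h₁ (N / m)).trans ?_) (by norm_num)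
    exact mul_le_mul_of_nonneg_left Nat.cast_div_le hC₁.le
  have htwo : (∑ p ∈ (Finset.Icc 1 N).filter Nat.Prime, ∑ i ∈ Finset.Icc 2 N,
        if p ^ i * m ≤ N then ((i : ℝ) + 1) ^ 14 * sel_Z14_b (lam k a p) i * (i * Real.log p)
        else 0) ≤ Z * K * (N / m) := by
    have h2 : ∀ p ∈ (Finset.Icc 1 N).filter Nat.Prime, (∑ i ∈ Finset.Icc 2 N,
        if p ^ i * m ≤ N then ((i : ℝ) + 1) ^ 14 * sel_Z14_b (lam k a p) i * (i * Real.log p)
        else 0) ≤ T p * (K * (N / m)) := by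
      intro p hp
      have hpp : p.Prime := (Finset.mem_filter.mp hp).2
      have hp2 : (2 : ℝ) ≤ p := by exact_mod_cast hpp.two_le
      have hp0 : (0 : ℝ) < p := by linarith
      have hlog : 0 ≤ Real.log p := Real.log_natCast_nonneg p
      have h3 : ∀ i ∈ Finset.Icc 2 N, (if p ^ i * m ≤ N then
          ((i : ℝ) + 1) ^ 14 * sel_Z14_b (lam k a p) i * (i * Real.log p) else 0) ≤
          T p * ((((i : ℝ) + 1) ^ 15 * ((2 : ℝ) ^ (-(1 / 100) : ℝ)) ^ (i - 2)) * (N / m)) := by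
        intro i hi
        have hi2 : 2 ≤ i := (Finset.mem_Icc.mp hi).1
        by_cases hc : p ^ i * m ≤ N
        · rw [if_pos hc]
          have hpi : (p : ℝ) ^ i ≤ N / m := by
            rw [le_div_iff₀ hm0]
            exact_mod_cast hc
          have hb : sel_Z14_b (lam k a p) i = ‖rt (lam k a p)‖ ^ (2 * i) := by
            unfold sel_Z14_b
            rw [if_neg (by omega)]
          obtain ⟨j, rfl⟩ := Nat.exists_eq_add_of_le hi2
          have e1 : 2 + j - 2 = j := by omega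
          rw [e1, hb]
          set r := ‖rt (lam k a p)‖ with hr
          have hr0 : 0 ≤ r := norm_nonneg _
          have hrb : r ≤ (p : ℝ) ^ (1 / 2 - 1 / 200 : ℝ) := rt_bound H hpp
          have hr2 : r ^ 2 ≤ p * (2 : ℝ) ^ (-(1 / 100) : ℝ) := by
            have a1 := pow_le_pow_left₀ hr0 hrb 2
            have a2 : ((p : ℝ) ^ (1 / 2 - 1 / 200 : ℝ)) ^ 2 = p * (p : ℝ) ^ (-(1 / 100) : ℝ) := by
              rw [← Real.rpow_natCast, ← Real.rpow_mul hp0.le]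
              nth_rewrite 2 [← Real.rpow_one (p : ℝ)]
              rw [← Real.rpow_add hp0]
              congr 1
              norm_num
            rw [a2] at a1
            refine a1.trans (mul_le_mul_of_nonneg_left ?_ hp0.le)
            exact Real.rpow_le_rpow_of_nonpos (by norm_num) hp2 (by norm_num)
          have hr3 : r ^ (2 * (2 + j)) ≤ r ^ 4 * ((p : ℝ) ^ j * ((2 : ℝ) ^ (-(1 / 100) : ℝ)) ^ j) := by
            have e2 : 2 * (2 + j) = 4 + 2 * j := by ring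
            rw [e2, pow_add, pow_mul, ← mul_pow]
            refine mul_le_mul_of_nonneg_left ?_ (by positivity)
            exact pow_le_pow_left₀ (by positivity) hr2 j
          have hp3 : (p : ℝ) ^ j = (p : ℝ) ^ (-2 : ℝ) * (p : ℝ) ^ (2 + j) := by
            rw [← Real.rpow_natCast, ← Real.rpow_natCast, ← Real.rpow_add hp0]
            congr 1
            push_cast
            ring
          have hij : ((2 + j : ℕ) : ℝ) ≤ ((2 + j : ℕ) : ℝ) + 1 := by linarith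
          have hl2 : Real.log p ≤ (1 + Real.log p) ^ 2 := by nlinarith
          calc (((2 + j : ℕ) : ℝ) + 1) ^ 14 * r ^ (2 * (2 + j)) * (((2 + j : ℕ) : ℝ) * Real.log p)
              ≤ (((2 + j : ℕ) : ℝ) + 1) ^ 14 *
                (r ^ 4 * ((p : ℝ) ^ j * ((2 : ℝ) ^ (-(1 / 100) : ℝ)) ^ j)) *
                ((((2 + j : ℕ) : ℝ) + 1) * (1 + Real.log p) ^ 2) := by
                gcongr
            _ = (((2 + j : ℕ) : ℝ) + 1) ^ 15 * (r ^ 4 * (p : ℝ) ^ (-2 : ℝ) * (1 + Real.log p) ^ 2) *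
                ((2 : ℝ) ^ (-(1 / 100) : ℝ)) ^ j * (p : ℝ) ^ (2 + j) := by
                rw [hp3]
                ring
            _ ≤ (((2 + j : ℕ) : ℝ) + 1) ^ 15 * (r ^ 4 * (p : ℝ) ^ (-2 : ℝ) * (1 + Real.log p) ^ 2) *
                ((2 : ℝ) ^ (-(1 / 100) : ℝ)) ^ j * (N / m) := by
                gcongr
            _ = _ := by
                rw [hT]
                ring
        · rw [if_neg hc]
          have := hT0 p
          positivity
      refine (Finset.sum_le_sum h3).trans ?_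
      rw [← Finset.mul_sum, ← Finset.sum_mul]
      refine mul_le_mul_of_nonneg_left ?_ (hT0 p)
      exact mul_le_mul_of_nonneg_right (hK2 N) hNm
    refine (Finset.sum_le_sum h2).trans ?_
    rw [← Finset.sum_mul, mul_assoc]
    exact mul_le_mul_of_nonneg_right (hTZ N) (by positivity)
  rw [hsplit]
  have := add_le_add hone htwo
  refine this.trans (le_of_eq ?_)
  ring

theorem sel_Z14_inj {ι κ : Type*} [DecidableEq κ] {s : Finset ι} {t : Finset κ} (e : ι → κ)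
    (he : Set.InjOn e s) (hst : ∀ i ∈ s, e i ∈ t) {g : κ → ℝ} (hg : ∀ j ∈ t, 0 ≤ g j) :
    ∑ i ∈ s, g (e i) ≤ ∑ j ∈ t, g j := by
  rw [← Finset.sum_image (f := g) he]
  refine Finset.sum_le_sum_of_subset_of_nonneg ?_ fun j hj _ => hg j hj
  intro j hj
  obtain ⟨i, hi, rfl⟩ := Finset.mem_image.mp hj
  exact hst i hi

/-- expansion of the logarithm -/
theorem sel_Z14_log (f : ℕ → ℝ) (hf0 : ∀ n, 0 ≤ f n)
    (hf : ∀ m n : ℕ, m.Coprime n → f (m * n) = f m * f n) (N : ℕ) :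
    ∑ M ∈ Finset.Icc 2 N, f M * Real.log M ≤ ∑ m ∈ Finset.Icc 1 N, f m *
      ∑ p ∈ (Finset.Icc 1 N).filter Nat.Prime, ∑ i ∈ Finset.Icc 1 N,
        if p ^ i * m ≤ N then f (p ^ i) * (i * Real.log p) else 0 := by
  classical
  have h1 : ∀ M ∈ Finset.Icc 2 N, f M * Real.log M =
      ∑ p ∈ M.primeFactors, f M * (M.factorization p * Real.log p) := by
    intro M _
    rw [Real.log_nat_eq_sum_factorization, Finsupp.sum, Finset.mul_sum]
    rfl
  rw [Finset.sum_congr rfl h1, Finset.sum_sigma']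
  set g : ℕ × ℕ × ℕ → ℝ := fun v => if v.2.1 ^ v.2.2 * v.1 ≤ N then
    f v.1 * (f (v.2.1 ^ v.2.2) * (v.2.2 * Real.log v.2.1)) else 0 with hg
  set e : (Σ _ : ℕ, ℕ) → ℕ × ℕ × ℕ := fun v =>
    (v.1 / v.2 ^ v.1.factorization v.2, v.2, v.1.factorization v.2) with he
  have h2 : ∀ v ∈ (Finset.Icc 2 N).sigma (fun M => M.primeFactors),
      f v.1 * (v.1.factorization v.2 * Real.log v.2) = g (e v) := by
    rintro ⟨M, p⟩ hv
    simp only [Finset.mem_sigma, Finset.mem_Icc] at hv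
    obtain ⟨⟨hM2, hMN⟩, hp⟩ := hv
    have hpp : p.Prime := Nat.prime_of_mem_primeFactors hp
    have hM0 : M ≠ 0 := by omega
    have hcop : (p ^ M.factorization p).Coprime (M / p ^ M.factorization p) :=
      (Nat.coprime_ordCompl hpp hM0).pow_left _
    have hprod : p ^ M.factorization p * (M / p ^ M.factorization p) = M :=
      Nat.ordProj_mul_ordCompl_eq_self M p
    have hfM : f M = f (p ^ M.factorization p) * f (M / p ^ M.factorization p) := by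
      rw [← hf _ _ hcop, hprod]
    simp only [hg, he]
    rw [if_pos (by rw [hprod]; exact hMN), hfM]
    ring
  rw [Finset.sum_congr rfl h2]
  set t : Finset (ℕ × ℕ × ℕ) := Finset.Icc 1 N ×ˢ (((Finset.Icc 1 N).filter Nat.Prime) ×ˢ
    Finset.Icc 1 N) with ht
  have h3 : ∑ v ∈ (Finset.Icc 2 N).sigma (fun M => M.primeFactors), g (e v) ≤ ∑ j ∈ t, g j := by
    refine sel_Z14_inj e ?_ ?_ ?_
    · rintro ⟨M, p⟩ hv ⟨M', p'⟩ hv' hee
      simp only [he, Prod.mk.injEq] at hee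
      obtain ⟨e1, e2, e3⟩ := hee
      subst e2
      have hprod : p ^ M.factorization p * (M / p ^ M.factorization p) = M :=
        Nat.ordProj_mul_ordCompl_eq_self M p
      have hprod' : p ^ M'.factorization p * (M' / p ^ M'.factorization p) = M' :=
        Nat.ordProj_mul_ordCompl_eq_self M' p
      have : M = M' := by
        rw [← hprod, ← hprod', e1, e3]
      subst this
      rfl
    · rintro ⟨M, p⟩ hv
      simp only [Finset.mem_sigma, Finset.mem_Icc] at hv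
      obtain ⟨⟨hM2, hMN⟩, hp⟩ := hv
      have hpp : p.Prime := Nat.prime_of_mem_primeFactors hp
      have hM0 : M ≠ 0 := by omega
      have hpd : p ∣ M := Nat.dvd_of_mem_primeFactors hp
      have hpM : p ≤ M := Nat.le_of_dvd (by omega) hpd
      have hfac : 1 ≤ M.factorization p := (hpp.dvd_iff_one_le_factorization hM0).mp hpd
      have hfac2 : M.factorization p ≤ M := (Nat.factorization_lt p hM0).le
      have hpos : 0 < M / p ^ M.factorization p := Nat.ordCompl_pos p hM0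
      have hle : M / p ^ M.factorization p ≤ M := Nat.div_le_self _ _
      simp only [ht, he, Finset.mem_product, Finset.mem_Icc, Finset.mem_filter]
      refine ⟨⟨hpos, by omega⟩, ⟨⟨hpp.one_lt.le, by omega⟩, hpp⟩, hfac, by omega⟩
    · intro j _
      simp only [hg]
      split_ifs
      · have := Real.log_natCast_nonneg j.2.1
        have h4 := hf0 j.1
        have h5 := hf0 (j.2.1 ^ j.2.2)
        positivity
      · exact le_rfl
  refine h3.trans (le_of_eq ?_)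
  rw [ht, Finset.sum_product]
  refine Finset.sum_congr rfl fun m _ => ?_
  rw [Finset.sum_product, Finset.mul_sum]
  refine Finset.sum_congr rfl fun p _ => ?_
  rw [Finset.mul_sum]
  refine Finset.sum_congr rfl fun i _ => ?_
  simp only [hg, mul_ite, mul_zero]

/-- block Z14 -/
theorem dyw_pr {k : ℕ} {a : ℕ → ℝ} (H : HData k a) : ∃ C E : ℝ, 0 < C ∧ 0 < E ∧
    ∀ (N : ℕ) (w₁ w₂ : ℂ), 3 ≤ N → 0 ≤ w₁.re → w₁.re ≤ 1 / Real.log N →
      0 ≤ w₂.re → w₂.re ≤ 1 / Real.log N →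
      ∑ M ∈ Finset.Icc 2 N, ‖GW k a 1 1 w₁ w₂ M‖ ^ 2 * Real.log M ≤
        C * ((1 + ‖w₁‖ * Real.log N) * (1 + ‖w₂‖ * Real.log N)) ^ E *
          ((‖w₁‖ + ‖w₂‖) * Real.log N) ^ 2 * N := by
  obtain ⟨C₁, hC₁, h₁⟩ := sel_Z14_P_le H
  obtain ⟨C₂, E, hC₂, hE, h₂⟩ := euler_two H
  refine ⟨C₁ + C₁ * (Real.exp 1 * C₂), E, by positivity, hE, ?_⟩
  intro N w₁ w₂ hN hw₁ hw₁' hw₂ hw₂'
  have hN0 : (0 : ℝ) < N := by
    exact_mod_cast (by omega : 0 < N)
  have hlogN : 1 ≤ Real.log N := by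
    rw [Real.le_log_iff_exp_le hN0]
    have h3 : (3 : ℝ) ≤ N := by exact_mod_cast hN
    exact Real.exp_one_lt_three.le.trans h3
  set ℓ := Real.log N with hℓ
  set W := ‖w₁‖ + ‖w₂‖ with hW
  have hW0 : 0 ≤ W := by positivity
  set f : ℕ → ℝ := fun M => ‖GW k a 1 1 w₁ w₂ M‖ ^ 2 with hf
  have hf0 : ∀ n, 0 ≤ f n := fun n => by
    rw [hf]
    positivity
  have hfm : ∀ m n : ℕ, m.Coprime n → f (m * n) = f m * f n := by
    intro m n h
    simp only [hf]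
    rw [GW_mul H (dvd_refl 1) w₁ w₂ h, norm_mul, mul_pow]
  have hf1 : f 1 = 1 := by
    simp only [hf]
    rw [GW_one H (dvd_refl 1)]
    simp
  have hpow : ∀ p ∈ (Finset.Icc 1 N).filter Nat.Prime, ∀ i ∈ Finset.Icc 1 N,
      f (p ^ i) ≤ ((i : ℝ) + 1) ^ 14 * sel_Z14_b (lam k a p) i ∧
      f (p ^ i) ≤ ((i : ℝ) + 1) ^ 14 * sel_Z14_b (lam k a p) i * (W * ℓ) ^ 2 := by
    intro p hp i hi
    simp only [Finset.mem_filter, Finset.mem_Icc] at hp hi
    obtain ⟨⟨hp1, hpN⟩, hpp⟩ := hp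
    have hlogp : Real.log p ≤ ℓ := Real.log_le_log (by exact_mod_cast hpp.pos) (by exact_mod_cast hpN)
    have hlogp0 : 0 ≤ Real.log p := Real.log_natCast_nonneg p
    simp only [hf]
    rw [GW_pow H (dvd_refl 1) w₁ w₂ hpp i, if_pos (by simpa using hpp.one_lt.ne')]
    refine sel_Z14_gloc _ (sel_Z14_z_le hp1 hw₁) (sel_Z14_z_le hp1 hw₂) ?_ hi.1
    have a1 := sel_Z14_z_sub hp1 hw₁
    have a2 := sel_Z14_z_sub hp1 hw₂
    calc ‖1 - (p : ℂ) ^ (-w₁)‖ + ‖1 - (p : ℂ) ^ (-w₂)‖ ≤ ‖w₁‖ * Real.log p + ‖w₂‖ * Real.log p :=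
          add_le_add a1 a2
      _ = W * Real.log p := by rw [hW]; ring
      _ ≤ W * ℓ := mul_le_mul_of_nonneg_left hlogp hW0
  have hA : ∀ m : ℕ, (∑ p ∈ (Finset.Icc 1 N).filter Nat.Prime, ∑ i ∈ Finset.Icc 1 N,
        if p ^ i * m ≤ N then f (p ^ i) * (i * Real.log p) else 0) ≤ sel_Z14_P k a N m := by
    intro m
    unfold sel_Z14_P
    refine Finset.sum_le_sum fun p hp => Finset.sum_le_sum fun i hi => ?_
    have := Real.log_natCast_nonneg p
    split_ifs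
    · exact mul_le_mul_of_nonneg_right (hpow p hp i hi).1 (by positivity)
    · exact le_rfl
  have hB : ∀ m : ℕ, (∑ p ∈ (Finset.Icc 1 N).filter Nat.Prime, ∑ i ∈ Finset.Icc 1 N,
        if p ^ i * m ≤ N then f (p ^ i) * (i * Real.log p) else 0) ≤
        sel_Z14_P k a N m * (W * ℓ) ^ 2 := by
    intro m
    unfold sel_Z14_P
    rw [Finset.sum_mul]
    refine Finset.sum_le_sum fun p hp => ?_
    rw [Finset.sum_mul]
    refine Finset.sum_le_sum fun i hi => ?_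
    have := Real.log_natCast_nonneg p
    split_ifs
    · have h3 := mul_le_mul_of_nonneg_right (hpow p hp i hi).2
        (by positivity : 0 ≤ (i : ℝ) * Real.log p)
      refine h3.trans (le_of_eq ?_)
      ring
    · rw [zero_mul]
  refine (sel_Z14_log f hf0 hfm N).trans ?_
  have hins : Finset.Icc 1 N = insert 1 (Finset.Icc 2 N) := by
    ext i
    simp only [Finset.mem_Icc, Finset.mem_insert]
    omega
  nth_rewrite 1 [hins]
  rw [Finset.sum_insert (by simp), hf1, one_mul]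
  have hfirst : (∑ p ∈ (Finset.Icc 1 N).filter Nat.Prime, ∑ i ∈ Finset.Icc 1 N,
        if p ^ i * 1 ≤ N then f (p ^ i) * (i * Real.log p) else 0) ≤ C₁ * N * (W * ℓ) ^ 2 := by
    refine (hB 1).trans (mul_le_mul_of_nonneg_right ?_ (sq_nonneg _))
    have := h₁ N 1 le_rfl (by omega)
    simpa using this
  have hsecond : (∑ m ∈ Finset.Icc 2 N, f m *
      ∑ p ∈ (Finset.Icc 1 N).filter Nat.Prime, ∑ i ∈ Finset.Icc 1 N,
        if p ^ i * m ≤ N then f (p ^ i) * (i * Real.log p) else 0) ≤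
      C₁ * N * (Real.exp 1 * ∑ m ∈ Finset.Icc 2 N, f m * (m : ℝ) ^ (-1 - 1 / ℓ)) := by
    rw [Finset.mul_sum, Finset.mul_sum]
    refine Finset.sum_le_sum fun m hm => ?_
    rw [Finset.mem_Icc] at hm
    have hm0 : (0 : ℝ) < m := by exact_mod_cast (by omega : 0 < m)
    have h3 : (∑ p ∈ (Finset.Icc 1 N).filter Nat.Prime, ∑ i ∈ Finset.Icc 1 N,
        if p ^ i * m ≤ N then f (p ^ i) * (i * Real.log p) else 0) ≤ C₁ * (N / m) :=
      (hA m).trans (h₁ N m (by omega) hm.2)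
    have h4 : (1 : ℝ) / m ≤ Real.exp 1 * (m : ℝ) ^ (-1 - 1 / ℓ) := by
      have h5 : (m : ℝ) ^ (-1 - 1 / ℓ) = (m : ℝ)⁻¹ * (m : ℝ) ^ (-(1 / ℓ)) := by
        rw [← Real.rpow_neg_one, ← Real.rpow_add hm0]
        congr 1
      have h6 : 1 ≤ Real.exp 1 * (m : ℝ) ^ (-(1 / ℓ)) := by
        rw [Real.rpow_def_of_pos hm0, ← Real.exp_add]
        apply Real.one_le_exp
        have h7 : Real.log m ≤ ℓ := Real.log_le_log hm0 (by exact_mod_cast hm.2)
        have h8 : Real.log m * (-(1 / ℓ)) = -(Real.log m / ℓ) := by ring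
        rw [h8]
        have h9 : Real.log m / ℓ ≤ 1 := by
          rw [div_le_one (by linarith)]
          exact h7
        linarith
      rw [h5, one_div]
      have h10 : 0 < (m : ℝ)⁻¹ := by positivity
      nlinarith
    calc f m * ∑ p ∈ (Finset.Icc 1 N).filter Nat.Prime, ∑ i ∈ Finset.Icc 1 N,
          (if p ^ i * m ≤ N then f (p ^ i) * (i * Real.log p) else 0)
        ≤ f m * (C₁ * (N / m)) := mul_le_mul_of_nonneg_left h3 (hf0 m)
      _ = C₁ * N * (f m * (1 / m)) := by ring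
      _ ≤ C₁ * N * (f m * (Real.exp 1 * (m : ℝ) ^ (-1 - 1 / ℓ))) := by
          refine mul_le_mul_of_nonneg_left (mul_le_mul_of_nonneg_left h4 (hf0 m)) (by positivity)
      _ = _ := by ring
  have hσ : 0 < 1 / ℓ := by positivity
  have hσ1 : 1 / ℓ ≤ 1 := by
    rw [div_le_one (by linarith)]
    exact hlogN
  have h5 := h₂ (1 / ℓ) w₁ w₂ (N + 1) hσ hσ1 hw₁ hw₁' hw₂ hw₂'
  have hIco : Finset.Ico 2 (N + 1) = Finset.Icc 2 N := by
    ext i
    simp only [Finset.mem_Ico, Finset.mem_Icc]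
    omega
  rw [hIco] at h5
  have hd1 : ‖w₁‖ / (1 / ℓ) = ‖w₁‖ * ℓ := by
    rw [div_div_eq_mul_div, div_one]
  have hd2 : ‖w₂‖ / (1 / ℓ) = ‖w₂‖ * ℓ := by
    rw [div_div_eq_mul_div, div_one]
  have hd3 : (‖w₁‖ + ‖w₂‖) / (1 / ℓ) = W * ℓ := by
    rw [div_div_eq_mul_div, div_one]
  rw [hd1, hd2, hd3] at h5
  set B := ((1 + ‖w₁‖ * ℓ) * (1 + ‖w₂‖ * ℓ)) ^ E with hB'
  have hB1 : 1 ≤ B := by
    refine Real.one_le_rpow ?_ hE.le
    have a1 : 0 ≤ ‖w₁‖ * ℓ := by positivity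
    have a2 : 0 ≤ ‖w₂‖ * ℓ := by positivity
    nlinarith
  have h6 : C₁ * N * (Real.exp 1 * ∑ m ∈ Finset.Icc 2 N, f m * (m : ℝ) ^ (-1 - 1 / ℓ)) ≤
      C₁ * N * (Real.exp 1 * (C₂ * B * (W * ℓ) ^ 2)) := by
    refine mul_le_mul_of_nonneg_left (mul_le_mul_of_nonneg_left h5 (Real.exp_pos _).le)
      (by positivity)
  have h7 : C₁ * N * (W * ℓ) ^ 2 ≤ C₁ * N * (W * ℓ) ^ 2 * B :=
    le_mul_of_one_le_right (by positivity) hB1
  refine (add_le_add (hfirst.trans h7) (hsecond.trans h6)).trans (le_of_eq ?_)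
  ring

/-- expansion as a double sum -/
theorem sel_Z14_expand (A B B' g₁ g₂ : ℕ → ℂ) {M : ℕ} :
    ∑ v ∈ M.divisorsAntidiagonal, A v.1 * ∑ u ∈ v.2.divisorsAntidiagonal,
      (B u.1 * g₁ u.1) * (B' u.2 * g₂ u.2) =
    ∑ w ∈ Finset.Icc 1 M ×ˢ Finset.Icc 1 M,
      (∑ v ∈ M.divisorsAntidiagonal, if w.1 * w.2 = v.2 then A v.1 * (B w.1 * B' w.2) else 0) *
        g₁ w.1 * g₂ w.2 := by
  simp_rw [Finset.sum_mul]
  rw [Finset.sum_comm]
  refine Finset.sum_congr rfl fun v hv => ?_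
  rw [Nat.mem_divisorsAntidiagonal] at hv
  obtain ⟨hv1, hM⟩ := hv
  have hv2 : v.2 ≠ 0 := by
    intro h
    rw [h, mul_zero] at hv1
    exact hM hv1.symm
  have hv2M : v.2 ≤ M := Nat.le_of_dvd (by omega) ⟨v.1, by rw [← hv1, mul_comm]⟩
  have hfil : v.2.divisorsAntidiagonal =
      (Finset.Icc 1 M ×ˢ Finset.Icc 1 M).filter (fun w : ℕ × ℕ => w.1 * w.2 = v.2) := by
    ext w
    simp only [Nat.mem_divisorsAntidiagonal, Finset.mem_filter, Finset.mem_product, Finset.mem_Icc]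
    constructor
    · rintro ⟨h1, h2⟩
      have a1 : w.1 ≠ 0 := by
        intro h
        rw [h, zero_mul] at h1
        exact h2 h1.symm
      have a2 : w.2 ≠ 0 := by
        intro h
        rw [h, mul_zero] at h1
        exact h2 h1.symm
      have b1 : w.1 ≤ v.2 := Nat.le_of_dvd (by omega) ⟨w.2, h1.symm⟩
      have b2 : w.2 ≤ v.2 := Nat.le_of_dvd (by omega) ⟨w.1, by rw [← h1, mul_comm]⟩
      exact ⟨⟨⟨by omega, by omega⟩, by omega, by omega⟩, h1⟩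
    · rintro ⟨_, h1⟩
      exact ⟨h1, hv2⟩
  rw [Finset.mul_sum, hfil, Finset.sum_filter]
  refine Finset.sum_congr rfl fun w _ => ?_
  split_ifs
  · ring
  · ring

theorem sel_Z14_w {u L : ℝ} (hL : 0 < L) : ((1 - u * I) / L : ℂ).re = 1 / L ∧
    ‖((1 - u * I) / L : ℂ)‖ ≤ (1 + |u|) / L := by
  constructor
  · rw [Complex.div_ofReal_re]
    simp
  · rw [norm_div, Complex.norm_real, Real.norm_of_nonneg hL.le]
    refine div_le_div_of_nonneg_right ?_ hL.le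
    refine (norm_sub_le _ _).trans ?_
    simp

/-- block Z14 -/
theorem dy_two_pr {k : ℕ} {a : ℕ → ℝ} (H : HData k a) {Θ : ℝ → ℝ} (h : Adm Θ) :
    ∃ C : ℝ, 0 < C ∧ ∀ (L : ℝ) (N : ℕ), 3 ≤ N → Real.log N ≤ L →
      ∑ M ∈ Finset.Icc 2 N, ((lamA k a 1 * (beA k a 1 L Θ * beA k a 1 L Θ)) M) ^ 2 *
        Real.log M ≤ C * N * (Real.log N / L) ^ 2 := by
  obtain ⟨C₁, E₁, hC₁, hE₁, h₁⟩ := dyw_pr H
  obtain ⟨C₂, hC₂, h₂⟩ := adm_mink h h (E₁ + 2)
  refine ⟨C₂ * (C₁ * 4 ^ E₁ * 4), by positivity, fun L N hN hL => ?_⟩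
  have hN0 : (0 : ℝ) < N := by
    exact_mod_cast (by omega : 0 < N)
  have hlogN : 1 ≤ Real.log N := by
    rw [Real.le_log_iff_exp_le hN0]
    have h3 : (3 : ℝ) ≤ N := by exact_mod_cast hN
    exact Real.exp_one_lt_three.le.trans h3
  set ℓ := Real.log N with hℓ
  have hL0 : 0 < L := by linarith
  set t := ℓ / L with ht
  have ht0 : 0 < t := by positivity
  have ht1 : t ≤ 1 := by
    rw [ht, div_le_one hL0]
    exact hL
  set c : ℕ → ℕ × ℕ → ℂ := fun M w => ∑ v ∈ M.divisorsAntidiagonal,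
    if w.1 * w.2 = v.2 then (lamA k a 1 v.1 : ℂ) * ((alA k a 1 w.1 : ℂ) * (alA k a 1 w.2 : ℂ))
      else 0 with hc
  have h3 := h₂ L hL0 (Finset.Icc 2 N) (fun M => Real.log M) (C₁ * 4 ^ E₁ * 4 * (N * t ^ 2))
    (GW k a 1 1) (fun M => (((lamA k a 1 * (beA k a 1 L Θ * beA k a 1 L Θ)) M : ℝ) : ℂ)) c
    (fun M _ => Real.log_natCast_nonneg M) (by positivity) ?_ ?_ ?_
  · have h4 : ∑ M ∈ Finset.Icc 2 N, ((lamA k a 1 * (beA k a 1 L Θ * beA k a 1 L Θ)) M) ^ 2 *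
        Real.log M = ∑ M ∈ Finset.Icc 2 N,
        ‖(((lamA k a 1 * (beA k a 1 L Θ * beA k a 1 L Θ)) M : ℝ) : ℂ)‖ ^ 2 * Real.log M := by
      refine Finset.sum_congr rfl fun M _ => ?_
      rw [Complex.norm_real, Real.norm_eq_abs, sq_abs]
    rw [h4]
    refine h3.trans (le_of_eq ?_)
    ring
  · intro w₁ w₂ M _
    unfold GW
    exact sel_Z14_expand (fun n => (lamA k a 1 n : ℂ)) (fun n => (alA k a 1 n : ℂ))
      (fun n => (alA k a 1 n : ℂ)) (fun n => (n : ℂ) ^ (-w₁)) (fun n => (n : ℂ) ^ (-w₂))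
  · intro M _
    have h5 := sel_Z14_expand (fun n => (lamA k a 1 n : ℂ)) (fun n => (alA k a 1 n : ℂ))
      (fun n => (alA k a 1 n : ℂ)) (fun n => (Θ (Real.log n / L) : ℂ))
      (fun n => (Θ (Real.log n / L) : ℂ)) (M := M)
    refine Eq.trans ?_ h5
    rw [ArithmeticFunction.mul_apply]
    push_cast
    refine Finset.sum_congr rfl fun v _ => ?_
    rw [ArithmeticFunction.mul_apply]
    push_cast
    congr 1
    refine Finset.sum_congr rfl fun u _ => ?_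
    have hb : ∀ n : ℕ, beA k a 1 L Θ n = alA k a 1 n * Θ (Real.log n / L) := fun n => rfl
    rw [hb, hb]
    push_cast
    rfl
  · intro u₁ u₂
    obtain ⟨r1, n1⟩ := sel_Z14_w (u := u₁) hL0
    obtain ⟨r2, n2⟩ := sel_Z14_w (u := u₂) hL0
    set w₁ : ℂ := (1 - u₁ * I) / L with hw₁
    set w₂ : ℂ := (1 - u₂ * I) / L with hw₂
    have hre : 1 / L ≤ 1 / ℓ := one_div_le_one_div_of_le (by linarith) hL
    have h6 := h₁ N w₁ w₂ hN (by rw [r1]; positivity) (by rw [r1]; exact hre)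
      (by rw [r2]; positivity) (by rw [r2]; exact hre)
    refine h6.trans ?_
    set v₁ := 1 + |u₁| with hv₁
    set v₂ := 1 + |u₂| with hv₂
    have hv₁1 : 1 ≤ v₁ := by
      rw [hv₁]
      linarith [abs_nonneg u₁]
    have hv₂1 : 1 ≤ v₂ := by
      rw [hv₂]
      linarith [abs_nonneg u₂]
    have m1 : ‖w₁‖ * ℓ ≤ v₁ * t := by
      have := mul_le_mul_of_nonneg_right n1 (by linarith : 0 ≤ ℓ)
      refine this.trans (le_of_eq ?_)
      rw [ht]
      ring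
    have m2 : ‖w₂‖ * ℓ ≤ v₂ * t := by
      have := mul_le_mul_of_nonneg_right n2 (by linarith : 0 ≤ ℓ)
      refine this.trans (le_of_eq ?_)
      rw [ht]
      ring
    have m1' : 0 ≤ ‖w₁‖ * ℓ := by positivity
    have m2' : 0 ≤ ‖w₂‖ * ℓ := by positivity
    have p1 : 1 + ‖w₁‖ * ℓ ≤ 2 * v₁ := by nlinarith
    have p2 : 1 + ‖w₂‖ * ℓ ≤ 2 * v₂ := by nlinarith
    have p3 : (1 + ‖w₁‖ * ℓ) * (1 + ‖w₂‖ * ℓ) ≤ 4 * (v₁ * v₂) := by
      refine (mul_le_mul p1 p2 (by positivity) (by positivity)).trans (le_of_eq ?_)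
      ring
    have p4 : ((1 + ‖w₁‖ * ℓ) * (1 + ‖w₂‖ * ℓ)) ^ E₁ ≤ 4 ^ E₁ * (v₁ * v₂) ^ E₁ := by
      rw [← Real.mul_rpow (by norm_num) (by positivity)]
      exact Real.rpow_le_rpow (by positivity) p3 hE₁.le
    have p5 : (‖w₁‖ + ‖w₂‖) * ℓ ≤ 2 * (v₁ * v₂) * t := by
      have a1 : (‖w₁‖ + ‖w₂‖) * ℓ ≤ (v₁ + v₂) * t := by linarith
      have a2 : v₁ + v₂ ≤ 2 * (v₁ * v₂) := by nlinarith
      exact a1.trans (mul_le_mul_of_nonneg_right a2 ht0.le)
    have p6 : ((‖w₁‖ + ‖w₂‖) * ℓ) ^ 2 ≤ (2 * (v₁ * v₂) * t) ^ 2 :=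
      pow_le_pow_left₀ (by positivity) p5 2
    have p7 : (v₁ * v₂) ^ (E₁ + 2) = (v₁ * v₂) ^ E₁ * (v₁ * v₂) ^ 2 := by
      rw [Real.rpow_add (by positivity), Real.rpow_two]
    rw [p7]
    calc C₁ * ((1 + ‖w₁‖ * ℓ) * (1 + ‖w₂‖ * ℓ)) ^ E₁ * ((‖w₁‖ + ‖w₂‖) * ℓ) ^ 2 * N
        ≤ C₁ * (4 ^ E₁ * (v₁ * v₂) ^ E₁) * (2 * (v₁ * v₂) * t) ^ 2 * N := by
          gcongr
      _ = _ := by ring

theorem dyw : type_of% @dyw_pr := @dyw_pr
theorem dy_two : type_of% @dy_two_pr := @dy_two_pr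

end Pool.Agent.SEL
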