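import Pool.Agent.Lib_helper68.SEL.Defs
import Pool.Agent.Lib_helper68.SEL.Z14
import Pool.Agent.Lib_helper68.SEL.Z2

/-! [SEL Z15] the mean value at short length. Cites: Z2 lam_alA_le, Z14 dy_two. -/

namespace Pool.Agent.SEL

open Complex MeasureTheory Filter Topology Pool.Agent.GL2

theorem sel_z15_conv {f g : ArithmeticFunction ℝ} {r : ℕ}
    (hf : ∀ n : ℕ, 0 < n → |f n| ≤ (n : ℝ) ^ r) (hg : ∀ n : ℕ, 0 < n → |g n| ≤ (n : ℝ) ^ r)
    (n : ℕ) : |(f * g) n| ≤ (n : ℝ) ^ (r + 1) := by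
  rw [ArithmeticFunction.mul_apply]
  refine (Finset.abs_sum_le_sum_abs _ _).trans ?_
  have h1 : ∀ v ∈ n.divisorsAntidiagonal, |f v.1 * g v.2| ≤ (n : ℝ) ^ r := by
    intro v hv
    obtain ⟨h2, h3⟩ := Nat.mem_divisorsAntidiagonal.1 hv
    have hv1 : 0 < v.1 := Nat.pos_of_ne_zero (fun h => h3 (by rw [← h2, h, zero_mul]))
    have hv2 : 0 < v.2 := Nat.pos_of_ne_zero (fun h => h3 (by rw [← h2, h, mul_zero]))
    rw [abs_mul, ← h2]
    push_cast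
    rw [mul_pow]
    exact mul_le_mul (hf _ hv1) (hg _ hv2) (abs_nonneg _) (by positivity)
  refine (Finset.sum_le_card_nsmul _ _ _ h1).trans ?_
  have hc : n.divisorsAntidiagonal.card = n.divisors.card := by
    rw [Finset.card_eq_sum_ones, Finset.card_eq_sum_ones]
    exact Nat.sum_divisorsAntidiagonal (n := n) (fun _ _ => 1)
  rw [nsmul_eq_mul, hc]
  have h4 : (n.divisors.card : ℝ) ≤ n := by exact_mod_cast Nat.card_divisors_le_self n
  calc (n.divisors.card : ℝ) * (n : ℝ) ^ r ≤ n * (n : ℝ) ^ r :=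
        mul_le_mul_of_nonneg_right h4 (by positivity)
    _ = (n : ℝ) ^ (r + 1) := by ring

theorem sel_z15_crude {k : ℕ} {a : ℕ → ℝ} (H : HData k a) {Θ : ℝ → ℝ}
    (hΘ : ∀ x, 0 ≤ Θ x ∧ Θ x ≤ 1) (L : ℝ) (M : ℕ) :
    ((lamA k a 1 * (beA k a 1 L Θ * beA k a 1 L Θ)) M) ^ 2 ≤ (M : ℝ) ^ 8 := by
  have hbe : ∀ n : ℕ, 0 < n → |beA k a 1 L Θ n| ≤ (n : ℝ) ^ 2 := by
    intro n hn
    show |alA k a 1 n * Θ (Real.log n / L)| ≤ _
    rw [abs_mul, abs_of_nonneg (hΘ _).1]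
    calc |alA k a 1 n| * Θ (Real.log n / L) ≤ (n : ℝ) ^ 2 * 1 :=
          mul_le_mul (lam_alA_le H 1 n hn).2 (hΘ _).2 (hΘ _).1 (by positivity)
      _ = (n : ℝ) ^ 2 := mul_one _
  have hlam : ∀ n : ℕ, 0 < n → |lamA k a 1 n| ≤ (n : ℝ) ^ 3 := by
    intro n hn
    have h1 : (1 : ℝ) ≤ n := by exact_mod_cast hn
    have h2 : (n : ℝ) ^ 2 ≤ (n : ℝ) ^ 3 := pow_le_pow_right₀ h1 (by norm_num)
    refine le_trans ?_ h2
    have : lamA k a 1 n = lam k a n := by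
      simp [lamA, hn.ne']
    rw [this]
    exact (lam_alA_le H 1 n hn).1
  have h3 := sel_z15_conv hlam (fun n _ => sel_z15_conv hbe hbe n) M
  have h4 : ((lamA k a 1 * (beA k a 1 L Θ * beA k a 1 L Θ)) M) ^ 2 =
      |(lamA k a 1 * (beA k a 1 L Θ * beA k a 1 L Θ)) M| ^ 2 := (sq_abs _).symm
  rw [h4]
  calc |(lamA k a 1 * (beA k a 1 L Θ * beA k a 1 L Θ)) M| ^ 2 ≤ ((M : ℝ) ^ (3 + 1)) ^ 2 :=
        pow_le_pow_left₀ (abs_nonneg _) h3 2
    _ = (M : ℝ) ^ 8 := by ring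

theorem sel_z15_V1 {k : ℕ} (hk : 0 < k) {t : ℝ} (ht : 0 < t) :
    t ^ k * Real.exp (-4 * Real.pi * t) ≤
      ((k + 1).factorial : ℝ) * Real.exp 1 * (t / (1 + t) ^ 2) := by
  obtain ⟨n, rfl⟩ : ∃ n, k = n + 1 := ⟨k - 1, by omega⟩
  have h1 : (1 + t) ^ (n + 1 + 1) / ((n + 1 + 1).factorial : ℝ) ≤ Real.exp (1 + t) :=
    Real.pow_div_factorial_le_exp (1 + t) (by linarith) _
  have hf : (0 : ℝ) < ((n + 1 + 1).factorial : ℝ) := by exact_mod_cast Nat.factorial_pos _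
  rw [div_le_iff₀ hf] at h1
  have h2 : t ^ n ≤ (1 + t) ^ n := pow_le_pow_left₀ ht.le (by linarith) n
  have h3 : Real.exp (-4 * Real.pi * t) * Real.exp (1 + t) ≤ Real.exp 1 := by
    rw [← Real.exp_add]
    apply Real.exp_le_exp.2
    nlinarith [Real.pi_gt_three]
  rw [← mul_div_assoc, le_div_iff₀ (by positivity)]
  calc t ^ (n + 1) * Real.exp (-4 * Real.pi * t) * (1 + t) ^ 2
      = t ^ n * (t * Real.exp (-4 * Real.pi * t) * (1 + t) ^ 2) := by ring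
    _ ≤ (1 + t) ^ n * (t * Real.exp (-4 * Real.pi * t) * (1 + t) ^ 2) :=
        mul_le_mul_of_nonneg_right h2 (by positivity)
    _ = t * Real.exp (-4 * Real.pi * t) * (1 + t) ^ (n + 1 + 1) := by ring
    _ ≤ t * Real.exp (-4 * Real.pi * t) *
        (Real.exp (1 + t) * ((n + 1 + 1).factorial : ℝ)) :=
        mul_le_mul_of_nonneg_left h1 (by positivity)
    _ = (Real.exp (-4 * Real.pi * t) * Real.exp (1 + t)) *
        (t * ((n + 1 + 1).factorial : ℝ)) := by ring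
    _ ≤ Real.exp 1 * (t * ((n + 1 + 1).factorial : ℝ)) :=
        mul_le_mul_of_nonneg_right h3 (by positivity)
    _ = ((n + 1 + 1).factorial : ℝ) * Real.exp 1 * t := by ring

theorem sel_z15_V2 (k : ℕ) {t : ℝ} (ht : 0 < t) :
    t ^ k * Real.exp (-4 * Real.pi * t) ≤ ((k + 20).factorial : ℝ) / t ^ 20 := by
  have h1 : t ^ (k + 20) / ((k + 20).factorial : ℝ) ≤ Real.exp t :=
    Real.pow_div_factorial_le_exp t ht.le _
  have hf : (0 : ℝ) < ((k + 20).factorial : ℝ) := by exact_mod_cast Nat.factorial_pos _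
  rw [div_le_iff₀ hf] at h1
  rw [le_div_iff₀ (by positivity)]
  have h3 : Real.exp (-4 * Real.pi * t) * Real.exp t ≤ 1 := by
    rw [← Real.exp_add]
    apply Real.exp_le_one_iff.2
    nlinarith [Real.pi_gt_three]
  calc t ^ k * Real.exp (-4 * Real.pi * t) * t ^ 20
      = Real.exp (-4 * Real.pi * t) * t ^ (k + 20) := by ring
    _ ≤ Real.exp (-4 * Real.pi * t) * (Real.exp t * ((k + 20).factorial : ℝ)) :=
        mul_le_mul_of_nonneg_left h1 (Real.exp_pos _).le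
    _ = (Real.exp (-4 * Real.pi * t) * Real.exp t) * ((k + 20).factorial : ℝ) := by ring
    _ ≤ 1 * ((k + 20).factorial : ℝ) := mul_le_mul_of_nonneg_right h3 hf.le
    _ = ((k + 20).factorial : ℝ) := one_mul _

/-- the telescoping function -/
noncomputable def sel_z15_phi (s : ℝ) : ℝ := s / (1 + s)

theorem sel_z15_tel {s t : ℝ} (hs : 0 < s) (h1 : s / 2 ≤ t) (h2 : t ≤ s) :
    t / (1 + t) ^ 2 ≤ 8 * (sel_z15_phi (2 * s) - sel_z15_phi s) := by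
  have ht : 0 < t := by linarith
  have e : sel_z15_phi (2 * s) - sel_z15_phi s = s / ((1 + 2 * s) * (1 + s)) := by
    unfold sel_z15_phi
    field_simp
    ring
  rw [e, ← mul_div_assoc, div_le_div_iff₀ (by positivity) (by positivity)]
  have h3 : (1 + 2 * s) * (1 + s) ≤ 8 * (1 + t) ^ 2 := by nlinarith
  calc t * ((1 + 2 * s) * (1 + s)) ≤ s * (8 * (1 + t) ^ 2) :=
        mul_le_mul h2 h3 (by positivity) hs.le
    _ = 8 * s * (1 + t) ^ 2 := by ring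

theorem sel_z15_block (b V : ℕ → ℝ) (hb0 : ∀ M, 0 ≤ b M) {C CV L y : ℝ} (hC : 0 < C)
    (hCV : 0 < CV) (hL0 : 0 < L) (hy0 : 0 < y) (hV0 : ∀ M, 0 ≤ V M)
    (hV : ∀ M : ℕ, 0 < M → V M ≤ CV * (M * y / (1 + M * y) ^ 2))
    (hdy : ∀ N : ℕ, 3 ≤ N → Real.log N ≤ L →
      ∑ M ∈ Finset.Icc 2 N, b M * Real.log M ≤ C * N * (Real.log N / L) ^ 2)
    (j : ℕ) (hj1 : 1 ≤ j) (hNL : Real.log ((2 ^ (j + 1) : ℕ) : ℝ) ≤ L)
    (T : Finset ℕ) (hT : ∀ M ∈ T, 2 ^ j ≤ M ∧ M < 2 ^ (j + 1)) :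
    ∑ M ∈ T, b M / M * V M ≤ 32 * C * CV / L *
      (sel_z15_phi (2 ^ (j + 1 + 1) * y) - sel_z15_phi (2 ^ (j + 1) * y)) := by
  have hs : (0 : ℝ) < 2 ^ (j + 1) * y := by positivity
  obtain ⟨Δ, hΔd⟩ : ∃ Δ, Δ = sel_z15_phi (2 ^ (j + 1 + 1) * y) - sel_z15_phi (2 ^ (j + 1) * y) :=
    ⟨_, rfl⟩
  have e : (2 : ℝ) ^ (j + 1 + 1) * y = 2 * (2 ^ (j + 1) * y) := by ring
  have hΔ : 0 ≤ Δ := by
    have := sel_z15_tel hs (half_le_self hs.le) le_rfl
    rw [hΔd, e]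
    have h2 : 0 ≤ 2 ^ (j + 1) * y / (1 + 2 ^ (j + 1) * y) ^ 2 := by positivity
    linarith
  rw [← hΔd]
  have hN3 : 3 ≤ 2 ^ (j + 1) := by
    have : 2 ^ 2 ≤ 2 ^ (j + 1) := Nat.pow_le_pow_right (by norm_num) (by omega)
    omega
  have hlogN : Real.log ((2 ^ (j + 1) : ℕ) : ℝ) = (j + 1) * Real.log 2 := by
    push_cast
    rw [Real.log_pow]
    push_cast
    ring
  have hlog2 : 0 < Real.log 2 := Real.log_pos (by norm_num)
  have hj0 : (1 : ℝ) ≤ j := by exact_mod_cast hj1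
  obtain ⟨w, hw⟩ : ∃ w, w = (j : ℝ) * Real.log 2 := ⟨_, rfl⟩
  have hjl : 0 < w := by rw [hw]; positivity
  have hterm : ∀ M ∈ T, b M / M * V M ≤ (CV * (8 * Δ) / (2 ^ j * w)) * (b M * Real.log M) := by
    intro M hM
    obtain ⟨hlow, hup⟩ := hT M hM
    have hlow' : (2 : ℝ) ^ j ≤ M := by exact_mod_cast hlow
    have hup' : (M : ℝ) ≤ 2 ^ (j + 1) := by exact_mod_cast hup.le
    have hM0 : (0 : ℝ) < M := lt_of_lt_of_le (by positivity) hlow'
    have ht : 0 < (M : ℝ) * y := by positivity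
    have v2 := sel_z15_tel (t := M * y) hs (by
      have e : (2 : ℝ) ^ (j + 1) * y / 2 = 2 ^ j * y := by ring
      rw [e]
      exact mul_le_mul_of_nonneg_right hlow' hy0.le)
      (mul_le_mul_of_nonneg_right hup' hy0.le)
    rw [← e, ← hΔd] at v2
    have v3 : V M ≤ CV * (8 * Δ) :=
      (hV M (by exact_mod_cast hM0)).trans (mul_le_mul_of_nonneg_left v2 hCV.le)
    have hlogM : w ≤ Real.log M := by
      have := Real.log_le_log (by positivity) hlow'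
      rwa [Real.log_pow, ← hw] at this
    have hlM : 0 ≤ Real.log M := hjl.le.trans hlogM
    have v4 : b M / M ≤ b M * Real.log M / (2 ^ j * w) := by
      rw [div_le_div_iff₀ hM0 (by positivity)]
      have : 2 ^ j * w ≤ Real.log M * M := by
        rw [mul_comm (Real.log (M : ℝ))]
        exact mul_le_mul hlow' hlogM hjl.le hM0.le
      calc b M * (2 ^ j * w) ≤ b M * (Real.log M * M) :=
            mul_le_mul_of_nonneg_left this (hb0 M)
        _ = b M * Real.log M * M := by ring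
    calc b M / M * V M ≤ (b M * Real.log M / (2 ^ j * w)) * (CV * (8 * Δ)) := by
          refine mul_le_mul v4 v3 (hV0 M) ?_
          have := hb0 M
          positivity
      _ = _ := by ring
  refine (Finset.sum_le_sum hterm).trans ?_
  rw [← Finset.mul_sum]
  have hsub : ∑ M ∈ T, b M * Real.log M ≤
      ∑ M ∈ Finset.Icc 2 (2 ^ (j + 1)), b M * Real.log M := by
    refine Finset.sum_le_sum_of_subset_of_nonneg ?_ (fun M _ _ =>
      mul_nonneg (hb0 M) (Real.log_natCast_nonneg M))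
    intro M hM
    obtain ⟨hlow, hup⟩ := hT M hM
    have : 2 ^ 1 ≤ 2 ^ j := Nat.pow_le_pow_right (by norm_num) hj1
    exact Finset.mem_Icc.2 ⟨by omega, hup.le⟩
  have hfin := hsub.trans (hdy _ hN3 hNL)
  obtain ⟨l, hl⟩ : ∃ l, l = Real.log ((2 ^ (j + 1) : ℕ) : ℝ) := ⟨_, rfl⟩
  have hN2 : ((2 ^ (j + 1) : ℕ) : ℝ) = 2 * 2 ^ j := by push_cast; ring
  rw [← hl, hN2] at hfin
  rw [← hl] at hNL hlogN
  have q1 : l ^ 2 ≤ 2 * L * w := by
    have q2 : l ≤ 2 * w := by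
      rw [hlogN, hw]
      nlinarith
    have q3 : 0 ≤ l := by rw [hl]; exact Real.log_natCast_nonneg _
    calc l ^ 2 = l * l := sq _
      _ ≤ L * (2 * w) := mul_le_mul hNL q2 q3 hL0.le
      _ = 2 * L * w := by ring
  have hpos : 0 ≤ CV * (8 * Δ) / (2 ^ j * w) := by positivity
  refine (mul_le_mul_of_nonneg_left hfin hpos).trans ?_
  have hpos2 : 0 ≤ 16 * C * CV * Δ / (L ^ 2 * w) := by positivity
  calc CV * (8 * Δ) / (2 ^ j * w) * (C * (2 * 2 ^ j) * (l / L) ^ 2)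
      = (16 * C * CV * Δ / (L ^ 2 * w)) * l ^ 2 := by
        field_simp
        ring
    _ ≤ (16 * C * CV * Δ / (L ^ 2 * w)) * (2 * L * w) :=
        mul_le_mul_of_nonneg_left q1 hpos2
    _ = 32 * C * CV / L * Δ := by
        field_simp
        ring

theorem sel_z15_part1 (b V : ℕ → ℝ) (hb0 : ∀ M, 0 ≤ b M) {C CV L y : ℝ} (hC : 0 < C)
    (hCV : 0 < CV) (hL0 : 0 < L) (hy0 : 0 < y) (hV0 : ∀ M, 0 ≤ V M)
    (hV : ∀ M : ℕ, 0 < M → V M ≤ CV * (M * y / (1 + M * y) ^ 2))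
    (hdy : ∀ N : ℕ, 3 ≤ N → Real.log N ≤ L →
      ∑ M ∈ Finset.Icc 2 N, b M * Real.log M ≤ C * N * (Real.log N / L) ^ 2) (X : ℕ) :
    ∑ M ∈ (Finset.Ico 2 X).filter (fun M : ℕ => 2 * (M : ℝ) ≤ Real.exp L), b M / M * V M ≤
      32 * C * CV / L := by
  obtain ⟨T, hT⟩ : ∃ T, T = (Finset.Ico 2 X).filter (fun M : ℕ => 2 * (M : ℝ) ≤ Real.exp L) :=
    ⟨_, rfl⟩
  rw [← hT]
  have hmaps : ∀ M ∈ T, Nat.log 2 M ∈ Finset.range X := by
    intro M hM
    rw [hT] at hM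
    have h1 := Finset.mem_Ico.1 (Finset.mem_filter.1 hM).1
    rw [Finset.mem_range]
    exact lt_of_le_of_lt (Nat.log_le_self 2 M) h1.2
  have hblock : ∀ j ∈ Finset.range X, ∑ M ∈ T with Nat.log 2 M = j, b M / M * V M ≤
      32 * C * CV / L * (sel_z15_phi (2 ^ (j + 1 + 1) * y) - sel_z15_phi (2 ^ (j + 1) * y)) := by
    intro j _
    by_cases hemp : (T.filter (fun M => Nat.log 2 M = j)) = ∅
    · have hs : (0 : ℝ) < 2 ^ (j + 1) * y := by positivity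
      have e : (2 : ℝ) ^ (j + 1 + 1) * y = 2 * (2 ^ (j + 1) * y) := by ring
      have hΔ : 0 ≤ sel_z15_phi (2 ^ (j + 1 + 1) * y) - sel_z15_phi (2 ^ (j + 1) * y) := by
        have := sel_z15_tel hs (half_le_self hs.le) le_rfl
        rw [e]
        have h2 : 0 ≤ 2 ^ (j + 1) * y / (1 + 2 ^ (j + 1) * y) ^ 2 := by positivity
        linarith
      rw [hemp, Finset.sum_empty]
      exact mul_nonneg (by positivity) hΔ
    · obtain ⟨M₀, hM₀⟩ := Finset.nonempty_iff_ne_empty.2 hemp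
      obtain ⟨hM₀T, hM₀j⟩ := Finset.mem_filter.1 hM₀
      rw [hT] at hM₀T
      obtain ⟨hM₀I, hM₀L⟩ := Finset.mem_filter.1 hM₀T
      have hM₀2 := (Finset.mem_Ico.1 hM₀I).1
      have hj1 : 1 ≤ j := by
        rw [← hM₀j]
        exact Nat.log_pos (by norm_num) hM₀2
      have hlow₀ : 2 ^ j ≤ M₀ := by
        rw [← hM₀j]
        exact Nat.pow_log_le_self 2 (by omega)
      have hNL : Real.log ((2 ^ (j + 1) : ℕ) : ℝ) ≤ L := by
        rw [Real.log_le_iff_le_exp (by positivity)]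
        have : ((2 ^ (j + 1) : ℕ) : ℝ) ≤ 2 * M₀ := by
          have h5 : 2 ^ (j + 1) ≤ 2 * M₀ := by rw [pow_succ]; omega
          exact_mod_cast h5
        linarith
      refine sel_z15_block b V hb0 hC hCV hL0 hy0 hV0 hV hdy j hj1 hNL _ ?_
      intro M hM
      obtain ⟨hMT, hMj⟩ := Finset.mem_filter.1 hM
      rw [hT] at hMT
      obtain ⟨hMI, hML⟩ := Finset.mem_filter.1 hMT
      have hM2 := (Finset.mem_Ico.1 hMI).1
      constructor
      · rw [← hMj]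
        exact Nat.pow_log_le_self 2 (by omega)
      · rw [← hMj]
        exact Nat.lt_pow_succ_log_self (by norm_num) M
  rw [← Finset.sum_fiberwise_of_maps_to hmaps]
  refine (Finset.sum_le_sum hblock).trans ?_
  rw [← Finset.mul_sum, Finset.sum_range_sub (fun j => sel_z15_phi (2 ^ (j + 1) * y))]
  have p1 : sel_z15_phi (2 ^ (X + 1) * y) ≤ 1 := by
    unfold sel_z15_phi
    rw [div_le_one (by positivity)]
    linarith
  have p2 : 0 ≤ sel_z15_phi (2 ^ (0 + 1) * y) := by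
    unfold sel_z15_phi
    positivity
  have hpos : 0 ≤ 32 * C * CV / L := by positivity
  calc 32 * C * CV / L * (sel_z15_phi (2 ^ (X + 1) * y) - sel_z15_phi (2 ^ (0 + 1) * y))
      ≤ 32 * C * CV / L * 1 := mul_le_mul_of_nonneg_left (by linarith) hpos
    _ = 32 * C * CV / L := mul_one _

theorem sel_z15_part2 (b V : ℕ → ℝ) (hb0 : ∀ M, 0 ≤ b M) (hb8 : ∀ M : ℕ, b M ≤ (M : ℝ) ^ 8)
    {C' Z L y : ℝ} (hC' : 0 < C') (hL0 : 0 < L) (hy0 : 0 < y)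
    (hy : Real.exp (-L / 2) ≤ y) (hV0 : ∀ M, 0 ≤ V M)
    (hV : ∀ M : ℕ, 0 < M → V M ≤ C' / (M * y) ^ 20)
    (hZ : ∀ S : Finset ℕ, ∑ n ∈ S, 1 / (n : ℝ) ^ 2 ≤ Z) (X : ℕ) :
    ∑ M ∈ (Finset.Ico 2 X).filter (fun M : ℕ => ¬ 2 * (M : ℝ) ≤ Real.exp L), b M / M * V M ≤
      2 * (C' * 2 ^ 10) * Z / L := by
  have hterm : ∀ M ∈ (Finset.Ico 2 X).filter (fun M : ℕ => ¬ 2 * (M : ℝ) ≤ Real.exp L),
      b M / M * V M ≤ 2 * (C' * 2 ^ 10) / L * (1 / (M : ℝ) ^ 2) := by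
    intro M hM
    obtain ⟨hMI, hML⟩ := Finset.mem_filter.1 hM
    push Not at hML
    have hM2 := (Finset.mem_Ico.1 hMI).1
    have hM0 : (0 : ℝ) < M := by
      have : 0 < M := by omega
      exact_mod_cast this
    have ht : 0 < (M : ℝ) * y := by positivity
    have v1 := hV M (by omega)
    have v2 : (M : ℝ) / 2 ≤ ((M : ℝ) * y) ^ 2 := by
      have e1 : Real.exp (-L) ≤ y ^ 2 := by
        calc Real.exp (-L) = (Real.exp (-L / 2)) ^ 2 := by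
              rw [← Real.exp_nat_mul]; congr 1; push_cast; ring
          _ ≤ y ^ 2 := pow_le_pow_left₀ (Real.exp_pos _).le hy 2
      have e2 : 1 / (2 * (M : ℝ)) ≤ Real.exp (-L) := by
        rw [Real.exp_neg, inv_eq_one_div]
        exact one_div_le_one_div_of_le (Real.exp_pos _) hML.le
      calc (M : ℝ) / 2 = (M : ℝ) ^ 2 * (1 / (2 * (M : ℝ))) := by field_simp
        _ ≤ (M : ℝ) ^ 2 * y ^ 2 := mul_le_mul_of_nonneg_left (e2.trans e1) (by positivity)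
        _ = ((M : ℝ) * y) ^ 2 := by ring
    have v3 : ((M : ℝ) / 2) ^ 10 ≤ ((M : ℝ) * y) ^ 20 := by
      calc ((M : ℝ) / 2) ^ 10 ≤ (((M : ℝ) * y) ^ 2) ^ 10 :=
            pow_le_pow_left₀ (by positivity) v2 10
        _ = ((M : ℝ) * y) ^ 20 := by ring
    have v4 : V M ≤ C' * 2 ^ 10 / (M : ℝ) ^ 10 := by
      refine v1.trans ?_
      rw [div_le_div_iff₀ (by positivity) (by positivity)]
      calc C' * (M : ℝ) ^ 10 = C' * 2 ^ 10 * ((M : ℝ) / 2) ^ 10 := by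
            rw [div_pow]; field_simp
        _ ≤ C' * 2 ^ 10 * ((M : ℝ) * y) ^ 20 :=
            mul_le_mul_of_nonneg_left v3 (by positivity)
    have v5 : b M / M ≤ (M : ℝ) ^ 7 := by
      rw [div_le_iff₀ hM0]
      calc b M ≤ (M : ℝ) ^ 8 := hb8 M
        _ = (M : ℝ) ^ 7 * M := by ring
    have v6 : L ≤ 2 * M := by
      have := Real.add_one_le_exp L
      linarith
    calc b M / M * V M ≤ (M : ℝ) ^ 7 * (C' * 2 ^ 10 / (M : ℝ) ^ 10) :=
          mul_le_mul v5 v4 (hV0 M) (by positivity)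
      _ = C' * 2 ^ 10 / (M : ℝ) ^ 3 := by field_simp
      _ ≤ 2 * (C' * 2 ^ 10) / L * (1 / (M : ℝ) ^ 2) := by
          rw [div_mul_div_comm, mul_one, div_le_div_iff₀ (by positivity) (by positivity)]
          calc C' * 2 ^ 10 * (L * (M : ℝ) ^ 2) ≤ C' * 2 ^ 10 * ((2 * M) * (M : ℝ) ^ 2) := by
                gcongr
            _ = 2 * (C' * 2 ^ 10) * (M : ℝ) ^ 3 := by ring
  refine (Finset.sum_le_sum hterm).trans ?_
  rw [← Finset.mul_sum]
  have hpos : 0 ≤ 2 * (C' * 2 ^ 10) / L := by positivity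
  calc _ ≤ 2 * (C' * 2 ^ 10) / L * Z := mul_le_mul_of_nonneg_left (hZ _) hpos
    _ = 2 * (C' * 2 ^ 10) * Z / L := by ring

theorem e_one_pr {k : ℕ} {a : ℕ → ℝ} (H : HData k a) {Θ : ℝ → ℝ} (h : Adm Θ)
    (hΘ : ∀ x, 0 ≤ Θ x ∧ Θ x ≤ 1) :
    ∃ C : ℝ, 0 < C ∧ ∀ (L y : ℝ) (X : ℕ), 2 ≤ L → Real.exp (-L / 2) ≤ y →
      ∑ M ∈ Finset.Ico 2 X, ((lamA k a 1 * (beA k a 1 L Θ * beA k a 1 L Θ)) M) ^ 2 / M *
        ((M * y) ^ k * Real.exp (-4 * Real.pi * (M * y))) ≤ C / L := by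
  obtain ⟨C, hC, hdy⟩ := dy_two H h
  obtain ⟨CV, hCVpos, hCV⟩ : ∃ CV : ℝ, 0 < CV ∧ ∀ t : ℝ, 0 < t →
      t ^ k * Real.exp (-4 * Real.pi * t) ≤ CV * (t / (1 + t) ^ 2) :=
    ⟨((k + 1).factorial : ℝ) * Real.exp 1, by positivity, fun t ht => sel_z15_V1 H.kpos ht⟩
  obtain ⟨C', hC'pos, hC'⟩ : ∃ C' : ℝ, 0 < C' ∧ ∀ t : ℝ, 0 < t →
      t ^ k * Real.exp (-4 * Real.pi * t) ≤ C' / t ^ 20 :=
    ⟨((k + 20).factorial : ℝ), by positivity, fun t ht => sel_z15_V2 k ht⟩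
  obtain ⟨Z, hZ0, hZ⟩ : ∃ Z : ℝ, 0 ≤ Z ∧ ∀ S : Finset ℕ, ∑ n ∈ S, 1 / (n : ℝ) ^ 2 ≤ Z := by
    have hZs : Summable fun n : ℕ => 1 / (n : ℝ) ^ 2 :=
      Real.summable_one_div_nat_pow.2 (by norm_num)
    exact ⟨∑' n : ℕ, 1 / (n : ℝ) ^ 2, tsum_nonneg (fun n => by positivity),
      fun S => hZs.sum_le_tsum _ (fun n _ => by positivity)⟩
  refine ⟨32 * C * CV + 2 * (C' * 2 ^ 10) * Z, by positivity, fun L y X hL hy => ?_⟩
  have hL0 : 0 < L := by linarith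
  have hy0 : 0 < y := lt_of_lt_of_le (Real.exp_pos _) hy
  rw [← Finset.sum_filter_add_sum_filter_not (Finset.Ico 2 X)
    (fun M : ℕ => 2 * (M : ℝ) ≤ Real.exp L)]
  have hpart1 := sel_z15_part1
    (fun M => ((lamA k a 1 * (beA k a 1 L Θ * beA k a 1 L Θ)) M) ^ 2)
    (fun M => (M * y) ^ k * Real.exp (-4 * Real.pi * (M * y))) (fun M => sq_nonneg _) hC
    hCVpos hL0 hy0 (fun M => by positivity)
    (fun M hM => hCV _ (mul_pos (by exact_mod_cast hM) hy0)) (fun N hN hNL => hdy L N hN hNL) X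
  have hpart2 := sel_z15_part2
    (fun M => ((lamA k a 1 * (beA k a 1 L Θ * beA k a 1 L Θ)) M) ^ 2)
    (fun M => (M * y) ^ k * Real.exp (-4 * Real.pi * (M * y))) (fun M => sq_nonneg _)
    (fun M => sel_z15_crude H hΘ L M) hC'pos hL0 hy0 hy (fun M => by positivity)
    (fun M hM => hC' _ (mul_pos (by exact_mod_cast hM) hy0)) hZ X
  refine (add_le_add hpart1 hpart2).trans (le_of_eq ?_)
  ring

theorem e_one : type_of% @e_one_pr := @e_one_pr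

end Pool.Agent.SEL
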