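import Pool.Agent.Lib_helper68.SEL.Defs
import Pool.Agent.Lib_helper68.GL2.MSB
import Pool.Agent.Lib_helper68.SEL.M3
import Pool.Agent.Lib_helper68.SEL.Z15
import Pool.Agent.Lib_helper68.SEL.Z2

/-!
# SEL block M6 (SDD): the mean value of `Dd - gd` (helper80)
-/

namespace Pool.Agent.SEL

open Complex MeasureTheory Filter Topology Pool.Agent.GL2

/-- the convolution as a sum over pairs -/
theorem sel_m6_conv (k : ℕ) (a : ℕ → ℝ) (β : ArithmeticFunction ℝ) (N : ℕ)
    (hβ : ∀ n, N ≤ n → β n = 0) {M : ℕ} (hM : 0 < M) :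
    (lamA k a 1 * (β * β)) M = ∑ m ∈ Finset.Ico 1 N, ∑ l ∈ Finset.Ico 1 N,
      if m * l ∣ M then β m * β l * lam k a (M / (m * l)) else 0 := by
  have hlam : ∀ n : ℕ, 0 < n → lamA k a 1 n = lam k a n := by
    intro n hn
    show (if n = 0 ∨ ¬ n.Coprime 1 then 0 else lam k a n) = _
    rw [if_neg]
    simp [hn.ne']
  set T : Finset (ℕ × ℕ) := (Finset.Ico 1 (M + 1) ×ˢ Finset.Ico 1 (M + 1)).filter
    fun p => p.1 * p.2 ∣ M with hT
  have hL : (lamA k a 1 * (β * β)) M =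
      ∑ p ∈ T, β p.1 * β p.2 * lam k a (M / (p.1 * p.2)) := by
    rw [ArithmeticFunction.mul_apply]
    simp_rw [ArithmeticFunction.mul_apply, Finset.mul_sum]
    rw [Finset.sum_sigma']
    refine Finset.sum_bij' (fun s _ => s.2) (fun p _ => ⟨(M / (p.1 * p.2), p.1 * p.2), p⟩)
      ?_ ?_ ?_ ?_ ?_
    · rintro ⟨x, y⟩ h
      simp only [Finset.mem_sigma, Nat.mem_divisorsAntidiagonal] at h
      obtain ⟨⟨h1, h2⟩, h3, h4⟩ := h
      have hd : y.1 * y.2 ∣ M := by rw [h3, ← h1]; exact dvd_mul_left _ _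
      have hy : y.1 * y.2 ≠ 0 := by rw [h3]; exact h4
      have hy1 : 0 < y.1 := Nat.pos_of_ne_zero (left_ne_zero_of_mul hy)
      have hy2 : 0 < y.2 := Nat.pos_of_ne_zero (right_ne_zero_of_mul hy)
      have h5 : y.1 ≤ M := Nat.le_of_dvd hM ((dvd_mul_right _ _).trans hd)
      have h6 : y.2 ≤ M := Nat.le_of_dvd hM ((dvd_mul_left _ _).trans hd)
      simp only [hT, Finset.mem_filter, Finset.mem_product, Finset.mem_Ico]
      exact ⟨⟨⟨hy1, by omega⟩, hy2, by omega⟩, hd⟩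
    · intro p h
      simp only [hT, Finset.mem_filter, Finset.mem_product, Finset.mem_Ico] at h
      obtain ⟨⟨⟨h1, _⟩, h2, _⟩, h3⟩ := h
      simp only [Finset.mem_sigma, Nat.mem_divisorsAntidiagonal]
      refine ⟨⟨Nat.div_mul_cancel h3, hM.ne'⟩, trivial, ?_⟩
      have : 0 < p.1 * p.2 := Nat.mul_pos h1 h2
      exact this.ne'
    · rintro ⟨x, y⟩ h
      simp only [Finset.mem_sigma, Nat.mem_divisorsAntidiagonal] at h
      obtain ⟨⟨h1, h2⟩, h3, h4⟩ := h
      have h5 : M / (y.1 * y.2) = x.1 := by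
        rw [h3, ← h1]
        exact Nat.mul_div_cancel _ (Nat.pos_of_ne_zero h4)
      have : (M / (y.1 * y.2), y.1 * y.2) = x := by rw [h5, h3]
      simp only [this]
    · intro p _
      rfl
    · rintro ⟨x, y⟩ h
      simp only [Finset.mem_sigma, Nat.mem_divisorsAntidiagonal] at h
      obtain ⟨⟨h1, h2⟩, h3, h4⟩ := h
      have hx : 0 < x.1 := by
        rcases Nat.eq_zero_or_pos x.1 with h0 | h0
        · rw [h0, zero_mul] at h1; exact absurd h1.symm h2
        · exact h0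
      have h5 : M / (y.1 * y.2) = x.1 := by
        rw [h3, ← h1]
        exact Nat.mul_div_cancel _ (Nat.pos_of_ne_zero h4)
      rw [hlam _ hx, h5]
      ring
  have hR : ∑ m ∈ Finset.Ico 1 N, ∑ l ∈ Finset.Ico 1 N,
      (if m * l ∣ M then β m * β l * lam k a (M / (m * l)) else 0) =
      ∑ p ∈ (Finset.Ico 1 N ×ˢ Finset.Ico 1 N).filter (fun p => p.1 * p.2 ∣ M),
        β p.1 * β p.2 * lam k a (M / (p.1 * p.2)) := by
    rw [Finset.sum_filter, Finset.sum_product]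
  rw [hL, hR]
  symm
  refine Finset.sum_subset ?_ ?_
  · intro p h
    simp only [hT, Finset.mem_filter, Finset.mem_product, Finset.mem_Ico] at h ⊢
    obtain ⟨⟨⟨h1, _⟩, h2, _⟩, h3⟩ := h
    have h5 : p.1 ≤ M := Nat.le_of_dvd hM ((dvd_mul_right _ _).trans h3)
    have h6 : p.2 ≤ M := Nat.le_of_dvd hM ((dvd_mul_left _ _).trans h3)
    exact ⟨⟨⟨h1, by omega⟩, h2, by omega⟩, h3⟩
  · intro p h h'
    simp only [hT, Finset.mem_filter, Finset.mem_product, Finset.mem_Ico] at h h'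
    obtain ⟨⟨⟨h1, _⟩, h2, _⟩, h3⟩ := h
    by_cases h4 : N ≤ p.1
    · rw [hβ _ h4]; ring
    by_cases h5 : N ≤ p.2
    · rw [hβ _ h5]; ring
    exact absurd ⟨⟨⟨h1, not_le.1 h4⟩, h2, not_le.1 h5⟩, h3⟩ h'

/-- the coefficients -/
noncomputable def sel_m6_bb (k : ℕ) (a : ℕ → ℝ) (L : ℝ) (Θ : ℝ → ℝ) (M : ℕ) : ℝ :=
  (lamA k a 1 * (beA k a 1 L Θ * beA k a 1 L Θ)) M

theorem sel_m6_be_zero {k : ℕ} {a : ℕ → ℝ} {Θ : ℝ → ℝ} (hΘ' : ∀ x, 1 ≤ x → Θ x = 0) (q : ℕ)
    {L : ℝ} (hL : 0 < L) (n : ℕ) (hn : NL L ≤ n) : beA k a q L Θ n = 0 := by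
  show alA k a q n * Θ (Real.log n / L) = 0
  rw [hΘ', mul_zero]
  rw [le_div_iff₀ hL, one_mul]
  have h1 : Real.exp L ≤ n := Nat.ceil_le.1 hn
  rw [Real.le_log_iff_exp_le (lt_of_lt_of_le (Real.exp_pos L) h1)]
  exact h1

theorem sel_m6_be_coprime {k : ℕ} {a : ℕ → ℝ} {Θ : ℝ → ℝ} {q : ℕ} {L : ℝ} {n : ℕ}
    (hn : n.Coprime q) : beA k a q L Θ n = beA k a 1 L Θ n := by
  show alA k a q n * Θ (Real.log n / L) = alA k a 1 n * Θ (Real.log n / L)
  congr 1
  show (if n = 0 ∨ ¬ n.Coprime q then (0 : ℝ) else _) = if n = 0 ∨ ¬ n.Coprime 1 then (0 : ℝ) else _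
  by_cases h : n = 0
  · rw [if_pos (Or.inl h), if_pos (Or.inl h)]
  · rw [if_neg (by simp [h, hn]), if_neg (by simp [h])]

theorem sel_m6_bb_one {k : ℕ} {a : ℕ → ℝ} (H : HData k a) {L : ℝ} {Θ : ℝ → ℝ} (h0 : Θ 0 = 1) :
    sel_m6_bb k a L Θ 1 = 1 := by
  unfold sel_m6_bb
  rw [ArithmeticFunction.mul_apply_one, ArithmeticFunction.mul_apply_one]
  have h1 : beA k a 1 L Θ 1 = 1 := by
    show alA k a 1 1 * Θ (Real.log (1 : ℕ) / L) = 1
    have : alA k a 1 1 = 1 := by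
      show (if (1 : ℕ) = 0 ∨ ¬ (1 : ℕ).Coprime 1 then (0 : ℝ) else
        (1 : ℕ).factorization.prod fun p i => aloc (lam k a p) i) = 1
      rw [if_neg (by simp), Nat.factorization_one, Finsupp.prod_zero_index]
    rw [this]
    simp [h0]
  have h2 : lamA k a 1 1 = 1 := by
    show (if (1 : ℕ) = 0 ∨ ¬ (1 : ℕ).Coprime 1 then (0 : ℝ) else lam k a 1) = 1
    rw [if_neg (by simp)]
    unfold lam
    simp [H.one]
  rw [h1, h2]
  ring

theorem sel_m6_bb_le {k : ℕ} {a : ℕ → ℝ} (H : HData k a) {L : ℝ} {Θ : ℝ → ℝ}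
    (hΘ : ∀ x, 0 ≤ Θ x ∧ Θ x ≤ 1) {M : ℕ} (hM : 0 < M) :
    |sel_m6_bb k a L Θ M| ≤ (M : ℝ) ^ 4 := by
  have hlam : ∀ n : ℕ, 0 < n → |lamA k a 1 n| ≤ (n : ℝ) ^ 2 := by
    intro n hn
    have : lamA k a 1 n = lam k a n := by
      show (if n = 0 ∨ ¬ n.Coprime 1 then 0 else lam k a n) = _
      rw [if_neg]
      simp [hn.ne']
    rw [this]
    exact (lam_alA_le H 1 n hn).1
  have hbe : ∀ n : ℕ, 0 < n → |beA k a 1 L Θ n| ≤ (n : ℝ) ^ 2 := by
    intro n hn
    show |alA k a 1 n * Θ (Real.log n / L)| ≤ _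
    rw [abs_mul]
    have h1 := (lam_alA_le H 1 n hn).2
    have h2 := hΘ (Real.log n / L)
    have h3 : |Θ (Real.log n / L)| ≤ 1 := by rw [abs_of_nonneg h2.1]; exact h2.2
    calc |alA k a 1 n| * |Θ (Real.log n / L)| ≤ (n : ℝ) ^ 2 * 1 :=
          mul_le_mul h1 h3 (abs_nonneg _) (by positivity)
      _ = _ := mul_one _
  unfold sel_m6_bb
  rw [ArithmeticFunction.mul_apply]
  refine (Finset.abs_sum_le_sum_abs _ _).trans ?_
  have hx : ∀ x ∈ M.divisorsAntidiagonal,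
      |lamA k a 1 x.1 * (beA k a 1 L Θ * beA k a 1 L Θ) x.2| ≤ (M : ℝ) ^ 3 := by
    intro x hx
    rw [Nat.mem_divisorsAntidiagonal] at hx
    have hx1 : 0 < x.1 := Nat.pos_of_ne_zero fun h => by simp [h] at hx; omega
    have hx2 : 0 < x.2 := Nat.pos_of_ne_zero fun h => by simp [h] at hx; omega
    rw [abs_mul, ArithmeticFunction.mul_apply]
    have h2 : |∑ y ∈ x.2.divisorsAntidiagonal, beA k a 1 L Θ y.1 * beA k a 1 L Θ y.2| ≤
        (x.2 : ℝ) * (x.2 : ℝ) ^ 2 := by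
      refine (Finset.abs_sum_le_sum_abs _ _).trans ?_
      have h3 : ∀ y ∈ x.2.divisorsAntidiagonal,
          |beA k a 1 L Θ y.1 * beA k a 1 L Θ y.2| ≤ (x.2 : ℝ) ^ 2 := by
        intro y hy
        rw [Nat.mem_divisorsAntidiagonal] at hy
        have hy1 : 0 < y.1 := Nat.pos_of_ne_zero fun h => by simp [h] at hy; omega
        have hy2 : 0 < y.2 := Nat.pos_of_ne_zero fun h => by simp [h] at hy; omega
        rw [abs_mul]
        calc |beA k a 1 L Θ y.1| * |beA k a 1 L Θ y.2| ≤ (y.1 : ℝ) ^ 2 * (y.2 : ℝ) ^ 2 :=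
              mul_le_mul (hbe _ hy1) (hbe _ hy2) (abs_nonneg _) (by positivity)
          _ = (x.2 : ℝ) ^ 2 := by rw [← mul_pow, ← Nat.cast_mul, hy.1]
      refine (Finset.sum_le_card_nsmul _ _ _ h3).trans ?_
      rw [nsmul_eq_mul, ← Nat.map_div_right_divisors, Finset.card_map]
      apply mul_le_mul_of_nonneg_right _ (by positivity)
      exact_mod_cast Nat.card_divisors_le_self x.2
    calc |lamA k a 1 x.1| * |∑ y ∈ x.2.divisorsAntidiagonal, beA k a 1 L Θ y.1 * beA k a 1 L Θ y.2|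
        ≤ (x.1 : ℝ) ^ 2 * ((x.2 : ℝ) * (x.2 : ℝ) ^ 2) :=
          mul_le_mul (hlam _ hx1) h2 (abs_nonneg _) (by positivity)
      _ ≤ (x.1 : ℝ) ^ 3 * (x.2 : ℝ) ^ 3 := by
          have h4 : (1 : ℝ) ≤ x.1 := by exact_mod_cast hx1
          have h5 : (x.1 : ℝ) ^ 2 ≤ (x.1 : ℝ) ^ 3 := pow_le_pow_right₀ h4 (by norm_num)
          calc (x.1 : ℝ) ^ 2 * ((x.2 : ℝ) * (x.2 : ℝ) ^ 2) = (x.1 : ℝ) ^ 2 * (x.2 : ℝ) ^ 3 := by ring
            _ ≤ _ := mul_le_mul_of_nonneg_right h5 (by positivity)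
      _ = (M : ℝ) ^ 3 := by rw [← mul_pow, ← Nat.cast_mul, hx.1]
  refine (Finset.sum_le_card_nsmul _ _ _ hx).trans ?_
  rw [nsmul_eq_mul, ← Nat.map_div_right_divisors, Finset.card_map]
  calc ((M.divisors.card : ℕ) : ℝ) * (M : ℝ) ^ 3 ≤ (M : ℝ) * (M : ℝ) ^ 3 := by
        apply mul_le_mul_of_nonneg_right _ (by positivity)
        exact_mod_cast Nat.card_divisors_le_self M
    _ = _ := by ring


/-- the profile `e^{kv/2} e^{-2π M e^v}` -/
noncomputable def sel_m6_G (k M : ℕ) (v : ℝ) : ℝ :=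
  Real.exp (k * v / 2) * Real.exp (-2 * Real.pi * M * Real.exp v)

theorem sel_m6_G_pos (k M : ℕ) (v : ℝ) : 0 < sel_m6_G k M v := by
  unfold sel_m6_G; positivity

theorem sel_m6_G_cont (k M : ℕ) : Continuous (sel_m6_G k M) := by
  unfold sel_m6_G; fun_prop

/-- the factor of `χ(M)` -/
noncomputable def sel_m6_Φ (k : ℕ) {q : ℕ} (χ : DirichletCharacter ℂ q) (v : ℝ) (M : ℕ) : ℂ :=
  χ M * ((2 * (M : ℝ) ^ (((k : ℝ) - 1) / 2) * sel_m6_G k M v : ℝ) : ℂ)

theorem sel_m6_lam_zero {k : ℕ} {a : ℕ → ℝ} (H : HData k a) : lam k a 0 = 0 := by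
  unfold lam; rw [H.zero, zero_mul]

theorem sel_m6_Φ_summable {k : ℕ} {a : ℕ → ℝ} (H : HData k a) {q : ℕ}
    (χ : DirichletCharacter ℂ q) (v : ℝ) {c : ℕ} (hc : 0 < c) :
    Summable fun n : ℕ => sel_m6_Φ k χ v (n * c) * ((lam k a n : ℝ) : ℂ) := by
  have hg : (0 : ℝ) < 2 * Real.pi * c * Real.exp v := by positivity
  have h1 := Real.summable_pow_mul_exp_neg_nat_mul (k + 2) hg
  refine Summable.of_norm_bounded
    (h1.mul_left (2 * Real.exp (k * v / 2) * (c : ℝ) ^ k)) fun n => ?_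
  rcases Nat.eq_zero_or_pos n with hn | hn
  · subst hn
    rw [sel_m6_lam_zero H]
    simp
  · unfold sel_m6_Φ sel_m6_G
    rw [norm_mul, norm_mul, Complex.norm_real, Complex.norm_real, Real.norm_eq_abs,
      Real.norm_eq_abs]
    have h2 : ‖χ ((n * c : ℕ) : ZMod q)‖ ≤ 1 := DirichletCharacter.norm_le_one χ _
    have h3 := (lam_alA_le H 1 n hn).1
    have hnc : (1 : ℝ) ≤ ((n * c : ℕ) : ℝ) := by exact_mod_cast Nat.mul_pos hn hc
    have h4 : (((n * c : ℕ) : ℝ)) ^ (((k : ℝ) - 1) / 2) ≤ ((n * c : ℕ) : ℝ) ^ k := by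
      rw [← Real.rpow_natCast]
      apply Real.rpow_le_rpow_of_exponent_le hnc
      have : (0 : ℝ) ≤ k := Nat.cast_nonneg k
      linarith
    have h5 : Real.exp (-2 * Real.pi * ((n * c : ℕ) : ℝ) * Real.exp v) =
        Real.exp (-(2 * Real.pi * c * Real.exp v) * n) := by
      congr 1; push_cast; ring
    rw [abs_of_nonneg (by positivity), h5]
    calc ‖χ ((n * c : ℕ) : ZMod q)‖ * (2 * ((n * c : ℕ) : ℝ) ^ (((k : ℝ) - 1) / 2) *
          (Real.exp (k * v / 2) * Real.exp (-(2 * Real.pi * c * Real.exp v) * n))) * |lam k a n|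
        ≤ 1 * (2 * ((n * c : ℕ) : ℝ) ^ k *
          (Real.exp (k * v / 2) * Real.exp (-(2 * Real.pi * c * Real.exp v) * n))) *
            (n : ℝ) ^ 2 := by gcongr
      _ = _ := by push_cast; ring

/-- rearrangement of `Dd` -/
theorem sel_m6_Dd {k : ℕ} {a : ℕ → ℝ} (H : HData k a) {Θ : ℝ → ℝ}
    (hΘ' : ∀ x, 1 ≤ x → Θ x = 0) {q : ℕ} (χ : DirichletCharacter ℂ q) {L : ℝ} (hL : 0 < L)
    (v : ℝ) : HasSum (fun M : ℕ => if M = 0 then 0 else
      sel_m6_Φ k χ v M * ((sel_m6_bb k a L Θ M : ℝ) : ℂ))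
      (Dd k a (beA k a q L Θ) (NL L) χ v) := by
  set N := NL L with hN
  -- one pair
  have hpair : ∀ m ∈ Finset.Ico 1 N, ∀ l ∈ Finset.Ico 1 N,
      HasSum (fun M : ℕ => if M = 0 then 0 else sel_m6_Φ k χ v M *
        (((if m * l ∣ M then beA k a q L Θ m * beA k a q L Θ l * lam k a (M / (m * l)) else 0 : ℝ))
          : ℂ))
        (((beA k a q L Θ m * beA k a q L Θ l / (√m * √l) : ℝ) : ℂ) * (χ m * χ l) *
          dn k a χ (v + (Real.log m + Real.log l))) := by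
    intro m hm l hl
    rw [Finset.mem_Ico] at hm hl
    have hm0 : (0 : ℝ) < m := by exact_mod_cast hm.1
    have hl0 : (0 : ℝ) < l := by exact_mod_cast hl.1
    have hc : 0 < m * l := Nat.mul_pos hm.1 hl.1
    have hs := sel_m6_Φ_summable H χ v hc
    have hinj : Function.Injective fun n : ℕ => n * (m * l) :=
      fun x y h => Nat.eq_of_mul_eq_mul_right hc h
    have hzero : ∀ M ∉ Set.range (fun n : ℕ => n * (m * l)), (if M = 0 then 0 else
        sel_m6_Φ k χ v M * (((if m * l ∣ M then beA k a q L Θ m * beA k a q L Θ l *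
          lam k a (M / (m * l)) else 0 : ℝ)) : ℂ)) = 0 := by
      intro M hM
      have : ¬ m * l ∣ M := by
        rintro ⟨d, rfl⟩
        exact hM ⟨d, by simp only; ring⟩
      simp [this]
    rw [← hinj.hasSum_iff hzero]
    have hterm : ((fun M : ℕ => if M = 0 then 0 else sel_m6_Φ k χ v M *
        (((if m * l ∣ M then beA k a q L Θ m * beA k a q L Θ l * lam k a (M / (m * l)) else 0 : ℝ))
          : ℂ)) ∘ fun n : ℕ => n * (m * l)) = fun n : ℕ =>
        ((beA k a q L Θ m * beA k a q L Θ l : ℝ) : ℂ) *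
          (sel_m6_Φ k χ v (n * (m * l)) * ((lam k a n : ℝ) : ℂ)) := by
      funext n
      simp only [Function.comp_apply]
      rcases Nat.eq_zero_or_pos n with hn | hn
      · subst hn
        rw [sel_m6_lam_zero H]
        simp
      · rw [if_neg (Nat.mul_pos hn hc).ne', if_pos (dvd_mul_left _ _), Nat.mul_div_cancel _ hc]
        push_cast
        ring
    rw [hterm]
    have hval : ((beA k a q L Θ m * beA k a q L Θ l / (√m * √l) : ℝ) : ℂ) * (χ m * χ l) *
          dn k a χ (v + (Real.log m + Real.log l)) =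
        ((beA k a q L Θ m * beA k a q L Θ l : ℝ) : ℂ) *
          ∑' n : ℕ, sel_m6_Φ k χ v (n * (m * l)) * ((lam k a n : ℝ) : ℂ) := by
      unfold dn
      rw [div_eq_mul_inv, Complex.ofReal_mul, mul_assoc, mul_assoc]
      congr 1
      rw [← mul_assoc, ← mul_assoc, ← tsum_mul_left]
      refine tsum_congr fun n => ?_
      rcases Nat.eq_zero_or_pos n with hn | hn
      · subst hn
        rw [sel_m6_lam_zero H, H.zero]
        simp
      · have hn0 : (0 : ℝ) < n := by exact_mod_cast hn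
        unfold sel_m6_Φ sel_m6_G lam
        have e1 : χ ((n * (m * l) : ℕ) : ZMod q) = χ n * (χ m * χ l) := by
          push_cast
          rw [map_mul, map_mul]
        have e2 : Real.exp (v + (Real.log m + Real.log l)) = m * l * Real.exp v := by
          rw [Real.exp_add, Real.exp_add, Real.exp_log hm0, Real.exp_log hl0]; ring
        have e3 : Real.exp (k * (v + (Real.log m + Real.log l)) / 2) =
            Real.exp (k * v / 2) * ((m : ℝ) * l) ^ ((k : ℝ) / 2) := by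
          rw [Real.rpow_def_of_pos (mul_pos hm0 hl0), Real.log_mul hm0.ne' hl0.ne', ← Real.exp_add]
          congr 1; ring
        have e4 : (√m * √l)⁻¹ = ((m : ℝ) * l) ^ (-(1 / 2) : ℝ) := by
          rw [Real.rpow_neg (mul_pos hm0 hl0).le, ← Real.sqrt_eq_rpow, Real.sqrt_mul hm0.le]
        have e5 : (((n * (m * l) : ℕ) : ℝ)) ^ (((k : ℝ) - 1) / 2) =
            (n : ℝ) ^ (((k : ℝ) - 1) / 2) * (((m : ℝ) * l) ^ ((k : ℝ) / 2) *
              ((m : ℝ) * l) ^ (-(1 / 2) : ℝ)) := by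
          rw [← Real.rpow_add (mul_pos hm0 hl0)]
          push_cast
          rw [Real.mul_rpow hn0.le (mul_pos hm0 hl0).le]
          congr 2; ring
        have e6 : (n : ℝ) ^ (((k : ℝ) - 1) / 2) * (n : ℝ) ^ (-(((k : ℝ) - 1) / 2)) = 1 := by
          rw [← Real.rpow_add hn0]; simp
        have e7 : Real.exp (-2 * Real.pi * ((n * (m * l) : ℕ) : ℝ) * Real.exp v) =
            Real.exp (-2 * Real.pi * n * (m * l * Real.exp v)) := by
          congr 1; push_cast; ring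
        rw [e1, e2, e3, e4, e5, e7]
        have e8 : (2 : ℝ) * ((n : ℝ) ^ (((k : ℝ) - 1) / 2) * (((m : ℝ) * l) ^ ((k : ℝ) / 2) *
              ((m : ℝ) * l) ^ (-(1 / 2) : ℝ))) * (Real.exp (k * v / 2) *
              Real.exp (-2 * Real.pi * n * (m * l * Real.exp v))) *
              (a n * (n : ℝ) ^ (-(((k : ℝ) - 1) / 2))) =
            ((m : ℝ) * l) ^ (-(1 / 2) : ℝ) * (2 * (Real.exp (k * v / 2) *
              ((m : ℝ) * l) ^ ((k : ℝ) / 2))) *
              (a n * Real.exp (-2 * Real.pi * n * (m * l * Real.exp v))) := by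
          calc _ = ((n : ℝ) ^ (((k : ℝ) - 1) / 2) * (n : ℝ) ^ (-(((k : ℝ) - 1) / 2))) *
                (((m : ℝ) * l) ^ (-(1 / 2) : ℝ) * (2 * (Real.exp (k * v / 2) *
              ((m : ℝ) * l) ^ ((k : ℝ) / 2))) *
              (a n * Real.exp (-2 * Real.pi * n * (m * l * Real.exp v)))) := by ring
            _ = _ := by rw [e6, one_mul]
        have e9 := congrArg (fun t : ℝ => (t : ℂ)) e8
        push_cast at e9 ⊢
        linear_combination (-(χ n * (χ m * χ l))) * e9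
    rw [hval]
    exact (hs.hasSum.mul_left _)
  have hall := hasSum_sum fun m hm => hasSum_sum fun l hl => hpair m hm l hl
  have hDd : Dd k a (beA k a q L Θ) (NL L) χ v = ∑ m ∈ Finset.Ico 1 N, ∑ l ∈ Finset.Ico 1 N,
      ((beA k a q L Θ m * beA k a q L Θ l / (√m * √l) : ℝ) : ℂ) * (χ m * χ l) *
          dn k a χ (v + (Real.log m + Real.log l)) := rfl
  rw [hDd]
  refine hall.congr_fun ?_
  intro M
  by_cases hM : M = 0
  · simp [hM]
  have hM' : 0 < M := Nat.pos_of_ne_zero hM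
  simp only [if_neg hM]
  by_cases hq : M.Coprime q
  · rw [sel_m6_bb, sel_m6_conv k a _ N (fun n hn => sel_m6_be_zero hΘ' 1 hL n hn) hM']
    push_cast
    rw [Finset.mul_sum]
    refine Finset.sum_congr rfl fun m _ => ?_
    rw [Finset.mul_sum]
    refine Finset.sum_congr rfl fun l _ => ?_
    congr 1
    by_cases hd : m * l ∣ M
    · rw [if_pos hd, if_pos hd]
      have h1 : m.Coprime q := Nat.Coprime.coprime_dvd_left ((dvd_mul_right _ _).trans hd) hq
      have h2 : l.Coprime q := Nat.Coprime.coprime_dvd_left ((dvd_mul_left _ _).trans hd) hq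
      rw [sel_m6_be_coprime h1, sel_m6_be_coprime h2]
    · rw [if_neg hd, if_neg hd]
  · have h0 : χ (M : ZMod q) = 0 := by
      apply MulChar.map_nonunit
      rw [ZMod.isUnit_iff_coprime]
      exact hq
    simp [sel_m6_Φ, h0]


/-- the coefficient of `χ(M)`, `M ≥ 2` -/
noncomputable def sel_m6_c (k : ℕ) (a : ℕ → ℝ) (L : ℝ) (Θ : ℝ → ℝ) (M : ℕ) : ℝ :=
  if 2 ≤ M then 2 * (M : ℝ) ^ (((k : ℝ) - 1) / 2) * sel_m6_bb k a L Θ M else 0

theorem sel_m6_sub {k : ℕ} {a : ℕ → ℝ} (H : HData k a) {Θ : ℝ → ℝ} (h0 : Θ 0 = 1)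
    (hΘ' : ∀ x, 1 ≤ x → Θ x = 0) {q : ℕ} (χ : DirichletCharacter ℂ q) {L : ℝ} (hL : 0 < L)
    (v : ℝ) : HasSum (fun M : ℕ => χ M * ((sel_m6_c k a L Θ M * sel_m6_G k M v : ℝ) : ℂ))
      (Dd k a (beA k a q L Θ) (NL L) χ v - gd k v) := by
  have h1 := (sel_m6_Dd H hΘ' χ hL v).sub (hasSum_ite_eq 1 (gd k v))
  refine h1.congr_fun ?_
  intro M
  by_cases hM0 : M = 0
  · subst hM0
    simp [sel_m6_c]
  by_cases hM1 : M = 1
  · subst hM1
    rw [if_neg one_ne_zero, if_pos rfl, sel_m6_bb_one H h0]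
    unfold sel_m6_c sel_m6_Φ gd sel_m6_G
    rw [if_neg (by norm_num)]
    simp only [zero_mul, Complex.ofReal_zero, mul_zero, Nat.cast_one, Real.one_rpow, mul_one,
      map_one, one_mul, Complex.ofReal_one]
    rw [mul_assoc 2 (Real.exp _), sub_self]
  · have hM2 : 2 ≤ M := by omega
    rw [if_neg hM0, if_neg hM1, sub_zero]
    unfold sel_m6_c sel_m6_Φ
    rw [if_pos hM2]
    push_cast
    ring

theorem sel_m6_bound {k : ℕ} {a : ℕ → ℝ} (H : HData k a) {Θ : ℝ → ℝ}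
    (hΘ : ∀ x, 0 ≤ Θ x ∧ Θ x ≤ 1) {q : ℕ} (hq : 2 ≤ q) {L : ℝ} (hL : L ≤ Real.log q / 2)
    {M : ℕ} (hM : q ≤ M) {v : ℝ} (hv : -(L / 2) ≤ v) :
    |sel_m6_c k a L Θ M| * sel_m6_G k M v ≤ 2 * (k + 12).factorial / (M : ℝ) ^ 5 := by
  have hM0 : (0 : ℝ) < M := by
    have : 0 < M := by omega
    exact_mod_cast this
  have hM1 : (1 : ℝ) ≤ M := by
    have : 1 ≤ M := by omega
    exact_mod_cast this
  have hq0 : (0 : ℝ) < q := by
    have : 0 < q := by omega
    exact_mod_cast this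
  set x : ℝ := M * Real.exp v with hx
  have hx0 : 0 < x := by positivity
  have hx4 : (M : ℝ) ^ 3 ≤ x ^ 4 := by
    have h1 : Real.exp (-Real.log q) ≤ Real.exp (4 * v) := by
      apply Real.exp_le_exp.2; linarith
    rw [Real.exp_neg, Real.exp_log hq0] at h1
    have h2 : (M : ℝ)⁻¹ ≤ (q : ℝ)⁻¹ := by
      apply inv_anti₀ hq0
      exact_mod_cast hM
    have h3 : x ^ 4 = (M : ℝ) ^ 4 * Real.exp (4 * v) := by
      rw [hx, mul_pow, ← Real.exp_nat_mul]; norm_num
    rw [h3]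
    calc (M : ℝ) ^ 3 = (M : ℝ) ^ 4 * (M : ℝ)⁻¹ := by field_simp
      _ ≤ (M : ℝ) ^ 4 * Real.exp (4 * v) :=
          mul_le_mul_of_nonneg_left (h2.trans h1) (by positivity)
  have hx1 : 1 ≤ x := by
    by_contra hc
    push Not at hc
    have : x ^ 4 < 1 := pow_lt_one₀ hx0.le hc (by norm_num)
    have : (1 : ℝ) ≤ (M : ℝ) ^ 3 := one_le_pow₀ hM1
    linarith
  have hx12 : (M : ℝ) ^ 9 ≤ x ^ 12 := by
    calc (M : ℝ) ^ 9 = ((M : ℝ) ^ 3) ^ 3 := by ring
      _ ≤ (x ^ 4) ^ 3 := pow_le_pow_left₀ (by positivity) hx4 3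
      _ = x ^ 12 := by ring
  have hexp : Real.exp (-2 * Real.pi * M * Real.exp v) ≤ (k + 12).factorial / x ^ (k + 12) := by
    have h1 := Real.pow_div_factorial_le_exp x hx0.le (k + 12)
    have h2 : Real.exp (-2 * Real.pi * M * Real.exp v) ≤ Real.exp (-x) := by
      apply Real.exp_le_exp.2
      have : -2 * Real.pi * M * Real.exp v = -(2 * Real.pi) * x := by rw [hx]; ring
      rw [this]
      nlinarith [Real.pi_gt_three]
    refine h2.trans ?_
    rw [Real.exp_neg, inv_eq_one_div, div_le_div_iff₀ (Real.exp_pos x) (by positivity), one_mul]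
    have hf : (0 : ℝ) < (k + 12).factorial := by exact_mod_cast Nat.factorial_pos _
    rw [div_le_iff₀ hf] at h1
    linarith
  have hpow : (M : ℝ) ^ (((k : ℝ) - 1) / 2) * Real.exp (k * v / 2) ≤ x ^ k := by
    have h1 : (M : ℝ) ^ (((k : ℝ) - 1) / 2) ≤ (M : ℝ) ^ ((k : ℝ) / 2) :=
      Real.rpow_le_rpow_of_exponent_le hM1 (by linarith)
    have h2 : (M : ℝ) ^ ((k : ℝ) / 2) * Real.exp (k * v / 2) = x ^ ((k : ℝ) / 2) := by
      rw [hx, Real.mul_rpow hM0.le (Real.exp_pos v).le, ← Real.exp_mul]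
      congr 2; ring
    calc _ ≤ (M : ℝ) ^ ((k : ℝ) / 2) * Real.exp (k * v / 2) :=
          mul_le_mul_of_nonneg_right h1 (Real.exp_pos _).le
      _ = x ^ ((k : ℝ) / 2) := h2
      _ ≤ x ^ (k : ℝ) := by
          apply Real.rpow_le_rpow_of_exponent_le hx1
          have : (0 : ℝ) ≤ k := Nat.cast_nonneg k
          linarith
      _ = x ^ k := Real.rpow_natCast x k
  have hbb := sel_m6_bb_le H (L := L) hΘ (show 0 < M by omega)
  unfold sel_m6_c sel_m6_G
  rw [if_pos (by omega), abs_mul, abs_of_nonneg (by positivity : 0 ≤ 2 * (M : ℝ) ^ (((k : ℝ) - 1) / 2))]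
  calc 2 * (M : ℝ) ^ (((k : ℝ) - 1) / 2) * |sel_m6_bb k a L Θ M| *
        (Real.exp (k * v / 2) * Real.exp (-2 * Real.pi * M * Real.exp v))
      = 2 * |sel_m6_bb k a L Θ M| * ((M : ℝ) ^ (((k : ℝ) - 1) / 2) * Real.exp (k * v / 2)) *
        Real.exp (-2 * Real.pi * M * Real.exp v) := by ring
    _ ≤ 2 * (M : ℝ) ^ 4 * x ^ k * ((k + 12).factorial / x ^ (k + 12)) := by gcongr
    _ = 2 * (M : ℝ) ^ 4 * (k + 12).factorial / x ^ 12 := by
        rw [pow_add]
        field_simp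
    _ ≤ 2 * (M : ℝ) ^ 4 * (k + 12).factorial / (M : ℝ) ^ 9 := by gcongr
    _ = 2 * (k + 12).factorial / (M : ℝ) ^ 5 := by
        field_simp

/-- orthogonality on an interval of length `q` -/
theorem sel_m6_orth {q : ℕ} [NeZero q] (y : ℕ → ℂ) :
    ∑ χ : DirichletCharacter ℂ q, ‖∑ M ∈ Finset.Ico 2 (q + 2), χ M * y M‖ ^ 2 ≤
      q.totient * ∑ M ∈ Finset.Ico 2 (q + 2), ‖y M‖ ^ 2 := by
  have hbij : ∀ {β : Type} [AddCommMonoid β] (f : ℕ → β),
      ∑ M ∈ Finset.Ico 2 (q + 2), f M = ∑ r : ZMod q, f (2 + (r - 2).val) := by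
    intro β _ f
    refine Finset.sum_nbij' (fun M : ℕ => (M : ZMod q)) (fun r => 2 + (r - 2).val) ?_ ?_ ?_ ?_ ?_
    · intro M _; exact Finset.mem_univ _
    · intro r _
      have := ZMod.val_lt (r - 2)
      exact Finset.mem_Ico.2 ⟨by omega, by omega⟩
    · intro M hM
      rw [Finset.mem_Ico] at hM
      obtain ⟨d, rfl⟩ : ∃ d, M = 2 + d := ⟨M - 2, by omega⟩
      have h1 : (((2 + d : ℕ) : ZMod q) - 2) = (d : ZMod q) := by push_cast; ring
      rw [h1, ZMod.val_cast_of_lt (by omega)]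
    · intro r _
      push_cast
      rw [ZMod.natCast_zmod_val]
      ring
    · intro M hM
      rw [Finset.mem_Ico] at hM
      obtain ⟨d, rfl⟩ : ∃ d, M = 2 + d := ⟨M - 2, by omega⟩
      have h1 : (((2 + d : ℕ) : ZMod q) - 2) = (d : ZMod q) := by push_cast; ring
      rw [h1, ZMod.val_cast_of_lt (by omega)]
  rw [hbij (fun M => ‖y M‖ ^ 2)]
  refine le_trans (le_of_eq ?_) (msb_parseval fun r : ZMod q => y (2 + (r - 2).val))
  refine Finset.sum_congr rfl fun χ _ => ?_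
  rw [hbij (fun M => χ M * y M)]
  congr 2
  refine Finset.sum_congr rfl fun r _ => ?_
  congr 2
  push_cast
  rw [ZMod.natCast_zmod_val]
  ring

theorem sel_m6_card {q : ℕ} [NeZero q] :
    (Fintype.card (DirichletCharacter ℂ q) : ℝ) = q.totient := by
  have h := msb_orth (q := q) 1 1
  simp only [map_one, mul_one, Finset.sum_const, Finset.card_univ, isUnit_one, and_self,
    if_true, nsmul_eq_mul] at h
  exact_mod_cast h


/-- the kernel identity -/
theorem sel_m6_kernel {k : ℕ} {a : ℕ → ℝ} {Θ : ℝ → ℝ} {L : ℝ} {M : ℕ} (hM : 2 ≤ M) (v v' : ℝ) :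
    (sel_m6_c k a L Θ M) ^ 2 * (sel_m6_G k M v * sel_m6_G k M v') =
      (1 / Real.cosh ((v - v') / 2)) ^ k * (4 * ((sel_m6_bb k a L Θ M) ^ 2 / M *
        ((M * ((Real.exp v + Real.exp v') / 2)) ^ k *
          Real.exp (-4 * Real.pi * (M * ((Real.exp v + Real.exp v') / 2)))))) := by
  have hM0 : (0 : ℝ) < M := by
    have : 0 < M := by omega
    exact_mod_cast this
  set Y : ℝ := (Real.exp v + Real.exp v') / 2 with hY
  have hcosh : Y = Real.exp ((v + v') / 2) * Real.cosh ((v - v') / 2) := by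
    rw [Real.cosh_eq, hY, mul_div_assoc', mul_add, ← Real.exp_add, ← Real.exp_add]
    congr 3 <;> ring
  have hc := Real.cosh_pos ((v - v') / 2)
  have h1 : Real.exp (k * v / 2) * Real.exp (k * v' / 2) = (1 / Real.cosh ((v - v') / 2)) ^ k *
      Y ^ k := by
    rw [hcosh, mul_pow, ← mul_assoc, mul_right_comm, ← mul_pow, one_div_mul_cancel hc.ne', one_pow,
      one_mul, ← Real.exp_add, ← Real.exp_nat_mul]
    congr 1; ring
  have h2 : Real.exp (-2 * Real.pi * M * Real.exp v) * Real.exp (-2 * Real.pi * M * Real.exp v') =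
      Real.exp (-4 * Real.pi * (M * Y)) := by
    rw [← Real.exp_add, hY]; congr 1; ring
  have h3 : ((M : ℝ) ^ (((k : ℝ) - 1) / 2)) ^ 2 = (M : ℝ) ^ k / M := by
    rw [← Real.rpow_natCast, ← Real.rpow_mul hM0.le]
    have : ((k : ℝ) - 1) / 2 * (2 : ℕ) = k - 1 := by push_cast; ring
    rw [this, Real.rpow_sub hM0, Real.rpow_natCast, Real.rpow_one]
  unfold sel_m6_c sel_m6_G
  rw [if_pos hM]
  calc (2 * (M : ℝ) ^ (((k : ℝ) - 1) / 2) * sel_m6_bb k a L Θ M) ^ 2 *
        (Real.exp (k * v / 2) * Real.exp (-2 * Real.pi * M * Real.exp v) *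
          (Real.exp (k * v' / 2) * Real.exp (-2 * Real.pi * M * Real.exp v')))
      = 4 * ((M : ℝ) ^ (((k : ℝ) - 1) / 2)) ^ 2 * sel_m6_bb k a L Θ M ^ 2 *
        (Real.exp (k * v / 2) * Real.exp (k * v' / 2)) *
        (Real.exp (-2 * Real.pi * M * Real.exp v) * Real.exp (-2 * Real.pi * M * Real.exp v')) := by
          ring
    _ = _ := by
        rw [h1, h2, h3, mul_pow]
        ring

/-- block M6 (SDD) -/
theorem s_two_pr {k : ℕ} {a : ℕ → ℝ} (H : HData k a) {Θ : ℝ → ℝ} (h : Adm Θ) (h0 : Θ 0 = 1)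
    (hΘ : ∀ x, 0 ≤ Θ x ∧ Θ x ≤ 1) (hΘ' : ∀ x, 1 ≤ x → Θ x = 0) :
    ∃ C : ℝ, 0 < C ∧ ∀ (q : ℕ) [NeZero q] (L : ℝ), 2 ≤ q → 2 ≤ L → L ≤ Real.log q / 2 →
      ∀ W : ℝ → ℂ, Measurable W → (∃ B, ∀ v, ‖W v‖ ≤ B) →
      (∀ v, 1 / 2 * L < |v| → W v = 0) →
      ∑ χ : DirichletCharacter ℂ q, ‖∫ v, (Dd k a (beA k a q L Θ) (NL L) χ v - gd k v) * W v‖ ^ 2 ≤
        C * q.totient / L * ∫ v, ‖W v‖ ^ 2 := by
  obtain ⟨C₁, hC₁, he⟩ := e_one H h hΘ
  set A : ℝ := 2 * (k + 12).factorial with hA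
  have hA0 : 0 < A := by
    have : (0 : ℝ) < (k + 12).factorial := by exact_mod_cast Nat.factorial_pos _
    positivity
  have hZs : Summable fun n : ℕ => 1 / ((n : ℝ) + 1) ^ 2 := by
    have := (summable_nat_add_iff 1).2 (Real.summable_one_div_nat_pow.2 (le_refl 2 |>.trans_lt' one_lt_two))
    refine this.congr fun n => ?_
    push_cast; ring
  set Z : ℝ := ∑' n : ℕ, 1 / ((n : ℝ) + 1) ^ 2 with hZ
  have hZ0 : 0 ≤ Z := tsum_nonneg fun n => by positivity
  refine ⟨2 * (2 * Real.pi * (4 * C₁)) + 2 * (A * Z) ^ 2 + 1, by positivity, ?_⟩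
  intro q _ L hq hL2 hLq W hW hWb hWs
  have hL0 : 0 < L := by linarith
  have hq0 : (0 : ℝ) < q := by
    have : 0 < q := by omega
    exact_mod_cast this
  have hφ : (0 : ℝ) ≤ q.totient := Nat.cast_nonneg _
  -- integrability
  have hWs' : ∀ v, W v ≠ 0 → -(L / 2) ≤ v ∧ v ≤ L / 2 := by
    intro v hv
    have : |v| ≤ L / 2 := by
      by_contra hc
      push Not at hc
      exact hv (hWs v (by linarith))
    exact abs_le.1 this
  have hWi2 : Integrable fun v => ‖W v‖ ^ 2 :=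
    sel_m3_W hW hWb ⟨1 / 2 * L, hWs⟩
  have hGW : ∀ g : ℝ → ℝ, Continuous g → Integrable fun v => g v * ‖W v‖ := by
    intro g hg
    obtain ⟨B, hB⟩ := hWb
    obtain ⟨B', hB'⟩ := (isCompact_Icc : IsCompact (Set.Icc (-(L / 2)) (L / 2))).exists_bound_of_continuousOn
      hg.continuousOn
    have hm : Measurable fun v => g v * ‖W v‖ := hg.measurable.mul hW.norm
    have h1 : IntegrableOn (fun v => g v * ‖W v‖) (Set.Icc (-(L / 2)) (L / 2)) := by
      refine Measure.integrableOn_of_bounded (M := |B'| * |B|) ?_ hm.aestronglyMeasurable ?_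
      · rw [Real.volume_Icc]; exact ENNReal.ofReal_ne_top
      · rw [ae_restrict_iff' measurableSet_Icc]
        refine Filter.Eventually.of_forall fun v hv => ?_
        rw [norm_mul, norm_norm]
        exact mul_le_mul ((hB' v hv).trans (le_abs_self _)) ((hB v).trans (le_abs_self _))
          (norm_nonneg _) (abs_nonneg _)
    rwa [integrableOn_iff_integrable_of_support_subset] at h1
    intro v hv
    have : W v ≠ 0 := fun h => hv (by simp [h])
    exact hWs' v this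
  have hWi1 : Integrable fun v => ‖W v‖ := by
    simpa using hGW (fun _ => 1) continuous_const
  set w₁ := ∫ v, ‖W v‖ with hw₁
  set w₂ := ∫ v, ‖W v‖ ^ 2 with hw₂
  have hw₁0 : 0 ≤ w₁ := integral_nonneg fun v => norm_nonneg _
  have hw₂0 : 0 ≤ w₂ := integral_nonneg fun v => by positivity
  have hcs : w₁ ^ 2 ≤ L * w₂ := by
    set t : ℝ := w₁ / L with ht
    have h1 : 0 ≤ ∫ v in Set.Icc (-(L / 2)) (L / 2), (‖W v‖ - t) ^ 2 :=
      integral_nonneg fun v => sq_nonneg _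
    have e1 : ∫ v in Set.Icc (-(L / 2)) (L / 2), ‖W v‖ = w₁ :=
      setIntegral_eq_integral_of_forall_compl_eq_zero fun v hv => by
        by_contra hc
        exact hv (hWs' v (fun h => hc (by simp [h])))
    have e2 : ∫ v in Set.Icc (-(L / 2)) (L / 2), ‖W v‖ ^ 2 = w₂ :=
      setIntegral_eq_integral_of_forall_compl_eq_zero fun v hv => by
        by_contra hc
        exact hv (hWs' v (fun h => hc (by simp [h])))
    have e3 : ∫ v in Set.Icc (-(L / 2)) (L / 2), (‖W v‖ - t) ^ 2 = w₂ - 2 * t * w₁ + L * t ^ 2 := by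
      have : ∀ v, (‖W v‖ - t) ^ 2 = (‖W v‖ ^ 2 - 2 * t * ‖W v‖) + t ^ 2 := fun v => by ring
      have i1 : IntegrableOn (fun v => ‖W v‖ ^ 2 - 2 * t * ‖W v‖) (Set.Icc (-(L / 2)) (L / 2)) :=
        (hWi2.integrableOn).sub (hWi1.integrableOn.const_mul _)
      simp_rw [this]
      rw [integral_add i1 (integrable_const _),
        integral_sub hWi2.integrableOn (hWi1.integrableOn.const_mul _), integral_const_mul, e1, e2]
      simp only [integral_const, MeasurableSet.univ, measureReal_restrict_apply, Set.univ_inter,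
        smul_eq_mul]
      rw [Real.volume_real_Icc_of_le (by linarith)]
      ring
    rw [e3, ht] at h1
    have h2 : w₂ - 2 * (w₁ / L) * w₁ + L * (w₁ / L) ^ 2 = w₂ - w₁ ^ 2 / L := by
      field_simp; ring
    rw [h2] at h1
    have h3 : w₁ ^ 2 / L ≤ w₂ := by linarith
    rw [div_le_iff₀ hL0] at h3
    linarith
  -- the coefficients
  set J : ℕ → ℝ := fun M => ∫ v, sel_m6_G k M v * ‖W v‖ with hJ
  have hJi : ∀ M, Integrable fun v => sel_m6_G k M v * ‖W v‖ :=
    fun M => hGW _ (sel_m6_G_cont k M)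
  set u : ℕ → ℝ := fun M => |sel_m6_c k a L Θ M| * J M with hu
  have hu0 : ∀ M, 0 ≤ u M := fun M => mul_nonneg (abs_nonneg _)
    (integral_nonneg fun v => mul_nonneg (sel_m6_G_pos k M v).le (norm_nonneg _))
  have hule : ∀ M, q ≤ M → u M ≤ A / (M : ℝ) ^ 5 * w₁ := by
    intro M hM
    simp only [hu, hJ]
    rw [← integral_const_mul, hw₁, ← integral_const_mul]
    refine integral_mono ((hJi M).const_mul _) (hWi1.const_mul _) fun v => ?_
    simp only
    by_cases hv : W v = 0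
    · simp [hv]
    · rw [← mul_assoc]
      exact mul_le_mul_of_nonneg_right (sel_m6_bound H hΘ hq hLq hM (hWs' v hv).1) (norm_nonneg _)
  set y : ℕ → ℂ := fun M => (sel_m6_c k a L Θ M : ℂ) * ∫ v, (sel_m6_G k M v : ℂ) * W v with hy
  have hyu : ∀ M, ‖y M‖ ≤ u M := by
    intro M
    simp only [hy, hu, hJ]
    rw [norm_mul, Complex.norm_real, Real.norm_eq_abs]
    apply mul_le_mul_of_nonneg_left _ (abs_nonneg _)
    refine (norm_integral_le_integral_norm _).trans (le_of_eq ?_)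
    refine integral_congr_ae (Filter.Eventually.of_forall fun v => ?_)
    simp only
    rw [norm_mul, Complex.norm_real, Real.norm_eq_abs, abs_of_pos (sel_m6_G_pos k M v)]
  -- tail
  have htail : ∀ n : ℕ, u (n + (q + 2)) ≤ A * w₁ / (q : ℝ) ^ 3 * (1 / ((n : ℝ) + 1) ^ 2) := by
    intro n
    refine (hule _ (by omega)).trans ?_
    have h1 : (q : ℝ) ^ 3 * ((n : ℝ) + 1) ^ 2 ≤ ((n + (q + 2) : ℕ) : ℝ) ^ 5 := by
      push_cast
      have hn0 : (0 : ℝ) ≤ n := Nat.cast_nonneg n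
      calc (q : ℝ) ^ 3 * ((n : ℝ) + 1) ^ 2 ≤ (n + (q + 2) : ℝ) ^ 3 * (n + (q + 2) : ℝ) ^ 2 := by
            gcongr
            · linarith
            · linarith
        _ = _ := by ring
    have h2 : 0 < (q : ℝ) ^ 3 * ((n : ℝ) + 1) ^ 2 := by positivity
    calc A / ((n + (q + 2) : ℕ) : ℝ) ^ 5 * w₁ ≤ A / ((q : ℝ) ^ 3 * ((n : ℝ) + 1) ^ 2) * w₁ := by
          gcongr
      _ = _ := by field_simp
  have husum' : Summable fun n : ℕ => u (n + (q + 2)) :=
    Summable.of_nonneg_of_le (fun n => hu0 _) htail (hZs.mul_left _)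
  have husum : Summable u := (summable_nat_add_iff (q + 2)).1 husum'
  have hU : ∑' n : ℕ, u (n + (q + 2)) ≤ A * w₁ / (q : ℝ) ^ 3 * Z := by
    rw [hZ, ← tsum_mul_left]
    exact husum'.tsum_le_tsum htail (hZs.mul_left _)
  -- the interchange
  have hint : ∀ χ : DirichletCharacter ℂ q,
      ∫ v, (Dd k a (beA k a q L Θ) (NL L) χ v - gd k v) * W v = ∑' M : ℕ, χ M * y M := by
    intro χ
    set F : ℕ → ℝ → ℂ := fun M v =>
      χ M * ((sel_m6_c k a L Θ M * sel_m6_G k M v : ℝ) : ℂ) * W v with hF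
    have hFn : ∀ M v, ‖F M v‖ ≤ |sel_m6_c k a L Θ M| * (sel_m6_G k M v * ‖W v‖) := by
      intro M v
      simp only [hF]
      rw [norm_mul, norm_mul, Complex.norm_real, Real.norm_eq_abs, abs_mul,
        abs_of_pos (sel_m6_G_pos k M v)]
      have h1 : ‖χ (M : ZMod q)‖ ≤ 1 := DirichletCharacter.norm_le_one χ _
      have h2 := sel_m6_G_pos k M v
      calc ‖χ (M : ZMod q)‖ * (|sel_m6_c k a L Θ M| * sel_m6_G k M v) * ‖W v‖
          ≤ 1 * (|sel_m6_c k a L Θ M| * sel_m6_G k M v) * ‖W v‖ := by gcongr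
        _ = _ := by ring
    have hFm : ∀ M, Measurable (F M) := by
      intro M
      have := (sel_m6_G_cont k M).measurable
      exact (((this.const_mul _).complex_ofReal).const_mul _).mul hW
    have hFi : ∀ M, Integrable (F M) := fun M =>
      ((hJi M).const_mul |sel_m6_c k a L Θ M|).mono' (hFm M).aestronglyMeasurable
        (Filter.Eventually.of_forall fun v => hFn M v)
    have hFs : Summable fun M => ∫ v, ‖F M v‖ := by
      refine Summable.of_nonneg_of_le (fun M => integral_nonneg fun v => norm_nonneg _) (fun M => ?_)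
        husum
      simp only [hu, hJ]
      rw [← integral_const_mul]
      exact integral_mono (hFi M).norm ((hJi M).const_mul _) fun v => hFn M v
    have h1 := hasSum_integral_of_summable_integral_norm hFi hFs
    have h2 : ∀ v, ∑' M, F M v = (Dd k a (beA k a q L Θ) (NL L) χ v - gd k v) * W v := fun v =>
      ((sel_m6_sub H h0 hΘ' χ hL0 v).mul_right (W v)).tsum_eq
    simp_rw [h2] at h1
    rw [← h1.tsum_eq]
    refine tsum_congr fun M => ?_
    simp only [hF, hy]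
    rw [← integral_const_mul, ← integral_const_mul]
    refine integral_congr_ae (Filter.Eventually.of_forall fun v => ?_)
    simp only
    push_cast
    ring
  -- splitting
  have hsplit : ∀ χ : DirichletCharacter ℂ q, ‖∑' M : ℕ, χ M * y M‖ ^ 2 ≤
      2 * ‖∑ M ∈ Finset.Ico 2 (q + 2), χ M * y M‖ ^ 2 + 2 * (A * w₁ / (q : ℝ) ^ 3 * Z) ^ 2 := by
    intro χ
    have hn : ∀ M : ℕ, ‖χ (M : ZMod q) * y M‖ ≤ u M := fun M => by
      rw [norm_mul]
      calc ‖χ (M : ZMod q)‖ * ‖y M‖ ≤ 1 * u M :=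
            mul_le_mul (DirichletCharacter.norm_le_one χ _) (hyu M) (norm_nonneg _) zero_le_one
        _ = u M := one_mul _
    have hs : Summable fun M : ℕ => χ (M : ZMod q) * y M := Summable.of_norm_bounded husum hn
    rw [← hs.sum_add_tsum_nat_add (q + 2)]
    have h1 : ∑ M ∈ Finset.range (q + 2), χ (M : ZMod q) * y M =
        ∑ M ∈ Finset.Ico 2 (q + 2), χ (M : ZMod q) * y M := by
      rw [Finset.range_eq_Ico]
      symm
      refine Finset.sum_subset (Finset.Ico_subset_Ico_left (by norm_num)) fun M _ hM => ?_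
      have : ¬ 2 ≤ M := fun h2 => hM (Finset.mem_Ico.2 ⟨h2, by simp_all⟩)
      simp [hy, sel_m6_c, this]
    rw [h1]
    set P := ∑ M ∈ Finset.Ico 2 (q + 2), χ (M : ZMod q) * y M
    set Q := ∑' n : ℕ, χ ((n + (q + 2) : ℕ) : ZMod q) * y (n + (q + 2))
    have hQ : ‖Q‖ ≤ A * w₁ / (q : ℝ) ^ 3 * Z :=
      (tsum_of_norm_bounded husum'.hasSum (fun n => hn _)).trans hU
    have h2 : ‖P + Q‖ ≤ ‖P‖ + A * w₁ / (q : ℝ) ^ 3 * Z := (norm_add_le _ _).trans (by linarith)
    have h3 := pow_le_pow_left₀ (norm_nonneg _) h2 2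
    nlinarith [sq_nonneg (‖P‖ - A * w₁ / (q : ℝ) ^ 3 * Z)]
  -- the diagonal
  have hdiag : ∑ M ∈ Finset.Ico 2 (q + 2), ‖y M‖ ^ 2 ≤ 2 * Real.pi * (4 * (C₁ / L)) * w₂ := by
    set D : ℝ → ℝ → ℝ := fun v v' => ∑ M ∈ Finset.Ico 2 (q + 2), 4 * ((sel_m6_bb k a L Θ M) ^ 2 / M *
        ((M * ((Real.exp v + Real.exp v') / 2)) ^ k *
          Real.exp (-4 * Real.pi * (M * ((Real.exp v + Real.exp v') / 2))))) with hD
    have hsch := schur_one_pr H.kpos hW hWb ⟨1 / 2 * L, hWs⟩ (D := D) (E := 4 * (C₁ / L)) ?_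
      (by positivity)
    · refine le_trans ?_ hsch
      have e1 : ∀ M ∈ Finset.Ico 2 (q + 2), ‖y M‖ ^ 2 ≤ ∫ v, ∫ v', ‖W v‖ * ‖W v'‖ *
          ((sel_m6_c k a L Θ M) ^ 2 * (sel_m6_G k M v * sel_m6_G k M v')) := by
        intro M _
        refine (pow_le_pow_left₀ (norm_nonneg _) (hyu M) 2).trans (le_of_eq ?_)
        have h2 : ∀ v, ∫ v', ‖W v‖ * ‖W v'‖ *
            ((sel_m6_c k a L Θ M) ^ 2 * (sel_m6_G k M v * sel_m6_G k M v')) =
            (sel_m6_c k a L Θ M) ^ 2 * J M * (sel_m6_G k M v * ‖W v‖) := by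
          intro v
          simp only [hJ]
          have : ∀ v', ‖W v‖ * ‖W v'‖ * ((sel_m6_c k a L Θ M) ^ 2 * (sel_m6_G k M v * sel_m6_G k M v')) =
              (sel_m6_c k a L Θ M) ^ 2 * (sel_m6_G k M v * ‖W v‖) * (sel_m6_G k M v' * ‖W v'‖) :=
            fun v' => by ring
          simp_rw [this]
          rw [integral_const_mul]
          ring
        simp_rw [h2]
        rw [integral_const_mul]
        simp only [hu, hJ, mul_pow, sq_abs]
        ring
      refine (Finset.sum_le_sum e1).trans (le_of_eq ?_)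
      have hin : ∀ M v, Integrable fun v' => ‖W v‖ * ‖W v'‖ *
          ((sel_m6_c k a L Θ M) ^ 2 * (sel_m6_G k M v * sel_m6_G k M v')) := by
        intro M v
        refine ((hJi M).const_mul (‖W v‖ * (sel_m6_c k a L Θ M) ^ 2 * sel_m6_G k M v)).congr
          (Filter.Eventually.of_forall fun v' => ?_)
        simp only
        ring
      have hout : ∀ M, Integrable fun v => ∫ v', ‖W v‖ * ‖W v'‖ *
          ((sel_m6_c k a L Θ M) ^ 2 * (sel_m6_G k M v * sel_m6_G k M v')) := by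
        intro M
        refine ((hJi M).const_mul ((sel_m6_c k a L Θ M) ^ 2 * J M)).congr
          (Filter.Eventually.of_forall fun v => ?_)
        simp only [hJ]
        have : ∀ v', ‖W v‖ * ‖W v'‖ * ((sel_m6_c k a L Θ M) ^ 2 * (sel_m6_G k M v * sel_m6_G k M v')) =
            (sel_m6_c k a L Θ M) ^ 2 * (sel_m6_G k M v * ‖W v‖) * (sel_m6_G k M v' * ‖W v'‖) :=
          fun v' => by ring
        simp_rw [this]
        rw [integral_const_mul]
        ring
      rw [← integral_finsetSum _ fun M _ => hout M]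
      refine integral_congr_ae (Filter.Eventually.of_forall fun v => ?_)
      simp only
      rw [← integral_finsetSum _ fun M _ => hin M v]
      refine integral_congr_ae (Filter.Eventually.of_forall fun v' => ?_)
      simp only [hD]
      rw [← Finset.mul_sum, Finset.mul_sum (a := (1 / Real.cosh ((v - v') / 2)) ^ k)]
      congr 1
      refine Finset.sum_congr rfl fun M hM => ?_
      rw [Finset.mem_Ico] at hM
      exact sel_m6_kernel hM.1 v v'
    · intro v v' hv hv'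
      constructor
      · simp only [hD]
        refine Finset.sum_nonneg fun M _ => ?_
        positivity
      · simp only [hD]
        rw [← Finset.mul_sum]
        apply mul_le_mul_of_nonneg_left _ (by norm_num)
        apply he L _ (q + 2) hL2
        have h1 : Real.exp (-L / 2) ≤ Real.exp v := Real.exp_le_exp.2 (by linarith [(hWs' v hv).1])
        have h2 : Real.exp (-L / 2) ≤ Real.exp v' := Real.exp_le_exp.2 (by linarith [(hWs' v' hv').1])
        linarith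
  -- the tail is small
  have hfin : (A * w₁ / (q : ℝ) ^ 3 * Z) ^ 2 ≤ (A * Z) ^ 2 / L * w₂ := by
    have hLq2 : L ^ 2 ≤ ((q : ℝ) ^ 3) ^ 2 := by
      have h1 : Real.log q ≤ q := (Real.log_le_sub_one_of_pos hq0).trans (by linarith)
      have h2 : (1 : ℝ) ≤ q := by
        have : 1 ≤ q := by omega
        exact_mod_cast this
      have h3 : (q : ℝ) ≤ (q : ℝ) ^ 3 := by
        calc (q : ℝ) = (q : ℝ) ^ 1 := (pow_one _).symm
          _ ≤ (q : ℝ) ^ 3 := pow_le_pow_right₀ h2 (by norm_num)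
      exact pow_le_pow_left₀ hL0.le (by linarith) 2
    have e : (A * w₁ / (q : ℝ) ^ 3 * Z) ^ 2 = (A * Z) ^ 2 * w₁ ^ 2 / ((q : ℝ) ^ 3) ^ 2 := by
      field_simp
    rw [e, div_mul_eq_mul_div, div_le_div_iff₀ (by positivity) hL0]
    calc (A * Z) ^ 2 * w₁ ^ 2 * L ≤ (A * Z) ^ 2 * (L * w₂) * L := by gcongr
      _ = (A * Z) ^ 2 * w₂ * L ^ 2 := by ring
      _ ≤ (A * Z) ^ 2 * w₂ * ((q : ℝ) ^ 3) ^ 2 := by gcongr
  -- conclusion
  simp_rw [hint]
  calc ∑ χ : DirichletCharacter ℂ q, ‖∑' M : ℕ, χ M * y M‖ ^ 2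
      ≤ ∑ χ : DirichletCharacter ℂ q, (2 * ‖∑ M ∈ Finset.Ico 2 (q + 2), χ M * y M‖ ^ 2 +
          2 * (A * w₁ / (q : ℝ) ^ 3 * Z) ^ 2) := Finset.sum_le_sum fun χ _ => hsplit χ
    _ = 2 * ∑ χ : DirichletCharacter ℂ q, ‖∑ M ∈ Finset.Ico 2 (q + 2), χ M * y M‖ ^ 2 +
          q.totient * (2 * (A * w₁ / (q : ℝ) ^ 3 * Z) ^ 2) := by
        rw [Finset.sum_add_distrib, ← Finset.mul_sum, Finset.sum_const, Finset.card_univ,
          nsmul_eq_mul, sel_m6_card]
    _ ≤ 2 * (q.totient * (2 * Real.pi * (4 * (C₁ / L)) * w₂)) +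
          q.totient * (2 * ((A * Z) ^ 2 / L * w₂)) := by
        refine add_le_add (mul_le_mul_of_nonneg_left ((sel_m6_orth y).trans
          (mul_le_mul_of_nonneg_left hdiag hφ)) (by norm_num)) ?_
        exact mul_le_mul_of_nonneg_left (mul_le_mul_of_nonneg_left hfin (by norm_num)) hφ
    _ = (2 * (2 * Real.pi * (4 * C₁)) + 2 * (A * Z) ^ 2) * q.totient / L * w₂ := by ring
    _ ≤ (2 * (2 * Real.pi * (4 * C₁)) + 2 * (A * Z) ^ 2 + 1) * q.totient / L * w₂ := by
        apply mul_le_mul_of_nonneg_right _ hw₂0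
        apply div_le_div_of_nonneg_right _ hL0.le
        apply mul_le_mul_of_nonneg_right _ hφ
        linarith

theorem s_two : type_of% @s_two_pr := @s_two_pr

end Pool.Agent.SEL
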