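import Pool.Agent.Lib_helper68.SEL.Final
import Pool.Agent.Lib_helper68.GL2.MFD
import Pool.Agent.Lib_helper68.GL2.NORM
import Pool.Agent.Lib_helper28.REAL.Main

/-! Assembly: the theorem for cusp forms. -/

namespace Pool.Agent.SEL

open Complex MeasureTheory Filter Topology Pool.Agent.GL2
open scoped MatrixGroups ENNReal

theorem top_selberg {k : ℕ} (hk : 0 < k) (f : CuspForm 𝒮ℒ (k : ℤ))
    (hone : (UpperHalfPlane.qExpansion 1 f).coeff 1 = 1)
    (hmul : ∀ m n : ℕ, m.Coprime n → (UpperHalfPlane.qExpansion 1 f).coeff (m * n) =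
      (UpperHalfPlane.qExpansion 1 f).coeff m * (UpperHalfPlane.qExpansion 1 f).coeff n)
    (hhecke : ∀ p r : ℕ, p.Prime → (UpperHalfPlane.qExpansion 1 f).coeff (p ^ (r + 2)) =
      (UpperHalfPlane.qExpansion 1 f).coeff p * (UpperHalfPlane.qExpansion 1 f).coeff (p ^ (r + 1)) -
        (p : ℂ) ^ (k - 1) * (UpperHalfPlane.qExpansion 1 f).coeff (p ^ r))
    (T : ℝ) :
    ∃ C : ℝ, 0 < C ∧ ∀ (q : ℕ) [NeZero q], 2 ≤ q → ∀ α β h H : ℝ, -T ≤ α → β ≤ T →
      0 < H → H ≤ h → h ≤ β - α →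
      (Nat.card {χ : DirichletCharacter ℂ q // χ.IsPrimitive ∧
        ¬ ∃ Λ : ℂ → ℂ, IsLambda k (fun n => (UpperHalfPlane.qExpansion 1 f).coeff n) χ Λ ∧
          ∀ x : ℝ, α ≤ x → x + h ≤ β →
          ENNReal.ofReal (h / H) < oddCrit Λ x (x + h) ∧
          ENNReal.ofReal (h / (C * H * Real.log q)) * allZer Λ x (x + h) ≤
            oddCrit Λ x (x + h)} : ℝ) ≤
        C * (β - α) * q.totient / (h * H * Real.log q) := by
  have hf : IsHeckeEigenform f := ⟨Pool.Agent.RealCoeff.coeff_real f hk hone hmul hhecke,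
    hone, hmul, hhecke⟩
  set a : ℕ → ℝ := fun n => ((UpperHalfPlane.qExpansion 1 f).coeff n).re with ha
  have hac : (fun n : ℕ => (a n : ℂ)) = fun n => (UpperHalfPlane.qExpansion 1 f).coeff n := by
    funext n
    apply Complex.ext
    · simp [ha]
    · rw [Complex.ofReal_im, hf.real n]
  have H : HData k a := hdata_of_eigenform_pr hk f hf
  obtain ⟨C, hC, h⟩ := selberg_final H T
  rw [← hac]
  exact ⟨C, hC, h⟩

end Pool.Agent.SEL
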